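import Pool.Agent.Lib.MP_fa244c_mp.EnTend

set_option autoImplicit false

open MeasureTheory Filter Topology Set Metric

namespace Pool.Agent.Lib.MP_fa244c_mp

namespace ApproxAux

open EnTendAux

/-- Compact exhaustion. -/
def KK (Λ : Set ℂ) (B : Set ℂ) (j : ℕ) : Set ℂ := B ∪ {x | ((j : ℝ) + 1)⁻¹ ≤ infDist x Λᶜ}

theorem compl_ne {Λ : Set ℂ} {g : ℂ → ℂ → ℝ} (hD : Dom Λ g) : (Λᶜ).Nonempty := by
  rw [Set.nonempty_compl]
  intro h
  have := hD.bdd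
  rw [h] at this
  exact NormedSpace.unbounded_univ ℝ ℂ this

theorem KK_sub {Λ : Set ℂ} {B : Set ℂ} (hB : B ⊆ Λ) (j : ℕ) : KK Λ B j ⊆ Λ := by
  intro x hx
  rcases hx with hx | hx
  · exact hB hx
  · by_contra hn
    have h1 : infDist x Λᶜ = 0 := infDist_zero_of_mem hn
    have h2 : ((j : ℝ) + 1)⁻¹ ≤ infDist x Λᶜ := hx
    have h3 : (0 : ℝ) < ((j : ℝ) + 1)⁻¹ := by positivity
    linarith

theorem KK_compact {Λ : Set ℂ} {g : ℂ → ℂ → ℝ} (hD : Dom Λ g) {B : Set ℂ} (hBc : IsCompact B)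
    (j : ℕ) : IsCompact (KK Λ B j) := by
  refine hBc.union ?_
  refine Metric.isCompact_of_isClosed_isBounded ?_ ?_
  · exact isClosed_le continuous_const (continuous_infDist_pt _)
  · refine hD.bdd.subset ?_
    intro x hx
    by_contra hn
    have h1 : infDist x Λᶜ = 0 := infDist_zero_of_mem hn
    have h2 : ((j : ℝ) + 1)⁻¹ ≤ infDist x Λᶜ := hx
    have h3 : (0 : ℝ) < ((j : ℝ) + 1)⁻¹ := by positivity
    linarith

theorem KK_ev {Λ : Set ℂ} {g : ℂ → ℂ → ℝ} (hD : Dom Λ g) (B : Set ℂ) {x : ℂ} (hx : x ∈ Λ) :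
    ∀ᶠ j : ℕ in atTop, x ∈ KK Λ B j := by
  have h1 : 0 < infDist x Λᶜ := by
    rw [← hD.isOpen.isClosed_compl.notMem_iff_infDist_pos (compl_ne hD)]
    simpa using hx
  have h2 : Tendsto (fun j : ℕ => ((j : ℝ) + 1)⁻¹) atTop (𝓝 0) := by
    simpa [one_div] using tendsto_one_div_add_atTop_nhds_zero_nat (𝕜 := ℝ)
  filter_upwards [h2.eventually_lt_const h1] with j hj
  exact Or.inr hj.le

/-- Truncation. -/
noncomputable def tr (K : Set ℂ) (j : ℕ) (ρ : ℂ → ℝ) : ℂ → ℝ :=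
  (K ∩ {x | ρ x ≤ j}).indicator ρ

/-- Normalized truncation. -/
noncomputable def ntr (K : Set ℂ) (j : ℕ) (ρ : ℂ → ℝ) : ℂ → ℝ :=
  fun x => (max (∫ y, tr K j ρ y) (1 / 2))⁻¹ * tr K j ρ x

theorem tr_meas {Λ : Set ℂ} {ρ : ℂ → ℝ} (hρ : IsDens Λ ρ) {K : Set ℂ} (hK : MeasurableSet K)
    (j : ℕ) : Measurable (tr K j ρ) :=
  hρ.meas.indicator (hK.inter (measurableSet_le hρ.meas measurable_const))

theorem tr_nonneg {Λ : Set ℂ} {ρ : ℂ → ℝ} (hρ : IsDens Λ ρ) (K : Set ℂ) (j : ℕ) (x : ℂ) :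
    0 ≤ tr K j ρ x := Set.indicator_nonneg (fun _ _ => hρ.nonneg _) x

theorem tr_le {Λ : Set ℂ} {ρ : ℂ → ℝ} (hρ : IsDens Λ ρ) (K : Set ℂ) (j : ℕ) (x : ℂ) :
    tr K j ρ x ≤ ρ x := Set.indicator_le_self' (fun _ _ => hρ.nonneg _) x

theorem tr_le' {ρ : ℂ → ℝ} (K : Set ℂ) (j : ℕ) (x : ℂ) :
    tr K j ρ x ≤ j := by
  unfold tr
  by_cases hx : x ∈ K ∩ {x | ρ x ≤ j}
  · rw [Set.indicator_of_mem hx]
    exact hx.2
  · rw [Set.indicator_of_notMem hx]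
    positivity

theorem tr_supp {ρ : ℂ → ℝ} {K : Set ℂ} (j : ℕ) {x : ℂ} (hx : x ∉ K) : tr K j ρ x = 0 :=
  Set.indicator_of_notMem (fun h => hx h.1) _

theorem tr_int {Λ : Set ℂ} {ρ : ℂ → ℝ} (hρ : IsDens Λ ρ) {K : Set ℂ} (hK : MeasurableSet K)
    (j : ℕ) : Integrable (tr K j ρ) :=
  (integrable_of_integral_eq_one hρ.int).indicator
    (hK.inter (measurableSet_le hρ.meas measurable_const))

theorem tr_ev {Λ : Set ℂ} {g : ℂ → ℂ → ℝ} (hD : Dom Λ g) {ρ : ℂ → ℝ} (hρ : IsDens Λ ρ)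
    {B : Set ℂ} (hB : B ⊆ Λ) (x : ℂ) :
    ∀ᶠ j : ℕ in atTop, tr (KK Λ B j) j ρ x = ρ x := by
  by_cases hx : x ∈ Λ
  · filter_upwards [KK_ev hD B hx, eventually_ge_atTop ⌈ρ x⌉₊] with j h1 h2
    have h3 : ρ x ≤ j := (Nat.le_ceil _).trans (by exact_mod_cast h2)
    exact Set.indicator_of_mem (show x ∈ KK Λ B j ∩ {x | ρ x ≤ j} from ⟨h1, h3⟩) _
  · refine Eventually.of_forall fun j => ?_
    rw [tr_supp j (fun h => hx (KK_sub hB j h)), hρ.supp x hx]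

theorem tr_mass {Λ : Set ℂ} {g : ℂ → ℂ → ℝ} (hD : Dom Λ g) {ρ : ℂ → ℝ} (hρ : IsDens Λ ρ)
    {B : Set ℂ} (hBc : IsCompact B) (hB : B ⊆ Λ) :
    Tendsto (fun j : ℕ => ∫ x, tr (KK Λ B j) j ρ x) atTop (𝓝 1) := by
  rw [← hρ.int]
  refine tendsto_integral_of_dominated_convergence ρ
    (fun j => (tr_meas hρ (KK_compact hD hBc j).measurableSet j).aestronglyMeasurable)
    (integrable_of_integral_eq_one hρ.int) (fun j => Eventually.of_forall fun x => ?_)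
    (Eventually.of_forall fun x => ?_)
  · rw [Real.norm_eq_abs, abs_of_nonneg (tr_nonneg hρ _ _ _)]
    exact tr_le hρ _ _ _
  · exact tendsto_const_nhds.congr' ((tr_ev hD hρ hB x).mono fun j hj => hj.symm)

theorem ntr_nonneg {Λ : Set ℂ} {ρ : ℂ → ℝ} (hρ : IsDens Λ ρ) (K : Set ℂ) (j : ℕ) (x : ℂ) :
    0 ≤ ntr K j ρ x :=
  mul_nonneg (inv_nonneg.2 (le_trans (by norm_num) (le_max_right _ _))) (tr_nonneg hρ K j x)

theorem inv_max_le (a : ℝ) : (max a (1 / 2))⁻¹ ≤ 2 := by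
  have h : (1 / 2 : ℝ) ≤ max a (1 / 2) := le_max_right _ _
  calc (max a (1 / 2))⁻¹ ≤ (1 / 2 : ℝ)⁻¹ := inv_anti₀ (by norm_num) h
    _ = 2 := by norm_num

theorem ntr_le {Λ : Set ℂ} {ρ : ℂ → ℝ} (hρ : IsDens Λ ρ) (K : Set ℂ) (j : ℕ) (x : ℂ) :
    ntr K j ρ x ≤ 2 * ρ x :=
  mul_le_mul (inv_max_le _) (tr_le hρ K j x) (tr_nonneg hρ K j x) (by norm_num)

theorem ntr_le' {Λ : Set ℂ} {ρ : ℂ → ℝ} (hρ : IsDens Λ ρ) (K : Set ℂ) (j : ℕ) (x : ℂ) :
    ntr K j ρ x ≤ 2 * j :=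
  mul_le_mul (inv_max_le _) (tr_le' K j x) (tr_nonneg hρ K j x) (by norm_num)

theorem ntr_tendsto {Λ : Set ℂ} {g : ℂ → ℂ → ℝ} (hD : Dom Λ g) {ρ : ℂ → ℝ} (hρ : IsDens Λ ρ)
    {B : Set ℂ} (hBc : IsCompact B) (hB : B ⊆ Λ) (x : ℂ) :
    Tendsto (fun j : ℕ => ntr (KK Λ B j) j ρ x) atTop (𝓝 (ρ x)) := by
  have h1 := tr_mass hD hρ hBc hB
  have h2 : Tendsto (fun j : ℕ => (max (∫ x, tr (KK Λ B j) j ρ x) (1 / 2))⁻¹) atTop
      (𝓝 ((max (1 : ℝ) (1 / 2))⁻¹)) :=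
    (h1.max tendsto_const_nhds).inv₀ (by norm_num)
  have h3 : Tendsto (fun j : ℕ => tr (KK Λ B j) j ρ x) atTop (𝓝 (ρ x)) :=
    tendsto_const_nhds.congr' ((tr_ev hD hρ hB x).mono fun j hj => hj.symm)
  have h4 := h2.mul h3
  have h5 : (max (1 : ℝ) (1 / 2))⁻¹ * ρ x = ρ x := by
    rw [max_eq_left (by norm_num)]; simp
  rw [h5] at h4
  exact h4

theorem ntr_meas {Λ : Set ℂ} {ρ : ℂ → ℝ} (hρ : IsDens Λ ρ) {K : Set ℂ} (hK : MeasurableSet K)
    (j : ℕ) : Measurable (ntr K j ρ) := (tr_meas hρ hK j).const_mul _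

/-- Uniform density on `B`. -/
noncomputable def uB (B : Set ℂ) : ℂ → ℝ := fun x => (volume.real B)⁻¹ * B.indicator 1 x

theorem enE_scale {g : ℂ → ℂ → ℝ} {a b c d : ℂ → ℝ} {t : ℝ}
    (h : ∀ x, a x - b x = t * (c x - d x)) : enE g a b = t ^ 2 * enE g c d := by
  unfold enE
  have h1 : ∀ x y, Gst g x y * (a x - b x) * (a y - b y) =
      t ^ 2 * (Gst g x y * (c x - d x) * (c y - d y)) := by
    intro x y
    rw [h x, h y]
    ring
  simp_rw [h1, integral_const_mul]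
  ring

end ApproxAux

open EnTendAux ApproxAux in
/-- Approximation of densities of finite entropy by nice ones, from below in energy. -/
theorem approx {Λ : Set ℂ} {g : ℂ → ℂ → ℝ} (hD : Dom Λ g) (hm : Measurable (Function.uncurry g))
    {ρp ρm : ℂ → ℝ} (hρp : IsDens Λ ρp) (hρm : IsDens Λ ρm) (hE : 0 < enE g ρp ρm) {K₀ : Set ℂ}
    (hK₀ : IsCompact K₀) (hK₀Λ : K₀ ⊆ Λ) :
    ∃ (K : ℕ → Set ℂ) (r s : ℕ → ℂ → ℝ) (C : ℝ), (∀ n, IsCompact (K n) ∧ K₀ ⊆ K n ∧ K n ⊆ Λ) ∧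
      (∀ n, Nice (K n) (r n) ∧ Nice (K n) (s n)) ∧ (∀ n, enE g (r n) (s n) < enE g ρp ρm) ∧
      (∀ n x, r n x ≤ 2 * ρp x + C * Λ.indicator 1 x ∧ s n x ≤ 2 * ρm x + C * Λ.indicator 1 x) ∧
      (∀ᵐ x, Tendsto (fun n => r n x) atTop (𝓝 (ρp x))) ∧
      (∀ᵐ x, Tendsto (fun n => s n x) atTop (𝓝 (ρm x))) := by
  -- a closed ball in `Λ`
  obtain ⟨b, hbΛ⟩ := hD.ne
  obtain ⟨ε, hε, hball⟩ := Metric.isOpen_iff.1 hD.isOpen b hbΛ
  have hB1 : closedBall b (ε / 2) ⊆ Λ := (closedBall_subset_ball (by linarith)).trans hball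
  set B₁ : Set ℂ := closedBall b (ε / 2) with hB₁
  have hB1c : IsCompact B₁ := isCompact_closedBall _ _
  have hvB : 0 < volume.real B₁ := by
    refine ENNReal.toReal_pos ?_ hB1c.measure_lt_top.ne
    exact (measure_closedBall_pos volume b (by linarith)).ne'
  set B : Set ℂ := K₀ ∪ B₁ with hBdef
  have hBc : IsCompact B := hK₀.union hB1c
  have hBΛ : B ⊆ Λ := union_subset hK₀Λ hB1
  -- the uniform density on the ball
  have hu_nonneg : ∀ x, 0 ≤ uB B₁ x := fun x =>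
    mul_nonneg (inv_nonneg.2 hvB.le) (Set.indicator_nonneg (fun _ _ => zero_le_one) x)
  have hu_le : ∀ x, uB B₁ x ≤ (volume.real B₁)⁻¹ * Λ.indicator 1 x := by
    intro x
    refine mul_le_mul_of_nonneg_left ?_ (inv_nonneg.2 hvB.le)
    exact Set.indicator_le_indicator_of_subset hB1 (fun _ => zero_le_one) x
  have hu_supp : ∀ x, x ∉ B₁ → uB B₁ x = 0 := fun x hx => by simp [uB, hx]
  have hu_meas : Measurable (uB B₁) :=
    (measurable_const.indicator isClosed_closedBall.measurableSet).const_mul _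
  have hu_int1 : Integrable (fun x : ℂ => B₁.indicator (1 : ℂ → ℝ) x) := by
    have h : Integrable (B₁.indicator (fun _ : ℂ => (1 : ℝ))) :=
      (integrable_indicator_iff isClosed_closedBall.measurableSet).2
        (integrableOn_const hB1c.measure_lt_top.ne)
    exact h
  have hu_int : Integrable (uB B₁) := hu_int1.const_mul _
  have hu_one : ∫ x, uB B₁ x = 1 := by
    unfold uB
    rw [integral_const_mul, integral_indicator_one isClosed_closedBall.measurableSet]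
    exact inv_mul_cancel₀ hvB.ne'
  -- choice of the truncation level
  have hKm : ∀ j, MeasurableSet (KK Λ B j) := fun j => (KK_compact hD hBc j).measurableSet
  have hen : Tendsto (fun j : ℕ => enE g (ntr (KK Λ B j) j ρp) (ntr (KK Λ B j) j ρm)) atTop
      (𝓝 (enE g ρp ρm)) := by
    refine enE_tendsto hD hm hρp hρm (C := 2) hρp hρm (fun j => ntr_meas hρp (hKm j) j)
      (fun j => ntr_meas hρm (hKm j) j) (fun j x => ⟨?_, ?_⟩)
      (Eventually.of_forall fun x => ntr_tendsto hD hρp hBc hBΛ x)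
      (Eventually.of_forall fun x => ntr_tendsto hD hρm hBc hBΛ x)
    · rw [abs_of_nonneg (ntr_nonneg hρp _ _ _)]
      have hi : (0 : ℝ) ≤ Λ.indicator (1 : ℂ → ℝ) x :=
        Set.indicator_nonneg (fun _ _ => zero_le_one) x
      linarith [ntr_le hρp (KK Λ B j) j x]
    · rw [abs_of_nonneg (ntr_nonneg hρm _ _ _)]
      have hi : (0 : ℝ) ≤ Λ.indicator (1 : ℂ → ℝ) x :=
        Set.indicator_nonneg (fun _ _ => zero_le_one) x
      linarith [ntr_le hρm (KK Λ B j) j x]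
  have hch : ∀ n : ℕ, ∃ j : ℕ, n ≤ j ∧ (1 / 2 : ℝ) ≤ ∫ x, tr (KK Λ B j) j ρp x ∧
      (1 / 2 : ℝ) ≤ ∫ x, tr (KK Λ B j) j ρm x ∧
      enE g (ntr (KK Λ B j) j ρp) (ntr (KK Λ B j) j ρm) <
        (1 + 1 / ((n : ℝ) + 2)) * enE g ρp ρm := by
    intro n
    have h1 : enE g ρp ρm < (1 + 1 / ((n : ℝ) + 2)) * enE g ρp ρm := by
      have : (0 : ℝ) < 1 / ((n : ℝ) + 2) := by positivity
      nlinarith
    have h2 := hen.eventually_lt_const h1
    have h3 := (tr_mass hD hρp hBc hBΛ).eventually_const_le (show (1 / 2 : ℝ) < 1 by norm_num)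
    have h4 := (tr_mass hD hρm hBc hBΛ).eventually_const_le (show (1 / 2 : ℝ) < 1 by norm_num)
    obtain ⟨j, e1, e2, e3, e4⟩ := (((eventually_ge_atTop n).and (h3.and (h4.and h2)))).exists
    exact ⟨j, e1, e2, e3, e4⟩
  choose J hJ1 hJ2 hJ3 hJ4 using hch
  set t : ℕ → ℝ := fun n => 1 / ((n : ℝ) + 2) with ht
  have ht0 : ∀ n, 0 < t n := fun n => by simp only [ht]; positivity
  have ht1 : ∀ n, t n ≤ 1 / 2 := fun n => by
    simp only [ht]
    exact one_div_le_one_div_of_le (by norm_num) (by linarith [(Nat.cast_nonneg n : (0 : ℝ) ≤ n)])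
  have httend : Tendsto t atTop (𝓝 0) := by
    have h : Tendsto (fun n : ℕ => (n : ℝ) + 2) atTop atTop :=
      tendsto_atTop_add_const_right _ _ tendsto_natCast_atTop_atTop
    have h' : Tendsto (fun n : ℕ => ((n : ℝ) + 2)⁻¹) atTop (𝓝 0) := h.inv_tendsto_atTop
    simpa only [ht, one_div] using h'
  have hJtend : Tendsto J atTop atTop := tendsto_atTop_mono hJ1 tendsto_id
  -- general facts on the mixture
  have hNice : ∀ {ρ : ℂ → ℝ}, IsDens Λ ρ → ∀ n, (1 / 2 : ℝ) ≤ ∫ x, tr (KK Λ B (J n)) (J n) ρ x →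
      Nice (KK Λ B (J n)) (fun x => (1 - t n) * ntr (KK Λ B (J n)) (J n) ρ x + t n * uB B₁ x) := by
    intro ρ hρ n hmass
    have hnn : ∀ x, 0 ≤ ntr (KK Λ B (J n)) (J n) ρ x := fun x => ntr_nonneg hρ _ _ x
    have h1t : 0 ≤ 1 - t n := by linarith [ht1 n]
    refine ⟨((ntr_meas hρ (hKm _) _).const_mul _).add (hu_meas.const_mul _), fun x => ?_,
      fun x hx => ?_, ?_, ⟨2 * (J n : ℝ) + (volume.real B₁)⁻¹, fun x => ?_⟩⟩
    · exact add_nonneg (mul_nonneg h1t (hnn x)) (mul_nonneg (ht0 n).le (hu_nonneg x))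
    · have e1 : tr (KK Λ B (J n)) (J n) ρ x = 0 := tr_supp _ hx
      have e2 : uB B₁ x = 0 := hu_supp x fun h => hx (Or.inl (Or.inr h))
      simp [ntr, e1, e2]
    · have e1 : Integrable (ntr (KK Λ B (J n)) (J n) ρ) := (tr_int hρ (hKm _) _).const_mul _
      rw [integral_add (e1.const_mul _) (hu_int.const_mul _), integral_const_mul,
        integral_const_mul, hu_one]
      have e2 : ∫ x, ntr (KK Λ B (J n)) (J n) ρ x = 1 := by
        unfold ntr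
        rw [integral_const_mul, max_eq_left hmass]
        exact inv_mul_cancel₀ (by linarith)
      rw [e2]
      ring
    · have e1 := ntr_le' hρ (KK Λ B (J n)) (J n) x
      have e2 := hu_le x
      have e3 : (volume.real B₁)⁻¹ * Λ.indicator 1 x ≤ (volume.real B₁)⁻¹ := by
        have : Λ.indicator (1 : ℂ → ℝ) x ≤ 1 := Set.indicator_le_self' (fun _ _ => zero_le_one) x
        calc (volume.real B₁)⁻¹ * Λ.indicator 1 x ≤ (volume.real B₁)⁻¹ * 1 :=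
              mul_le_mul_of_nonneg_left this (inv_nonneg.2 hvB.le)
          _ = _ := mul_one _
      have e4 : (1 - t n) * ntr (KK Λ B (J n)) (J n) ρ x ≤ 1 * ntr (KK Λ B (J n)) (J n) ρ x :=
        mul_le_mul_of_nonneg_right (by linarith [ht0 n]) (hnn x)
      have e5 : t n * uB B₁ x ≤ 1 * uB B₁ x :=
        mul_le_mul_of_nonneg_right (by linarith [ht1 n]) (hu_nonneg x)
      linarith
  have hBd : ∀ {ρ : ℂ → ℝ}, IsDens Λ ρ → ∀ n x,
      (1 - t n) * ntr (KK Λ B (J n)) (J n) ρ x + t n * uB B₁ x ≤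
        2 * ρ x + (volume.real B₁)⁻¹ * Λ.indicator 1 x := by
    intro ρ hρ n x
    have e1 := ntr_le hρ (KK Λ B (J n)) (J n) x
    have e2 := hu_le x
    have e4 : (1 - t n) * ntr (KK Λ B (J n)) (J n) ρ x ≤ 1 * ntr (KK Λ B (J n)) (J n) ρ x :=
      mul_le_mul_of_nonneg_right (by linarith [ht0 n]) (ntr_nonneg hρ _ _ x)
    have e5 : t n * uB B₁ x ≤ 1 * uB B₁ x :=
      mul_le_mul_of_nonneg_right (by linarith [ht1 n]) (hu_nonneg x)
    linarith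
  have hT : ∀ {ρ : ℂ → ℝ}, IsDens Λ ρ → ∀ x,
      Tendsto (fun n => (1 - t n) * ntr (KK Λ B (J n)) (J n) ρ x + t n * uB B₁ x) atTop
        (𝓝 (ρ x)) := by
    intro ρ hρ x
    have e1 : Tendsto (fun n => ntr (KK Λ B (J n)) (J n) ρ x) atTop (𝓝 (ρ x)) :=
      (ntr_tendsto hD hρ hBc hBΛ x).comp hJtend
    have e2 := ((httend.const_sub 1).mul e1).add (httend.mul_const (uB B₁ x))
    simpa using e2
  refine ⟨fun n => KK Λ B (J n),
    fun n x => (1 - t n) * ntr (KK Λ B (J n)) (J n) ρp x + t n * uB B₁ x,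
    fun n x => (1 - t n) * ntr (KK Λ B (J n)) (J n) ρm x + t n * uB B₁ x,
    (volume.real B₁)⁻¹, fun n => ⟨KK_compact hD hBc _, ?_, KK_sub hBΛ _⟩,
    fun n => ⟨hNice hρp n (hJ2 n), hNice hρm n (hJ3 n)⟩, fun n => ?_,
    fun n x => ⟨hBd hρp n x, hBd hρm n x⟩, Eventually.of_forall fun x => hT hρp x,
    Eventually.of_forall fun x => hT hρm x⟩
  · exact (subset_union_left.trans subset_union_left : K₀ ⊆ B ∪ _)
  · have e1 : enE g (fun x => (1 - t n) * ntr (KK Λ B (J n)) (J n) ρp x + t n * uB B₁ x)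
        (fun x => (1 - t n) * ntr (KK Λ B (J n)) (J n) ρm x + t n * uB B₁ x) =
        (1 - t n) ^ 2 * enE g (ntr (KK Λ B (J n)) (J n) ρp) (ntr (KK Λ B (J n)) (J n) ρm) :=
      enE_scale fun x => by ring
    rw [e1]
    have e2 := hJ4 n
    have e3 : (0 : ℝ) < (1 - t n) ^ 2 := by
      have h1 := ht1 n
      exact pow_pos (by linarith) 2
    have e4 := mul_lt_mul_of_pos_left e2 e3
    refine e4.trans ?_
    have e5 : (1 - t n) ^ 2 * ((1 + t n) * enE g ρp ρm) =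
        ((1 - t n) ^ 2 * (1 + t n)) * enE g ρp ρm := by ring
    have e6 : (1 - t n) ^ 2 * (1 + t n) < 1 := by
      have h1 := ht1 n
      have h0 := ht0 n
      nlinarith [mul_pos h0 h0, mul_pos (mul_pos h0 h0) h0]
    calc (1 - t n) ^ 2 * ((1 + t n) * enE g ρp ρm)
        = ((1 - t n) ^ 2 * (1 + t n)) * enE g ρp ρm := e5
      _ < 1 * enE g ρp ρm := mul_lt_mul_of_pos_right e6 hE
      _ = _ := one_mul _

end Pool.Agent.Lib.MP_fa244c_mp
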