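import Pool.Agent.Lib.MP_fa244c_mp.EBasic

set_option autoImplicit false

open MeasureTheory Filter Topology Set Metric

namespace Pool.Agent.Lib.MP_fa244c_mp

namespace FewSep

open scoped ENNReal

/-- Integrate out one coordinate. -/
theorem pi_inter_le {ι : Type} [Fintype ι] [DecidableEq ι] (μ : Measure ℂ)
    [IsProbabilityMeasure μ] (A E : Set (ι → ℂ)) (hA : MeasurableSet A) (hE : MeasurableSet E)
    (i : ι) (hAi : ∀ x y, Function.update x i y ∈ A ↔ x ∈ A) (c : ℝ≥0∞)
    (hc : ∀ x, μ {y | Function.update x i y ∈ E} ≤ c) :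
    Measure.pi (fun _ : ι => μ) (A ∩ E) ≤ c * Measure.pi (fun _ : ι => μ) A := by
  have hm : ∀ x : ι → ℂ, Measurable (fun y : ℂ => Function.update x i y) := fun x =>
    measurable_update x
  have h1 : ∫⁻ x, (A ∩ E).indicator (1 : (ι → ℂ) → ℝ≥0∞) x ∂Measure.pi (fun _ : ι => μ) ≤
      ∫⁻ x, c * A.indicator (1 : (ι → ℂ) → ℝ≥0∞) x ∂Measure.pi (fun _ : ι => μ) := by
    refine lintegral_le_of_lmarginal_le ({i} : Finset ι)
      (measurable_one.indicator (hA.inter hE))
      ((measurable_one.indicator hA).const_mul c) ?_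
    rw [lmarginal_singleton, lmarginal_singleton]
    intro x
    dsimp only
    by_cases hx : x ∈ A
    · have e1 : ∀ y, (A ∩ E).indicator (1 : (ι → ℂ) → ℝ≥0∞) (Function.update x i y) =
          {y | Function.update x i y ∈ E}.indicator (1 : ℂ → ℝ≥0∞) y := by
        intro y
        by_cases hy : Function.update x i y ∈ E <;> simp [Set.indicator, hAi, hx, hy]
      have e2 : ∀ y, c * A.indicator (1 : (ι → ℂ) → ℝ≥0∞) (Function.update x i y) = c := by
        intro y
        simp [Set.indicator, hAi, hx]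
      have hms : MeasurableSet {y | Function.update x i y ∈ E} := hm x hE
      simp only [e1, e2]
      rw [lintegral_indicator_one hms]
      simpa using hc x
    · have e1 : ∀ y, (A ∩ E).indicator (1 : (ι → ℂ) → ℝ≥0∞) (Function.update x i y) = 0 := by
        intro y
        simp [Set.indicator, hAi, hx]
      simp only [e1]
      simp
  rw [lintegral_indicator_one (hA.inter hE), lintegral_const_mul _ (measurable_one.indicator hA),
    lintegral_indicator_one hA] at h1
  exact h1

/-- coordinate `u.1` is close to its partner (the complement of `Λ` or another coordinate). -/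
def Ev (Λ : Set ℂ) {ι : Type} (δ : ℝ) (x : ι → ℂ) (u : ι × Option ι) : Prop :=
  match u.2 with
  | none => infDist (x u.1) Λᶜ < δ
  | some j => ‖x u.1 - x j‖ < δ

theorem measurableSet_Ev (Λ : Set ℂ) {ι : Type} [Fintype ι] (δ : ℝ) (u : ι × Option ι) :
    MeasurableSet {x : ι → ℂ | Ev Λ δ x u} := by
  obtain ⟨i, j⟩ := u
  cases j with
  | none =>
    have : IsOpen {x : ι → ℂ | infDist (x i) Λᶜ < δ} :=
      isOpen_lt ((continuous_infDist_pt _).comp (continuous_apply i)) continuous_const
    exact this.measurableSet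
  | some j =>
    have : IsOpen {x : ι → ℂ | ‖x i - x j‖ < δ} :=
      isOpen_lt ((continuous_apply i).sub (continuous_apply j)).norm continuous_const
    exact this.measurableSet

/-- The chain bound. -/
theorem chain {ι : Type} [Fintype ι] [DecidableEq ι] (Λ : Set ℂ) (μ : Measure ℂ)
    [IsProbabilityMeasure μ] (δ : ℝ) (c : ℝ≥0∞)
    (h1 : μ {y | infDist y Λᶜ < δ} ≤ c) (h2 : ∀ w, μ {y | ‖y - w‖ < δ} ≤ c)
    (L : List (ι × Option ι)) (hL : L.Pairwise (fun u v => v.1 ≠ u.1 ∧ v.2 ≠ some u.1))
    (hs : ∀ u ∈ L, u.2 ≠ some u.1) :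
    Measure.pi (fun _ : ι => μ) {x | ∀ u ∈ L, Ev Λ δ x u} ≤ c ^ L.length := by
  induction L with
  | nil => simp
  | cons u L ih =>
    rw [List.pairwise_cons] at hL
    have hA : MeasurableSet {x : ι → ℂ | ∀ v ∈ L, Ev Λ δ x v} := by
      have : {x : ι → ℂ | ∀ v ∈ L, Ev Λ δ x v} = ⋂ v ∈ {v | v ∈ L}, {x | Ev Λ δ x v} := by
        ext x; simp
      rw [this]
      exact MeasurableSet.biInter (Set.to_countable _) (fun v _ => measurableSet_Ev Λ δ v)
    have heq : {x : ι → ℂ | ∀ v ∈ u :: L, Ev Λ δ x v} =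
        {x | ∀ v ∈ L, Ev Λ δ x v} ∩ {x | Ev Λ δ x u} := by
      ext x
      simp only [List.mem_cons, forall_eq_or_imp, Set.mem_ofPred_eq, Set.mem_inter_iff]
      tauto
    rw [heq]
    have hstep := pi_inter_le μ {x : ι → ℂ | ∀ v ∈ L, Ev Λ δ x v} {x | Ev Λ δ x u} hA
      (measurableSet_Ev Λ δ u) u.1 (by
        intro x y
        simp only [Set.mem_ofPred_eq]
        refine forall₂_congr fun v hv => ?_
        obtain ⟨n1, n2⟩ := hL.1 v hv
        obtain ⟨a, b⟩ := v
        cases b with
        | none => simp only [Ev, Function.update_of_ne n1]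
        | some b =>
          have n3 : b ≠ u.1 := fun h => n2 (by simp [h])
          simp only [Ev, Function.update_of_ne n1, Function.update_of_ne n3]) c (by
        intro x
        have hu := hs u (by simp)
        obtain ⟨a, b⟩ := u
        cases b with
        | none =>
          simp only [Ev, Set.mem_ofPred_eq, Function.update_self]
          exact h1
        | some b =>
          have n3 : b ≠ a := fun h => hu (by simp [h])
          simp only [Ev, Set.mem_ofPred_eq, Function.update_self, Function.update_of_ne n3]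
          exact h2 _)
    refine hstep.trans ?_
    rw [List.length_cons, pow_succ']
    gcongr
    exact ih hL.2 (fun v hv => hs v (by simp [hv]))

/-- Greedy choice of the chain. -/
theorem greedy {ι : Type} [DecidableEq ι] (j : ι → Option ι) (m : ℕ) :
    ∀ U : Finset ι, 2 * m ≤ U.card → ∃ l : List ι, l.length = m ∧ (∀ i ∈ l, i ∈ U) ∧
      l.Pairwise (fun a b => b ≠ a ∧ j b ≠ some a) := by
  induction m with
  | zero => intro U _; exact ⟨[], by simp⟩
  | succ m ih =>
    intro U hU
    have hne : U.Nonempty := Finset.card_pos.1 (by omega)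
    obtain ⟨i, hi⟩ := hne
    obtain ⟨l, hl1, hl2, hl3⟩ := ih ((U.erase i).filter (fun a => j i ≠ some a)) (by
      have h1 : (U.erase i).card = U.card - 1 := Finset.card_erase_of_mem hi
      have h2 := Finset.card_filter_add_card_filter_not (s := U.erase i) (fun a => j i ≠ some a)
      have h3 : ((U.erase i).filter (fun a => ¬ (j i ≠ some a))).card ≤ 1 := by
        rw [Finset.card_le_one]
        intro a ha b hb
        simp only [ne_eq, not_not, Finset.mem_filter] at ha hb
        have := ha.2.symm.trans hb.2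
        exact Option.some.inj this
      omega)
    refine ⟨l ++ [i], by simp [hl1], ?_, ?_⟩
    · intro a ha
      rw [List.mem_append] at ha
      rcases ha with ha | ha
      · have := hl2 a ha
        simp only [Finset.mem_filter, Finset.mem_erase] at this
        exact this.1.2
      · simp only [List.mem_singleton] at ha
        rw [ha]; exact hi
    · rw [List.pairwise_append]
      refine ⟨hl3, by simp, ?_⟩
      intro a ha b hb
      simp only [List.mem_singleton] at hb
      subst hb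
      have := hl2 a ha
      simp only [Finset.mem_filter, Finset.mem_erase] at this
      exact ⟨fun h => this.1.1 h.symm, this.2⟩

end FewSep

/-- It is unlikely that there are no `p` coordinates that are `δ`-separated. -/
theorem few_sep {Λ : Set ℂ} {g : ℂ → ℂ → ℝ} (hD : Dom Λ g) (p q : ℕ) :
    ∃ (C : ℝ) (B k : ℕ), 0 < C ∧ ∀ (ι : Type) [Fintype ι], k ≤ Fintype.card ι →
      ∀ δ : ℝ, 0 < δ → δ ≤ 1 →
      (PP Λ ι).real {x | x ∈ Cfg Λ ι ∧ ∀ J : Finset ι, J.card = p → ∃ i ∈ J, ¬ Sep Λ δ x i} ≤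
        C * (Fintype.card ι : ℝ) ^ B * δ ^ q := by
  classical
  have hprob := isProb_unif hD
  have hv := vol_pos hD
  obtain ⟨Cc, β, hβ, hcol⟩ := hD.collar
  have hvfin : volume Λ ≠ ⊤ := hD.bdd.measure_lt_top.ne
  -- the exponent and the constant
  set β' : ℝ := min β 2 with hβ'
  have hβ'0 : 0 < β' := lt_min hβ (by norm_num)
  set C₁ : ℝ := (|Cc| + Real.pi) / volume.real Λ with hC₁
  have hC₁0 : 0 < C₁ := div_pos (add_pos_of_nonneg_of_pos (abs_nonneg _) Real.pi_pos) hv
  obtain ⟨m, hm⟩ : ∃ m : ℕ, (q : ℝ) ≤ β' * m := by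
    obtain ⟨m, hm⟩ := exists_nat_ge ((q : ℝ) / β')
    exact ⟨m, by rw [div_le_iff₀ hβ'0] at hm; linarith⟩
  refine ⟨(2 * C₁) ^ m, 2 * m, 2 * m + p + 1, by positivity, ?_⟩
  intro ι _ hcard δ hδ hδ1
  have huv : ∀ s : Set ℂ, MeasurableSet s → unif Λ s = ENNReal.ofReal
      (volume.real (s ∩ Λ) / volume.real Λ) := by
    intro s hs
    have e1 : volume (s ∩ Λ) ≠ ⊤ := ne_top_of_le_ne_top hvfin (measure_mono Set.inter_subset_right)
    rw [unif, Measure.smul_apply, Measure.restrict_apply hs, smul_eq_mul, measureReal_def,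
      measureReal_def, ENNReal.ofReal_div_of_pos, ENNReal.ofReal_toReal e1,
      ENNReal.ofReal_toReal hvfin, mul_comm, div_eq_mul_inv]
    exact hv
  have hpow : ∀ b : ℝ, β' ≤ b → δ ^ b ≤ δ ^ β' := fun b hb =>
    Real.rpow_le_rpow_of_exponent_ge hδ hδ1 hb
  have hδp : 0 < δ ^ β' := Real.rpow_pos_of_pos hδ _
  have h1 : unif Λ {y | infDist y Λᶜ < δ} ≤ ENNReal.ofReal (C₁ * δ ^ β') := by
    rw [huv _ (isOpen_lt (continuous_infDist_pt _) continuous_const).measurableSet]
    apply ENNReal.ofReal_le_ofReal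
    rw [hC₁, div_mul_eq_mul_div]
    gcongr
    have e1 : {y | infDist y Λᶜ < δ} ∩ Λ = {x ∈ Λ | Metric.infDist x Λᶜ < δ} := by
      ext y; simp [and_comm]
    rw [e1]
    calc volume.real {x ∈ Λ | Metric.infDist x Λᶜ < δ} ≤ Cc * δ ^ β := hcol δ hδ
      _ ≤ |Cc| * δ ^ β := by gcongr; exact le_abs_self _
      _ ≤ |Cc| * δ ^ β' := mul_le_mul_of_nonneg_left (hpow β (min_le_left _ _)) (abs_nonneg _)
      _ ≤ (|Cc| + Real.pi) * δ ^ β' := by
        gcongr
        linarith [Real.pi_pos]
  have h2 : ∀ w, unif Λ {y | ‖y - w‖ < δ} ≤ ENNReal.ofReal (C₁ * δ ^ β') := by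
    intro w
    have hb : {y : ℂ | ‖y - w‖ < δ} = Metric.ball w δ := by
      ext y; simp [dist_eq_norm]
    rw [hb, huv _ Metric.isOpen_ball.measurableSet]
    apply ENNReal.ofReal_le_ofReal
    rw [hC₁, div_mul_eq_mul_div]
    gcongr
    have e2 : volume.real (Metric.ball w δ) = Real.pi * δ ^ 2 := by
      rw [measureReal_def, Complex.volume_ball]
      simp [ENNReal.toReal_mul, ENNReal.toReal_pow, hδ.le, mul_comm]
    calc volume.real (Metric.ball w δ ∩ Λ) ≤ volume.real (Metric.ball w δ) :=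
          measureReal_mono Set.inter_subset_left (by
            rw [Complex.volume_ball]
            exact ENNReal.mul_ne_top (ENNReal.pow_ne_top ENNReal.ofReal_ne_top)
              ENNReal.coe_ne_top)
      _ = Real.pi * δ ^ 2 := e2
      _ = Real.pi * δ ^ (2 : ℝ) := by norm_num
      _ ≤ Real.pi * δ ^ β' := mul_le_mul_of_nonneg_left (hpow 2 (min_le_right _ _)) Real.pi_pos.le
      _ ≤ (|Cc| + Real.pi) * δ ^ β' := by
        gcongr
        linarith [abs_nonneg Cc]
  set c : ℝ := C₁ * δ ^ β' with hc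
  have hc0 : 0 ≤ c := by positivity
  -- the union bound
  set P := PP Λ ι with hP
  have hPprob : IsProbabilityMeasure P := isProb_PP hD ι
  let good : List.Vector (ι × Option ι) m → Prop := fun v =>
    v.toList.Pairwise (fun u v => v.1 ≠ u.1 ∧ v.2 ≠ some u.1) ∧ ∀ u ∈ v.toList, u.2 ≠ some u.1
  have hsub : {x | x ∈ Cfg Λ ι ∧ ∀ J : Finset ι, J.card = p → ∃ i ∈ J, ¬ Sep Λ δ x i} ⊆
      ⋃ v : List.Vector (ι × Option ι) m, {x | good v ∧ ∀ u ∈ v.toList, FewSep.Ev Λ δ x u} := by
    rintro x ⟨hx, hJ⟩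
    have hsep : (Finset.univ.filter (fun i => Sep Λ δ x i)).card < p := by
      by_contra hcon
      obtain ⟨J, hJ1, hJ2⟩ := Finset.exists_subset_card_eq (not_lt.1 hcon)
      obtain ⟨i, hi, hi'⟩ := hJ J hJ2
      have := hJ1 hi
      simp only [Finset.mem_filter, Finset.mem_univ, true_and] at this
      exact hi' this
    have hcards := Finset.card_filter_add_card_filter_not (s := (Finset.univ : Finset ι))
      (fun i => Sep Λ δ x i)
    rw [Finset.card_univ] at hcards
    have hpart : ∀ i, ∃ j : Option ι, ¬ Sep Λ δ x i → (FewSep.Ev Λ δ x (i, j) ∧ j ≠ some i) := by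
      intro i
      by_cases h : Sep Λ δ x i
      · exact ⟨none, fun h' => absurd h h'⟩
      · unfold Sep at h
        rw [not_and_or] at h
        rcases h with h | h
        · exact ⟨none, fun _ => ⟨not_le.1 h, by simp⟩⟩
        · push Not at h
          obtain ⟨j, hj, hj'⟩ := h
          exact ⟨some j, fun _ => ⟨hj', by simpa using hj⟩⟩
    choose j hj using hpart
    obtain ⟨l, hl1, hl2, hl3⟩ := FewSep.greedy j m
      (Finset.univ.filter (fun i => ¬ Sep Λ δ x i)) (by omega)
    have hl2' : ∀ i ∈ l, ¬ Sep Λ δ x i := by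
      intro i hi
      have := hl2 i hi
      simpa using this
    refine Set.mem_iUnion.2 ⟨⟨l.map (fun i => (i, j i)), by simp [hl1]⟩, ⟨?_, ?_⟩, ?_⟩
    · show (l.map (fun i => (i, j i))).Pairwise _
      rw [List.pairwise_map]
      exact hl3
    · intro u hu
      have hu' : u ∈ l.map (fun i => (i, j i)) := hu
      rw [List.mem_map] at hu'
      obtain ⟨i, hi, rfl⟩ := hu'
      exact (hj i (hl2' i hi)).2
    · intro u hu
      have hu' : u ∈ l.map (fun i => (i, j i)) := hu
      rw [List.mem_map] at hu'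
      obtain ⟨i, hi, rfl⟩ := hu'
      exact (hj i (hl2' i hi)).1
  have hone : ∀ v : List.Vector (ι × Option ι) m,
      P.real {x | good v ∧ ∀ u ∈ v.toList, FewSep.Ev Λ δ x u} ≤ c ^ m := by
    intro v
    by_cases hg : good v
    · have h3 := FewSep.chain Λ (unif Λ) δ (ENNReal.ofReal c) h1 h2 v.toList hg.1 hg.2
      have h4 : {x : ι → ℂ | good v ∧ ∀ u ∈ v.toList, FewSep.Ev Λ δ x u} =
          {x | ∀ u ∈ v.toList, FewSep.Ev Λ δ x u} := by
        ext x; simp [hg]
      rw [h4, measureReal_def]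
      rw [List.Vector.toList_length, ← ENNReal.ofReal_pow hc0] at h3
      exact ENNReal.toReal_le_of_le_ofReal (by positivity) h3
    · have h4 : {x : ι → ℂ | good v ∧ ∀ u ∈ v.toList, FewSep.Ev Λ δ x u} = ∅ := by
        ext x; simp [hg]
      rw [h4]
      simp only [measureReal_empty]
      positivity
  have hN : (1 : ℝ) ≤ (Fintype.card ι : ℝ) := by
    have : 1 ≤ Fintype.card ι := by omega
    exact_mod_cast this
  calc P.real {x | x ∈ Cfg Λ ι ∧ ∀ J : Finset ι, J.card = p → ∃ i ∈ J, ¬ Sep Λ δ x i}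
      ≤ P.real (⋃ v : List.Vector (ι × Option ι) m,
          {x | good v ∧ ∀ u ∈ v.toList, FewSep.Ev Λ δ x u}) := measureReal_mono hsub
    _ ≤ ∑ v : List.Vector (ι × Option ι) m,
          P.real {x | good v ∧ ∀ u ∈ v.toList, FewSep.Ev Λ δ x u} :=
        measureReal_iUnion_fintype_le _
    _ ≤ ∑ _v : List.Vector (ι × Option ι) m, c ^ m := Finset.sum_le_sum fun v _ => hone v
    _ = ((Fintype.card ι : ℝ) * ((Fintype.card ι : ℝ) + 1)) ^ m * c ^ m := by
        rw [Finset.sum_const, Finset.card_univ, card_vector, Fintype.card_prod,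
          Fintype.card_option, nsmul_eq_mul]
        push_cast
        ring
    _ ≤ (2 * (Fintype.card ι : ℝ) ^ 2) ^ m * c ^ m := by
        have h5 : (Fintype.card ι : ℝ) * ((Fintype.card ι : ℝ) + 1) ≤
            2 * (Fintype.card ι : ℝ) ^ 2 := by nlinarith
        exact mul_le_mul_of_nonneg_right (pow_le_pow_left₀ (by positivity) h5 m) (by positivity)
    _ = (2 * C₁) ^ m * (Fintype.card ι : ℝ) ^ (2 * m) * (δ ^ β') ^ m := by
        rw [hc, mul_pow, mul_pow, mul_pow, ← pow_mul]
        ring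
    _ ≤ (2 * C₁) ^ m * (Fintype.card ι : ℝ) ^ (2 * m) * δ ^ q := by
        gcongr
        rw [← Real.rpow_natCast (δ ^ β') m, ← Real.rpow_mul hδ.le, ← Real.rpow_natCast δ q]
        exact Real.rpow_le_rpow_of_exponent_ge hδ hδ1 hm

end Pool.Agent.Lib.MP_fa244c_mp
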