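import Pool.Agent.Lib.MP_fa244c_mp.SmallBall
import Pool.Agent.Lib.MP_fa244c_mp.FewSep

set_option autoImplicit false

open MeasureTheory Filter Topology Set Metric

namespace Pool.Agent.Lib.MP_fa244c_mp

/-- The bad set is polynomially small of high order. -/
theorem bad_set {Λ : Set ℂ} {g : ℂ → ℂ → ℝ} (hD : Dom Λ g)
    (hm : Measurable (Function.uncurry g)) (q : ℕ) :
    ∃ (A B N₀ : ℕ) (C : ℝ), 1 ≤ A ∧ 0 < C ∧ ∀ (ι : Type) [Fintype ι] [DecidableEq ι]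
      (ch : ι → ℝ), (∀ i, |ch i| = 1) → N₀ ≤ Fintype.card ι → ∀ δ : ℝ, 0 < δ → δ ≤ 1 →
      (PP Λ ι).real (Bad Λ g ch δ (δ ^ A)) ≤ C * (Fintype.card ι : ℝ) ^ B * δ ^ (A * q) := by
  obtain ⟨C₁, A₁, hC₁, h₁⟩ := small_ball hD hm (q + 1)
  obtain ⟨A, hA⟩ : ∃ A : ℕ, A = max A₁ 1 := ⟨_, rfl⟩
  have hA1 : 1 ≤ A := hA ▸ le_max_right _ _
  have hAA : A₁ ≤ A := hA ▸ le_max_left _ _
  obtain ⟨C₂, B₂, k₂, hC₂, h₂⟩ := few_sep hD (q + 1) (A * q)
  refine ⟨A, max (A₁ + (q + 1)) B₂, max k₂ 1, C₁ + C₂, hA1, by positivity, ?_⟩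
  intro ι _ _ ch hch hN δ hδ hδ1
  have := isProb_PP hD ι
  have hN1 : 1 ≤ Fintype.card ι := le_trans (le_max_right _ _) hN
  have hN2 : k₂ ≤ Fintype.card ι := le_trans (le_max_left _ _) hN
  have hNr : (1 : ℝ) ≤ Fintype.card ι := by exact_mod_cast hN1
  have hsub : Bad Λ g ch δ (δ ^ A) ⊆
      {x | x ∈ Cfg Λ ι ∧ ∀ J : Finset ι, J.card = q + 1 → ∃ i ∈ J, ¬ Sep Λ δ x i} ∪
      ⋃ J ∈ Finset.powersetCard (q + 1) (Finset.univ : Finset ι),
        {x | x ∈ Cfg Λ ι ∧ ∀ i ∈ J, Sep Λ δ x i ∧ ‖pD g ch x i‖ ≤ δ ^ A} := by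
    intro x hx
    by_cases h : ∀ J : Finset ι, J.card = q + 1 → ∃ i ∈ J, ¬ Sep Λ δ x i
    · exact Or.inl ⟨hx.1, h⟩
    · push Not at h
      obtain ⟨J, hJ, hJs⟩ := h
      refine Or.inr ?_
      simp only [mem_iUnion]
      exact ⟨J, Finset.mem_powersetCard.2 ⟨Finset.subset_univ _, hJ⟩, hx.1,
        fun i hi => ⟨hJs i hi, hx.2 i (hJs i hi)⟩⟩
  have hJb : ∀ J ∈ Finset.powersetCard (q + 1) (Finset.univ : Finset ι),
      (PP Λ ι).real {x | x ∈ Cfg Λ ι ∧ ∀ i ∈ J, Sep Λ δ x i ∧ ‖pD g ch x i‖ ≤ δ ^ A} ≤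
        C₁ * (Fintype.card ι : ℝ) ^ A₁ * δ ^ (A * q) := by
    intro J hJ
    refine (h₁ ι ch hch J (Finset.mem_powersetCard.1 hJ).2 δ (δ ^ A) hδ hδ1 (by positivity)).trans ?_
    rw [mul_div_assoc]
    refine mul_le_mul_of_nonneg_left ?_ (by positivity)
    rw [div_le_iff₀ (by positivity), ← pow_mul, ← pow_add]
    refine pow_le_pow_of_le_one hδ.le hδ1 ?_
    nlinarith
  have hcard : ((Finset.powersetCard (q + 1) (Finset.univ : Finset ι)).card : ℝ) ≤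
      (Fintype.card ι : ℝ) ^ (q + 1) := by
    rw [Finset.card_powersetCard, Finset.card_univ]
    exact_mod_cast Nat.choose_le_pow _ _
  have hU : (PP Λ ι).real (⋃ J ∈ Finset.powersetCard (q + 1) (Finset.univ : Finset ι),
        {x | x ∈ Cfg Λ ι ∧ ∀ i ∈ J, Sep Λ δ x i ∧ ‖pD g ch x i‖ ≤ δ ^ A}) ≤
      (Fintype.card ι : ℝ) ^ (q + 1) * (C₁ * (Fintype.card ι : ℝ) ^ A₁ * δ ^ (A * q)) := by
    refine (measureReal_biUnion_finset_le _ _).trans ?_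
    refine (Finset.sum_le_card_nsmul _ _ _ hJb).trans ?_
    rw [nsmul_eq_mul]
    exact mul_le_mul_of_nonneg_right hcard (by positivity)
  have hF := h₂ ι hN2 δ hδ hδ1
  calc (PP Λ ι).real (Bad Λ g ch δ (δ ^ A))
      ≤ _ := measureReal_mono hsub
    _ ≤ C₂ * (Fintype.card ι : ℝ) ^ B₂ * δ ^ (A * q) +
        (Fintype.card ι : ℝ) ^ (q + 1) * (C₁ * (Fintype.card ι : ℝ) ^ A₁ * δ ^ (A * q)) :=
          (measureReal_union_le _ _).trans (add_le_add hF hU)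
    _ ≤ C₂ * (Fintype.card ι : ℝ) ^ (max (A₁ + (q + 1)) B₂) * δ ^ (A * q) +
        C₁ * (Fintype.card ι : ℝ) ^ (max (A₁ + (q + 1)) B₂) * δ ^ (A * q) := by
          refine add_le_add ?_ ?_
          · refine mul_le_mul_of_nonneg_right (mul_le_mul_of_nonneg_left
              (pow_le_pow_right₀ hNr (le_max_right _ _)) hC₂.le) (by positivity)
          · have e : (Fintype.card ι : ℝ) ^ (q + 1) *
                (C₁ * (Fintype.card ι : ℝ) ^ A₁ * δ ^ (A * q)) =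
                C₁ * (Fintype.card ι : ℝ) ^ (A₁ + (q + 1)) * δ ^ (A * q) := by ring
            rw [e]
            refine mul_le_mul_of_nonneg_right (mul_le_mul_of_nonneg_left
              (pow_le_pow_right₀ hNr (le_max_left _ _)) hC₁.le) (by positivity)
    _ = _ := by ring

end Pool.Agent.Lib.MP_fa244c_mp
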