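import Pool.Agent.Lib.MP_fa244c_mp.EBasic

set_option autoImplicit false

open MeasureTheory Filter Topology Set Metric

namespace Pool.Agent.Lib.MP_fa244c_mp

namespace Collar

variable {Λ : Set ℂ} {g : ℂ → ℂ → ℝ}

theorem unif_real_le (hD : Dom Λ g) : ∃ C β : ℝ, 0 ≤ C ∧ 0 < β ∧ ∀ δ : ℝ, 0 < δ →
    (unif Λ).real {z | z ∈ Λ ∧ infDist z Λᶜ < δ} ≤ C * δ ^ β := by
  obtain ⟨C, β, hβ, hC⟩ := hD.collar
  have hV : 0 < volume.real Λ := vol_pos hD
  have hC0 : 0 ≤ C := by
    have h1 := hC 1 one_pos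
    rw [Real.one_rpow, mul_one] at h1
    exact measureReal_nonneg.trans h1
  refine ⟨(volume.real Λ)⁻¹ * C, β, by positivity, hβ, fun δ hδ => ?_⟩
  have e : (unif Λ).real {z | z ∈ Λ ∧ infDist z Λᶜ < δ} =
      (volume.real Λ)⁻¹ * volume.real {x ∈ Λ | infDist x Λᶜ < δ} := by
    unfold unif
    rw [measureReal_ennreal_smul_apply, ENNReal.toReal_inv]
    congr 1
    rw [measureReal_def, measureReal_def, Measure.restrict_apply' hD.isOpen.measurableSet]
    congr 2
    ext z
    simp only [mem_inter_iff, mem_ofPred_eq]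
    tauto
  rw [e, mul_assoc]
  exact mul_le_mul_of_nonneg_left (hC δ hδ) (by positivity)

theorem unif_inter (hD : Dom Λ g) (S : Set ℂ) :
    unif Λ S = unif Λ {z | z ∈ Λ ∧ z ∈ S} := by
  unfold unif
  rw [Measure.smul_apply, Measure.smul_apply, Measure.restrict_apply' hD.isOpen.measurableSet,
    Measure.restrict_apply' hD.isOpen.measurableSet]
  congr 2
  ext z
  simp only [mem_inter_iff, mem_ofPred_eq]
  tauto

/-- Exponential Chebyshev inequality for sums over the coordinates. -/
theorem expo (hD : Dom Λ g) {φ : ℂ → ℝ}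
    (hφ : Integrable (fun z => Real.exp (φ z)) (unif Λ)) (ι : Type) [Fintype ι] (a : ℝ) :
    (PP Λ ι).real {x | a ≤ ∑ i, φ (x i)} ≤
      Real.exp (-a) * (∫ z, Real.exp (φ z) ∂(unif Λ)) ^ Fintype.card ι := by
  have := isProb_unif hD
  have := isProb_PP hD ι
  have hint : Integrable (fun x : ι → ℂ => ∏ i, Real.exp (φ (x i))) (PP Λ ι) :=
    Integrable.fintype_prod (fun _ => hφ)
  have h1 := mul_meas_ge_le_integral_of_nonneg (μ := PP Λ ι)
    (Eventually.of_forall fun x : ι → ℂ => Finset.prod_nonneg fun i _ => (Real.exp_pos _).le)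
    hint (Real.exp a)
  have e1 : ∫ x : ι → ℂ, ∏ i, Real.exp (φ (x i)) ∂(PP Λ ι) =
      (∫ z, Real.exp (φ z) ∂(unif Λ)) ^ Fintype.card ι :=
    integral_fintype_prod_eq_pow (fun z => Real.exp (φ z))
  rw [e1] at h1
  have e2 : {x : ι → ℂ | Real.exp a ≤ ∏ i, Real.exp (φ (x i))} = {x | a ≤ ∑ i, φ (x i)} := by
    ext x
    simp only [mem_ofPred_eq]
    rw [← Real.exp_sum, Real.exp_le_exp]
  rw [e2] at h1
  calc (PP Λ ι).real {x | a ≤ ∑ i, φ (x i)} =
        Real.exp (-a) * (Real.exp a * (PP Λ ι).real {x | a ≤ ∑ i, φ (x i)}) := by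
          rw [← mul_assoc, ← Real.exp_add]; simp
    _ ≤ _ := mul_le_mul_of_nonneg_left h1 (Real.exp_pos _).le

end Collar

open Collar in
/-- Few points are close to the boundary. -/
theorem bdry_count {Λ : Set ℂ} {g : ℂ → ℂ → ℝ} (hD : Dom Λ g) {α K : ℝ} (hα : 0 < α)
    (hK : 0 < K) : ∃ τ : ℝ, 0 < τ ∧ ∀ (ι : Type) [Fintype ι],
      (PP Λ ι).real {x | α * Fintype.card ι ≤ (Nat.card {i : ι // infDist (x i) Λᶜ < τ} : ℝ)} ≤
        Real.exp (-(K * Fintype.card ι)) := by
  have := isProb_unif hD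
  obtain ⟨C, β, hC0, hβ, hC⟩ := unif_real_le hD
  set l : ℝ := (K + 1) / α with hl
  have hlpos : 0 < l := by positivity
  -- the choice of `τ`
  have hlim : Tendsto (fun τ : ℝ => Real.exp l * (C * τ ^ β)) (𝓝[>] 0) (𝓝 0) := by
    have h1 : Tendsto (fun τ : ℝ => τ ^ β) (𝓝 0) (𝓝 0) := by
      have := (Real.continuousAt_rpow_const 0 β (Or.inr hβ.le)).tendsto
      rwa [Real.zero_rpow hβ.ne'] at this
    have h2 : Tendsto (fun τ : ℝ => Real.exp l * (C * τ ^ β)) (𝓝 0) (𝓝 (Real.exp l * (C * 0))) :=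
      (h1.const_mul C).const_mul _
    simp only [mul_zero] at h2
    exact h2.mono_left nhdsWithin_le_nhds
  obtain ⟨τ, hτ, hτpos⟩ := ((hlim.eventually (gt_mem_nhds one_pos)).and
    self_mem_nhdsWithin).exists
  have hτ0 : 0 < τ := hτpos
  refine ⟨τ, hτ0, fun ι _ => ?_⟩
  classical
  set S : Set ℂ := {z | infDist z Λᶜ < τ} with hS
  have hSm : MeasurableSet S := measurableSet_lt (continuous_infDist_pt _).measurable
    measurable_const
  set φ : ℂ → ℝ := fun z => S.indicator (fun _ => l) z with hφ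
  have hexp : ∀ z, Real.exp (φ z) ≤ 1 + S.indicator (fun _ => Real.exp l) z := by
    intro z
    by_cases hz : z ∈ S
    · simp only [hφ, indicator_of_mem hz]; linarith
    · simp only [hφ, indicator_of_notMem hz]; simp
  have hφm : Measurable φ := measurable_const.indicator hSm
  have hind : Integrable (S.indicator (fun _ => Real.exp l)) (unif Λ) :=
    (integrable_const _).indicator hSm
  have hbd : Integrable (fun z => 1 + S.indicator (fun _ => Real.exp l) z) (unif Λ) :=
    (integrable_const _).add hind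
  have hint : Integrable (fun z => Real.exp (φ z)) (unif Λ) := by
    refine hbd.mono' (Real.measurable_exp.comp hφm).aestronglyMeasurable
      (Eventually.of_forall fun z => ?_)
    rw [Real.norm_of_nonneg (Real.exp_pos _).le]
    exact hexp z
  have hE : ∫ z, Real.exp (φ z) ∂(unif Λ) ≤ Real.exp 1 := by
    calc ∫ z, Real.exp (φ z) ∂(unif Λ) ≤ ∫ z, (1 + S.indicator (fun _ => Real.exp l) z) ∂(unif Λ) :=
          integral_mono hint hbd hexp
      _ = 1 + Real.exp l * (unif Λ).real S := by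
          rw [integral_add (integrable_const _) hind, integral_indicator_const _ hSm]
          simp [mul_comm]
      _ ≤ 1 + 1 := by
          have h1 : (unif Λ).real S ≤ C * τ ^ β := by
            rw [measureReal_def, unif_inter hD S]
            exact hC τ hτ0
          have : Real.exp l * (unif Λ).real S ≤ Real.exp l * (C * τ ^ β) := by gcongr
          linarith
      _ ≤ Real.exp 1 := by have := Real.add_one_le_exp 1; linarith
  have h2 := expo hD hint ι (l * (α * Fintype.card ι))
  have hsub : {x : ι → ℂ | α * Fintype.card ι ≤ (Nat.card {i : ι // infDist (x i) Λᶜ < τ} : ℝ)} ⊆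
      {x | l * (α * Fintype.card ι) ≤ ∑ i, φ (x i)} := by
    intro x hx
    simp only [mem_ofPred_eq] at hx ⊢
    have e : ∑ i, φ (x i) = l * (Nat.card {i : ι // infDist (x i) Λᶜ < τ} : ℝ) := by
      have e1 : ∀ i, φ (x i) = if infDist (x i) Λᶜ < τ then l else 0 := by
        intro i
        simp only [hφ, hS, indicator_apply, mem_ofPred_eq]
      simp only [e1]
      rw [← Finset.sum_filter, Finset.sum_const, nsmul_eq_mul, Nat.card_eq_fintype_card,
        Fintype.card_subtype, mul_comm]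
    rw [e]
    exact mul_le_mul_of_nonneg_left hx hlpos.le
  have := isProb_PP hD ι
  refine (measureReal_mono hsub).trans (h2.trans ?_)
  have h3 : (∫ z, Real.exp (φ z) ∂(unif Λ)) ^ Fintype.card ι ≤ Real.exp 1 ^ Fintype.card ι :=
    pow_le_pow_left₀ (integral_nonneg fun z => (Real.exp_pos _).le) hE _
  calc _ ≤ Real.exp (-(l * (α * Fintype.card ι))) * Real.exp 1 ^ Fintype.card ι := by gcongr
    _ = Real.exp (-(K * Fintype.card ι)) := by
      rw [← Real.exp_nat_mul, ← Real.exp_add, hl]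
      congr 1
      field_simp
      ring

namespace Collar

variable {Λ : Set ℂ} {g : ℂ → ℂ → ℝ}

/-- Exponential moments of the logarithm of the distance to the boundary. -/
theorem exists_moment (hD : Dom Λ g) : ∃ s : ℝ, 0 < s ∧
    Integrable (fun z => Real.exp (s * |Real.log (infDist z Λᶜ)|)) (unif Λ) := by
  have := isProb_unif hD
  obtain ⟨C, β, hC0, hβ, hC⟩ := unif_real_le hD
  refine ⟨β / 2, by positivity, ?_⟩
  set s : ℝ := β / 2 with hs
  have hs0 : 0 < s := by positivity
  set f : ℂ → ℝ := fun z => Real.exp (s * |Real.log (infDist z Λᶜ)|) with hf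
  have hfm : Measurable f := by
    refine Real.measurable_exp.comp (measurable_const.mul ?_)
    exact (Real.measurable_log.comp (continuous_infDist_pt _).measurable).abs
  -- the diameter
  obtain ⟨R, hR⟩ := hD.bdd.subset_ball (0 : ℂ)
  set D : ℝ := 2 * |R| + 1 with hDd
  have hdist : ∀ z ∈ Λ, infDist z Λᶜ ≤ D := by
    intro z hz
    have hw : ((|R| + 1 : ℝ) : ℂ) ∈ Λᶜ := by
      intro h
      have := hR h
      rw [mem_ball, dist_zero_right, Complex.norm_real, Real.norm_of_nonneg (by positivity)] at this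
      have := le_abs_self R
      linarith
    refine (infDist_le_dist_of_mem hw).trans ?_
    have h1 : ‖z‖ ≤ |R| := by
      have := hR hz
      rw [mem_ball, dist_zero_right] at this
      exact this.le.trans (le_abs_self R)
    rw [dist_eq_norm]
    refine (norm_sub_le _ _).trans ?_
    rw [Complex.norm_real, Real.norm_of_nonneg (by positivity)]
    linarith
  have hD1 : 1 ≤ D := by rw [hDd]; have := abs_nonneg R; linarith
  set T : ℝ := D ^ s with hT
  have hT1 : 1 ≤ T := Real.one_le_rpow hD1 hs0.le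
  have htail : ∀ t : ℝ, T < t → unif Λ {z | t < f z} ≤ ENNReal.ofReal (C * t ^ (-2 : ℝ)) := by
    intro t ht
    have ht0 : 0 < t := by linarith
    have ht1 : 1 < t := by linarith
    rw [unif_inter hD]
    have hsub : {z | z ∈ Λ ∧ z ∈ {z | t < f z}} ⊆
        {z | z ∈ Λ ∧ infDist z Λᶜ < t ^ (-(1 / s))} := by
      rintro z ⟨hz, hzt⟩
      refine ⟨hz, ?_⟩
      simp only [mem_ofPred_eq, hf] at hzt
      have h1 : Real.log t < s * |Real.log (infDist z Λᶜ)| := by
        rwa [← Real.log_lt_log_iff ht0 (Real.exp_pos _), Real.log_exp] at hzt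
      have h2 : Real.log t / s < |Real.log (infDist z Λᶜ)| := by
        rw [div_lt_iff₀ hs0]; linarith
      have hlt : 0 < Real.log t := Real.log_pos ht1
      have hd0 : 0 < infDist z Λᶜ := by
        rcases (infDist_nonneg (x := z) (s := Λᶜ)).eq_or_lt with h | h
        · rw [← h, Real.log_zero, abs_zero] at h2
          have : 0 < Real.log t / s := by positivity
          linarith
        · exact h
      have hnp : Real.log (infDist z Λᶜ) < 0 := by
        by_contra hc
        push Not at hc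
        rw [abs_of_nonneg hc] at h2
        have h3 : Real.log (infDist z Λᶜ) ≤ Real.log D := Real.log_le_log hd0 (hdist z hz)
        have h4 : Real.log T < Real.log t := Real.log_lt_log (by linarith) ht
        rw [hT, Real.log_rpow (by linarith)] at h4
        rw [div_lt_iff₀ hs0] at h2
        nlinarith
      rw [abs_of_neg hnp] at h2
      rw [← Real.log_lt_log_iff hd0 (Real.rpow_pos_of_pos ht0 _), Real.log_rpow ht0]
      have e : -(1 / s) * Real.log t = -(Real.log t / s) := by ring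
      rw [e]
      linarith
    refine (measure_mono hsub).trans ?_
    rw [← ENNReal.ofReal_toReal (measure_ne_top (unif Λ) _)]
    refine ENNReal.ofReal_le_ofReal ?_
    have h5 := hC (t ^ (-(1 / s))) (Real.rpow_pos_of_pos ht0 _)
    refine h5.trans (le_of_eq ?_)
    rw [← Real.rpow_mul ht0.le]
    congr 2
    rw [hs]
    field_simp
  refine ⟨hfm.aestronglyMeasurable, ?_⟩
  rw [hasFiniteIntegral_iff_ofReal (Eventually.of_forall fun z => (Real.exp_pos _).le)]
  rw [lintegral_eq_lintegral_meas_lt (unif Λ) (Eventually.of_forall fun z => (Real.exp_pos _).le)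
    hfm.aemeasurable]
  have hsplit : (Ioi (0 : ℝ)) = Ioc 0 T ∪ Ioi T := (Ioc_union_Ioi_eq_Ioi (by linarith)).symm
  rw [hsplit]
  refine lt_of_le_of_lt (lintegral_union_le _ _ _) ?_
  refine ENNReal.add_lt_top.2 ⟨?_, ?_⟩
  · calc ∫⁻ t in Ioc 0 T, unif Λ {z | t < f z} ≤ ∫⁻ _ in Ioc 0 T, 1 :=
          lintegral_mono fun t => prob_le_one
      _ < ⊤ := by simp
  · have h6 : ∫⁻ t in Ioi T, unif Λ {z | t < f z} ≤
        ∫⁻ t in Ioi T, ENNReal.ofReal (C * t ^ (-2 : ℝ)) :=
      setLIntegral_mono' measurableSet_Ioi fun t ht => htail t ht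
    refine lt_of_le_of_lt h6 ?_
    have h7 : IntegrableOn (fun t : ℝ => C * t ^ (-2 : ℝ)) (Ioi T) :=
      (integrableOn_Ioi_rpow_of_lt (by norm_num) (by linarith)).const_mul C
    exact h7.lintegral_lt_top

end Collar

open Collar in
/-- The sum of `|log dist(x_i, ∂Λ)|` is at most `η N²` up to a super-exponentially small
probability. -/
theorem bdry_log {Λ : Set ℂ} {g : ℂ → ℂ → ℝ} (hD : Dom Λ g) {η K : ℝ} (hη : 0 < η)
    (hK : 0 < K) : ∃ N₀ : ℕ, ∀ (ι : Type) [Fintype ι], N₀ ≤ Fintype.card ι →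
      (PP Λ ι).real {x | η * (Fintype.card ι : ℝ) ^ 2 ≤
          ∑ i, |Real.log (infDist (x i) Λᶜ)|} ≤
        Real.exp (-(K * Fintype.card ι)) := by
  have := isProb_unif hD
  obtain ⟨s, hs, hint⟩ := exists_moment hD
  set M : ℝ := ∫ z, Real.exp (s * |Real.log (infDist z Λᶜ)|) ∂(unif Λ) with hM
  have hM1 : 1 ≤ M := by
    calc (1 : ℝ) = ∫ _ : ℂ, (1 : ℝ) ∂(unif Λ) := by simp
      _ ≤ M := integral_mono (integrable_const _) hint fun z =>
          Real.one_le_exp (by positivity)
  obtain ⟨N₀, hN₀⟩ := exists_nat_gt ((K + Real.log M) / (s * η))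
  refine ⟨N₀, fun ι _ hι => ?_⟩
  have h1 := expo hD hint ι (s * (η * (Fintype.card ι : ℝ) ^ 2))
  have hset : {x : ι → ℂ | η * (Fintype.card ι : ℝ) ^ 2 ≤ ∑ i, |Real.log (infDist (x i) Λᶜ)|} =
      {x | s * (η * (Fintype.card ι : ℝ) ^ 2) ≤ ∑ i, s * |Real.log (infDist (x i) Λᶜ)|} := by
    ext x
    simp only [mem_ofPred_eq]
    rw [← Finset.mul_sum, mul_le_mul_iff_right₀ hs]
  rw [hset]
  refine h1.trans ?_
  have hN : (N₀ : ℝ) ≤ Fintype.card ι := by exact_mod_cast hι
  have hN0 : (0 : ℝ) ≤ Fintype.card ι := Nat.cast_nonneg _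
  have h2 : K + Real.log M ≤ s * η * Fintype.card ι := by
    rw [div_lt_iff₀ (by positivity)] at hN₀
    nlinarith [mul_le_mul_of_nonneg_left hN (show 0 ≤ s * η by positivity)]
  have e : M ^ Fintype.card ι = Real.exp (Fintype.card ι * Real.log M) := by
    rw [Real.exp_nat_mul, Real.exp_log (by linarith)]
  rw [e, ← Real.exp_add]
  refine Real.exp_le_exp.2 ?_
  nlinarith [mul_le_mul_of_nonneg_right h2 hN0]

end Pool.Agent.Lib.MP_fa244c_mp
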