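import Pool.Agent.Lib.MP_fa244c_mp.Defs

set_option autoImplicit false

open MeasureTheory Filter Topology Set

namespace Pool.Agent.Lib.MP_fa244c_mp

theorem Gst_eq (g : ℂ → ℂ → ℝ) (x y : ℂ) : Gst g x y = g x y - Real.log ‖x - y‖ := by
  unfold Gst
  split_ifs with h
  · subst h; simp
  · rfl

/-- Normalized Lebesgue measure on `Λ`. -/
noncomputable def unif (Λ : Set ℂ) : Measure ℂ := (volume Λ)⁻¹ • volume.restrict Λ

/-- The product of uniform distributions. -/
noncomputable def PP (Λ : Set ℂ) (ι : Type) [Fintype ι] : Measure (ι → ℂ) :=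
  Measure.pi (fun _ => unif Λ)

/-- Configurations of distinct points of `Λ`. -/
def Cfg (Λ : Set ℂ) (ι : Type) : Set (ι → ℂ) := {x | (∀ i, x i ∈ Λ) ∧ Function.Injective x}

/-- Coordinate `i` of `x` has distance at least `δ` to the complement of `Λ` and to all other
coordinates. -/
def Sep (Λ : Set ℂ) {ι : Type} (δ : ℝ) (x : ι → ℂ) (i : ι) : Prop :=
  δ ≤ Metric.infDist (x i) Λᶜ ∧ ∀ j, j ≠ i → δ ≤ ‖x i - x j‖

/-- Partial derivative of the energy in the coordinate `i`, a real linear form on `ℂ`. -/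
noncomputable def pD (g : ℂ → ℂ → ℝ) {ι : Type} [Fintype ι] [DecidableEq ι] (c : ι → ℝ)
    (x : ι → ℂ) (i : ι) : ℂ →L[ℝ] ℝ :=
  (fderiv ℝ (energy g c) x).comp (ContinuousLinearMap.single ℝ (fun _ : ι => ℂ) i)

/-- The bad set: every `δ`-separated coordinate has partial derivative at most `ρ`. -/
def Bad (Λ : Set ℂ) (g : ℂ → ℂ → ℝ) {ι : Type} [Fintype ι] [DecidableEq ι] (c : ι → ℝ)
    (δ ρ : ℝ) : Set (ι → ℂ) :=
  {x | x ∈ Cfg Λ ι ∧ ∀ i, Sep Λ δ x i → ‖pD g c x i‖ ≤ ρ}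

/-- Second derivative of a function of several complex variables. -/
noncomputable def D2 {J : Type} [Fintype J] (f : (J → ℂ) → ℝ) (y v w : J → ℂ) : ℝ :=
  fderiv ℝ (fderiv ℝ f) y v w

/-- Replace the coordinates in `J` by `y`. -/
def merge {ι : Type} [DecidableEq ι] (J : Finset ι) (y : J → ℂ) (x : ι → ℂ) : ι → ℂ :=
  fun i => if h : i ∈ J then y ⟨i, h⟩ else x i

/-- Restriction of `x` to the coordinates in `J`. -/
def res {ι : Type} (J : Finset ι) (x : ι → ℂ) : J → ℂ := fun j => x j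

/-- Mixed second derivative of `g`: `a` in the first and `b` in the second variable. -/
noncomputable def mixD (g : ℂ → ℂ → ℝ) (x y a b : ℂ) : ℝ :=
  fderiv ℝ (fderiv ℝ (fun p : ℂ × ℂ => g p.1 p.2)) (x, y) (a, 0) (0, b)

/-- Bounded probability densities supported in `K`. -/
structure Nice (K : Set ℂ) (r : ℂ → ℝ) : Prop where
  meas : Measurable r
  nonneg : ∀ x, 0 ≤ r x
  supp : ∀ x, x ∉ K → r x = 0
  int : ∫ x, r x = 1
  bdd : ∃ B : ℝ, ∀ x, r x ≤ B

/-- Empirical measure of `m` points (a Dirac mass at `0` if `m = 0`). -/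
noncomputable def emp {m : ℕ} (x : Fin m → ℂ) : ProbabilityMeasure ℂ :=
  if h : m = 0 then ⟨Measure.dirac 0, inferInstance⟩
  else ⟨(m : ENNReal)⁻¹ • ∑ i, Measure.dirac (x i), ⟨by
    simp only [Measure.smul_apply, Measure.coe_finsetSum, Finset.sum_apply, measure_univ,
      Finset.sum_const, Finset.card_univ, Fintype.card_fin, nsmul_eq_mul, mul_one, smul_eq_mul]
    exact ENNReal.inv_mul_cancel (by exact_mod_cast h) (ENNReal.natCast_ne_top m)⟩⟩

/-- The pair of empirical measures of the two species. -/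
noncomputable def emp2 {m : ℕ} (x : Fin m ⊕ Fin m → ℂ) :
    ProbabilityMeasure ℂ × ProbabilityMeasure ℂ :=
  (emp (fun i => x (Sum.inl i)), emp (fun i => x (Sum.inr i)))

/-- The point `(1-s) p.1 + s p.2`. -/
noncomputable def lineP (s : ℝ) (p : ℂ × ℂ) : ℂ := (1 - s) • p.1 + s • p.2

/-- The pair of measures `p` is given by densities admissible at energy `ε`, of mean entropy at
least `s`. -/
def Rep (Λ : Set ℂ) (g : ℂ → ℂ → ℝ) (ε s : ℝ) (p : ProbabilityMeasure ℂ × ProbabilityMeasure ℂ) :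
    Prop :=
  ∃ ρp ρm, IsAdm Λ g ε ρp ρm ∧ (p.1 : Measure ℂ) = densM ρp ∧ (p.2 : Measure ℂ) = densM ρm ∧
    s ≤ (entS Λ ρp + entS Λ ρm) / 2

end Pool.Agent.Lib.MP_fa244c_mp
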