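import Pool.Agent.Lib.MP_fa244c_mp.Core

set_option autoImplicit false

open MeasureTheory Filter Topology Set Metric

namespace Pool.Agent.Lib.MP_fa244c_mp

namespace Couple

theorem dens_le {K : Set ℂ} (hK : MeasurableSet K) {ρ : ℂ → ℝ} {C : ℝ} (h1 : ∀ x, ρ x ≤ C)
    (h2 : ∀ x, x ∉ K → ρ x = 0) {A : Set ℂ} (hA : MeasurableSet A) :
    densM ρ A ≤ ENNReal.ofReal C * volume (A ∩ K) := by
  rw [densM, withDensity_apply _ hA]
  calc ∫⁻ x in A, ENNReal.ofReal (ρ x) ≤ ∫⁻ x in A, K.indicator (fun _ => ENNReal.ofReal C) x := by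
        refine lintegral_mono fun x => ?_
        by_cases hx : x ∈ K
        · rw [indicator_of_mem hx]
          exact ENNReal.ofReal_le_ofReal (h1 x)
        · rw [h2 x hx]; simp
    _ = ENNReal.ofReal C * volume (A ∩ K) := by
        rw [lintegral_indicator hK, Measure.restrict_restrict hK, lintegral_const,
          Measure.restrict_apply_univ, inter_comm]

theorem dens_univ {ρ : ℂ → ℝ} (h0 : ∀ x, 0 ≤ ρ x) (hi : Integrable ρ) :
    densM ρ univ = ENNReal.ofReal (∫ x, ρ x) := by
  rw [densM, withDensity_apply _ MeasurableSet.univ, Measure.restrict_univ,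
    ofReal_integral_eq_lintegral_ofReal hi (Eventually.of_forall h0)]

theorem dens_add {ρ σ : ℂ → ℝ} (h1 : ∀ x, 0 ≤ ρ x) (h2 : ∀ x, 0 ≤ σ x) (hm : Measurable ρ) :
    densM ρ + densM σ = densM (fun x => ρ x + σ x) := by
  rw [densM, densM, densM, ← withDensity_add_left hm.ennreal_ofReal]
  congr 1
  ext x
  rw [Pi.add_apply, ENNReal.ofReal_add (h1 x) (h2 x)]

theorem dens_smul {σ : ℂ → ℝ} {c : ℝ} (hc : 0 ≤ c) (hm : Measurable σ) :
    ENNReal.ofReal c • densM σ = densM (fun x => c * σ x) := by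
  rw [densM, densM, ← withDensity_smul _ hm.ennreal_ofReal]
  congr 1
  ext x
  rw [Pi.smul_apply, smul_eq_mul, ENNReal.ofReal_mul hc]

theorem dens_ae {K : Set ℂ} (hK : MeasurableSet K) {ρ : ℂ → ℝ} (h2 : ∀ x, x ∉ K → ρ x = 0) :
    ∀ᵐ x ∂(densM ρ), x ∈ K := by
  rw [ae_iff]
  change densM ρ Kᶜ = 0
  rw [densM, withDensity_apply _ hK.compl]
  rw [setLIntegral_congr_fun (g := fun _ => 0) hK.compl (fun x hx => by simp [h2 x hx])]
  simp

theorem vol_line {t : ℝ} (ht : t ≠ 0) (d : ℂ) (A : Set ℂ) :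
    volume {y : ℂ | d + t • y ∈ A} = ENNReal.ofReal |(t ^ 2)⁻¹| * volume A := by
  have h1 : {y : ℂ | d + t • y ∈ A} = (fun y : ℂ => t • y) ⁻¹' ((fun y => d + y) ⁻¹' A) := rfl
  rw [h1, Measure.addHaar_preimage_smul _ ht, Complex.finrank_real_complex, measure_preimage_add]

theorem vol_line_le {t : ℝ} (ht : 1 / 2 ≤ t) (d : ℂ) (A : Set ℂ) :
    volume {y : ℂ | d + t • y ∈ A} ≤ 4 * volume A := by
  rw [vol_line (by positivity) d A]
  gcongr
  have h1 : (t ^ 2)⁻¹ ≤ 4 := by
    rw [inv_le_comm₀ (by positivity) (by norm_num)]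
    nlinarith
  rw [abs_of_nonneg (by positivity)]
  calc ENNReal.ofReal (t ^ 2)⁻¹ ≤ ENNReal.ofReal 4 := ENNReal.ofReal_le_ofReal h1
    _ = 4 := by simp

theorem dens_line {K D : Set ℂ} (hDm : MeasurableSet D) {σ : ℂ → ℝ} {C : ℝ}
    (h1 : ∀ x, σ x ≤ C) (h2 : ∀ x, x ∉ D → σ x = 0) {t : ℝ} (ht : 1 / 2 ≤ t) (d : ℂ)
    (hd : ∀ y ∈ D, d + t • y ∈ K) {A : Set ℂ} (hA : MeasurableSet A) :
    densM σ {y | d + t • y ∈ A} ≤ ENNReal.ofReal C * (4 * volume (A ∩ K)) := by
  have hm : Measurable (fun y : ℂ => d + t • y) := by fun_prop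
  refine (dens_le hDm h1 h2 (hm hA)).trans ?_
  gcongr
  calc volume ((fun y : ℂ => d + t • y) ⁻¹' A ∩ D) ≤ volume {y : ℂ | d + t • y ∈ A ∩ K} := by
        refine measure_mono ?_
        rintro y ⟨hy1, hy2⟩
        exact ⟨hy1, hd y hy2⟩
    _ ≤ 4 * volume (A ∩ K) := vol_line_le ht d _

theorem line_sub (s s₀ : ℝ) (p : ℂ × ℂ) : lineP s p - lineP s₀ p = (s - s₀) • (p.2 - p.1) := by
  simp only [lineP, sub_smul, smul_sub, one_smul]
  abel

theorem line_mem {D : Set ℂ} (hD : Convex ℝ D) {s : ℝ} (h0 : 0 ≤ s) (h1 : s ≤ 1) {p : ℂ × ℂ}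
    (hp1 : p.1 ∈ D) (hp2 : p.2 ∈ D) : lineP s p ∈ D :=
  hD hp1 hp2 (by linarith) h0 (by ring)

theorem line_cont : Continuous (fun q : (ℂ × ℂ) × ℝ => lineP q.2 q.1) := by
  unfold lineP
  fun_prop

end Couple

open Couple in
/-- The coupling of `r₀` and `r₁ = r₀ - θ 1_b r₀ + θ r₀(b) ν`: either the point stays or it moves
inside the ball `b` to an independent point of density `ν`; the position at every intermediate time
has a bounded density, and a moving segment rarely comes close to a given point. -/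
theorem exists_coupling {K : Set ℂ} (hK : IsCompact K) {b₀ : ℂ} {rb θ : ℝ} (hrb : 0 < rb)
    (hb : closedBall b₀ rb ⊆ K) (hθ : 0 < θ) (hθ1 : θ ≤ 1) {r₀ r₁ ν : ℂ → ℝ} (h0 : Nice K r₀)
    (h1 : Nice K r₁) (hν : Nice (closedBall b₀ rb) ν)
    (hr : ∀ x, r₁ x = r₀ x - θ * (closedBall b₀ rb).indicator r₀ x +
      θ * (∫ y in closedBall b₀ rb, r₀ y) * ν x) :
    ∃ π : Measure (ℂ × ℂ), IsProbabilityMeasure π ∧ π.map Prod.fst = densM r₀ ∧
      π.map Prod.snd = densM r₁ ∧
      (∀ᵐ p ∂π, p.1 ∈ K ∧ p.2 ∈ K ∧ (p.1 = p.2 ∨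
        (p.1 ∈ closedBall b₀ rb ∧ p.2 ∈ closedBall b₀ rb))) ∧
      ∃ B : ℝ, 0 < B ∧
        (∀ s : ℝ, 0 ≤ s → s ≤ 1 → ∀ A : Set ℂ, MeasurableSet A →
          π (lineP s ⁻¹' A) ≤ ENNReal.ofReal B * volume (A ∩ K)) ∧
        ∀ (w : ℂ) (η : ℝ), 0 < η → η ≤ 1 →
          π {p | p.1 ≠ p.2 ∧ ∃ s : ℝ, 0 ≤ s ∧ s ≤ 1 ∧ ‖lineP s p - w‖ < η} ≤
            ENNReal.ofReal (B * η) := by
  classical
  set D := closedBall b₀ rb with hDdef
  have hDm : MeasurableSet D := measurableSet_closedBall
  have hKm : MeasurableSet K := hK.measurableSet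
  obtain ⟨B₀, hB₀⟩ := h0.bdd
  obtain ⟨Bν, hBν⟩ := hν.bdd
  have hB₀0 : 0 ≤ B₀ := (h0.nonneg 0).trans (hB₀ 0)
  have hBν0 : 0 ≤ Bν := (hν.nonneg 0).trans (hBν 0)
  let e : ℂ → ℝ := fun x => θ * D.indicator r₀ x
  let a : ℂ → ℝ := fun x => r₀ x - θ * D.indicator r₀ x
  have hind : ∀ x, 0 ≤ D.indicator r₀ x ∧ D.indicator r₀ x ≤ r₀ x := by
    intro x
    by_cases hx : x ∈ D
    · rw [indicator_of_mem hx]; exact ⟨h0.nonneg x, le_rfl⟩
    · rw [indicator_of_notMem hx]; exact ⟨le_rfl, h0.nonneg x⟩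
  have he0 : ∀ x, 0 ≤ e x := fun x => mul_nonneg hθ.le (hind x).1
  have ha0 : ∀ x, 0 ≤ a x := by
    intro x
    have := hind x
    simp only [a]
    nlinarith [h0.nonneg x]
  have haB : ∀ x, a x ≤ B₀ := fun x => by
    have := he0 x
    simp only [e] at this
    simp only [a]
    linarith [hB₀ x]
  have heB : ∀ x, e x ≤ B₀ := fun x => by
    have := ha0 x
    simp only [a] at this
    simp only [e]
    linarith [hB₀ x]
  have haK : ∀ x, x ∉ K → a x = 0 := by
    intro x hx
    have hxD : x ∉ D := fun h => hx (hb h)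
    simp only [a, indicator_of_notMem hxD, h0.supp x hx]
    simp
  have heD : ∀ x, x ∉ D → e x = 0 := by
    intro x hx
    simp [e, indicator_of_notMem hx]
  have hem : Measurable e := (h0.meas.indicator hDm).const_mul θ
  have ham : Measurable a := h0.meas.sub hem
  have hr₀i : Integrable r₀ := by
    by_contra h
    have := h0.int
    rw [integral_undef h] at this
    norm_num at this
  have hνi : Integrable ν := by
    by_contra h
    have := hν.int
    rw [integral_undef h] at this
    norm_num at this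
  have hei : Integrable e := (hr₀i.indicator hDm).const_mul θ
  have hai : Integrable a := hr₀i.sub hei
  have hmD : ∫ x, e x = θ * ∫ y in D, r₀ y := by
    simp only [e]
    rw [integral_const_mul, integral_indicator hDm]
  have hae : ∫ x, a x = 1 - ∫ x, e x := by
    have : ∫ x, a x = (∫ x, r₀ x) - ∫ x, e x := integral_sub hr₀i hei
    rw [this, h0.int]
  have hMν : densM ν univ = 1 := by
    rw [dens_univ hν.nonneg hνi, hν.int, ENNReal.ofReal_one]
  have hMe : densM e univ = ENNReal.ofReal (∫ x, e x) := dens_univ he0 hei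
  have hMa : densM a univ = ENNReal.ofReal (∫ x, a x) := dens_univ ha0 hai
  have hIe0 : 0 ≤ ∫ x, e x := integral_nonneg he0
  have hIa0 : 0 ≤ ∫ x, a x := integral_nonneg ha0
  have : IsFiniteMeasure (densM ν) := ⟨by rw [hMν]; exact ENNReal.one_lt_top⟩
  have : IsFiniteMeasure (densM e) := ⟨by rw [hMe]; exact ENNReal.ofReal_lt_top⟩
  have : IsFiniteMeasure (densM a) := ⟨by rw [hMa]; exact ENNReal.ofReal_lt_top⟩
  have hdm : Measurable (fun x : ℂ => (x, x)) := by fun_prop
  let πd : Measure (ℂ × ℂ) := (densM a).map (fun x => (x, x))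
  let πm : Measure (ℂ × ℂ) := (densM e).prod (densM ν)
  have hfst : (πd + πm).map Prod.fst = densM r₀ := by
    rw [Measure.map_add _ _ measurable_fst, Measure.map_map measurable_fst hdm,
      Measure.map_fst_prod, hMν, one_smul]
    have e1 : (Prod.fst ∘ fun x : ℂ => (x, x)) = id := rfl
    rw [e1, Measure.map_id, dens_add ha0 he0 ham]
    congr 1
    ext x
    simp [a, e]
  have hsnd : (πd + πm).map Prod.snd = densM r₁ := by
    rw [Measure.map_add _ _ measurable_snd, Measure.map_map measurable_snd hdm,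
      Measure.map_snd_prod, hMe]
    have e1 : (Prod.snd ∘ fun x : ℂ => (x, x)) = id := rfl
    rw [e1, Measure.map_id, dens_smul hIe0 hν.meas,
      dens_add ha0 (fun x => mul_nonneg hIe0 (hν.nonneg x)) ham]
    congr 1
    ext x
    rw [hr x, hmD]
  have hprob : IsProbabilityMeasure (πd + πm) := by
    constructor
    rw [Measure.add_apply, Measure.map_apply hdm MeasurableSet.univ, preimage_univ]
    show densM a univ + ((densM e).prod (densM ν)) univ = 1
    rw [← univ_prod_univ, Measure.prod_prod, hMν, mul_one, hMa, hMe,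
      ← ENNReal.ofReal_add hIa0 hIe0, hae]
    simp
  have hsupp : ∀ᵐ p ∂(πd + πm), p.1 ∈ K ∧ p.2 ∈ K ∧ (p.1 = p.2 ∨ (p.1 ∈ D ∧ p.2 ∈ D)) := by
    rw [ae_add_measure_iff]
    constructor
    · have hms : MeasurableSet {p : ℂ × ℂ | p.1 ∈ K ∧ p.2 ∈ K ∧
          (p.1 = p.2 ∨ (p.1 ∈ D ∧ p.2 ∈ D))} := by
        refine (measurable_fst hKm).inter ((measurable_snd hKm).inter
          (MeasurableSet.union ?_ ((measurable_fst hDm).inter (measurable_snd hDm))))
        exact measurableSet_eq_fun measurable_fst measurable_snd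
      rw [ae_map_iff hdm.aemeasurable hms]
      filter_upwards [dens_ae hKm haK] with x hx
      exact ⟨hx, hx, Or.inl rfl⟩
    · have k1 : ∀ᵐ p ∂πm, p.1 ∈ D := Measure.quasiMeasurePreserving_fst.ae (dens_ae hDm heD)
      have k2 : ∀ᵐ p ∂πm, p.2 ∈ D := Measure.quasiMeasurePreserving_snd.ae (dens_ae hDm hν.supp)
      filter_upwards [k1, k2] with p hp1 hp2
      exact ⟨hb hp1, hb hp2, Or.inr ⟨hp1, hp2⟩⟩
  set B₁ : ℝ := 5 * B₀ + 4 * Bν + 1 with hB₁
  have hB₁0 : 0 < B₁ := by positivity
  have hlaw : ∀ s : ℝ, 0 ≤ s → s ≤ 1 → ∀ A : Set ℂ, MeasurableSet A →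
      (πd + πm) (lineP s ⁻¹' A) ≤ ENNReal.ofReal B₁ * volume (A ∩ K) := by
    intro s hs0 hs1 A hA
    have hlm : Measurable (lineP s) := by unfold lineP; fun_prop
    have hAm : MeasurableSet (lineP s ⁻¹' A) := hlm hA
    have hπd : πd (lineP s ⁻¹' A) ≤ ENNReal.ofReal B₀ * volume (A ∩ K) := by
      rw [Measure.map_apply hdm hAm]
      have e1 : (fun x : ℂ => (x, x)) ⁻¹' (lineP s ⁻¹' A) = A := by
        ext x
        have : lineP s (x, x) = x := by
          simp only [lineP]; rw [← add_smul]; simp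
        simp [this]
      rw [e1]
      exact dens_le hKm haB haK hA
    have hπm : πm (lineP s ⁻¹' A) ≤ ENNReal.ofReal (4 * B₀ + 4 * Bν) * volume (A ∩ K) := by
      rcases le_total s (1 / 2) with hs | hs
      · have h2 : πm (lineP s ⁻¹' A) = ∫⁻ y, densM e ((fun x => (x, y)) ⁻¹' (lineP s ⁻¹' A))
            ∂(densM ν) := Measure.prod_apply_symm hAm
        rw [h2]
        calc ∫⁻ y, densM e ((fun x => (x, y)) ⁻¹' (lineP s ⁻¹' A)) ∂(densM ν)
            ≤ ∫⁻ _, ENNReal.ofReal B₀ * (4 * volume (A ∩ K)) ∂(densM ν) := by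
              refine lintegral_mono_ae ?_
              filter_upwards [dens_ae hDm hν.supp] with y hy
              have := dens_line (K := K) (D := D) hDm heB heD (t := 1 - s) (by linarith)
                (s • y) (fun x hx => hb (by
                  have := line_mem (convex_closedBall b₀ rb) hs0 hs1 (p := (x, y)) hx hy
                  rw [lineP, add_comm] at this
                  exact this)) hA
              refine le_trans (le_of_eq ?_) this
              congr 1
              ext x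
              simp only [mem_preimage, mem_ofPred_eq, lineP]
              rw [add_comm]
          _ = ENNReal.ofReal B₀ * (4 * volume (A ∩ K)) := by
              rw [lintegral_const, hMν, mul_one]
          _ = ENNReal.ofReal (4 * B₀) * volume (A ∩ K) := by
              rw [ENNReal.ofReal_mul (by norm_num)]
              simp only [ENNReal.ofReal_ofNat]
              ring
          _ ≤ _ := by
              gcongr
              linarith
      · have h2 : πm (lineP s ⁻¹' A) = ∫⁻ x, densM ν (Prod.mk x ⁻¹' (lineP s ⁻¹' A))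
            ∂(densM e) := Measure.prod_apply hAm
        rw [h2]
        calc ∫⁻ x, densM ν (Prod.mk x ⁻¹' (lineP s ⁻¹' A)) ∂(densM e)
            ≤ ∫⁻ _, ENNReal.ofReal Bν * (4 * volume (A ∩ K)) ∂(densM e) := by
              refine lintegral_mono_ae ?_
              filter_upwards [dens_ae hDm heD] with x hx
              have := dens_line (K := K) (D := D) hDm hBν hν.supp (t := s) (by linarith)
                ((1 - s) • x) (fun y hy => hb
                  (line_mem (convex_closedBall b₀ rb) hs0 hs1 (p := (x, y)) hx hy)) hA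
              exact this
          _ ≤ ENNReal.ofReal Bν * (4 * volume (A ∩ K)) * 1 := by
              rw [lintegral_const, hMe]
              gcongr
              rw [← ENNReal.ofReal_one]
              exact ENNReal.ofReal_le_ofReal (by linarith)
          _ = ENNReal.ofReal (4 * Bν) * volume (A ∩ K) := by
              rw [ENNReal.ofReal_mul (by norm_num)]
              simp only [ENNReal.ofReal_ofNat]
              ring
          _ ≤ _ := by
              gcongr
              linarith
    calc (πd + πm) (lineP s ⁻¹' A) = πd (lineP s ⁻¹' A) + πm (lineP s ⁻¹' A) := rfl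
      _ ≤ ENNReal.ofReal B₀ * volume (A ∩ K) +
          ENNReal.ofReal (4 * B₀ + 4 * Bν) * volume (A ∩ K) := add_le_add hπd hπm
      _ = ENNReal.ofReal (B₀ + (4 * B₀ + 4 * Bν)) * volume (A ∩ K) := by
          rw [ENNReal.ofReal_add hB₀0 (by positivity), add_mul]
      _ ≤ _ := by
          gcongr
          rw [hB₁]
          linarith
  -- close passes
  set c : ℝ := min (1 / (2 * rb)) (1 / 2) with hc
  have hc0 : 0 < c := lt_min (by positivity) (by norm_num)
  set B₂ : ℝ := B₁ * (4 * Real.pi) / c with hB₂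
  have hB₂0 : 0 < B₂ := by positivity
  refine ⟨πd + πm, hprob, hfst, hsnd, hsupp, B₁ + B₂, by positivity, ?_, ?_⟩
  · intro s hs0 hs1 A hA
    refine (hlaw s hs0 hs1 A hA).trans ?_
    gcongr
    linarith
  · intro w η hη hη1
    let I : Measure ℝ := volume.restrict (Icc 0 1)
    let F : (ℂ × ℂ) → ℝ → ENNReal := fun p s => (ball w (2 * η)).indicator (fun _ => 1) (lineP s p)
    have hFm : Measurable (Function.uncurry F) := by
      have : Measurable (fun q : (ℂ × ℂ) × ℝ => lineP q.2 q.1) := line_cont.measurable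
      exact (measurable_const.indicator measurableSet_ball).comp this
    have hfm : Measurable (fun p => ∫⁻ s, F p s ∂I) := hFm.lintegral_prod_right'
    have hsub : (πd + πm) {p | p.1 ≠ p.2 ∧ ∃ s : ℝ, 0 ≤ s ∧ s ≤ 1 ∧ ‖lineP s p - w‖ < η} ≤
        (πd + πm) {p | ENNReal.ofReal (c * η) ≤ ∫⁻ s, F p s ∂I} := by
      refine measure_mono_ae ?_
      filter_upwards [hsupp] with p hp
      rintro ⟨hne, s₀, hs0, hs1, hlt⟩
      have hpD : p.1 ∈ D ∧ p.2 ∈ D := by
        rcases hp.2.2 with h | h
        · exact absurd h hne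
        · exact h
      have hdist : ‖p.2 - p.1‖ ≤ 2 * rb := by
        have e1 := mem_closedBall.1 hpD.1
        have e2 := mem_closedBall.1 hpD.2
        calc ‖p.2 - p.1‖ = dist p.2 p.1 := (dist_eq_norm _ _).symm
          _ ≤ dist p.2 b₀ + dist p.1 b₀ := dist_triangle_right _ _ _
          _ ≤ 2 * rb := by linarith
      have hcη : c * η ≤ 1 / 2 := by
        have : c ≤ 1 / 2 := min_le_right _ _
        nlinarith
      have hcη2 : c * η * (2 * rb) ≤ η := by
        have : c ≤ 1 / (2 * rb) := min_le_left _ _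
        have h3 : c * (2 * rb) ≤ 1 := by
          rw [le_div_iff₀ (by positivity)] at this
          exact this
        nlinarith
      have hcη0 : 0 < c * η := by positivity
      -- an interval of length c * η
      obtain ⟨u, hu0, hu1, hu2⟩ : ∃ u : ℝ, 0 ≤ u ∧ u + c * η ≤ 1 ∧
          ∀ s ∈ Icc u (u + c * η), |s - s₀| ≤ c * η := by
        rcases le_total s₀ (1 / 2) with h | h
        · refine ⟨s₀, hs0, by linarith, fun s hs => ?_⟩
          rw [abs_le]; constructor <;> linarith [hs.1, hs.2]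
        · refine ⟨s₀ - c * η, by linarith, by linarith, fun s hs => ?_⟩
          rw [abs_le]; constructor <;> linarith [hs.1, hs.2]
      have hIcc : Icc u (u + c * η) ⊆ Icc 0 1 := Icc_subset_Icc hu0 hu1
      show ENNReal.ofReal (c * η) ≤ ∫⁻ s, F p s ∂I
      calc ENNReal.ofReal (c * η) = ∫⁻ _ in Icc u (u + c * η), 1 := by
            rw [lintegral_const, one_mul, Measure.restrict_apply_univ, Real.volume_Icc]
            congr 1; ring
        _ ≤ ∫⁻ s in Icc u (u + c * η), F p s := by
            refine setLIntegral_mono' measurableSet_Icc fun s hs => ?_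
            have hmem : lineP s p ∈ ball w (2 * η) := by
              rw [mem_ball, dist_eq_norm]
              have e1 : lineP s p - w = (lineP s p - lineP s₀ p) + (lineP s₀ p - w) := by abel
              rw [e1, line_sub]
              calc ‖(s - s₀) • (p.2 - p.1) + (lineP s₀ p - w)‖
                  ≤ ‖(s - s₀) • (p.2 - p.1)‖ + ‖lineP s₀ p - w‖ := norm_add_le _ _
                _ ≤ c * η * (2 * rb) + ‖lineP s₀ p - w‖ := by
                    rw [norm_smul, Real.norm_eq_abs]
                    have := hu2 s hs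
                    gcongr
                _ < 2 * η := by linarith
            simp only [F, indicator_of_mem hmem]
            exact le_rfl
        _ ≤ ∫⁻ s, F p s ∂I := lintegral_mono_set hIcc
    refine hsub.trans ?_
    have hmark := mul_meas_ge_le_lintegral₀ (μ := πd + πm) hfm.aemeasurable
      (ENNReal.ofReal (c * η))
    have hswap : ∫⁻ p, ∫⁻ s, F p s ∂I ∂(πd + πm) = ∫⁻ s, ∫⁻ p, F p s ∂(πd + πm) ∂I :=
      lintegral_lintegral_swap hFm.aemeasurable
    have hin : ∀ s ∈ Icc (0 : ℝ) 1, ∫⁻ p, F p s ∂(πd + πm) ≤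
        ENNReal.ofReal B₁ * volume (ball w (2 * η)) := by
      intro s hs
      have hlm : Measurable (lineP s) := by unfold lineP; fun_prop
      have e1 : ∫⁻ p, F p s ∂(πd + πm) = (πd + πm) (lineP s ⁻¹' ball w (2 * η)) := by
        rw [← lintegral_indicator_one (hlm measurableSet_ball)]
        rfl
      rw [e1]
      refine (hlaw s hs.1 hs.2 _ measurableSet_ball).trans ?_
      gcongr
      exact inter_subset_left
    have hvol : volume (ball w (2 * η)) = ENNReal.ofReal ((2 * η) ^ 2 * Real.pi) := by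
      rw [Complex.volume_ball, ENNReal.ofReal_mul (p := (2 * η) ^ 2) (by positivity),
        ENNReal.ofReal_pow (p := 2 * η) (by positivity)]
      congr 1
      rw [← NNReal.coe_real_pi, ENNReal.ofReal_coe_nnreal]
    have htot : ENNReal.ofReal (c * η) * (πd + πm) {p | ENNReal.ofReal (c * η) ≤ ∫⁻ s, F p s ∂I} ≤
        ENNReal.ofReal (B₁ * ((2 * η) ^ 2 * Real.pi)) := by
      refine hmark.trans ?_
      rw [hswap]
      calc ∫⁻ s, ∫⁻ p, F p s ∂(πd + πm) ∂I
          ≤ ∫⁻ _ in Icc (0 : ℝ) 1, ENNReal.ofReal B₁ * volume (ball w (2 * η)) :=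
            setLIntegral_mono' measurableSet_Icc hin
        _ = ENNReal.ofReal B₁ * volume (ball w (2 * η)) := by
            rw [lintegral_const, Measure.restrict_apply_univ, Real.volume_Icc]
            simp
        _ = ENNReal.ofReal (B₁ * ((2 * η) ^ 2 * Real.pi)) := by
            rw [hvol, ENNReal.ofReal_mul hB₁0.le]
    have hcη0 : 0 < c * η := by positivity
    have hfin : B₁ * ((2 * η) ^ 2 * Real.pi) = (c * η) * (B₂ * η) := by
      rw [hB₂]
      field_simp
      ring
    rw [hfin, ENNReal.ofReal_mul hcη0.le] at htot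
    have h3 := (ENNReal.mul_le_mul_iff_right (by simpa using hcη0) ENNReal.ofReal_ne_top).1 htot
    refine h3.trans (ENNReal.ofReal_le_ofReal ?_)
    gcongr
    linarith

end Pool.Agent.Lib.MP_fa244c_mp
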