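import Pool.Agent.Lib.MP_fa244c_mp.GSmooth

set_option autoImplicit false

open MeasureTheory Filter Topology Set Metric

namespace Pool.Agent.Lib.MP_fa244c_mp

/-- `g` set to zero outside `Λ × Λ`. -/
noncomputable def cut (Λ : Set ℂ) (g : ℂ → ℂ → ℝ) (x y : ℂ) : ℝ :=
  Set.indicator Λ (fun x => Set.indicator Λ (fun y => g x y) y) x

theorem cut_of_mem {Λ : Set ℂ} {g : ℂ → ℂ → ℝ} {x y : ℂ} (hx : x ∈ Λ) (hy : y ∈ Λ) :
    cut Λ g x y = g x y := by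
  simp [cut, hx, hy]

theorem Gst_cut {Λ : Set ℂ} {g : ℂ → ℂ → ℝ} {x y : ℂ} (hx : x ∈ Λ) (hy : y ∈ Λ) :
    Gst (cut Λ g) x y = Gst g x y := by
  rw [Gst_eq, Gst_eq, cut_of_mem hx hy]

theorem energy_cut {Λ : Set ℂ} {g : ℂ → ℂ → ℝ} {ι : Type} [Fintype ι] (c : ι → ℝ) {x : ι → ℂ}
    (hx : ∀ i, x i ∈ Λ) : energy (cut Λ g) c x = energy g c x := by
  unfold energy
  congr 1
  exact Finset.sum_congr rfl fun i _ => Finset.sum_congr rfl fun j _ => by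
    rw [Gst_cut (hx i) (hx j)]

theorem Dom.cut {Λ : Set ℂ} {g : ℂ → ℂ → ℝ} (hD : Dom Λ g) : Dom Λ (cut Λ g) := by
  refine ⟨hD.isOpen, hD.bdd, hD.ne, ⟨fun y hy x hx => ?_, fun y hy ζ hζ => ?_⟩, hD.collar⟩
  · have h := hD.green.harm y hy x hx
    refine (InnerProductSpace.harmonicAt_congr_nhds ?_).1 h
    filter_upwards [hD.isOpen.mem_nhds hx] with z hz
    exact (cut_of_mem hz hy).symm
  · refine (hD.green.bdry y hy ζ hζ).congr' ?_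
    filter_upwards [self_mem_nhdsWithin] with z hz
    exact (cut_of_mem hz hy).symm

theorem measurable_cut {Λ : Set ℂ} {g : ℂ → ℂ → ℝ} (hD : Dom Λ g) :
    Measurable (Function.uncurry (MP_fa244c_mp.cut Λ g)) := by
  classical
  have hc : ContinuousOn (fun p : ℂ × ℂ => g p.1 p.2) (Λ ×ˢ Λ) := fun p hp =>
    (gg_contDiffAt hD hp.1 hp.2).continuousAt.continuousWithinAt
  have h := ContinuousOn.measurable_piecewise (f := fun p : ℂ × ℂ => g p.1 p.2)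
    (g := fun _ => (0 : ℝ)) hc continuousOn_const
    (hD.isOpen.measurableSet.prod hD.isOpen.measurableSet)
  convert h using 1
  ext p
  by_cases h1 : p.1 ∈ Λ <;> by_cases h2 : p.2 ∈ Λ <;>
    simp [Function.uncurry, MP_fa244c_mp.cut, Set.piecewise, h1, h2]

theorem below_cut (Λ : Set ℂ) (g : ℂ → ℂ → ℝ) (m : ℕ) (E : ℝ) :
    below Λ (cut Λ g) m E = below Λ g m E := by
  ext x
  simp only [below, Set.mem_ofPred_eq]
  exact and_congr_right fun hx => by rw [energy_cut _ hx]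

theorem Phi_cut (Λ : Set ℂ) (g : ℂ → ℂ → ℝ) (m : ℕ) : Phi Λ (cut Λ g) m = Phi Λ g m := by
  ext E
  rw [Phi, Phi, below_cut]

theorem isMicro_cut (Λ : Set ℂ) (g : ℂ → ℂ → ℝ) (m : ℕ) (E : ℝ)
    (μ : Measure (Fin m ⊕ Fin m → ℂ)) : IsMicro Λ (cut Λ g) m E μ ↔ IsMicro Λ g m E μ := by
  simp only [IsMicro, below_cut, Phi_cut]

theorem enE_cut {Λ : Set ℂ} {g : ℂ → ℂ → ℝ} {ρp ρm : ℂ → ℝ} (h1 : IsDens Λ ρp)
    (h2 : IsDens Λ ρm) : enE (cut Λ g) ρp ρm = enE g ρp ρm := by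
  unfold enE
  congr 2
  ext x
  congr 1
  ext y
  by_cases hx : x ∈ Λ
  · by_cases hy : y ∈ Λ
    · rw [Gst_cut hx hy]
    · rw [h1.supp y hy, h2.supp y hy]; simp
  · rw [h1.supp x hx, h2.supp x hx]; simp

theorem isAdm_cut (Λ : Set ℂ) (g : ℂ → ℂ → ℝ) (ε : ℝ) (ρp ρm : ℂ → ℝ) :
    IsAdm Λ (cut Λ g) ε ρp ρm ↔ IsAdm Λ g ε ρp ρm := by
  unfold IsAdm
  exact and_congr_right fun h1 => and_congr_right fun h2 => by rw [enE_cut h1 h2]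

theorem isMaxPair_cut (Λ : Set ℂ) (g : ℂ → ℂ → ℝ) (ε : ℝ) (ρp ρm : ℂ → ℝ) :
    IsMaxPair Λ (cut Λ g) ε ρp ρm ↔ IsMaxPair Λ g ε ρp ρm := by
  simp only [IsMaxPair, isAdm_cut]

theorem sMax_cut (Λ : Set ℂ) (g : ℂ → ℂ → ℝ) (ε : ℝ) : sMax Λ (cut Λ g) ε = sMax Λ g ε := by
  simp only [sMax, isAdm_cut]

end Pool.Agent.Lib.MP_fa244c_mp
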