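import Pool.Agent.Lib.MP_fa244c_mp.Core

set_option autoImplicit false

open MeasureTheory Filter Topology Set Metric

namespace Pool.Agent.Lib.MP_fa244c_mp

namespace DVaux

lemma exp_sub_le {M a b : ℝ} (ha : a ≤ M) :
    Real.exp a - Real.exp b ≤ Real.exp M * |a - b| := by
  rcases le_total a b with h | h
  · have : Real.exp a ≤ Real.exp b := Real.exp_le_exp.2 h
    have h2 : 0 ≤ Real.exp M * |a - b| := by positivity
    linarith
  · have h1 : Real.exp a - Real.exp b = Real.exp a * (1 - Real.exp (b - a)) := by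
      rw [mul_sub, mul_one, ← Real.exp_add]
      congr 2
      ring
    have h2 : 1 - Real.exp (b - a) ≤ a - b := by
      have := Real.add_one_le_exp (b - a)
      linarith
    rw [h1, abs_of_nonneg (sub_nonneg.2 h)]
    calc Real.exp a * (1 - Real.exp (b - a)) ≤ Real.exp a * (a - b) :=
          mul_le_mul_of_nonneg_left h2 (Real.exp_pos a).le
      _ ≤ Real.exp M * (a - b) :=
          mul_le_mul_of_nonneg_right (Real.exp_le_exp.2 ha) (sub_nonneg.2 h)

lemma integrable_of_bdd (ν : Measure ℂ) [IsFiniteMeasure ν] {f : ℂ → ℝ} (hf : Measurable f)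
    {M : ℝ} (hM : ∀ x, |f x| ≤ M) : Integrable f ν :=
  Integrable.of_bound hf.aestronglyMeasurable M (Eventually.of_forall fun x => by
    rw [Real.norm_eq_abs]; exact hM x)

lemma integrable_exp (ν : Measure ℂ) [IsFiniteMeasure ν] {f : ℂ → ℝ} (hf : Measurable f)
    {M : ℝ} (hM : ∀ x, |f x| ≤ M) : Integrable (fun x => Real.exp (f x)) ν := by
  apply integrable_of_bdd ν (Real.measurable_exp.comp hf) (M := Real.exp M)
  intro x
  change |Real.exp (f x)| ≤ Real.exp M
  rw [abs_of_pos (Real.exp_pos _)]
  exact Real.exp_le_exp.2 ((le_abs_self _).trans (hM x))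

/-- Extension of the inequality to bounded measurable functions. -/
lemma dv_bdd (μ p : Measure ℂ) [IsProbabilityMeasure μ] [IsProbabilityMeasure p] (K : ℝ)
    (h : ∀ φ : BoundedContinuousFunction ℂ ℝ,
      ∫ x, φ x ∂p - Real.log (∫ x, Real.exp (φ x) ∂μ) ≤ K)
    (f : ℂ → ℝ) (hf : Measurable f) (M : ℝ) (hM : ∀ x, |f x| ≤ M) :
    ∫ x, f x ∂p - Real.log (∫ x, Real.exp (f x) ∂μ) ≤ K := by
  have hM0 : 0 ≤ M := (abs_nonneg _).trans (hM 0)
  set Z := ∫ x, Real.exp (f x) ∂μ with hZ
  have hZpos : 0 < Z := by
    have h1 : ∫ _x, Real.exp (-M) ∂μ ≤ Z := by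
      apply integral_mono (integrable_const _) (integrable_exp μ hf hM)
      intro x
      exact Real.exp_le_exp.2 (neg_le_of_abs_le (hM x))
    have h2 : ∫ _x : ℂ, Real.exp (-M) ∂μ = Real.exp (-M) := by simp
    rw [h2] at h1
    exact (Real.exp_pos _).trans_le h1
  set c := 1 + Real.exp M / Z with hc
  have hcpos : 0 < c := by positivity
  suffices hs : ∀ ε : ℝ, 0 < ε → ∫ x, f x ∂p - Real.log Z ≤ K + ε * c by
    apply le_of_forall_pos_le_add
    intro ε hε
    have := hs (ε / c) (by positivity)
    rwa [div_mul_cancel₀ _ hcpos.ne'] at this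
  intro ε hε
  obtain ⟨g0, hg0, -⟩ := (integrable_of_bdd (p + μ) hf hM).exists_boundedContinuous_integral_sub_le
    hε
  let g : BoundedContinuousFunction ℂ ℝ :=
    BoundedContinuousFunction.ofNormedAddCommGroup (fun x => max (-M) (min (g0 x) M))
      (by fun_prop) M (by
        intro x
        rw [Real.norm_eq_abs, abs_le]
        exact ⟨le_max_left _ _, max_le (by linarith) (min_le_right _ _)⟩)
  have hgx : ∀ x, g x = max (-M) (min (g0 x) M) := fun x => rfl
  have hgM : ∀ x, |g x| ≤ M := by
    intro x
    rw [hgx, abs_le]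
    exact ⟨le_max_left _ _, max_le (by linarith) (min_le_right _ _)⟩
  have hgm : Measurable (fun x => g x) := g.continuous.measurable
  have hle : ∀ x, |f x - g x| ≤ ‖f x - g0 x‖ := by
    intro x
    rw [Real.norm_eq_abs, hgx]
    have := abs_le.1 (hM x)
    rcases le_total (g0 x) M with h1 | h1
    · rw [min_eq_left h1]
      rcases le_total (-M) (g0 x) with h2 | h2
      · rw [max_eq_right h2]
      · rw [max_eq_left h2, abs_of_nonneg (by linarith), abs_of_nonneg (by linarith)]
        linarith
    · rw [min_eq_right h1, max_eq_right (by linarith), abs_of_nonpos (by linarith),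
        abs_of_nonpos (by linarith)]
      linarith
  have hint0 : Integrable (fun x => ‖f x - g0 x‖) (p + μ) := by
    apply Integrable.norm
    exact (integrable_of_bdd (p + μ) hf hM).sub (g0.integrable (p + μ))
  have hint : Integrable (fun x => |f x - g x|) (p + μ) :=
    ((integrable_of_bdd (p + μ) hf hM).sub (g.integrable (p + μ))).abs
  have hI : ∫ x, |f x - g x| ∂(p + μ) ≤ ε :=
    (integral_mono hint hint0 hle).trans hg0
  rw [integral_add_measure hint.left_of_add_measure hint.right_of_add_measure] at hI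
  have hIp : 0 ≤ ∫ x, |f x - g x| ∂p := integral_nonneg fun x => abs_nonneg _
  have hIμ : 0 ≤ ∫ x, |f x - g x| ∂μ := integral_nonneg fun x => abs_nonneg _
  have e1 : ∫ x, f x ∂p ≤ ∫ x, g x ∂p + ε := by
    have : ∫ x, f x ∂p - ∫ x, g x ∂p ≤ ∫ x, |f x - g x| ∂p := by
      rw [← integral_sub (integrable_of_bdd p hf hM) (g.integrable p)]
      apply integral_mono ((integrable_of_bdd p hf hM).sub (g.integrable p))
        hint.left_of_add_measure
      intro x
      exact le_abs_self _
    linarith
  have e2 : ∫ x, Real.exp (g x) ∂μ ≤ Z + Real.exp M * ε := by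
    have h1 : ∫ x, Real.exp (g x) ∂μ - Z ≤ ∫ x, Real.exp M * |f x - g x| ∂μ := by
      rw [hZ, ← integral_sub (integrable_exp μ hgm hgM) (integrable_exp μ hf hM)]
      apply integral_mono ((integrable_exp μ hgm hgM).sub (integrable_exp μ hf hM))
        (hint.right_of_add_measure.const_mul _)
      intro x
      have := exp_sub_le (b := f x) ((le_abs_self _).trans (hgM x))
      rw [abs_sub_comm] at this
      exact this
    rw [integral_const_mul] at h1
    have h2 : Real.exp M * ∫ x, |f x - g x| ∂μ ≤ Real.exp M * ε :=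
      mul_le_mul_of_nonneg_left (by linarith) (Real.exp_pos M).le
    linarith
  have e3 : 0 < ∫ x, Real.exp (g x) ∂μ := by
    have h1 : ∫ _x, Real.exp (-M) ∂μ ≤ ∫ x, Real.exp (g x) ∂μ := by
      apply integral_mono (integrable_const _) (integrable_exp μ hgm hgM)
      intro x
      exact Real.exp_le_exp.2 (neg_le_of_abs_le (hgM x))
    have h2 : ∫ _x : ℂ, Real.exp (-M) ∂μ = Real.exp (-M) := by simp
    rw [h2] at h1
    exact (Real.exp_pos _).trans_le h1
  have e4 : Real.log (∫ x, Real.exp (g x) ∂μ) ≤ Real.log Z + Real.exp M * ε / Z := by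
    have h1 : Real.log (∫ x, Real.exp (g x) ∂μ) ≤ Real.log (Z + Real.exp M * ε) :=
      Real.log_le_log e3 e2
    have h2 : Z + Real.exp M * ε = Z * (1 + Real.exp M * ε / Z) := by
      field_simp
    have h3 : 0 < 1 + Real.exp M * ε / Z := by positivity
    rw [h2, Real.log_mul hZpos.ne' h3.ne'] at h1
    have h4 := Real.log_le_sub_one_of_pos h3
    linarith
  have e5 := h g
  have e6 : ε * c = ε + Real.exp M * ε / Z := by
    rw [hc]
    ring
  rw [e6]
  linarith

lemma abs_clamp_le (u : ℝ) (k : ℕ) :
    |Real.log (max (Real.exp (-(k : ℝ))) (min u (Real.exp k)))| ≤ k := by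
  have h1 : Real.exp (-(k : ℝ)) ≤ max (Real.exp (-(k : ℝ))) (min u (Real.exp k)) :=
    le_max_left _ _
  have h2 : max (Real.exp (-(k : ℝ))) (min u (Real.exp k)) ≤ Real.exp k := by
    apply max_le
    · apply Real.exp_le_exp.2
      have : (0 : ℝ) ≤ k := Nat.cast_nonneg k
      linarith
    · exact min_le_right _ _
  have hpos : 0 < max (Real.exp (-(k : ℝ))) (min u (Real.exp k)) :=
    (Real.exp_pos _).trans_le h1
  rw [abs_le]
  constructor
  · have := Real.log_le_log (Real.exp_pos _) h1
    rwa [Real.log_exp] at this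
  · have := Real.log_le_log hpos h2
    rwa [Real.log_exp] at this

lemma abs_mul_clamp_le (u : ℝ) (hu : 0 ≤ u) (k : ℕ) :
    |u * Real.log (max (Real.exp (-(k : ℝ))) (min u (Real.exp k)))| ≤ |u * Real.log u| := by
  rcases hu.eq_or_lt with h0 | h0
  · rw [← h0]; simp
  rw [abs_mul, abs_mul]
  apply mul_le_mul_of_nonneg_left _ (abs_nonneg u)
  have hk : (0 : ℝ) ≤ k := Nat.cast_nonneg k
  have hek : Real.exp (-(k : ℝ)) ≤ 1 := by
    rw [← Real.exp_zero]
    exact Real.exp_le_exp.2 (by linarith)
  have hek' : 1 ≤ Real.exp (k : ℝ) := by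
    rw [← Real.exp_zero]
    exact Real.exp_le_exp.2 hk
  rcases le_total 1 u with h1 | h1
  · have h2 : 1 ≤ min u (Real.exp k) := le_min h1 hek'
    rw [max_eq_right (hek.trans h2), abs_of_nonneg (Real.log_nonneg h2),
      abs_of_nonneg (Real.log_nonneg h1)]
    exact Real.log_le_log (by linarith) (min_le_left _ _)
  · rw [min_eq_left (h1.trans hek')]
    have h2 : max (Real.exp (-(k : ℝ))) u ≤ 1 := max_le hek h1
    have h3 : 0 < max (Real.exp (-(k : ℝ))) u := (Real.exp_pos _).trans_le (le_max_left _ _)
    rw [abs_of_nonpos (Real.log_nonpos h3.le h2), abs_of_nonpos (Real.log_nonpos hu h1)]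
    have := Real.log_le_log h0 (le_max_right (Real.exp (-(k : ℝ))) u)
    linarith

lemma tendsto_clamp (u : ℝ) (hu : 0 ≤ u) :
    Tendsto (fun k : ℕ => u * Real.log (max (Real.exp (-(k : ℝ))) (min u (Real.exp k)))) atTop
      (𝓝 (u * Real.log u)) := by
  rcases hu.eq_or_lt with h0 | h0
  · rw [← h0]; simp
  apply tendsto_const_nhds.congr'
  have h1 : ∀ᶠ k : ℕ in atTop, |Real.log u| ≤ k := by
    filter_upwards [eventually_ge_atTop ⌈|Real.log u|⌉₊] with k hk
    exact (Nat.le_ceil _).trans (by exact_mod_cast hk)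
  filter_upwards [h1] with k hk
  have h2 := abs_le.1 hk
  have h3 : u ≤ Real.exp k := by
    rw [← Real.exp_log h0]
    exact Real.exp_le_exp.2 h2.2
  have h4 : Real.exp (-(k : ℝ)) ≤ u := by
    conv_rhs => rw [← Real.exp_log h0]
    exact Real.exp_le_exp.2 h2.1
  rw [min_eq_left h3, max_eq_right h4]

lemma clamp_le (u : ℝ) (k : ℕ) (hu : 0 ≤ u) :
    Real.exp (Real.log (max (Real.exp (-(k : ℝ))) (min u (Real.exp k)))) ≤
      u + Real.exp (-(k : ℝ)) := by
  rw [Real.exp_log ((Real.exp_pos _).trans_le (le_max_left _ _))]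
  have := Real.exp_pos (-(k : ℝ))
  exact max_le (by linarith) ((min_le_left _ _).trans (by linarith))

lemma neg_part_bound (u : ℝ) (k : ℕ) (hu : 0 ≤ u) :
    -1 ≤ u * Real.log (max (Real.exp (-(k : ℝ))) (min u (Real.exp k))) := by
  rcases le_total 1 u with h1 | h1
  · have hk : (0 : ℝ) ≤ k := Nat.cast_nonneg k
    have hek' : 1 ≤ Real.exp (k : ℝ) := by
      rw [← Real.exp_zero]
      exact Real.exp_le_exp.2 hk
    have h2 : 1 ≤ max (Real.exp (-(k : ℝ))) (min u (Real.exp k)) :=
      (le_min h1 hek').trans (le_max_right _ _)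
    have := mul_nonneg hu (Real.log_nonneg h2)
    linarith
  · have h2 := abs_mul_clamp_le u hu k
    have h3 : |u * Real.log u| ≤ 1 := by
      rcases hu.eq_or_lt with h0 | h0
      · rw [← h0]; simp
      have h4 : u * Real.log u ≤ 0 :=
        mul_nonpos_of_nonneg_of_nonpos hu (Real.log_nonpos hu h1)
      rw [abs_of_nonpos h4]
      have h5 := Real.log_le_sub_one_of_pos (inv_pos.2 h0)
      rw [Real.log_inv] at h5
      have h6 : u * (-Real.log u) ≤ u * (u⁻¹ - 1) := mul_le_mul_of_nonneg_left h5 hu
      rw [mul_sub, mul_inv_cancel₀ h0.ne', mul_one] at h6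
      linarith
    have := neg_abs_le (u * Real.log (max (Real.exp (-(k : ℝ))) (min u (Real.exp k))))
    linarith

/-- The core of the argument for general probability measures. -/
lemma dv_core (μ p : Measure ℂ) [IsProbabilityMeasure μ] [IsProbabilityMeasure p] (K : ℝ)
    (h : ∀ φ : BoundedContinuousFunction ℂ ℝ,
      ∫ x, φ x ∂p - Real.log (∫ x, Real.exp (φ x) ∂μ) ≤ K) :
    ∃ u : ℂ → ℝ, Measurable u ∧ (∀ x, 0 ≤ u x) ∧ p = μ.withDensity (fun x => ENNReal.ofReal (u x))
      ∧ Integrable u μ ∧ ∫ x, u x ∂μ = 1 ∧ Integrable (fun x => u x * Real.log (u x)) μ ∧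
      ∫ x, u x * Real.log (u x) ∂μ ≤ K := by
  have hbd := dv_bdd μ p K h
  have hac : p ≪ μ := by
    refine Measure.AbsolutelyContinuous.mk fun A hA hμA => ?_
    have hreal : p.real A = 0 := by
      by_contra hne
      have hpos : 0 < p.real A := lt_of_le_of_ne measureReal_nonneg (Ne.symm hne)
      have key : ∀ M : ℝ, 0 ≤ M → M * p.real A ≤ K := by
        intro M hM
        have h1 := hbd (A.indicator fun _ => M) (measurable_const.indicator hA) M (by
          intro x
          by_cases hx : x ∈ A
          · rw [indicator_of_mem hx, abs_of_nonneg hM]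
          · rw [indicator_of_notMem hx, abs_zero]; exact hM)
        rw [integral_indicator hA, setIntegral_const, smul_eq_mul] at h1
        have h2 : ∫ x, Real.exp (A.indicator (fun _ => M) x) ∂μ = 1 := by
          have : (fun x => Real.exp (A.indicator (fun _ => M) x)) =ᵐ[μ] fun _ => (1 : ℝ) := by
            have hae : ∀ᵐ x ∂μ, x ∉ A := measure_eq_zero_iff_ae_notMem.1 hμA
            filter_upwards [hae] with x hx
            rw [indicator_of_notMem hx, Real.exp_zero]
          rw [integral_congr_ae this]
          simp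
        rw [h2, Real.log_one, sub_zero] at h1
        linarith
      have h3 := key ((|K| + 1) / p.real A) (by positivity)
      rw [div_mul_cancel₀ _ hpos.ne'] at h3
      have := le_abs_self K
      linarith
    exact (measureReal_eq_zero_iff (measure_ne_top _ _)).1 hreal
  set u : ℂ → ℝ := fun x => (p.rnDeriv μ x).toReal with hu
  have hum : Measurable u := (Measure.measurable_rnDeriv p μ).ennreal_toReal
  have hu0 : ∀ x, 0 ≤ u x := fun x => ENNReal.toReal_nonneg
  have hdens : p = μ.withDensity (fun x => ENNReal.ofReal (u x)) := by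
    conv_lhs => rw [← Measure.withDensity_rnDeriv_eq p μ hac]
    apply withDensity_congr_ae
    filter_upwards [Measure.rnDeriv_lt_top p μ] with x hx
    rw [hu]
    simp only
    rw [ENNReal.ofReal_toReal hx.ne]
  have hui : Integrable u μ := Measure.integrable_toReal_rnDeriv
  have hu1 : ∫ x, u x ∂μ = 1 := by
    have := integral_rnDeriv_smul hac (f := fun _ : ℂ => (1 : ℝ))
    simpa using this
  refine ⟨u, hum, hu0, hdens, hui, hu1, ?_⟩
  -- the clamped logarithms
  set φ : ℕ → ℂ → ℝ := fun k x =>
    Real.log (max (Real.exp (-(k : ℝ))) (min (u x) (Real.exp k))) with hφ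
  have hφm : ∀ k, Measurable (φ k) := by
    intro k
    apply Real.measurable_log.comp
    exact measurable_const.max (hum.min measurable_const)
  have hφb : ∀ k x, |φ k x| ≤ k := fun k x => abs_clamp_le (u x) k
  have hmain : ∀ k, ∫ x, u x * φ k x ∂μ ≤ K + Real.exp (-(k : ℝ)) := by
    intro k
    have h1 := hbd (φ k) (hφm k) k (hφb k)
    have h2 : ∫ x, φ k x ∂p = ∫ x, u x * φ k x ∂μ := by
      have := integral_rnDeriv_smul hac (f := φ k)
      rw [← this]
      rfl
    have h3 : ∫ x, Real.exp (φ k x) ∂μ ≤ 1 + Real.exp (-(k : ℝ)) := by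
      have : ∫ x, Real.exp (φ k x) ∂μ ≤ ∫ x, (u x + Real.exp (-(k : ℝ))) ∂μ := by
        apply integral_mono (integrable_exp μ (hφm k) (hφb k))
          (hui.add (integrable_const _))
        intro x
        exact clamp_le (u x) k (hu0 x)
      rw [integral_add hui (integrable_const _), hu1] at this
      simpa using this
    have h4 : 0 < ∫ x, Real.exp (φ k x) ∂μ := by
      have h5 : ∫ _x, Real.exp (-(k : ℝ)) ∂μ ≤ ∫ x, Real.exp (φ k x) ∂μ := by
        apply integral_mono (integrable_const _) (integrable_exp μ (hφm k) (hφb k))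
        intro x
        exact Real.exp_le_exp.2 (neg_le_of_abs_le (hφb k x))
      have h6 : ∫ _x : ℂ, Real.exp (-(k : ℝ)) ∂μ = Real.exp (-(k : ℝ)) := by simp
      rw [h6] at h5
      exact (Real.exp_pos _).trans_le h5
    have h5 : Real.log (∫ x, Real.exp (φ k x) ∂μ) ≤ Real.exp (-(k : ℝ)) := by
      have := Real.log_le_sub_one_of_pos h4
      linarith
    rw [h2] at h1
    linarith
  have hmeas : Measurable fun x => u x * Real.log (u x) := hum.mul (Real.measurable_log.comp hum)
  have hint : ∀ k, Integrable (fun x => u x * φ k x) μ := by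
    intro k
    apply Integrable.mul_bdd (c := (k : ℝ)) hui (hφm k).aestronglyMeasurable
    exact Eventually.of_forall fun x => by rw [Real.norm_eq_abs]; exact hφb k x
  -- integrability by Fatou
  have hfin : ∫⁻ x, ENNReal.ofReal (u x * Real.log (u x) + 1) ∂μ ≤ ENNReal.ofReal (K + 2) := by
    have hlim : ∀ x, Tendsto (fun k => ENNReal.ofReal (u x * φ k x + 1)) atTop
        (𝓝 (ENNReal.ofReal (u x * Real.log (u x) + 1))) := by
      intro x
      exact ENNReal.tendsto_ofReal ((tendsto_clamp (u x) (hu0 x)).add_const 1)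
    calc ∫⁻ x, ENNReal.ofReal (u x * Real.log (u x) + 1) ∂μ
        = ∫⁻ x, liminf (fun k => ENNReal.ofReal (u x * φ k x + 1)) atTop ∂μ := by
          congr 1
          ext x
          exact (hlim x).liminf_eq.symm
      _ ≤ liminf (fun k => ∫⁻ x, ENNReal.ofReal (u x * φ k x + 1) ∂μ) atTop := by
          apply lintegral_liminf_le
          intro k
          exact ((hum.mul (hφm k)).add_const 1).ennreal_ofReal
      _ ≤ ENNReal.ofReal (K + 2) := by
          apply liminf_le_of_le (by isBoundedDefault)
          intro b hb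
          obtain ⟨k, hk⟩ := hb.exists
          refine hk.trans ?_
          rw [← ofReal_integral_eq_lintegral_ofReal]
          · apply ENNReal.ofReal_le_ofReal
            rw [integral_add (hint k) (integrable_const _)]
            have h1 := hmain k
            have h2 : Real.exp (-(k : ℝ)) ≤ 1 := by
              rw [← Real.exp_zero]
              apply Real.exp_le_exp.2
              have : (0 : ℝ) ≤ k := Nat.cast_nonneg k
              linarith
            simp only [integral_const, probReal_univ, smul_eq_mul, mul_one]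
            linarith
          · exact (hint k).add (integrable_const _)
          · exact Eventually.of_forall fun x => by
              have := neg_part_bound (u x) k (hu0 x)
              simp only [Pi.zero_apply]
              change 0 ≤ u x * φ k x + 1
              have h2 : u x * φ k x = u x * Real.log (max (Real.exp (-(k : ℝ)))
                (min (u x) (Real.exp k))) := rfl
              rw [h2]
              linarith
  have hge : ∀ x, -1 ≤ u x * Real.log (u x) := by
    intro x
    refine ge_of_tendsto (tendsto_clamp (u x) (hu0 x)) (Eventually.of_forall fun k => ?_)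
    exact neg_part_bound (u x) k (hu0 x)
  have hI1 : Integrable (fun x => u x * Real.log (u x) + 1) μ := by
    refine ⟨(hmeas.add_const 1).aestronglyMeasurable, ?_⟩
    rw [hasFiniteIntegral_iff_ofReal (Eventually.of_forall fun x => by
      have := hge x
      simp only [Pi.zero_apply]
      linarith)]
    exact hfin.trans_lt ENNReal.ofReal_lt_top
  have hI : Integrable (fun x => u x * Real.log (u x)) μ := by
    have := hI1.sub (integrable_const (1 : ℝ))
    refine this.congr (Eventually.of_forall fun x => ?_)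
    simp
  refine ⟨hI, ?_⟩
  have hlim : Tendsto (fun k => ∫ x, u x * φ k x ∂μ) atTop (𝓝 (∫ x, u x * Real.log (u x) ∂μ)) := by
    apply tendsto_integral_of_dominated_convergence (fun x => |u x * Real.log (u x)|)
    · intro k
      exact (hum.mul (hφm k)).aestronglyMeasurable
    · exact hI.abs
    · intro k
      exact Eventually.of_forall fun x => by
        rw [Real.norm_eq_abs]
        exact abs_mul_clamp_le (u x) (hu0 x) k
    · exact Eventually.of_forall fun x => tendsto_clamp (u x) (hu0 x)
  have hlim2 : Tendsto (fun k : ℕ => K + Real.exp (-(k : ℝ))) atTop (𝓝 (K + 0)) := by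
    apply Tendsto.const_add
    exact Real.tendsto_exp_neg_atTop_nhds_zero.comp tendsto_natCast_atTop_atTop
  rw [add_zero] at hlim2
  exact le_of_tendsto_of_tendsto' hlim hlim2 hmain

end DVaux

/-- A probability measure with finite Donsker-Varadhan functional relative to the uniform
distribution has a density, and the entropy is controlled by the functional. -/
theorem donsker_varadhan {Λ : Set ℂ} (hΛ : IsOpen Λ) (hb : Bornology.IsBounded Λ)
    (hne : Λ.Nonempty) (p : ProbabilityMeasure ℂ) (K : ℝ)
    (h : ∀ φ : BoundedContinuousFunction ℂ ℝ,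
      ∫ x, φ x ∂(p : Measure ℂ) - Real.log (∫ x, Real.exp (φ x) ∂(unif Λ)) ≤ K) :
    ∃ r : ℂ → ℝ, IsDens Λ r ∧ (p : Measure ℂ) = densM r ∧ - entS Λ r ≤ K := by
  have hV0 : volume Λ ≠ 0 := (hΛ.measure_pos volume hne).ne'
  have hVt : volume Λ ≠ ⊤ := hb.measure_lt_top.ne
  have hVr : 0 < volume.real Λ := ENNReal.toReal_pos hV0 hVt
  have : IsProbabilityMeasure (unif Λ) := ⟨by
    unfold unif
    rw [Measure.smul_apply, Measure.restrict_apply_univ, smul_eq_mul]
    exact ENNReal.inv_mul_cancel hV0 hVt⟩
  obtain ⟨u, hum, hu0, hp, hui, hu1, hI, hK⟩ := DVaux.dv_core (unif Λ) (p : Measure ℂ) K h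
  set V := volume.real Λ with hV
  have hΛm : MeasurableSet Λ := hΛ.measurableSet
  set r : ℂ → ℝ := Λ.indicator (fun x => u x / V) with hr
  have hrm : Measurable r := (hum.div_const V).indicator hΛm
  have hr0 : ∀ x, 0 ≤ r x := by
    intro x
    rw [hr]
    apply indicator_nonneg
    intro y _
    exact div_nonneg (hu0 y) hVr.le
  have hrd : (p : Measure ℂ) = densM r := by
    rw [hp]
    unfold densM unif
    have h1 : (fun x => ENNReal.ofReal (r x)) =
        Λ.indicator (fun x => (volume Λ)⁻¹ * ENNReal.ofReal (u x)) := by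
      ext x
      by_cases hx : x ∈ Λ
      · rw [hr, indicator_of_mem hx, indicator_of_mem hx, div_eq_inv_mul,
          ENNReal.ofReal_mul (inv_nonneg.2 hVr.le), ENNReal.ofReal_inv_of_pos hVr, hV,
          ofReal_measureReal hVt]
      · rw [hr, indicator_of_notMem hx, indicator_of_notMem hx, ENNReal.ofReal_zero]
    rw [h1, withDensity_indicator hΛm, withDensity_smul_measure]
    have h2 : (fun x => (volume Λ)⁻¹ * ENNReal.ofReal (u x)) =
        (volume Λ)⁻¹ • (fun x => ENNReal.ofReal (u x)) := rfl
    rw [h2, withDensity_smul _ hum.ennreal_ofReal]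
  have hconv : ∀ F : ℂ → ℝ, ∫ x in Λ, F x = V * ∫ x, F x ∂(unif Λ) := by
    intro F
    unfold unif
    rw [integral_smul_measure, ENNReal.toReal_inv, smul_eq_mul, ← mul_assoc]
    have : V * ((volume Λ).toReal)⁻¹ = 1 := mul_inv_cancel₀ hVr.ne'
    rw [this, one_mul]
  have hconvI : ∀ F : ℂ → ℝ, Integrable F (unif Λ) → IntegrableOn F Λ := by
    intro F hF
    unfold unif at hF
    exact (integrable_inv_smul_measure hV0 hVt).1 hF
  have hlogr : (fun x => r x * Real.log (r x)) =
      Λ.indicator (fun x => (u x * Real.log (u x) - u x * Real.log V) / V) := by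
    ext x
    by_cases hx : x ∈ Λ
    · rw [hr, indicator_of_mem hx, indicator_of_mem hx]
      rcases (hu0 x).eq_or_lt with h0 | h0
      · rw [← h0]; simp
      · rw [Real.log_div h0.ne' hVr.ne']
        ring
    · rw [hr, indicator_of_notMem hx, indicator_of_notMem hx, zero_mul]
  have hII : Integrable (fun x => (u x * Real.log (u x) - u x * Real.log V) / V) (unif Λ) :=
    (hI.sub (hui.mul_const _)).div_const V
  have hdens : IsDens Λ r := by
    refine ⟨hrm, hr0, ?_, ?_, ?_⟩
    · intro x hx
      rw [hr, indicator_of_notMem hx]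
    · rw [hr, integral_indicator hΛm, hconv, integral_div, hu1]
      field_simp
    · rw [hlogr, integrable_indicator_iff hΛm]
      exact hconvI _ hII
  refine ⟨r, hdens, hrd, ?_⟩
  unfold entS
  have h3 : ∫ x, r x * Real.log (r x) = ∫ x, u x * Real.log (u x) ∂(unif Λ) - Real.log V := by
    rw [hlogr, integral_indicator hΛm, hconv, integral_div,
      integral_sub hI (hui.mul_const _), integral_mul_const, hu1]
    field_simp
  rw [h3]
  linarith

end Pool.Agent.Lib.MP_fa244c_mp
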