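import Mathlib

set_option autoImplicit false

open MeasureTheory Filter Topology Set

namespace Pool.Agent.Lib.MP_fa244c_mp

/-- `g` is the regular part of the Dirichlet Green function of `Λ`: for every `y ∈ Λ` the function
`g(·, y)` is harmonic in `Λ` and has boundary values `log |ζ - y|` on the boundary of `Λ`.
Equivalently `G(x, y) = g x y - log |x - y|` satisfies `-Δ G(·, y) = 2 π δ_y` in `Λ` and vanishes
on the boundary. -/
structure IsGreen (Λ : Set ℂ) (g : ℂ → ℂ → ℝ) : Prop where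
  harm : ∀ y ∈ Λ, InnerProductSpace.HarmonicOnNhd (fun x => g x y) Λ
  bdry : ∀ y ∈ Λ, ∀ ζ ∈ frontier Λ,
    Tendsto (fun x => g x y) (𝓝[Λ] ζ) (𝓝 (Real.log ‖ζ - y‖))

/-- The class of domains: bounded, open, nonempty, the Dirichlet Green function exists (with
zero boundary values everywhere on the boundary) and has regular part `g`, and the set of points
of `Λ` at distance less than `δ` from the complement has area at most `C δ ^ β` for some
`β > 0` (true with `β = 1` when the boundary is a finite union of rectifiable curves). -/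
structure Dom (Λ : Set ℂ) (g : ℂ → ℂ → ℝ) : Prop where
  isOpen : IsOpen Λ
  bdd : Bornology.IsBounded Λ
  ne : Λ.Nonempty
  green : IsGreen Λ g
  collar : ∃ C β : ℝ, 0 < β ∧ ∀ δ : ℝ, 0 < δ →
    volume.real {x ∈ Λ | Metric.infDist x Λᶜ < δ} ≤ C * δ ^ β

/-- The renormalized Green function: `G` off the diagonal, and `g x x` on the diagonal. -/
noncomputable def Gst (g : ℂ → ℂ → ℝ) (x y : ℂ) : ℝ :=
  if x = y then g x x else g x y - Real.log ‖x - y‖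

/-- The energy `H(x) = (1/2) ∑_{i,j} c_i c_j G*(x_i, x_j)`. -/
noncomputable def energy (g : ℂ → ℂ → ℝ) {ι : Type} [Fintype ι] (c : ι → ℝ) (x : ι → ℂ) : ℝ :=
  1 / 2 * ∑ i, ∑ j, c i * c j * Gst g (x i) (x j)

/-- Circulations: `m` vortices of circulation `+1` and `m` of circulation `-1`. -/
def chg (m : ℕ) : Fin m ⊕ Fin m → ℝ := Sum.elim (fun _ => 1) (fun _ => -1)

/-- The part of phase space `Λ^(2m)` where the energy is less than `E`. -/
def below (Λ : Set ℂ) (g : ℂ → ℂ → ℝ) (m : ℕ) (E : ℝ) : Set (Fin m ⊕ Fin m → ℂ) :=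
  {x | (∀ i, x i ∈ Λ) ∧ energy g (chg m) x < E}

/-- The phase volume `Φ_Λ(E, N)`, `N = 2m`. -/
noncomputable def Phi (Λ : Set ℂ) (g : ℂ → ℂ → ℝ) (m : ℕ) (E : ℝ) : ℝ :=
  volume.real (below Λ g m E)

/-- The microcanonical measure `Φ'(E,N)⁻¹ δ(E - H) dx`: for every bounded continuous `f` the
derivative at `E` of `∫_{H < E'} f dx` is `Φ'(E) ∫ f dμ`. -/
def IsMicro (Λ : Set ℂ) (g : ℂ → ℂ → ℝ) (m : ℕ) (E : ℝ)
    (μ : Measure (Fin m ⊕ Fin m → ℂ)) : Prop :=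
  IsProbabilityMeasure μ ∧ ∀ f : BoundedContinuousFunction (Fin m ⊕ Fin m → ℂ) ℝ,
    HasDerivAt (fun E' : ℝ => ∫ x in below Λ g m E', f x)
      (deriv (Phi Λ g m) E * ∫ x, f x ∂μ) E

/-- Probability densities on `Λ` with finite entropy. -/
structure IsDens (Λ : Set ℂ) (ρ : ℂ → ℝ) : Prop where
  meas : Measurable ρ
  nonneg : ∀ x, 0 ≤ ρ x
  supp : ∀ x, x ∉ Λ → ρ x = 0
  int : ∫ x, ρ x = 1
  ent : Integrable (fun x => ρ x * Real.log (ρ x))

/-- The entropy `𝒮(ρ) = - log |Λ| - ∫ ρ log ρ`. -/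
noncomputable def entS (Λ : Set ℂ) (ρ : ℂ → ℝ) : ℝ :=
  - Real.log (volume.real Λ) - ∫ x, ρ x * Real.log (ρ x)

/-- The energy `(1/2) ∬ G(x,y) ω(x) ω(y) dx dy`, `ω = ρ⁺ - ρ⁻`. -/
noncomputable def enE (g : ℂ → ℂ → ℝ) (ρp ρm : ℂ → ℝ) : ℝ :=
  1 / 2 * ∫ x, ∫ y, Gst g x y * (ρp x - ρm x) * (ρp y - ρm y)

/-- The pair is admissible at energy `ε`. -/
def IsAdm (Λ : Set ℂ) (g : ℂ → ℂ → ℝ) (ε : ℝ) (ρp ρm : ℂ → ℝ) : Prop :=
  IsDens Λ ρp ∧ IsDens Λ ρm ∧ enE g ρp ρm = 4 * ε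

/-- The pair attains the maximum in the definition of `s_Λ(ε)`. -/
def IsMaxPair (Λ : Set ℂ) (g : ℂ → ℂ → ℝ) (ε : ℝ) (ρp ρm : ℂ → ℝ) : Prop :=
  IsAdm Λ g ε ρp ρm ∧ ∀ σp σm, IsAdm Λ g ε σp σm →
    (entS Λ σp + entS Λ σm) / 2 ≤ (entS Λ ρp + entS Λ ρm) / 2

/-- `s_Λ(ε)`, as a supremum. -/
noncomputable def sMax (Λ : Set ℂ) (g : ℂ → ℂ → ℝ) (ε : ℝ) : ℝ :=
  sSup {s | ∃ ρp ρm, IsAdm Λ g ε ρp ρm ∧ s = (entS Λ ρp + entS Λ ρm) / 2}

/-- The measure with density `ρ`. -/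
noncomputable def densM (ρ : ℂ → ℝ) : Measure ℂ :=
  volume.withDensity (fun x => ENNReal.ofReal (ρ x))

/-- The first `n₁` positive and the first `n₂` negative vortices (`0` where there is none). -/
noncomputable def marg {m : ℕ} (n₁ n₂ : ℕ) (x : Fin m ⊕ Fin m → ℂ) :
    (Fin n₁ → ℂ) × (Fin n₂ → ℂ) :=
  (fun i => if h : (i : ℕ) < m then x (Sum.inl ⟨i, h⟩) else 0,
   fun i => if h : (i : ℕ) < m then x (Sum.inr ⟨i, h⟩) else 0)

/-- The product measure giving `n₁` coordinates density `ρp` and `n₂` coordinates density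
`ρm`. -/
noncomputable def prodM (n₁ n₂ : ℕ) (ρp ρm : ℂ → ℝ) : Measure ((Fin n₁ → ℂ) × (Fin n₂ → ℂ)) :=
  (Measure.pi (fun _ => densM ρp)).prod (Measure.pi (fun _ => densM ρm))

end Pool.Agent.Lib.MP_fa244c_mp
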