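import Pool.Agent.Lib.MP_fa244c_mp.Lip

set_option autoImplicit false

open MeasureTheory Filter Topology Set Metric

namespace Pool.Agent.Lib.MP_fa244c_mp

namespace SlabAux

variable {Λ : Set ℂ} {g : ℂ → ℂ → ℝ}

theorem norm_le_two (T : ℂ →L[ℝ] ℝ) : ‖T‖ ≤ |T 1| + |T Complex.I| := by
  refine T.opNorm_le_bound (by positivity) fun z => ?_
  have h : T z = z.re * T 1 + z.im * T Complex.I := by
    conv_lhs => rw [← Complex.re_add_im z]
    have e1 : (z.re : ℂ) = z.re • (1 : ℂ) := by simp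
    have e2 : (z.im : ℂ) * Complex.I = z.im • Complex.I := by simp
    rw [map_add, e1, e2, map_smul, map_smul, smul_eq_mul, smul_eq_mul]
  rw [h, Real.norm_eq_abs]
  have h1 := Complex.abs_re_le_norm z
  have h2 := Complex.abs_im_le_norm z
  calc |z.re * T 1 + z.im * T Complex.I| ≤ |z.re * T 1| + |z.im * T Complex.I| := abs_add_le _ _
    _ = |z.re| * |T 1| + |z.im| * |T Complex.I| := by rw [abs_mul, abs_mul]
    _ ≤ ‖z‖ * |T 1| + ‖z‖ * |T Complex.I| := by gcongr
    _ = (|T 1| + |T Complex.I|) * ‖z‖ := by ring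

theorem sub_single {ι : Type} [DecidableEq ι] (x : ι → ℂ) (i : ι) (w : ℂ) :
    x - Pi.single i w = Function.update x i (x i - w) := by
  ext j
  by_cases h : j = i
  · subst h
    simp
  · simp [Function.update_of_ne h, Pi.single_eq_of_ne h]

/-- the set `S_e` -/
def Se (Λ : Set ℂ) (g : ℂ → ℂ → ℝ) {ι : Type} [Fintype ι] [DecidableEq ι] (ch : ι → ℝ)
    (i : ι) (δ ρ E h : ℝ) (V : Set (ι → ℂ)) (e : ℂ) : Set (ι → ℂ) :=
  {x | (x ∈ V ∧ x ∈ Cfg Λ ι ∧ Sep Λ δ x i ∧ ρ < ‖pD g ch x i‖ ∧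
    E ≤ energy g ch x ∧ energy g ch x < E + h) ∧ ρ / 2 < |pD g ch x i e|}

theorem measurable_Se (hD : Dom Λ g) (hm : Measurable (Function.uncurry g)) {ι : Type}
    [Fintype ι] [DecidableEq ι] (ch : ι → ℝ) (i : ι) (δ ρ E h : ℝ) {V : Set (ι → ℂ)}
    (hV : MeasurableSet V) (e : ℂ) : MeasurableSet (Se Λ g ch i δ ρ E h V e) := by
  have h1 : MeasurableSet {x : ι → ℂ | ρ < ‖pD g ch x i‖} :=
    measurableSet_lt measurable_const (measurable_norm_pD ch i)
  have h2 : MeasurableSet {x : ι → ℂ | E ≤ energy g ch x} :=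
    measurableSet_le measurable_const (measurable_energy hm ch)
  have h3 : MeasurableSet {x : ι → ℂ | energy g ch x < E + h} :=
    measurableSet_lt (measurable_energy hm ch) measurable_const
  have h4 : MeasurableSet {x : ι → ℂ | ρ / 2 < |pD g ch x i e|} :=
    measurableSet_lt measurable_const (measurable_pD ch i e).abs
  exact (hV.inter ((isOpen_Cfg hD ι).measurableSet.inter ((measurableSet_Sep hD δ i).inter
    (h1.inter (h2.inter h3))))).inter h4

/-- the length of the slices -/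
theorem slice (hD : Dom Λ g) {C : ℝ} (hC : 0 < C)
    (hlip : ∀ (ι : Type) [Fintype ι] [DecidableEq ι] (ch : ι → ℝ), (∀ i, |ch i| = 1) →
      ∀ x ∈ Cfg Λ ι, ∀ (i j : ι) (η : ℝ), 0 < η → η ≤ 1 → Sep Λ η x i → Sep Λ η x j →
      ∀ z : ℂ, ‖z - x i‖ ≤ η / 2 →
      ‖pD g ch (Function.update x i z) j - pD g ch x j‖ ≤
        C * Fintype.card ι / η ^ 4 * ‖z - x i‖)
    {ι : Type} [Fintype ι] [DecidableEq ι] {ch : ι → ℝ} (hch : ∀ i, |ch i| = 1) (i : ι)
    {δ ρ σ E h : ℝ} (hδ : 0 < δ) (hδ1 : δ ≤ 1) (hρ : 0 < ρ) (hσ : 0 < σ) (hh : 0 < h)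
    (hσδ : σ ≤ δ / 8) (hN : 8 * C * Fintype.card ι * σ ≤ ρ * δ ^ 4) (V : Set (ι → ℂ)) {e : ℂ}
    (he : ‖e‖ = 1) (x : ι → ℂ) :
    volume {t : ℝ | t ∈ Icc (-σ) σ ∧ x - Pi.single i (t • e) ∈ Se Λ g ch i δ ρ E h V e} ≤
      ENNReal.ofReal (4 * h / ρ) := by
  refine (Real.volume_le_diam _).trans ?_
  refine Metric.ediam_le fun t ht t' ht' => ?_
  wlog htt : t ≤ t' generalizing t t'
  · rw [edist_comm]
    exact this t' ht' t ht (le_of_not_ge htt)
  rcases eq_or_lt_of_le htt with rfl | hlt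
  · simp
  obtain ⟨⟨ht1, ht2⟩, hS⟩ := ht
  obtain ⟨⟨ht1', ht2'⟩, hS'⟩ := ht'
  -- the base point
  set y0 : ι → ℂ := x - Pi.single i (t • e) with hy0
  obtain ⟨⟨-, hcfg, hsep, -, hE1, hE2⟩, hpd⟩ := hS
  obtain ⟨⟨-, -, -, -, hE1', hE2'⟩, -⟩ := hS'
  have hys : ∀ s : ℝ, x - Pi.single i (s • e) = Function.update y0 i (y0 i + (t - s) • e) := by
    intro s
    rw [hy0, sub_single, sub_single]
    simp only [Function.update_self, Function.update_idem]
    congr 1
    rw [sub_smul]
    ring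
  have hnorm : ∀ s ∈ Icc (-σ) σ, ‖(y0 i + (t - s) • e) - y0 i‖ ≤ 2 * σ := by
    intro s hs
    rw [add_sub_cancel_left, norm_smul, he, mul_one, Real.norm_eq_abs, abs_le]
    constructor <;> linarith [hs.1, hs.2]
  have hcf : ∀ s ∈ Icc (-σ) σ, Function.update y0 i (y0 i + (t - s) • e) ∈ Cfg Λ ι := by
    intro s hs
    refine Sep.update_mem hcfg hsep ?_
    have := hnorm s hs
    linarith
  have hcard : (0 : ℝ) ≤ Fintype.card ι := Nat.cast_nonneg _
  have hpdl : ∀ s ∈ Icc (-σ) σ,
      ρ / 4 ≤ |pD g ch (Function.update y0 i (y0 i + (t - s) • e)) i e| := by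
    intro s hs
    have h1 := hlip ι ch hch y0 hcfg i i δ hδ hδ1 hsep hsep (y0 i + (t - s) • e)
      (by have := hnorm s hs; linarith)
    have h2 : C * Fintype.card ι / δ ^ 4 * ‖(y0 i + (t - s) • e) - y0 i‖ ≤ ρ / 4 := by
      have h3 : C * Fintype.card ι / δ ^ 4 * ‖(y0 i + (t - s) • e) - y0 i‖ ≤
          C * Fintype.card ι / δ ^ 4 * (2 * σ) :=
        mul_le_mul_of_nonneg_left (hnorm s hs) (by positivity)
      refine h3.trans ?_
      rw [div_mul_eq_mul_div, div_le_iff₀ (by positivity)]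
      linarith
    have h4 : |pD g ch (Function.update y0 i (y0 i + (t - s) • e)) i e - pD g ch y0 i e| ≤
        ρ / 4 := by
      rw [← ContinuousLinearMap.sub_apply, ← Real.norm_eq_abs]
      refine (ContinuousLinearMap.le_opNorm _ _).trans ?_
      rw [he, mul_one]
      exact h1.trans h2
    have h5 := abs_sub_abs_le_abs_sub (pD g ch y0 i e)
      (pD g ch (Function.update y0 i (y0 i + (t - s) • e)) i e)
    rw [abs_sub_comm] at h5
    linarith
  -- the energy along the segment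
  set φ : ℝ → ℝ := fun s => energy g ch (x - Pi.single i (s • e)) with hφ
  have hder : ∀ s ∈ Icc (-σ) σ, HasDerivAt φ
      (pD g ch (Function.update y0 i (y0 i + (t - s) • e)) i (-e)) s := by
    intro s hs
    have h1 := hasDerivAt_update hD ch i (v := -e) (hcf s hs)
    have h2 : HasDerivAt (fun u : ℝ => energy g ch (Function.update y0 i
        ((y0 i + (t - s) • e) + (u - s) • (-e))))
        (pD g ch (Function.update y0 i (y0 i + (t - s) • e)) i (-e)) s := by
      have h3 : HasDerivAt (fun u : ℝ => energy g ch (Function.update y0 i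
        ((y0 i + (t - s) • e) + u • (-e))))
        (pD g ch (Function.update y0 i (y0 i + (t - s) • e)) i (-e)) (s - s) := by
        rw [sub_self]
        exact h1
      exact h3.comp_sub_const s s
    refine h2.congr_of_eventuallyEq (Filter.Eventually.of_forall fun u => ?_)
    simp only [hφ, hys]
    congr 2
    module
  obtain ⟨ξ, hξ, hmv⟩ := exists_hasDerivAt_eq_slope φ
    (fun s => pD g ch (Function.update y0 i (y0 i + (t - s) • e)) i (-e)) hlt
    (fun s hs => (hder s ⟨by linarith [hs.1], by linarith [hs.2]⟩).continuousAt.continuousWithinAt)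
    (fun s hs => hder s ⟨by linarith [hs.1], by linarith [hs.2]⟩)
  have hξ' : ξ ∈ Icc (-σ) σ := ⟨by linarith [hξ.1], by linarith [hξ.2]⟩
  have h6 := hpdl ξ hξ'
  have h7 : |φ t' - φ t| ≤ h := by
    have e1 : φ t = energy g ch y0 := rfl
    rw [abs_le]
    simp only [e1]
    simp only [hφ]
    constructor <;> linarith
  have h8 : ρ / 4 * (t' - t) ≤ h := by
    have h9 : |φ t' - φ t| = |pD g ch (Function.update y0 i (y0 i + (t - ξ) • e)) i e| *
        (t' - t) := by
      rw [eq_div_iff (by linarith : t' - t ≠ 0)] at hmv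
      rw [← hmv, abs_mul, map_neg, abs_neg, abs_of_pos (sub_pos.2 hlt)]
    have h10 := mul_le_mul_of_nonneg_right h6 (sub_pos.2 hlt).le
    linarith
  rw [edist_dist, Real.dist_eq, abs_sub_comm, abs_of_pos (sub_pos.2 hlt)]
  apply ENNReal.ofReal_le_ofReal
  rw [le_div_iff₀ hρ]
  linarith

/-- the bound for one direction -/
theorem one_dir (hD : Dom Λ g) (hm : Measurable (Function.uncurry g)) {C : ℝ} (hC : 0 < C)
    (hlip : ∀ (ι : Type) [Fintype ι] [DecidableEq ι] (ch : ι → ℝ), (∀ i, |ch i| = 1) →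
      ∀ x ∈ Cfg Λ ι, ∀ (i j : ι) (η : ℝ), 0 < η → η ≤ 1 → Sep Λ η x i → Sep Λ η x j →
      ∀ z : ℂ, ‖z - x i‖ ≤ η / 2 →
      ‖pD g ch (Function.update x i z) j - pD g ch x j‖ ≤
        C * Fintype.card ι / η ^ 4 * ‖z - x i‖)
    {ι : Type} [Fintype ι] [DecidableEq ι] {ch : ι → ℝ} (hch : ∀ i, |ch i| = 1) (i : ι)
    {δ ρ σ E h : ℝ} (hδ : 0 < δ) (hδ1 : δ ≤ 1) (hρ : 0 < ρ) (hσ : 0 < σ) (hh : 0 < h)
    (hσδ : σ ≤ δ / 8) (hN : 8 * C * Fintype.card ι * σ ≤ ρ * δ ^ 4) {V V' : Set (ι → ℂ)}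
    (hV : MeasurableSet V) (hV' : MeasurableSet V')
    (hVV : ∀ x ∈ V, x ∈ Cfg Λ ι → Sep Λ δ x i → ρ < ‖pD g ch x i‖ → ∀ z : ℂ, ‖z - x i‖ ≤ σ →
        Function.update x i z ∈ V') {e : ℂ} (he : ‖e‖ = 1) :
    (PP Λ ι).real (Se Λ g ch i δ ρ E h V e) ≤ 2 * h / (ρ * σ) * (PP Λ ι).real V' := by
  have hS := measurable_Se hD hm ch i δ ρ E h hV e
  set S := Se Λ g ch i δ ρ E h V e with hSdef
  set L : Set (ι → ℂ) := Set.pi univ fun _ => Λ with hL
  have hLm : MeasurableSet L := MeasurableSet.univ_pi fun _ => hD.isOpen.measurableSet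
  have hSL : S ⊆ L := fun x hx j _ => hx.1.2.1.1 j
  -- the main inequality for Lebesgue measure
  have main : ENNReal.ofReal (2 * σ) * volume S ≤
      ENNReal.ofReal (4 * h / ρ) * volume (V' ∩ L) := by
    have hmeas : Measurable (fun p : ℝ × (ι → ℂ) => p.2 - Pi.single i (p.1 • e)) := by
      refine Measurable.sub measurable_snd ?_
      have : Continuous (fun p : ℝ × (ι → ℂ) => (Pi.single i (p.1 • e) : ι → ℂ)) :=
        (continuous_single i).comp (by fun_prop)
      exact this.measurable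
    have hind : Measurable (fun p : ℝ × (ι → ℂ) =>
        S.indicator (fun _ => (1 : ENNReal)) (p.2 - Pi.single i (p.1 • e))) :=
      (measurable_const.indicator hS).comp hmeas
    calc ENNReal.ofReal (2 * σ) * volume S
        = ∫⁻ _t in Icc (-σ) σ, volume S := by
          rw [lintegral_const, Measure.restrict_apply_univ, Real.volume_Icc, mul_comm]
          congr 2
          ring
      _ = ∫⁻ t in Icc (-σ) σ, ∫⁻ x : ι → ℂ,
            S.indicator (fun _ => (1 : ENNReal)) (x - Pi.single i (t • e)) := by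
          refine lintegral_congr fun t => ?_
          rw [lintegral_sub_right_eq_self (fun x => S.indicator (fun _ => (1 : ENNReal)) x)
            (Pi.single i (t • e)), lintegral_indicator_const hS, one_mul]
      _ = ∫⁻ x : ι → ℂ, ∫⁻ t in Icc (-σ) σ,
            S.indicator (fun _ => (1 : ENNReal)) (x - Pi.single i (t • e)) := by
          exact lintegral_lintegral_swap hind.aemeasurable
      _ ≤ ∫⁻ x : ι → ℂ, (V' ∩ L).indicator (fun _ => ENNReal.ofReal (4 * h / ρ)) x := by
          refine lintegral_mono fun x => ?_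
          have e1 : ∫⁻ t in Icc (-σ) σ,
              S.indicator (fun _ => (1 : ENNReal)) (x - Pi.single i (t • e)) =
              volume {t : ℝ | t ∈ Icc (-σ) σ ∧ x - Pi.single i (t • e) ∈ S} := by
            have hT : MeasurableSet {t : ℝ | x - Pi.single i (t • e) ∈ S} :=
              (hmeas.comp (measurable_id.prodMk measurable_const)) hS
            have e2 : (fun t : ℝ => S.indicator (fun _ => (1 : ENNReal))
                (x - Pi.single i (t • e))) =
                {t : ℝ | x - Pi.single i (t • e) ∈ S}.indicator (fun _ => 1) := by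
              ext t
              by_cases ht : x - Pi.single i (t • e) ∈ S
              · rw [indicator_of_mem ht, indicator_of_mem (show t ∈
                  {t : ℝ | x - Pi.single i (t • e) ∈ S} from ht)]
              · rw [indicator_of_notMem ht, indicator_of_notMem (show t ∉
                  {t : ℝ | x - Pi.single i (t • e) ∈ S} from ht)]
            rw [e2, lintegral_indicator_const hT, one_mul, Measure.restrict_apply hT]
            congr 1
            ext t
            simp only [mem_inter_iff, mem_setOf_eq]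
            tauto
          simp only
          rw [e1]
          by_cases hx : x ∈ V' ∩ L
          · rw [indicator_of_mem hx]
            exact slice hD hC hlip hch i hδ hδ1 hρ hσ hh hσδ hN V he x
          · rw [indicator_of_notMem hx]
            have e3 : {t : ℝ | t ∈ Icc (-σ) σ ∧ x - Pi.single i (t • e) ∈ S} = ∅ := by
              by_contra hne
              obtain ⟨t, ht, hxS⟩ := Set.nonempty_iff_ne_empty.2 hne
              apply hx
              have hx2 : x = Function.update (x - Pi.single i (t • e)) i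
                  ((x - Pi.single i (t • e) : ι → ℂ) i + t • e) := by
                rw [sub_single]
                simp
              have hn : ‖((x - Pi.single i (t • e) : ι → ℂ) i + t • e) -
                  (x - Pi.single i (t • e) : ι → ℂ) i‖ ≤ σ := by
                rw [add_sub_cancel_left, norm_smul, he, mul_one, Real.norm_eq_abs, abs_le]
                exact ht
              constructor
              · rw [hx2]
                exact hVV _ hxS.1.1 hxS.1.2.1 hxS.1.2.2.1 hxS.1.2.2.2.1 _ hn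
              · have h5 := Sep.update_mem hxS.1.2.1 hxS.1.2.2.1 (lt_of_le_of_lt hn
                  (by linarith : σ < δ))
                rw [← hx2] at h5
                exact fun j _ => h5.1 j
            rw [e3, measure_empty]
      _ = ENNReal.ofReal (4 * h / ρ) * volume (V' ∩ L) := by
          rw [lintegral_indicator_const (hV'.inter hLm)]
  -- conversion to `PP`
  have hP1 : PP Λ ι S = ((volume Λ)⁻¹) ^ Fintype.card ι * volume S := by
    rw [PP_eq hD, Measure.smul_apply, Measure.restrict_apply hS, smul_eq_mul,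
      inter_eq_self_of_subset_left hSL]
  have hP2 : PP Λ ι V' = ((volume Λ)⁻¹) ^ Fintype.card ι * volume (V' ∩ L) := by
    rw [PP_eq hD, Measure.smul_apply, Measure.restrict_apply hV', smul_eq_mul]
  have hPP : ENNReal.ofReal (2 * σ) * PP Λ ι S ≤ ENNReal.ofReal (4 * h / ρ) * PP Λ ι V' := by
    rw [hP1, hP2, mul_left_comm, mul_left_comm (ENNReal.ofReal (4 * h / ρ))]
    gcongr
  haveI := isProb_PP hD ι
  have hreal : 2 * σ * (PP Λ ι).real S ≤ 4 * h / ρ * (PP Λ ι).real V' := by
    have h1 := ENNReal.toReal_mono (ENNReal.mul_ne_top ENNReal.ofReal_ne_top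
      (measure_ne_top _ _)) hPP
    rw [ENNReal.toReal_mul, ENNReal.toReal_mul, ENNReal.toReal_ofReal (by positivity),
      ENNReal.toReal_ofReal (by positivity)] at h1
    exact h1
  have e5 : 2 * h / (ρ * σ) * (PP Λ ι).real V' =
      (4 * h / ρ * (PP Λ ι).real V') / (2 * σ) := by
    field_simp
    ring
  rw [e5, le_div_iff₀ (by positivity)]
  linarith

end SlabAux

/-- Thin energy windows where one separated coordinate has a large partial derivative. -/
theorem slab {Λ : Set ℂ} {g : ℂ → ℂ → ℝ} (hD : Dom Λ g)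
    (hm : Measurable (Function.uncurry g)) : ∃ C : ℝ, 0 < C ∧
    ∀ (ι : Type) [Fintype ι] [DecidableEq ι] (ch : ι → ℝ), (∀ i, |ch i| = 1) →
      ∀ (i : ι) (δ ρ σ E h : ℝ), 0 < δ → δ ≤ 1 → 0 < ρ → 0 < σ → 0 < h → σ ≤ δ / 8 →
      C * Fintype.card ι * σ ≤ ρ * δ ^ 4 →
      ∀ V V' : Set (ι → ℂ), MeasurableSet V → MeasurableSet V' →
      (∀ x ∈ V, x ∈ Cfg Λ ι → Sep Λ δ x i → ρ < ‖pD g ch x i‖ → ∀ z : ℂ, ‖z - x i‖ ≤ σ →
        Function.update x i z ∈ V') →
      (PP Λ ι).real {x | x ∈ V ∧ x ∈ Cfg Λ ι ∧ Sep Λ δ x i ∧ ρ < ‖pD g ch x i‖ ∧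
          E ≤ energy g ch x ∧ energy g ch x < E + h} ≤
        C * h / (ρ * σ) * (PP Λ ι).real V' := by
  obtain ⟨C, hC, hlip⟩ := pD_lip hD
  refine ⟨8 * C + 4, by positivity, ?_⟩
  intro ι _ _ ch hch i δ ρ σ E h hδ hδ1 hρ hσ hh hσδ hN V V' hV hV' hVV
  haveI := isProb_PP hD ι
  have hcard : (0 : ℝ) ≤ Fintype.card ι := Nat.cast_nonneg _
  have hN' : 8 * C * Fintype.card ι * σ ≤ ρ * δ ^ 4 := by
    refine le_trans ?_ hN
    gcongr
    linarith
  have h1 := SlabAux.one_dir hD hm hC hlip hch i hδ hδ1 hρ hσ hh hσδ hN' hV hV' hVV (E := E)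
    (e := 1) (by simp)
  have h2 := SlabAux.one_dir hD hm hC hlip hch i hδ hδ1 hρ hσ hh hσδ hN' hV hV' hVV (E := E)
    (e := Complex.I) (by simp)
  have hsub : {x | x ∈ V ∧ x ∈ Cfg Λ ι ∧ Sep Λ δ x i ∧ ρ < ‖pD g ch x i‖ ∧
      E ≤ energy g ch x ∧ energy g ch x < E + h} ⊆
      SlabAux.Se Λ g ch i δ ρ E h V 1 ∪ SlabAux.Se Λ g ch i δ ρ E h V Complex.I := by
    intro x hx
    have h3 := SlabAux.norm_le_two (pD g ch x i)
    have h4 := hx.2.2.2.1
    by_cases h5 : ρ / 2 < |pD g ch x i 1|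
    · exact Or.inl ⟨hx, h5⟩
    · refine Or.inr ⟨hx, ?_⟩
      push Not at h5
      linarith
  have h3 : (PP Λ ι).real {x | x ∈ V ∧ x ∈ Cfg Λ ι ∧ Sep Λ δ x i ∧ ρ < ‖pD g ch x i‖ ∧
      E ≤ energy g ch x ∧ energy g ch x < E + h} ≤
      (PP Λ ι).real (SlabAux.Se Λ g ch i δ ρ E h V 1) +
        (PP Λ ι).real (SlabAux.Se Λ g ch i δ ρ E h V Complex.I) :=
    (measureReal_mono hsub).trans (measureReal_union_le _ _)
  have h4 : (0 : ℝ) ≤ (PP Λ ι).real V' := measureReal_nonneg
  have h5 : (8 * C + 4) * h / (ρ * σ) * (PP Λ ι).real V' =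
      8 * C * h / (ρ * σ) * (PP Λ ι).real V' + (2 * h / (ρ * σ) * (PP Λ ι).real V' +
        2 * h / (ρ * σ) * (PP Λ ι).real V') := by
    field_simp
    ring
  have h6 : 0 ≤ 8 * C * h / (ρ * σ) * (PP Λ ι).real V' := by positivity
  rw [h5]
  linarith

end Pool.Agent.Lib.MP_fa244c_mp
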