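import Pool.Agent.Lib.MP_fa244c_mp.BadSet
import Pool.Agent.Lib.MP_fa244c_mp.Slab

set_option autoImplicit false

open MeasureTheory Filter Topology Set Metric

namespace Pool.Agent.Lib.MP_fa244c_mp

namespace WU

/-- Step size for moving one separated coordinate, and the resulting shell estimate. -/
theorem sigma_exists {Λ : Set ℂ} {g : ℂ → ℂ → ℝ} (hD : Dom Λ g)
    (hm : Measurable (Function.uncurry g)) : ∃ C : ℝ, 0 < C ∧
    ∀ (ι : Type) [Fintype ι] [DecidableEq ι] (ch : ι → ℝ), (∀ i, |ch i| = 1) →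
      1 ≤ Fintype.card ι → ∀ δ ρ : ℝ, 0 < δ → δ ≤ 1 → 0 < ρ → ρ ≤ 1 →
      ∃ σ : ℝ, 0 < σ ∧ σ ≤ δ / 8 ∧
      (∀ x ∈ Cfg Λ ι, ∀ i, Sep Λ δ x i → ∀ z : ℂ, ‖z - x i‖ ≤ σ →
        Function.update x i z ∈ Cfg Λ ι ∧
        |energy g ch (Function.update x i z) - energy g ch x| ≤ 1 ∧
        ∀ j, Sep Λ δ x j → ‖pD g ch (Function.update x i z) j - pD g ch x j‖ ≤ ρ) ∧
      (∀ E h : ℝ, 0 < h → ∀ V V' : Set (ι → ℂ), MeasurableSet V → MeasurableSet V' →
        (∀ x ∈ V, x ∈ Cfg Λ ι → ∀ i, Sep Λ δ x i → ρ < ‖pD g ch x i‖ →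
          E ≤ energy g ch x → energy g ch x < E + h → ∀ z : ℂ, ‖z - x i‖ ≤ σ →
          Function.update x i z ∈ V') →
        (PP Λ ι).real {x | x ∈ V ∧ x ∈ Cfg Λ ι ∧ (∃ i, Sep Λ δ x i ∧ ρ < ‖pD g ch x i‖) ∧
            E ≤ energy g ch x ∧ energy g ch x < E + h} ≤
          C * h * (Fintype.card ι : ℝ) ^ 2 / (ρ ^ 2 * δ ^ 4) * (PP Λ ι).real V') := by
  obtain ⟨Cs, hCs, hs⟩ := slab hD hm
  obtain ⟨Ce, hCe, he⟩ := energy_lip hD
  obtain ⟨Cp, hCp, hp⟩ := pD_lip hD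
  obtain ⟨C₁, hC₁⟩ : ∃ C₁ : ℝ, C₁ = 8 + Cs + 16 * Ce + Cp := ⟨_, rfl⟩
  have hC₁0 : 0 < C₁ := by rw [hC₁]; positivity
  refine ⟨Cs * C₁, by positivity, ?_⟩
  intro ι _ _ ch hch hN δ ρ hδ hδ1 hρ hρ1
  have hNr : (1 : ℝ) ≤ Fintype.card ι := by exact_mod_cast hN
  obtain ⟨N, hNdef⟩ : ∃ N : ℝ, N = (Fintype.card ι : ℝ) := ⟨_, rfl⟩
  rw [← hNdef] at hNr
  have hN0 : 0 < N := by linarith
  have hσ0 : 0 < ρ * δ ^ 4 / (C₁ * N) := by positivity
  have hδ4 : δ ^ 4 ≤ δ := by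
    calc δ ^ 4 ≤ δ ^ 1 := pow_le_pow_of_le_one hδ.le hδ1 (by norm_num)
      _ = δ := pow_one δ
  have hσ8 : ρ * δ ^ 4 / (C₁ * N) ≤ δ / 8 := by
    rw [div_le_div_iff₀ (by positivity) (by norm_num)]
    have h1 : ρ * δ ^ 4 ≤ δ := by
      calc ρ * δ ^ 4 ≤ 1 * δ := mul_le_mul hρ1 hδ4 (by positivity) (by norm_num)
        _ = δ := one_mul δ
    have h2 : 8 ≤ C₁ * N := by
      calc (8 : ℝ) = 8 * 1 := by ring
        _ ≤ C₁ * N := mul_le_mul (by rw [hC₁]; linarith [hCs.le, hCe.le, hCp.le]) hNr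
          (by norm_num) hC₁0.le
    nlinarith
  refine ⟨ρ * δ ^ 4 / (C₁ * N), hσ0, hσ8, ?_, ?_⟩
  · intro x hx i hi z hz
    have hseg : ∀ w ∈ segment ℝ (x i) z, ‖w - x i‖ ≤ δ / 8 := by
      intro w hw
      have := (convex_closedBall (x i) (ρ * δ ^ 4 / (C₁ * N))).segment_subset
        (mem_closedBall_self hσ0.le) (by rw [mem_closedBall, dist_eq_norm]; exact hz) hw
      rw [mem_closedBall, dist_eq_norm] at this
      exact this.trans hσ8
    have hzδ : ‖z - x i‖ ≤ δ / 8 := hz.trans hσ8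
    refine ⟨hi.update_mem hx (by linarith), ?_, ?_⟩
    · have h1 := he ι ch hch x i (x i) z (δ / 2) (by positivity) (by linarith) hx.1 (by
        intro w hw
        have hw' := hseg w hw
        constructor
        · have := Metric.infDist_le_infDist_add_dist (s := Λᶜ) (x := x i) (y := w)
          rw [dist_comm, dist_eq_norm] at this
          have := hi.1
          linarith
        · intro j hj
          have h3 := hi.2 j hj
          have h4 : ‖x i - x j‖ ≤ ‖w - x j‖ + ‖w - x i‖ := by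
            have : x i - x j = (w - x j) - (w - x i) := by ring
            rw [this]; exact norm_sub_le _ _
          linarith)
      rw [Function.update_eq_self] at h1
      refine h1.trans ?_
      rw [← hNdef]
      calc Ce * N / (δ / 2) ^ 4 * ‖z - x i‖
          ≤ Ce * N / (δ / 2) ^ 4 * (ρ * δ ^ 4 / (C₁ * N)) :=
            mul_le_mul_of_nonneg_left hz (by positivity)
        _ = ρ * (16 * Ce / C₁) := by field_simp; ring
        _ ≤ 1 * 1 := by
            refine mul_le_mul hρ1 ?_ (by positivity) (by norm_num)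
            rw [div_le_one hC₁0, hC₁]
            linarith
        _ = 1 := by ring
    · intro j hj
      have h1 := hp ι ch hch x hx i j δ hδ hδ1 hi hj z (by linarith)
      refine h1.trans ?_
      rw [← hNdef]
      calc Cp * N / δ ^ 4 * ‖z - x i‖
          ≤ Cp * N / δ ^ 4 * (ρ * δ ^ 4 / (C₁ * N)) :=
            mul_le_mul_of_nonneg_left hz (by positivity)
        _ = ρ * (Cp / C₁) := by field_simp
        _ ≤ ρ * 1 := by
            refine mul_le_mul_of_nonneg_left ?_ hρ.le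
            rw [div_le_one hC₁0, hC₁]
            linarith
        _ = ρ := by ring
  · intro E h hh V V' hV hV' hVV
    have hbound : ∀ i : ι, (PP Λ ι).real
        {x | x ∈ V ∩ {x | E ≤ energy g ch x ∧ energy g ch x < E + h} ∧ x ∈ Cfg Λ ι ∧
          Sep Λ δ x i ∧ ρ < ‖pD g ch x i‖ ∧
          E ≤ energy g ch x ∧ energy g ch x < E + h} ≤
        Cs * h / (ρ * (ρ * δ ^ 4 / (C₁ * N))) * (PP Λ ι).real V' := by
      intro i
      refine hs ι ch hch i δ ρ (ρ * δ ^ 4 / (C₁ * N)) E h hδ hδ1 hρ hσ0 hh hσ8 ?_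
        (V ∩ {x | E ≤ energy g ch x ∧ energy g ch x < E + h}) V' ?_ hV' ?_
      · rw [← hNdef]
        calc Cs * N * (ρ * δ ^ 4 / (C₁ * N)) = (ρ * δ ^ 4) * (Cs / C₁) := by field_simp
          _ ≤ (ρ * δ ^ 4) * 1 := by
            refine mul_le_mul_of_nonneg_left ?_ (by positivity)
            rw [div_le_one hC₁0, hC₁]
            linarith
          _ = ρ * δ ^ 4 := by ring
      · refine hV.inter ?_
        exact (measurableSet_le measurable_const (measurable_energy hm ch)).inter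
          (measurableSet_lt (measurable_energy hm ch) measurable_const)
      · intro x hx hxC hxS hxp z hz
        exact hVV x hx.1 hxC i hxS hxp hx.2.1 hx.2.2 z hz
    have hprob := isProb_PP hD ι
    have hsub : {x | x ∈ V ∧ x ∈ Cfg Λ ι ∧ (∃ i, Sep Λ δ x i ∧ ρ < ‖pD g ch x i‖) ∧
            E ≤ energy g ch x ∧ energy g ch x < E + h} ⊆
        ⋃ i ∈ (Finset.univ : Finset ι),
          {x | x ∈ V ∩ {x | E ≤ energy g ch x ∧ energy g ch x < E + h} ∧ x ∈ Cfg Λ ι ∧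
          Sep Λ δ x i ∧ ρ < ‖pD g ch x i‖ ∧
          E ≤ energy g ch x ∧ energy g ch x < E + h} := by
      rintro x ⟨h1, h2, ⟨i, h3, h4⟩, h5, h6⟩
      simp only [mem_iUnion]
      exact ⟨i, Finset.mem_univ i, ⟨h1, h5, h6⟩, h2, h3, h4, h5, h6⟩
    calc (PP Λ ι).real {x | x ∈ V ∧ x ∈ Cfg Λ ι ∧ (∃ i, Sep Λ δ x i ∧ ρ < ‖pD g ch x i‖) ∧
            E ≤ energy g ch x ∧ energy g ch x < E + h}
        ≤ _ := measureReal_mono hsub (measure_ne_top _ _)
      _ ≤ _ := measureReal_biUnion_finset_le _ _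
      _ ≤ (Finset.univ : Finset ι).card •
            (Cs * h / (ρ * (ρ * δ ^ 4 / (C₁ * N))) * (PP Λ ι).real V') :=
          Finset.sum_le_card_nsmul _ _ _ (fun i _ => hbound i)
      _ = _ := by
          rw [nsmul_eq_mul, Finset.card_univ, ← hNdef]
          field_simp

theorem bad_mono {Λ : Set ℂ} {g : ℂ → ℂ → ℝ} {ι : Type} [Fintype ι] [DecidableEq ι]
    (ch : ι → ℝ) {δ ρ δ' ρ' : ℝ} (h1 : δ ≤ δ') (h2 : ρ ≤ ρ') :
    Bad Λ g ch δ ρ ⊆ Bad Λ g ch δ' ρ' := by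
  intro x hx
  refine ⟨hx.1, fun i hi => (hx.2 i ⟨h1.trans hi.1, fun j hj => h1.trans (hi.2 j hj)⟩).trans h2⟩

/-- The part of a thin window in the bad set number `n`. -/
theorem tail_main {Λ : Set ℂ} {g : ℂ → ℂ → ℝ} (hD : Dom Λ g)
    (hm : Measurable (Function.uncurry g)) (q : ℕ) (hq : 13 ≤ q) :
    ∃ (A B N₀ : ℕ) (C : ℝ), 1 ≤ A ∧ 1 ≤ N₀ ∧ 0 < C ∧
      ∀ (ι : Type) [Fintype ι] [DecidableEq ι]
      (ch : ι → ℝ), (∀ i, |ch i| = 1) → N₀ ≤ Fintype.card ι → ∀ E h : ℝ, 0 < h → ∀ n : ℕ, 1 ≤ n →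
      (PP Λ ι).real {x | x ∈ Bad Λ g ch ((1 / 2) ^ n) (((1 / 2) ^ n) ^ A) ∧
        E ≤ energy g ch x ∧ energy g ch x < E + h} ≤
        C * h * (Fintype.card ι : ℝ) ^ B * ((1 / 2) ^ n) ^ (A * q - (2 * A + 4)) := by
  obtain ⟨A, B, N₀, C, hA, hC, hbad⟩ := bad_set hD hm q
  obtain ⟨C₂, hC₂, hσ⟩ := sigma_exists hD hm
  refine ⟨A, B + 2, max N₀ 1, C₂ * C * 4 ^ (A * q), hA, le_max_right _ _, by positivity, ?_⟩
  intro ι _ _ ch hch hN E h hh n hn
  have hprob := isProb_PP hD ι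
  have hN1 : 1 ≤ Fintype.card ι := le_trans (le_max_right _ _) hN
  have hN2 : N₀ ≤ Fintype.card ι := le_trans (le_max_left _ _) hN
  obtain ⟨r, hr⟩ : ∃ r : ℕ, r = A * q - (2 * A + 4) := ⟨_, rfl⟩
  have hAq : 13 * A ≤ A * q := by
    calc 13 * A = A * 13 := by ring
      _ ≤ A * q := Nat.mul_le_mul_left _ hq
  have hr1 : 1 ≤ r := by omega
  have hrq : A * q = r + (2 * A + 4) := by omega
  rw [← hr]
  obtain ⟨N, hNdef⟩ : ∃ N : ℝ, N = (Fintype.card ι : ℝ) := ⟨_, rfl⟩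
  have hN0 : 0 < N := by
    rw [hNdef]; exact_mod_cast hN1
  rw [← hNdef]
  obtain ⟨u, hu⟩ : ∃ u : ℕ → ℝ, u = fun n => (PP Λ ι).real
      {x | x ∈ Bad Λ g ch ((1 / 2) ^ n) (((1 / 2) ^ n) ^ A) ∧
        E ≤ energy g ch x ∧ energy g ch x < E + h} := ⟨_, rfl⟩
  obtain ⟨c, hc⟩ : ∃ c : ℝ, c = C₂ * C * 4 ^ (A * q) * h * N ^ (B + 2) := ⟨_, rfl⟩
  have hc0 : 0 < c := by rw [hc]; positivity
  have hstep : ∀ n : ℕ, 1 ≤ n → u n ≤ c * ((1 / 2) ^ (n + 1)) ^ r + u (n + 1) := by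
    intro n hn
    obtain ⟨d, hd⟩ : ∃ d : ℝ, d = (1 / 2) ^ (n + 1) := ⟨_, rfl⟩
    have hd0 : 0 < d := by rw [hd]; positivity
    have hd1 : d ≤ 1 := by rw [hd]; exact pow_le_one₀ (by norm_num) (by norm_num)
    have h2d : (1 / 2 : ℝ) ^ n = 2 * d := by rw [hd, pow_succ]; ring
    have h4d : 4 * d ≤ 1 := by
      have h3 : (1 / 2 : ℝ) ^ n ≤ (1 / 2) ^ 1 :=
        pow_le_pow_of_le_one (by norm_num) (by norm_num) hn
      rw [h2d] at h3
      linarith
    have hdA0 : 0 < d ^ A := by positivity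
    have hdA1 : d ^ A ≤ 1 := pow_le_one₀ hd0.le hd1
    obtain ⟨σ, hσ0, hσ8, hσa, hσb⟩ := hσ ι ch hch hN1 d (d ^ A) hd0 hd1 hdA0 hdA1
    have h5 := hσb E h hh (Bad Λ g ch (2 * d) ((2 * d) ^ A)) (Bad Λ g ch (4 * d) ((4 * d) ^ A))
      (measurableSet_Bad hD ch _ _) (measurableSet_Bad hD ch _ _) (by
        intro x hxB hxC i hi hpi _ _ z hz
        obtain ⟨ha, -, hb⟩ := hσa x hxC i hi z hz
        refine ⟨ha, fun j hj => ?_⟩
        have hmove : ∀ k, ‖Function.update x i z k - x k‖ ≤ σ := by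
          intro k
          by_cases hk : k = i
          · subst hk; rw [Function.update_self]; exact hz
          · rw [Function.update_of_ne hk, sub_self, norm_zero]; exact hσ0.le
        have hmj := hmove j
        have hSj : Sep Λ (2 * d) x j := by
          constructor
          · have h6 := Metric.infDist_le_infDist_add_dist (s := Λᶜ)
              (x := Function.update x i z j) (y := x j)
            rw [dist_eq_norm] at h6
            have h7 := hj.1
            linarith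
          · intro k hk
            have h6 := hj.2 k hk
            have h7 := hmove k
            have h8 : ‖Function.update x i z j - Function.update x i z k‖ ≤
                ‖Function.update x i z j - x j‖ + ‖x j - x k‖ +
                  ‖Function.update x i z k - x k‖ := by
              have : Function.update x i z j - Function.update x i z k =
                (Function.update x i z j - x j) + (x j - x k) -
                  (Function.update x i z k - x k) := by ring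
              rw [this]
              exact (norm_sub_le _ _).trans (add_le_add (norm_add_le _ _) le_rfl)
            linarith
        have hSj' : Sep Λ d x j :=
          ⟨by linarith [hSj.1], fun k hk => by linarith [hSj.2 k hk]⟩
        have h9 := hb j hSj'
        have h10 := hxB.2 j hSj
        have h11 : ‖pD g ch (Function.update x i z) j‖ ≤ d ^ A + (2 * d) ^ A := by
          calc ‖pD g ch (Function.update x i z) j‖
              = ‖(pD g ch (Function.update x i z) j - pD g ch x j) + pD g ch x j‖ := by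
                rw [sub_add_cancel]
            _ ≤ _ := norm_add_le _ _
            _ ≤ d ^ A + (2 * d) ^ A := add_le_add h9 h10
        refine h11.trans ?_
        have h12 : d ^ A ≤ (2 * d) ^ A := pow_le_pow_left₀ hd0.le (by linarith) A
        have h13 : (4 * d) ^ A = 2 ^ A * (2 * d) ^ A := by
          rw [← mul_pow]; ring_nf
        have h14 : (2 : ℝ) ≤ 2 ^ A := by
          calc (2 : ℝ) = 2 ^ 1 := by norm_num
            _ ≤ 2 ^ A := pow_le_pow_right₀ (by norm_num) hA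
        have h15 : 0 < (2 * d) ^ A := by positivity
        rw [h13]
        nlinarith)
    have h6 := hbad ι ch hch hN2 (4 * d) (by positivity) h4d
    have hsub : {x | x ∈ Bad Λ g ch ((1 / 2) ^ n) (((1 / 2) ^ n) ^ A) ∧
        E ≤ energy g ch x ∧ energy g ch x < E + h} ⊆
        {x | x ∈ Bad Λ g ch (2 * d) ((2 * d) ^ A) ∧ x ∈ Cfg Λ ι ∧
          (∃ i, Sep Λ d x i ∧ d ^ A < ‖pD g ch x i‖) ∧
            E ≤ energy g ch x ∧ energy g ch x < E + h} ∪
        {x | x ∈ Bad Λ g ch d (d ^ A) ∧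
        E ≤ energy g ch x ∧ energy g ch x < E + h} := by
      rintro x ⟨hx1, hx2, hx3⟩
      rw [h2d] at hx1
      by_cases hb : x ∈ Bad Λ g ch d (d ^ A)
      · exact Or.inr ⟨hb, hx2, hx3⟩
      · refine Or.inl ⟨hx1, hx1.1, ?_, hx2, hx3⟩
        by_contra hcon
        push Not at hcon
        exact hb ⟨hx1.1, hcon⟩
    have e1 : u n ≤ (PP Λ ι).real {x | x ∈ Bad Λ g ch (2 * d) ((2 * d) ^ A) ∧ x ∈ Cfg Λ ι ∧
          (∃ i, Sep Λ d x i ∧ d ^ A < ‖pD g ch x i‖) ∧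
            E ≤ energy g ch x ∧ energy g ch x < E + h} + u (n + 1) := by
      rw [hu]
      simp only
      rw [← hd]
      exact (measureReal_mono hsub).trans (measureReal_union_le _ _)
    refine e1.trans (add_le_add ?_ le_rfl)
    rw [← hd]
    calc _ ≤ _ := h5
      _ ≤ C₂ * h * (Fintype.card ι : ℝ) ^ 2 / ((d ^ A) ^ 2 * d ^ 4) *
          (C * (Fintype.card ι : ℝ) ^ B * (4 * d) ^ (A * q)) :=
        mul_le_mul_of_nonneg_left h6 (by positivity)
      _ = c * d ^ r := by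
        rw [hc, ← hNdef, mul_pow, hrq, pow_add d r (2 * A + 4), pow_add d (2 * A) 4, pow_mul' d 2 A]
        field_simp
        ring
  have hmono : ∀ n : ℕ, 1 ≤ n → u n - c * ((1 / 2) ^ n) ^ r ≤
      u (n + 1) - c * ((1 / 2) ^ (n + 1)) ^ r := by
    intro n hn
    have h1 := hstep n hn
    have h2 : ((1 / 2 : ℝ) ^ (n + 1)) ^ r ≤ ((1 / 2) ^ n) ^ r / 2 := by
      rw [pow_succ, mul_pow]
      have h3 : (1 / 2 : ℝ) ^ r ≤ 1 / 2 := by
        calc (1 / 2 : ℝ) ^ r ≤ (1 / 2) ^ 1 := pow_le_pow_of_le_one (by norm_num) (by norm_num) hr1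
          _ = 1 / 2 := pow_one _
      have h4 : 0 < ((1 / 2 : ℝ) ^ n) ^ r := by positivity
      nlinarith
    nlinarith
  have hmono2 : ∀ k : ℕ, u n - c * ((1 / 2) ^ n) ^ r ≤
      u (n + k) - c * ((1 / 2) ^ (n + k)) ^ r := by
    intro k
    induction k with
    | zero => simp
    | succ k ih =>
      exact ih.trans (hmono (n + k) (by omega))
  have hlim : ∀ k : ℕ, u n - c * ((1 / 2) ^ n) ^ r ≤ C * N ^ B * (1 / 2) ^ k := by
    intro k
    refine (hmono2 k).trans ?_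
    have h1 : u (n + k) ≤ C * N ^ B * (1 / 2) ^ k := by
      rw [hu]
      simp only
      refine (measureReal_mono (fun x hx => hx.1)).trans
        ((hbad ι ch hch hN2 ((1 / 2) ^ (n + k)) (by positivity)
          (pow_le_one₀ (by norm_num) (by norm_num))).trans ?_)
      rw [← hNdef]
      refine mul_le_mul_of_nonneg_left ?_ (by positivity)
      rw [← pow_mul]
      refine pow_le_pow_of_le_one (by norm_num) (by norm_num) ?_
      calc k ≤ n + k := by omega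
        _ = (n + k) * 1 := by ring
        _ ≤ (n + k) * (A * q) := Nat.mul_le_mul_left _ (by omega)
    have h2 : 0 < c * ((1 / 2 : ℝ) ^ (n + k)) ^ r := by positivity
    linarith
  have hl0 : Tendsto (fun k : ℕ => C * N ^ B * (1 / 2 : ℝ) ^ k) atTop (𝓝 0) := by
    have := (tendsto_pow_atTop_nhds_zero_of_lt_one (r := (1 / 2 : ℝ)) (by norm_num)
      (by norm_num)).const_mul (C * N ^ B)
    rwa [mul_zero] at this
  have hfin : u n - c * ((1 / 2) ^ n) ^ r ≤ 0 := ge_of_tendsto' hl0 hlim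
  have : u n ≤ c * ((1 / 2) ^ n) ^ r := by linarith
  rw [hu, hc] at this
  simp only at this
  convert this using 1

theorem eventually_pow_le (c b : ℝ) (hc : 0 < c) (hb : 0 < b) (k : ℕ) :
    ∀ᶠ n : ℕ in atTop, c * (n : ℝ) ^ k ≤ Real.exp (b * n) := by
  have h1 := (isLittleO_pow_exp_pos_mul_atTop (k := k) hb).def (c := 1 / c) (by positivity)
  have h2 := tendsto_natCast_atTop_atTop (R := ℝ) |>.eventually h1
  filter_upwards [h2] with n hn
  rw [Real.norm_of_nonneg (by positivity), Real.norm_of_nonneg (by positivity)] at hn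
  calc c * (n : ℝ) ^ k ≤ c * (1 / c * Real.exp (b * n)) := mul_le_mul_of_nonneg_left hn hc.le
    _ = Real.exp (b * n) := by field_simp

end WU

open WU in
/-- Upper bound for the probability of arbitrarily thin energy windows. -/
theorem window_upper {Λ : Set ℂ} {g : ℂ → ℂ → ℝ} (hD : Dom Λ g)
    (hm : Measurable (Function.uncurry g)) {κ K : ℝ} (hκ : 0 < κ) (hK : 0 < K) :
    ∃ N₀ : ℕ, ∀ (ι : Type) [Fintype ι] [DecidableEq ι] (ch : ι → ℝ), (∀ i, |ch i| = 1) →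
      N₀ ≤ Fintype.card ι → ∀ E h : ℝ, 0 < h → h ≤ 1 →
      ∀ W W' : Set (ι → ℂ), MeasurableSet W → MeasurableSet W' →
      (∀ x ∈ W, ∀ i, ∀ z : ℂ, Function.update x i z ∈ W') →
      (PP Λ ι).real {x | x ∈ W ∧ E ≤ energy g ch x ∧ energy g ch x < E + h} ≤
        h * (Real.exp (κ * Fintype.card ι) *
            (PP Λ ι).real {x | x ∈ W' ∧ |energy g ch x - E| ≤ 2} +
          Real.exp (-(K * Fintype.card ι))) := by
  obtain ⟨q, hq⟩ : ∃ q : ℕ, q = 13 + ⌈12 * (K + 1) / κ⌉₊ := ⟨_, rfl⟩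
  obtain ⟨A, B, N₁, C, hA, hN₁, hC, htail⟩ := tail_main hD hm q (by omega)
  obtain ⟨C₂, hC₂, hσ⟩ := sigma_exists hD hm
  obtain ⟨r, hr⟩ : ∃ r : ℕ, r = A * q - (2 * A + 4) := ⟨_, rfl⟩
  have hAq : 13 * A ≤ A * q := by
    calc 13 * A = A * 13 := by ring
      _ ≤ A * q := Nat.mul_le_mul_left _ (by omega)
  have hr1 : 1 ≤ r := by omega
  have hrq : A * q = r + (2 * A + 4) := by omega
  have hL : 0 < Real.log 2 := Real.log_pos (by norm_num)
  obtain ⟨m, hmd⟩ : ∃ m : ℝ, m = 2 * A + 4 := ⟨_, rfl⟩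
  have hm0 : 0 < m := by rw [hmd]; positivity
  have hqr : (13 : ℝ) + 12 * (K + 1) / κ ≤ q := by
    rw [hq]; push_cast
    linarith [Nat.le_ceil (12 * (K + 1) / κ)]
  have hAr : (1 : ℝ) ≤ A := by exact_mod_cast hA
  have hrm : (K + 1) ≤ κ * r / (2 * m) := by
    have h1 : (A : ℝ) * q = r + m := by
      rw [hmd]; exact_mod_cast hrq
    have h2 : 12 * (K + 1) ≤ κ * (q - 6) := by
      have h3 : 12 * (K + 1) / κ ≤ q - 6 := by linarith
      rw [div_le_iff₀ hκ] at h3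
      linarith
    have h4 : ((q : ℝ) - 6) * m ≤ 6 * r := by
      have h5 : (r : ℝ) = A * q - m := by linarith
      rw [h5, hmd]
      have h6 : (0 : ℝ) ≤ q := by positivity
      nlinarith
    rw [le_div_iff₀ (by positivity)]
    have h7 : κ * ((q - 6) * m) ≤ κ * (6 * r) := mul_le_mul_of_nonneg_left h4 hκ.le
    have h8 : 12 * (K + 1) * m ≤ κ * (q - 6) * m := mul_le_mul_of_nonneg_right h2 hm0.le
    linarith
  have hev := ((eventually_ge_atTop N₁).and
    ((tendsto_natCast_atTop_atTop (R := ℝ)).eventually_ge_atTop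
      (2 * m * Real.log 2 / κ))).and
    ((eventually_pow_le C₂ (κ / 2) hC₂ (by positivity) 2).and
      (eventually_pow_le (C * 2 ^ r) 1 (by positivity) one_pos B))
  obtain ⟨N₀, hN₀⟩ := Filter.eventually_atTop.1 hev
  refine ⟨N₀, ?_⟩
  intro ι _ _ ch hch hN E h hh hh1 W W' hW hW' hWW
  have hprob := isProb_PP hD ι
  obtain ⟨⟨ha, hb⟩, hc, hd⟩ := hN₀ _ hN
  have hN1 : 1 ≤ Fintype.card ι := hN₁.trans ha
  obtain ⟨N, hNdef⟩ : ∃ N : ℝ, N = (Fintype.card ι : ℝ) := ⟨_, rfl⟩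
  have hN0 : 0 < N := by
    rw [hNdef]; exact_mod_cast hN1
  rw [← hNdef] at hb hc hd ⊢
  obtain ⟨y, hy⟩ : ∃ y : ℝ, y = κ * N / (2 * m * Real.log 2) := ⟨_, rfl⟩
  have hy1 : 1 ≤ y := by
    rw [hy, le_div_iff₀ (by positivity)]
    rw [div_le_iff₀ hκ] at hb
    linarith
  obtain ⟨n, hn⟩ : ∃ n : ℕ, n = ⌊y⌋₊ := ⟨_, rfl⟩
  have hn1 : 1 ≤ n := by rw [hn]; exact (Nat.one_le_floor_iff y).2 hy1
  have hny : (n : ℝ) ≤ y := by rw [hn]; exact Nat.floor_le (by linarith)
  have hyn : y ≤ n + 1 := by rw [hn]; exact (Nat.lt_floor_add_one y).le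
  obtain ⟨δ, hδ⟩ : ∃ δ : ℝ, δ = (1 / 2) ^ n := ⟨_, rfl⟩
  have hδ0 : 0 < δ := by rw [hδ]; positivity
  have hδ1 : δ ≤ 1 := by rw [hδ]; exact pow_le_one₀ (by norm_num) (by norm_num)
  have hδexp : ∀ k : ℕ, δ ^ k = Real.exp (-(k * n * Real.log 2)) := by
    intro k
    rw [hδ, ← pow_mul, Real.exp_neg, mul_comm n k, show (k : ℝ) * n * Real.log 2 =
      Real.log 2 * ((k * n : ℕ) : ℝ) by push_cast; ring, Real.exp_mul, Real.exp_log (by norm_num),
      Real.rpow_natCast, one_div, inv_pow]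
  have hdA0 : 0 < δ ^ A := by positivity
  have hdA1 : δ ^ A ≤ 1 := pow_le_one₀ hδ0.le hδ1
  obtain ⟨σ, hσ0, hσ8, hσa, hσb⟩ := hσ ι ch hch hN1 δ (δ ^ A) hδ0 hδ1 hdA0 hdA1
  have h1 := hσb E h hh W {x | x ∈ W' ∧ |energy g ch x - E| ≤ 2} hW
    (hW'.inter (measurableSet_le ((measurable_energy hm ch).sub_const E).abs measurable_const)) (by
      intro x hxW hxC i hi hpi hE1 hE2 z hz
      obtain ⟨-, h2, -⟩ := hσa x hxC i hi z hz
      refine ⟨hWW x hxW i z, ?_⟩
      rw [abs_le] at h2 ⊢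
      constructor <;> linarith)
  have h2 := htail ι ch hch ha E h hh n hn1
  rw [← hδ, ← hr] at h2
  have hsub : {x | x ∈ W ∧ E ≤ energy g ch x ∧ energy g ch x < E + h} ⊆
      ({x | x ∈ W ∧ x ∈ Cfg Λ ι ∧ (∃ i, Sep Λ δ x i ∧ δ ^ A < ‖pD g ch x i‖) ∧
            E ≤ energy g ch x ∧ energy g ch x < E + h} ∪
        {x | x ∈ Bad Λ g ch δ (δ ^ A) ∧ E ≤ energy g ch x ∧ energy g ch x < E + h}) ∪
        {x | x ∉ Cfg Λ ι} := by
    rintro x ⟨hx1, hx2, hx3⟩
    by_cases hxC : x ∈ Cfg Λ ι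
    · by_cases hb : x ∈ Bad Λ g ch δ (δ ^ A)
      · exact Or.inl (Or.inr ⟨hb, hx2, hx3⟩)
      · refine Or.inl (Or.inl ⟨hx1, hxC, ?_, hx2, hx3⟩)
        by_contra hcon
        push Not at hcon
        exact hb ⟨hxC, hcon⟩
    · exact Or.inr hxC
  have hnull : (PP Λ ι).real {x | x ∉ Cfg Λ ι} = 0 := by
    have := ae_Cfg hD ι
    rw [ae_iff] at this
    rw [measureReal_def, this]; rfl
  obtain ⟨P, hP⟩ : ∃ P : ℝ, P = (PP Λ ι).real {x | x ∈ W' ∧ |energy g ch x - E| ≤ 2} := ⟨_, rfl⟩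
  have hP0 : 0 ≤ P := by rw [hP]; exact measureReal_nonneg
  rw [← hP] at h1 ⊢
  have h3 : (PP Λ ι).real {x | x ∈ W ∧ E ≤ energy g ch x ∧ energy g ch x < E + h} ≤
      C₂ * h * (Fintype.card ι : ℝ) ^ 2 / ((δ ^ A) ^ 2 * δ ^ 4) * P +
      C * h * (Fintype.card ι : ℝ) ^ B * δ ^ r := by
    refine (measureReal_mono hsub (measure_ne_top _ _)).trans ((measureReal_union_le _ _).trans ?_)
    rw [hnull, add_zero]
    exact (measureReal_union_le _ _).trans (add_le_add h1 h2)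
  rw [← hNdef] at h3
  refine h3.trans ?_
  have h4 : C₂ * h * N ^ 2 / ((δ ^ A) ^ 2 * δ ^ 4) ≤ h * Real.exp (κ * N) := by
    have h5 : (δ ^ A) ^ 2 * δ ^ 4 = Real.exp (-(m * n * Real.log 2)) := by
      rw [← pow_mul, ← pow_add, hδexp, hmd]
      push_cast
      ring_nf
    have h6 : Real.exp (-(κ / 2 * N)) ≤ (δ ^ A) ^ 2 * δ ^ 4 := by
      rw [h5]
      apply Real.exp_le_exp.2
      rw [neg_le_neg_iff]
      have h7 : m * n * Real.log 2 ≤ m * y * Real.log 2 :=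
        mul_le_mul_of_nonneg_right (mul_le_mul_of_nonneg_left hny hm0.le) hL.le
      refine h7.trans (le_of_eq ?_)
      rw [hy]; field_simp
    rw [div_le_iff₀ (by positivity)]
    calc C₂ * h * N ^ 2 = h * (C₂ * N ^ 2) := by ring
      _ ≤ h * Real.exp (κ / 2 * N) := mul_le_mul_of_nonneg_left hc hh.le
      _ = h * Real.exp (κ * N) * Real.exp (-(κ / 2 * N)) := by
          rw [mul_assoc, ← Real.exp_add]; ring_nf
      _ ≤ _ := mul_le_mul_of_nonneg_left h6 (by positivity)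
  have h5 : C * h * N ^ B * δ ^ r ≤ h * Real.exp (-(K * N)) := by
    have h6 : δ ^ r ≤ 2 ^ r * Real.exp (-((K + 1) * N)) := by
      have h7 : (2 : ℝ) ^ r = Real.exp (r * Real.log 2) := by
        rw [mul_comm, Real.exp_mul, Real.exp_log (by norm_num), Real.rpow_natCast]
      rw [hδexp, h7, ← Real.exp_add]
      apply Real.exp_le_exp.2
      have h8 : (K + 1) * N ≤ r * y * Real.log 2 := by
        calc (K + 1) * N ≤ κ * r / (2 * m) * N := mul_le_mul_of_nonneg_right hrm hN0.le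
          _ = r * y * Real.log 2 := by rw [hy]; field_simp
      have h9 : (r : ℝ) * y * Real.log 2 ≤ r * (n + 1) * Real.log 2 :=
        mul_le_mul_of_nonneg_right (mul_le_mul_of_nonneg_left hyn (by positivity)) hL.le
      linarith
    calc C * h * N ^ B * δ ^ r ≤ C * h * N ^ B * (2 ^ r * Real.exp (-((K + 1) * N))) :=
          mul_le_mul_of_nonneg_left h6 (by positivity)
      _ = h * ((C * 2 ^ r * N ^ B) * Real.exp (-((K + 1) * N))) := by ring
      _ ≤ h * (Real.exp (1 * N) * Real.exp (-((K + 1) * N))) :=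
          mul_le_mul_of_nonneg_left (mul_le_mul_of_nonneg_right hd (by positivity)) hh.le
      _ = h * Real.exp (-(K * N)) := by rw [← Real.exp_add]; ring_nf
  calc C₂ * h * N ^ 2 / ((δ ^ A) ^ 2 * δ ^ 4) * P + C * h * N ^ B * δ ^ r
      ≤ h * Real.exp (κ * N) * P + h * Real.exp (-(K * N)) :=
        add_le_add (mul_le_mul_of_nonneg_right h4 hP0) h5
    _ = _ := by ring

open WU in
/-- The part of a thin window in a small bad set is a small fraction of `h`. -/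
theorem window_tail {Λ : Set ℂ} {g : ℂ → ℂ → ℝ} (hD : Dom Λ g)
    (hm : Measurable (Function.uncurry g)) :
    ∃ N₀ : ℕ, ∀ (ι : Type) [Fintype ι] [DecidableEq ι] (ch : ι → ℝ), (∀ i, |ch i| = 1) →
      N₀ ≤ Fintype.card ι → ∀ η : ℝ, 0 < η → ∃ δ ρ : ℝ, 0 < δ ∧ δ ≤ 1 ∧ 0 < ρ ∧
      ∀ E h : ℝ, 0 < h → h ≤ 1 →
      (PP Λ ι).real {x | x ∈ Bad Λ g ch δ ρ ∧ E ≤ energy g ch x ∧ energy g ch x < E + h} ≤
        η * h := by
  obtain ⟨A, B, N₀, C, hA, hN₀, hC, htail⟩ := tail_main hD hm 13 le_rfl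
  refine ⟨N₀, ?_⟩
  intro ι _ _ ch hch hN η hη
  have hN1 : 1 ≤ Fintype.card ι := hN₀.trans hN
  have hNr : (0 : ℝ) < Fintype.card ι := by exact_mod_cast hN1
  have hl0 : Tendsto (fun k : ℕ => C * (Fintype.card ι : ℝ) ^ B * (1 / 2 : ℝ) ^ k) atTop (𝓝 0) := by
    have := (tendsto_pow_atTop_nhds_zero_of_lt_one (r := (1 / 2 : ℝ)) (by norm_num)
      (by norm_num)).const_mul (C * (Fintype.card ι : ℝ) ^ B)
    rwa [mul_zero] at this
  obtain ⟨n, hn1, hn⟩ := ((eventually_ge_atTop 1).and (hl0.eventually (gt_mem_nhds hη))).exists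
  refine ⟨(1 / 2) ^ n, ((1 / 2) ^ n) ^ A, by positivity,
    pow_le_one₀ (by norm_num) (by norm_num), by positivity, ?_⟩
  intro E h hh hh1
  refine (htail ι ch hch hN E h hh n hn1).trans ?_
  have h1 : ((1 / 2 : ℝ) ^ n) ^ (A * 13 - (2 * A + 4)) ≤ (1 / 2) ^ n := by
    rw [← pow_mul]
    refine pow_le_pow_of_le_one (by norm_num) (by norm_num) ?_
    calc n = n * 1 := by ring
      _ ≤ n * (A * 13 - (2 * A + 4)) := Nat.mul_le_mul_left _ (by omega)
  calc C * h * (Fintype.card ι : ℝ) ^ B * ((1 / 2) ^ n) ^ (A * 13 - (2 * A + 4))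
      ≤ C * h * (Fintype.card ι : ℝ) ^ B * (1 / 2) ^ n :=
        mul_le_mul_of_nonneg_left h1 (by positivity)
    _ = (C * (Fintype.card ι : ℝ) ^ B * (1 / 2) ^ n) * h := by ring
    _ ≤ η * h := mul_le_mul_of_nonneg_right hn.le hh.le

end Pool.Agent.Lib.MP_fa244c_mp
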