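import Pool.Agent.Lib.MP_fa244c_mp.IBP
import Pool.Agent.Lib.MP_fa244c_mp.WindowU

set_option autoImplicit false

open MeasureTheory Filter Topology Set Metric
open scoped ContDiff

namespace Pool.Agent.Lib.MP_fa244c_mp

namespace DiffAll

private theorem sub_eq {X : Type} [MeasurableSpace X] (P : Measure X) {H w : X → ℝ}
    (hH : Measurable H) (hw : Integrable w P) {a b : ℝ} (hab : a ≤ b) :
    (∫ x in {x | H x < b}, w x ∂P) - (∫ x in {x | H x < a}, w x ∂P) =
      ∫ x in {x | a ≤ H x ∧ H x < b}, w x ∂P := by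
  have h1 : {x | H x < b} = {x | H x < a} ∪ {x | a ≤ H x ∧ H x < b} := by
    ext x
    simp only [mem_union, Set.mem_ofPred_eq]
    constructor
    · intro h
      rcases lt_or_ge (H x) a with h2 | h2
      · exact Or.inl h2
      · exact Or.inr ⟨h2, h⟩
    · rintro (h | h)
      · exact h.trans_le hab
      · exact h.2
  have h2 : Disjoint {x | H x < a} {x | a ≤ H x ∧ H x < b} := by
    rw [Set.disjoint_left]
    intro x h3 h4
    simp only [Set.mem_ofPred_eq] at h3 h4
    linarith [h4.1]
  have h3 : MeasurableSet {x | a ≤ H x ∧ H x < b} :=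
    (measurableSet_le measurable_const hH).inter (measurableSet_lt hH measurable_const)
  rw [h1, setIntegral_union h2 h3 hw.integrableOn hw.integrableOn]
  ring

private theorem diff_le {X : Type} [MeasurableSpace X] (P : Measure X) [IsFiniteMeasure P]
    {H w : X → ℝ} (hH : Measurable H) (hw : Integrable w P) {M : ℝ} {S : Set X}
    (hS : MeasurableSet S) (h : ∀ᵐ x ∂P, |w x| ≤ M * S.indicator (fun _ => (1 : ℝ)) x) {a b : ℝ}
    (hab : a ≤ b) :
    |(∫ x in {x | H x < b}, w x ∂P) - (∫ x in {x | H x < a}, w x ∂P)| ≤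
      M * P.real {x | x ∈ S ∧ a ≤ H x ∧ H x < b} := by
  rw [sub_eq P hH hw hab]
  have h3 : MeasurableSet {x | a ≤ H x ∧ H x < b} :=
    (measurableSet_le measurable_const hH).inter (measurableSet_lt hH measurable_const)
  have hi : Integrable (fun x => M * S.indicator (fun _ => (1 : ℝ)) x) P :=
    ((integrable_const (1 : ℝ)).indicator hS).const_mul M
  calc |∫ x in {x | a ≤ H x ∧ H x < b}, w x ∂P|
      ≤ ∫ x in {x | a ≤ H x ∧ H x < b}, |w x| ∂P := abs_integral_le_integral_abs
    _ ≤ ∫ x in {x | a ≤ H x ∧ H x < b}, M * S.indicator (fun _ => (1 : ℝ)) x ∂P := by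
        refine integral_mono_ae hw.abs.integrableOn hi.integrableOn ?_
        exact ae_restrict_of_ae h
    _ = M * P.real {x | x ∈ S ∧ a ≤ H x ∧ H x < b} := by
        rw [integral_const_mul, integral_indicator hS, setIntegral_const, smul_eq_mul, mul_one,
          measureReal_restrict_apply' h3]
        congr 1

/-- Differentiability passes to limits that are uniform on the level of increments. -/
private theorem diff_of_approx {F : ℝ → ℝ} {E : ℝ}
    (h : ∀ η : ℝ, 0 < η → ∃ G : ℝ → ℝ, DifferentiableAt ℝ G E ∧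
      ∀ᶠ y in 𝓝[≠] E, |(F y - G y) - (F E - G E)| ≤ η * |y - E|) : DifferentiableAt ℝ F E := by
  have h1 : ∃ L, Tendsto (slope F E) (𝓝[≠] E) (𝓝 L) := by
    rw [← cauchy_map_iff_exists_tendsto, Metric.cauchy_iff]
    refine ⟨inferInstance, fun ε hε => ?_⟩
    obtain ⟨G, hG, hη⟩ := h (ε / 4) (by positivity)
    have h2 := hG.hasDerivAt
    rw [hasDerivAt_iff_tendsto_slope] at h2
    have h3 : ∀ᶠ y in 𝓝[≠] E, |slope G E y - deriv G E| < ε / 4 := by
      have := (Metric.tendsto_nhds.1 h2) (ε / 4) (by positivity)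
      simpa [Real.dist_eq] using this
    have h4 : ∀ᶠ y in 𝓝[≠] E, |slope F E y - deriv G E| < ε / 2 := by
      filter_upwards [h3, hη, self_mem_nhdsWithin] with y h5 h6 h7
      have h8 : 0 < |y - E| := abs_pos.2 (sub_ne_zero.2 h7)
      have h9 : slope F E y - slope G E y = ((F y - G y) - (F E - G E)) / (y - E) := by
        rw [slope_def_field, slope_def_field]
        ring
      have h10 : |slope F E y - slope G E y| ≤ ε / 4 := by
        rw [h9, abs_div, div_le_iff₀ h8]
        exact h6
      have h11 : |slope F E y - deriv G E| ≤ |slope F E y - slope G E y| +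
          |slope G E y - deriv G E| := abs_sub_le _ _ _
      linarith
    refine ⟨slope F E '' {y | |slope F E y - deriv G E| < ε / 2},
      image_mem_map h4, ?_⟩
    rintro _ ⟨y, hy, rfl⟩ _ ⟨z, hz, rfl⟩
    rw [Real.dist_eq]
    simp only [Set.mem_ofPred_eq] at hy hz
    have h5 : |slope F E y - slope F E z| ≤ |slope F E y - deriv G E| +
        |deriv G E - slope F E z| := abs_sub_le _ _ _
    rw [abs_sub_comm (deriv G E)] at h5
    linarith
  obtain ⟨L, hL⟩ := h1
  exact (hasDerivAt_iff_tendsto_slope.2 hL).differentiableAt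

private theorem diff_of_weights {X : Type} [MeasurableSpace X] (P : Measure X)
    [IsFiniteMeasure P] {H w : X → ℝ} (hH : Measurable H) (hw : Integrable w P) {E : ℝ}
    (h : ∀ η : ℝ, 0 < η → ∃ w' : X → ℝ, Integrable w' P ∧
      DifferentiableAt ℝ (fun E' => ∫ x in {x | H x < E'}, w' x ∂P) E ∧
      ∃ (M : ℝ) (S : Set X), MeasurableSet S ∧
        (∀ᵐ x ∂P, |w x - w' x| ≤ M * S.indicator (fun _ => (1 : ℝ)) x) ∧
        ∀ a h : ℝ, 0 < h → h ≤ 1 → M * P.real {x | x ∈ S ∧ a ≤ H x ∧ H x < a + h} ≤ η * h) :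
    DifferentiableAt ℝ (fun E' => ∫ x in {x | H x < E'}, w x ∂P) E := by
  refine diff_of_approx fun η hη => ?_
  obtain ⟨w', hw', hd, M, S, hS, hM, hb⟩ := h η hη
  refine ⟨_, hd, ?_⟩
  have h1 : ∀ᶠ y in 𝓝[≠] E, |y - E| < 1 := by
    have h2 : Tendsto (fun y : ℝ => |y - E|) (𝓝 E) (𝓝 |E - E|) :=
      (continuous_id.sub continuous_const).abs.tendsto E
    rw [sub_self, abs_zero] at h2
    exact nhdsWithin_le_nhds (h2.eventually_lt_const one_pos)
  have h2 : ∀ y, (∫ x in {x | H x < y}, w x ∂P) - (∫ x in {x | H x < y}, w' x ∂P) =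
      ∫ x in {x | H x < y}, (w x - w' x) ∂P := fun y =>
    (integral_sub hw.integrableOn hw'.integrableOn).symm
  filter_upwards [h1, self_mem_nhdsWithin] with y hy hne
  have hne' : y ≠ E := hne
  rw [h2, h2]
  rcases lt_or_gt_of_ne hne' with h3 | h3
  · rw [abs_sub_comm]
    refine (diff_le P hH (hw.sub hw') hS hM h3.le).trans ?_
    have h4 := hb y (E - y) (by linarith) (by rw [abs_of_neg (by linarith)] at hy; linarith)
    rw [add_sub_cancel] at h4
    rwa [abs_of_neg (by linarith), neg_sub]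
  · refine (diff_le P hH (hw.sub hw') hS hM h3.le).trans ?_
    have h4 := hb E (y - E) (by linarith) (by rw [abs_of_pos (by linarith)] at hy; linarith)
    rw [add_sub_cancel] at h4
    rwa [abs_of_pos (by linarith)]

end DiffAll

open DiffAll in
/-- The phase volume and all its weighted versions are differentiable in the energy, once there
are sufficiently many vortices. -/
theorem diff_all {Λ : Set ℂ} {g : ℂ → ℂ → ℝ} (hD : Dom Λ g)
    (hm : Measurable (Function.uncurry g)) :
    ∃ N₀ : ℕ, ∀ (ι : Type) [Fintype ι] [DecidableEq ι] (ch : ι → ℝ), (∀ i, |ch i| = 1) →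
      N₀ ≤ Fintype.card ι → ∀ (f : BoundedContinuousFunction (ι → ℂ) ℝ) (E : ℝ),
        DifferentiableAt ℝ (fun E' : ℝ => ∫ x in {x | energy g ch x < E'}, f x ∂(PP Λ ι)) E := by
  obtain ⟨N₁, hN₁⟩ := window_upper hD hm (κ := 1) (K := 1) one_pos one_pos
  obtain ⟨N₂, hN₂⟩ := window_tail hD hm
  refine ⟨max N₁ N₂, fun ι _ _ ch hch hN f E => ?_⟩
  have hN1 := (le_max_left N₁ N₂).trans hN
  have hN2 := (le_max_right N₁ N₂).trans hN
  have := isProb_PP hD ι
  have hHm := measurable_energy hm ch
  obtain ⟨C, hC0, hC⟩ : ∃ C : ℝ, 0 < C ∧ ∀ a h : ℝ, 0 < h → h ≤ 1 →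
      (PP Λ ι).real {x | a ≤ energy g ch x ∧ energy g ch x < a + h} ≤ C * h := by
    refine ⟨Real.exp (1 * Fintype.card ι) * 1 + Real.exp (-(1 * Fintype.card ι)), by positivity,
      fun a h h1 h2 => ?_⟩
    have h3 := hN₁ ι ch hch hN1 a h h1 h2 univ univ MeasurableSet.univ MeasurableSet.univ
      (fun x _ i z => mem_univ _)
    simp only [mem_univ, true_and] at h3
    refine h3.trans ?_
    rw [mul_comm]
    refine mul_le_mul_of_nonneg_right ?_ h1.le
    refine add_le_add ?_ le_rfl
    exact mul_le_mul_of_nonneg_left measureReal_le_one (Real.exp_pos _).le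
  have hnull : ∀ E : ℝ, (PP Λ ι) {x | energy g ch x = E} = 0 := by
    intro E
    have h1 : (PP Λ ι).real {x | energy g ch x = E} = 0 := by
      apply le_antisymm _ measureReal_nonneg
      refine le_of_forall_pos_le_add fun ε hε => ?_
      have h2 : 0 < min 1 (ε / C) := lt_min one_pos (by positivity)
      have h3 := hC E (min 1 (ε / C)) h2 (min_le_left _ _)
      have h4 : {x | energy g ch x = E} ⊆
          {x | E ≤ energy g ch x ∧ energy g ch x < E + min 1 (ε / C)} := by
        intro x hx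
        simp only [Set.mem_ofPred_eq] at hx ⊢
        rw [hx]
        exact ⟨le_rfl, by linarith⟩
      refine ((measureReal_mono h4).trans h3).trans ?_
      have h5 : C * min 1 (ε / C) ≤ C * (ε / C) := mul_le_mul_of_nonneg_left (min_le_right _ _) hC0.le
      rw [mul_div_cancel₀ _ hC0.ne'] at h5
      linarith
    rwa [measureReal_eq_zero_iff] at h1
  -- smooth compactly supported weights
  have hsm : ∀ f : (ι → ℂ) → ℝ, ContDiff ℝ ∞ f → HasCompactSupport f → Integrable f (PP Λ ι) ∧
      DifferentiableAt ℝ (fun E' : ℝ => ∫ x in {x | energy g ch x < E'}, f x ∂(PP Λ ι)) E := by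
    intro f hf hfc
    obtain ⟨A, hA⟩ := hf.continuous.bounded_above_of_compact_support hfc
    have hA0 : 0 ≤ A := (norm_nonneg _).trans (hA 0)
    have hfi : Integrable f (PP Λ ι) :=
      Integrable.of_bound hf.continuous.measurable.aestronglyMeasurable A
        (Eventually.of_forall hA)
    refine ⟨hfi, diff_of_weights (PP Λ ι) hHm hfi fun η hη => ?_⟩
    obtain ⟨δ, ρ, hδ, hδ1, hρ, hb⟩ := hN₂ ι ch hch hN2 (η / (A + 1)) (by positivity)
    obtain ⟨χ, hχm, hχ01, hχ1, hχ⟩ := smooth_part hD hm hch hnull hδ hρ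
    refine ⟨fun x => f x * χ x, ?_, hχ f hf hfc E, A + 1, Bad Λ g ch δ ρ,
      measurableSet_Bad hD ch δ ρ, ?_, fun a h h1 h2 => ?_⟩
    · refine hfi.mul_bdd (c := 1) hχm.aestronglyMeasurable (Eventually.of_forall fun x => ?_)
      rw [Real.norm_eq_abs, abs_of_nonneg (hχ01 x).1]
      exact (hχ01 x).2
    · filter_upwards [ae_Cfg hD ι] with x hx
      by_cases hxb : x ∈ Bad Λ g ch δ ρ
      · rw [indicator_of_mem hxb, mul_one]
        have h1 : f x - f x * χ x = f x * (1 - χ x) := by ring
        rw [h1, abs_mul, abs_of_nonneg (by linarith [(hχ01 x).2] : (0 : ℝ) ≤ 1 - χ x)]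
        have h2 : |f x| ≤ A := hA x
        calc |f x| * (1 - χ x) ≤ A * 1 :=
              mul_le_mul h2 (by linarith [(hχ01 x).1]) (by linarith [(hχ01 x).2]) hA0
          _ ≤ A + 1 := by linarith
      · rw [indicator_of_notMem hxb, hχ1 x hx hxb, mul_zero, mul_one, sub_self, abs_zero]
    · have h3 := hb a h h1 h2
      calc (A + 1) * (PP Λ ι).real {x | x ∈ Bad Λ g ch δ ρ ∧ a ≤ energy g ch x ∧
            energy g ch x < a + h} ≤ (A + 1) * (η / (A + 1) * h) :=
            mul_le_mul_of_nonneg_left h3 (by linarith)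
        _ = η * h := by field_simp
  -- general weights
  have hfi : Integrable (fun x => f x) (PP Λ ι) :=
    Integrable.of_bound f.continuous.measurable.aestronglyMeasurable ‖f‖
      (Eventually.of_forall fun x => f.norm_coe_le_norm x)
  refine diff_of_weights (PP Λ ι) hHm hfi fun η hη => ?_
  have hbdd : Bornology.IsBounded (Cfg Λ ι) := by
    have h1 : Bornology.IsBounded (Set.pi univ fun _ : ι => Λ) :=
      Bornology.IsBounded.pi fun _ => hD.bdd
    exact h1.subset fun x hx i _ => hx.1 i
  obtain ⟨R, hR⟩ := hbdd.subset_closedBall 0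
  let bump : ContDiffBump (0 : ι → ℂ) := ⟨|R| + 1, |R| + 2, by positivity, by linarith⟩
  have hbc : Continuous fun x => f x * bump x := f.continuous.mul bump.continuous
  obtain ⟨f', hf', hd, hs⟩ := hbc.exists_contDiff_approx ⊤ (ε := fun _ => η / C) continuous_const
    (fun _ => by positivity)
  have hf'c : HasCompactSupport f' := by
    refine HasCompactSupport.mono (f := fun x => f x * bump x) ?_ hs
    exact bump.hasCompactSupport.mul_left
  obtain ⟨h1, h2⟩ := hsm f' hf' hf'c
  refine ⟨f', h1, h2, η / C, univ, MeasurableSet.univ, ?_, fun a h h3 h4 => ?_⟩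
  · filter_upwards [ae_Cfg hD ι] with x hx
    rw [indicator_of_mem (mem_univ _), mul_one]
    have h5 : bump x = 1 := by
      apply bump.one_of_mem_closedBall
      have h6 := hR hx
      exact closedBall_subset_closedBall (by linarith [le_abs_self R] : R ≤ |R| + 1) h6
    have h7 := hd x
    rw [h5, mul_one, Real.dist_eq, abs_sub_comm] at h7
    exact h7.le
  · simp only [mem_univ, true_and]
    calc η / C * (PP Λ ι).real {x | a ≤ energy g ch x ∧ energy g ch x < a + h} ≤
          η / C * (C * h) := mul_le_mul_of_nonneg_left (hC a h h3 h4) (by positivity)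
      _ = η * h := by field_simp

end Pool.Agent.Lib.MP_fa244c_mp
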