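import Pool.Agent.Lib.MP_fa244c_mp.LogPSD

/-!
Lower bound for the logarithmic energy of a neutral density in a punctured disc by its holomorphic
moments (reflection and positivity of the logarithmic kernel).
-/

set_option autoImplicit false

open MeasureTheory Filter Topology Set

namespace Pool.Agent.Lib.MP_fa244c_mp

theorem dk_log_ball (r : ℝ) :
    IntegrableOn (fun u : ℂ => Real.log ‖u‖) (Metric.ball 0 r) := by
  have h := (integrableOn_fun_norm_addHaar (E := ℂ) (μ := volume) (f := Real.log) (r := r))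
  refine h.2 ?_
  have h1 : Module.finrank ℝ ℂ - 1 = 1 := by
    rw [Complex.finrank_real_complex]
  rw [h1]
  simp only [pow_one, smul_eq_mul]
  have h2 : Continuous fun y : ℝ => y * Real.log y := Real.continuous_mul_log
  exact (h2.integrableOn_Icc (a := 0) (b := r)).mono_set Ioo_subset_Icc_self

theorem dk_log_int {K : Set ℂ} (hK : IsCompact K) :
    Integrable (fun p : ℂ × ℂ => Real.log ‖p.1 - p.2‖)
      ((volume.restrict K).prod (volume.restrict K)) := by
  obtain ⟨M, hM⟩ := hK.isBounded.exists_norm_le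
  have hm : MeasurableSet K := hK.measurableSet
  set L : ℂ → ℝ := (Metric.ball (0 : ℂ) (2 * M + 1)).indicator (fun u => Real.log ‖u‖) with hL
  have hLi : Integrable L volume := by
    rw [hL, integrable_indicator_iff Metric.isOpen_ball.measurableSet]
    exact dk_log_ball _
  have hf : Integrable (K.indicator (fun _ => (1 : ℝ))) (volume : Measure ℂ) := by
    rw [integrable_indicator_iff hm]
    exact integrableOn_const hK.measure_lt_top.ne
  have h1 := hf.convolution_integrand (ContinuousLinearMap.mul ℝ ℝ) hLi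
  rw [Measure.prod_restrict, ← Measure.volume_eq_prod]
  have h2 : IntegrableOn (fun p : ℂ × ℂ => (ContinuousLinearMap.mul ℝ ℝ)
      (K.indicator (fun _ => (1 : ℝ)) p.2) (L (p.1 - p.2))) (K ×ˢ K) volume := h1.integrableOn
  refine (integrableOn_congr_fun ?_ (hm.prod hm)).1 h2
  intro p hp
  have h3 := hM _ hp.1
  have h4 := hM _ hp.2
  have h5 : p.1 - p.2 ∈ Metric.ball (0 : ℂ) (2 * M + 1) := by
    rw [mem_ball_zero_iff]
    have := norm_sub_le p.1 p.2
    linarith
  simp only [ContinuousLinearMap.mul_apply', hL]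
  rw [indicator_of_mem hp.2, indicator_of_mem h5, one_mul]

theorem dk_ne {K : Set ℂ} :
    ∀ᵐ p : ℂ × ℂ ∂((volume.restrict K).prod (volume.restrict K)), p.1 ≠ p.2 := by
  rw [Measure.prod_restrict]
  refine ae_restrict_of_ae ?_
  have hd : MeasurableSet {p : ℂ × ℂ | p.1 ≠ p.2} :=
    (measurableSet_eq_fun measurable_fst measurable_snd).compl
  rw [Measure.ae_prod_iff_ae_ae hd]
  refine Eventually.of_forall fun x => ?_
  have : ∀ᵐ y : ℂ ∂volume, y ≠ x := by
    rw [ae_iff]
    simp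
  filter_upwards [this] with y hy
  exact fun h => hy h.symm

/-- the inclusion of a copy -/
def dkI (b : Bool) (z : ℂ) : ℂ × Bool := (z, b)

theorem dkI_meas (b : Bool) : Measurable (dkI b) := by
  unfold dkI
  fun_prop

/-- two copies of a measure -/
noncomputable def dkM (ν : Measure ℂ) : Measure (ℂ × Bool) :=
  ν.map (dkI true) + ν.map (dkI false)

instance dkM_fin (ν : Measure ℂ) [IsFiniteMeasure ν] : IsFiniteMeasure (dkM ν) := by
  unfold dkM
  infer_instance

theorem dkM_prod (ν : Measure ℂ) [IsFiniteMeasure ν] :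
    (dkM ν).prod (dkM ν) =
      (ν.prod ν).map (Prod.map (dkI true) (dkI true)) +
      (ν.prod ν).map (Prod.map (dkI true) (dkI false)) +
      ((ν.prod ν).map (Prod.map (dkI false) (dkI true)) +
      (ν.prod ν).map (Prod.map (dkI false) (dkI false))) := by
  unfold dkM
  rw [Measure.add_prod, Measure.prod_add, Measure.prod_add,
    Measure.map_prod_map _ _ (dkI_meas _) (dkI_meas _),
    Measure.map_prod_map _ _ (dkI_meas _) (dkI_meas _),
    Measure.map_prod_map _ _ (dkI_meas _) (dkI_meas _),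
    Measure.map_prod_map _ _ (dkI_meas _) (dkI_meas _)]

theorem dk_pm (a b : Bool) : Measurable (Prod.map (dkI a) (dkI b)) :=
  (dkI_meas a).prodMap (dkI_meas b)

theorem dk_integrable (ν : Measure ℂ) [IsFiniteMeasure ν] {f : (ℂ × Bool) × (ℂ × Bool) → ℝ}
    (hf : Measurable f)
    (h : ∀ a b, Integrable (fun p : ℂ × ℂ => f ((p.1, a), (p.2, b))) (ν.prod ν)) :
    Integrable f ((dkM ν).prod (dkM ν)) := by
  have h1 : ∀ a b, Integrable f ((ν.prod ν).map (Prod.map (dkI a) (dkI b))) := by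
    intro a b
    rw [integrable_map_measure hf.aestronglyMeasurable (dk_pm a b).aemeasurable]
    exact h a b
  rw [dkM_prod]
  exact ((h1 true true).add_measure (h1 true false)).add_measure
    ((h1 false true).add_measure (h1 false false))

theorem dk_integral (ν : Measure ℂ) [IsFiniteMeasure ν] {f : (ℂ × Bool) × (ℂ × Bool) → ℝ}
    (hf : Measurable f)
    (h : ∀ a b, Integrable (fun p : ℂ × ℂ => f ((p.1, a), (p.2, b))) (ν.prod ν)) :
    ∫ p, f p ∂((dkM ν).prod (dkM ν)) =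
      ∫ p : ℂ × ℂ, (f ((p.1, true), (p.2, true)) + f ((p.1, true), (p.2, false)) +
        (f ((p.1, false), (p.2, true)) + f ((p.1, false), (p.2, false)))) ∂(ν.prod ν) := by
  have h1 : ∀ a b, Integrable f ((ν.prod ν).map (Prod.map (dkI a) (dkI b))) := by
    intro a b
    rw [integrable_map_measure hf.aestronglyMeasurable (dk_pm a b).aemeasurable]
    exact h a b
  have h2 : ∀ a b, ∫ p, f p ∂((ν.prod ν).map (Prod.map (dkI a) (dkI b))) =
      ∫ p : ℂ × ℂ, f ((p.1, a), (p.2, b)) ∂(ν.prod ν) := by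
    intro a b
    rw [integral_map (dk_pm a b).aemeasurable hf.aestronglyMeasurable]
    rfl
  have h3 := integral_add ((h true true).add (h true false)) ((h false true).add (h false false))
  have h4 := integral_add (h true true) (h true false)
  have h5 := integral_add (h false true) (h false false)
  simp only [Pi.add_apply] at h3
  rw [dkM_prod, integral_add_measure ((h1 true true).add_measure (h1 true false))
    ((h1 false true).add_measure (h1 false false)),
    integral_add_measure (h1 true true) (h1 true false),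
    integral_add_measure (h1 false true) (h1 false false), h2, h2, h2, h2, h3, h4, h5]

theorem dk_ae (ν : Measure ℂ) [IsFiniteMeasure ν] {P : (ℂ × Bool) × (ℂ × Bool) → Prop}
    (hP : MeasurableSet {p | P p})
    (h : ∀ a b, ∀ᵐ p : ℂ × ℂ ∂(ν.prod ν), P ((p.1, a), (p.2, b))) :
    ∀ᵐ p ∂((dkM ν).prod (dkM ν)), P p := by
  have h1 : ∀ a b, ∀ᵐ p ∂((ν.prod ν).map (Prod.map (dkI a) (dkI b))), P p := by
    intro a b
    rw [ae_map_iff (dk_pm a b).aemeasurable hP]
    exact h a b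
  rw [dkM_prod, ae_add_measure_iff, ae_add_measure_iff, ae_add_measure_iff]
  exact ⟨⟨h1 _ _, h1 _ _⟩, ⟨h1 _ _, h1 _ _⟩⟩

/-- a point and its reflection -/
noncomputable def dkφ (K : Set ℂ) (c₀ : ℂ) (R : ℝ) (x : ℂ × Bool) : ℂ :=
  bif x.2 then K.indicator (fun z => z - c₀) x.1
  else K.indicator (fun z => (R : ℂ) ^ 2 / (starRingEnd ℂ) (z - c₀)) x.1

theorem dkφ_meas {K : Set ℂ} (hK : MeasurableSet K) (c₀ : ℂ) (R : ℝ) :
    Measurable (dkφ K c₀ R) := by
  refine measurable_from_prod_countable_left fun b => ?_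
  cases b
  · unfold dkφ
    simp only [cond_false]
    refine Measurable.indicator ?_ hK
    refine Measurable.div measurable_const ?_
    exact Complex.continuous_conj.measurable.comp (measurable_id.sub_const c₀)
  · unfold dkφ
    simp only [cond_true]
    exact (measurable_id.sub_const c₀).indicator hK


/-- the signed weight -/
def dkw (σ : ℂ → ℝ) (x : ℂ × Bool) : ℝ := bif x.2 then σ x.1 else - σ x.1

theorem dkw_meas {σ : ℂ → ℝ} (hσ : Measurable σ) : Measurable (dkw σ) := by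
  refine measurable_from_prod_countable_left fun b => ?_
  cases b
  · unfold dkw
    simp only [cond_false]
    exact hσ.neg
  · unfold dkw
    simp only [cond_true]
    exact hσ

/-- the interaction with the reflected point -/
noncomputable def dkE (c₀ : ℂ) (R : ℝ) (p : ℂ × ℂ) : ℝ :=
  Real.log ‖1 - (p.1 - c₀) * (starRingEnd ℂ) (p.2 - c₀) / (R : ℂ) ^ 2‖

section

variable {K : Set ℂ} {c₀ : ℂ} {R : ℝ}

theorem dk_tt {z w : ℂ} (hz : z ∈ K) (hw : w ∈ K) :
    Real.log ‖dkφ K c₀ R (z, true) - dkφ K c₀ R (w, true)‖ = Real.log ‖z - w‖ := by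
  unfold dkφ
  simp only [cond_true, indicator_of_mem hz, indicator_of_mem hw]
  congr 2
  ring

theorem dk_one_sub_ne {z w : ℂ} (hR : 0 < R) (hz : ‖z - c₀‖ < R) (hw : ‖w - c₀‖ < R) :
    1 - (z - c₀) * (starRingEnd ℂ) (w - c₀) / (R : ℂ) ^ 2 ≠ 0 := by
  intro h
  have h1 : (z - c₀) * (starRingEnd ℂ) (w - c₀) / (R : ℂ) ^ 2 = 1 := (sub_eq_zero.1 h).symm
  have h2 : ‖(z - c₀) * (starRingEnd ℂ) (w - c₀) / (R : ℂ) ^ 2‖ = 1 := by rw [h1, norm_one]
  rw [norm_div, norm_mul, RCLike.norm_conj, norm_pow, Complex.norm_real, Real.norm_eq_abs,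
    abs_of_pos hR, div_eq_one_iff_eq (by positivity)] at h2
  have := norm_nonneg (z - c₀)
  have := norm_nonneg (w - c₀)
  nlinarith

theorem dk_tf {z w : ℂ} (hz : z ∈ K) (hw : w ∈ K) (hR : 0 < R) (hzR : ‖z - c₀‖ < R)
    (hw0 : 0 < ‖w - c₀‖) (hwR : ‖w - c₀‖ < R) :
    Real.log ‖dkφ K c₀ R (z, true) - dkφ K c₀ R (w, false)‖ =
      2 * Real.log R + dkE c₀ R (z, w) - Real.log ‖w - c₀‖ := by
  have hne := dk_one_sub_ne hR hzR hwR
  unfold dkφ dkE
  simp only [cond_true, cond_false, indicator_of_mem hz, indicator_of_mem hw]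
  have hb : (starRingEnd ℂ) (w - c₀) ≠ 0 := by
    intro h
    rw [map_eq_zero] at h
    rw [h, norm_zero] at hw0
    exact lt_irrefl _ hw0
  have hRc : (R : ℂ) ≠ 0 := by exact_mod_cast hR.ne'
  have e : z - c₀ - (R : ℂ) ^ 2 / (starRingEnd ℂ) (w - c₀) =
      -((R : ℂ) ^ 2 / (starRingEnd ℂ) (w - c₀) *
        (1 - (z - c₀) * (starRingEnd ℂ) (w - c₀) / (R : ℂ) ^ 2)) := by
    field_simp
    ring
  rw [e, norm_neg, norm_mul, norm_div, RCLike.norm_conj, norm_pow, Complex.norm_real,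
    Real.norm_eq_abs, abs_of_pos hR, Real.log_mul (by positivity) (norm_ne_zero_iff.2 hne),
    Real.log_div (by positivity) hw0.ne', Real.log_pow]
  push_cast
  ring

theorem dk_ft {z w : ℂ} (hz : z ∈ K) (hw : w ∈ K) (hR : 0 < R) (hzR : ‖z - c₀‖ < R)
    (hz0 : 0 < ‖z - c₀‖) (hwR : ‖w - c₀‖ < R) :
    Real.log ‖dkφ K c₀ R (z, false) - dkφ K c₀ R (w, true)‖ =
      2 * Real.log R + dkE c₀ R (z, w) - Real.log ‖z - c₀‖ := by
  have hne := dk_one_sub_ne hR hzR hwR
  unfold dkφ dkE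
  simp only [cond_true, cond_false, indicator_of_mem hz, indicator_of_mem hw]
  have ha : (starRingEnd ℂ) (z - c₀) ≠ 0 := by
    intro h
    rw [map_eq_zero] at h
    rw [h, norm_zero] at hz0
    exact lt_irrefl _ hz0
  have hRc : (R : ℂ) ≠ 0 := by exact_mod_cast hR.ne'
  have e : (R : ℂ) ^ 2 / (starRingEnd ℂ) (z - c₀) - (w - c₀) =
      ((R : ℂ) ^ 2 / (starRingEnd ℂ) (z - c₀) * (starRingEnd ℂ)
        (1 - (z - c₀) * (starRingEnd ℂ) (w - c₀) / (R : ℂ) ^ 2)) := by
    have e3 : (starRingEnd ℂ) (1 - (z - c₀) * (starRingEnd ℂ) (w - c₀) / (R : ℂ) ^ 2) =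
        1 - (starRingEnd ℂ) (z - c₀) * (w - c₀) / (R : ℂ) ^ 2 := by
      rw [map_sub (starRingEnd ℂ) 1, map_one, map_div₀, map_mul, Complex.conj_conj, map_pow,
        Complex.conj_ofReal]
    rw [e3]
    field_simp
  rw [e, norm_mul, norm_div, RCLike.norm_conj, RCLike.norm_conj, norm_pow, Complex.norm_real,
    Real.norm_eq_abs, abs_of_pos hR, Real.log_mul (by positivity) (norm_ne_zero_iff.2 hne),
    Real.log_div (by positivity) hz0.ne', Real.log_pow]
  push_cast
  ring

theorem dk_ff {z w : ℂ} (hz : z ∈ K) (hw : w ∈ K) (hR : 0 < R) (hz0 : 0 < ‖z - c₀‖)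
    (hw0 : 0 < ‖w - c₀‖) (hzw : z ≠ w) :
    Real.log ‖dkφ K c₀ R (z, false) - dkφ K c₀ R (w, false)‖ =
      2 * Real.log R + Real.log ‖z - w‖ - Real.log ‖z - c₀‖ - Real.log ‖w - c₀‖ := by
  unfold dkφ
  simp only [cond_false, indicator_of_mem hz, indicator_of_mem hw]
  have ha : (starRingEnd ℂ) (z - c₀) ≠ 0 := by
    intro h
    rw [map_eq_zero] at h
    rw [h, norm_zero] at hz0
    exact lt_irrefl _ hz0
  have hb : (starRingEnd ℂ) (w - c₀) ≠ 0 := by
    intro h
    rw [map_eq_zero] at h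
    rw [h, norm_zero] at hw0
    exact lt_irrefl _ hw0
  have hd : 0 < ‖z - w‖ := norm_pos_iff.2 (sub_ne_zero.2 hzw)
  have e : (R : ℂ) ^ 2 / (starRingEnd ℂ) (z - c₀) - (R : ℂ) ^ 2 / (starRingEnd ℂ) (w - c₀) =
      -((R : ℂ) ^ 2 * (starRingEnd ℂ) (z - w) /
        ((starRingEnd ℂ) (z - c₀) * (starRingEnd ℂ) (w - c₀))) := by
    have e2 : (starRingEnd ℂ) (z - w) = (starRingEnd ℂ) (z - c₀) - (starRingEnd ℂ) (w - c₀) := by
      rw [← map_sub]
      congr 1
      ring
    rw [e2]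
    field_simp
    ring
  rw [e, norm_neg, norm_div, norm_mul, norm_mul, RCLike.norm_conj, RCLike.norm_conj,
    RCLike.norm_conj, norm_pow, Complex.norm_real, Real.norm_eq_abs, abs_of_pos hR,
    Real.log_div (by positivity) (by positivity), Real.log_mul (by positivity) hd.ne',
    Real.log_mul hz0.ne' hw0.ne', Real.log_pow]
  push_cast
  ring


theorem dk_main (hKc : IsCompact K) (hs : ∀ z ∈ K, 0 < ‖z - c₀‖ ∧ ‖z - c₀‖ < R)
    (hR : 0 < R) {σ : ℂ → ℝ} (hσ : Continuous σ) {B : ℝ} (hB : ∀ z, |σ z| ≤ B)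
    (hEi : Integrable (dkE c₀ R) ((volume.restrict K).prod (volume.restrict K)))
    (hli : Integrable (fun z => Real.log ‖z - c₀‖) (volume.restrict K)) :
    ∫ p : ℂ × ℂ, (2 * Real.log ‖p.1 - p.2‖ - 2 * dkE c₀ R p - 2 * Real.log R) * (σ p.1 * σ p.2)
      ∂((volume.restrict K).prod (volume.restrict K)) ≤ 0 := by
  have hKm : MeasurableSet K := hKc.measurableSet
  have : IsFiniteMeasure (volume.restrict K) := ⟨by
    rw [Measure.restrict_apply_univ]
    exact hKc.measure_lt_top⟩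
  set ν : Measure ℂ := volume.restrict K with hν
  have hA := dk_log_int hKc
  rw [← hν] at hA
  have hmem : ∀ᵐ p : ℂ × ℂ ∂(ν.prod ν), p ∈ K ×ˢ K := by
    rw [hν, Measure.prod_restrict]
    exact ae_restrict_mem (hKm.prod hKm)
  have hne : ∀ᵐ p : ℂ × ℂ ∂(ν.prod ν), p.1 ≠ p.2 := dk_ne
  have hl1 : Integrable (fun p : ℂ × ℂ => Real.log ‖p.1 - c₀‖) (ν.prod ν) :=
    hli.comp_fst ν
  have hl2 : Integrable (fun p : ℂ × ℂ => Real.log ‖p.2 - c₀‖) (ν.prod ν) :=
    hli.comp_snd ν
  have hφ := dkφ_meas hKm c₀ R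
  have hLm : Measurable (fun p : (ℂ × Bool) × (ℂ × Bool) =>
      Real.log ‖dkφ K c₀ R p.1 - dkφ K c₀ R p.2‖) :=
    Real.measurable_log.comp ((hφ.comp measurable_fst).sub (hφ.comp measurable_snd)).norm
  have hLi : ∀ a b, Integrable (fun p : ℂ × ℂ =>
      Real.log ‖dkφ K c₀ R (p.1, a) - dkφ K c₀ R (p.2, b)‖) (ν.prod ν) := by
    intro a b
    cases a <;> cases b
    · refine ((((integrable_const (2 * Real.log R)).add hA).sub hl1).sub hl2).congr ?_
      filter_upwards [hmem, hne] with p hp hpne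
      simp only [Pi.add_apply, Pi.sub_apply]
      exact (dk_ff hp.1 hp.2 hR (hs _ hp.1).1 (hs _ hp.2).1 hpne).symm
    · refine (((integrable_const (2 * Real.log R)).add hEi).sub hl1).congr ?_
      filter_upwards [hmem] with p hp
      simp only [Pi.add_apply, Pi.sub_apply]
      exact (dk_ft hp.1 hp.2 hR (hs _ hp.1).2 (hs _ hp.1).1 (hs _ hp.2).2).symm
    · refine (((integrable_const (2 * Real.log R)).add hEi).sub hl2).congr ?_
      filter_upwards [hmem] with p hp
      simp only [Pi.add_apply, Pi.sub_apply]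
      exact (dk_tf hp.1 hp.2 hR (hs _ hp.1).2 (hs _ hp.2).1 (hs _ hp.2).2).symm
    · refine hA.congr ?_
      filter_upwards [hmem] with p hp
      exact (dk_tt hp.1 hp.2).symm
  have hσm : Measurable σ := hσ.measurable
  have hwm := dkw_meas hσm
  have hφb : ∃ M : ℝ, ∀ x, ‖dkφ K c₀ R x‖ ≤ M := by
    have h1 : ContinuousOn (fun z : ℂ => (R : ℂ) ^ 2 / (starRingEnd ℂ) (z - c₀)) K := by
      refine ContinuousOn.div continuousOn_const ?_ ?_
      · exact (Complex.continuous_conj.comp (continuous_id.sub continuous_const)).continuousOn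
      · intro z hz h
        have h2 := (hs z hz).1
        rw [map_eq_zero] at h
        rw [h, norm_zero] at h2
        exact lt_irrefl _ h2
    obtain ⟨M1, hM1⟩ := hKc.exists_bound_of_continuousOn h1
    refine ⟨max R (max M1 0), fun x => ?_⟩
    obtain ⟨z, b⟩ := x
    unfold dkφ
    by_cases hz : z ∈ K
    · cases b
      · simp only [cond_false, indicator_of_mem hz]
        exact (hM1 z hz).trans ((le_max_left _ _).trans (le_max_right _ _))
      · simp only [cond_true, indicator_of_mem hz]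
        exact (hs z hz).2.le.trans (le_max_left _ _)
    · cases b
      · simp only [cond_false, indicator_of_notMem hz, norm_zero]
        exact (le_max_right _ _).trans (le_max_right _ _)
      · simp only [cond_true, indicator_of_notMem hz, norm_zero]
        exact (le_max_right _ _).trans (le_max_right _ _)
  have hwb : ∃ M : ℝ, ∀ x, |dkw σ x| ≤ M := by
    refine ⟨B, fun x => ?_⟩
    obtain ⟨z, b⟩ := x
    unfold dkw
    cases b
    · simp only [cond_false, abs_neg]
      exact hB z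
    · simp only [cond_true]
      exact hB z
  have hσi : Integrable σ ν := by
    refine Integrable.of_bound hσm.aestronglyMeasurable B (Eventually.of_forall fun z => ?_)
    rw [Real.norm_eq_abs]
    exact hB z
  have h0 : ∫ x, dkw σ x ∂(dkM ν) = 0 := by
    have hi : ∀ b, Integrable (dkw σ) (ν.map (dkI b)) := by
      intro b
      rw [integrable_map_measure hwm.aestronglyMeasurable (dkI_meas b).aemeasurable]
      cases b
      · exact hσi.neg
      · exact hσi
    unfold dkM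
    rw [integral_add_measure (hi _) (hi _),
      integral_map (dkI_meas true).aemeasurable hwm.aestronglyMeasurable,
      integral_map (dkI_meas false).aemeasurable hwm.aestronglyMeasurable]
    have e1 : ∫ z, dkw σ (dkI true z) ∂ν = ∫ z, σ z ∂ν := rfl
    have e2 : ∫ z, dkw σ (dkI false z) ∂ν = ∫ z, - σ z ∂ν := rfl
    rw [e1, e2, integral_neg]
    ring
  have hneφ : ∀ᵐ p ∂((dkM ν).prod (dkM ν)), dkφ K c₀ R p.1 ≠ dkφ K c₀ R p.2 := by
    refine dk_ae ν ?_ ?_
    · exact (measurableSet_eq_fun (hφ.comp measurable_fst) (hφ.comp measurable_snd)).compl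
    · intro a b
      filter_upwards [hmem, hne] with p hp hpne
      have hz := hs _ hp.1
      have hw := hs _ hp.2
      have hRc : (R : ℂ) ≠ 0 := by exact_mod_cast hR.ne'
      have hca : (starRingEnd ℂ) (p.1 - c₀) ≠ 0 := by
        intro h
        rw [map_eq_zero] at h
        rw [h, norm_zero] at hz
        exact lt_irrefl _ hz.1
      have hcb : (starRingEnd ℂ) (p.2 - c₀) ≠ 0 := by
        intro h
        rw [map_eq_zero] at h
        rw [h, norm_zero] at hw
        exact lt_irrefl _ hw.1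
      cases a <;> cases b
      · unfold dkφ
        simp only [cond_false, indicator_of_mem hp.1, indicator_of_mem hp.2]
        intro h
        rw [div_eq_div_iff hca hcb] at h
        have h1 := mul_left_cancel₀ (pow_ne_zero 2 hRc) h
        have h2 : p.2 - c₀ = p.1 - c₀ := (starRingEnd ℂ).injective h1
        exact hpne (sub_left_injective h2).symm
      · unfold dkφ
        simp only [cond_false, cond_true, indicator_of_mem hp.1, indicator_of_mem hp.2]
        intro h
        have h1 : ‖(R : ℂ) ^ 2 / (starRingEnd ℂ) (p.1 - c₀)‖ = ‖p.2 - c₀‖ := by rw [h]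
        rw [norm_div, RCLike.norm_conj, norm_pow, Complex.norm_real, Real.norm_eq_abs,
          abs_of_pos hR, div_eq_iff hz.1.ne'] at h1
        nlinarith [hz.1, hz.2, hw.1, hw.2]
      · unfold dkφ
        simp only [cond_false, cond_true, indicator_of_mem hp.1, indicator_of_mem hp.2]
        intro h
        have h1 : ‖(R : ℂ) ^ 2 / (starRingEnd ℂ) (p.2 - c₀)‖ = ‖p.1 - c₀‖ := by rw [← h]
        rw [norm_div, RCLike.norm_conj, norm_pow, Complex.norm_real, Real.norm_eq_abs,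
          abs_of_pos hR, div_eq_iff hw.1.ne'] at h1
        nlinarith [hz.1, hz.2, hw.1, hw.2]
      · unfold dkφ
        simp only [cond_true, indicator_of_mem hp.1, indicator_of_mem hp.2]
        intro h
        exact hpne (sub_left_injective h)
  have hint := dk_integrable ν hLm hLi
  have key := log_psd (dkM ν) hφ hφb hwm hwb h0 hint hneφ
  have hfm : Measurable (fun p : (ℂ × Bool) × (ℂ × Bool) =>
      Real.log ‖dkφ K c₀ R p.1 - dkφ K c₀ R p.2‖ * (dkw σ p.1 * dkw σ p.2)) :=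
    hLm.mul ((hwm.comp measurable_fst).mul (hwm.comp measurable_snd))
  have hfi : ∀ a b, Integrable (fun p : ℂ × ℂ =>
      Real.log ‖dkφ K c₀ R (p.1, a) - dkφ K c₀ R (p.2, b)‖ *
        (dkw σ (p.1, a) * dkw σ (p.2, b))) (ν.prod ν) := by
    intro a b
    obtain ⟨M, hM⟩ := hwb
    refine (hLi a b).mul_bdd (c := M * M) ?_ (Eventually.of_forall fun p => ?_)
    · exact ((hwm.comp (measurable_fst.prodMk measurable_const)).mul
        (hwm.comp (measurable_snd.prodMk measurable_const))).aestronglyMeasurable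
    · rw [norm_mul, Real.norm_eq_abs, Real.norm_eq_abs]
      exact mul_le_mul (hM _) (hM _) (abs_nonneg _) ((abs_nonneg _).trans (hM (p.1, a)))
  rw [dk_integral ν hfm hfi] at key
  refine le_trans (le_of_eq (integral_congr_ae ?_)) key
  filter_upwards [hmem, hne] with p hp hpne
  have e1 := dk_tt (c₀ := c₀) (R := R) hp.1 hp.2
  have e2 := dk_tf hp.1 hp.2 hR (hs _ hp.1).2 (hs _ hp.2).1 (hs _ hp.2).2
  have e3 := dk_ft hp.1 hp.2 hR (hs _ hp.1).2 (hs _ hp.1).1 (hs _ hp.2).2
  have e4 := dk_ff hp.1 hp.2 hR (hs _ hp.1).1 (hs _ hp.2).1 hpne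
  simp only [e1, e2, e3, e4]
  unfold dkw
  simp only [cond_true, cond_false]
  ring

end

theorem dk_taylor {ξ : ℂ} {r : ℝ} (hξ : ‖ξ‖ ≤ r) (hr : r < 1) (N : ℕ) :
    |(- Real.log ‖1 - ξ‖) - ∑ k ∈ Finset.range N, (ξ ^ (k + 1)).re / (k + 1)| ≤
      r ^ (N + 1) * (1 - r)⁻¹ := by
  have h1 : ‖-ξ‖ < 1 := by
    rw [norm_neg]
    linarith
  have h2 := Complex.norm_log_sub_logTaylor_le N h1
  have h3 : Complex.logTaylor (N + 1) (-ξ) = -∑ k ∈ Finset.range N, ξ ^ (k + 1) / (k + 1) := by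
    unfold Complex.logTaylor
    rw [Finset.sum_range_succ', ← Finset.sum_neg_distrib]
    simp only [Nat.cast_zero, div_zero, add_zero]
    refine Finset.sum_congr rfl fun k _ => ?_
    have h4 : (-1 : ℂ) ^ (k + 1 + 1) * (-ξ) ^ (k + 1) = -(ξ ^ (k + 1)) := by
      rw [neg_pow ξ, ← mul_assoc, ← pow_add]
      have : (-1 : ℂ) ^ (k + 1 + 1 + (k + 1)) = -1 := by
        have : k + 1 + 1 + (k + 1) = 2 * (k + 1) + 1 := by ring
        rw [this, pow_succ, pow_mul]
        simp
      rw [this]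
      ring
    rw [h4]
    push_cast
    ring
  rw [h3] at h2
  have h5 := Complex.abs_re_le_norm (Complex.log (1 + -ξ) - -∑ k ∈ Finset.range N,
    ξ ^ (k + 1) / (k + 1))
  rw [Complex.sub_re, Complex.log_re, Complex.neg_re, Complex.re_sum, ← sub_eq_add_neg] at h5
  have h6 : ∀ k ∈ Finset.range N, (ξ ^ (k + 1) / ((k : ℂ) + 1)).re =
      (ξ ^ (k + 1)).re / ((k : ℝ) + 1) := by
    intro k _
    have : (k : ℂ) + 1 = (((k : ℝ) + 1 : ℝ) : ℂ) := by push_cast; ring
    rw [this, Complex.div_ofReal_re]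
  rw [Finset.sum_congr rfl h6] at h5
  rw [norm_neg] at h2
  have h7 : ‖ξ‖ ^ (N + 1) * (1 - ‖ξ‖)⁻¹ / (N + 1) ≤ r ^ (N + 1) * (1 - r)⁻¹ := by
    have hξ0 := norm_nonneg ξ
    have a1 : ‖ξ‖ ^ (N + 1) ≤ r ^ (N + 1) := pow_le_pow_left₀ hξ0 hξ _
    have a2 : (1 - ‖ξ‖)⁻¹ ≤ (1 - r)⁻¹ := inv_anti₀ (by linarith) (by linarith)
    have a3 : 0 ≤ (1 - ‖ξ‖)⁻¹ := inv_nonneg.2 (by linarith)
    have a4 : ‖ξ‖ ^ (N + 1) * (1 - ‖ξ‖)⁻¹ ≤ r ^ (N + 1) * (1 - r)⁻¹ :=
      mul_le_mul a1 a2 a3 (le_trans (by positivity) a1)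
    refine le_trans (div_le_self (by positivity) ?_) a4
    have : (0 : ℝ) ≤ N := Nat.cast_nonneg _
    linarith
  have h8 : |(- Real.log ‖1 - ξ‖) - ∑ k ∈ Finset.range N, (ξ ^ (k + 1)).re / (k + 1)| =
      |Real.log ‖1 - ξ‖ - -∑ k ∈ Finset.range N, (ξ ^ (k + 1)).re / ((k : ℝ) + 1)| := by
    rw [← abs_neg]
    congr 1
    ring
  rw [h8]
  exact h5.trans (h2.trans h7)

section

variable {K : Set ℂ} {c₀ : ℂ} {R : ℝ}

theorem dk_series (hKc : IsCompact K) {ρ : ℝ} (hρ : 0 ≤ ρ) (hρR : ρ < R)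
    (hs : ∀ z ∈ K, ‖z - c₀‖ ≤ ρ) {σ : ℂ → ℝ} (hσ : Continuous σ) (n : ℕ)
    (hEi : Integrable (fun p => dkE c₀ R p * (σ p.1 * σ p.2))
      ((volume.restrict K).prod (volume.restrict K))) :
    ∑ k ∈ Finset.range n, ‖∫ z in K, (z - c₀) ^ (k + 1) * (σ z : ℂ)‖ ^ 2 /
        ((k + 1) * R ^ (2 * (k + 1))) ≤
      - ∫ p : ℂ × ℂ, dkE c₀ R p * (σ p.1 * σ p.2)
        ∂((volume.restrict K).prod (volume.restrict K)) := by
  have hKm : MeasurableSet K := hKc.measurableSet
  have hR : 0 < R := lt_of_le_of_lt hρ hρR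
  have hfin : IsFiniteMeasure (volume.restrict K) := ⟨by
    rw [Measure.restrict_apply_univ]
    exact hKc.measure_lt_top⟩
  set ν : Measure ℂ := volume.restrict K with hν
  have hmem : ∀ᵐ p : ℂ × ℂ ∂(ν.prod ν), p ∈ K ×ˢ K := by
    rw [hν, Measure.prod_restrict]
    exact ae_restrict_mem (hKm.prod hKm)
  set r : ℝ := ρ ^ 2 / R ^ 2 with hr
  have hr1 : r < 1 := by
    rw [hr, div_lt_one (by positivity)]
    exact pow_lt_pow_left₀ hρR hρ (by norm_num)
  have hr0 : 0 ≤ r := by positivity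
  set ξ : ℂ × ℂ → ℂ := fun p => (p.1 - c₀) * (starRingEnd ℂ) (p.2 - c₀) / (R : ℂ) ^ 2 with hξ
  have hξc : Continuous ξ := by
    rw [hξ]
    refine Continuous.div_const ?_ _
    exact (continuous_fst.sub continuous_const).mul
      (Complex.continuous_conj.comp (continuous_snd.sub continuous_const))
  have hξr : ∀ p ∈ K ×ˢ K, ‖ξ p‖ ≤ r := by
    intro p hp
    rw [hξ]
    simp only
    rw [norm_div, norm_mul, RCLike.norm_conj, norm_pow, Complex.norm_real, Real.norm_eq_abs,
      abs_of_pos hR, hr, sq ρ]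
    have h1 := hs _ hp.1
    have h2 := hs _ hp.2
    have h3 : ‖p.1 - c₀‖ * ‖p.2 - c₀‖ ≤ ρ * ρ := mul_le_mul h1 h2 (norm_nonneg _) hρ
    exact div_le_div_of_nonneg_right h3 (by positivity)
  have hci : ∀ f : ℂ × ℂ → ℝ, Continuous f → Integrable f (ν.prod ν) := by
    intro f hf
    rw [hν, Measure.prod_restrict]
    exact (hf.continuousOn.integrableOn_compact (hKc.prod hKc))
  set m : ℕ → ℂ := fun k => ∫ z in K, (z - c₀) ^ (k + 1) * (σ z : ℂ) with hm
  set T : ℕ → ℝ := fun N => ∑ k ∈ Finset.range N, ‖m k‖ ^ 2 / ((k + 1) * R ^ (2 * (k + 1))) with hT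
  have hTm : Monotone T := by
    refine monotone_nat_of_le_succ fun N => ?_
    rw [hT]
    simp only
    rw [Finset.sum_range_succ]
    have : 0 ≤ ‖m N‖ ^ 2 / (((N : ℝ) + 1) * R ^ (2 * (N + 1))) := by positivity
    linarith
  have hterm : ∀ k : ℕ, ∫ p : ℂ × ℂ, (ξ p ^ (k + 1)).re / ((k : ℝ) + 1) * (σ p.1 * σ p.2)
      ∂(ν.prod ν) = ‖m k‖ ^ 2 / ((k + 1) * R ^ (2 * (k + 1))) := by
    intro k
    have h1 : ∀ p : ℂ × ℂ, (ξ p ^ (k + 1)).re / ((k : ℝ) + 1) * (σ p.1 * σ p.2) =
        ((((p.1 - c₀) ^ (k + 1) * (σ p.1 : ℂ)) *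
          (starRingEnd ℂ) ((p.2 - c₀) ^ (k + 1) * (σ p.2 : ℂ))).re) *
          (1 / (((k : ℝ) + 1) * R ^ (2 * (k + 1)))) := by
      intro p
      have h2 : ξ p ^ (k + 1) = ((p.1 - c₀) ^ (k + 1) * (starRingEnd ℂ) ((p.2 - c₀) ^ (k + 1))) /
          ((R ^ (2 * (k + 1)) : ℝ) : ℂ) := by
        rw [hξ]
        simp only
        rw [div_pow, mul_pow, map_pow, ← pow_mul]
        push_cast
        rfl
      have h3 : ((p.1 - c₀) ^ (k + 1) * (σ p.1 : ℂ)) *
          (starRingEnd ℂ) ((p.2 - c₀) ^ (k + 1) * (σ p.2 : ℂ)) =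
          ((p.1 - c₀) ^ (k + 1) * (starRingEnd ℂ) ((p.2 - c₀) ^ (k + 1))) *
            ((σ p.1 * σ p.2 : ℝ) : ℂ) := by
        rw [map_mul, Complex.conj_ofReal]
        push_cast
        ring
      rw [h2, Complex.div_ofReal_re, h3, Complex.re_mul_ofReal]
      field_simp
    have h4 : ∫ p : ℂ × ℂ, (((p.1 - c₀) ^ (k + 1) * (σ p.1 : ℂ)) *
          (starRingEnd ℂ) ((p.2 - c₀) ^ (k + 1) * (σ p.2 : ℂ))) ∂(ν.prod ν) =
        m k * (starRingEnd ℂ) (m k) := by
      rw [integral_prod_mul (μ := ν) (ν := ν) (fun z : ℂ => (z - c₀) ^ (k + 1) * (σ z : ℂ))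
        (fun w : ℂ => (starRingEnd ℂ) ((w - c₀) ^ (k + 1) * (σ w : ℂ)))]
      rw [integral_conj]
    have h5 : Integrable (fun p : ℂ × ℂ => (((p.1 - c₀) ^ (k + 1) * (σ p.1 : ℂ)) *
          (starRingEnd ℂ) ((p.2 - c₀) ^ (k + 1) * (σ p.2 : ℂ)))) (ν.prod ν) := by
      rw [hν, Measure.prod_restrict]
      refine Continuous.continuousOn ?_ |>.integrableOn_compact (hKc.prod hKc)
      have a1 : Continuous fun z : ℂ => (z - c₀) ^ (k + 1) * (σ z : ℂ) :=
        ((continuous_id.sub continuous_const).pow _).mul (Complex.continuous_ofReal.comp hσ)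
      exact (a1.comp continuous_fst).mul (Complex.continuous_conj.comp (a1.comp continuous_snd))
    simp only [h1]
    rw [integral_mul_const]
    have h6 : ∫ p : ℂ × ℂ, ((((p.1 - c₀) ^ (k + 1) * (σ p.1 : ℂ)) *
          (starRingEnd ℂ) ((p.2 - c₀) ^ (k + 1) * (σ p.2 : ℂ))).re) ∂(ν.prod ν) = ‖m k‖ ^ 2 := by
      have h7 := integral_re h5
      simp only [RCLike.re_to_complex] at h7
      rw [h7, h4, Complex.mul_conj, Complex.ofReal_re, Complex.normSq_eq_norm_sq]
    rw [h6]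
    field_simp
  have hσσ : Continuous fun p : ℂ × ℂ => σ p.1 * σ p.2 :=
    (hσ.comp continuous_fst).mul (hσ.comp continuous_snd)
  have hgc : ∀ k : ℕ, Continuous fun p : ℂ × ℂ =>
      (ξ p ^ (k + 1)).re / ((k : ℝ) + 1) * (σ p.1 * σ p.2) := by
    intro k
    exact ((Complex.continuous_re.comp (hξc.pow _)).div_const _).mul hσσ
  have hTeq : ∀ N, ∫ p : ℂ × ℂ, (∑ k ∈ Finset.range N, (ξ p ^ (k + 1)).re / ((k : ℝ) + 1)) *
      (σ p.1 * σ p.2) ∂(ν.prod ν) = T N := by
    intro N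
    simp only [Finset.sum_mul]
    rw [integral_finsetSum _ (fun k _ => hci _ (hgc k))]
    exact Finset.sum_congr rfl fun k _ => hterm k
  set C : ℝ := (1 - r)⁻¹ * ∫ p : ℂ × ℂ, |σ p.1 * σ p.2| ∂(ν.prod ν) with hC
  have herr : ∀ N, T N - C * r ^ (N + 1) ≤
      - ∫ p : ℂ × ℂ, dkE c₀ R p * (σ p.1 * σ p.2) ∂(ν.prod ν) := by
    intro N
    have hSi : Integrable (fun p : ℂ × ℂ => (∑ k ∈ Finset.range N,
        (ξ p ^ (k + 1)).re / ((k : ℝ) + 1)) * (σ p.1 * σ p.2)) (ν.prod ν) := by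
      refine hci _ (Continuous.mul ?_ hσσ)
      refine continuous_finsetSum _ fun k _ => ?_
      exact (Complex.continuous_re.comp (hξc.pow _)).div_const _
    have h1 : ∫ p : ℂ × ℂ, ((∑ k ∈ Finset.range N, (ξ p ^ (k + 1)).re / ((k : ℝ) + 1)) *
        (σ p.1 * σ p.2) - -(dkE c₀ R p * (σ p.1 * σ p.2))) ∂(ν.prod ν) ≤ C * r ^ (N + 1) := by
      have h2 : C * r ^ (N + 1) =
          ∫ p : ℂ × ℂ, (r ^ (N + 1) * (1 - r)⁻¹) * |σ p.1 * σ p.2| ∂(ν.prod ν) := by
        rw [integral_const_mul, hC]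
        ring
      rw [h2]
      refine integral_mono_ae (hSi.sub hEi.neg) ((hci _ hσσ.abs).const_mul _) ?_
      filter_upwards [hmem] with p hp
      have h3 := dk_taylor (hξr p hp) hr1 N
      have h4 : dkE c₀ R p = Real.log ‖1 - ξ p‖ := rfl
      rw [h4]
      have h5 : (∑ k ∈ Finset.range N, (ξ p ^ (k + 1)).re / ((k : ℝ) + 1)) * (σ p.1 * σ p.2) -
          -(Real.log ‖1 - ξ p‖ * (σ p.1 * σ p.2)) =
          -((- Real.log ‖1 - ξ p‖) - ∑ k ∈ Finset.range N, (ξ p ^ (k + 1)).re / (k + 1)) *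
            (σ p.1 * σ p.2) := by ring
      rw [h5]
      refine (le_abs_self _).trans ?_
      rw [abs_mul, abs_neg]
      exact mul_le_mul_of_nonneg_right h3 (abs_nonneg _)
    have h6 := integral_sub hSi hEi.neg
    simp only [Pi.neg_apply] at h6
    rw [h6, hTeq, integral_neg] at h1
    linarith
  have hlim : Tendsto (fun N : ℕ => T n - C * r ^ (N + 1)) atTop (𝓝 (T n - C * 0)) := by
    refine tendsto_const_nhds.sub (tendsto_const_nhds.mul ?_)
    exact (tendsto_pow_atTop_nhds_zero_of_lt_one hr0 hr1).comp (tendsto_add_atTop_nat 1)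
  rw [mul_zero, sub_zero] at hlim
  refine le_of_tendsto hlim ?_
  filter_upwards [eventually_ge_atTop n] with N hN
  have := hTm hN
  linarith [herr N]

end

/-- Lower bound for the logarithmic energy of a neutral density in a punctured disc by its
holomorphic moments. -/
theorem disk_moments {σ : ℂ → ℝ} (hσ : Continuous σ) (hc : HasCompactSupport σ) {c₀ : ℂ} {R : ℝ}
    (hs : ∀ z ∈ tsupport σ, 0 < ‖z - c₀‖ ∧ ‖z - c₀‖ < R) (h0 : ∫ z, σ z = 0) (n : ℕ) :
    ∑ k ∈ Finset.range n, ‖∫ z, (z - c₀) ^ (k + 1) * (σ z : ℂ)‖ ^ 2 /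
        ((k + 1) * R ^ (2 * (k + 1))) ≤
      - ∫ p : ℂ × ℂ, Real.log ‖p.1 - p.2‖ * (σ p.1 * σ p.2) := by
  rcases (tsupport σ).eq_empty_or_nonempty with hK | hK
  · have hσ0 : σ = 0 := by
      rwa [tsupport_eq_empty_iff] at hK
    subst hσ0
    simp
  set K : Set ℂ := tsupport σ with hKdef
  have hKc : IsCompact K := hc
  have hKm : MeasurableSet K := hKc.measurableSet
  have hout : ∀ z, z ∉ K → σ z = 0 := fun z hz => image_eq_zero_of_notMem_tsupport hz
  have hcont : ContinuousOn (fun z : ℂ => ‖z - c₀‖) K :=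
    (continuous_id.sub continuous_const).norm.continuousOn
  obtain ⟨z₁, hz₁, hmax⟩ := hKc.exists_isMaxOn hK hcont
  set ρ : ℝ := ‖z₁ - c₀‖ with hρ
  have hρ0 : 0 ≤ ρ := norm_nonneg _
  have hρR : ρ < R := (hs z₁ hz₁).2
  have hR : 0 < R := lt_of_le_of_lt hρ0 hρR
  have hsρ : ∀ z ∈ K, ‖z - c₀‖ ≤ ρ := fun z hz => hmax hz
  obtain ⟨B, hB⟩ := hc.exists_bound_of_continuous hσ
  have hB' : ∀ z, |σ z| ≤ B := fun z => by
    rw [← Real.norm_eq_abs]
    exact hB z
  have hfin : IsFiniteMeasure (volume.restrict K) := ⟨by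
    rw [Measure.restrict_apply_univ]
    exact hKc.measure_lt_top⟩
  have hEc : ContinuousOn (dkE c₀ R) (K ×ˢ K) := by
    have h1 : Continuous fun p : ℂ × ℂ =>
        1 - (p.1 - c₀) * (starRingEnd ℂ) (p.2 - c₀) / (R : ℂ) ^ 2 := by
      refine continuous_const.sub (Continuous.div_const ?_ _)
      exact (continuous_fst.sub continuous_const).mul
        (Complex.continuous_conj.comp (continuous_snd.sub continuous_const))
    refine ContinuousOn.log h1.norm.continuousOn ?_
    intro p hp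
    exact norm_ne_zero_iff.2 (dk_one_sub_ne hR (hs _ hp.1).2 (hs _ hp.2).2)
  have hσσ : Continuous fun p : ℂ × ℂ => σ p.1 * σ p.2 :=
    (hσ.comp continuous_fst).mul (hσ.comp continuous_snd)
  have hEi : Integrable (dkE c₀ R) ((volume.restrict K).prod (volume.restrict K)) := by
    rw [Measure.prod_restrict]
    exact hEc.integrableOn_compact (hKc.prod hKc)
  have hEi' : Integrable (fun p => dkE c₀ R p * (σ p.1 * σ p.2))
      ((volume.restrict K).prod (volume.restrict K)) := by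
    rw [Measure.prod_restrict]
    exact (hEc.mul hσσ.continuousOn).integrableOn_compact (hKc.prod hKc)
  have hli : Integrable (fun z => Real.log ‖z - c₀‖) (volume.restrict K) := by
    refine ContinuousOn.integrableOn_compact hKc ?_
    exact ContinuousOn.log hcont fun z hz => (hs z hz).1.ne'
  have hAi : Integrable (fun p : ℂ × ℂ => Real.log ‖p.1 - p.2‖ * (σ p.1 * σ p.2))
      ((volume.restrict K).prod (volume.restrict K)) := by
    refine (dk_log_int hKc).mul_bdd (c := B * B) hσσ.aestronglyMeasurable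
      (Eventually.of_forall fun p => ?_)
    rw [norm_mul, Real.norm_eq_abs, Real.norm_eq_abs]
    exact mul_le_mul (hB' _) (hB' _) (abs_nonneg _) ((abs_nonneg _).trans (hB' p.1))
  have hσσi : Integrable (fun p : ℂ × ℂ => σ p.1 * σ p.2)
      ((volume.restrict K).prod (volume.restrict K)) := by
    rw [Measure.prod_restrict]
    exact hσσ.continuousOn.integrableOn_compact (hKc.prod hKc)
  have key := dk_main hKc hs hR hσ hB' hEi hli
  have h1 : ∫ p : ℂ × ℂ, σ p.1 * σ p.2 ∂((volume.restrict K).prod (volume.restrict K)) = 0 := by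
    rw [integral_prod_mul (μ := volume.restrict K) (ν := volume.restrict K) σ σ]
    have h2 : ∫ z in K, σ z = ∫ z, σ z := setIntegral_eq_integral_of_forall_compl_eq_zero hout
    rw [h2, h0, zero_mul]
  have h2 : ∫ p : ℂ × ℂ, (2 * Real.log ‖p.1 - p.2‖ - 2 * dkE c₀ R p - 2 * Real.log R) *
      (σ p.1 * σ p.2) ∂((volume.restrict K).prod (volume.restrict K)) =
      2 * ∫ p : ℂ × ℂ, Real.log ‖p.1 - p.2‖ * (σ p.1 * σ p.2)
        ∂((volume.restrict K).prod (volume.restrict K)) -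
      2 * ∫ p : ℂ × ℂ, dkE c₀ R p * (σ p.1 * σ p.2)
        ∂((volume.restrict K).prod (volume.restrict K)) := by
    have h3 : ∀ p : ℂ × ℂ, (2 * Real.log ‖p.1 - p.2‖ - 2 * dkE c₀ R p - 2 * Real.log R) *
        (σ p.1 * σ p.2) = 2 * (Real.log ‖p.1 - p.2‖ * (σ p.1 * σ p.2)) -
          2 * (dkE c₀ R p * (σ p.1 * σ p.2)) - 2 * Real.log R * (σ p.1 * σ p.2) := by
      intro p
      ring
    have h7 := integral_sub ((hAi.const_mul 2).sub (hEi'.const_mul 2))
      (hσσi.const_mul (2 * Real.log R))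
    have h8 := integral_sub (hAi.const_mul 2) (hEi'.const_mul 2)
    simp only [Pi.sub_apply] at h7
    simp only [h3]
    rw [h7, h8, integral_const_mul, integral_const_mul, integral_const_mul, h1, mul_zero, sub_zero]
  have h4 := dk_series hKc hρ0 hρR hsρ hσ n hEi'
  have h5 : ∀ k : ℕ, ∫ z in K, (z - c₀) ^ (k + 1) * (σ z : ℂ) =
      ∫ z, (z - c₀) ^ (k + 1) * (σ z : ℂ) := by
    intro k
    refine setIntegral_eq_integral_of_forall_compl_eq_zero fun z hz => ?_
    rw [hout z hz]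
    simp
  simp only [h5] at h4
  have h6 : ∫ p : ℂ × ℂ, Real.log ‖p.1 - p.2‖ * (σ p.1 * σ p.2)
        ∂((volume.restrict K).prod (volume.restrict K)) =
      ∫ p : ℂ × ℂ, Real.log ‖p.1 - p.2‖ * (σ p.1 * σ p.2) := by
    rw [Measure.prod_restrict, ← Measure.volume_eq_prod]
    refine setIntegral_eq_integral_of_forall_compl_eq_zero fun p hp => ?_
    have : p.1 ∉ K ∨ p.2 ∉ K := by
      by_contra hcon
      push Not at hcon
      exact hp ⟨hcon.1, hcon.2⟩
    rcases this with h | h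
    · rw [hout _ h]
      simp
    · rw [hout _ h]
      simp
  rw [h2, h6] at key
  linarith

end Pool.Agent.Lib.MP_fa244c_mp
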