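import Pool.Agent.Lib.MP_fa244c_mp.GSmooth

set_option autoImplicit false

open MeasureTheory Filter Topology Set Metric
open scoped ContDiff ENNReal

namespace Pool.Agent.Lib.MP_fa244c_mp

variable {Λ : Set ℂ} {g : ℂ → ℂ → ℝ}

theorem vol_pos (hD : Dom Λ g) : 0 < volume.real Λ :=
  ENNReal.toReal_pos (hD.isOpen.measure_pos _ hD.ne).ne' hD.bdd.measure_lt_top.ne

theorem isProb_unif (hD : Dom Λ g) : IsProbabilityMeasure (unif Λ) := by
  refine ⟨?_⟩
  rw [unif, Measure.smul_apply, Measure.restrict_apply_univ, smul_eq_mul]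
  exact ENNReal.inv_mul_cancel (hD.isOpen.measure_pos _ hD.ne).ne' hD.bdd.measure_lt_top.ne

theorem isProb_PP (hD : Dom Λ g) (ι : Type) [Fintype ι] : IsProbabilityMeasure (PP Λ ι) := by
  have := isProb_unif hD
  unfold PP
  infer_instance

/-- `PP` as normalized Lebesgue measure. -/
theorem PP_eq (hD : Dom Λ g) (ι : Type) [Fintype ι] :
    PP Λ ι = ((volume Λ)⁻¹) ^ Fintype.card ι • volume.restrict (Set.pi univ fun _ => Λ) := by
  have := isProb_unif hD
  unfold PP
  refine Measure.pi_eq fun s hs => ?_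
  rw [Measure.smul_apply, Measure.restrict_apply (MeasurableSet.univ_pi hs), ← Set.pi_inter_distrib,
    volume_pi_pi, smul_eq_mul]
  have h1 : ∀ i, unif Λ (s i) = (volume Λ)⁻¹ * volume (s i ∩ Λ) := by
    intro i
    rw [unif, Measure.smul_apply, Measure.restrict_apply (hs i), smul_eq_mul]
  simp only [h1]
  rw [Finset.prod_mul_distrib, Finset.prod_const, Finset.card_univ]

theorem isOpen_Cfg (hD : Dom Λ g) (ι : Type) [Fintype ι] : IsOpen (Cfg Λ ι) := by
  have h : Cfg Λ ι = (⋂ i, {x : ι → ℂ | x i ∈ Λ}) ∩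
      ⋂ i : ι, ⋂ j : ι, {x : ι → ℂ | i ≠ j → x i ≠ x j} := by
    ext x
    simp only [Cfg, Set.mem_ofPred_eq, Set.mem_inter_iff, Set.mem_iInter]
    refine and_congr_right fun _ => ?_
    constructor
    · intro hinj i j hij h
      exact hij (hinj h)
    · intro h i j hij
      by_contra hne
      exact h i j hne hij
  rw [h]
  refine IsOpen.inter (isOpen_iInter_of_finite fun i => hD.isOpen.preimage (continuous_apply i))
    (isOpen_iInter_of_finite fun i => isOpen_iInter_of_finite fun j => ?_)
  by_cases hij : i = j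
  · have : {x : ι → ℂ | i ≠ j → x i ≠ x j} = Set.univ := by ext x; simp [hij]
    rw [this]
    exact isOpen_univ
  · have : {x : ι → ℂ | i ≠ j → x i ≠ x j} = {x | x i ≠ x j} := by ext x; simp [hij]
    rw [this]
    exact isOpen_ne_fun (continuous_apply i) (continuous_apply j)

theorem ae_Cfg (hD : Dom Λ g) (ι : Type) [Fintype ι] : ∀ᵐ x ∂(PP Λ ι), x ∈ Cfg Λ ι := by
  classical
  rw [PP_eq hD]
  refine Measure.ae_smul_measure ?_ _
  have h1 : ∀ᵐ x ∂(volume.restrict (Set.pi univ fun _ : ι => Λ)), ∀ i, x i ∈ Λ := by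
    filter_upwards [ae_restrict_mem (MeasurableSet.univ_pi fun _ : ι => hD.isOpen.measurableSet)]
      with x hx i
    exact hx i (Set.mem_univ i)
  have h2 : ∀ i j : ι, i ≠ j → ∀ᵐ x ∂(volume : Measure (ι → ℂ)), x i ≠ x j := by
    intro i j hij
    let S : Submodule ℝ (ι → ℂ) := LinearMap.ker
      ((LinearMap.proj i : (ι → ℂ) →ₗ[ℝ] ℂ) - (LinearMap.proj j : (ι → ℂ) →ₗ[ℝ] ℂ))
    have hS : S ≠ ⊤ := by
      intro htop
      have hmem : (Pi.single i (1 : ℂ) : ι → ℂ) ∈ S := by rw [htop]; exact Submodule.mem_top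
      simp [S, LinearMap.mem_ker, Ne.symm hij] at hmem
    have h3 := Measure.addHaar_submodule (volume : Measure (ι → ℂ)) S hS
    rw [ae_iff]
    have h4 : {a : ι → ℂ | ¬ a i ≠ a j} = (S : Set (ι → ℂ)) := by
      ext x
      simp [S, LinearMap.mem_ker, sub_eq_zero]
    rw [h4]
    exact h3
  have h3 : ∀ᵐ x ∂(volume.restrict (Set.pi univ fun _ : ι => Λ)), ∀ i j, i ≠ j → x i ≠ x j := by
    rw [ae_all_iff]
    intro i
    rw [ae_all_iff]
    intro j
    by_cases hij : i = j
    · simp [hij]
    · filter_upwards [ae_restrict_of_ae (h2 i j hij)] with x hx _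
      exact hx
  filter_upwards [h1, h3] with x hx hx'
  refine ⟨hx, fun i j h => ?_⟩
  by_contra hne
  exact hx' i j hne h

theorem measurableSet_Sep (hD : Dom Λ g) {ι : Type} [Fintype ι] (δ : ℝ) (i : ι) :
    MeasurableSet {x : ι → ℂ | Sep Λ δ x i} := by
  have h : {x : ι → ℂ | Sep Λ δ x i} = {x : ι → ℂ | δ ≤ infDist (x i) Λᶜ} ∩
      ⋂ j : ι, {x : ι → ℂ | j ≠ i → δ ≤ ‖x i - x j‖} := by
    ext x
    simp [Sep]
  rw [h]
  refine MeasurableSet.inter ?_ (MeasurableSet.iInter fun j => ?_)
  · exact (isClosed_le continuous_const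
      ((continuous_infDist_pt _).comp (continuous_apply i))).measurableSet
  · by_cases hij : j = i
    · have : {x : ι → ℂ | j ≠ i → δ ≤ ‖x i - x j‖} = Set.univ := by ext x; simp [hij]
      rw [this]
      exact MeasurableSet.univ
    · have : {x : ι → ℂ | j ≠ i → δ ≤ ‖x i - x j‖} = {x | δ ≤ ‖x i - x j‖} := by
        ext x; simp [hij]
      rw [this]
      exact (isClosed_le continuous_const
        ((continuous_apply i).sub (continuous_apply j)).norm).measurableSet

/-- A separated coordinate can be moved. -/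
theorem Sep.update_mem {ι : Type} [DecidableEq ι] {δ : ℝ} {x : ι → ℂ} {i : ι}
    (hx : x ∈ Cfg Λ ι) (h : Sep Λ δ x i) {z : ℂ} (hz : ‖z - x i‖ < δ) :
    Function.update x i z ∈ Cfg Λ ι := by
  have hzΛ : z ∈ Λ := by
    by_contra hcon
    have h1 : infDist (x i) Λᶜ ≤ dist (x i) z := infDist_le_dist_of_mem hcon
    have h2 := h.1
    rw [dist_comm, dist_eq_norm] at h1
    linarith
  have hne : ∀ j, j ≠ i → z ≠ x j := by
    intro j hj he
    have h2 := h.2 j hj
    rw [← he, norm_sub_rev] at h2
    linarith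
  refine ⟨?_, ?_⟩
  · intro j
    by_cases hj : j = i
    · subst hj; simpa using hzΛ
    · rw [Function.update_of_ne hj]; exact hx.1 j
  · intro a b hab
    by_cases ha : a = i
    · by_cases hb : b = i
      · rw [ha, hb]
      · subst ha
        rw [Function.update_self, Function.update_of_ne hb] at hab
        exact absurd hab (hne b hb)
    · by_cases hb : b = i
      · subst hb
        rw [Function.update_self, Function.update_of_ne ha] at hab
        exact absurd hab.symm (hne a ha)
      · rw [Function.update_of_ne ha, Function.update_of_ne hb] at hab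
        exact hx.2 hab

theorem energy_contDiffAt (hD : Dom Λ g) {ι : Type} [Fintype ι] (c : ι → ℝ) {x : ι → ℂ}
    (hx : x ∈ Cfg Λ ι) : ContDiffAt ℝ ∞ (energy g c) x := by
  have h : energy g c = fun x : ι → ℂ => 1 / 2 * ∑ i, ∑ j, c i * c j *
      (g (x i) (x j) - Real.log ‖x i - x j‖) := by
    funext x
    simp only [energy, Gst_eq]
  rw [h]
  refine contDiffAt_const.mul (ContDiffAt.sum fun i _ => ContDiffAt.sum fun j _ =>
    contDiffAt_const.mul (ContDiffAt.sub ?_ ?_))
  · have h1 := gg_contDiffAt hD (hx.1 i) (hx.1 j)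
    have h2 : ContDiffAt ℝ ∞ (fun x : ι → ℂ => (x i, x j)) x :=
      ((contDiff_apply ℝ ℂ i).prodMk (contDiff_apply ℝ ℂ j)).contDiffAt
    exact ContDiffAt.comp x h1 h2
  · by_cases hij : i = j
    · subst hij
      simp only [sub_self, norm_zero, Real.log_zero]
      exact contDiffAt_const
    · have h1 : x i - x j ≠ 0 := sub_ne_zero.2 fun h => hij (hx.2 h)
      have h2 : ContDiffAt ℝ ∞ (fun x : ι → ℂ => x i - x j) x :=
        ((contDiff_apply ℝ ℂ i).sub (contDiff_apply ℝ ℂ j)).contDiffAt
      exact (h2.norm ℝ h1).log (norm_ne_zero_iff.2 h1)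

theorem measurable_energy (hm : Measurable (Function.uncurry g)) {ι : Type} [Fintype ι]
    (c : ι → ℝ) : Measurable (energy g c) := by
  have h : energy g c = fun x : ι → ℂ => 1 / 2 * ∑ i, ∑ j, c i * c j *
      (g (x i) (x j) - Real.log ‖x i - x j‖) := by
    funext x
    simp only [energy, Gst_eq]
  rw [h]
  refine Measurable.const_mul (Finset.measurable_fun_sum _ fun i _ =>
    Finset.measurable_fun_sum _ fun j _ => Measurable.const_mul (Measurable.sub ?_ ?_) _) _
  · have h2 : Measurable (fun x : ι → ℂ => (x i, x j)) :=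
      (measurable_pi_apply i).prodMk (measurable_pi_apply j)
    exact hm.comp h2
  · exact Real.measurable_log.comp
      ((measurable_pi_apply i).sub (measurable_pi_apply j)).norm

theorem measurable_pD {ι : Type} [Fintype ι] [DecidableEq ι] (c : ι → ℝ) (i : ι) (v : ℂ) :
    Measurable (fun x => pD g c x i v) := by
  unfold pD
  exact measurable_fderiv_apply_const ℝ (energy g c) _

theorem measurable_norm_pD {ι : Type} [Fintype ι] [DecidableEq ι] (c : ι → ℝ) (i : ι) :
    Measurable (fun x => ‖pD g c x i‖) := by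
  have h1 : Measurable (fderiv ℝ (energy g c)) := measurable_fderiv ℝ _
  have h2 : Continuous (fun L : (ι → ℂ) →L[ℝ] ℝ =>
      L.comp (ContinuousLinearMap.single ℝ (fun _ : ι => ℂ) i)) :=
    ContinuousLinearMap.continuous
      (((ContinuousLinearMap.compL ℝ ℂ (ι → ℂ) ℝ).flip)
        (ContinuousLinearMap.single ℝ (fun _ : ι => ℂ) i))
  exact (continuous_norm.comp h2).measurable.comp h1

theorem measurableSet_Bad (hD : Dom Λ g) {ι : Type} [Fintype ι] [DecidableEq ι] (c : ι → ℝ)
    (δ ρ : ℝ) : MeasurableSet (Bad Λ g c δ ρ) := by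
  have h : Bad Λ g c δ ρ = Cfg Λ ι ∩
      ⋂ i : ι, ({x : ι → ℂ | Sep Λ δ x i}ᶜ ∪ {x | ‖pD g c x i‖ ≤ ρ}) := by
    ext x
    simp only [Bad, Set.mem_ofPred_eq, Set.mem_inter_iff, Set.mem_iInter, Set.mem_union,
      Set.mem_compl_iff]
    refine and_congr_right fun _ => forall_congr' fun i => ?_
    tauto
  rw [h]
  refine (isOpen_Cfg hD ι).measurableSet.inter (MeasurableSet.iInter fun i => ?_)
  exact (measurableSet_Sep hD δ i).compl.union
    (measurableSet_le (measurable_norm_pD c i) measurable_const)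

/-- Derivative of the energy as a function of the coordinates in `J`. -/
theorem fderiv_merge (hD : Dom Λ g) {ι : Type} [Fintype ι] [DecidableEq ι] (c : ι → ℝ)
    (J : Finset ι) {x : ι → ℂ} {y : J → ℂ} (h : merge J y x ∈ Cfg Λ ι) (v : J → ℂ) :
    fderiv ℝ (fun y' : J → ℂ => energy g c (merge J y' x)) y v =
      ∑ j : J, pD g c (merge J y x) j (v j) := by
  have h1 : HasFDerivAt (energy g c) (fderiv ℝ (energy g c) (merge J y x)) (merge J y x) :=
    ((energy_contDiffAt hD c h).differentiableAt (by simp)).hasFDerivAt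
  let L : (J → ℂ) →L[ℝ] (ι → ℂ) := ContinuousLinearMap.pi fun i =>
    if hi : i ∈ J then ContinuousLinearMap.proj (R := ℝ) (φ := fun _ : J => ℂ) ⟨i, hi⟩ else 0
  have h2 : HasFDerivAt (fun y' : J → ℂ => merge J y' x) L y := by
    rw [hasFDerivAt_pi']
    intro i
    by_cases hi : i ∈ J
    · have e1 : (fun y' : J → ℂ => merge J y' x i) = fun y' => y' ⟨i, hi⟩ := by
        funext y'; simp [merge, hi]
      have e2 : (ContinuousLinearMap.proj (R := ℝ) (φ := fun _ : ι => ℂ) i).comp L =
          ContinuousLinearMap.proj (R := ℝ) (φ := fun _ : J => ℂ) ⟨i, hi⟩ := by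
        ext w; simp [L, hi]
      rw [e1, e2]
      exact hasFDerivAt_apply _ _
    · have e1 : (fun y' : J → ℂ => merge J y' x i) = fun _ => x i := by
        funext y'; simp [merge, hi]
      have e2 : (ContinuousLinearMap.proj (R := ℝ) (φ := fun _ : ι => ℂ) i).comp L = 0 := by
        ext w; simp [L, hi]
      rw [e1, e2]
      exact hasFDerivAt_const _ _
  have h3 : HasFDerivAt (fun y' : J → ℂ => energy g c (merge J y' x))
      ((fderiv ℝ (energy g c) (merge J y x)).comp L) y :=
    HasFDerivAt.comp (g := energy g c) (f := fun y' : J → ℂ => merge J y' x) y h1 h2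
  rw [h3.fderiv]
  have h4 : L v = ∑ j : J, ContinuousLinearMap.single ℝ (fun _ : ι => ℂ) (j : ι) (v j) := by
    funext i
    rw [Finset.sum_apply]
    by_cases hi : i ∈ J
    · rw [Finset.sum_eq_single (⟨i, hi⟩ : J)]
      · simp [L, hi]
      · intro b _ hb
        have : (b : ι) ≠ i := fun h => hb (Subtype.ext h)
        simp [this.symm]
      · intro hn; exact absurd (Finset.mem_univ _) hn
    · rw [Finset.sum_eq_zero]
      · simp [L, hi]
      · intro b _
        have : (b : ι) ≠ i := fun h => hi (h ▸ b.2)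
        simp [this.symm]
  rw [ContinuousLinearMap.comp_apply, h4, map_sum]
  rfl

/-- Derivative along one coordinate. -/
theorem hasDerivAt_update (hD : Dom Λ g) {ι : Type} [Fintype ι] [DecidableEq ι] (c : ι → ℝ)
    {x : ι → ℂ} (i : ι) {z v : ℂ} (h : Function.update x i z ∈ Cfg Λ ι) :
    HasDerivAt (fun t : ℝ => energy g c (Function.update x i (z + t • v)))
      (pD g c (Function.update x i z) i v) 0 := by
  have h1 : HasFDerivAt (energy g c) (fderiv ℝ (energy g c) (Function.update x i z))
      (Function.update x i z) :=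
    ((energy_contDiffAt hD c h).differentiableAt (by simp)).hasFDerivAt
  have h2 : HasDerivAt (fun t : ℝ => Function.update x i (z + t • v))
      (ContinuousLinearMap.single ℝ (fun _ : ι => ℂ) i v) 0 := by
    rw [hasDerivAt_pi]
    intro j
    by_cases hj : j = i
    · subst hj
      simp only [Function.update_self, ContinuousLinearMap.single_apply, Pi.single_eq_same]
      have h3 : HasDerivAt (fun t : ℝ => t • v) ((1 : ℝ) • v) 0 :=
        (hasDerivAt_id (0 : ℝ)).smul_const v
      rw [one_smul] at h3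
      exact h3.const_add z
    · simp only [Function.update_of_ne hj, ContinuousLinearMap.single_apply,
        Pi.single_eq_of_ne hj]
      exact hasDerivAt_const _ _
  have h3 : Function.update x i (z + (0 : ℝ) • v) = Function.update x i z := by simp
  have h1' : HasFDerivAt (energy g c) (fderiv ℝ (energy g c) (Function.update x i z))
      (Function.update x i (z + (0 : ℝ) • v)) := by rw [h3]; exact h1
  exact HasFDerivAt.comp_hasDerivAt (0 : ℝ) h1' h2

end Pool.Agent.Lib.MP_fa244c_mp
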