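import Pool.Agent.Lib.MP_fa244c_mp.Pot

set_option autoImplicit false

open MeasureTheory Filter Topology Set Metric

namespace Pool.Agent.Lib.MP_fa244c_mp

namespace EnTendAux

theorem meas_Gst {g : ℂ → ℂ → ℝ} (hm : Measurable (Function.uncurry g)) :
    Measurable (fun p : ℂ × ℂ => Gst g p.1 p.2) := by
  have h : (fun p : ℂ × ℂ => Gst g p.1 p.2) =
      fun p : ℂ × ℂ => Function.uncurry g p - Real.log ‖p.1 - p.2‖ := by
    funext p
    rw [Gst_eq]
    rfl
  rw [h]
  exact hm.sub (Real.measurable_log.comp (measurable_fst.sub measurable_snd).norm)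

/-- The normalized indicator of `Λ`. -/
noncomputable def uL (Λ : Set ℂ) : ℂ → ℝ := fun x => (volume.real Λ)⁻¹ * Λ.indicator 1 x

theorem integrable_ind {Λ : Set ℂ} {g : ℂ → ℂ → ℝ} (hD : Dom Λ g) :
    Integrable (fun x : ℂ => Λ.indicator (1 : ℂ → ℝ) x) := by
  have h : Integrable (Λ.indicator (fun _ : ℂ => (1 : ℝ))) :=
    (integrable_indicator_iff hD.isOpen.measurableSet).2
      (integrableOn_const hD.bdd.measure_lt_top.ne)
  exact h

theorem integral_ind {Λ : Set ℂ} {g : ℂ → ℂ → ℝ} (hD : Dom Λ g) :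
    ∫ x : ℂ, Λ.indicator (1 : ℂ → ℝ) x = volume.real Λ := by
  rw [integral_indicator_one hD.isOpen.measurableSet]

theorem uL_nice {Λ : Set ℂ} {g : ℂ → ℂ → ℝ} (hD : Dom Λ g) : Nice Λ (uL Λ) where
  meas := (measurable_const.indicator hD.isOpen.measurableSet).const_mul _
  nonneg := fun x => mul_nonneg (inv_nonneg.2 measureReal_nonneg)
    (Set.indicator_nonneg (fun _ _ => zero_le_one) x)
  supp := fun x hx => by simp [uL, hx]
  int := by
    unfold uL
    rw [integral_const_mul, integral_ind hD]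
    exact inv_mul_cancel₀ (vol_pos hD).ne'
  bdd := ⟨(volume.real Λ)⁻¹, fun x => by
    unfold uL
    by_cases hx : x ∈ Λ
    · simp [hx]
    · simp [hx]⟩

theorem uL_dens {Λ : Set ℂ} {g : ℂ → ℂ → ℝ} (hD : Dom Λ g) : IsDens Λ (uL Λ) :=
  Nice.isDens hD (le_refl _) (uL_nice hD)

theorem ind_eq {Λ : Set ℂ} {g : ℂ → ℂ → ℝ} (hD : Dom Λ g) (x : ℂ) :
    Λ.indicator (1 : ℂ → ℝ) x = volume.real Λ * uL Λ x := by
  unfold uL
  rw [← mul_assoc, mul_inv_cancel₀ (vol_pos hD).ne', one_mul]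

/-- Green-integrability of a pair of functions. -/
def GI (g : ℂ → ℂ → ℝ) (A B : ℂ → ℝ) : Prop :=
  Integrable (fun p : ℂ × ℂ => Gst g p.1 p.2 * (A p.1 * B p.2))

theorem GI.add_left {g : ℂ → ℂ → ℝ} {A A' B : ℂ → ℝ} (h : GI g A B) (h' : GI g A' B) :
    GI g (fun x => A x + A' x) B := by
  have := Integrable.add h h'
  refine this.congr (Eventually.of_forall fun p => ?_)
  simp only [Pi.add_apply]
  ring

theorem GI.add_right {g : ℂ → ℂ → ℝ} {A B B' : ℂ → ℝ} (h : GI g A B) (h' : GI g A B') :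
    GI g A (fun x => B x + B' x) := by
  have := Integrable.add h h'
  refine this.congr (Eventually.of_forall fun p => ?_)
  simp only [Pi.add_apply]
  ring

theorem GI.mul_left {g : ℂ → ℂ → ℝ} {A B : ℂ → ℝ} (h : GI g A B) (c : ℝ) :
    GI g (fun x => c * A x) B := by
  have := Integrable.const_mul h c
  refine this.congr (Eventually.of_forall fun p => ?_)
  ring

theorem GI.mul_right {g : ℂ → ℂ → ℝ} {A B : ℂ → ℝ} (h : GI g A B) (c : ℝ) :
    GI g A (fun x => c * B x) := by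
  have := Integrable.const_mul h c
  refine this.congr (Eventually.of_forall fun p => ?_)
  ring

/-- The dominating function. -/
noncomputable def dom (Λ : Set ℂ) (R S : ℂ → ℝ) : ℂ → ℝ :=
  fun x => R x + S x + 2 * Λ.indicator 1 x

theorem GI_dom {Λ : Set ℂ} {g : ℂ → ℂ → ℝ} (hD : Dom Λ g) (hm : Measurable (Function.uncurry g))
    {R S : ℂ → ℝ} (hR : IsDens Λ R) (hS : IsDens Λ S) : GI g (dom Λ R S) (dom Λ R S) := by
  have hd : dom Λ R S = fun x => (R x + S x) + (2 * volume.real Λ) * uL Λ x := by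
    funext x
    unfold dom
    rw [ind_eq hD]
    ring
  have hP : ∀ {ρ σ : ℂ → ℝ}, IsDens Λ ρ → IsDens Λ σ → GI g ρ σ := fun h h' =>
    pot_integrable hD hm h h'
  have hu := uL_dens hD
  have key : ∀ {ρ : ℂ → ℝ}, IsDens Λ ρ → GI g ρ (dom Λ R S) := by
    intro ρ hρ
    rw [hd]
    exact ((hP hρ hR).add_right (hP hρ hS)).add_right ((hP hρ hu).mul_right _)
  have : GI g (fun x => (R x + S x) + (2 * volume.real Λ) * uL Λ x) (dom Λ R S) :=
    ((key hR).add_left (key hS)).add_left ((key hu).mul_left _)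
  rw [← hd] at this
  exact this

theorem GI_pm {Λ : Set ℂ} {g : ℂ → ℂ → ℝ} (hD : Dom Λ g) (hm : Measurable (Function.uncurry g))
    {R S : ℂ → ℝ} (hR : IsDens Λ R) (hS : IsDens Λ S) :
    Integrable (fun p : ℂ × ℂ => Gst g p.1 p.2 * (R p.1 - S p.1) * (R p.2 - S p.2)) := by
  have hP : ∀ {ρ σ : ℂ → ℝ}, IsDens Λ ρ → IsDens Λ σ → GI g ρ σ := fun h h' =>
    pot_integrable hD hm h h'
  have h1 : GI g R (fun x => R x + (-1) * S x) := (hP hR hR).add_right ((hP hR hS).mul_right _)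
  have h2 : GI g S (fun x => R x + (-1) * S x) := (hP hS hR).add_right ((hP hS hS).mul_right _)
  have h3 := h1.add_left (h2.mul_left (-1))
  refine Integrable.congr h3 (Eventually.of_forall fun p => ?_)
  simp only
  ring

theorem enE_eq_prod {g : ℂ → ℂ → ℝ} {r s : ℂ → ℝ}
    (h : Integrable (fun p : ℂ × ℂ => Gst g p.1 p.2 * (r p.1 - s p.1) * (r p.2 - s p.2))) :
    enE g r s = 1 / 2 * ∫ p : ℂ × ℂ, Gst g p.1 p.2 * (r p.1 - s p.1) * (r p.2 - s p.2) := by
  unfold enE
  rw [Measure.volume_eq_prod, integral_prod _ (by rw [← Measure.volume_eq_prod]; exact h)]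

/-- Elementary bound. -/
theorem mul_log_bd {t T : ℝ} (h0 : 0 ≤ t) (h1 : t ≤ T) : |t * Real.log t| ≤ 1 + |T * Real.log T| := by
  rcases le_or_gt t 1 with ht | ht
  · have h2 : |t * Real.log t| ≤ 1 := by
      rcases h0.eq_or_lt with h | h
      · rw [← h]; simp
      · have h3 : Real.log t ≤ 0 := Real.log_nonpos h0 ht
        rw [abs_of_nonpos (mul_nonpos_of_nonneg_of_nonpos h0 h3)]
        have h4 : -Real.log t ≤ t⁻¹ - 1 := by
          rw [← Real.log_inv]
          exact Real.log_le_sub_one_of_pos (inv_pos.2 h)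
        have h5 : t * (-Real.log t) ≤ t * (t⁻¹ - 1) := mul_le_mul_of_nonneg_left h4 h0
        have h6 : t * (t⁻¹ - 1) = 1 - t := by field_simp
        nlinarith
    have := abs_nonneg (T * Real.log T)
    linarith
  · have h2 : 0 ≤ Real.log t := Real.log_nonneg ht.le
    have h3 : Real.log t ≤ Real.log T := Real.log_le_log (by linarith) h1
    rw [abs_of_nonneg (mul_nonneg h0 h2)]
    have h4 : t * Real.log t ≤ T * Real.log T := mul_le_mul h1 h3 h2 (by linarith)
    have := le_abs_self (T * Real.log T)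
    linarith

theorem succ_log_bd {R : ℝ} (h0 : 0 ≤ R) :
    (R + 1) * Real.log (R + 1) ≤ 2 + 2 * R + 2 * |R * Real.log R| := by
  have hl2 : Real.log 2 ≤ 1 := by
    have := Real.log_le_sub_one_of_pos (show (0 : ℝ) < 2 by norm_num)
    linarith
  have hl0 : 0 ≤ Real.log (R + 1) := Real.log_nonneg (by linarith)
  rcases le_or_gt R 1 with hR | hR
  · have h1 : Real.log (R + 1) ≤ Real.log 2 := Real.log_le_log (by linarith) (by linarith)
    have h2 := abs_nonneg (R * Real.log R)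
    nlinarith
  · have h1 : Real.log (R + 1) ≤ Real.log (2 * R) := Real.log_le_log (by linarith) (by linarith)
    rw [Real.log_mul (by norm_num) (by linarith)] at h1
    have h3 : 0 ≤ Real.log R := Real.log_nonneg hR.le
    rw [abs_of_nonneg (mul_nonneg h0 h3)]
    have h4 : (R + 1) * Real.log (R + 1) ≤ (2 * R) * (Real.log 2 + Real.log R) :=
      mul_le_mul (by linarith) h1 hl0 (by linarith)
    nlinarith

theorem scaled_log_bd {C R : ℝ} (hC : 0 < C) (h0 : 0 ≤ R) :
    |C * (R + 1) * Real.log (C * (R + 1))| ≤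
      C * |Real.log C| * (R + 1) + C * (2 + 2 * R + 2 * |R * Real.log R|) := by
  rw [Real.log_mul hC.ne' (by linarith)]
  have hl0 : 0 ≤ Real.log (R + 1) := Real.log_nonneg (by linarith)
  have h1 : C * (R + 1) * (Real.log C + Real.log (R + 1)) =
      C * (R + 1) * Real.log C + C * ((R + 1) * Real.log (R + 1)) := by ring
  rw [h1]
  refine (abs_add_le _ _).trans (add_le_add ?_ ?_)
  · rw [abs_mul, abs_of_nonneg (by positivity)]
    apply le_of_eq
    ring
  · rw [abs_of_nonneg (by positivity)]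
    exact mul_le_mul_of_nonneg_left (succ_log_bd h0) hC.le

end EnTendAux

open EnTendAux in
/-- Continuity of energy and entropy under dominated convergence. -/
theorem enE_tendsto {Λ : Set ℂ} {g : ℂ → ℂ → ℝ} (hD : Dom Λ g)
    (hm : Measurable (Function.uncurry g)) {ρp ρm : ℂ → ℝ} {r s : ℕ → ℂ → ℝ} {R S : ℂ → ℝ}
    (hR : IsDens Λ R) (hS : IsDens Λ S) {C : ℝ} (hρp : IsDens Λ ρp) (hρm : IsDens Λ ρm)
    (hr : ∀ n, Measurable (r n)) (hs : ∀ n, Measurable (s n))
    (hb : ∀ n x, |r n x| ≤ C * (R x + Λ.indicator 1 x) ∧ |s n x| ≤ C * (S x + Λ.indicator 1 x))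
    (h1 : ∀ᵐ x, Tendsto (fun n => r n x) atTop (𝓝 (ρp x)))
    (h2 : ∀ᵐ x, Tendsto (fun n => s n x) atTop (𝓝 (ρm x))) :
    Tendsto (fun n => enE g (r n) (s n)) atTop (𝓝 (enE g ρp ρm)) := by
  have hG := meas_Gst hm
  have hbd : ∀ n x, |r n x - s n x| ≤ |C| * dom Λ R S x := by
    intro n x
    have hi : (0 : ℝ) ≤ Λ.indicator (1 : ℂ → ℝ) x := Set.indicator_nonneg (fun _ _ => zero_le_one) x
    have hRx := hR.nonneg x
    have hSx := hS.nonneg x
    have hC := le_abs_self C
    have e1 := (hb n x).1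
    have e2 := (hb n x).2
    have e3 : C * (R x + Λ.indicator 1 x) ≤ |C| * (R x + Λ.indicator 1 x) :=
      mul_le_mul_of_nonneg_right hC (by positivity)
    have e4 : C * (S x + Λ.indicator 1 x) ≤ |C| * (S x + Λ.indicator 1 x) :=
      mul_le_mul_of_nonneg_right hC (by positivity)
    have e5 := abs_sub (r n x) (s n x)
    unfold dom
    have e6 : |C| * (R x + S x + 2 * Λ.indicator 1 x) =
      |C| * (R x + Λ.indicator 1 x) + |C| * (S x + Λ.indicator 1 x) := by ring
    rw [e6]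
    linarith
  have hdn : ∀ x, 0 ≤ dom Λ R S x := by
    intro x
    have hi : (0 : ℝ) ≤ Λ.indicator (1 : ℂ → ℝ) x := Set.indicator_nonneg (fun _ _ => zero_le_one) x
    have hRx := hR.nonneg x
    have hSx := hS.nonneg x
    unfold dom
    positivity
  set bd : ℂ × ℂ → ℝ := fun p => |C| ^ 2 * ‖Gst g p.1 p.2 * (dom Λ R S p.1 * dom Λ R S p.2)‖
    with hbdd
  have hbi : Integrable bd := (GI_dom hD hm hR hS).norm.const_mul _
  set F : ℕ → ℂ × ℂ → ℝ := fun n p =>
    Gst g p.1 p.2 * (r n p.1 - s n p.1) * (r n p.2 - s n p.2) with hF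
  have hFm : ∀ n, Measurable (F n) := fun n =>
    (hG.mul (((hr n).comp measurable_fst).sub ((hs n).comp measurable_fst))).mul
      (((hr n).comp measurable_snd).sub ((hs n).comp measurable_snd))
  have hFb : ∀ n p, ‖F n p‖ ≤ bd p := by
    intro n p
    simp only [hF, hbdd, norm_mul, Real.norm_eq_abs]
    have e1 := hbd n p.1
    have e2 := hbd n p.2
    have e3 : |r n p.1 - s n p.1| * |r n p.2 - s n p.2| ≤
        (|C| * dom Λ R S p.1) * (|C| * dom Λ R S p.2) :=
      mul_le_mul e1 e2 (abs_nonneg _) (mul_nonneg (abs_nonneg _) (hdn _))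
    rw [abs_of_nonneg (hdn p.1), abs_of_nonneg (hdn p.2), mul_assoc]
    calc |Gst g p.1 p.2| * (|r n p.1 - s n p.1| * |r n p.2 - s n p.2|)
        ≤ |Gst g p.1 p.2| * ((|C| * dom Λ R S p.1) * (|C| * dom Λ R S p.2)) :=
          mul_le_mul_of_nonneg_left e3 (abs_nonneg _)
      _ = |C| ^ 2 * (|Gst g p.1 p.2| * (dom Λ R S p.1 * dom Λ R S p.2)) := by ring
  have hFi : ∀ n, Integrable (F n) := fun n =>
    hbi.mono' (hFm n).aestronglyMeasurable (Eventually.of_forall (hFb n))
  have e1 : ∀ n, enE g (r n) (s n) = 1 / 2 * ∫ p : ℂ × ℂ, F n p := fun n =>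
    enE_eq_prod (hFi n)
  have e2 : enE g ρp ρm = 1 / 2 * ∫ p : ℂ × ℂ,
      Gst g p.1 p.2 * (ρp p.1 - ρm p.1) * (ρp p.2 - ρm p.2) :=
    enE_eq_prod (GI_pm hD hm hρp hρm)
  simp_rw [e1]
  rw [e2]
  refine Tendsto.const_mul _ ?_
  refine tendsto_integral_of_dominated_convergence bd (fun n => (hFm n).aestronglyMeasurable) hbi
    (fun n => Eventually.of_forall (hFb n)) ?_
  have a1 : ∀ᵐ p : ℂ × ℂ, Tendsto (fun n => r n p.1) atTop (𝓝 (ρp p.1)) := by
    rw [Measure.volume_eq_prod]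
    exact (Measure.quasiMeasurePreserving_fst (μ := (volume : Measure ℂ))
      (ν := (volume : Measure ℂ))).ae h1
  have a2 : ∀ᵐ p : ℂ × ℂ, Tendsto (fun n => s n p.1) atTop (𝓝 (ρm p.1)) := by
    rw [Measure.volume_eq_prod]
    exact (Measure.quasiMeasurePreserving_fst (μ := (volume : Measure ℂ))
      (ν := (volume : Measure ℂ))).ae h2
  have a3 : ∀ᵐ p : ℂ × ℂ, Tendsto (fun n => r n p.2) atTop (𝓝 (ρp p.2)) := by
    rw [Measure.volume_eq_prod]
    exact (Measure.quasiMeasurePreserving_snd (μ := (volume : Measure ℂ))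
      (ν := (volume : Measure ℂ))).ae h1
  have a4 : ∀ᵐ p : ℂ × ℂ, Tendsto (fun n => s n p.2) atTop (𝓝 (ρm p.2)) := by
    rw [Measure.volume_eq_prod]
    exact (Measure.quasiMeasurePreserving_snd (μ := (volume : Measure ℂ))
      (ν := (volume : Measure ℂ))).ae h2
  filter_upwards [a1, a2, a3, a4] with p b1 b2 b3 b4
  exact (tendsto_const_nhds.mul (b1.sub b2)).mul (b3.sub b4)

open EnTendAux in
theorem entS_tendsto {Λ : Set ℂ} {g : ℂ → ℂ → ℝ} (hD : Dom Λ g) {ρ : ℂ → ℝ} {r : ℕ → ℂ → ℝ}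
    {R : ℂ → ℝ} (hR : IsDens Λ R) {C : ℝ} (hρ : IsDens Λ ρ) (hr : ∀ n, Measurable (r n))
    (h0 : ∀ n x, 0 ≤ r n x) (hb : ∀ n x, r n x ≤ C * (R x + Λ.indicator 1 x))
    (h1 : ∀ᵐ x, Tendsto (fun n => r n x) atTop (𝓝 (ρ x))) :
    Tendsto (fun n => entS Λ (r n)) atTop (𝓝 (entS Λ ρ)) := by
  unfold entS
  refine Tendsto.const_sub _ ?_
  set C₁ : ℝ := |C| + 1 with hC₁
  have hC₁p : 0 < C₁ := by positivity
  have hRi : Integrable R := integrable_of_integral_eq_one hR.int
  have hbi : Integrable (fun x => Λ.indicator (1 : ℂ → ℝ) x + (C₁ * |Real.log C₁| *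
      (R x + Λ.indicator (1 : ℂ → ℝ) x) + C₁ * (2 * Λ.indicator (1 : ℂ → ℝ) x + 2 * R x +
        2 * ‖R x * Real.log (R x)‖))) :=
    (integrable_ind hD).add (((hRi.add (integrable_ind hD)).const_mul _).add
      (((((integrable_ind hD).const_mul _).add (hRi.const_mul _)).add
        (hR.ent.norm.const_mul _)).const_mul _))
  refine tendsto_integral_of_dominated_convergence _
    (fun n => ((hr n).mul (Real.measurable_log.comp (hr n))).aestronglyMeasurable) hbi
    (fun n => Eventually.of_forall fun x => ?_) ?_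
  · by_cases hx : x ∈ Λ
    · have hi : Λ.indicator (1 : ℂ → ℝ) x = 1 := by simp [hx]
      have e1 := hb n x
      rw [hi] at e1 ⊢
      have e2 : r n x ≤ C₁ * (R x + 1) := by
        refine e1.trans (mul_le_mul_of_nonneg_right ?_ (by linarith [hR.nonneg x]))
        rw [hC₁]
        linarith [le_abs_self C]
      have e3 := mul_log_bd (h0 n x) e2
      have e4 := scaled_log_bd hC₁p (hR.nonneg x)
      rw [Real.norm_eq_abs, Real.norm_eq_abs]
      linarith
    · have hi : Λ.indicator (1 : ℂ → ℝ) x = 0 := by simp [hx]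
      have e1 := hb n x
      rw [hi, hR.supp x hx] at e1
      have e2 : r n x = 0 := le_antisymm (by simpa using e1) (h0 n x)
      rw [hi, hR.supp x hx, e2]
      simp
  · filter_upwards [h1] with x hx
    exact (Real.continuous_mul_log.tendsto (ρ x)).comp hx

end Pool.Agent.Lib.MP_fa244c_mp
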