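import Pool.Agent.Lib.MP_fa244c_mp.Pot

set_option autoImplicit false

open MeasureTheory Filter Topology Set Metric

namespace Pool.Agent.Lib.MP_fa244c_mp

namespace EntCh

/-- Quadratic upper bound of the exponential function. -/
theorem exp_le_quad {x : ℝ} (hx : x ≤ 1) : Real.exp x ≤ 1 + x + x ^ 2 := by
  rcases le_or_gt (-1) x with h | h
  · have := Real.abs_exp_sub_one_sub_id_le (abs_le.2 ⟨h, hx⟩)
    have := (abs_le.1 this).2
    linarith
  · have h1 : Real.exp x ≤ 1 := Real.exp_le_one_iff.2 (by linarith)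
    nlinarith

/-- `u (log u)²` is bounded on bounded intervals. -/
theorem mul_log_sq_le {u b : ℝ} (hu : 0 ≤ u) (hub : u ≤ b) :
    u * Real.log u ^ 2 ≤ 4 + b ^ 3 := by
  rcases hu.eq_or_lt with rfl | hu
  · have : 0 ≤ b ^ 3 := pow_nonneg hub 3
    simp; linarith
  have hb : 0 < b := lt_of_lt_of_le hu hub
  rcases le_or_gt u 1 with h | h
  · have h1 := Real.abs_log_mul_self_rpow_lt u (1 / 2) hu h (by norm_num)
    have h2 : u * Real.log u ^ 2 = (|Real.log u * u ^ (1 / 2 : ℝ)|) ^ 2 := by
      rw [sq_abs, mul_pow, ← Real.rpow_natCast (u ^ (1 / 2 : ℝ)) 2, ← Real.rpow_mul hu.le]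
      norm_num
      ring
    rw [h2]
    have h3 : (|Real.log u * u ^ (1 / 2 : ℝ)|) ^ 2 ≤ 2 ^ 2 := by
      refine pow_le_pow_left₀ (abs_nonneg _) ?_ 2
      have : (1 : ℝ) / (1 / 2) = 2 := by norm_num
      linarith
    have : 0 < b ^ 3 := by positivity
    linarith
  · have h1 : 0 ≤ Real.log u := Real.log_nonneg h.le
    have h2 : Real.log u ≤ u := (Real.log_le_sub_one_of_pos hu).trans (by linarith)
    calc u * Real.log u ^ 2 ≤ u * u ^ 2 := by gcongr
      _ = u ^ 3 := by ring
      _ ≤ b ^ 3 := by gcongr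
      _ ≤ 4 + b ^ 3 := by linarith

end EntCh

open EntCh in
/-- Small moments of a nice density. -/
theorem small_moment {Λ : Set ℂ} {g : ℂ → ℂ → ℝ} (hD : Dom Λ g) {K : Set ℂ} (hKΛ : K ⊆ Λ)
    {r : ℂ → ℝ} (hr : Nice K r) {δ : ℝ} (hδ : 0 < δ) : ∃ s₀ : ℝ, 0 < s₀ ∧ ∀ s : ℝ, 0 < s →
      s ≤ s₀ → ∫ x, r x * (volume.real Λ * r x) ^ s ≤ Real.exp (s * (- entS Λ r + δ)) := by
  have hdens := Nice.isDens hD hKΛ hr
  set V := volume.real Λ with hV
  have hVpos : 0 < V := vol_pos hD
  obtain ⟨B, hB⟩ := hr.bdd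
  set b : ℝ := V * |B| + 1 with hb
  have hb1 : 1 ≤ b := by rw [hb]; have : 0 ≤ V * |B| := by positivity
                         linarith
  have hub : ∀ x, V * r x ≤ b := by
    intro x
    have : r x ≤ |B| := (hB x).trans (le_abs_self B)
    calc V * r x ≤ V * |B| := by gcongr
      _ ≤ b := by rw [hb]; linarith
  set C0 : ℝ := (4 + b ^ 3) / V with hC0
  have hC0pos : 0 < C0 := by positivity
  have hlogb : 0 ≤ Real.log b := Real.log_nonneg hb1
  have hr_int : Integrable r := by
    by_contra h
    have := integral_undef h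
    rw [hr.int] at this
    norm_num at this
  have hΛfin : volume Λ ≠ ⊤ := hD.bdd.measure_lt_top.ne
  refine ⟨min (1 / (Real.log b + 1)) (δ / (C0 * V)), by positivity, fun s hs hs0 => ?_⟩
  have hs1 : s * Real.log b ≤ 1 := by
    have h1 : s ≤ 1 / (Real.log b + 1) := hs0.trans (min_le_left _ _)
    rw [le_div_iff₀ (by positivity)] at h1
    nlinarith
  have hs2 : s * (C0 * V) ≤ δ := by
    have h1 : s ≤ δ / (C0 * V) := hs0.trans (min_le_right _ _)
    rwa [le_div_iff₀ (by positivity)] at h1
  have hpt : ∀ x, r x * (V * r x) ^ s ≤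
      (1 + s * Real.log V) * r x + s * (r x * Real.log (r x)) + s ^ 2 * C0 * Λ.indicator 1 x := by
    intro x
    by_cases hx0 : r x = 0
    · have h1 : 0 ≤ Λ.indicator (1 : ℂ → ℝ) x := indicator_nonneg (fun _ _ => zero_le_one) x
      rw [hx0]
      simp only [zero_mul, mul_zero, zero_add]
      positivity
    · have hrpos : 0 < r x := lt_of_le_of_ne (hr.nonneg x) (Ne.symm hx0)
      have hxΛ : x ∈ Λ := hKΛ (by
        by_contra h
        exact hx0 (hr.supp x h))
      rw [indicator_of_mem hxΛ, Pi.one_apply, mul_one]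
      have hu : 0 < V * r x := mul_pos hVpos hrpos
      have hlog : Real.log (V * r x) = Real.log V + Real.log (r x) :=
        Real.log_mul hVpos.ne' hrpos.ne'
      have h1 : s * Real.log (V * r x) ≤ 1 := by
        have : Real.log (V * r x) ≤ Real.log b := Real.log_le_log hu (hub x)
        nlinarith
      have h2 := exp_le_quad h1
      have h3 : (V * r x) ^ s = Real.exp (s * Real.log (V * r x)) := by
        rw [Real.rpow_def_of_pos hu, mul_comm]
      have h4 := mul_log_sq_le hu.le (hub x)
      have h5 : r x * Real.log (V * r x) ^ 2 ≤ C0 := by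
        rw [hC0, le_div_iff₀ hVpos]
        nlinarith
      calc r x * (V * r x) ^ s ≤
            r x * (1 + s * Real.log (V * r x) + (s * Real.log (V * r x)) ^ 2) := by
              rw [h3]; gcongr
        _ = r x + s * (r x * Real.log (V * r x)) + s ^ 2 * (r x * Real.log (V * r x) ^ 2) := by
              ring
        _ ≤ r x + s * (r x * Real.log (V * r x)) + s ^ 2 * C0 := by gcongr
        _ = _ := by rw [hlog]; ring
  have hint1 : Integrable (fun x => (1 + s * Real.log V) * r x) := hr_int.const_mul _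
  have hint2 : Integrable (fun x => s * (r x * Real.log (r x))) := hdens.ent.const_mul _
  have hind : Integrable (Λ.indicator (1 : ℂ → ℝ)) := by
    rw [integrable_indicator_iff hD.isOpen.measurableSet]
    exact integrableOn_const hΛfin
  have hint3 : Integrable (fun x => s ^ 2 * C0 * Λ.indicator (1 : ℂ → ℝ) x) := hind.const_mul _
  have hle : ∫ x, r x * (V * r x) ^ s ≤ ∫ x, ((1 + s * Real.log V) * r x +
      s * (r x * Real.log (r x)) + s ^ 2 * C0 * Λ.indicator (1 : ℂ → ℝ) x) := by
    refine integral_mono_of_nonneg (Eventually.of_forall fun x => ?_)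
      ((hint1.add hint2).add hint3) (Eventually.of_forall hpt)
    have := hr.nonneg x
    have : 0 ≤ V * r x := by positivity
    positivity
  have hval : ∫ x, ((1 + s * Real.log V) * r x +
      s * (r x * Real.log (r x)) + s ^ 2 * C0 * Λ.indicator (1 : ℂ → ℝ) x) =
      1 + s * (- entS Λ r) + s ^ 2 * C0 * V := by
    have e1 := integral_add (hint1.add hint2) hint3
    have e2 := integral_add hint1 hint2
    simp only [Pi.add_apply] at e1 e2
    rw [e1, e2, integral_const_mul, integral_const_mul, integral_const_mul, hr.int,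
      integral_indicator_one hD.isOpen.measurableSet]
    unfold entS
    rw [← hV]
    ring
  rw [hval] at hle
  refine hle.trans ?_
  have h6 : 1 + s * (- entS Λ r) + s ^ 2 * C0 * V ≤ 1 + s * (- entS Λ r + δ) := by
    have : s * (s * (C0 * V)) ≤ s * δ := mul_le_mul_of_nonneg_left hs2 hs.le
    nlinarith
  refine h6.trans ?_
  have := Real.add_one_le_exp (s * (- entS Λ r + δ))
  linarith

end Pool.Agent.Lib.MP_fa244c_mp
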