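import Pool.Agent.Lib.MP_fa244c_mp.Core

set_option autoImplicit false

open MeasureTheory Filter Topology Set Metric

namespace Pool.Agent.Lib.MP_fa244c_mp

/-- The unit disc belongs to the class of domains. -/
theorem dom_disc : Dom (ball (0 : ℂ) 1) (fun x y => Real.log ‖1 - (starRingEnd ℂ) y * x‖) := by
  have hlt : ∀ x y : ℂ, ‖x‖ ≤ 1 → ‖y‖ < 1 → 1 - (starRingEnd ℂ) y * x ≠ 0 := by
    intro x y hx hy h
    have h1 : (starRingEnd ℂ) y * x = 1 := by linear_combination -h
    have h2 : ‖(starRingEnd ℂ) y * x‖ < 1 := by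
      rw [norm_mul, RCLike.norm_conj]
      calc ‖y‖ * ‖x‖ ≤ ‖y‖ * 1 := by gcongr
        _ < 1 := by linarith
    rw [h1, norm_one] at h2
    exact lt_irrefl _ h2
  refine ⟨isOpen_ball, isBounded_ball, ⟨0, by simp⟩, ⟨fun y hy x hx => ?_, fun y hy ζ hζ => ?_⟩,
    ?_⟩
  · rw [mem_ball_zero_iff] at hx hy
    refine AnalyticAt.harmonicAt_log_norm (f := fun x => 1 - (starRingEnd ℂ) y * x) ?_
      (hlt x y hx.le hy)
    fun_prop
  · rw [mem_ball_zero_iff] at hy
    have hζ1 : ‖ζ‖ = 1 := by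
      rw [frontier_ball _ one_ne_zero] at hζ
      simpa using hζ
    have hc : ContinuousAt (fun x : ℂ => Real.log ‖1 - (starRingEnd ℂ) y * x‖) ζ := by
      refine ContinuousAt.log (by fun_prop) ?_
      exact (norm_pos_iff.2 (hlt ζ y hζ1.le hy)).ne'
    have e : ‖1 - (starRingEnd ℂ) y * ζ‖ = ‖ζ - y‖ := by
      have h1 : (starRingEnd ℂ) ζ * ζ = 1 := by
        rw [Complex.conj_mul', hζ1]; norm_num
      have h2 : 1 - (starRingEnd ℂ) y * ζ = (starRingEnd ℂ) (ζ - y) * ζ := by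
        rw [map_sub, sub_mul, h1]
      rw [h2, norm_mul, RCLike.norm_conj, hζ1, mul_one]
    rw [← e]
    exact hc.tendsto.mono_left nhdsWithin_le_nhds
  · refine ⟨2 * Real.pi, 1, one_pos, fun δ hδ => ?_⟩
    rw [Real.rpow_one]
    have hvol : ∀ r : ℝ, 0 ≤ r → volume.real (ball (0 : ℂ) r) = Real.pi * r ^ 2 := by
      intro r hr
      rw [measureReal_def, Complex.volume_ball]
      simp [ENNReal.toReal_ofReal hr, mul_comm]
    by_cases hδ1 : δ < 1
    · have hsub : {x | x ∈ ball (0 : ℂ) 1 ∧ infDist x (ball (0 : ℂ) 1)ᶜ < δ} ⊆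
          ball (0 : ℂ) 1 \ ball 0 (1 - δ) := by
        rintro x ⟨hx, hxd⟩
        refine ⟨hx, fun h => ?_⟩
        rw [mem_ball_zero_iff] at h
        have : δ ≤ infDist x (ball (0 : ℂ) 1)ᶜ := by
          refine (le_infDist ⟨2, by simp⟩).2 fun w hw => ?_
          rw [mem_compl_iff, mem_ball_zero_iff, not_lt] at hw
          have h1 : ‖w‖ ≤ ‖x - w‖ + ‖x‖ := by
            have := norm_sub_norm_le w x
            rw [norm_sub_rev] at this
            linarith
          rw [dist_eq_norm]; linarith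
        linarith
      calc volume.real {x | x ∈ ball (0 : ℂ) 1 ∧ infDist x (ball (0 : ℂ) 1)ᶜ < δ}
          ≤ volume.real (ball (0 : ℂ) 1 \ ball 0 (1 - δ)) := measureReal_mono hsub
            (measure_ne_top_of_subset sdiff_subset measure_ball_lt_top.ne)
        _ = volume.real (ball (0 : ℂ) 1) - volume.real (ball (0 : ℂ) (1 - δ)) :=
            measureReal_sdiff (ball_subset_ball (by linarith)) measurableSet_ball
        _ = Real.pi * 1 ^ 2 - Real.pi * (1 - δ) ^ 2 := by
            rw [hvol 1 zero_le_one, hvol (1 - δ) (by linarith)]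
        _ ≤ 2 * Real.pi * δ := by nlinarith [Real.pi_pos, sq_nonneg δ, mul_pos Real.pi_pos hδ]
    · calc volume.real {x | x ∈ ball (0 : ℂ) 1 ∧ infDist x (ball (0 : ℂ) 1)ᶜ < δ}
          ≤ volume.real (ball (0 : ℂ) 1) := measureReal_mono (fun x hx => hx.1)
            measure_ball_lt_top.ne
        _ = Real.pi := by rw [hvol 1 zero_le_one]; ring
        _ ≤ 2 * Real.pi * δ := by nlinarith [Real.pi_pos]

end Pool.Agent.Lib.MP_fa244c_mp
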