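import Pool.Agent.Lib.MP_fa244c_mp.Core

set_option autoImplicit false

open MeasureTheory Filter Topology Set Metric

namespace Pool.Agent.Lib.MP_fa244c_mp

/-- Pairs of probability measures supported in `K`. -/
def SuppIn (K : Set ℂ) : Set (ProbabilityMeasure ℂ × ProbabilityMeasure ℂ) :=
  {p | (p.1 : Measure ℂ) Kᶜ = 0 ∧ (p.2 : Measure ℂ) Kᶜ = 0}

theorem isCompact_suppIn {K : Set ℂ} (hK : IsCompact K) : IsCompact (SuppIn K) := by
  have h1 : IsCompact {μ : ProbabilityMeasure ℂ | ∀ _ : ℕ, μ Kᶜ ≤ (0 : NNReal)} :=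
    isCompact_setOfPred_probabilityMeasure_mass_eq_compl_isCompact_le
      (u := fun _ => 0) (K := fun _ => K) tendsto_const_nhds (fun _ => hK)
      (Or.inr monotone_const)
  have e : SuppIn K = {μ : ProbabilityMeasure ℂ | ∀ _ : ℕ, μ Kᶜ ≤ (0 : NNReal)} ×ˢ
      {μ : ProbabilityMeasure ℂ | ∀ _ : ℕ, μ Kᶜ ≤ (0 : NNReal)} := by
    have key : ∀ μ : ProbabilityMeasure ℂ, (μ : Measure ℂ) Kᶜ = 0 ↔
        ∀ _ : ℕ, μ Kᶜ ≤ (0 : NNReal) := by
      intro μ
      rw [forall_const, nonpos_iff_eq_zero, ProbabilityMeasure.null_iff_toMeasure_null]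
    ext p
    simp only [SuppIn, mem_ofPred_eq, mem_prod]
    rw [key, key]
  rw [e]
  exact h1.prod h1

/-- integrals against the empirical measure -/
theorem integral_emp {m : ℕ} (hm : m ≠ 0) (x : Fin m → ℂ) (f : ℂ → ℝ) (hf : Continuous f) :
    ∫ z, f z ∂(emp x : Measure ℂ) = (m : ℝ)⁻¹ * ∑ i, f (x i) := by
  have e : (emp x : Measure ℂ) = (m : ENNReal)⁻¹ • ∑ i, Measure.dirac (x i) := by
    unfold emp
    rw [dif_neg hm]
    rfl
  rw [e, integral_smul_measure, integral_finsetSum_measure]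
  · simp
  · intro i _
    exact integrable_dirac (by simp)

theorem emp2_mem_suppIn {K : Set ℂ} (hK : IsClosed K) {m : ℕ} (hm : 1 ≤ m)
    {x : Fin m ⊕ Fin m → ℂ} (hx : ∀ i, x i ∈ K) : emp2 x ∈ SuppIn K := by
  have key : ∀ y : Fin m → ℂ, (∀ i, y i ∈ K) → (emp y : Measure ℂ) Kᶜ = 0 := by
    intro y hy
    have e : (emp y : Measure ℂ) = (m : ENNReal)⁻¹ • ∑ i, Measure.dirac (y i) := by
      unfold emp
      rw [dif_neg (by omega)]
      rfl
    rw [e, Measure.smul_apply, Measure.finsetSum_apply]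
    have : ∀ i ∈ Finset.univ, Measure.dirac (y i) Kᶜ = 0 := by
      intro i _
      rw [Measure.dirac_apply' _ hK.measurableSet.compl]
      simp [hy i]
    rw [Finset.sum_eq_zero this]
    simp
  exact ⟨key _ fun i => hx _, key _ fun i => hx _⟩

theorem continuous_emp2 (m : ℕ) : Continuous (emp2 : (Fin m ⊕ Fin m → ℂ) → _) := by
  rcases Nat.eq_zero_or_pos m with rfl | hm
  · have : Subsingleton (Fin 0 ⊕ Fin 0 → ℂ) := ⟨fun a b => by
      funext i
      exact i.elim (fun j => j.elim0) (fun j => j.elim0)⟩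
    exact continuous_of_const fun x y => by rw [Subsingleton.elim x y]
  have key : Continuous (emp : (Fin m → ℂ) → ProbabilityMeasure ℂ) := by
    rw [continuous_iff_continuousAt]
    intro x
    unfold ContinuousAt
    rw [ProbabilityMeasure.tendsto_iff_forall_integral_tendsto]
    intro f
    simp only [integral_emp hm.ne' _ f f.continuous]
    have hc : Continuous (fun x : Fin m → ℂ => (m : ℝ)⁻¹ * ∑ i, f (x i)) := by fun_prop
    exact hc.tendsto x
  exact (key.comp (by fun_prop)).prodMk (key.comp (by fun_prop))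

end Pool.Agent.Lib.MP_fa244c_mp
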