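import Pool.Agent.Lib.MP_fa244c_mp.EBasic

set_option autoImplicit false

open MeasureTheory Filter Topology Set Metric

namespace Pool.Agent.Lib.MP_fa244c_mp

namespace PotAux

lemma young {a b : ℝ} (ha : 0 ≤ a) : a * b ≤ a * Real.log a - a + Real.exp b := by
  rcases ha.eq_or_lt with h | h
  · rw [← h]
    simp only [zero_mul, sub_zero, zero_add]
    exact (Real.exp_pos b).le
  · have h1 := Real.add_one_le_exp (b - Real.log a)
    rw [Real.exp_sub, Real.exp_log h] at h1
    have h2 := mul_le_mul_of_nonneg_left h1 ha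
    rw [mul_div_cancel₀ _ h.ne'] at h2
    nlinarith

/-- The kernel `1 / |x - y|` cut off at distance `R`. -/
noncomputable def invK (R : ℝ) (x y : ℂ) : ℝ := (ball (0 : ℂ) R).indicator (fun z => ‖z‖⁻¹) (x - y)

lemma invK_nonneg (R : ℝ) (x y : ℂ) : 0 ≤ invK R x y :=
  indicator_nonneg (fun _ _ => inv_nonneg.2 (norm_nonneg _)) _

lemma measurable_invK0 (R : ℝ) :
    Measurable (fun z : ℂ => (ball (0 : ℂ) R).indicator (fun z => ‖z‖⁻¹) z) :=
  (measurable_norm.inv).indicator measurableSet_ball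

lemma measurable_invK (R : ℝ) (x : ℂ) : Measurable (invK R x) :=
  (measurable_invK0 R).comp (measurable_const.sub measurable_id)

lemma lint_inv (R : ℝ) (hR : 0 ≤ R) :
    ∫⁻ z : ℂ, ENNReal.ofReal ((ball (0 : ℂ) R).indicator (fun z => ‖z‖⁻¹) z) ≤
      ENNReal.ofReal (2 * Real.pi * R) := by
  rw [← Complex.lintegral_comp_polarCoord_symm]
  have hT : MeasurableSet polarCoord.target := polarCoord.open_target.measurableSet
  have h1 : ∀ p ∈ polarCoord.target,
      ENNReal.ofReal p.1 • ENNReal.ofReal ((ball (0 : ℂ) R).indicator (fun z => ‖z‖⁻¹)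
        (Complex.polarCoord.symm p)) ≤
      (Ioo 0 R ×ˢ Ioo (-Real.pi) Real.pi).indicator (fun _ => (1 : ENNReal)) p := by
    intro p hp
    have hp1 : 0 < p.1 := hp.1
    have hp2 : p.2 ∈ Ioo (-Real.pi) Real.pi := hp.2
    have hn : ‖Complex.polarCoord.symm p‖ = p.1 := by
      rw [Complex.norm_polarCoord_symm, abs_of_pos hp1]
    by_cases hlt : p.1 < R
    · have hmem : Complex.polarCoord.symm p ∈ ball (0 : ℂ) R := by
        rw [mem_ball_zero_iff, hn]; exact hlt
      have hmem2 : p ∈ Ioo 0 R ×ˢ Ioo (-Real.pi) Real.pi := ⟨⟨hp1, hlt⟩, hp2⟩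
      rw [indicator_of_mem hmem, indicator_of_mem hmem2, hn, smul_eq_mul,
        ← ENNReal.ofReal_mul hp1.le, mul_inv_cancel₀ hp1.ne', ENNReal.ofReal_one]
    · have hmem : Complex.polarCoord.symm p ∉ ball (0 : ℂ) R := by
        rw [mem_ball_zero_iff, hn]; exact hlt
      rw [indicator_of_notMem hmem, ENNReal.ofReal_zero, smul_zero]
      exact zero_le
  calc ∫⁻ p in polarCoord.target, ENNReal.ofReal p.1 • ENNReal.ofReal
        ((ball (0 : ℂ) R).indicator (fun z => ‖z‖⁻¹) (Complex.polarCoord.symm p))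
      ≤ ∫⁻ p in polarCoord.target,
        (Ioo 0 R ×ˢ Ioo (-Real.pi) Real.pi).indicator (fun _ => (1 : ENNReal)) p :=
        setLIntegral_mono' hT h1
    _ ≤ ∫⁻ p, (Ioo 0 R ×ˢ Ioo (-Real.pi) Real.pi).indicator (fun _ => (1 : ENNReal)) p :=
        setLIntegral_le_lintegral _ _
    _ = volume (Ioo 0 R ×ˢ Ioo (-Real.pi) Real.pi) := by
        rw [lintegral_indicator (measurableSet_Ioo.prod measurableSet_Ioo)]
        simp
    _ = ENNReal.ofReal (2 * Real.pi * R) := by
        rw [Measure.volume_eq_prod, Measure.prod_prod, Real.volume_Ioo, Real.volume_Ioo,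
          ← ENNReal.ofReal_mul (by linarith)]
        congr 1
        ring

lemma integrable_invK (R : ℝ) (hR : 0 ≤ R) (x : ℂ) :
    Integrable (invK R x) ∧ ∫ y, invK R x y ≤ 2 * Real.pi * R := by
  have h1 : ∫⁻ y, ENNReal.ofReal (invK R x y) ≤ ENNReal.ofReal (2 * Real.pi * R) := by
    unfold invK
    rw [lintegral_sub_left_eq_self
      (fun z => ENNReal.ofReal ((ball (0 : ℂ) R).indicator (fun z => ‖z‖⁻¹) z)) x]
    exact lint_inv R hR
  have hI : Integrable (invK R x) := by
    refine ⟨(measurable_invK R x).aestronglyMeasurable, ?_⟩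
    rw [hasFiniteIntegral_iff_ofReal (Eventually.of_forall fun y => invK_nonneg R x y)]
    exact h1.trans_lt ENNReal.ofReal_lt_top
  refine ⟨hI, ?_⟩
  rw [integral_eq_lintegral_of_nonneg_ae (Eventually.of_forall fun y => invK_nonneg R x y)
    (measurable_invK R x).aestronglyMeasurable]
  exact ENNReal.toReal_le_of_le_ofReal (by positivity) h1

lemma measurable_Gst {g : ℂ → ℂ → ℝ} (hm : Measurable (Function.uncurry g)) :
    Measurable (fun p : ℂ × ℂ => Gst g p.1 p.2) := by
  have : (fun p : ℂ × ℂ => Gst g p.1 p.2) =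
      fun p => Function.uncurry g p - Real.log ‖p.1 - p.2‖ := by
    ext p
    rw [Gst_eq]
    rfl
  rw [this]
  exact hm.sub (Real.measurable_log.comp (measurable_fst.sub measurable_snd).norm)

lemma ne_ae (x : ℂ) : ∀ᵐ y : ℂ, y ≠ x := by
  have : volume ({x} : Set ℂ) = 0 := measure_singleton x
  filter_upwards [measure_eq_zero_iff_ae_notMem.1 this] with y hy
  simpa using hy

end PotAux

open PotAux

/-- The Green function is nonnegative off the diagonal. -/
theorem Gst_nonneg {Λ : Set ℂ} {g : ℂ → ℂ → ℝ} (hD : Dom Λ g) {x y : ℂ} (hx : x ∈ Λ)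
    (hy : y ∈ Λ) (hxy : x ≠ y) : 0 ≤ Gst g x y := by
  rw [Gst_eq]
  have := log_norm_le hD hx hy hxy
  linarith

/-- Densities of finite entropy have bounded Green potentials. -/
theorem pot_bdd {Λ : Set ℂ} {g : ℂ → ℂ → ℝ} (hD : Dom Λ g) (hm : Measurable (Function.uncurry g))
    {ρ : ℂ → ℝ} (hρ : IsDens Λ ρ) : ∃ C : ℝ, 0 < C ∧ ∀ x ∈ Λ,
      Integrable (fun y => Gst g x y * ρ y) ∧ ∫ y, |Gst g x y| * ρ y ≤ C := by
  obtain ⟨D, hD1, hDb⟩ := exists_diam hD
  have hlogD : 0 ≤ Real.log D := Real.log_nonneg hD1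
  have hρi : Integrable ρ := by
    by_contra hcon
    have := hρ.int
    rw [integral_undef hcon] at this
    norm_num at this
  set B : ℂ → ℂ → ℝ := fun x y => Real.log D * ρ y + |ρ y * Real.log (ρ y)| + invK (D + 1) x y
    with hB
  have hR : (0 : ℝ) ≤ D + 1 := by linarith
  have hBi : ∀ x, Integrable (B x) := fun x =>
    ((hρi.const_mul _).add hρ.ent.abs).add (integrable_invK (D + 1) hR x).1
  have hAi : Integrable (fun y => Real.log D * ρ y + |ρ y * Real.log (ρ y)|) :=
    (hρi.const_mul _).add hρ.ent.abs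
  have hBle : ∀ x, ∫ y, B x y ≤ Real.log D + (∫ y, |ρ y * Real.log (ρ y)|) +
      2 * Real.pi * (D + 1) := by
    intro x
    have h1 : ∫ y, B x y = Real.log D * (∫ y, ρ y) + (∫ y, |ρ y * Real.log (ρ y)|) +
        ∫ y, invK (D + 1) x y := by
      rw [hB]
      simp only
      rw [integral_add hAi (integrable_invK (D + 1) hR x).1,
        integral_add (hρi.const_mul _) hρ.ent.abs, integral_const_mul]
    rw [h1, hρ.int, mul_one]
    have := (integrable_invK (D + 1) hR x).2
    linarith
  have hbd : ∀ x ∈ Λ, ∀ᵐ y : ℂ, |Gst g x y| * ρ y ≤ B x y := by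
    intro x hx
    filter_upwards [ne_ae x] with y hyx
    by_cases hy : y ∈ Λ
    · have h0 := Gst_nonneg hD hx hy (Ne.symm hyx)
      rw [abs_of_nonneg h0, Gst_eq]
      have hn : 0 < ‖x - y‖ := norm_pos_iff.2 (sub_ne_zero.2 (Ne.symm hyx))
      have h1 := (hDb x hx y hy).2
      have h2 := (hDb x hx y hy).1
      have h3 := young (a := ρ y) (b := - Real.log ‖x - y‖) (hρ.nonneg y)
      rw [Real.exp_neg, Real.exp_log hn] at h3
      have h4 : invK (D + 1) x y = ‖x - y‖⁻¹ := by
        unfold invK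
        rw [indicator_of_mem]
        rw [mem_ball_zero_iff]
        linarith
      have h5 : g x y * ρ y ≤ Real.log D * ρ y := mul_le_mul_of_nonneg_right h1 (hρ.nonneg y)
      have h6 := le_abs_self (ρ y * Real.log (ρ y))
      have h7 := hρ.nonneg y
      rw [hB]
      simp only
      rw [h4]
      nlinarith
    · rw [hρ.supp y hy, mul_zero]
      have h1 := invK_nonneg (D + 1) x y
      have h2 := abs_nonneg (ρ y * Real.log (ρ y))
      rw [hB]
      simp only
      rw [hρ.supp y hy] at h2 ⊢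
      linarith
  have hmx : ∀ x, Measurable (fun y => Gst g x y) := fun x =>
    (measurable_Gst hm).comp (measurable_const.prodMk measurable_id)
  have hI : ∀ x ∈ Λ, Integrable (fun y => Gst g x y * ρ y) := by
    intro x hx
    refine (hBi x).mono' ((hmx x).mul hρ.meas).aestronglyMeasurable ?_
    filter_upwards [hbd x hx] with y hy
    rw [Real.norm_eq_abs, abs_mul, abs_of_nonneg (hρ.nonneg y)]
    exact hy
  refine ⟨Real.log D + (∫ y, |ρ y * Real.log (ρ y)|) + 2 * Real.pi * (D + 1), ?_, ?_⟩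
  · have h1 : 0 ≤ ∫ y, |ρ y * Real.log (ρ y)| := integral_nonneg fun y => abs_nonneg _
    have h2 : 0 < 2 * Real.pi * (D + 1) := by positivity
    linarith
  · intro x hx
    refine ⟨hI x hx, ?_⟩
    refine le_trans ?_ (hBle x)
    apply integral_mono_ae _ (hBi x) (hbd x hx)
    have := (hI x hx).abs
    refine this.congr (Eventually.of_forall fun y => ?_)
    simp only
    rw [abs_mul, abs_of_nonneg (hρ.nonneg y)]

theorem pot_integrable {Λ : Set ℂ} {g : ℂ → ℂ → ℝ} (hD : Dom Λ g)
    (hm : Measurable (Function.uncurry g)) {ρ σ : ℂ → ℝ} (hρ : IsDens Λ ρ) (hσ : IsDens Λ σ) :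
    Integrable (fun p : ℂ × ℂ => Gst g p.1 p.2 * (ρ p.1 * σ p.2)) := by
  obtain ⟨C, hC, hpot⟩ := pot_bdd hD hm hσ
  have hρi : Integrable ρ := by
    by_contra hcon
    have := hρ.int
    rw [integral_undef hcon] at this
    norm_num at this
  have hmeas : Measurable (fun p : ℂ × ℂ => Gst g p.1 p.2 * (ρ p.1 * σ p.2)) :=
    (measurable_Gst hm).mul ((hρ.meas.comp measurable_fst).mul (hσ.meas.comp measurable_snd))
  rw [Measure.volume_eq_prod, integrable_prod_iff hmeas.aestronglyMeasurable]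
  have heq : ∀ x y, Gst g x y * (ρ x * σ y) = ρ x * (Gst g x y * σ y) := fun x y => by ring
  constructor
  · refine Eventually.of_forall fun x => ?_
    simp only [heq]
    by_cases hx : x ∈ Λ
    · exact (hpot x hx).1.const_mul _
    · rw [hρ.supp x hx]
      simp
  · refine (hρi.const_mul C).mono' ?_ ?_
    · exact (hmeas.aestronglyMeasurable.norm.integral_prod_right')
    · refine Eventually.of_forall fun x => ?_
      simp only [heq]
      rw [Real.norm_eq_abs, abs_of_nonneg (integral_nonneg fun y => norm_nonneg _)]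
      by_cases hx : x ∈ Λ
      · have h1 : (fun y => ‖ρ x * (Gst g x y * σ y)‖) = fun y => ρ x * (|Gst g x y| * σ y) := by
          ext y
          rw [Real.norm_eq_abs, abs_mul, abs_mul, abs_of_nonneg (hρ.nonneg x),
            abs_of_nonneg (hσ.nonneg y)]
        rw [h1, integral_const_mul, mul_comm C]
        exact mul_le_mul_of_nonneg_left (hpot x hx).2 (hρ.nonneg x)
      · rw [hρ.supp x hx]
        simp

/-- Nice densities have finite entropy. -/
theorem Nice.isDens {Λ : Set ℂ} {g : ℂ → ℂ → ℝ} (hD : Dom Λ g) {K : Set ℂ} (hK : K ⊆ Λ)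
    {r : ℂ → ℝ} (hr : Nice K r) : IsDens Λ r := by
  have hsupp : ∀ x, x ∉ Λ → r x = 0 := fun x hx => hr.supp x fun h => hx (hK h)
  refine ⟨hr.meas, hr.nonneg, hsupp, hr.int, ?_⟩
  obtain ⟨B, hB⟩ := hr.bdd
  have hmeas : Measurable fun x => r x * Real.log (r x) :=
    hr.meas.mul (Real.measurable_log.comp hr.meas)
  have hbd : ∀ x, ‖r x * Real.log (r x)‖ ≤ 1 + B ^ 2 := by
    intro x
    rw [Real.norm_eq_abs]
    have h0 := hr.nonneg x
    rcases h0.eq_or_lt with h | h
    · rw [← h]
      simp only [zero_mul, abs_zero]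
      positivity
    rcases le_total (r x) 1 with h1 | h1
    · have h4 : r x * Real.log (r x) ≤ 0 :=
        mul_nonpos_of_nonneg_of_nonpos h0 (Real.log_nonpos h0 h1)
      rw [abs_of_nonpos h4]
      have h5 := Real.log_le_sub_one_of_pos (inv_pos.2 h)
      rw [Real.log_inv] at h5
      have h6 : r x * (-Real.log (r x)) ≤ r x * ((r x)⁻¹ - 1) := mul_le_mul_of_nonneg_left h5 h0
      rw [mul_sub, mul_inv_cancel₀ h.ne', mul_one] at h6
      nlinarith [sq_nonneg B]
    · have h4 : 0 ≤ r x * Real.log (r x) := mul_nonneg h0 (Real.log_nonneg h1)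
      rw [abs_of_nonneg h4]
      have h5 := Real.log_le_sub_one_of_pos h
      have h6 : r x * Real.log (r x) ≤ r x * r x := mul_le_mul_of_nonneg_left (by linarith) h0
      have h7 : r x * r x ≤ B * B := mul_le_mul (hB x) (hB x) h0 (h0.trans (hB x))
      nlinarith
  have hfin : volume Λ ≠ ⊤ := hD.bdd.measure_lt_top.ne
  have h1 : IntegrableOn (fun x => r x * Real.log (r x)) Λ := by
    refine Measure.integrableOn_of_bounded (M := 1 + B ^ 2) hfin hmeas.aestronglyMeasurable ?_
    exact Eventually.of_forall hbd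
  rwa [integrableOn_iff_integrable_of_support_subset] at h1
  intro x hx
  by_contra hcon
  rw [Function.mem_support] at hx
  apply hx
  rw [hsupp x hcon, zero_mul]

theorem entS_nonpos {Λ : Set ℂ} {g : ℂ → ℂ → ℝ} (hD : Dom Λ g) {ρ : ℂ → ℝ}
    (hρ : IsDens Λ ρ) : entS Λ ρ ≤ 0 := by
  have hV := vol_pos hD
  set V := volume.real Λ with hVdef
  have hΛm : MeasurableSet Λ := hD.isOpen.measurableSet
  have hfin : volume Λ ≠ ⊤ := hD.bdd.measure_lt_top.ne
  have hρi : Integrable ρ := by
    by_contra hcon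
    have := hρ.int
    rw [integral_undef hcon] at this
    norm_num at this
  have hpt : ∀ x, ρ x * Real.log V⁻¹ + ρ x - Λ.indicator (fun _ => V⁻¹) x ≤
      ρ x * Real.log (ρ x) := by
    intro x
    by_cases hx : x ∈ Λ
    · rw [indicator_of_mem hx]
      have := young (a := ρ x) (b := Real.log V⁻¹) (hρ.nonneg x)
      rw [Real.exp_log (inv_pos.2 hV)] at this
      linarith
    · rw [indicator_of_notMem hx, hρ.supp x hx]
      simp
  have hci : Integrable (Λ.indicator fun _ => V⁻¹) := by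
    rw [integrable_indicator_iff hΛm]
    exact integrableOn_const hfin
  have h0 : Integrable (fun x => ρ x * Real.log V⁻¹ + ρ x) := (hρi.mul_const _).add hρi
  have h1 : ∫ x, (ρ x * Real.log V⁻¹ + ρ x - Λ.indicator (fun _ => V⁻¹) x) ≤
      ∫ x, ρ x * Real.log (ρ x) :=
    integral_mono (h0.sub hci) hρ.ent hpt
  rw [integral_sub h0 hci, integral_add (hρi.mul_const _) hρi,
    integral_mul_const, hρ.int, integral_indicator hΛm, setIntegral_const, smul_eq_mul,
    ← hVdef, mul_inv_cancel₀ hV.ne', Real.log_inv] at h1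
  unfold entS
  rw [← hVdef]
  linarith

end Pool.Agent.Lib.MP_fa244c_mp
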