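import Pool.Agent.Lib.MP_fa244c_mp.PairLog
import Pool.Agent.Lib.MP_fa244c_mp.Collar
import Pool.Agent.Lib.MP_fa244c_mp.Pot

set_option autoImplicit false

open MeasureTheory Filter Topology Set Metric

namespace Pool.Agent.Lib.MP_fa244c_mp

namespace KN

/-- Cutoff near the boundary. -/
noncomputable def chi (Λ : Set ℂ) (n : ℕ) (x : ℂ) : ℝ :=
  max 0 (min 1 (n * infDist x Λᶜ - 1))

/-- The Green function cut off at height `n`. -/
noncomputable def mK (g : ℂ → ℂ → ℝ) (n : ℕ) (x y : ℂ) : ℝ :=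
  g x y - Real.log (max ‖x - y‖ (Real.exp (g x y - n)))

/-- The truncated kernels. -/
noncomputable def qK (Λ : Set ℂ) (g : ℂ → ℂ → ℝ) (n : ℕ) (x y : ℂ) : ℝ :=
  chi Λ n x * chi Λ n y * mK g n x y

variable {Λ : Set ℂ} {g : ℂ → ℂ → ℝ}

theorem chi_nonneg (n : ℕ) (x : ℂ) : 0 ≤ chi Λ n x := le_max_left _ _

theorem chi_le_one (n : ℕ) (x : ℂ) : chi Λ n x ≤ 1 := max_le zero_le_one (min_le_left _ _)

theorem chi_cont (n : ℕ) : Continuous (chi Λ n) := by
  unfold chi
  exact continuous_const.max (continuous_const.min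
    ((continuous_const.mul (continuous_infDist_pt _)).sub continuous_const))

theorem chi_zero_of {n : ℕ} {x : ℂ} (h : n * infDist x Λᶜ < 1) : chi Λ n x = 0 := by
  unfold chi
  refine max_eq_left ?_
  exact (min_le_right _ _).trans (by linarith)

theorem chi_zero {n : ℕ} {x : ℂ} (h : x ∉ Λ) : chi Λ n x = 0 := by
  refine chi_zero_of ?_
  rw [infDist_zero_of_mem (show x ∈ Λᶜ from h)]
  simp

theorem chi_one {n : ℕ} {x : ℂ} (h : 2 ≤ n * infDist x Λᶜ) : chi Λ n x = 1 := by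
  unfold chi
  rw [min_eq_left (by linarith), max_eq_right zero_le_one]

theorem chi_ev_zero (n : ℕ) {x : ℂ} (h : x ∉ Λ) : ∀ᶠ y in 𝓝 x, chi Λ n y = 0 := by
  have h1 : ContinuousAt (fun y => (n : ℝ) * infDist y Λᶜ) x :=
    (continuous_const.mul (continuous_infDist_pt _)).continuousAt
  have h2 : (n : ℝ) * infDist x Λᶜ < 1 := by
    rw [infDist_zero_of_mem (show x ∈ Λᶜ from h)]
    simp
  filter_upwards [h1.eventually (gt_mem_nhds h2)] with y hy
  exact chi_zero_of hy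

theorem mK_ne {n : ℕ} {x y : ℂ} (h : x ≠ y) : mK g n x y = min (Gst g x y) n := by
  have h0 : 0 < ‖x - y‖ := norm_pos_iff.2 (sub_ne_zero.2 h)
  rw [Gst_eq]
  unfold mK
  rcases le_total ‖x - y‖ (Real.exp (g x y - n)) with h1 | h1
  · rw [max_eq_right h1, Real.log_exp, min_eq_right]
    · ring
    · have := (Real.log_le_iff_le_exp h0).2 h1
      linarith
  · rw [max_eq_left h1, min_eq_left]
    have := (Real.le_log_iff_exp_le h0).2 h1
    linarith

theorem mK_self {n : ℕ} {x : ℂ} : mK g n x x = n := by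
  unfold mK
  rw [sub_self, norm_zero, max_eq_right (Real.exp_pos _).le, Real.log_exp]
  ring

theorem mK_bd (hD : Dom Λ g) {n : ℕ} {x y : ℂ} (hx : x ∈ Λ) (hy : y ∈ Λ) :
    0 ≤ mK g n x y ∧ mK g n x y ≤ n := by
  by_cases h : x = y
  · subst h
    rw [mK_self]
    exact ⟨Nat.cast_nonneg _, le_rfl⟩
  · rw [mK_ne h]
    exact ⟨le_min (Gst_nonneg hD hx hy h) (Nat.cast_nonneg _), min_le_right _ _⟩

theorem qK_bd (hD : Dom Λ g) (n : ℕ) (x y : ℂ) : 0 ≤ qK Λ g n x y ∧ qK Λ g n x y ≤ n := by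
  unfold qK
  by_cases hx : x ∈ Λ
  · by_cases hy : y ∈ Λ
    · obtain ⟨h1, h2⟩ := mK_bd hD (n := n) hx hy
      have h3 : 0 ≤ chi Λ n x * chi Λ n y := mul_nonneg (chi_nonneg _ _) (chi_nonneg _ _)
      have h4 : chi Λ n x * chi Λ n y ≤ 1 :=
        mul_le_one₀ (chi_le_one _ _) (chi_nonneg _ _) (chi_le_one _ _)
      refine ⟨mul_nonneg h3 h1, ?_⟩
      calc _ ≤ 1 * (n : ℝ) := mul_le_mul h4 h2 h1 zero_le_one
        _ = n := one_mul _
    · rw [chi_zero hy]; simp
  · rw [chi_zero hx]; simp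

theorem qK_cont (hD : Dom Λ g) (n : ℕ) : Continuous (fun p : ℂ × ℂ => qK Λ g n p.1 p.2) := by
  rw [continuous_iff_continuousAt]
  rintro ⟨x, y⟩
  by_cases hx : x ∈ Λ
  · by_cases hy : y ∈ Λ
    · have h1 : ContinuousAt (fun p : ℂ × ℂ => g p.1 p.2) (x, y) :=
        (gg_contDiffAt hD hx hy).continuousAt
      have h2 : ContinuousAt (fun p : ℂ × ℂ => chi Λ n p.1) (x, y) :=
        ((chi_cont n).comp continuous_fst).continuousAt
      have h3 : ContinuousAt (fun p : ℂ × ℂ => chi Λ n p.2) (x, y) :=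
        ((chi_cont n).comp continuous_snd).continuousAt
      have h4 : ContinuousAt (fun p : ℂ × ℂ => ‖p.1 - p.2‖) (x, y) :=
        (continuous_fst.sub continuous_snd).norm.continuousAt
      have h5 : ContinuousAt (fun p : ℂ × ℂ => Real.exp (g p.1 p.2 - n)) (x, y) :=
        (h1.sub continuousAt_const).rexp
      have h6 : ContinuousAt (fun p : ℂ × ℂ => max ‖p.1 - p.2‖ (Real.exp (g p.1 p.2 - n)))
          (x, y) := h4.max h5
      have h7 := h6.log (lt_of_lt_of_le (Real.exp_pos _) (le_max_right _ _)).ne'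
      exact (h2.mul h3).mul (h1.sub h7)
    · have h1 : (fun p : ℂ × ℂ => qK Λ g n p.1 p.2) =ᶠ[𝓝 (x, y)] fun _ => 0 := by
        have h2 : Tendsto (fun p : ℂ × ℂ => p.2) (𝓝 (x, y)) (𝓝 y) := continuous_snd.tendsto (x, y)
        filter_upwards [h2.eventually (chi_ev_zero n hy)] with p hp
        unfold qK
        rw [hp]; simp
      exact continuousAt_const.congr h1.symm
  · have h1 : (fun p : ℂ × ℂ => qK Λ g n p.1 p.2) =ᶠ[𝓝 (x, y)] fun _ => 0 := by
      have h2 : Tendsto (fun p : ℂ × ℂ => p.1) (𝓝 (x, y)) (𝓝 x) := continuous_fst.tendsto (x, y)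
      filter_upwards [h2.eventually (chi_ev_zero n hx)] with p hp
      unfold qK
      rw [hp]; simp
    exact continuousAt_const.congr h1.symm

theorem qK_symm (hD : Dom Λ g) (n : ℕ) (x y : ℂ) : qK Λ g n x y = qK Λ g n y x := by
  unfold qK
  by_cases hx : x ∈ Λ
  · by_cases hy : y ∈ Λ
    · unfold mK
      rw [g_symm hD hx hy, norm_sub_rev x y]
      ring
    · rw [chi_zero hy]; simp
  · rw [chi_zero hx]; simp

theorem infDist_pos' (hD : Dom Λ g) {x : ℂ} (hx : x ∈ Λ) : 0 < infDist x Λᶜ := by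
  have hne : (Λᶜ).Nonempty := by
    by_contra h
    rw [Set.not_nonempty_iff_eq_empty, compl_empty_iff] at h
    have := hD.bdd
    rw [h] at this
    exact NormedSpace.noncompactSpace ℝ ℂ |>.noncompact_univ (by
      rw [← closure_univ]; exact this.isCompact_closure)
  rw [← hD.isOpen.isClosed_compl.notMem_iff_infDist_pos hne]
  exact fun h => h hx

theorem qK_tendsto (hD : Dom Λ g) {x y : ℂ} (hx : x ∈ Λ) (hy : y ∈ Λ) (hxy : x ≠ y) :
    Tendsto (fun n => qK Λ g n x y) atTop (𝓝 (Gst g x y)) := by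
  have hc : ∀ z ∈ Λ, ∀ᶠ n : ℕ in atTop, chi Λ n z = 1 := by
    intro z hz
    have h0 := infDist_pos' hD hz
    filter_upwards [(tendsto_natCast_atTop_atTop (R := ℝ)).eventually_ge_atTop
      (2 / infDist z Λᶜ)] with n hn
    refine chi_one ?_
    rwa [div_le_iff₀ h0] at hn
  have h2 : ∀ᶠ n : ℕ in atTop, Gst g x y ≤ n :=
    (tendsto_natCast_atTop_atTop (R := ℝ)).eventually_ge_atTop _
  refine tendsto_const_nhds.congr' ?_
  filter_upwards [hc x hx, hc y hy, h2] with n h3 h4 h5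
  unfold qK
  rw [h3, h4, mK_ne hxy, min_eq_left h5]
  ring

theorem qK_le (hD : Dom Λ g) {n : ℕ} {x y : ℂ} (hx : x ∈ Λ) (hy : y ∈ Λ) (hxy : x ≠ y) :
    qK Λ g n x y ≤ Gst g x y := by
  unfold qK
  rw [mK_ne hxy]
  have h3 : 0 ≤ chi Λ n x * chi Λ n y := mul_nonneg (chi_nonneg _ _) (chi_nonneg _ _)
  have h4 : chi Λ n x * chi Λ n y ≤ 1 :=
    mul_le_one₀ (chi_le_one _ _) (chi_nonneg _ _) (chi_le_one _ _)
  have h5 := Gst_nonneg hD hx hy hxy
  have h6 : 0 ≤ min (Gst g x y) (n : ℝ) := le_min h5 (Nat.cast_nonneg _)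
  calc chi Λ n x * chi Λ n y * min (Gst g x y) n ≤ 1 * Gst g x y :=
        mul_le_mul h4 (min_le_left _ _) h6 zero_le_one
    _ = Gst g x y := one_mul _

/-- Convergence of the truncated energies. -/
theorem conv (hD : Dom Λ g) (hm : Measurable (Function.uncurry g)) {ρp ρm : ℂ → ℝ}
    (hp : IsDens Λ ρp) (hq : IsDens Λ ρm) :
    Tendsto (fun n => 1 / 2 * ∫ x, ∫ y, qK Λ g n x y * (ρp x - ρm x) * (ρp y - ρm y)) atTop
          (𝓝 (enE g ρp ρm)) := by
  have hF : Integrable (fun p : ℂ × ℂ => Gst g p.1 p.2 * (ρp p.1 - ρm p.1) * (ρp p.2 - ρm p.2)) := by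
    have h1 := (((pot_integrable hD hm hp hp).sub (pot_integrable hD hm hp hq)).sub
      (pot_integrable hD hm hq hp)).add (pot_integrable hD hm hq hq)
    refine h1.congr (Eventually.of_forall fun p => ?_)
    simp only [Pi.add_apply, Pi.sub_apply]
    ring
  have hdiag : ∀ᵐ p : ℂ × ℂ, p.1 ≠ p.2 := by
    rw [ae_iff]
    have hms : MeasurableSet {p : ℂ × ℂ | ¬ p.1 ≠ p.2} := by
      have : {p : ℂ × ℂ | ¬ p.1 ≠ p.2} = {p : ℂ × ℂ | p.1 = p.2} := by
        ext p; simp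
      rw [this]
      exact (isClosed_eq continuous_fst continuous_snd).measurableSet
    rw [Measure.volume_eq_prod, Measure.measure_prod_null hms]
    refine Eventually.of_forall fun x => ?_
    have : Prod.mk x ⁻¹' {p : ℂ × ℂ | ¬ p.1 ≠ p.2} = {x} := by
      ext y; simp [eq_comm]
    show volume (Prod.mk x ⁻¹' {p : ℂ × ℂ | ¬ p.1 ≠ p.2}) = 0
    rw [this]
    simp
  have hmeas : ∀ n, AEStronglyMeasurable
      (fun p : ℂ × ℂ => qK Λ g n p.1 p.2 * (ρp p.1 - ρm p.1) * (ρp p.2 - ρm p.2)) volume := by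
    intro n
    have h1 := (qK_cont hD n).measurable
    have h2 : Measurable (fun p : ℂ × ℂ => ρp p.1 - ρm p.1) :=
      (hp.meas.comp measurable_fst).sub (hq.meas.comp measurable_fst)
    have h3 : Measurable (fun p : ℂ × ℂ => ρp p.2 - ρm p.2) :=
      (hp.meas.comp measurable_snd).sub (hq.meas.comp measurable_snd)
    exact ((h1.mul h2).mul h3).aestronglyMeasurable
  have hz : ∀ x, x ∉ Λ → ρp x - ρm x = 0 := by
    intro x hx
    rw [hp.supp x hx, hq.supp x hx, sub_zero]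
  have hbd : ∀ n, ∀ᵐ p : ℂ × ℂ,
      ‖qK Λ g n p.1 p.2 * (ρp p.1 - ρm p.1) * (ρp p.2 - ρm p.2)‖ ≤
      ‖Gst g p.1 p.2 * (ρp p.1 - ρm p.1) * (ρp p.2 - ρm p.2)‖ := by
    intro n
    filter_upwards [hdiag] with p hpne
    by_cases hx : p.1 ∈ Λ
    · by_cases hy : p.2 ∈ Λ
      · rw [norm_mul, norm_mul, norm_mul, norm_mul]
        refine mul_le_mul_of_nonneg_right (mul_le_mul_of_nonneg_right ?_ (norm_nonneg _))
          (norm_nonneg _)
        rw [Real.norm_of_nonneg (qK_bd hD n _ _).1,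
          Real.norm_of_nonneg (Gst_nonneg hD hx hy hpne)]
        exact qK_le hD hx hy hpne
      · rw [hz _ hy]; simp
    · rw [hz _ hx]; simp
  have hint : ∀ n, Integrable
      (fun p : ℂ × ℂ => qK Λ g n p.1 p.2 * (ρp p.1 - ρm p.1) * (ρp p.2 - ρm p.2)) :=
    fun n => hF.mono (hmeas n) (hbd n)
  have hlim : Tendsto (fun n => ∫ p : ℂ × ℂ,
      qK Λ g n p.1 p.2 * (ρp p.1 - ρm p.1) * (ρp p.2 - ρm p.2)) atTop
      (𝓝 (∫ p : ℂ × ℂ, Gst g p.1 p.2 * (ρp p.1 - ρm p.1) * (ρp p.2 - ρm p.2))) := by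
    refine tendsto_integral_of_dominated_convergence _ hmeas hF.norm hbd ?_
    filter_upwards [hdiag] with p hpne
    by_cases hx : p.1 ∈ Λ
    · by_cases hy : p.2 ∈ Λ
      · exact ((qK_tendsto hD hx hy hpne).mul_const _).mul_const _
      · rw [hz _ hy]; simp
    · rw [hz _ hx]; simp
  have e1 : ∀ n, ∫ x, ∫ y, qK Λ g n x y * (ρp x - ρm x) * (ρp y - ρm y) =
      ∫ p : ℂ × ℂ, qK Λ g n p.1 p.2 * (ρp p.1 - ρm p.1) * (ρp p.2 - ρm p.2) := by
    intro n
    rw [Measure.volume_eq_prod, integral_prod _ (by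
      rw [← Measure.volume_eq_prod]; exact hint n)]
  have e2 : ∫ x, ∫ y, Gst g x y * (ρp x - ρm x) * (ρp y - ρm y) =
      ∫ p : ℂ × ℂ, Gst g p.1 p.2 * (ρp p.1 - ρm p.1) * (ρp p.2 - ρm p.2) := by
    rw [Measure.volume_eq_prod, integral_prod _ (by
      rw [← Measure.volume_eq_prod]; exact hF)]
  unfold enE
  rw [e2]
  simp_rw [e1]
  exact hlim.const_mul _

/-- Pointwise bound off the diagonal. -/
theorem off_bound (hD : Dom Λ g) {D a τ : ℝ} (hDd : ∀ x ∈ Λ, ∀ y ∈ Λ, g x y ≤ Real.log D)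
    (hD1 : 1 ≤ D) (ha : 0 < a) (ha1 : a ≤ 1) {n : ℕ} (hn1 : D * Real.exp (-n) ≤ a)
    (hn2 : 2 ≤ n * τ) {x y : ℂ} (hx : x ∈ Λ) (hy : y ∈ Λ) (hxy : x ≠ y) :
    |Gst g x y - qK Λ g n x y| ≤ 3 * max (Real.log (a / ‖x - y‖)) 0 +
      ((if infDist x Λᶜ < τ then 1 else 0) + (if infDist y Λᶜ < τ then 1 else 0)) *
        Real.log (D / a) := by
  have h0 : 0 < ‖x - y‖ := norm_pos_iff.2 (sub_ne_zero.2 hxy)
  have hD0 : 0 < D := by linarith
  obtain ⟨l, hl⟩ : ∃ l : ℝ, l = max (Real.log (a / ‖x - y‖)) 0 := ⟨_, rfl⟩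
  have hl0 : 0 ≤ l := by rw [hl]; exact le_max_right _ _
  have hlog : Real.log (a / ‖x - y‖) ≤ l := by rw [hl]; exact le_max_left _ _
  have hL0 : 0 ≤ Real.log (D / a) := Real.log_nonneg (by rw [le_div_iff₀ ha]; linarith)
  obtain ⟨G, hG⟩ : ∃ G : ℝ, G = Gst g x y := ⟨_, rfl⟩
  have hG0 : 0 ≤ G := by rw [hG]; exact Gst_nonneg hD hx hy hxy
  have hG1 : G ≤ Real.log D - Real.log ‖x - y‖ := by
    rw [hG, Gst_eq]
    linarith [hDd x hx y hy]
  have hG2 : G ≤ l + Real.log (D / a) := by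
    rw [Real.log_div ha.ne' h0.ne'] at hlog
    rw [Real.log_div hD0.ne' ha.ne']
    linarith
  have hna : Real.log D - n ≤ Real.log a := by
    have h1 := Real.log_le_log (by positivity) hn1
    rw [Real.log_mul hD0.ne' (Real.exp_pos _).ne', Real.log_exp] at h1
    linarith
  have hG3 : G - n ≤ l := by
    rw [Real.log_div ha.ne' h0.ne'] at hlog
    linarith
  have hq1 := (qK_bd hD n x y).1
  have hq2 : qK Λ g n x y ≤ G := by rw [hG]; exact qK_le hD hx hy hxy
  rw [← hl, ← hG, abs_of_nonneg (by linarith)]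
  have hs1 : (0 : ℝ) ≤ (if infDist x Λᶜ < τ then 1 else 0) := by split_ifs <;> norm_num
  have hs2 : (0 : ℝ) ≤ (if infDist y Λᶜ < τ then 1 else 0) := by split_ifs <;> norm_num
  by_cases hbx : infDist x Λᶜ < τ
  · rw [if_pos hbx]
    have h5 : 0 ≤ (if infDist y Λᶜ < τ then (1 : ℝ) else 0) * Real.log (D / a) :=
      mul_nonneg hs2 hL0
    linarith
  · by_cases hby : infDist y Λᶜ < τ
    · rw [if_pos hby]
      have h5 : 0 ≤ (if infDist x Λᶜ < τ then (1 : ℝ) else 0) * Real.log (D / a) :=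
        mul_nonneg hs1 hL0
      linarith
    · have hcx : chi Λ n x = 1 := by
        refine chi_one (hn2.trans ?_)
        exact mul_le_mul_of_nonneg_left (not_lt.1 hbx) (Nat.cast_nonneg _)
      have hcy : chi Λ n y = 1 := by
        refine chi_one (hn2.trans ?_)
        exact mul_le_mul_of_nonneg_left (not_lt.1 hby) (Nat.cast_nonneg _)
      have hq3 : qK Λ g n x y = min G n := by
        unfold qK
        rw [hcx, hcy, mK_ne hxy, ← hG]
        ring
      rw [hq3, if_neg hbx, if_neg hby]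
      rcases le_total G n with h6 | h6
      · rw [min_eq_left h6]; linarith
      · rw [min_eq_right h6]; linarith

/-- Deterministic bound for the deviation of the energy. -/
theorem dev_bound (hD : Dom Λ g) {D a τ : ℝ} (hDd : ∀ x ∈ Λ, ∀ y ∈ Λ, g x y ≤ Real.log D)
    (hD1 : 1 ≤ D) (ha : 0 < a) (ha1 : a ≤ 1) {n : ℕ} (hn1 : D * Real.exp (-n) ≤ a)
    (hn2 : 2 ≤ n * τ) {ι : Type} [Fintype ι] [DecidableEq ι] (ch : ι → ℝ)
    (hch : ∀ i, |ch i| = 1) {x : ι → ℂ} (hx : x ∈ Cfg Λ ι) :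
    |energy g ch x - 1 / 2 * ∑ i, ∑ j, ch i * ch j * qK Λ g n (x i) (x j)| ≤
      1 / 2 * ((Fintype.card ι : ℝ) * (Real.log D + n) + ∑ i, |Real.log (infDist (x i) Λᶜ)| +
        3 * ∑ i, ∑ j ∈ Finset.univ.erase i, max (Real.log (a / ‖x i - x j‖)) 0 +
        2 * ((Fintype.card ι : ℝ) * (Nat.card {i : ι // infDist (x i) Λᶜ < τ} : ℝ) *
          Real.log (D / a))) := by
  have hD0 : 0 < D := by linarith
  have hL0 : 0 ≤ Real.log (D / a) := Real.log_nonneg (by rw [le_div_iff₀ ha]; linarith)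
  have hcard : (Nat.card {i : ι // infDist (x i) Λᶜ < τ} : ℝ) =
      ∑ i, if infDist (x i) Λᶜ < τ then (1 : ℝ) else 0 := by
    classical
    rw [Nat.card_eq_fintype_card, Fintype.card_subtype, Finset.sum_boole]
  obtain ⟨s, hs⟩ : ∃ s : ι → ℝ, s = fun i => if infDist (x i) Λᶜ < τ then (1 : ℝ) else 0 :=
    ⟨_, rfl⟩
  have hs0 : ∀ i, 0 ≤ s i := by intro i; rw [hs]; simp only; split_ifs <;> norm_num
  have hdiag : ∀ i, |Gst g (x i) (x i) - qK Λ g n (x i) (x i)| ≤
      Real.log D + n + |Real.log (infDist (x i) Λᶜ)| := by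
    intro i
    have h1 : Gst g (x i) (x i) = g (x i) (x i) := by unfold Gst; rw [if_pos rfl]
    have h2 := hDd (x i) (hx.1 i) (x i) (hx.1 i)
    have h3 := log_infDist_le hD (hx.1 i) (hx.1 i)
    have h4 := qK_bd hD n (x i) (x i)
    have h5 := neg_abs_le (Real.log (infDist (x i) Λᶜ))
    have h6 : 0 ≤ Real.log D := Real.log_nonneg hD1
    have h7 := abs_nonneg (Real.log (infDist (x i) Λᶜ))
    have h8 : (0 : ℝ) ≤ n := Nat.cast_nonneg _
    rw [h1, abs_le]
    constructor <;> linarith [h4.1, h4.2]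
  have hrow : ∀ i, ∑ j, |Gst g (x i) (x j) - qK Λ g n (x i) (x j)| ≤
      (Real.log D + n + |Real.log (infDist (x i) Λᶜ)|) +
      (3 * ∑ j ∈ Finset.univ.erase i, max (Real.log (a / ‖x i - x j‖)) 0 +
        ∑ j, (s i + s j) * Real.log (D / a)) := by
    intro i
    rw [← Finset.add_sum_erase _ _ (Finset.mem_univ i)]
    refine add_le_add (hdiag i) ?_
    have h1 : ∑ j ∈ Finset.univ.erase i, |Gst g (x i) (x j) - qK Λ g n (x i) (x j)| ≤
        ∑ j ∈ Finset.univ.erase i, (3 * max (Real.log (a / ‖x i - x j‖)) 0 +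
          (s i + s j) * Real.log (D / a)) := by
      refine Finset.sum_le_sum fun j hj => ?_
      have hne : x i ≠ x j := fun h => (Finset.ne_of_mem_erase hj) (hx.2 h).symm
      rw [hs]
      exact off_bound hD hDd hD1 ha ha1 hn1 hn2 (hx.1 i) (hx.1 j) hne
    refine h1.trans ?_
    rw [Finset.sum_add_distrib, ← Finset.mul_sum]
    refine add_le_add le_rfl ?_
    exact Finset.sum_le_sum_of_subset_of_nonneg (Finset.erase_subset _ _)
      (fun j _ _ => mul_nonneg (add_nonneg (hs0 i) (hs0 j)) hL0)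
  have hdiff : energy g ch x - 1 / 2 * ∑ i, ∑ j, ch i * ch j * qK Λ g n (x i) (x j) =
      1 / 2 * ∑ i, ∑ j, ch i * ch j * (Gst g (x i) (x j) - qK Λ g n (x i) (x j)) := by
    unfold energy
    rw [← mul_sub, ← Finset.sum_sub_distrib]
    congr 1
    refine Finset.sum_congr rfl fun i _ => ?_
    rw [← Finset.sum_sub_distrib]
    refine Finset.sum_congr rfl fun j _ => ?_
    ring
  rw [hdiff, abs_mul, abs_of_pos (show (0 : ℝ) < 1 / 2 by norm_num)]
  refine mul_le_mul_of_nonneg_left ?_ (by norm_num)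
  calc |∑ i, ∑ j, ch i * ch j * (Gst g (x i) (x j) - qK Λ g n (x i) (x j))|
      ≤ ∑ i, ∑ j, |Gst g (x i) (x j) - qK Λ g n (x i) (x j)| := by
        refine (Finset.abs_sum_le_sum_abs _ _).trans (Finset.sum_le_sum fun i _ => ?_)
        refine (Finset.abs_sum_le_sum_abs _ _).trans (Finset.sum_le_sum fun j _ => ?_)
        rw [abs_mul, abs_mul, hch, hch, one_mul, one_mul]
    _ ≤ ∑ i, ((Real.log D + n + |Real.log (infDist (x i) Λᶜ)|) +
      (3 * ∑ j ∈ Finset.univ.erase i, max (Real.log (a / ‖x i - x j‖)) 0 +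
        ∑ j, (s i + s j) * Real.log (D / a))) := Finset.sum_le_sum fun i _ => hrow i
    _ = _ := by
        have e1 : ∑ i : ι, ∑ j : ι, (s i + s j) * Real.log (D / a) =
            2 * ((Fintype.card ι : ℝ) * (∑ i, s i) * Real.log (D / a)) := by
          simp_rw [← Finset.sum_mul, Finset.sum_add_distrib]
          simp only [Finset.sum_const, Finset.card_univ, nsmul_eq_mul]
          rw [← Finset.mul_sum]
          ring
        rw [hcard]
        rw [Finset.sum_add_distrib, Finset.sum_add_distrib, Finset.sum_add_distrib,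
          Finset.sum_add_distrib, e1, ← Finset.mul_sum, hs]
        simp only [Finset.sum_const, Finset.card_univ, nsmul_eq_mul]
        ring

end KN

open KN in
/-- Bounded continuous approximations of the Green kernel. -/
theorem exists_kernel {Λ : Set ℂ} {g : ℂ → ℂ → ℝ} (hD : Dom Λ g)
    (hm : Measurable (Function.uncurry g)) : ∃ q : ℕ → ℂ → ℂ → ℝ,
      (∀ n, Continuous (fun p : ℂ × ℂ => q n p.1 p.2)) ∧
      (∀ n, ∃ B : ℝ, ∀ x y, |q n x y| ≤ B) ∧
      (∀ n x y, q n x y = q n y x) ∧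
      (∀ ρp ρm : ℂ → ℝ, IsDens Λ ρp → IsDens Λ ρm →
        Tendsto (fun n => 1 / 2 * ∫ x, ∫ y, q n x y * (ρp x - ρm x) * (ρp y - ρm y)) atTop
          (𝓝 (enE g ρp ρm))) ∧
      ∀ η K : ℝ, 0 < η → 0 < K → ∃ n₀ : ℕ, ∀ n ≥ n₀, ∃ N₀ : ℕ,
        ∀ (ι : Type) [Fintype ι] [DecidableEq ι] (ch : ι → ℝ), (∀ i, |ch i| = 1) →
        N₀ ≤ Fintype.card ι →
        (PP Λ ι).real {x | η * (Fintype.card ι : ℝ) ^ 2 ≤
          |energy g ch x - 1 / 2 * ∑ i, ∑ j, ch i * ch j * q n (x i) (x j)|} ≤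
        Real.exp (-(K * Fintype.card ι)) := by
  refine ⟨qK Λ g, qK_cont hD, fun n => ⟨n, fun x y => ?_⟩, qK_symm hD,
    fun ρp ρm hp hq => conv hD hm hp hq, ?_⟩
  · rw [abs_of_nonneg (qK_bd hD n x y).1]
    exact (qK_bd hD n x y).2
  · intro η K hη hK
    obtain ⟨D, hD1, hDD⟩ := exists_diam hD
    have hDd : ∀ x ∈ Λ, ∀ y ∈ Λ, g x y ≤ Real.log D := fun x hx y hy => (hDD x hx y hy).2
    have hD0 : 0 < D := by linarith
    obtain ⟨a, N₁, ha, ha1, hpair⟩ := pair_log hD (η := η / 6) (K := K + 2) (by positivity)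
      (by positivity)
    have hL0 : 0 ≤ Real.log (D / a) := Real.log_nonneg (by rw [le_div_iff₀ ha]; linarith)
    obtain ⟨τ, hτ, hcnt⟩ := bdry_count hD (α := η / (8 * (Real.log (D / a) + 1))) (K := K + 2)
      (by positivity) (by positivity)
    obtain ⟨N₂, hbl⟩ := bdry_log hD (η := η / 4) (K := K + 2) (by positivity) (by positivity)
    have hev1 : ∀ᶠ n : ℕ in atTop, D * Real.exp (-n) ≤ a := by
      have h1 : Tendsto (fun n : ℕ => D * Real.exp (-(n : ℝ))) atTop (𝓝 (D * 0)) :=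
        ((Real.tendsto_exp_neg_atTop_nhds_zero).comp tendsto_natCast_atTop_atTop).const_mul D
      rw [mul_zero] at h1
      exact (h1.eventually (gt_mem_nhds ha)).mono fun n hn => hn.le
    have hev2 : ∀ᶠ n : ℕ in atTop, 2 ≤ n * τ := by
      filter_upwards [(tendsto_natCast_atTop_atTop (R := ℝ)).eventually_ge_atTop (2 / τ)] with n hn
      rwa [div_le_iff₀ hτ] at hn
    obtain ⟨n₀, hn₀⟩ := Filter.eventually_atTop.1 (hev1.and hev2)
    refine ⟨n₀, fun n hn => ?_⟩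
    obtain ⟨hn1, hn2⟩ := hn₀ n hn
    refine ⟨max (max N₁ N₂) (⌈4 * (Real.log D + n) / η⌉₊ + 1), ?_⟩
    intro ι _ _ ch hch hN
    have hprob := isProb_PP hD ι
    have hNa : N₁ ≤ Fintype.card ι := ((le_max_left _ _).trans (le_max_left _ _)).trans hN
    have hNb : N₂ ≤ Fintype.card ι := ((le_max_right _ _).trans (le_max_left _ _)).trans hN
    have hNc : ⌈4 * (Real.log D + n) / η⌉₊ + 1 ≤ Fintype.card ι := (le_max_right _ _).trans hN
    have h1 := hpair ι hNa
    have h2 := hcnt ι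
    have h3 := hbl ι hNb
    obtain ⟨N, hNdef⟩ : ∃ N : ℝ, N = (Fintype.card ι : ℝ) := ⟨_, rfl⟩
    have hN1 : 1 ≤ N := by
      rw [hNdef]
      exact_mod_cast (show 1 ≤ Fintype.card ι by omega)
    have hN2 : Real.log D + n ≤ η / 4 * N := by
      have h4 : 4 * (Real.log D + n) / η ≤ N := by
        refine (Nat.le_ceil _).trans ?_
        rw [hNdef]
        exact_mod_cast (show ⌈4 * (Real.log D + n) / η⌉₊ ≤ Fintype.card ι by omega)
      rw [div_le_iff₀ hη] at h4
      linarith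
    have hnull : (PP Λ ι).real {x | x ∉ Cfg Λ ι} = 0 := by
      have := ae_Cfg hD ι
      rw [ae_iff] at this
      rw [measureReal_def, this]; rfl
    have hsub : {x : ι → ℂ | η * (Fintype.card ι : ℝ) ^ 2 ≤
          |energy g ch x - 1 / 2 * ∑ i, ∑ j, ch i * ch j * qK Λ g n (x i) (x j)|} ⊆
        (({x | η / 6 * (Fintype.card ι : ℝ) ^ 2 ≤
          ∑ i, ∑ j ∈ Finset.univ.erase i, max (Real.log (a / ‖x i - x j‖)) 0} ∪
        {x | η / (8 * (Real.log (D / a) + 1)) * Fintype.card ι ≤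
          (Nat.card {i : ι // infDist (x i) Λᶜ < τ} : ℝ)}) ∪
        {x | η / 4 * (Fintype.card ι : ℝ) ^ 2 ≤
          ∑ i, |Real.log (infDist (x i) Λᶜ)|}) ∪ {x | x ∉ Cfg Λ ι} := by
      intro x hx
      by_contra hcon
      simp only [mem_union, mem_ofPred_eq, not_or, not_le, not_not] at hcon
      obtain ⟨⟨⟨c1, c2⟩, c3⟩, c4⟩ := hcon
      have hdev := dev_bound hD hDd hD1 ha ha1 hn1 hn2 ch hch c4
      have hx' : η * (Fintype.card ι : ℝ) ^ 2 ≤
          |energy g ch x - 1 / 2 * ∑ i, ∑ j, ch i * ch j * qK Λ g n (x i) (x j)| := hx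
      have hx2 := hx'.trans hdev
      rw [← hNdef] at hx2 c1 c2 c3
      have hc2' : (Nat.card {i : ι // infDist (x i) Λᶜ < τ} : ℝ) * Real.log (D / a) ≤
          η / 8 * N := by
        calc (Nat.card {i : ι // infDist (x i) Λᶜ < τ} : ℝ) * Real.log (D / a)
            ≤ (η / (8 * (Real.log (D / a) + 1)) * N) * (Real.log (D / a) + 1) :=
              mul_le_mul c2.le (by linarith) hL0 (by positivity)
          _ = η / 8 * N := by field_simp
      have hN3 : N * (Real.log D + n) ≤ N * (η / 4 * N) :=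
        mul_le_mul_of_nonneg_left hN2 (by linarith)
      have hN4 : N * ((Nat.card {i : ι // infDist (x i) Λᶜ < τ} : ℝ) * Real.log (D / a)) ≤
          N * (η / 8 * N) := mul_le_mul_of_nonneg_left hc2' (by linarith)
      have hN5 : 0 < η * N ^ 2 := by positivity
      nlinarith
    have hexp : 3 * Real.exp (-((K + 2) * N)) ≤ Real.exp (-(K * N)) := by
      have h5 : Real.exp (-(K * N)) = Real.exp (2 * N) * Real.exp (-((K + 2) * N)) := by
        rw [← Real.exp_add]; ring_nf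
      rw [h5]
      refine mul_le_mul_of_nonneg_right ?_ (Real.exp_pos _).le
      have h6 := Real.add_one_le_exp (2 * N)
      linarith
    rw [← hNdef] at h1 h2 h3 hsub ⊢
    refine (measureReal_mono hsub (measure_ne_top _ _)).trans ?_
    refine (measureReal_union_le _ _).trans ?_
    rw [hnull, add_zero]
    refine (measureReal_union_le _ _).trans ?_
    refine (add_le_add (measureReal_union_le _ _) le_rfl).trans ?_
    linarith

end Pool.Agent.Lib.MP_fa244c_mp
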