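import Pool.Agent.Lib.MP_fa244c_mp.WindowU
import Pool.Agent.Lib.MP_fa244c_mp.Kernel
import Pool.Agent.Lib.MP_fa244c_mp.DV

set_option autoImplicit false

open MeasureTheory Filter Topology Set Metric

namespace Pool.Agent.Lib.MP_fa244c_mp

namespace UBx

theorem integral_emp {m : ℕ} (hm : 1 ≤ m) (x : Fin m → ℂ) (f : ℂ → ℝ) :
    ∫ z, f z ∂(emp x : Measure ℂ) = (m : ℝ)⁻¹ * ∑ i, f (x i) := by
  have h0 : m ≠ 0 := by omega
  unfold emp
  rw [dif_neg h0]
  change ∫ z, f z ∂((m : ENNReal)⁻¹ • ∑ i, Measure.dirac (x i)) = _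
  rw [integral_smul_measure, integral_finsetSum_measure]
  · simp only [integral_dirac, ENNReal.toReal_inv, ENNReal.toReal_natCast, smul_eq_mul]
  · intro i _
    exact integrable_dirac (by simp)

/-- Integral of `F` against a product. -/
noncomputable def II (F : BoundedContinuousFunction (ℂ × ℂ) ℝ) (a b : ProbabilityMeasure ℂ) : ℝ :=
  ∫ z, F z ∂((a : Measure ℂ).prod (b : Measure ℂ))

theorem continuous_II (F : BoundedContinuousFunction (ℂ × ℂ) ℝ) :
    Continuous (fun p : ProbabilityMeasure ℂ × ProbabilityMeasure ℂ => II F p.1 p.2) :=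
  (ProbabilityMeasure.continuous_integral_boundedContinuousFunction F).comp
    ProbabilityMeasure.continuous_prod

theorem II_eq (F : BoundedContinuousFunction (ℂ × ℂ) ℝ) (a b : ProbabilityMeasure ℂ) :
    II F a b = ∫ x, ∫ y, F (x, y) ∂(b : Measure ℂ) ∂(a : Measure ℂ) := by
  unfold II
  exact integral_prod _ (F.integrable _)

theorem II_emp (F : BoundedContinuousFunction (ℂ × ℂ) ℝ) {m : ℕ} (hm : 1 ≤ m) (x y : Fin m → ℂ) :
    II F (emp x) (emp y) = (m : ℝ)⁻¹ * (m : ℝ)⁻¹ * ∑ i, ∑ j, F (x i, y j) := by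
  rw [II_eq, integral_emp hm x (fun z => ∫ y', F (z, y') ∂(emp y : Measure ℂ))]
  simp_rw [integral_emp hm y (fun z => F (_, z))]
  rw [← Finset.mul_sum, mul_assoc]

theorem integral_densM {r : ℂ → ℝ} (hr : Measurable r) (h0 : ∀ x, 0 ≤ r x) (f : ℂ → ℝ) :
    ∫ x, f x ∂(densM r) = ∫ x, f x * r x := by
  unfold densM
  rw [integral_withDensity_eq_integral_toReal_smul (by fun_prop) (by simp)]
  refine integral_congr_ae (Eventually.of_forall (fun x => ?_))
  simp only [ENNReal.toReal_ofReal (h0 x), smul_eq_mul]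
  ring

/-- The quadratic functional. -/
noncomputable def QQ (F : BoundedContinuousFunction (ℂ × ℂ) ℝ)
    (p : ProbabilityMeasure ℂ × ProbabilityMeasure ℂ) : ℝ :=
  1 / 2 * (II F p.1 p.1 - II F p.1 p.2 - II F p.2 p.1 + II F p.2 p.2)

theorem continuous_QQ (F : BoundedContinuousFunction (ℂ × ℂ) ℝ) : Continuous (QQ F) := by
  unfold QQ
  have h := continuous_II F
  have h11 : Continuous (fun p : ProbabilityMeasure ℂ × ProbabilityMeasure ℂ => II F p.1 p.1) :=
    h.comp (continuous_fst.prodMk continuous_fst)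
  have h12 : Continuous (fun p : ProbabilityMeasure ℂ × ProbabilityMeasure ℂ => II F p.1 p.2) := h
  have h21 : Continuous (fun p : ProbabilityMeasure ℂ × ProbabilityMeasure ℂ => II F p.2 p.1) :=
    h.comp (continuous_snd.prodMk continuous_fst)
  have h22 : Continuous (fun p : ProbabilityMeasure ℂ × ProbabilityMeasure ℂ => II F p.2 p.2) :=
    h.comp (continuous_snd.prodMk continuous_snd)
  exact continuous_const.mul (((h11.sub h12).sub h21).add h22)

theorem QQ_emp (F : BoundedContinuousFunction (ℂ × ℂ) ℝ) {m : ℕ} (hm : 1 ≤ m)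
    (x : Fin m ⊕ Fin m → ℂ) :
    QQ F (emp2 x) = (m : ℝ)⁻¹ * (m : ℝ)⁻¹ *
      (1 / 2 * ∑ i, ∑ j, chg m i * chg m j * F (x i, x j)) := by
  unfold QQ emp2
  simp only [II_emp F hm, Fintype.sum_sum_type, chg, Sum.elim_inl, Sum.elim_inr,
    Finset.sum_add_distrib, mul_one, one_mul, mul_neg, neg_mul, Finset.sum_neg_distrib]
  ring

theorem QQ_dens (F : BoundedContinuousFunction (ℂ × ℂ) ℝ)
    {p : ProbabilityMeasure ℂ × ProbabilityMeasure ℂ} {r s : ℂ → ℝ} (hr : Measurable r)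
    (hr0 : ∀ x, 0 ≤ r x) (hri : Integrable r) (hs : Measurable s) (hs0 : ∀ x, 0 ≤ s x)
    (hsi : Integrable s) (h1 : (p.1 : Measure ℂ) = densM r) (h2 : (p.2 : Measure ℂ) = densM s) :
    QQ F p = 1 / 2 * ∫ x, ∫ y, F (x, y) * (r x - s x) * (r y - s y) := by
  have hb : ∀ a b : ℂ → ℝ, Integrable a → Integrable b →
      Integrable (fun x => (∫ y, F (x, y) * b y) * a x) := by
    intro a b ha hb
    have h3 : Integrable (fun q : ℂ × ℂ => F q * (a q.1 * b q.2)) (volume.prod volume) := by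
      refine (ha.mul_prod hb).bdd_mul (c := ‖F‖) F.continuous.aestronglyMeasurable ?_
      exact Eventually.of_forall (fun q => F.norm_coe_le_norm q)
    refine h3.integral_prod_left.congr (Eventually.of_forall (fun x => ?_))
    simp only
    rw [← integral_mul_const]
    refine integral_congr_ae (Eventually.of_forall (fun y => ?_))
    simp only
    ring
  have hy : ∀ (b : ℂ → ℝ), Integrable b → ∀ x, Integrable (fun y => F (x, y) * b y) := by
    intro b hb x
    refine hb.bdd_mul (c := ‖F‖) ?_ (Eventually.of_forall (fun y => F.norm_coe_le_norm _))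
    exact (F.continuous.comp (continuous_const.prodMk continuous_id)).aestronglyMeasurable
  have e1 : ∀ x, ∫ y, F (x, y) * (r x - s x) * (r y - s y) =
      (∫ y, F (x, y) * r y) * r x - (∫ y, F (x, y) * s y) * r x - (∫ y, F (x, y) * r y) * s x +
        (∫ y, F (x, y) * s y) * s x := by
    intro x
    have : (fun y => F (x, y) * (r x - s x) * (r y - s y)) =
        fun y => (r x - s x) * (F (x, y) * r y) - (r x - s x) * (F (x, y) * s y) := by
      funext y; ring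
    rw [this, integral_sub ((hy r hri x).const_mul _) ((hy s hsi x).const_mul _),
      integral_const_mul, integral_const_mul]
    ring
  simp_rw [e1]
  have i1 : Integrable (fun x => (∫ y, F (x, y) * r y) * r x - (∫ y, F (x, y) * s y) * r x) :=
    (hb r r hri hri).sub (hb r s hri hsi)
  have i2 : Integrable (fun x => (∫ y, F (x, y) * r y) * r x - (∫ y, F (x, y) * s y) * r x -
      (∫ y, F (x, y) * r y) * s x) := i1.sub (hb s r hsi hri)
  rw [integral_add i2 (hb s s hsi hsi), integral_sub i1 (hb s r hsi hri),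
    integral_sub (hb r r hri hri) (hb r s hri hsi)]
  unfold QQ
  rw [II_eq, II_eq, II_eq, II_eq, h1, h2]
  simp only [integral_densM hr hr0, integral_densM hs hs0]

/-- Abstract form of the two cases: a statistic with small oscillation. -/
theorem window_case {Λ : Set ℂ} {g : ℂ → ℂ → ℝ} (hD : Dom Λ g)
    (hm : Measurable (Function.uncurry g)) {κ K : ℝ} (hκ : 0 < κ) (hK : 0 < K) :
    ∃ m₀ : ℕ, ∀ m ≥ m₀, 1 ≤ m ∧ ∀ E h : ℝ, 0 < h → h ≤ 1 →
      ∀ W W' : Set (Fin m ⊕ Fin m → ℂ), MeasurableSet W → MeasurableSet W' →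
      (∀ x ∈ W, ∀ i, ∀ z : ℂ, Function.update x i z ∈ W') →
      (PP Λ (Fin m ⊕ Fin m)).real {x | x ∈ W ∧ E ≤ energy g (chg m) x ∧
          energy g (chg m) x < E + h} ≤
        h * (Real.exp (κ * (2 * m)) *
            (PP Λ (Fin m ⊕ Fin m)).real {x | x ∈ W' ∧ |energy g (chg m) x - E| ≤ 2} +
          Real.exp (-(K * (2 * m)))) := by
  obtain ⟨N₀, hN⟩ := window_upper hD hm hκ hK
  refine ⟨max N₀ 1, fun m hm' => ⟨(le_max_right _ _).trans hm', ?_⟩⟩
  have hc : (Fintype.card (Fin m ⊕ Fin m) : ℝ) = 2 * m := by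
    simp only [Fintype.card_sum, Fintype.card_fin]
    push_cast
    ring
  have h := hN (Fin m ⊕ Fin m) (chg m) (by rintro (i | i) <;> simp [chg]) (by
    have : N₀ ≤ m := (le_max_left _ _).trans hm'
    simp only [Fintype.card_sum, Fintype.card_fin]
    omega)
  rw [hc] at h
  exact h

/-- Exponential moment of an additive statistic. -/
theorem chernoff {Λ : Set ℂ} {g : ℂ → ℂ → ℝ} (hD : Dom Λ g)
    (φ ψ : BoundedContinuousFunction ℂ ℝ) {m : ℕ} (a : ℝ) :
    (PP Λ (Fin m ⊕ Fin m)).real {x | a ≤ ∑ i, φ (x (Sum.inl i)) + ∑ i, ψ (x (Sum.inr i))} ≤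
      Real.exp (m * (Real.log (∫ x, Real.exp (φ x) ∂(unif Λ)) +
        Real.log (∫ x, Real.exp (ψ x) ∂(unif Λ))) - a) := by
  have := isProb_PP hD (Fin m ⊕ Fin m)
  have hu := isProb_unif hD
  have hei : ∀ χ : BoundedContinuousFunction ℂ ℝ, Integrable (fun x => Real.exp (χ x)) (unif Λ) := by
    intro χ
    refine Integrable.of_bound (C := Real.exp ‖χ‖) ?_ (Eventually.of_forall (fun x => ?_))
    · exact (Real.continuous_exp.comp χ.continuous).aestronglyMeasurable
    · rw [Real.norm_eq_abs, abs_of_pos (Real.exp_pos _)]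
      exact Real.exp_le_exp.2 ((le_abs_self _).trans (χ.norm_coe_le_norm x))
  have hpos : ∀ χ : BoundedContinuousFunction ℂ ℝ, 0 < ∫ x, Real.exp (χ x) ∂(unif Λ) := by
    intro χ
    exact integral_exp_pos (hei χ)
  obtain ⟨c, hc⟩ : ∃ c : Fin m ⊕ Fin m → ℂ → ℝ, c = fun i z =>
    Sum.elim (fun _ => Real.exp (φ z)) (fun _ => Real.exp (ψ z)) i := ⟨_, rfl⟩
  have e1 : ∀ x : Fin m ⊕ Fin m → ℂ,
      Real.exp (∑ i, φ (x (Sum.inl i)) + ∑ i, ψ (x (Sum.inr i))) = ∏ i, c i (x i) := by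
    intro x
    rw [hc, Fintype.prod_sum_type, Real.exp_add, Real.exp_sum, Real.exp_sum]
    rfl
  have e2 : ∫ x, Real.exp (∑ i, φ (x (Sum.inl i)) + ∑ i, ψ (x (Sum.inr i)))
      ∂(PP Λ (Fin m ⊕ Fin m)) = Real.exp (m * (Real.log (∫ x, Real.exp (φ x) ∂(unif Λ)) +
        Real.log (∫ x, Real.exp (ψ x) ∂(unif Λ)))) := by
    simp_rw [e1]
    unfold PP
    rw [integral_fintype_prod_eq_prod, Fintype.prod_sum_type]
    simp only [hc, Sum.elim_inl, Sum.elim_inr, Finset.prod_const, Finset.card_univ, Fintype.card_fin]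
    rw [mul_add, Real.exp_add, Real.exp_nat_mul, Real.exp_nat_mul, Real.exp_log (hpos φ),
      Real.exp_log (hpos ψ)]
  have h3 := mul_meas_ge_le_integral_of_nonneg (μ := PP Λ (Fin m ⊕ Fin m))
    (f := fun x : Fin m ⊕ Fin m → ℂ => Real.exp (∑ i, φ (x (Sum.inl i)) + ∑ i, ψ (x (Sum.inr i))))
    (Eventually.of_forall (fun x => (Real.exp_pos _).le)) ?_ (Real.exp a)
  · rw [e2] at h3
    rw [Real.exp_sub, le_div_iff₀ (Real.exp_pos _), mul_comm]
    refine le_trans (le_of_eq ?_) h3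
    congr 2
    ext x
    simp only [mem_ofPred_eq, Real.exp_le_exp]
  · refine Integrable.of_bound (C := Real.exp (m * ‖φ‖ + m * ‖ψ‖)) ?_
      (Eventually.of_forall (fun x => ?_))
    · exact Continuous.aestronglyMeasurable (by fun_prop)
    · rw [Real.norm_eq_abs, abs_of_pos (Real.exp_pos _)]
      refine Real.exp_le_exp.2 (add_le_add ?_ ?_)
      · refine (Finset.sum_le_card_nsmul _ _ ‖φ‖ (fun i _ =>
          (le_abs_self _).trans (φ.norm_coe_le_norm _))).trans (le_of_eq ?_)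
        simp
      · refine (Finset.sum_le_card_nsmul _ _ ‖ψ‖ (fun i _ =>
          (le_abs_self _).trans (ψ.norm_coe_le_norm _))).trans (le_of_eq ?_)
        simp


/-- Case 1: a linear statistic. -/
theorem case1 {Λ : Set ℂ} {g : ℂ → ℂ → ℝ} (hD : Dom Λ g)
    (hm : Measurable (Function.uncurry g)) {s : ℝ}
    (p : ProbabilityMeasure ℂ × ProbabilityMeasure ℂ) (φ ψ : BoundedContinuousFunction ℂ ℝ)
    (hp : -(2 * s) < ∫ x, φ x ∂(p.1 : Measure ℂ) + ∫ x, ψ x ∂(p.2 : Measure ℂ) -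
      (Real.log (∫ x, Real.exp (φ x) ∂(unif Λ)) + Real.log (∫ x, Real.exp (ψ x) ∂(unif Λ)))) :
    ∃ (δ : ℝ) (V : Set (ProbabilityMeasure ℂ × ProbabilityMeasure ℂ)) (m₀ : ℕ), 0 < δ ∧
      IsOpen V ∧ p ∈ V ∧ ∀ m ≥ m₀, ∀ E h : ℝ, 0 < h → h ≤ 1 →
      (PP Λ (Fin m ⊕ Fin m)).real {x | emp2 x ∈ V ∧ E ≤ energy g (chg m) x ∧
          energy g (chg m) x < E + h} ≤ h * Real.exp (2 * m * (s - δ)) := by
  obtain ⟨c, hc⟩ : ∃ c : ℝ, c = Real.log (∫ x, Real.exp (φ x) ∂(unif Λ)) +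
    Real.log (∫ x, Real.exp (ψ x) ∂(unif Λ)) := ⟨_, rfl⟩
  rw [← hc] at hp
  obtain ⟨Φ, hΦ⟩ : ∃ Φ : ProbabilityMeasure ℂ × ProbabilityMeasure ℂ → ℝ, Φ = fun p' =>
    ∫ x, φ x ∂(p'.1 : Measure ℂ) + ∫ x, ψ x ∂(p'.2 : Measure ℂ) := ⟨_, rfl⟩
  have hΦc : Continuous Φ := by
    rw [hΦ]
    exact ((ProbabilityMeasure.continuous_integral_boundedContinuousFunction φ).comp
      continuous_fst).add ((ProbabilityMeasure.continuous_integral_boundedContinuousFunction ψ).comp
      continuous_snd)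
  obtain ⟨γ, hγ⟩ : ∃ γ : ℝ, 4 * γ = Φ p - c + 2 * s := ⟨(Φ p - c + 2 * s) / 4, by ring⟩
  have hγ0 : 0 < γ := by
    have : Φ p = ∫ x, φ x ∂(p.1 : Measure ℂ) + ∫ x, ψ x ∂(p.2 : Measure ℂ) := by rw [hΦ]
    rw [← this] at hp
    linarith
  obtain ⟨B, hB0, hBφ, hBψ⟩ : ∃ B : ℝ, 0 < B ∧ ‖φ‖ ≤ B ∧ ‖ψ‖ ≤ B :=
    ⟨‖φ‖ + ‖ψ‖ + 1, by positivity, by linarith [norm_nonneg ψ], by linarith [norm_nonneg φ]⟩
  obtain ⟨m₁, hm₁⟩ := window_case hD hm (κ := γ / 2) (K := |s| + γ + 1) (by linarith) (by positivity)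
  obtain ⟨m₂, hm₂⟩ := exists_nat_ge (2 * B / γ)
  obtain ⟨m₃, hm₃⟩ := exists_nat_ge (2 * Real.log 2 / γ)
  refine ⟨γ / 4, Φ ⁻¹' (Ioi (c - 2 * s + 3 * γ)), max m₁ (max m₂ m₃), by linarith,
    isOpen_Ioi.preimage hΦc, ?_, ?_⟩
  · simp only [mem_preimage, mem_Ioi]
    linarith
  intro m hmm E h hh hh1
  have hma : m₁ ≤ m := (le_max_left _ _).trans hmm
  have hmb : (m₂ : ℝ) ≤ m := by
    exact_mod_cast ((le_max_left _ _).trans (le_max_right _ _)).trans hmm
  have hmc : (m₃ : ℝ) ≤ m := by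
    exact_mod_cast ((le_max_right _ _).trans (le_max_right _ _)).trans hmm
  obtain ⟨hm1, hw⟩ := hm₁ m hma
  have hmr : (0 : ℝ) < m := by exact_mod_cast hm1
  obtain ⟨S, hS⟩ : ∃ S : (Fin m ⊕ Fin m → ℂ) → ℝ, S = fun x =>
    ∑ i, φ (x (Sum.inl i)) + ∑ i, ψ (x (Sum.inr i)) := ⟨_, rfl⟩
  have hSc : Continuous S := by
    rw [hS]; fun_prop
  have hΦS : ∀ x : Fin m ⊕ Fin m → ℂ, Φ (emp2 x) = (m : ℝ)⁻¹ * S x := by
    intro x
    rw [hΦ, hS]
    simp only [emp2, integral_emp hm1]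
    ring
  have hupd : ∀ (x : Fin m ⊕ Fin m → ℂ) (i : Fin m ⊕ Fin m) (z : ℂ),
      S x - 2 * B ≤ S (Function.update x i z) := by
    intro x i z
    obtain ⟨G, hG⟩ : ∃ G : Fin m ⊕ Fin m → ℂ → ℝ, G = fun i z =>
      Sum.elim (fun _ => φ z) (fun _ => ψ z) i := ⟨_, rfl⟩
    have hGB : ∀ i z, |G i z| ≤ B := by
      intro i z
      rw [hG]
      rcases i with i | i
      · exact (φ.norm_coe_le_norm z).trans hBφ
      · exact (ψ.norm_coe_le_norm z).trans hBψ
    have hSG : ∀ x, S x = ∑ i, G i (x i) := by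
      intro x
      rw [hS, hG, Fintype.sum_sum_type]
      rfl
    rw [hSG, hSG, ← Finset.add_sum_erase _ _ (Finset.mem_univ i),
      ← Finset.add_sum_erase (a := i) _ (fun j => G j (Function.update x i z j))
        (Finset.mem_univ i)]
    have e : ∑ j ∈ Finset.univ.erase i, G j (Function.update x i z j) =
        ∑ j ∈ Finset.univ.erase i, G j (x j) := by
      refine Finset.sum_congr rfl (fun j hj => ?_)
      rw [Function.update_of_ne (Finset.ne_of_mem_erase hj)]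
    rw [e, Function.update_self]
    have h1 := abs_le.1 (hGB i z)
    have h2 := abs_le.1 (hGB i (x i))
    linarith
  have hW := hw E h hh hh1 {x | emp2 x ∈ Φ ⁻¹' (Ioi (c - 2 * s + 3 * γ))}
    {x | m * (c - 2 * s + 2 * γ) ≤ S x} ?_ ?_ ?_
  · refine hW.trans (mul_le_mul_of_nonneg_left ?_ hh.le)
    have hPW : (PP Λ (Fin m ⊕ Fin m)).real {x | x ∈ {x | m * (c - 2 * s + 2 * γ) ≤ S x} ∧
        |energy g (chg m) x - E| ≤ 2} ≤ Real.exp (2 * m * (s - γ)) := by
      have := isProb_PP hD (Fin m ⊕ Fin m)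
      refine (measureReal_mono (fun x hx => hx.1)).trans ?_
      have hch := chernoff hD φ ψ (m := m) (m * (c - 2 * s + 2 * γ))
      rw [← hc] at hch
      rw [hS]
      refine hch.trans (le_of_eq ?_)
      congr 1
      ring
    have h1 : Real.exp (γ / 2 * (2 * m)) *
        (PP Λ (Fin m ⊕ Fin m)).real {x | x ∈ {x | m * (c - 2 * s + 2 * γ) ≤ S x} ∧
        |energy g (chg m) x - E| ≤ 2} ≤ Real.exp (2 * m * (s - γ / 2)) := by
      refine (mul_le_mul_of_nonneg_left hPW (Real.exp_pos _).le).trans (le_of_eq ?_)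
      rw [← Real.exp_add]
      congr 1
      ring
    have h2 : Real.exp (-((|s| + γ + 1) * (2 * m))) ≤ Real.exp (2 * m * (s - γ / 2)) := by
      refine Real.exp_le_exp.2 ?_
      have := neg_abs_le s
      nlinarith
    have h3 : 2 * Real.exp (2 * m * (s - γ / 2)) ≤ Real.exp (2 * m * (s - γ / 4)) := by
      have h4 : (2 : ℝ) ≤ Real.exp (m * γ / 2) := by
        rw [← Real.log_le_iff_le_exp (by norm_num)]
        rw [div_le_iff₀ hγ0] at hm₃
        nlinarith
      calc 2 * Real.exp (2 * m * (s - γ / 2)) ≤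
          Real.exp (m * γ / 2) * Real.exp (2 * m * (s - γ / 2)) :=
            mul_le_mul_of_nonneg_right h4 (Real.exp_pos _).le
        _ = _ := by
            rw [← Real.exp_add]
            congr 1
            ring
    linarith
  · have : {x : Fin m ⊕ Fin m → ℂ | emp2 x ∈ Φ ⁻¹' (Ioi (c - 2 * s + 3 * γ))} =
        {x | c - 2 * s + 3 * γ < (m : ℝ)⁻¹ * S x} := by
      ext x
      simp only [mem_ofPred_eq, mem_preimage, mem_Ioi, hΦS]
    rw [this]
    exact (isOpen_lt continuous_const (continuous_const.mul hSc)).measurableSet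
  · exact (isClosed_le continuous_const hSc).measurableSet
  · intro x hx i z
    simp only [mem_ofPred_eq, mem_preimage, mem_Ioi, hΦS] at hx ⊢
    rw [inv_mul_eq_div, lt_div_iff₀ hmr] at hx
    have h1 := hupd x i z
    rw [div_le_iff₀ hγ0] at hm₂
    nlinarith


/-- Case 2: the quadratic statistic. -/
theorem case2 {Λ : Set ℂ} {g : ℂ → ℂ → ℝ} (hD : Dom Λ g)
    (hm : Measurable (Function.uncurry g)) {ε s : ℝ}
    (p : ProbabilityMeasure ℂ × ProbabilityMeasure ℂ) {rp rm : ℂ → ℝ} (hrp : IsDens Λ rp)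
    (hrm : IsDens Λ rm) (h1 : (p.1 : Measure ℂ) = densM rp) (h2 : (p.2 : Measure ℂ) = densM rm)
    (hE : enE g rp rm ≠ 4 * ε) :
    ∃ (δ : ℝ) (V : Set (ProbabilityMeasure ℂ × ProbabilityMeasure ℂ)) (m₀ : ℕ), 0 < δ ∧
      IsOpen V ∧ p ∈ V ∧ ∀ m ≥ m₀, ∀ E h : ℝ, |E - (2 * m) ^ 2 * ε| ≤ 1 → 0 < h → h ≤ 1 →
      (PP Λ (Fin m ⊕ Fin m)).real {x | emp2 x ∈ V ∧ E ≤ energy g (chg m) x ∧
          energy g (chg m) x < E + h} ≤ h * Real.exp (2 * m * (s - δ)) := by
  obtain ⟨γ, hγ⟩ : ∃ γ : ℝ, γ = |enE g rp rm - 4 * ε| := ⟨_, rfl⟩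
  have hγ0 : 0 < γ := by
    rw [hγ]
    exact abs_pos.2 (sub_ne_zero.2 hE)
  obtain ⟨q, hqc, hqb, -, hqt, hqd⟩ := exists_kernel hD hm
  obtain ⟨n₀, hn₀⟩ := hqd (γ / 64) (|s| + 3) (by positivity) (by positivity)
  have hqt' := (hqt rp rm hrp hrm).eventually (Metric.ball_mem_nhds _ (show 0 < γ / 8 by positivity))
  obtain ⟨n₁, hn₁⟩ := eventually_atTop.1 hqt'
  obtain ⟨n, hn⟩ : ∃ n, n = max n₀ n₁ := ⟨_, rfl⟩
  have hnt := hn₁ n (by rw [hn]; exact le_max_right _ _)
  obtain ⟨N₀, hN₀⟩ := hn₀ n (by rw [hn]; exact le_max_left _ _)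
  obtain ⟨B', hB'⟩ := hqb n
  obtain ⟨B, hB0, hB⟩ : ∃ B : ℝ, 0 < B ∧ ∀ x y, |q n x y| ≤ B :=
    ⟨|B'| + 1, by positivity, fun x y => (hB' x y).trans (by linarith [le_abs_self B'])⟩
  obtain ⟨F, hF⟩ : ∃ F : BoundedContinuousFunction (ℂ × ℂ) ℝ, ∀ x y, F (x, y) = q n x y :=
    ⟨BoundedContinuousFunction.ofNormedAddCommGroup (fun p : ℂ × ℂ => q n p.1 p.2) (hqc n) B
      (fun p => hB p.1 p.2), fun x y => rfl⟩
  have hri : ∀ r : ℂ → ℝ, IsDens Λ r → Integrable r := by
    intro r hr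
    by_contra hni
    have := hr.int
    rw [integral_undef hni] at this
    norm_num at this
  have hQ : QQ F p = 1 / 2 * ∫ x, ∫ y, q n x y * (rp x - rm x) * (rp y - rm y) := by
    rw [QQ_dens F hrp.meas hrp.nonneg (hri _ hrp) hrm.meas hrm.nonneg (hri _ hrm) h1 h2]
    simp_rw [hF]
  rw [← hQ, Real.dist_eq] at hnt
  obtain ⟨m₁, hm₁⟩ := window_case hD hm (κ := 1) (K := |s| + 2) (by norm_num) (by positivity)
  obtain ⟨m₂, hm₂⟩ := exists_nat_ge (224 * B / γ)
  obtain ⟨m₃, hm₃⟩ := exists_nat_ge (5 / γ)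
  refine ⟨1, (fun p' => |QQ F p' - QQ F p|) ⁻¹' (Iio (γ / 8)), max (max m₁ N₀) (max m₂ m₃),
    by norm_num, isOpen_Iio.preimage ((continuous_QQ F).sub continuous_const).abs, ?_, ?_⟩
  · simp only [mem_preimage, mem_Iio, sub_self, abs_zero]
    positivity
  intro m hmm E h hEε hh hh1
  have hma : m₁ ≤ m := ((le_max_left _ _).trans (le_max_left _ _)).trans hmm
  have hmN : N₀ ≤ m := ((le_max_right _ _).trans (le_max_left _ _)).trans hmm
  have hmb : (m₂ : ℝ) ≤ m := by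
    exact_mod_cast ((le_max_left _ _).trans (le_max_right _ _)).trans hmm
  have hmc : (m₃ : ℝ) ≤ m := by
    exact_mod_cast ((le_max_right _ _).trans (le_max_right _ _)).trans hmm
  obtain ⟨hm1, hw⟩ := hm₁ m hma
  have hmr1 : (1 : ℝ) ≤ m := by exact_mod_cast hm1
  have hmr : (0 : ℝ) < m := by linarith
  have hch : ∀ i, |chg m i| = 1 := by rintro (i | i) <;> simp [chg]
  have hcard : (Fintype.card (Fin m ⊕ Fin m) : ℝ) = 2 * m := by
    simp only [Fintype.card_sum, Fintype.card_fin]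
    push_cast
    ring
  have hdev := hN₀ (Fin m ⊕ Fin m) (chg m) hch (by
    simp only [Fintype.card_sum, Fintype.card_fin]
    omega)
  rw [hcard] at hdev
  obtain ⟨S, hS⟩ : ∃ S : (Fin m ⊕ Fin m → ℂ) → ℝ, S = fun x =>
    1 / 2 * ∑ i, ∑ j, chg m i * chg m j * q n (x i) (x j) := ⟨_, rfl⟩
  have hSc : Continuous S := by
    rw [hS]
    refine continuous_const.mul (continuous_finsetSum _ (fun i _ => continuous_finsetSum _
      (fun j _ => continuous_const.mul ?_)))
    have h3 := (hqc n).comp (f := fun x : Fin m ⊕ Fin m → ℂ => (x i, x j))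
      ((continuous_apply i).prodMk (continuous_apply j))
    exact h3
  have hQS : ∀ x : Fin m ⊕ Fin m → ℂ, QQ F (emp2 x) = (m : ℝ)⁻¹ * (m : ℝ)⁻¹ * S x := by
    intro x
    rw [QQ_emp F hm1, hS]
    simp_rw [hF]
  have hupd : ∀ (x : Fin m ⊕ Fin m → ℂ) (i : Fin m ⊕ Fin m) (z : ℂ),
      |S (Function.update x i z) - S x| ≤ 4 * m * B := by
    intro x k z
    rw [hS]
    simp only
    rw [← mul_sub, ← Finset.sum_sub_distrib]
    simp_rw [← Finset.sum_sub_distrib]
    rw [abs_mul, abs_of_pos (by norm_num : (0:ℝ) < 1 / 2)]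
    have hterm : ∀ i j, |chg m i * chg m j * q n (Function.update x k z i)
        (Function.update x k z j) - chg m i * chg m j * q n (x i) (x j)| ≤
        2 * B * ((if i = k then 1 else 0) + (if j = k then 1 else 0)) := by
      intro i j
      by_cases hi : i = k
      · rw [← mul_sub, abs_mul, abs_mul, hch, hch, one_mul, one_mul]
        refine (abs_sub _ _).trans ?_
        have h3 := hB (Function.update x k z i) (Function.update x k z j)
        have h4 := hB (x i) (x j)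
        rw [if_pos hi]
        split_ifs <;> nlinarith
      · by_cases hj : j = k
        · rw [← mul_sub, abs_mul, abs_mul, hch, hch, one_mul, one_mul]
          refine (abs_sub _ _).trans ?_
          have h3 := hB (Function.update x k z i) (Function.update x k z j)
          have h4 := hB (x i) (x j)
          rw [if_pos hj, if_neg hi]
          nlinarith
        · rw [Function.update_of_ne hi, Function.update_of_ne hj, sub_self, abs_zero]
          rw [if_neg hi, if_neg hj]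
          simp
    have hsum : |∑ i, ∑ j, (chg m i * chg m j * q n (Function.update x k z i)
        (Function.update x k z j) - chg m i * chg m j * q n (x i) (x j))| ≤ 8 * m * B := by
      refine (Finset.abs_sum_le_sum_abs _ _).trans ?_
      refine (Finset.sum_le_sum (fun i _ => (Finset.abs_sum_le_sum_abs _ _).trans
        (Finset.sum_le_sum (fun j _ => hterm i j)))).trans (le_of_eq ?_)
      simp only [← Finset.mul_sum, Finset.sum_add_distrib, Finset.sum_const, Finset.card_univ,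
        nsmul_eq_mul, Finset.sum_ite_eq', Finset.mem_univ, if_true, hcard]
      ring
    linarith
  obtain ⟨c, hc⟩ : ∃ c : ℝ, c = (m : ℝ) ^ 2 * QQ F p := ⟨_, rfl⟩
  have hVS : ∀ x : Fin m ⊕ Fin m → ℂ, |QQ F (emp2 x) - QQ F p| < γ / 8 ↔
      |S x - c| < (m : ℝ) ^ 2 * (γ / 8) := by
    intro x
    rw [hQS]
    have e : S x - c = (m : ℝ) ^ 2 * ((m : ℝ)⁻¹ * (m : ℝ)⁻¹ * S x - QQ F p) := by
      rw [hc]
      field_simp
    rw [e, abs_mul, abs_of_pos (by positivity : (0:ℝ) < (m : ℝ) ^ 2)]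
    constructor
    · intro h3
      exact mul_lt_mul_of_pos_left h3 (by positivity)
    · intro h3
      exact lt_of_mul_lt_mul_left h3 (by positivity)
  have hW := hw E h hh hh1 {x | emp2 x ∈ (fun p' => |QQ F p' - QQ F p|) ⁻¹' (Iio (γ / 8))}
    {x | |S x - c| ≤ (m : ℝ) ^ 2 * (γ / 7)} ?_ ?_ ?_
  · refine hW.trans (mul_le_mul_of_nonneg_left ?_ hh.le)
    have hPW : (PP Λ (Fin m ⊕ Fin m)).real {x | x ∈ {x | |S x - c| ≤ (m : ℝ) ^ 2 * (γ / 7)} ∧
        |energy g (chg m) x - E| ≤ 2} ≤ Real.exp (-((|s| + 3) * (2 * m))) := by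
      have := isProb_PP hD (Fin m ⊕ Fin m)
      refine (measureReal_mono (fun x hx => ?_)).trans hdev
      obtain ⟨hx1, hx2⟩ := hx
      simp only [mem_ofPred_eq] at hx1 ⊢
      have hSx : 1 / 2 * ∑ i, ∑ j, chg m i * chg m j * q n (x i) (x j) = S x := by rw [hS]
      rw [hSx]
      have a1 := abs_le.1 hx1
      have a2 := abs_le.1 hx2
      have a3 := abs_le.1 hEε
      have a4 := abs_lt.1 hnt
      have hm2 : (0 : ℝ) < (m : ℝ) ^ 2 := by positivity
      have a5 : -((m : ℝ) ^ 2 * (γ / 8)) ≤ c - (m : ℝ) ^ 2 * enE g rp rm := by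
        rw [hc]; nlinarith
      have a6 : c - (m : ℝ) ^ 2 * enE g rp rm ≤ (m : ℝ) ^ 2 * (γ / 8) := by
        rw [hc]; nlinarith
      have a7 : 5 ≤ (m : ℝ) ^ 2 * γ := by
        rw [div_le_iff₀ hγ0] at hm₃
        nlinarith
      rcases le_total 0 (enE g rp rm - 4 * ε) with h0 | h0
      · rw [abs_of_nonneg h0] at hγ
        have a8 : (m : ℝ) ^ 2 * γ = (m : ℝ) ^ 2 * enE g rp rm - (2 * m) ^ 2 * ε := by
          rw [hγ]; ring
        refine le_trans ?_ (neg_le_abs _)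
        linarith
      · rw [abs_of_nonpos h0] at hγ
        have a8 : (m : ℝ) ^ 2 * γ = (2 * m) ^ 2 * ε - (m : ℝ) ^ 2 * enE g rp rm := by
          rw [hγ]; ring
        refine le_trans ?_ (le_abs_self _)
        linarith
    have h3 : Real.exp (1 * (2 * m)) *
        (PP Λ (Fin m ⊕ Fin m)).real {x | x ∈ {x | |S x - c| ≤ (m : ℝ) ^ 2 * (γ / 7)} ∧
        |energy g (chg m) x - E| ≤ 2} ≤ Real.exp (-((|s| + 2) * (2 * m))) := by
      refine (mul_le_mul_of_nonneg_left hPW (Real.exp_pos _).le).trans (le_of_eq ?_)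
      rw [← Real.exp_add]
      congr 1
      ring
    have h4 : (2 : ℝ) ≤ Real.exp (2 * m) := by
      have := Real.add_one_le_exp (2 * (m : ℝ))
      linarith
    have h5 : 2 * Real.exp (-((|s| + 2) * (2 * m))) ≤ Real.exp (2 * m * (s - 1)) := by
      calc 2 * Real.exp (-((|s| + 2) * (2 * m))) ≤
          Real.exp (2 * m) * Real.exp (-((|s| + 2) * (2 * m))) :=
            mul_le_mul_of_nonneg_right h4 (Real.exp_pos _).le
        _ = Real.exp (2 * m + -((|s| + 2) * (2 * m))) := by rw [← Real.exp_add]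
        _ ≤ _ := by
            refine Real.exp_le_exp.2 ?_
            have := neg_abs_le s
            nlinarith
    linarith
  · have : {x : Fin m ⊕ Fin m → ℂ | emp2 x ∈ (fun p' => |QQ F p' - QQ F p|) ⁻¹' (Iio (γ / 8))} =
        {x | |S x - c| < (m : ℝ) ^ 2 * (γ / 8)} := by
      ext x
      simp only [mem_ofPred_eq, mem_preimage, mem_Iio, hVS]
    rw [this]
    exact (isOpen_lt (hSc.sub continuous_const).abs continuous_const).measurableSet
  · exact (isClosed_le (hSc.sub continuous_const).abs continuous_const).measurableSet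
  · intro x hx i z
    simp only [mem_ofPred_eq, mem_preimage, mem_Iio, hVS] at hx ⊢
    have h3 := hupd x i z
    rw [div_le_iff₀ hγ0] at hm₂
    have h4 : 4 * m * B ≤ (m : ℝ) ^ 2 * (γ / 56) := by
      have h6 : 224 * B ≤ m * γ := hm₂.trans (mul_le_mul_of_nonneg_right hmb hγ0.le)
      have h7 := mul_le_mul_of_nonneg_left h6 hmr.le
      nlinarith
    have h5 : |S (Function.update x i z) - c| ≤ |S (Function.update x i z) - S x| + |S x - c| :=
      abs_sub_le _ _ _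
    linarith

end UBx

/-- Local upper bound near a pair of measures that is not given by an admissible pair of
densities of mean entropy at least `s`. -/
theorem local_upper {Λ : Set ℂ} {g : ℂ → ℂ → ℝ} (hD : Dom Λ g)
    (hm : Measurable (Function.uncurry g)) {ε s : ℝ}
    (p : ProbabilityMeasure ℂ × ProbabilityMeasure ℂ) (hp : ¬ Rep Λ g ε s p) :
    ∃ (δ : ℝ) (V : Set (ProbabilityMeasure ℂ × ProbabilityMeasure ℂ)) (m₀ : ℕ), 0 < δ ∧
      IsOpen V ∧ p ∈ V ∧ ∀ m ≥ m₀, ∀ E h : ℝ, |E - (2 * m) ^ 2 * ε| ≤ 1 → 0 < h → h ≤ 1 →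
      (PP Λ (Fin m ⊕ Fin m)).real {x | emp2 x ∈ V ∧ E ≤ energy g (chg m) x ∧
          energy g (chg m) x < E + h} ≤ h * Real.exp (2 * m * (s - δ)) := by
  by_cases hc : ∃ φ ψ : BoundedContinuousFunction ℂ ℝ,
      -(2 * s) < ∫ x, φ x ∂(p.1 : Measure ℂ) + ∫ x, ψ x ∂(p.2 : Measure ℂ) -
      (Real.log (∫ x, Real.exp (φ x) ∂(unif Λ)) + Real.log (∫ x, Real.exp (ψ x) ∂(unif Λ)))
  · obtain ⟨φ, ψ, h⟩ := hc
    obtain ⟨δ, V, m₀, h1, h2, h3, h4⟩ := UBx.case1 hD hm p φ ψ h
    exact ⟨δ, V, m₀, h1, h2, h3, fun m hm E h _ hh hh1 => h4 m hm E h hh hh1⟩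
  · push Not at hc
    have hu := isProb_unif hD
    obtain ⟨a, ha⟩ : ∃ a : BoundedContinuousFunction ℂ ℝ → ℝ, a = fun φ =>
      ∫ x, φ x ∂(p.1 : Measure ℂ) - Real.log (∫ x, Real.exp (φ x) ∂(unif Λ)) := ⟨_, rfl⟩
    obtain ⟨b, hb⟩ : ∃ b : BoundedContinuousFunction ℂ ℝ → ℝ, b = fun φ =>
      ∫ x, φ x ∂(p.2 : Measure ℂ) - Real.log (∫ x, Real.exp (φ x) ∂(unif Λ)) := ⟨_, rfl⟩
    have hab : ∀ φ ψ, a φ + b ψ ≤ -(2 * s) := by
      intro φ ψ
      have := hc φ ψ
      rw [ha, hb]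
      simp only
      linarith
    have hA : BddAbove (range a) := ⟨-(2 * s) - b 0, by
      rintro _ ⟨φ, rfl⟩
      linarith [hab φ 0]⟩
    have hB : BddAbove (range b) := ⟨-(2 * s) - a 0, by
      rintro _ ⟨φ, rfl⟩
      linarith [hab 0 φ]⟩
    have hsum : sSup (range a) + sSup (range b) ≤ -(2 * s) := by
      have h1 : ∀ ψ, sSup (range a) ≤ -(2 * s) - b ψ := by
        intro ψ
        refine csSup_le (range_nonempty a) ?_
        rintro _ ⟨φ, rfl⟩
        linarith [hab φ ψ]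
      have h2 : sSup (range b) ≤ -(2 * s) - sSup (range a) := by
        refine csSup_le (range_nonempty b) ?_
        rintro _ ⟨ψ, rfl⟩
        linarith [h1 ψ]
      linarith
    obtain ⟨rp, hrp, hp1, hSp⟩ := donsker_varadhan hD.isOpen hD.bdd hD.ne p.1 (sSup (range a))
      (fun φ => by
        have := le_csSup hA ⟨φ, rfl⟩
        rw [ha] at this ⊢
        exact this)
    obtain ⟨rm, hrm, hp2, hSm⟩ := donsker_varadhan hD.isOpen hD.bdd hD.ne p.2 (sSup (range b))
      (fun φ => by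
        have := le_csSup hB ⟨φ, rfl⟩
        rw [hb] at this ⊢
        exact this)
    refine UBx.case2 hD hm p hrp hrm hp1 hp2 (fun hE => hp ?_)
    exact ⟨rp, rm, ⟨hrp, hrm, hE⟩, hp1, hp2, by linarith⟩

end Pool.Agent.Lib.MP_fa244c_mp
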