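import Pool.Agent.Lib.MP_fa244c_mp.Micro
import Pool.Agent.Lib.MP_fa244c_mp.UB
import Pool.Agent.Lib.MP_fa244c_mp.SuppCpt

set_option autoImplicit false

open MeasureTheory Filter Topology Set Metric

namespace Pool.Agent.Lib.MP_fa244c_mp

/-- If no pair supported in the closure of `Λ` and lying in the closed set `F` is representable at
level `s`, then windows restricted to `F` are exponentially smaller than `exp (2 m s)`. -/
theorem closed_upper {Λ : Set ℂ} {g : ℂ → ℂ → ℝ} (hD : Dom Λ g)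
    (hm : Measurable (Function.uncurry g)) {ε s : ℝ}
    {F : Set (ProbabilityMeasure ℂ × ProbabilityMeasure ℂ)} (hF : IsClosed F)
    (hR : ∀ p ∈ F, ¬ Rep Λ g ε s p) :
    ∃ (δ : ℝ) (O : Set (ProbabilityMeasure ℂ × ProbabilityMeasure ℂ)) (m₀ : ℕ), 0 < δ ∧
      IsOpen O ∧ F ∩ SuppIn (closure Λ) ⊆ O ∧
      ∀ m ≥ m₀, ∀ E h : ℝ, |E - (2 * m) ^ 2 * ε| ≤ 1 → 0 < h → h ≤ 1 →
      (PP Λ (Fin m ⊕ Fin m)).real {x | emp2 x ∈ O ∧ E ≤ energy g (chg m) x ∧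
          energy g (chg m) x < E + h} ≤ h * Real.exp (2 * m * (s - δ)) := by
  classical
  have key : ∀ p : ProbabilityMeasure ℂ × ProbabilityMeasure ℂ, p ∈ F →
      ∃ (δ : ℝ) (V : Set (ProbabilityMeasure ℂ × ProbabilityMeasure ℂ)) (m₀ : ℕ), 0 < δ ∧
      IsOpen V ∧ p ∈ V ∧ ∀ m ≥ m₀, ∀ E h : ℝ, |E - (2 * m) ^ 2 * ε| ≤ 1 → 0 < h → h ≤ 1 →
      (PP Λ (Fin m ⊕ Fin m)).real {x | emp2 x ∈ V ∧ E ≤ energy g (chg m) x ∧
          energy g (chg m) x < E + h} ≤ h * Real.exp (2 * m * (s - δ)) :=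
    fun p hp => local_upper hD hm p (hR p hp)
  choose! δf Vf mf hδf hVo hpV hb using key
  have hS : IsCompact (F ∩ SuppIn (closure Λ)) :=
    (isCompact_suppIn hD.bdd.isCompact_closure).inter_left hF
  obtain ⟨t, htS, hcov⟩ := hS.elim_nhds_subcover Vf
    (fun p hp => (hVo p hp.1).mem_nhds (hpV p hp.1))
  have hd : ∃ d : ℝ, 0 < d ∧ ∀ p ∈ t, d ≤ δf p := by
    have : ∀ t : Finset (ProbabilityMeasure ℂ × ProbabilityMeasure ℂ), (∀ p ∈ t, 0 < δf p) →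
        ∃ d : ℝ, 0 < d ∧ ∀ p ∈ t, d ≤ δf p := by
      intro t
      induction t using Finset.induction_on with
      | empty => exact fun _ => ⟨1, one_pos, by simp⟩
      | insert a s _ ih =>
        intro h
        obtain ⟨d, hd, hd2⟩ := ih fun p hp => h p (Finset.mem_insert_of_mem hp)
        refine ⟨min d (δf a), lt_min hd (h a (Finset.mem_insert_self _ _)), fun p hp => ?_⟩
        rcases Finset.mem_insert.1 hp with rfl | hp
        · exact min_le_right _ _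
        · exact (min_le_left _ _).trans (hd2 p hp)
    exact this t fun p hp => hδf p (htS p hp).1
  obtain ⟨d, hd0, hdt⟩ := hd
  obtain ⟨n₁, hn₁⟩ := exists_nat_ge ((t.card : ℝ) / d)
  refine ⟨d / 2, ⋃ p ∈ t, Vf p, max (t.sup mf) n₁, by positivity,
    isOpen_biUnion fun p hp => hVo p (htS p hp).1, hcov, ?_⟩
  intro m hmm E h hE hh hh1
  have := isProb_PP hD (Fin m ⊕ Fin m)
  have hm1 : t.sup mf ≤ m := (le_max_left _ _).trans hmm
  have hm2 : (n₁ : ℝ) ≤ m := by exact_mod_cast (le_max_right _ _).trans hmm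
  have hsub : {x : Fin m ⊕ Fin m → ℂ | emp2 x ∈ ⋃ p ∈ t, Vf p ∧ E ≤ energy g (chg m) x ∧
      energy g (chg m) x < E + h} ⊆ ⋃ p ∈ t, {x | emp2 x ∈ Vf p ∧ E ≤ energy g (chg m) x ∧
      energy g (chg m) x < E + h} := by
    rintro x ⟨hx, hx2⟩
    simp only [mem_iUnion] at hx ⊢
    obtain ⟨p, hp, hpx⟩ := hx
    exact ⟨p, hp, hpx, hx2⟩
  have h1 : ∀ p ∈ t, (PP Λ (Fin m ⊕ Fin m)).real {x | emp2 x ∈ Vf p ∧ E ≤ energy g (chg m) x ∧
      energy g (chg m) x < E + h} ≤ h * Real.exp (2 * m * (s - d)) := by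
    intro p hp
    refine (hb p (htS p hp).1 m ((Finset.le_sup hp).trans hm1) E h hE hh hh1).trans ?_
    refine mul_le_mul_of_nonneg_left (Real.exp_le_exp.2 ?_) hh.le
    exact mul_le_mul_of_nonneg_left (by linarith [hdt p hp]) (by positivity)
  refine (measureReal_mono hsub (measure_ne_top _ _)).trans ((measureReal_biUnion_finset_le _ _).trans
    ((Finset.sum_le_card_nsmul _ _ _ h1).trans ?_))
  rw [nsmul_eq_mul]
  have h2 : (t.card : ℝ) ≤ Real.exp (m * d) := by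
    have : (t.card : ℝ) ≤ m * d := by
      rw [div_le_iff₀ hd0] at hn₁
      exact hn₁.trans (mul_le_mul_of_nonneg_right hm2 hd0.le)
    linarith [Real.add_one_le_exp ((m : ℝ) * d)]
  calc (t.card : ℝ) * (h * Real.exp (2 * m * (s - d)))
      ≤ Real.exp (m * d) * (h * Real.exp (2 * m * (s - d))) :=
        mul_le_mul_of_nonneg_right h2 (by positivity)
    _ = h * (Real.exp (m * d) * Real.exp (2 * m * (s - d))) := by ring
    _ = h * Real.exp (2 * m * (s - d / 2)) := by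
        rw [← Real.exp_add]; congr 2; ring

theorem ae_suppIn {Λ : Set ℂ} {g : ℂ → ℂ → ℝ} (hD : Dom Λ g) {m : ℕ} (hm1 : 1 ≤ m) :
    ∀ᵐ x ∂(PP Λ (Fin m ⊕ Fin m)), emp2 x ∈ SuppIn (closure Λ) := by
  filter_upwards [ae_Cfg hD (Fin m ⊕ Fin m)] with x hx
  exact emp2_mem_suppIn isClosed_closure hm1 fun i => subset_closure (hx.1 i)

theorem win_le {Λ : Set ℂ} {g : ℂ → ℂ → ℝ} (hD : Dom Λ g) {m : ℕ} (hm1 : 1 ≤ m)
    {O : Set (ProbabilityMeasure ℂ × ProbabilityMeasure ℂ)} (hO : SuppIn (closure Λ) ⊆ O)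
    (E h : ℝ) : (PP Λ (Fin m ⊕ Fin m)).real (win g m E h) ≤
      (PP Λ (Fin m ⊕ Fin m)).real {x | emp2 x ∈ O ∧ E ≤ energy g (chg m) x ∧
          energy g (chg m) x < E + h} := by
  have := isProb_PP hD (Fin m ⊕ Fin m)
  refine ENNReal.toReal_mono (measure_ne_top _ _) (measure_mono_ae ?_)
  filter_upwards [ae_suppIn hD hm1] with x hx hw
  exact ⟨hO hx, hw⟩

theorem adm_bdd {Λ : Set ℂ} {g : ℂ → ℂ → ℝ} (hD : Dom Λ g) (ε : ℝ) :
    BddAbove {s | ∃ ρp ρm, IsAdm Λ g ε ρp ρm ∧ s = (entS Λ ρp + entS Λ ρm) / 2} := by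
  refine ⟨0, ?_⟩
  rintro s ⟨ρp, ρm, h, rfl⟩
  have h1 := entS_nonpos hD h.1
  have h2 := entS_nonpos hD h.2.1
  linarith

theorem IsAdm.le_sMax {Λ : Set ℂ} {g : ℂ → ℂ → ℝ} (hD : Dom Λ g) {ε : ℝ} {ρp ρm : ℂ → ℝ}
    (h : IsAdm Λ g ε ρp ρm) : (entS Λ ρp + entS Λ ρm) / 2 ≤ sMax Λ g ε :=
  le_csSup (adm_bdd hD ε) ⟨ρp, ρm, h, rfl⟩

/-- The maximum in the definition of `s_Λ(ε)` is attained. -/
theorem exists_max {Λ : Set ℂ} {g : ℂ → ℂ → ℝ} (hD : Dom Λ g)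
    (hm : Measurable (Function.uncurry g)) {ε : ℝ} (hε : 0 < ε) :
    ∃ ρp ρm, IsMaxPair Λ g ε ρp ρm := by
  by_contra hcon
  push Not at hcon
  have hR : ∀ p ∈ (univ : Set (ProbabilityMeasure ℂ × ProbabilityMeasure ℂ)),
      ¬ Rep Λ g ε (sMax Λ g ε) p := by
    rintro p - ⟨ρp, ρm, hadm, -, -, hs⟩
    exact hcon ρp ρm ⟨hadm, fun σp σm hσ => (hσ.le_sMax hD).trans hs⟩
  obtain ⟨δ, O, m₀, hδ, -, hcov, hb⟩ := closed_upper hD hm isClosed_univ hR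
  obtain ⟨ρp₀, ρm₀, hadm₀⟩ := exists_adm hD hm hε
  obtain ⟨v, ⟨ρp, ρm, hadm, rfl⟩, hv⟩ := exists_lt_of_lt_csSup
    (s := {s | ∃ ρp ρm, IsAdm Λ g ε ρp ρm ∧ s = (entS Λ ρp + entS Λ ρm) / 2})
    ⟨_, ρp₀, ρm₀, hadm₀, rfl⟩ (b := sMax Λ g ε - δ / 4)
    (show sMax Λ g ε - δ / 4 < sMax Λ g ε by linarith)
  obtain ⟨m₁, hl⟩ := lower_bound hD hm hε hadm (δ := δ / 4) (by positivity)
  obtain ⟨m, hm0, hm1, hm2⟩ : ∃ m : ℕ, m₀ ≤ m ∧ m₁ ≤ m ∧ 1 ≤ m :=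
    ⟨max (max m₀ m₁) 1, (le_max_left _ _).trans (le_max_left _ _),
      (le_max_right _ _).trans (le_max_left _ _), le_max_right _ _⟩
  have hE : |((2 * m) ^ 2 * ε : ℝ) - (2 * m) ^ 2 * ε| ≤ 1 := by simp
  have h1 := hl m hm1 _ 1 hE one_pos le_rfl
  have h2 := hb m hm0 _ 1 hE one_pos le_rfl
  have h3 := win_le (g := g) hD hm2 (by simpa using hcov) ((2 * m) ^ 2 * ε) 1
  have h4 := h1.trans (h3.trans h2)
  rw [one_mul, one_mul, Real.exp_le_exp] at h4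
  have hmr : (1 : ℝ) ≤ m := by exact_mod_cast hm2
  have h5 := le_of_mul_le_mul_left h4 (by linarith)
  linarith

theorem IsMaxPair.sMax_eq {Λ : Set ℂ} {g : ℂ → ℂ → ℝ} {ε : ℝ} {ρp ρm : ℂ → ℝ}
    (h : IsMaxPair Λ g ε ρp ρm) : sMax Λ g ε = (entS Λ ρp + entS Λ ρm) / 2 := by
  refine IsGreatest.csSup_eq ⟨⟨ρp, ρm, h.1, rfl⟩, ?_⟩
  rintro s ⟨σp, σm, hσ, rfl⟩
  exact h.2 σp σm hσ

/-- Two-sided bounds for thin windows. -/
theorem window_two_sided {Λ : Set ℂ} {g : ℂ → ℂ → ℝ} (hD : Dom Λ g)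
    (hm : Measurable (Function.uncurry g)) {ε : ℝ} (hε : 0 < ε) {δ : ℝ} (hδ : 0 < δ) :
    ∃ m₀ : ℕ, ∀ m ≥ m₀, ∀ E h : ℝ, |E - (2 * m) ^ 2 * ε| ≤ 1 → 0 < h → h ≤ 1 →
      h * Real.exp (2 * m * (sMax Λ g ε - δ)) ≤
        (PP Λ (Fin m ⊕ Fin m)).real (win g m E h) ∧
      (PP Λ (Fin m ⊕ Fin m)).real (win g m E h) ≤
        h * Real.exp (2 * m * (sMax Λ g ε + δ)) := by
  obtain ⟨ρp, ρm, hmax⟩ := exists_max hD hm hε
  obtain ⟨m₁, h₁⟩ := lower_bound hD hm hε hmax.1 hδ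
  rw [← hmax.sMax_eq] at h₁
  have hR : ∀ p ∈ (univ : Set (ProbabilityMeasure ℂ × ProbabilityMeasure ℂ)),
      ¬ Rep Λ g ε (sMax Λ g ε + δ) p := by
    rintro p - ⟨σp, σm, hadm, -, -, hs⟩
    linarith [hadm.le_sMax hD]
  obtain ⟨δ', O, m₂, hδ', -, hcov, hb⟩ := closed_upper hD hm isClosed_univ hR
  refine ⟨max (max m₁ m₂) 1, fun m hmm E h hE hh hh1 => ?_⟩
  have hm1 : m₁ ≤ m := ((le_max_left _ _).trans (le_max_left _ _)).trans hmm
  have hm2 : m₂ ≤ m := ((le_max_right _ _).trans (le_max_left _ _)).trans hmm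
  have hm3 : 1 ≤ m := (le_max_right _ _).trans hmm
  refine ⟨h₁ m hm1 E h hE hh hh1, ?_⟩
  refine (win_le (g := g) hD hm3 (by simpa using hcov) E h).trans
    ((hb m hm2 E h hE hh hh1).trans ?_)
  refine mul_le_mul_of_nonneg_left (Real.exp_le_exp.2 ?_) hh.le
  exact mul_le_mul_of_nonneg_left (by linarith) (by positivity)

theorem Phi_sub {Λ : Set ℂ} {g : ℂ → ℂ → ℝ} (hD : Dom Λ g)
    (hm : Measurable (Function.uncurry g)) (m : ℕ) (E : ℝ) {h : ℝ} (hh : 0 < h) :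
    Phi Λ g m (E + h) - Phi Λ g m E = (volume.real Λ) ^ (2 * m) *
      (PP Λ (Fin m ⊕ Fin m)).real (win g m E h) := by
  have := isProb_PP hD (Fin m ⊕ Fin m)
  have hme : Measurable (energy g (chg m)) := measurable_energy hm _
  have e : win g m E h = {x | energy g (chg m) x < E + h} \ {x | energy g (chg m) x < E} := by
    ext x
    simp only [win, Set.mem_sdiff, mem_ofPred_eq, not_lt]
    exact and_comm
  rw [Phi_eq hD hm, Phi_eq hD hm, ← mul_sub, e, measureReal_sdiff]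
  · intro x hx
    simp only [mem_ofPred_eq] at hx ⊢
    linarith
  · exact measurableSet_lt hme measurable_const

/-- Part (a). -/
theorem part_a {Λ : Set ℂ} {g : ℂ → ℂ → ℝ} (hD : Dom Λ g)
    (hm : Measurable (Function.uncurry g)) {ε : ℝ} (hε : 0 < ε) :
    Tendsto (fun m : ℕ => 1 / (2 * m : ℝ) * Real.log ((volume.real Λ ^ (2 * m))⁻¹ *
      deriv (Phi Λ g m) ((2 * m) ^ 2 * ε))) atTop (𝓝 (sMax Λ g ε)) := by
  rw [Metric.tendsto_atTop]
  intro η hη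
  obtain ⟨m₀, h₀⟩ := window_two_sided hD hm hε (δ := η / 2) (by positivity)
  obtain ⟨m₁, h₁⟩ := eventually_atTop.1 (exists_micro hD hm hε)
  refine ⟨max (max m₀ m₁) 1, fun m hmm => ?_⟩
  have hm0 : m₀ ≤ m := ((le_max_left _ _).trans (le_max_left _ _)).trans hmm
  have hm1 : m₁ ≤ m := ((le_max_right _ _).trans (le_max_left _ _)).trans hmm
  have hm3 : 1 ≤ m := (le_max_right _ _).trans hmm
  have hmr : (1 : ℝ) ≤ m := by exact_mod_cast hm3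
  obtain ⟨hdiff, hpos, -⟩ := h₁ m hm1
  have hv : 0 < volume.real Λ := vol_pos hD
  set E : ℝ := (2 * m) ^ 2 * ε with hEdef
  set D := deriv (Phi Λ g m) E with hDdef
  have hlim : Tendsto (fun h : ℝ => h⁻¹ * (Phi Λ g m (E + h) - Phi Λ g m E)) (𝓝[>] 0) (𝓝 D) := by
    have := hdiff.hasDerivAt.tendsto_slope_zero_right
    simpa [smul_eq_mul] using this
  have hbd : ∀ᶠ h : ℝ in 𝓝[>] 0,
      volume.real Λ ^ (2 * m) * Real.exp (2 * m * (sMax Λ g ε - η / 2)) ≤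
        h⁻¹ * (Phi Λ g m (E + h) - Phi Λ g m E) ∧
      h⁻¹ * (Phi Λ g m (E + h) - Phi Λ g m E) ≤
        volume.real Λ ^ (2 * m) * Real.exp (2 * m * (sMax Λ g ε + η / 2)) := by
    filter_upwards [Ioc_mem_nhdsGT (show (0 : ℝ) < 1 by norm_num)] with h hh
    obtain ⟨ha, hb⟩ := h₀ m hm0 E h (by simp [hEdef]) hh.1 hh.2
    rw [Phi_sub hD hm m E hh.1]
    have e : h⁻¹ * (volume.real Λ ^ (2 * m) * (PP Λ (Fin m ⊕ Fin m)).real (win g m E h)) =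
        volume.real Λ ^ (2 * m) * ((PP Λ (Fin m ⊕ Fin m)).real (win g m E h) / h) := by
      rw [div_eq_mul_inv]; ring
    rw [e]
    refine ⟨mul_le_mul_of_nonneg_left ?_ (by positivity), mul_le_mul_of_nonneg_left ?_
      (by positivity)⟩
    · rw [le_div_iff₀ hh.1, mul_comm]; exact ha
    · rw [div_le_iff₀ hh.1, mul_comm]; exact hb
  have hDlo := ge_of_tendsto hlim (hbd.mono fun h hh => hh.1)
  have hDhi := le_of_tendsto hlim (hbd.mono fun h hh => hh.2)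
  have hvp : 0 < volume.real Λ ^ (2 * m) := by positivity
  have h3 : Real.exp (2 * m * (sMax Λ g ε - η / 2)) ≤ (volume.real Λ ^ (2 * m))⁻¹ * D := by
    rw [inv_mul_eq_div, le_div_iff₀ hvp, mul_comm]; exact hDlo
  have h4 : (volume.real Λ ^ (2 * m))⁻¹ * D ≤ Real.exp (2 * m * (sMax Λ g ε + η / 2)) := by
    rw [inv_mul_eq_div, div_le_iff₀ hvp, mul_comm]; exact hDhi
  have hq : 0 < (volume.real Λ ^ (2 * m))⁻¹ * D := by positivity
  have h5 : 2 * m * (sMax Λ g ε - η / 2) ≤ Real.log ((volume.real Λ ^ (2 * m))⁻¹ * D) :=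
    (Real.le_log_iff_exp_le hq).2 h3
  have h6 : Real.log ((volume.real Λ ^ (2 * m))⁻¹ * D) ≤ 2 * m * (sMax Λ g ε + η / 2) :=
    (Real.log_le_iff_le_exp hq).2 h4
  have h2m : (0 : ℝ) < 2 * m := by linarith
  rw [Real.dist_eq, abs_lt]
  have e1 : 1 / (2 * m : ℝ) * Real.log ((volume.real Λ ^ (2 * m))⁻¹ * D) =
      Real.log ((volume.real Λ ^ (2 * m))⁻¹ * D) / (2 * m) := by ring
  rw [e1]
  have h7 : sMax Λ g ε - η / 2 ≤ Real.log ((volume.real Λ ^ (2 * m))⁻¹ * D) / (2 * m) := by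
    rw [le_div_iff₀ h2m]; linarith
  have h8 : Real.log ((volume.real Λ ^ (2 * m))⁻¹ * D) / (2 * m) ≤ sMax Λ g ε + η / 2 := by
    rw [div_le_iff₀ h2m]; linarith
  constructor <;> linarith

end Pool.Agent.Lib.MP_fa244c_mp
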