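import Pool.Agent.Lib.MP_fa244c_mp.SuppCpt

set_option autoImplicit false

open MeasureTheory Filter Topology Set Metric

namespace Pool.Agent.Lib.MP_fa244c_mp

namespace RL

/-- A sequence of laws on a compact metrizable space that concentrates on `Ms` has a subsequence
converging to a law carried by a closed subset of `Ms`. -/
theorem limit_law {S : Type} [TopologicalSpace S] [CompactSpace S]
    [TopologicalSpace.MetrizableSpace S] [MeasurableSpace S] [BorelSpace S]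
    (Q : ℕ → ProbabilityMeasure S) (Ms : Set S)
    (hconc : ∀ p ∉ Ms, ∃ V : Set S, IsOpen V ∧ p ∈ V ∧
      Tendsto (fun k => (Q k : Measure S).real V) atTop (𝓝 0)) :
    ∃ ψ : ℕ → ℕ, StrictMono ψ ∧ ∃ (P : ProbabilityMeasure S) (F : Set S), IsClosed F ∧ F ⊆ Ms ∧
      (P : Measure S) Fᶜ = 0 ∧ Tendsto (fun k => Q (ψ k)) atTop (𝓝 P) := by
  let _ := TopologicalSpace.metrizableSpaceMetric S
  obtain ⟨P, -, ψ, hψ, hP⟩ :=
    (isCompact_univ (X := ProbabilityMeasure S)).isSeqCompact (fun k => mem_univ (Q k))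
  choose! V hV1 hV2 hV3 using hconc
  have hnull : ∀ p ∈ Msᶜ, (P : Measure S) (V p) = 0 := by
    intro p hp
    have h1 := ProbabilityMeasure.le_liminf_measure_open_of_tendsto hP (hV1 p hp)
    have h2 : Tendsto (fun k => (Q (ψ k) : Measure S) (V p)) atTop (𝓝 0) := by
      have h3 := ((hV3 p hp).comp hψ.tendsto_atTop)
      have h4 := ENNReal.tendsto_ofReal h3
      simp only [ENNReal.ofReal_zero] at h4
      refine h4.congr (fun k => ?_)
      simp only [Function.comp_apply]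
      rw [ofReal_measureReal]
    have h5 := h2.liminf_eq
    simp only [Function.comp_apply] at h1
    rw [h5] at h1
    exact le_antisymm h1 bot_le
  obtain ⟨T, hT, hTc, hTU⟩ := TopologicalSpace.isOpen_biUnion_countable Msᶜ V
    (fun p hp => hV1 p hp)
  refine ⟨ψ, hψ, P, (⋃ i ∈ T, V i)ᶜ, ?_, ?_, ?_, hP⟩
  · exact (isOpen_biUnion (fun i hi => hV1 i (hT hi))).isClosed_compl
  · intro p hp
    by_contra hpM
    apply hp
    rw [hTU]
    exact mem_biUnion (show p ∈ Msᶜ from hpM) (hV2 p hpM)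
  · rw [compl_compl]
    exact (measure_biUnion_null_iff hTc).2 (fun i hi => hnull i (hT hi))

/-- The uniform distribution on `Fin m`. -/
noncomputable def U (m : ℕ) : Measure (Fin m) := (m : ENNReal)⁻¹ • Measure.count

theorem isProb_U {m : ℕ} (hm : 1 ≤ m) : IsProbabilityMeasure (U m) := by
  constructor
  unfold U
  rw [Measure.smul_apply, Measure.count_univ]
  simp only [ENat.card_eq_coe_fintype_card, Fintype.card_fin, smul_eq_mul]
  refine ENNReal.inv_mul_cancel ?_ ?_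
  · exact_mod_cast (by omega : m ≠ 0)
  · exact ENNReal.natCast_ne_top m

theorem U_singleton {m : ℕ} (a : Fin m) : (U m) {a} = (m : ENNReal)⁻¹ := by
  unfold U
  rw [Measure.smul_apply, Measure.count_singleton]
  simp

theorem emp_eq {m : ℕ} (hm : 1 ≤ m) (x : Fin m → ℂ) :
    (emp x : Measure ℂ) = (U m).map x := by
  have h0 : m ≠ 0 := by omega
  ext s hs
  rw [Measure.map_apply (measurable_of_finite x) hs]
  unfold emp U
  rw [dif_neg h0]
  change ((m : ENNReal)⁻¹ • ∑ i, Measure.dirac (x i)) s = _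
  rw [Measure.smul_apply, Measure.smul_apply]
  congr 1
  rw [Measure.finsetSum_apply, Measure.count, Measure.sum_apply _ (measurable_of_finite x hs),
    tsum_fintype]
  refine Finset.sum_congr rfl (fun i _ => ?_)
  rw [Measure.dirac_apply' _ hs, Measure.dirac_apply' _ (measurable_of_finite x hs)]
  rfl

/-- The integral of `f` against the product measures. -/
noncomputable def G {n₁ n₂ : ℕ}
    (f : BoundedContinuousFunction ((Fin n₁ → ℂ) × (Fin n₂ → ℂ)) ℝ)
    (p : ProbabilityMeasure ℂ × ProbabilityMeasure ℂ) : ℝ :=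
  ∫ z, f z ∂((Measure.pi (fun _ : Fin n₁ => (p.1 : Measure ℂ))).prod
    (Measure.pi (fun _ : Fin n₂ => (p.2 : Measure ℂ))))

theorem continuous_G {n₁ n₂ : ℕ}
    (f : BoundedContinuousFunction ((Fin n₁ → ℂ) × (Fin n₂ → ℂ)) ℝ) : Continuous (G f) := by
  have h1 : Continuous (fun p : ProbabilityMeasure ℂ × ProbabilityMeasure ℂ =>
      (ProbabilityMeasure.pi (fun _ : Fin n₁ => p.1)).prod
        (ProbabilityMeasure.pi (fun _ : Fin n₂ => p.2))) := by
    have h2 : Continuous (fun p : ProbabilityMeasure ℂ × ProbabilityMeasure ℂ =>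
      ((ProbabilityMeasure.pi (fun _ : Fin n₁ => p.1)),
        (ProbabilityMeasure.pi (fun _ : Fin n₂ => p.2)))) := by
      refine Continuous.prodMk ?_ ?_
      · exact ProbabilityMeasure.continuous_pi.comp (continuous_pi (fun _ => continuous_fst))
      · exact ProbabilityMeasure.continuous_pi.comp (continuous_pi (fun _ => continuous_snd))
    exact ProbabilityMeasure.continuous_prod.comp h2
  exact (ProbabilityMeasure.continuous_integral_boundedContinuousFunction f).comp h1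

theorem G_emp {n₁ n₂ m : ℕ} (hm : 1 ≤ m)
    (f : BoundedContinuousFunction ((Fin n₁ → ℂ) × (Fin n₂ → ℂ)) ℝ) (x : Fin m ⊕ Fin m → ℂ) :
    G f (emp2 x) = ((m : ℝ) ^ (n₁ + n₂))⁻¹ *
      ∑ t : (Fin n₁ → Fin m) × (Fin n₂ → Fin m),
        f (fun i => x (Sum.inl (t.1 i)), fun j => x (Sum.inr (t.2 j))) := by
  have := isProb_U hm
  unfold G emp2
  rw [emp_eq hm, emp_eq hm]
  rw [← Measure.pi_map_pi (fun _ => (measurable_of_finite _).aemeasurable),
    ← Measure.pi_map_pi (fun _ => (measurable_of_finite _).aemeasurable)]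
  rw [Measure.map_prod_map _ _ (measurable_of_finite _) (measurable_of_finite _)]
  rw [integral_map (measurable_of_finite _).aemeasurable f.continuous.aestronglyMeasurable]
  rw [integral_fintype (Integrable.of_finite)]
  rw [Finset.mul_sum]
  refine Finset.sum_congr rfl (fun t _ => ?_)
  rw [smul_eq_mul]
  congr 1
  rw [measureReal_def, ← Prod.mk.eta (p := t), ← Set.singleton_prod_singleton, Measure.prod_prod,
    ← Set.univ_pi_singleton, ← Set.univ_pi_singleton, Measure.pi_pi, Measure.pi_pi]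
  simp only [U_singleton, Finset.prod_const, Finset.card_univ, Fintype.card_fin]
  rw [← pow_add, ENNReal.toReal_pow, ENNReal.toReal_inv, ENNReal.toReal_natCast, inv_pow]

theorem marg_eq {n₁ n₂ m : ℕ} (h₁ : n₁ ≤ m) (h₂ : n₂ ≤ m) (x : Fin m ⊕ Fin m → ℂ) :
    marg n₁ n₂ x = (fun i => x (Sum.inl (Fin.castLE h₁ i)),
      fun j => x (Sum.inr (Fin.castLE h₂ j))) := by
  unfold marg
  refine Prod.ext ?_ ?_
  · funext i
    have hi : (i : ℕ) < m := lt_of_lt_of_le i.2 h₁
    simp only [dif_pos hi]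
    rfl
  · funext i
    have hi : (i : ℕ) < m := lt_of_lt_of_le i.2 h₂
    simp only [dif_pos hi]
    rfl

theorem exists_perm {n m : ℕ} (h : n ≤ m) {a : Fin n → Fin m} (ha : Function.Injective a) :
    ∃ σ : Equiv.Perm (Fin m), ∀ i, σ (Fin.castLE h i) = a i := by
  have h1 := Equiv.Perm.isMultiplyPretransitive (Fin m) n
  obtain ⟨σ, hσ⟩ := h1.exists_smul_eq (Fin.castLEEmb h) ⟨a, ha⟩
  refine ⟨σ, fun i => ?_⟩
  have := congrArg (fun e : Fin n ↪ Fin m => e i) hσ
  simpa using this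

theorem exch_inj {n₁ n₂ m : ℕ} (h₁ : n₁ ≤ m) (h₂ : n₂ ≤ m) {μ : Measure (Fin m ⊕ Fin m → ℂ)}
    (hexch : ∀ σ τ : Equiv.Perm (Fin m), μ.map (fun x i => x (Sum.map σ τ i)) = μ)
    (f : BoundedContinuousFunction ((Fin n₁ → ℂ) × (Fin n₂ → ℂ)) ℝ) {a : Fin n₁ → Fin m}
    {b : Fin n₂ → Fin m} (ha : Function.Injective a) (hb : Function.Injective b) :
    ∫ x, f (fun i => x (Sum.inl (a i)), fun j => x (Sum.inr (b j))) ∂μ =
      ∫ x, f (marg n₁ n₂ x) ∂μ := by
  obtain ⟨σ, hσ⟩ := exists_perm h₁ ha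
  obtain ⟨τ, hτ⟩ := exists_perm h₂ hb
  have hc : Continuous (fun x : Fin m ⊕ Fin m → ℂ => f (marg n₁ n₂ x)) := by
    have : (fun x : Fin m ⊕ Fin m → ℂ => f (marg n₁ n₂ x)) = fun x => f ((fun i => x (Sum.inl (Fin.castLE h₁ i)),
      fun j => x (Sum.inr (Fin.castLE h₂ j)))) := by
      funext x; rw [marg_eq h₁ h₂]
    rw [this]
    fun_prop
  have hΦ : Measurable (fun (x : Fin m ⊕ Fin m → ℂ) i => x (Sum.map σ τ i)) := by fun_prop
  conv_rhs => rw [← hexch σ τ]
  rw [integral_map hΦ.aemeasurable hc.aestronglyMeasurable]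
  refine integral_congr_ae (Eventually.of_forall (fun x => ?_))
  simp only [marg_eq h₁ h₂, Sum.map_inl, Sum.map_inr, hσ, hτ]

/-- Sampling without and with replacement. -/
theorem marg_close {n₁ n₂ m : ℕ} (hm : 1 ≤ m) (h₁ : n₁ ≤ m) (h₂ : n₂ ≤ m)
    {μ : Measure (Fin m ⊕ Fin m → ℂ)} [IsProbabilityMeasure μ]
    (hexch : ∀ σ τ : Equiv.Perm (Fin m), μ.map (fun x i => x (Sum.map σ τ i)) = μ)
    (f : BoundedContinuousFunction ((Fin n₁ → ℂ) × (Fin n₂ → ℂ)) ℝ) :
    |∫ x, G f (emp2 x) ∂μ - ∫ x, f (marg n₁ n₂ x) ∂μ| ≤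
      2 * ‖f‖ * (1 - ((m.descFactorial n₁ : ℝ) / m ^ n₁) * ((m.descFactorial n₂ : ℝ) / m ^ n₂)) := by
  have hmr : (0 : ℝ) < m := by exact_mod_cast hm
  obtain ⟨I, hI⟩ : ∃ I : (Fin n₁ → Fin m) × (Fin n₂ → Fin m) → ℝ, I = fun t =>
    ∫ x, f (fun i => x (Sum.inl (t.1 i)), fun j => x (Sum.inr (t.2 j))) ∂μ := ⟨_, rfl⟩
  obtain ⟨I₀, hI₀⟩ : ∃ I₀ : ℝ, I₀ = ∫ x, f (marg n₁ n₂ x) ∂μ := ⟨_, rfl⟩
  have hint : ∀ t : (Fin n₁ → Fin m) × (Fin n₂ → Fin m), Integrable
      (fun x : Fin m ⊕ Fin m → ℂ =>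
        f (fun i => x (Sum.inl (t.1 i)), fun j => x (Sum.inr (t.2 j)))) μ := by
    intro t
    refine Integrable.of_bound (C := ‖f‖) ?_ (Eventually.of_forall (fun x => f.norm_coe_le_norm _))
    exact Continuous.aestronglyMeasurable (by fun_prop)
  have e1 : ∫ x, G f (emp2 x) ∂μ = ((m : ℝ) ^ (n₁ + n₂))⁻¹ * ∑ t, I t := by
    simp_rw [G_emp hm f]
    rw [integral_const_mul, integral_finsetSum _ (fun t _ => hint t), hI]
  have hb1 : ∀ t, |I t| ≤ ‖f‖ := by
    intro t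
    rw [hI]
    have := norm_integral_le_of_norm_le_const (μ := μ) (C := ‖f‖)
      (f := fun x : Fin m ⊕ Fin m → ℂ =>
        f (fun i => x (Sum.inl (t.1 i)), fun j => x (Sum.inr (t.2 j))))
      (Eventually.of_forall (fun x => f.norm_coe_le_norm _))
    simpa using this
  have hb2 : |I₀| ≤ ‖f‖ := by
    rw [hI₀]
    have := norm_integral_le_of_norm_le_const (μ := μ) (C := ‖f‖)
      (f := fun x : Fin m ⊕ Fin m → ℂ => f (marg n₁ n₂ x))
      (Eventually.of_forall (fun x => f.norm_coe_le_norm _))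
    simpa using this
  have hcard : (Fintype.card ((Fin n₁ → Fin m) × (Fin n₂ → Fin m)) : ℝ) = (m : ℝ) ^ (n₁ + n₂) := by
    rw [Fintype.card_prod, Fintype.card_fun, Fintype.card_fun]
    simp only [Fintype.card_fin]
    push_cast
    rw [pow_add]
  classical
  obtain ⟨J, hJ⟩ : ∃ J : Finset ((Fin n₁ → Fin m) × (Fin n₂ → Fin m)),
    J = Finset.univ.filter (fun t => Function.Injective t.1 ∧ Function.Injective t.2) := ⟨_, rfl⟩
  have hJc : (J.card : ℝ) = (m.descFactorial n₁ : ℝ) * (m.descFactorial n₂ : ℝ) := by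
    have h1 : J = (Finset.univ.filter (fun a : Fin n₁ → Fin m => Function.Injective a)) ×ˢ
        (Finset.univ.filter (fun a : Fin n₂ → Fin m => Function.Injective a)) := by
      rw [hJ]; ext t; simp
    have h2 : ∀ n : ℕ, (Finset.univ.filter (fun a : Fin n → Fin m => Function.Injective a)).card =
        m.descFactorial n := by
      intro n
      have := Fintype.card_embedding_eq (α := Fin n) (β := Fin m)
      rw [Fintype.card_fin, Fintype.card_fin] at this
      rw [← this, ← Fintype.card_subtype]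
      exact Fintype.card_congr (Equiv.subtypeInjectiveEquivEmbedding _ _)
    rw [h1, Finset.card_product, h2, h2]
    push_cast
    rfl
  have hJI : ∀ t ∈ J, I t = I₀ := by
    intro t ht
    rw [hJ, Finset.mem_filter] at ht
    rw [hI, hI₀]
    exact exch_inj h₁ h₂ hexch f ht.2.1 ht.2.2
  have e2 : ((m : ℝ) ^ (n₁ + n₂))⁻¹ * ∑ t, I t - I₀ =
      ((m : ℝ) ^ (n₁ + n₂))⁻¹ * ∑ t ∈ Jᶜ, (I t - I₀) := by
    have h1 : ∑ t, (I t - I₀) = ∑ t ∈ Jᶜ, (I t - I₀) := by
      rw [← Finset.sum_add_sum_compl J]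
      rw [Finset.sum_eq_zero (fun t ht => by rw [hJI t ht, sub_self]), zero_add]
    rw [← h1, Finset.sum_sub_distrib, Finset.sum_const, Finset.card_univ, nsmul_eq_mul, hcard]
    field_simp
  rw [e1, ← hI₀, e2, abs_mul, abs_of_nonneg (by positivity : (0:ℝ) ≤ ((m : ℝ) ^ (n₁ + n₂))⁻¹)]
  have h3 : |∑ t ∈ Jᶜ, (I t - I₀)| ≤ (Jᶜ.card : ℝ) * (2 * ‖f‖) := by
    refine (Finset.abs_sum_le_sum_abs _ _).trans ?_
    have := Finset.sum_le_card_nsmul Jᶜ (fun t => |I t - I₀|) (2 * ‖f‖) (fun t _ => by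
      refine (abs_sub _ _).trans ?_
      linarith [hb1 t, hb2])
    simpa [nsmul_eq_mul] using this
  have h4 : (Jᶜ.card : ℝ) = (m : ℝ) ^ (n₁ + n₂) - (m.descFactorial n₁ : ℝ) * (m.descFactorial n₂ : ℝ) := by
    rw [Finset.card_compl, Nat.cast_sub (Finset.card_le_univ _), hcard, hJc]
  calc ((m : ℝ) ^ (n₁ + n₂))⁻¹ * |∑ t ∈ Jᶜ, (I t - I₀)|
      ≤ ((m : ℝ) ^ (n₁ + n₂))⁻¹ * ((Jᶜ.card : ℝ) * (2 * ‖f‖)) :=
        mul_le_mul_of_nonneg_left h3 (by positivity)
    _ = 2 * ‖f‖ * (1 - ((m.descFactorial n₁ : ℝ) / m ^ n₁) * ((m.descFactorial n₂ : ℝ) / m ^ n₂)) := by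
        rw [h4, pow_add]
        field_simp

theorem descFactorial_tendsto (n : ℕ) :
    Tendsto (fun m : ℕ => (m.descFactorial n : ℝ) / (m : ℝ) ^ n) atTop (𝓝 1) := by
  have h1 : Tendsto (fun m : ℕ => (1 + (1 - (n : ℝ)) * (m : ℝ)⁻¹) ^ n) atTop (𝓝 1) := by
    have h2 : Tendsto (fun m : ℕ => (1 + (1 - (n : ℝ)) * (m : ℝ)⁻¹) ^ n) atTop
        (𝓝 ((1 + (1 - (n : ℝ)) * 0) ^ n)) :=
      ((tendsto_inv_atTop_nhds_zero_nat.const_mul _).const_add _).pow n
    simpa using h2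
  refine tendsto_of_tendsto_of_tendsto_of_le_of_le' h1 tendsto_const_nhds ?_ ?_
  · filter_upwards [eventually_ge_atTop (max n 1)] with m hm
    have hn : n ≤ m := (le_max_left _ _).trans hm
    have hm1 : 1 ≤ m := (le_max_right _ _).trans hm
    have hmr : (0 : ℝ) < m := by exact_mod_cast hm1
    have h3 : (((m + 1 - n) ^ n : ℕ) : ℝ) ≤ (m.descFactorial n : ℝ) := by
      exact_mod_cast Nat.pow_sub_le_descFactorial m n
    rw [le_div_iff₀ (by positivity), ← mul_pow]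
    refine le_trans (le_of_eq ?_) h3
    rw [Nat.cast_pow, Nat.cast_sub (by omega)]
    congr 1
    push_cast
    field_simp
    ring
  · filter_upwards [eventually_ge_atTop 1] with m hm
    have hmr : (0 : ℝ) < m := by exact_mod_cast hm
    rw [div_le_one (by positivity)]
    exact_mod_cast Nat.descFactorial_le_pow m n

/-- The case where all `m k` are positive. -/
theorem aux {K : Set ℂ} (hK : IsCompact K)
    {Ms : Set (ProbabilityMeasure ℂ × ProbabilityMeasure ℂ)} {m : ℕ → ℕ}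
    (hm : Tendsto m atTop atTop) (hm1 : ∀ k, 1 ≤ m k)
    (μ : ∀ k, Measure (Fin (m k) ⊕ Fin (m k) → ℂ))
    (hprob : ∀ k, IsProbabilityMeasure (μ k))
    (hexch : ∀ k, ∀ σ τ : Equiv.Perm (Fin (m k)), (μ k).map (fun x i => x (Sum.map σ τ i)) = μ k)
    (hsupp : ∀ k, ∀ᵐ x ∂(μ k), ∀ i, x i ∈ K)
    (hconc : ∀ p ∉ Ms, ∃ V : Set (ProbabilityMeasure ℂ × ProbabilityMeasure ℂ), IsOpen V ∧
      p ∈ V ∧ Tendsto (fun k => (μ k).real {x | emp2 x ∈ V}) atTop (𝓝 0)) :
    ∃ ψ : ℕ → ℕ, StrictMono ψ ∧ ∃ (Ω : Type) (_ : MeasurableSpace Ω) (P : Measure Ω)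
      (p : Ω → ProbabilityMeasure ℂ × ProbabilityMeasure ℂ), IsProbabilityMeasure P ∧
      (∀ ω, p ω ∈ Ms) ∧
      ∀ (n₁ n₂ : ℕ) (f : BoundedContinuousFunction ((Fin n₁ → ℂ) × (Fin n₂ → ℂ)) ℝ),
        Measurable (fun ω => G f (p ω)) ∧
        Tendsto (fun k => ∫ x, f (marg n₁ n₂ x) ∂(μ (ψ k))) atTop
          (𝓝 (∫ ω, G f (p ω) ∂P)) := by
  have hKne : K.Nonempty := by
    have := hprob 0
    obtain ⟨x, hx⟩ := (hsupp 0).exists
    exact ⟨x (Sum.inl ⟨0, hm1 0⟩), hx _⟩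
  obtain ⟨z₀, hz₀⟩ := hKne
  have hcpt : CompactSpace (SuppIn K) := isCompact_iff_compactSpace.1 (isCompact_suppIn hK)
  letI : MeasurableSpace (SuppIn K) := borel _
  haveI : BorelSpace (SuppIn K) := ⟨rfl⟩
  classical
  obtain ⟨r, hr⟩ : ∃ r : ℂ → K, r = fun z => if h : z ∈ K then ⟨z, h⟩ else ⟨z₀, hz₀⟩ := ⟨_, rfl⟩
  have hrm : Measurable r := by
    rw [hr]
    exact Measurable.dite (s := {z | z ∈ K}) measurable_id measurable_const hK.measurableSet
  have hrK : ∀ z ∈ K, (r z : ℂ) = z := by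
    intro z hz
    rw [hr]
    simp [hz]
  -- the law of the empirical measures
  obtain ⟨T, hT⟩ : ∃ T : ∀ k, (Fin (m k) ⊕ Fin (m k) → ℂ) → SuppIn K, T = fun k x =>
    ⟨emp2 (fun i => (r (x i) : ℂ)), emp2_mem_suppIn hK.isClosed (hm1 k) (fun i => (r (x i)).2)⟩ :=
    ⟨_, rfl⟩
  have hTm : ∀ k, Measurable (T k) := by
    intro k
    have h1 : Continuous (fun y : Fin (m k) ⊕ Fin (m k) → K =>
        (⟨emp2 (fun i => (y i : ℂ)), emp2_mem_suppIn hK.isClosed (hm1 k) (fun i => (y i).2)⟩ :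
          SuppIn K)) := by
      refine Continuous.subtype_mk ?_ _
      exact (continuous_emp2 (m k)).comp (by fun_prop)
    have h2 : Measurable (fun (x : Fin (m k) ⊕ Fin (m k) → ℂ) i => r (x i)) := by
      exact measurable_pi_lambda _ (fun i => hrm.comp (measurable_pi_apply i))
    rw [hT]
    exact h1.measurable.comp h2
  have hTe : ∀ k, ∀ᵐ x ∂(μ k), (T k x : ProbabilityMeasure ℂ × ProbabilityMeasure ℂ) = emp2 x := by
    intro k
    filter_upwards [hsupp k] with x hx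
    rw [hT]
    simp only [hrK _ (hx _)]
  obtain ⟨Q, hQ⟩ : ∃ Q : ℕ → ProbabilityMeasure (SuppIn K), ∀ k,
      (Q k : Measure (SuppIn K)) = (μ k).map (T k) := by
    refine ⟨fun k => ⟨(μ k).map (T k), ?_⟩, fun k => rfl⟩
    have := hprob k
    exact Measure.isProbabilityMeasure_map (hTm k).aemeasurable
  obtain ⟨ψ, hψ, P, F, hF, hFM, hPF, hP⟩ := limit_law Q (Subtype.val ⁻¹' Ms) (by
    intro p hp
    obtain ⟨V, hV, hpV, hVt⟩ := hconc p hp
    refine ⟨Subtype.val ⁻¹' V, hV.preimage continuous_subtype_val, hpV, hVt.congr (fun k => ?_)⟩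
    rw [hQ, measureReal_def, measureReal_def, Measure.map_apply (hTm k)
      (hV.preimage continuous_subtype_val).measurableSet]
    congr 1
    refine measure_congr ?_
    filter_upwards [hTe k] with x hx
    change (emp2 x ∈ V) = ((T k x : ProbabilityMeasure ℂ × ProbabilityMeasure ℂ) ∈ V)
    rw [hx])
  have hPF1 : ∀ᵐ ω ∂(P : Measure (SuppIn K)), ω ∈ F := by
    rw [ae_iff]
    exact hPF
  obtain ⟨ω₀, hω₀⟩ : F.Nonempty := by
    obtain ⟨ω, hω⟩ := hPF1.exists
    exact ⟨ω, hω⟩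
  obtain ⟨p, hp⟩ : ∃ p : SuppIn K → ProbabilityMeasure ℂ × ProbabilityMeasure ℂ,
    p = fun ω => if ω ∈ F then ω.1 else ω₀.1 := ⟨_, rfl⟩
  refine ⟨ψ, hψ, SuppIn K, inferInstance, P, p, inferInstance, ?_, ?_⟩
  · intro ω
    rw [hp]
    dsimp only
    split_ifs with h
    · exact hFM h
    · exact hFM hω₀
  · intro n₁ n₂ f
    have hG : Continuous (fun ω : SuppIn K => G f ω.1) := (continuous_G f).comp continuous_subtype_val
    constructor
    · have e : (fun ω => G f (p ω)) = fun ω => if ω ∈ F then G f ω.1 else G f ω₀.1 := by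
        funext ω
        rw [hp]
        dsimp only
        split_ifs <;> rfl
      rw [e]
      exact Measurable.ite hF.measurableSet hG.measurable measurable_const
    · have e1 : ∫ ω, G f (p ω) ∂(P : Measure (SuppIn K)) = ∫ ω, G f ω.1 ∂(P : Measure (SuppIn K)) := by
        refine integral_congr_ae ?_
        filter_upwards [hPF1] with ω hω
        rw [hp]
        simp only [if_pos hω]
      rw [e1]
      -- convergence of the averages over the empirical measures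
      have h2 : Tendsto (fun k => ∫ x, G f (emp2 x) ∂(μ (ψ k))) atTop
          (𝓝 (∫ ω, G f ω.1 ∂(P : Measure (SuppIn K)))) := by
        have h3 := (ProbabilityMeasure.tendsto_iff_forall_integral_tendsto.1 hP)
          (BoundedContinuousFunction.mkOfCompact ⟨_, hG⟩)
        refine h3.congr (fun k => ?_)
        rw [hQ, integral_map (hTm _).aemeasurable]
        · refine integral_congr_ae ?_
          filter_upwards [hTe (ψ k)] with x hx
          change G f (T (ψ k) x : ProbabilityMeasure ℂ × ProbabilityMeasure ℂ) = _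
          rw [hx]
        · exact (BoundedContinuousFunction.continuous _).aestronglyMeasurable
      have hmψ : Tendsto (fun k => m (ψ k)) atTop atTop := hm.comp hψ.tendsto_atTop
      have h4 : Tendsto (fun k => ∫ x, G f (emp2 x) ∂(μ (ψ k)) - ∫ x, f (marg n₁ n₂ x) ∂(μ (ψ k)))
          atTop (𝓝 0) := by
        have h5 : Tendsto (fun k => 2 * ‖f‖ * (1 - (((m (ψ k)).descFactorial n₁ : ℝ) /
            (m (ψ k) : ℝ) ^ n₁) * (((m (ψ k)).descFactorial n₂ : ℝ) / (m (ψ k) : ℝ) ^ n₂))) atTop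
            (𝓝 (2 * ‖f‖ * (1 - 1 * 1))) :=
          ((((descFactorial_tendsto n₁).comp hmψ).mul
            ((descFactorial_tendsto n₂).comp hmψ)).const_sub 1).const_mul _
        rw [mul_one, sub_self, mul_zero] at h5
        refine squeeze_zero_norm' ?_ h5
        filter_upwards [hmψ.eventually_ge_atTop (max n₁ n₂)] with k hk
        have := hprob (ψ k)
        rw [Real.norm_eq_abs]
        exact marg_close (hm1 _) ((le_max_left _ _).trans hk) ((le_max_right _ _).trans hk)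
          (hexch (ψ k)) f
      have h6 := h2.sub h4
      simpa using h6

end RL

/-- Subsequential limits of the marginals of exchangeable measures whose pair of empirical
measures concentrates on a set `𝓜` are mixtures of products given by elements of `𝓜`. -/
theorem rand_limit {K : Set ℂ} (hK : IsCompact K)
    {Ms : Set (ProbabilityMeasure ℂ × ProbabilityMeasure ℂ)} {m : ℕ → ℕ}
    (hm : Tendsto m atTop atTop) (μ : ∀ k, Measure (Fin (m k) ⊕ Fin (m k) → ℂ))
    (hprob : ∀ k, IsProbabilityMeasure (μ k))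
    (hexch : ∀ k, ∀ σ τ : Equiv.Perm (Fin (m k)), (μ k).map (fun x i => x (Sum.map σ τ i)) = μ k)
    (hsupp : ∀ k, ∀ᵐ x ∂(μ k), ∀ i, x i ∈ K)
    (hconc : ∀ p ∉ Ms, ∃ V : Set (ProbabilityMeasure ℂ × ProbabilityMeasure ℂ), IsOpen V ∧
      p ∈ V ∧ Tendsto (fun k => (μ k).real {x | emp2 x ∈ V}) atTop (𝓝 0)) :
    ∃ ψ : ℕ → ℕ, StrictMono ψ ∧ ∃ (Ω : Type) (_ : MeasurableSpace Ω) (P : Measure Ω)
      (p : Ω → ProbabilityMeasure ℂ × ProbabilityMeasure ℂ), IsProbabilityMeasure P ∧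
      (∀ ω, p ω ∈ Ms) ∧
      ∀ (n₁ n₂ : ℕ) (f : BoundedContinuousFunction ((Fin n₁ → ℂ) × (Fin n₂ → ℂ)) ℝ),
        Measurable (fun ω => ∫ z, f z ∂((Measure.pi (fun _ : Fin n₁ => ((p ω).1 : Measure ℂ))).prod
          (Measure.pi (fun _ : Fin n₂ => ((p ω).2 : Measure ℂ))))) ∧
        Tendsto (fun k => ∫ x, f (marg n₁ n₂ x) ∂(μ (ψ k))) atTop
          (𝓝 (∫ ω, ∫ z, f z ∂((Measure.pi (fun _ : Fin n₁ => ((p ω).1 : Measure ℂ))).prod
            (Measure.pi (fun _ : Fin n₂ => ((p ω).2 : Measure ℂ)))) ∂P)) := by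
  obtain ⟨k₀, hk₀⟩ := eventually_atTop.1 (hm.eventually_ge_atTop 1)
  obtain ⟨ψ, hψ, Ω, hΩ, P, p, hP, hp, h⟩ := RL.aux (Ms := Ms) hK (m := fun k => m (k + k₀))
    (hm.comp (tendsto_add_atTop_nat k₀)) (fun k => hk₀ _ (Nat.le_add_left _ _))
    (fun k => μ (k + k₀)) (fun k => hprob _) (fun k => hexch _) (fun k => hsupp _)
    (fun p hp => by
      obtain ⟨V, hV, hpV, hVt⟩ := hconc p hp
      exact ⟨V, hV, hpV, hVt.comp (tendsto_add_atTop_nat k₀)⟩)
  refine ⟨fun k => ψ k + k₀, fun a b hab => Nat.add_lt_add_right (hψ hab) _, Ω, hΩ, P, p, hP, hp,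
    h⟩

end Pool.Agent.Lib.MP_fa244c_mp
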