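import Pool.Agent.Lib.MP_fa244c_mp.FinalA
import Pool.Agent.Lib.MP_fa244c_mp.RandLim

set_option autoImplicit false

open MeasureTheory Filter Topology Set Metric

namespace Pool.Agent.Lib.MP_fa244c_mp

/-- If the windows restricted to an open set `V` are exponentially smaller than `exp (2 m s_Λ)`
then the microcanonical probability of `V` tends to zero. -/
theorem micro_small {Λ : Set ℂ} {g : ℂ → ℂ → ℝ} (hD : Dom Λ g)
    (hm : Measurable (Function.uncurry g)) {ε : ℝ} (hε : 0 < ε)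
    (μ : ∀ m : ℕ, Measure (Fin m ⊕ Fin m → ℂ))
    (hμ : ∀ᶠ m : ℕ in atTop, IsMicro Λ g m ((2 * m) ^ 2 * ε) (μ m))
    {V : Set (ProbabilityMeasure ℂ × ProbabilityMeasure ℂ)} (hV : IsOpen V) {δ : ℝ} (hδ : 0 < δ)
    {m₀ : ℕ} (hb : ∀ m ≥ m₀, ∀ E h : ℝ, |E - (2 * m) ^ 2 * ε| ≤ 1 → 0 < h → h ≤ 1 →
      (PP Λ (Fin m ⊕ Fin m)).real {x | emp2 x ∈ V ∧ E ≤ energy g (chg m) x ∧
          energy g (chg m) x < E + h} ≤ h * Real.exp (2 * m * (sMax Λ g ε - δ))) :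
    Tendsto (fun m => (μ m).real {x | emp2 x ∈ V}) atTop (𝓝 0) := by
  obtain ⟨m₁, h₁⟩ := window_two_sided hD hm hε (δ := δ / 2) (by positivity)
  have hlim : Tendsto (fun m : ℕ => Real.exp (-((m : ℝ) * δ))) atTop (𝓝 0) := by
    refine Real.tendsto_exp_atBot.comp (tendsto_neg_atTop_atBot.comp ?_)
    exact tendsto_natCast_atTop_atTop.atTop_mul_const hδ
  refine squeeze_zero' (Eventually.of_forall fun _ => measureReal_nonneg) ?_ hlim
  filter_upwards [hμ, exists_micro hD hm hε, eventually_ge_atTop m₀, eventually_ge_atTop m₁]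
    with m hmu hex hm0 hm1
  refine micro_open hD hm hmu hex.2.1 (hV.preimage (continuous_emp2 m)) (Real.exp_pos _).le ?_
  intro h hh hh1
  have hE : |((2 * m) ^ 2 * ε : ℝ) - (2 * m) ^ 2 * ε| ≤ 1 := by simp
  have ha := (h₁ m hm1 _ h hE hh hh1).1
  have hb' := hb m hm0 _ h hE hh hh1
  calc (PP Λ (Fin m ⊕ Fin m)).real ((emp2 ⁻¹' V) ∩ win g m ((2 * m) ^ 2 * ε) h)
      ≤ h * Real.exp (2 * m * (sMax Λ g ε - δ)) := hb'
    _ = Real.exp (-(m * δ)) * (h * Real.exp (2 * m * (sMax Λ g ε - δ / 2))) := by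
        rw [mul_left_comm, ← Real.exp_add]
        congr 2; ring
    _ ≤ _ := mul_le_mul_of_nonneg_left ha (Real.exp_pos _).le

/-- Concentration of the pair of empirical measures near the maximizing pairs. -/
theorem concentration {Λ : Set ℂ} {g : ℂ → ℂ → ℝ} (hD : Dom Λ g)
    (hm : Measurable (Function.uncurry g)) {ε : ℝ} (hε : 0 < ε)
    {U : Set (ProbabilityMeasure ℂ × ProbabilityMeasure ℂ)} (hU : IsOpen U)
    (hUM : ∀ p, Rep Λ g ε (sMax Λ g ε) p → p ∈ U)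
    (μ : ∀ m : ℕ, Measure (Fin m ⊕ Fin m → ℂ))
    (hμ : ∀ᶠ m : ℕ in atTop, IsMicro Λ g m ((2 * m) ^ 2 * ε) (μ m)) :
    Tendsto (fun m => (μ m).real {x | emp2 x ∉ U}) atTop (𝓝 0) := by
  obtain ⟨δ, O, m₀, hδ, hO, hcov, hb⟩ := closed_upper hD hm (ε := ε) (s := sMax Λ g ε)
    hU.isClosed_compl (fun p hp hr => hp (hUM p hr))
  refine squeeze_zero' (Eventually.of_forall fun _ => measureReal_nonneg) ?_
    (micro_small hD hm hε μ hμ hO hδ hb)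
  filter_upwards [hμ, exists_micro hD hm hε, eventually_ge_atTop 1] with m hmu hex hm1
  have := hmu.1
  refine ENNReal.toReal_mono (measure_ne_top _ _) (measure_mono_ae ?_)
  filter_upwards [micro_supp hD hm hmu hex.2.1] with x hx hxU
  exact hcov ⟨hxU, emp2_mem_suppIn isClosed_closure hm1 hx⟩

/-- A weak form of the local statement needed for the random limit. -/
theorem local_conc {Λ : Set ℂ} {g : ℂ → ℂ → ℝ} (hD : Dom Λ g)
    (hm : Measurable (Function.uncurry g)) {ε : ℝ} (hε : 0 < ε)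
    (μ : ∀ m : ℕ, Measure (Fin m ⊕ Fin m → ℂ))
    (hμ : ∀ᶠ m : ℕ in atTop, IsMicro Λ g m ((2 * m) ^ 2 * ε) (μ m))
    (p : ProbabilityMeasure ℂ × ProbabilityMeasure ℂ) (hp : ¬ Rep Λ g ε (sMax Λ g ε) p) :
    ∃ V : Set (ProbabilityMeasure ℂ × ProbabilityMeasure ℂ), IsOpen V ∧ p ∈ V ∧
      Tendsto (fun m => (μ m).real {x | emp2 x ∈ V}) atTop (𝓝 0) := by
  obtain ⟨δ, V, m₀, hδ, hV, hpV, hb⟩ := local_upper hD hm p hp
  exact ⟨V, hV, hpV, micro_small hD hm hε μ hμ hV hδ hb⟩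

theorem IsAdm.isMaxPair {Λ : Set ℂ} {g : ℂ → ℂ → ℝ} (hD : Dom Λ g) {ε : ℝ} {ρp ρm : ℂ → ℝ}
    (h : IsAdm Λ g ε ρp ρm) (hs : sMax Λ g ε ≤ (entS Λ ρp + entS Λ ρm) / 2) :
    IsMaxPair Λ g ε ρp ρm :=
  ⟨h, fun _ _ hσ => (hσ.le_sMax hD).trans hs⟩

/-- Part (b): mixtures of products. -/
theorem part_b {Λ : Set ℂ} {g : ℂ → ℂ → ℝ} (hD : Dom Λ g)
    (hm : Measurable (Function.uncurry g)) {ε : ℝ} (hε : 0 < ε)
    (μ : ∀ m : ℕ, Measure (Fin m ⊕ Fin m → ℂ))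
    (hμ : ∀ᶠ m : ℕ in atTop, IsMicro Λ g m ((2 * m) ^ 2 * ε) (μ m))
    (φ : ℕ → ℕ) (hφ : StrictMono φ) :
    ∃ ψ : ℕ → ℕ, StrictMono ψ ∧ ∃ (Ω : Type) (_ : MeasurableSpace Ω) (P : Measure Ω)
      (Rp Rm : Ω → ℂ → ℝ), IsProbabilityMeasure P ∧
      (∀ ω, IsMaxPair Λ g ε (Rp ω) (Rm ω)) ∧
      ∀ (n₁ n₂ : ℕ) (f : BoundedContinuousFunction ((Fin n₁ → ℂ) × (Fin n₂ → ℂ)) ℝ),
        Measurable (fun ω => ∫ z, f z ∂(prodM n₁ n₂ (Rp ω) (Rm ω))) ∧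
        Tendsto (fun k => ∫ x, f (marg n₁ n₂ x) ∂(μ (φ (ψ k)))) atTop
          (𝓝 (∫ ω, ∫ z, f z ∂(prodM n₁ n₂ (Rp ω) (Rm ω)) ∂P)) := by
  obtain ⟨k₀, hk₀⟩ := eventually_atTop.1
    (hφ.tendsto_atTop.eventually (hμ.and (exists_micro hD hm hε)))
  have hmk : Tendsto (fun k => φ (k + k₀)) atTop atTop :=
    hφ.tendsto_atTop.comp (tendsto_add_atTop_nat k₀)
  have hk : ∀ k, IsMicro Λ g (φ (k + k₀)) ((2 * (φ (k + k₀) : ℕ)) ^ 2 * ε) (μ (φ (k + k₀))) ∧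
      0 < deriv (Phi Λ g (φ (k + k₀))) ((2 * (φ (k + k₀) : ℕ)) ^ 2 * ε) := fun k =>
    ⟨(hk₀ (k + k₀) (Nat.le_add_left _ _)).1, (hk₀ (k + k₀) (Nat.le_add_left _ _)).2.2.1⟩
  obtain ⟨ψ, hψ, Ω, mΩ, P, p, hP, hpM, hlim⟩ := rand_limit (K := closure Λ)
    hD.bdd.isCompact_closure (Ms := {p | Rep Λ g ε (sMax Λ g ε) p}) (m := fun k => φ (k + k₀)) hmk
    (fun k => μ (φ (k + k₀))) (fun k => (hk k).1.1)
    (fun k σ τ => micro_exch hD hm (hk k).1 (hk k).2 σ τ)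
    (fun k => micro_supp hD hm (hk k).1 (hk k).2)
    (fun p hp => by
      obtain ⟨V, hV, hpV, hVt⟩ := local_conc hD hm hε μ hμ p hp
      exact ⟨V, hV, hpV, hVt.comp hmk⟩)
  have hrep : ∀ ω, ∃ ρp ρm, IsMaxPair Λ g ε ρp ρm ∧ ((p ω).1 : Measure ℂ) = densM ρp ∧
      ((p ω).2 : Measure ℂ) = densM ρm := by
    intro ω
    obtain ⟨ρp, ρm, h1, h2, h3, h4⟩ := hpM ω
    exact ⟨ρp, ρm, h1.isMaxPair hD h4, h2, h3⟩
  choose Rp Rm hR1 hR2 hR3 using hrep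
  refine ⟨fun k => ψ k + k₀, fun a b hab => by
    have := hψ hab
    show ψ a + k₀ < ψ b + k₀
    omega, Ω, mΩ, P, Rp, Rm, hP, hR1, fun n₁ n₂ f => ?_⟩
  have h := hlim n₁ n₂ f
  simp only [hR2, hR3] at h
  exact h

theorem isProb_densM {Λ : Set ℂ} {ρ : ℂ → ℝ} (h : IsDens Λ ρ) :
    IsProbabilityMeasure (densM ρ) := by
  have hint : Integrable ρ := by
    by_contra hc
    have := h.int
    rw [integral_undef hc] at this
    exact zero_ne_one this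
  constructor
  rw [densM, withDensity_apply _ MeasurableSet.univ, Measure.restrict_univ,
    ← ofReal_integral_eq_lintegral_ofReal hint (Eventually.of_forall h.nonneg), h.int,
    ENNReal.ofReal_one]

theorem integral_densM {Λ : Set ℂ} {ρ : ℂ → ℝ} (h : IsDens Λ ρ) (f : ℂ → ℝ) :
    ∫ y, f y ∂(densM ρ) = ∫ y, f y * ρ y := by
  have e : (fun x => ENNReal.ofReal (ρ x)) = fun x => ((ρ x).toNNReal : ENNReal) := rfl
  rw [densM, e, integral_withDensity_eq_integral_smul h.meas.real_toNNReal]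
  refine integral_congr_ae (Eventually.of_forall fun x => ?_)
  simp only [NNReal.smul_def, Real.coe_toNNReal _ (h.nonneg x), smul_eq_mul]
  ring

theorem fb_integral_emp {m : ℕ} (hm : 1 ≤ m) (y : Fin m → ℂ) (f : BoundedContinuousFunction ℂ ℝ) :
    ∫ z, f z ∂(emp y : Measure ℂ) = 1 / (m : ℝ) * ∑ i, f (y i) := by
  have hm0 : m ≠ 0 := by omega
  have e : (emp y : Measure ℂ) = (m : ENNReal)⁻¹ • ∑ i, Measure.dirac (y i) := by
    simp [emp, hm0]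
  rw [e, integral_smul_measure, integral_finsetSum_measure]
  · simp
  · intro i _
    exact f.integrable _

/-- Empirical averages are close to those of some maximizing pair, in probability. -/
theorem part_b_lln {Λ : Set ℂ} {g : ℂ → ℂ → ℝ} (hD : Dom Λ g)
    (hm : Measurable (Function.uncurry g)) {ε : ℝ} (hε : 0 < ε)
    (μ : ∀ m : ℕ, Measure (Fin m ⊕ Fin m → ℂ))
    (hμ : ∀ᶠ m : ℕ in atTop, IsMicro Λ g m ((2 * m) ^ 2 * ε) (μ m))
    (f : BoundedContinuousFunction ℂ ℝ) {η : ℝ} (hη : 0 < η) :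
    Tendsto (fun m : ℕ => (μ m) {x | ∃ ρp ρm, IsMaxPair Λ g ε ρp ρm ∧
      |(1 / (m : ℝ)) * ∑ i, f (x (Sum.inl i)) - ∫ y, f y * ρp y| < η ∧
      |(1 / (m : ℝ)) * ∑ i, f (x (Sum.inr i)) - ∫ y, f y * ρm y| < η}) atTop (𝓝 1) := by
  set U : Set (ProbabilityMeasure ℂ × ProbabilityMeasure ℂ) :=
    {p | ∃ ρp ρm, IsMaxPair Λ g ε ρp ρm ∧ |∫ z, f z ∂(p.1 : Measure ℂ) - ∫ y, f y * ρp y| < η ∧
      |∫ z, f z ∂(p.2 : Measure ℂ) - ∫ y, f y * ρm y| < η} with hUdef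
  have hc : Continuous (fun p : ProbabilityMeasure ℂ => ∫ z, f z ∂(p : Measure ℂ)) :=
    ProbabilityMeasure.continuous_integral_boundedContinuousFunction f
  have hU : IsOpen U := by
    have e : U = ⋃ (ρp : ℂ → ℝ) (ρm : ℂ → ℝ) (_ : IsMaxPair Λ g ε ρp ρm),
        {p : ProbabilityMeasure ℂ × ProbabilityMeasure ℂ |
          |∫ z, f z ∂(p.1 : Measure ℂ) - ∫ y, f y * ρp y| < η ∧
          |∫ z, f z ∂(p.2 : Measure ℂ) - ∫ y, f y * ρm y| < η} := by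
      ext p
      simp only [hUdef, mem_iUnion, mem_ofPred_eq]
      constructor
      · rintro ⟨a, b, h1, h2⟩; exact ⟨a, b, h1, h2⟩
      · rintro ⟨a, b, h1, h2⟩; exact ⟨a, b, h1, h2⟩
    rw [e]
    refine isOpen_iUnion fun ρp => isOpen_iUnion fun ρm => isOpen_iUnion fun _ => ?_
    refine IsOpen.inter ?_ ?_
    · exact isOpen_lt (((hc.comp continuous_fst).sub continuous_const).abs) continuous_const
    · exact isOpen_lt (((hc.comp continuous_snd).sub continuous_const).abs) continuous_const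
  have hUM : ∀ p, Rep Λ g ε (sMax Λ g ε) p → p ∈ U := by
    rintro p ⟨ρp, ρm, hadm, h1, h2, h3⟩
    refine ⟨ρp, ρm, hadm.isMaxPair hD h3, ?_, ?_⟩
    · rw [h1, integral_densM hadm.1]; simpa using hη
    · rw [h2, integral_densM hadm.2.1]; simpa using hη
  have h0 := concentration hD hm hε hU hUM μ hμ
  have h1 : Tendsto (fun m => 1 - ENNReal.ofReal ((μ m).real {x | emp2 x ∉ U})) atTop (𝓝 1) := by
    have := ENNReal.Tendsto.sub (tendsto_const_nhds (x := (1 : ENNReal)))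
      (ENNReal.tendsto_ofReal h0) (Or.inl ENNReal.one_ne_top)
    simpa using this
  refine h1.congr' ?_
  filter_upwards [hμ, eventually_ge_atTop 1] with m hmu hm1
  have := hmu.1
  have hme : MeasurableSet {x : Fin m ⊕ Fin m → ℂ | emp2 x ∈ U} :=
    (hU.preimage (continuous_emp2 m)).measurableSet
  have e1 : {x : Fin m ⊕ Fin m → ℂ | ∃ ρp ρm, IsMaxPair Λ g ε ρp ρm ∧
      |(1 / (m : ℝ)) * ∑ i, f (x (Sum.inl i)) - ∫ y, f y * ρp y| < η ∧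
      |(1 / (m : ℝ)) * ∑ i, f (x (Sum.inr i)) - ∫ y, f y * ρm y| < η} = {x | emp2 x ∈ U} := by
    ext x
    simp only [hUdef, emp2, mem_ofPred_eq, fb_integral_emp hm1]
  have e2 : {x : Fin m ⊕ Fin m → ℂ | emp2 x ∉ U} = {x | emp2 x ∈ U}ᶜ := rfl
  rw [e1, e2, ofReal_measureReal, prob_compl_eq_one_sub hme]
  exact ENNReal.sub_sub_cancel ENNReal.one_ne_top prob_le_one

theorem marg_swap {m : ℕ} (n₁ n₂ : ℕ) (x : Fin m ⊕ Fin m → ℂ) :
    marg n₂ n₁ (fun i => x i.swap) = (marg n₁ n₂ x).swap := by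
  simp [marg]

theorem integral_prodM_swap {Λ : Set ℂ} {ρp ρm : ℂ → ℝ} (h1 : IsDens Λ ρp) (h2 : IsDens Λ ρm)
    (n₁ n₂ : ℕ) (f : BoundedContinuousFunction ((Fin n₁ → ℂ) × (Fin n₂ → ℂ)) ℝ) :
    ∫ z, f z.swap ∂(prodM n₂ n₁ ρp ρm) = ∫ z, f z ∂(prodM n₁ n₂ ρm ρp) := by
  have := isProb_densM h1
  have := isProb_densM h2
  unfold prodM
  rw [← Measure.prod_swap (μ := Measure.pi fun _ : Fin n₂ => densM ρp)
    (ν := Measure.pi fun _ : Fin n₁ => densM ρm),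
    integral_map measurable_swap.aemeasurable]
  exact f.continuous.aestronglyMeasurable

theorem prodM_congr {ρp ρm σp σm : ℂ → ℝ} (h1 : σp =ᵐ[volume] ρp) (h2 : σm =ᵐ[volume] ρm)
    (n₁ n₂ : ℕ) : prodM n₁ n₂ σp σm = prodM n₁ n₂ ρp ρm := by
  have e1 : densM σp = densM ρp := withDensity_congr_ae (h1.mono fun x hx => by
    simp only [hx])
  have e2 : densM σm = densM ρm := withDensity_congr_ae (h2.mono fun x hx => by
    simp only [hx])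
  rw [prodM, prodM, e1, e2]

/-- If the maximizing pair is unique up to exchange of the species, the marginals converge to those
of the symmetric mixture of the two products. -/
theorem part_b_unique {Λ : Set ℂ} {g : ℂ → ℂ → ℝ} (hD : Dom Λ g)
    (hm : Measurable (Function.uncurry g)) {ε : ℝ} (hε : 0 < ε)
    (μ : ∀ m : ℕ, Measure (Fin m ⊕ Fin m → ℂ))
    (hμ : ∀ᶠ m : ℕ in atTop, IsMicro Λ g m ((2 * m) ^ 2 * ε) (μ m)) {ρp ρm : ℂ → ℝ}
    (hρ : IsMaxPair Λ g ε ρp ρm)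
    (hu : ∀ σp σm, IsMaxPair Λ g ε σp σm → (σp =ᵐ[volume] ρp ∧ σm =ᵐ[volume] ρm) ∨
      (σp =ᵐ[volume] ρm ∧ σm =ᵐ[volume] ρp)) (n₁ n₂ : ℕ)
    (f : BoundedContinuousFunction ((Fin n₁ → ℂ) × (Fin n₂ → ℂ)) ℝ) :
    Tendsto (fun m => ∫ x, f (marg n₁ n₂ x) ∂(μ m)) atTop
      (𝓝 (1 / 2 * (∫ z, f z ∂(prodM n₁ n₂ ρp ρm)) + 1 / 2 * ∫ z, f z ∂(prodM n₁ n₂ ρm ρp))) := by
  refine tendsto_of_subseq_tendsto fun ns hns => ?_
  obtain ⟨θ, hθ, hnθ⟩ := strictMono_subseq_of_tendsto_atTop hns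
  obtain ⟨ψ, hψ, Ω, mΩ, P, Rp, Rm, hP, hR, hlim⟩ := part_b hD hm hε μ hμ (ns ∘ θ) hnθ
  refine ⟨fun k => θ (ψ k), ?_⟩
  obtain ⟨hmeas, hL⟩ := hlim n₁ n₂ f
  let fs : BoundedContinuousFunction ((Fin n₂ → ℂ) × (Fin n₁ → ℂ)) ℝ :=
    f.compContinuous ⟨Prod.swap, continuous_swap⟩
  obtain ⟨-, hLs⟩ := hlim n₂ n₁ fs
  set F₁ := ∫ z, f z ∂(prodM n₁ n₂ ρp ρm) with hF₁
  set F₂ := ∫ z, f z ∂(prodM n₁ n₂ ρm ρp) with hF₂
  have hsum : ∀ ω, ∫ z, fs z ∂(prodM n₂ n₁ (Rp ω) (Rm ω)) =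
      F₁ + F₂ - ∫ z, f z ∂(prodM n₁ n₂ (Rp ω) (Rm ω)) := by
    intro ω
    have e : ∫ z, fs z ∂(prodM n₂ n₁ (Rp ω) (Rm ω)) =
        ∫ z, f z ∂(prodM n₁ n₂ (Rm ω) (Rp ω)) :=
      integral_prodM_swap (hR ω).1.1 (hR ω).1.2.1 n₁ n₂ f
    rw [e]
    rcases hu _ _ (hR ω) with ⟨h1, h2⟩ | ⟨h1, h2⟩
    · rw [prodM_congr h1 h2, prodM_congr h2 h1, ← hF₁, ← hF₂]; ring
    · rw [prodM_congr h1 h2, prodM_congr h2 h1, ← hF₁, ← hF₂]; ring
  have hval : ∀ ω, ‖∫ z, f z ∂(prodM n₁ n₂ (Rp ω) (Rm ω))‖ ≤ max ‖F₁‖ ‖F₂‖ := by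
    intro ω
    rcases hu _ _ (hR ω) with ⟨h1, h2⟩ | ⟨h1, h2⟩
    · rw [prodM_congr h1 h2, ← hF₁]; exact le_max_left _ _
    · rw [prodM_congr h1 h2, ← hF₂]; exact le_max_right _ _
  have hint : Integrable (fun ω => ∫ z, f z ∂(prodM n₁ n₂ (Rp ω) (Rm ω))) P :=
    Integrable.of_bound hmeas.aestronglyMeasurable _ (Eventually.of_forall hval)
  have hLs' : ∫ ω, ∫ z, fs z ∂(prodM n₂ n₁ (Rp ω) (Rm ω)) ∂P =
      F₁ + F₂ - ∫ ω, ∫ z, f z ∂(prodM n₁ n₂ (Rp ω) (Rm ω)) ∂P := by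
    simp only [hsum]
    rw [integral_sub (integrable_const _) hint]
    simp
  have heq : (fun k => ∫ x, f (marg n₁ n₂ x) ∂(μ ((ns ∘ θ) (ψ k)))) =ᶠ[atTop]
      fun k => ∫ x, fs (marg n₂ n₁ x) ∂(μ ((ns ∘ θ) (ψ k))) := by
    have hev := (hnθ.tendsto_atTop.comp hψ.tendsto_atTop).eventually
      (hμ.and (exists_micro hD hm hε))
    filter_upwards [hev] with k hk
    obtain ⟨hk1, hk2⟩ := hk
    have hsw := micro_swap hD hm hk1 hk2.2.1
    have hmar : ∀ a b : ℕ, Measurable (marg (m := (ns ∘ θ) (ψ k)) a b) := by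
      intro a b
      unfold marg
      refine Measurable.prodMk (measurable_pi_lambda _ fun i => ?_)
        (measurable_pi_lambda _ fun i => ?_)
      · by_cases h : (i : ℕ) < (ns ∘ θ) (ψ k)
        · simp only [h, dif_pos]; exact measurable_pi_apply _
        · simp only [h, dif_neg, not_false_eq_true]; exact measurable_const
      · by_cases h : (i : ℕ) < (ns ∘ θ) (ψ k)
        · simp only [h, dif_pos]; exact measurable_pi_apply _
        · simp only [h, dif_neg, not_false_eq_true]; exact measurable_const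
    have hmsw : Measurable (fun (x : Fin ((ns ∘ θ) (ψ k)) ⊕ Fin ((ns ∘ θ) (ψ k)) → ℂ)
        (i : Fin ((ns ∘ θ) (ψ k)) ⊕ Fin ((ns ∘ θ) (ψ k))) => x i.swap) :=
      measurable_pi_lambda _ fun i => measurable_pi_apply _
    symm
    show ∫ x, fs (marg n₂ n₁ x) ∂(μ ((ns ∘ θ) (ψ k))) = _
    conv_lhs => rw [show μ ((ns ∘ θ) (ψ k)) = (μ ((ns ∘ θ) (ψ k))).map (fun x i => x i.swap)
      from hsw.symm]
    rw [integral_map hmsw.aemeasurable]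
    · refine integral_congr_ae (Eventually.of_forall fun x => ?_)
      show fs (marg n₂ n₁ (fun i => x i.swap)) = f (marg n₁ n₂ x)
      rw [marg_swap]
      show f (marg n₁ n₂ x).swap.swap = _
      rw [Prod.swap_swap]
    · exact (fs.continuous.measurable.comp (hmar n₂ n₁)).aestronglyMeasurable
  have huniq := tendsto_nhds_unique (hL.congr' heq) hLs
  rw [hLs'] at huniq
  have hfin : ∫ ω, ∫ z, f z ∂(prodM n₁ n₂ (Rp ω) (Rm ω)) ∂P = 1 / 2 * F₁ + 1 / 2 * F₂ := by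
    linarith
  rw [hfin] at hL
  exact hL

end Pool.Agent.Lib.MP_fa244c_mp
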