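import Pool.Agent.Lib.MP_fa244c_mp.HB1

set_option autoImplicit false

open MeasureTheory Filter Topology Set Metric
open scoped ContDiff

namespace Pool.Agent.Lib.MP_fa244c_mp

namespace HB

/-- the product mollifier -/
noncomputable def et2 (p : ℂ × ℂ) : ℝ := et p.1 * et p.2

theorem et2_contDiff : ContDiff ℝ ∞ et2 :=
  (et_contDiff.comp contDiff_fst).mul (et_contDiff.comp contDiff_snd)

theorem et2_support : HasCompactSupport et2 := by
  apply HasCompactSupport.of_support_subset_isCompact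
    ((isCompact_closedBall (0 : ℂ) (1 / 2)).prod (isCompact_closedBall (0 : ℂ) (1 / 2)))
  rintro ⟨a, b⟩ hw
  rw [Function.mem_support, et2] at hw
  refine ⟨?_, ?_⟩
  · rw [mem_closedBall_zero_iff]
    by_contra hcon
    push Not at hcon
    exact hw (by simp only; rw [et_zero hcon.le, zero_mul])
  · rw [mem_closedBall_zero_iff]
    by_contra hcon
    push Not at hcon
    exact hw (by simp only; rw [et_zero hcon.le, mul_zero])

theorem sc_et2 (δ : ℝ) (a b : ℂ) : sc et2 δ (a, b) = sc et δ a * sc et δ b := by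
  unfold sc et2
  rw [Module.finrank_prod, Complex.finrank_real_complex]
  simp only [Prod.smul_mk]
  have : ((δ : ℝ) ^ (2 + 2))⁻¹ = (δ ^ 2)⁻¹ * (δ ^ 2)⁻¹ := by
    rw [pow_add, mul_inv]
  rw [this]
  ring

/-- joint continuity of separately harmonic bounded functions -/
theorem joint_continuousAt {u : ℂ → ℂ → ℝ} {x y : ℂ} {r A : ℝ} (hr : 0 < r)
    (h1 : ∀ b ∈ ball y r, InnerProductSpace.HarmonicOnNhd (fun z => u z b) (ball x r))
    (h2 : ∀ a ∈ ball x r, InnerProductSpace.HarmonicOnNhd (fun w => u a w) (ball y r))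
    (hA : ∀ a ∈ ball x r, ∀ b ∈ ball y r, |u a b| ≤ A) {a b : ℂ} (ha : a ∈ ball x (r / 2))
    (hb : b ∈ ball y (r / 2)) : ContinuousAt (fun p : ℂ × ℂ => u p.1 p.2) (a, b) := by
  obtain ⟨C, hC, hCb⟩ := harmonic_bounds
  have hsub : ∀ c : ℂ, ball c (r / 2) ⊆ ball c r := fun c => ball_subset_ball (by linarith)
  set L : ℝ := C * A / (r / 2) ^ 1 with hL
  have hlip : ∀ b' ∈ ball y (r / 2), ∀ a' ∈ ball x (r / 2), |u a' b' - u a b'| ≤ L * ‖a' - a‖ := by
    intro b' hb' a' ha'
    have hd : ∀ ζ ∈ ball x (r / 2), ContDiffAt ℝ ∞ (fun z => u z b') ζ ∧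
        ‖fderiv ℝ (fun z => u z b') ζ‖ ≤ L := by
      intro ζ hζ
      have hs : ball ζ (r / 2) ⊆ ball x r := by
        intro w hw
        rw [mem_ball] at hw hζ ⊢
        linarith [dist_triangle w ζ x]
      obtain ⟨h3, h4⟩ := hCb (fun z => u z b') ζ (r / 2) A (by linarith)
        ((h1 b' (hsub y hb')).mono hs) (fun z hz => hA z (hs hz) b' (hsub y hb'))
      refine ⟨h3, ?_⟩
      have h5 := h4 1 le_rfl (by norm_num)
      rwa [norm_iteratedFDeriv_one] at h5
    have h6 := (convex_ball x (r / 2)).norm_image_sub_le_of_norm_fderiv_le (𝕜 := ℝ)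
      (f := fun z => u z b') (C := L)
      (fun ζ hζ => (hd ζ hζ).1.differentiableAt (by simp)) (fun ζ hζ => (hd ζ hζ).2) ha ha'
    rwa [Real.norm_eq_abs] at h6
  have hcb : ContinuousAt (fun w => u a w) b :=
    (h2 a (hsub x ha) b (hsub y hb)).1.continuousAt
  rw [ContinuousAt, tendsto_iff_norm_sub_tendsto_zero]
  have hlim : Tendsto (fun p : ℂ × ℂ => L * ‖p.1 - a‖ + ‖u a p.2 - u a b‖) (𝓝 (a, b)) (𝓝 0) := by
    have e1 : Tendsto (fun p : ℂ × ℂ => L * ‖p.1 - a‖) (𝓝 (a, b)) (𝓝 0) := by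
      have : ContinuousAt (fun p : ℂ × ℂ => L * ‖p.1 - a‖) (a, b) := by fun_prop
      have h := this.tendsto
      simpa using h
    have e2 : Tendsto (fun p : ℂ × ℂ => ‖u a p.2 - u a b‖) (𝓝 (a, b)) (𝓝 0) := by
      have h3 : Tendsto (fun w => ‖u a w - u a b‖) (𝓝 b) (𝓝 0) :=
        tendsto_iff_norm_sub_tendsto_zero.1 hcb
      exact h3.comp (continuous_snd.tendsto (a, b))
    simpa using e1.add e2
  apply squeeze_zero' (Eventually.of_forall fun p => norm_nonneg _) _ hlim
  have hopen : IsOpen (ball x (r / 2) ×ˢ ball y (r / 2)) := isOpen_ball.prod isOpen_ball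
  filter_upwards [hopen.mem_nhds ⟨ha, hb⟩] with p hp
  have h7 : u p.1 p.2 - u a b = (u p.1 p.2 - u a p.2) + (u a p.2 - u a b) := by ring
  rw [h7]
  refine (norm_add_le _ _).trans ?_
  rw [Real.norm_eq_abs]
  have := hlip p.2 hp.2 p.1 hp.1
  linarith

end HB

/-- The same for functions of two variables harmonic in each of them. -/
theorem biharmonic_bounds : ∃ C : ℝ, 0 < C ∧ ∀ (u : ℂ → ℂ → ℝ) (x y : ℂ) (r A : ℝ), 0 < r →
    (∀ b ∈ ball y r, InnerProductSpace.HarmonicOnNhd (fun z => u z b) (ball x r)) →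
    (∀ a ∈ ball x r, InnerProductSpace.HarmonicOnNhd (fun w => u a w) (ball y r)) →
    (∀ a ∈ ball x r, ∀ b ∈ ball y r, |u a b| ≤ A) →
    ContDiffAt ℝ ∞ (fun p : ℂ × ℂ => u p.1 p.2) (x, y) ∧
      ∀ k : ℕ, 1 ≤ k → k ≤ 3 →
        ‖iteratedFDeriv ℝ k (fun p : ℂ × ℂ => u p.1 p.2) (x, y)‖ ≤ C * A / r ^ k := by
  classical
  set M : ℕ → ℝ := fun k => ∫ q : ℂ × ℂ, ‖iteratedFDeriv ℝ k HB.et2 q‖ with hM
  have hM0 : ∀ k, 0 ≤ M k := fun k => integral_nonneg fun q => norm_nonneg _
  refine ⟨1 + ∑ k ∈ Finset.range 4, M k * 4 ^ k, by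
    have : 0 ≤ ∑ k ∈ Finset.range 4, M k * 4 ^ k :=
      Finset.sum_nonneg fun k _ => mul_nonneg (hM0 k) (by positivity)
    linarith, ?_⟩
  intro u x y r A hr h1 h2 hA
  have hA0 : 0 ≤ A := (abs_nonneg _).trans (hA x (mem_ball_self hr) y (mem_ball_self hr))
  have hsub : ∀ c : ℂ, ball c (r / 2) ⊆ ball c r := fun c => ball_subset_ball (by linarith)
  set B : Set (ℂ × ℂ) := ball x (r / 2) ×ˢ ball y (r / 2) with hB
  have hBm : MeasurableSet B := measurableSet_ball.prod measurableSet_ball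
  set U : ℂ × ℂ → ℝ := B.indicator (fun p => u p.1 p.2) with hU
  have hUm : AEStronglyMeasurable U (volume : Measure (ℂ × ℂ)) := by
    have h3 : ContinuousOn (fun p : ℂ × ℂ => u p.1 p.2) B := fun p hp =>
      (HB.joint_continuousAt hr h1 h2 hA hp.1 hp.2).continuousWithinAt
    exact (aestronglyMeasurable_indicator_iff hBm).2 (h3.aestronglyMeasurable hBm)
  have hUA : ∀ q, |U q| ≤ A := by
    intro q
    rw [hU, Set.indicator_apply]
    split_ifs with h
    · exact hA q.1 (hsub x h.1) q.2 (hsub y h.2)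
    · simpa using hA0
  have hδ : 0 < r / 4 := by linarith
  have hHaar : (volume : Measure (ℂ × ℂ)).IsAddHaarMeasure := by
    rw [Measure.volume_eq_prod]; infer_instance
  obtain ⟨h3, h4⟩ := HB.cv_sc (δ := r / 4) hUm hUA HB.et2_contDiff HB.et2_support hδ
  have heq : HB.cv volume U (HB.sc HB.et2 (r / 4)) =ᶠ[𝓝 (x, y)] fun p : ℂ × ℂ => u p.1 p.2 := by
    have hopen : IsOpen (ball x (r / 4) ×ˢ ball y (r / 4)) := isOpen_ball.prod isOpen_ball
    filter_upwards [hopen.mem_nhds ⟨mem_ball_self hδ, mem_ball_self hδ⟩] with p hp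
    obtain ⟨a, b⟩ := p
    obtain ⟨ha, hb⟩ := hp
    simp only at ha hb ⊢
    rw [mem_ball] at ha hb
    unfold HB.cv
    have hint : Integrable (fun q : ℂ × ℂ => U q • HB.sc HB.et2 (r / 4) ((a, b) - q))
        (volume.prod volume) := by
      have hk : Integrable (fun q : ℂ × ℂ => HB.sc HB.et2 (r / 4) ((a, b) - q)) volume :=
        ((HB.sc_contDiff HB.et2_contDiff (r / 4)).continuous.integrable_of_hasCompactSupport
          (HB.sc_hasCompactSupport HB.et2_support hδ)).comp_sub_left (a, b)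
      exact hk.bdd_smul A hUm (Eventually.of_forall fun q => by
        rw [Real.norm_eq_abs]; exact hUA q)
    rw [Measure.volume_eq_prod, integral_prod _ hint]
    have hinner : ∀ s : ℂ, ∫ t : ℂ, U (s, t) • HB.sc HB.et2 (r / 4) ((a, b) - (s, t)) =
        (ball x (r / 2)).indicator (fun z => u z b) s • HB.sc HB.et (r / 4) (a - s) := by
      intro s
      have e1 : ∀ t : ℂ, U (s, t) • HB.sc HB.et2 (r / 4) ((a, b) - (s, t)) =
          HB.sc HB.et (r / 4) (a - s) * (U (s, t) • HB.sc HB.et (r / 4) (b - t)) := by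
        intro t
        rw [Prod.mk_sub_mk, HB.sc_et2]
        simp only [smul_eq_mul]
        ring
      simp only [e1]
      rw [integral_const_mul]
      by_cases hs : s ∈ ball x (r / 2)
      · rw [Set.indicator_of_mem hs]
        have e2 := HB.reproduce (u := fun w => u s w) (z := b) hδ
          ((h2 s (hsub x hs)).mono (fun w hw => by
            rw [mem_ball] at hw ⊢
            linarith [dist_triangle w b y])) (fun t => U (s, t)) (fun w hw => by
            have : (s, w) ∈ B := ⟨hs, by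
              simp only
              rw [mem_ball] at hw ⊢
              linarith [dist_triangle w b y]⟩
            rw [hU, Set.indicator_of_mem this])
        unfold HB.cv at e2
        rw [e2, smul_eq_mul, mul_comm]
      · rw [Set.indicator_of_notMem hs]
        have e2 : ∀ t : ℂ, U (s, t) = 0 := by
          intro t
          rw [hU]
          exact Set.indicator_of_notMem (fun h => hs h.1) _
        simp [e2]
    simp only [hinner]
    have e3 := HB.reproduce (u := fun z => u z b) (z := a) hδ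
      ((h1 b (by rw [mem_ball]; linarith)).mono (fun w hw => by
        rw [mem_ball] at hw ⊢
        linarith [dist_triangle w a x])) ((ball x (r / 2)).indicator (fun z => u z b))
      (fun w hw => by
        rw [Set.indicator_of_mem]
        rw [mem_ball] at hw ⊢
        linarith [dist_triangle w a x])
    unfold HB.cv at e3
    exact e3
  refine ⟨h3.contDiffAt.congr_of_eventuallyEq heq.symm, fun k hk1 hk3 => ?_⟩
  have h5 : iteratedFDeriv ℝ k (fun p : ℂ × ℂ => u p.1 p.2) (x, y) =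
      iteratedFDeriv ℝ k (HB.cv volume U (HB.sc HB.et2 (r / 4))) (x, y) :=
    (heq.symm.iteratedFDeriv ℝ k).eq_of_nhds
  rw [h5]
  refine (h4 k (x, y)).trans ?_
  have h6 : A * M k / (r / 4) ^ k = (M k * 4 ^ k) * A / r ^ k := by
    rw [div_pow]
    field_simp
  change A * M k / (r / 4) ^ k ≤ _
  rw [h6]
  have h7 : M k * 4 ^ k ≤ ∑ k ∈ Finset.range 4, M k * 4 ^ k :=
    Finset.single_le_sum (f := fun k => M k * 4 ^ k)
      (fun k _ => mul_nonneg (hM0 k) (by positivity)) (Finset.mem_range.2 (by omega))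
  gcongr
  linarith

end Pool.Agent.Lib.MP_fa244c_mp
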