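import Pool.Agent.Lib.MP_fa244c_mp.Symm
import Pool.Agent.Lib.MP_fa244c_mp.HB2

set_option autoImplicit false

open MeasureTheory Filter Topology Set Metric
open scoped ContDiff

namespace Pool.Agent.Lib.MP_fa244c_mp

namespace GSm

variable {Λ : Set ℂ} {g : ℂ → ℂ → ℝ}

theorem mem_of_infDist {δ : ℝ} (hδ : 0 < δ) {x : ℂ} (hx : δ ≤ infDist x Λᶜ) : x ∈ Λ := by
  by_contra h
  have : infDist x Λᶜ = 0 := infDist_zero_of_mem h
  linarith

theorem infDist_ball {δ : ℝ} {x a : ℂ} (hx : δ ≤ infDist x Λᶜ) (ha : a ∈ ball x (δ / 2)) :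
    δ / 2 ≤ infDist a Λᶜ := by
  have h1 : infDist x Λᶜ ≤ infDist a Λᶜ + dist x a := infDist_le_infDist_add_dist
  have h2 : dist x a < δ / 2 := by rw [dist_comm]; exact ha
  linarith

theorem harm_snd (hD : Dom Λ g) {x : ℂ} (hx : x ∈ Λ) :
    InnerProductSpace.HarmonicOnNhd (fun y => g x y) Λ := by
  intro y hy
  refine (InnerProductSpace.harmonicAt_congr_nhds ?_).1 (hD.green.harm x hx y hy)
  filter_upwards [hD.isOpen.mem_nhds hy] with z hz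
  exact g_symm hD hz hx

theorem exists_A (hD : Dom Λ g) : ∃ A : ℝ, 0 < A ∧ ∀ δ : ℝ, 0 < δ → δ ≤ 1 → ∀ a b : ℂ, a ∈ Λ →
    b ∈ Λ → (δ ≤ infDist a Λᶜ ∨ δ ≤ infDist b Λᶜ) → |g a b| ≤ A / δ := by
  obtain ⟨D, hD1, hDb⟩ := exists_diam hD
  refine ⟨Real.log D + 1, by linarith [Real.log_nonneg hD1], ?_⟩
  intro δ hδ hδ1 a b ha hb hor
  have hlow : Real.log δ ≤ g a b := by
    rcases hor with h | h
    · rw [g_symm hD ha hb]
      exact (Real.log_le_log hδ h).trans (log_infDist_le hD hb ha)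
    · exact (Real.log_le_log hδ h).trans (log_infDist_le hD ha hb)
  have hup := (hDb a ha b hb).2
  have hlog : -(1 / δ) ≤ Real.log δ := by
    have := Real.one_sub_inv_le_log_of_pos hδ
    rw [one_div]; linarith
  have h1 : 1 ≤ 1 / δ := by rw [le_div_iff₀ hδ]; linarith
  have hD0 := Real.log_nonneg hD1
  rw [abs_le, add_div]
  have h2 : Real.log D ≤ Real.log D / δ := by
    rw [le_div_iff₀ hδ]; nlinarith
  constructor
  · have : 0 ≤ Real.log D / δ := by positivity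
    linarith
  · linarith

theorem pow_bound {C A δ : ℝ} (hC : 0 < C) (hA : 0 < A) (hδ : 0 < δ) (hδ1 : δ ≤ 1) {k : ℕ}
    (hk : k ≤ 3) : C * (A / (δ / 2)) / (δ / 2) ^ k ≤ 16 * C * A / δ ^ 4 := by
  have e : C * (A / (δ / 2)) / (δ / 2) ^ k = 2 ^ (k + 1) * (C * A) / δ ^ (k + 1) := by
    rw [div_pow]; field_simp; ring
  rw [e]
  have h1 : (2 : ℝ) ^ (k + 1) ≤ 16 := by
    have : (2 : ℝ) ^ (k + 1) ≤ 2 ^ 4 := pow_le_pow_right₀ (by norm_num) (by omega)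
    linarith [this, show (2 : ℝ) ^ 4 = 16 by norm_num]
  have h2 : δ ^ 4 ≤ δ ^ (k + 1) := pow_le_pow_of_le_one hδ.le hδ1 (by omega)
  calc 2 ^ (k + 1) * (C * A) / δ ^ (k + 1) ≤ 16 * (C * A) / δ ^ (k + 1) := by gcongr
    _ ≤ 16 * (C * A) / δ ^ 4 := by gcongr
    _ = _ := by ring

end GSm

open GSm

theorem gg_contDiffAt {Λ : Set ℂ} {g : ℂ → ℂ → ℝ} (hD : Dom Λ g) {x y : ℂ} (hx : x ∈ Λ)
    (hy : y ∈ Λ) : ContDiffAt ℝ ∞ (fun p : ℂ × ℂ => g p.1 p.2) (x, y) := by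
  obtain ⟨A, hA, hAb⟩ := exists_A hD
  obtain ⟨C, hC, hCb⟩ := biharmonic_bounds
  have hne : (Λᶜ).Nonempty := by
    rw [nonempty_compl]
    intro h
    have := hD.bdd
    rw [h] at this
    exact NormedSpace.unbounded_univ ℝ ℂ this
  have hpos : ∀ z ∈ Λ, 0 < infDist z Λᶜ := fun z hz =>
    (hD.isOpen.isClosed_compl.notMem_iff_infDist_pos hne).1 (by simpa using hz)
  set δ := min 1 (min (infDist x Λᶜ) (infDist y Λᶜ)) with hδdef
  have hδ : 0 < δ := lt_min one_pos (lt_min (hpos x hx) (hpos y hy))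
  have hδ1 : δ ≤ 1 := min_le_left _ _
  have hδx : δ ≤ infDist x Λᶜ := (min_le_right _ _).trans (min_le_left _ _)
  have hδy : δ ≤ infDist y Λᶜ := (min_le_right _ _).trans (min_le_right _ _)
  have hxb : ∀ a ∈ ball x (δ / 2), a ∈ Λ := fun a ha =>
    mem_of_infDist (half_pos hδ) (infDist_ball hδx ha)
  have hyb : ∀ b ∈ ball y (δ / 2), b ∈ Λ := fun b hb =>
    mem_of_infDist (half_pos hδ) (infDist_ball hδy hb)
  exact (hCb g x y (δ / 2) (A / (δ / 2)) (half_pos hδ)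
    (fun b hb a ha => hD.green.harm b (hyb b hb) a (hxb a ha))
    (fun a ha b hb => harm_snd hD (hxb a ha) b (hyb b hb))
    (fun a ha b hb => hAb (δ / 2) (half_pos hδ) (by linarith) a b (hxb a ha) (hyb b hb)
      (Or.inl (infDist_ball hδx ha)))).1

theorem gg_bound {Λ : Set ℂ} {g : ℂ → ℂ → ℝ} (hD : Dom Λ g) : ∃ C : ℝ, 0 < C ∧
    ∀ δ : ℝ, 0 < δ → δ ≤ 1 → ∀ x y : ℂ, δ ≤ infDist x Λᶜ → δ ≤ infDist y Λᶜ →
      |g x y| ≤ C / δ ∧ ∀ k : ℕ, 1 ≤ k → k ≤ 3 →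
        ‖iteratedFDeriv ℝ k (fun p : ℂ × ℂ => g p.1 p.2) (x, y)‖ ≤ C / δ ^ 4 := by
  obtain ⟨A, hA, hAb⟩ := exists_A hD
  obtain ⟨C, hC, hCb⟩ := biharmonic_bounds
  refine ⟨max A (16 * C * A), lt_max_of_lt_left hA, ?_⟩
  intro δ hδ hδ1 x y hδx hδy
  have hxb : ∀ a ∈ ball x (δ / 2), a ∈ Λ := fun a ha =>
    mem_of_infDist (half_pos hδ) (infDist_ball hδx ha)
  have hyb : ∀ b ∈ ball y (δ / 2), b ∈ Λ := fun b hb =>
    mem_of_infDist (half_pos hδ) (infDist_ball hδy hb)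
  refine ⟨(hAb δ hδ hδ1 x y (mem_of_infDist hδ hδx) (mem_of_infDist hδ hδy) (Or.inl hδx)).trans
    (by gcongr; exact le_max_left _ _), fun k hk1 hk3 => ?_⟩
  have h := (hCb g x y (δ / 2) (A / (δ / 2)) (half_pos hδ)
    (fun b hb a ha => hD.green.harm b (hyb b hb) a (hxb a ha))
    (fun a ha b hb => harm_snd hD (hxb a ha) b (hyb b hb))
    (fun a ha b hb => hAb (δ / 2) (half_pos hδ) (by linarith) a b (hxb a ha) (hyb b hb)
      (Or.inl (infDist_ball hδx ha)))).2 k hk1 hk3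
  refine h.trans ((pow_bound hC hA hδ hδ1 hk3).trans ?_)
  gcongr
  exact le_max_right _ _

theorem g1_bound {Λ : Set ℂ} {g : ℂ → ℂ → ℝ} (hD : Dom Λ g) : ∃ C : ℝ, 0 < C ∧
    ∀ δ : ℝ, 0 < δ → δ ≤ 1 → ∀ x y : ℂ, δ ≤ infDist x Λᶜ → y ∈ Λ →
      |g x y| ≤ C / δ ∧ ContDiffAt ℝ ∞ (fun z => g z y) x ∧ ∀ k : ℕ, 1 ≤ k → k ≤ 3 →
        ‖iteratedFDeriv ℝ k (fun z => g z y) x‖ ≤ C / δ ^ 4 := by
  obtain ⟨A, hA, hAb⟩ := exists_A hD
  obtain ⟨C, hC, hCb⟩ := harmonic_bounds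
  refine ⟨max A (16 * C * A), lt_max_of_lt_left hA, ?_⟩
  intro δ hδ hδ1 x y hδx hy
  have hxb : ∀ a ∈ ball x (δ / 2), a ∈ Λ := fun a ha =>
    mem_of_infDist (half_pos hδ) (infDist_ball hδx ha)
  have h := hCb (fun z => g z y) x (δ / 2) (A / (δ / 2)) (half_pos hδ)
    (fun a ha => hD.green.harm y hy a (hxb a ha))
    (fun a ha => hAb (δ / 2) (half_pos hδ) (by linarith) a y (hxb a ha) hy
      (Or.inl (infDist_ball hδx ha)))
  refine ⟨(hAb δ hδ hδ1 x y (mem_of_infDist hδ hδx) hy (Or.inl hδx)).trans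
    (by gcongr; exact le_max_left _ _), h.1, fun k hk1 hk3 => ?_⟩
  refine (h.2 k hk1 hk3).trans ((pow_bound hC hA hδ hδ1 hk3).trans ?_)
  gcongr
  exact le_max_right _ _

theorem log_bound : ∃ C : ℝ, 0 < C ∧ ∀ z : ℂ, z ≠ 0 →
    ContDiffAt ℝ ∞ (fun w : ℂ => Real.log ‖w‖) z ∧ ∀ k : ℕ, 1 ≤ k → k ≤ 3 →
      ‖iteratedFDeriv ℝ k (fun w : ℂ => Real.log ‖w‖) z‖ ≤ C / ‖z‖ ^ k := by
  obtain ⟨C, hC, hCb⟩ := harmonic_bounds
  refine ⟨8 * C, by positivity, ?_⟩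
  intro z hz
  have hz0 : 0 < ‖z‖ := norm_pos_iff.2 hz
  have hball : ∀ w ∈ ball z (‖z‖ / 2), ‖z‖ / 2 ≤ ‖w‖ ∧ ‖w‖ ≤ 3 / 2 * ‖z‖ := by
    intro w hw
    have h1 : ‖w - z‖ < ‖z‖ / 2 := by simpa [dist_eq_norm] using hw
    have h2 := norm_sub_norm_le z w
    have h3 := norm_sub_norm_le w z
    rw [norm_sub_rev] at h2
    constructor <;> linarith
  have hh : ∀ w : ℂ, w ≠ 0 → InnerProductSpace.HarmonicAt (fun w : ℂ => Real.log ‖w‖) w :=
    fun w hw => AnalyticAt.harmonicAt_log_norm (f := fun w => w) analyticAt_id hw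
  have h := hCb (fun w => Real.log ‖w‖ - Real.log ‖z‖) z (‖z‖ / 2) 1 (half_pos hz0)
    (fun w hw => ?_) (fun w hw => ?_)
  · have hlog : ContDiffAt ℝ ∞ (fun w : ℂ => Real.log ‖w‖) z := by
      have := h.1.add (contDiffAt_const (c := Real.log ‖z‖))
      simpa using this
    refine ⟨hlog, fun k hk1 hk3 => ?_⟩
    have e : iteratedFDeriv ℝ k (fun w : ℂ => Real.log ‖w‖ - Real.log ‖z‖) z =
        iteratedFDeriv ℝ k (fun w : ℂ => Real.log ‖w‖) z := by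
      have h1 := iteratedFDeriv_sub_apply (𝕜 := ℝ) (i := k) (f := fun w : ℂ => Real.log ‖w‖)
        (g := fun _ : ℂ => Real.log ‖z‖) (x := z)
        (hlog.of_le (by exact_mod_cast le_top)) contDiffAt_const
      have h2 : iteratedFDeriv ℝ k (fun _ : ℂ => Real.log ‖z‖) z = 0 := by
        rw [iteratedFDeriv_const_of_ne (by omega)]; rfl
      rw [h2, sub_zero] at h1
      exact h1
    have h3 := h.2 k hk1 hk3
    rw [e] at h3
    refine h3.trans ?_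
    rw [mul_one, div_pow, div_div_eq_mul_div]
    refine div_le_div_of_nonneg_right ?_ (by positivity)
    have : (2 : ℝ) ^ k ≤ 2 ^ 3 := pow_le_pow_right₀ (by norm_num) hk3
    nlinarith
  · have hw0 : w ≠ 0 := by
      have := (hball w hw).1
      exact norm_pos_iff.1 (by linarith)
    exact (hh w hw0).sub (InnerProductSpace.harmonicAt_const _)
  · obtain ⟨h1, h2⟩ := hball w hw
    have hw0 : 0 < ‖w‖ := by linarith
    rw [← Real.log_div hw0.ne' hz0.ne', abs_le]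
    have h3 : 1 / 2 ≤ ‖w‖ / ‖z‖ := by rw [le_div_iff₀ hz0]; linarith
    have h4 : ‖w‖ / ‖z‖ ≤ 3 / 2 := by rw [div_le_iff₀ hz0]; linarith
    have h5 : 0 < ‖w‖ / ‖z‖ := by positivity
    constructor
    · have := Real.one_sub_inv_le_log_of_pos h5
      have h6 : (‖w‖ / ‖z‖)⁻¹ ≤ 2 := by
        rw [inv_le_comm₀ h5 (by norm_num)]; linarith
      linarith
    · have := Real.log_le_sub_one_of_pos h5
      linarith

end Pool.Agent.Lib.MP_fa244c_mp
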