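import Pool.Agent.Lib.MP_fa244c_mp.Pot

set_option autoImplicit false

open MeasureTheory Filter Topology Set Metric

namespace Pool.Agent.Lib.MP_fa244c_mp

theorem gn_integrable {Λ : Set ℂ} {ρ : ℂ → ℝ} (hρ : IsDens Λ ρ) : Integrable ρ := by
  by_contra h
  have := hρ.int
  rw [integral_undef h] at this
  exact zero_ne_one this

theorem gn_ball {Λ : Set ℂ} {g : ℂ → ℂ → ℝ} (hD : Dom Λ g) {ρ : ℂ → ℝ} (hρ : IsDens Λ ρ) :
    ∃ (b₀ : ℂ) (rb : ℝ), 0 < rb ∧ closedBall b₀ (2 * rb) ⊆ Λ ∧
      0 < ∫ y in closedBall b₀ rb, ρ y := by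
  have hi := gn_integrable hρ
  have hfin : IsFiniteMeasure (densM ρ) := isFiniteMeasure_withDensity_ofReal hi.2
  have hset : ∀ s : Set ℂ, MeasurableSet s → ∫ x in s, ρ x = (densM ρ s).toReal := by
    intro s hs
    rw [densM, withDensity_apply _ hs]
    exact integral_eq_lintegral_of_nonneg_ae (Eventually.of_forall hρ.nonneg)
      hρ.meas.aestronglyMeasurable.restrict
  have hne : densM ρ Λ ≠ 0 := by
    intro h0
    have h1 := hset Λ hD.isOpen.measurableSet
    rw [h0, ENNReal.toReal_zero] at h1
    have h2 : ∫ x in Λ, ρ x = ∫ x, ρ x :=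
      setIntegral_eq_integral_of_forall_compl_eq_zero (fun x hx => hρ.supp x hx)
    rw [h2, hρ.int] at h1
    exact one_ne_zero h1
  obtain ⟨x, hxΛ, hx⟩ := exists_mem_forall_mem_nhdsWithin_pos_measure hne
  obtain ⟨R, hR, hball⟩ := Metric.isOpen_iff.mp hD.isOpen x hxΛ
  refine ⟨x, R / 4, by linarith, ?_, ?_⟩
  · exact (closedBall_subset_ball (by linarith)).trans hball
  · have h1 : 0 < densM ρ (closedBall x (R / 4)) :=
      hx _ (mem_nhdsWithin_of_mem_nhds (closedBall_mem_nhds x (by linarith)))
    rw [hset _ measurableSet_closedBall]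
    exact ENNReal.toReal_pos h1.ne' (measure_ne_top _ _)

theorem gn_measGst {g : ℂ → ℂ → ℝ} (hm : Measurable (Function.uncurry g)) :
    Measurable (fun p : ℂ × ℂ => Gst g p.1 p.2) := by
  simp only [Gst_eq]
  have h1 : Measurable (fun p : ℂ × ℂ => g p.1 p.2) := hm
  have h2 : Measurable (fun p : ℂ × ℂ => Real.log ‖p.1 - p.2‖) := by fun_prop
  exact h1.sub h2

theorem gn_expand {g : ℂ → ℂ → ℝ} (r : Fin 4 → ℂ → ℝ)
    (hI : ∀ i j, Integrable (fun p : ℂ × ℂ => Gst g p.1 p.2 * (r i p.1 * r j p.2)))
    (a : Fin 4 → ℝ) :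
    ∫ x, ∫ y, Gst g x y * (∑ i, a i * r i x) * (∑ j, a j * r j y) =
      ∑ i, ∑ j, a i * a j * ∫ p : ℂ × ℂ, Gst g p.1 p.2 * (r i p.1 * r j p.2) := by
  have h1 : ∀ p : ℂ × ℂ, Gst g p.1 p.2 * (∑ i, a i * r i p.1) * (∑ j, a j * r j p.2) =
      ∑ i, ∑ j, a i * a j * (Gst g p.1 p.2 * (r i p.1 * r j p.2)) := by
    intro p
    simp only [Fin.sum_univ_four]
    ring
  have hint : Integrable (fun p : ℂ × ℂ =>
      ∑ i, ∑ j, a i * a j * (Gst g p.1 p.2 * (r i p.1 * r j p.2))) :=
    integrable_finsetSum _ fun i _ => integrable_finsetSum _ fun j _ => (hI i j).const_mul _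
  have h2 : ∫ x, ∫ y, Gst g x y * (∑ i, a i * r i x) * (∑ j, a j * r j y) =
      ∫ p : ℂ × ℂ, ∑ i, ∑ j, a i * a j * (Gst g p.1 p.2 * (r i p.1 * r j p.2)) := by
    rw [Measure.volume_eq_prod, integral_prod _ hint]
    apply integral_congr_ae
    filter_upwards with x
    apply integral_congr_ae
    filter_upwards with y
    exact h1 (x, y)
  rw [h2, integral_finsetSum _ fun i _ => integrable_finsetSum _ fun j _ => (hI i j).const_mul _]
  apply Finset.sum_congr rfl
  intro i _
  rw [integral_finsetSum _ fun j _ => (hI i j).const_mul _]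
  apply Finset.sum_congr rfl
  intro j _
  rw [integral_const_mul]

theorem gn_iter {g : ℂ → ℂ → ℝ} {r s : ℂ → ℝ}
    (hI : Integrable (fun p : ℂ × ℂ => Gst g p.1 p.2 * (r p.1 * s p.2))) :
    ∫ p : ℂ × ℂ, Gst g p.1 p.2 * (r p.1 * s p.2) = ∫ x, r x * ∫ y, Gst g x y * s y := by
  rw [Measure.volume_eq_prod, integral_prod _ hI]
  apply integral_congr_ae
  filter_upwards with x
  rw [← integral_const_mul]
  apply integral_congr_ae
  filter_upwards with y
  ring

theorem gn_symm {Λ : Set ℂ} {g : ℂ → ℂ → ℝ} (hD : Dom Λ g) {r s : ℂ → ℝ}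
    (hr : ∀ x, x ∉ Λ → r x = 0) (hs : ∀ x, x ∉ Λ → s x = 0) :
    ∫ p : ℂ × ℂ, Gst g p.1 p.2 * (r p.1 * s p.2) =
      ∫ p : ℂ × ℂ, Gst g p.1 p.2 * (s p.1 * r p.2) := by
  rw [Measure.volume_eq_prod, ← integral_prod_swap]
  apply integral_congr_ae
  filter_upwards with p
  simp only [Prod.fst_swap, Prod.snd_swap]
  by_cases h1 : p.1 ∈ Λ
  · by_cases h2 : p.2 ∈ Λ
    · rw [Gst_eq, Gst_eq, g_symm hD h2 h1, norm_sub_rev]
      ring
    · rw [hr _ h2]
      ring
  · rw [hs _ h1]
    ring

theorem gn_mulog_ge {r : ℝ} (hr : 0 ≤ r) : -1 ≤ r * Real.log r := by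
  rcases eq_or_lt_of_le hr with h | h
  · rw [← h]; simp
  · have h1 := Real.one_sub_inv_le_log_of_pos h
    have h2 : r * (1 - r⁻¹) ≤ r * Real.log r := mul_le_mul_of_nonneg_left h1 hr
    have h3 : r * (1 - r⁻¹) = r - 1 := by field_simp
    linarith

theorem gn_mix {Λ : Set ℂ} {g : ℂ → ℂ → ℝ} (hD : Dom Λ g) {ρ q : ℂ → ℝ} (hρ : IsDens Λ ρ)
    (hq : IsDens Λ q) {θ : ℝ} (h0 : 0 ≤ θ) (h1 : θ ≤ 1) :
    IsDens Λ (fun x => (1 - θ) * ρ x + θ * q x) ∧
      (1 - θ) * entS Λ ρ + θ * entS Λ q ≤ entS Λ (fun x => (1 - θ) * ρ x + θ * q x) := by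
  have hc : ∀ x, ((1 - θ) * ρ x + θ * q x) * Real.log ((1 - θ) * ρ x + θ * q x) ≤
      (1 - θ) * (ρ x * Real.log (ρ x)) + θ * (q x * Real.log (q x)) := by
    intro x
    have := Real.convexOn_mul_log.2 (show ρ x ∈ Ici (0 : ℝ) from hρ.nonneg x)
      (show q x ∈ Ici (0 : ℝ) from hq.nonneg x) (show 0 ≤ 1 - θ by linarith) h0 (by ring)
    simpa [smul_eq_mul] using this
  have hnn : ∀ x, 0 ≤ (1 - θ) * ρ x + θ * q x := fun x =>
    add_nonneg (mul_nonneg (by linarith) (hρ.nonneg x)) (mul_nonneg h0 (hq.nonneg x))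
  have hsupp : ∀ x, x ∉ Λ → (1 - θ) * ρ x + θ * q x = 0 := by
    intro x hx
    rw [hρ.supp x hx, hq.supp x hx]
    ring
  have hmeas : Measurable (fun x => (1 - θ) * ρ x + θ * q x) :=
    (hρ.meas.const_mul _).add (hq.meas.const_mul _)
  have hΛfin : volume Λ ≠ ⊤ := hD.bdd.measure_lt_top.ne
  have hent : Integrable (fun x => ((1 - θ) * ρ x + θ * q x) *
      Real.log ((1 - θ) * ρ x + θ * q x)) := by
    have hdom : Integrable (fun x => |ρ x * Real.log (ρ x)| + |q x * Real.log (q x)| +
        Λ.indicator (fun _ => (1 : ℝ)) x) := by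
      apply Integrable.add (hρ.ent.abs.add hq.ent.abs)
      exact (integrable_indicator_iff hD.isOpen.measurableSet).mpr
        (integrableOn_const hΛfin (by simp))
    apply Integrable.mono' hdom
    · exact (hmeas.mul (Real.measurable_log.comp hmeas)).aestronglyMeasurable
    · filter_upwards with x
      rw [Real.norm_eq_abs]
      by_cases hx : x ∈ Λ
      · rw [indicator_of_mem hx, abs_le]
        have e1 := abs_nonneg (ρ x * Real.log (ρ x))
        have e2 := abs_nonneg (q x * Real.log (q x))
        have e3 := le_abs_self (ρ x * Real.log (ρ x))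
        have e4 := le_abs_self (q x * Real.log (q x))
        constructor
        · have := gn_mulog_ge (hnn x)
          linarith
        · refine (hc x).trans ?_
          have e5 : (1 - θ) * (ρ x * Real.log (ρ x)) ≤ |ρ x * Real.log (ρ x)| := by
            calc (1 - θ) * (ρ x * Real.log (ρ x)) ≤ (1 - θ) * |ρ x * Real.log (ρ x)| :=
                  mul_le_mul_of_nonneg_left e3 (by linarith)
              _ ≤ 1 * |ρ x * Real.log (ρ x)| := mul_le_mul_of_nonneg_right (by linarith) e1
              _ = _ := one_mul _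
          have e6 : θ * (q x * Real.log (q x)) ≤ |q x * Real.log (q x)| := by
            calc θ * (q x * Real.log (q x)) ≤ θ * |q x * Real.log (q x)| :=
                  mul_le_mul_of_nonneg_left e4 (by linarith)
              _ ≤ 1 * |q x * Real.log (q x)| := mul_le_mul_of_nonneg_right (by linarith) e2
              _ = _ := one_mul _
          linarith
      · rw [hsupp x hx, zero_mul, abs_zero]
        rw [indicator_of_notMem hx]
        positivity
  refine ⟨⟨hmeas, hnn, hsupp, ?_, hent⟩, ?_⟩
  · rw [integral_add ((gn_integrable hρ).const_mul _) ((gn_integrable hq).const_mul _),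
      integral_const_mul, integral_const_mul, hρ.int, hq.int]
    ring
  · have hle : ∫ x, ((1 - θ) * ρ x + θ * q x) * Real.log ((1 - θ) * ρ x + θ * q x) ≤
        (1 - θ) * (∫ x, ρ x * Real.log (ρ x)) + θ * ∫ x, q x * Real.log (q x) := by
      rw [← integral_const_mul, ← integral_const_mul,
        ← integral_add (hρ.ent.const_mul _) (hq.ent.const_mul _)]
      exact integral_mono hent ((hρ.ent.const_mul _).add (hq.ent.const_mul _)) hc
    unfold entS
    nlinarith [hle]

/-- Restriction of a density to a small piece of a ball, and replacement of the mass in the ball. -/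
theorem gn_repl {Λ : Set ℂ} {g : ℂ → ℂ → ℝ} (hD : Dom Λ g) {ρ : ℂ → ℝ} (hρ : IsDens Λ ρ)
    {b S : Set ℂ} (hb : MeasurableSet b) (hbΛ : b ⊆ Λ) (hSm : MeasurableSet S) (hS : S ⊆ b)
    (hS0 : 0 < volume S) :
    IsDens Λ (fun x => ρ x - b.indicator ρ x +
      (∫ y in b, ρ y) * S.indicator (fun _ => (volume.real S)⁻¹) x) := by
  have hSfin : volume S ≠ ⊤ := (hD.bdd.subset (hS.trans hbΛ)).measure_lt_top.ne
  have hVpos : 0 < volume.real S := ENNReal.toReal_pos hS0.ne' hSfin
  have hm0 : 0 ≤ ∫ y in b, ρ y := setIntegral_nonneg hb fun x _ => hρ.nonneg x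
  have hbm : Measurable (b.indicator ρ) := hρ.meas.indicator hb
  have hνm : Measurable (S.indicator (fun _ : ℂ => (volume.real S)⁻¹)) :=
    measurable_const.indicator hSm
  have hνi : Integrable (S.indicator (fun _ : ℂ => (volume.real S)⁻¹)) :=
    (integrable_indicator_iff hSm).mpr (integrableOn_const hSfin (by simp))
  have hνint : ∫ x, S.indicator (fun _ : ℂ => (volume.real S)⁻¹) x = 1 := by
    rw [integral_indicator hSm, setIntegral_const, smul_eq_mul, mul_inv_cancel₀ hVpos.ne']
  refine ⟨(hρ.meas.sub hbm).add (hνm.const_mul _), ?_, ?_, ?_, ?_⟩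
  · intro x
    have h1 : b.indicator ρ x ≤ ρ x := indicator_le_self' (fun _ _ => hρ.nonneg x) x
    have h2 : 0 ≤ S.indicator (fun _ : ℂ => (volume.real S)⁻¹) x :=
      indicator_nonneg (fun _ _ => by positivity) x
    have := mul_nonneg hm0 h2
    linarith
  · intro x hx
    rw [hρ.supp x hx, indicator_of_notMem (fun h => hx (hbΛ h)),
      indicator_of_notMem (fun h => hx (hbΛ (hS h)))]
    ring
  · rw [integral_add (f := fun x => ρ x - b.indicator ρ x)
        ((gn_integrable hρ).sub ((gn_integrable hρ).indicator hb)) (hνi.const_mul _),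
      integral_sub (gn_integrable hρ) ((gn_integrable hρ).indicator hb),
      integral_const_mul, hνint, integral_indicator hb, hρ.int]
    ring
  · set c1 : ℝ := ((∫ y in b, ρ y) * (volume.real S)⁻¹) *
      Real.log ((∫ y in b, ρ y) * (volume.real S)⁻¹) with hc1
    have heq : ∀ x, (ρ x - b.indicator ρ x +
        (∫ y in b, ρ y) * S.indicator (fun _ => (volume.real S)⁻¹) x) *
        Real.log (ρ x - b.indicator ρ x +
        (∫ y in b, ρ y) * S.indicator (fun _ => (volume.real S)⁻¹) x) =
        (bᶜ).indicator (fun x => ρ x * Real.log (ρ x)) x + S.indicator (fun _ => c1) x := by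
      intro x
      by_cases hxb : x ∈ b
      · rw [indicator_of_mem hxb, indicator_of_notMem (fun h : x ∈ bᶜ => h hxb)]
        by_cases hxS : x ∈ S
        · rw [indicator_of_mem hxS, indicator_of_mem hxS, sub_self, zero_add, zero_add]
        · rw [indicator_of_notMem hxS, indicator_of_notMem hxS]
          simp
      · have hxS : x ∉ S := fun h => hxb (hS h)
        rw [indicator_of_notMem hxb, indicator_of_mem (show x ∈ bᶜ from hxb),
          indicator_of_notMem hxS, indicator_of_notMem hxS]
        simp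
    simp only [heq]
    apply Integrable.add
    · exact hρ.ent.indicator hb.compl
    · exact (integrable_indicator_iff hSm).mpr (integrableOn_const hSfin (by simp))

/-- Moving a little mass of the positive species into a small ball raises the energy at a small
cost in entropy. -/
theorem gain {Λ : Set ℂ} {g : ℂ → ℂ → ℝ} (hD : Dom Λ g) (hm : Measurable (Function.uncurry g))
    {ρp ρm : ℂ → ℝ} (hρp : IsDens Λ ρp) (hρm : IsDens Λ ρm) {δ : ℝ} (hδ : 0 < δ) :
    ∃ (b₀ : ℂ) (rb θ : ℝ) (ν : ℂ → ℝ), closedBall b₀ rb ⊆ Λ ∧ 0 < rb ∧ 0 < θ ∧ θ ≤ 1 ∧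
      Nice (closedBall b₀ rb) ν ∧
      IsDens Λ (fun x => ρp x - θ * (closedBall b₀ rb).indicator ρp x +
        θ * (∫ y in closedBall b₀ rb, ρp y) * ν x) ∧
      enE g ρp ρm < enE g (fun x => ρp x - θ * (closedBall b₀ rb).indicator ρp x +
        θ * (∫ y in closedBall b₀ rb, ρp y) * ν x) ρm ∧
      entS Λ ρp - δ ≤ entS Λ (fun x => ρp x - θ * (closedBall b₀ rb).indicator ρp x +
        θ * (∫ y in closedBall b₀ rb, ρp y) * ν x) := by
  obtain ⟨b₀, rb, hrb, hb2, hmass⟩ := gn_ball hD hρp
  set b : Set ℂ := closedBall b₀ rb with hbdef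
  have hbm : MeasurableSet b := measurableSet_closedBall
  have hbΛ : b ⊆ Λ := (closedBall_subset_closedBall (by linarith)).trans hb2
  set m : ℝ := ∫ y in b, ρp y with hmdef
  obtain ⟨Cp, hCp, hCpb⟩ := pot_bdd hD hm hρp
  obtain ⟨Cm, hCm, hCmb⟩ := pot_bdd hD hm hρm
  have hGm := gn_measGst hm
  have hip := gn_integrable hρp
  have him := gn_integrable hρm
  have hdist : ∀ y ∈ b, rb ≤ infDist y Λᶜ := by
    intro y hy
    rw [le_infDist (compl_ne hD)]
    intro z hz
    by_contra hlt
    push Not at hlt
    apply hz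
    apply hb2
    rw [mem_closedBall] at hy ⊢
    have := dist_triangle z y b₀
    rw [dist_comm z y] at this
    linarith
  -- the potential
  set ψ : ℂ → ℝ := fun x => ∫ y, Gst g x y * (ρp y - ρm y) with hψ
  have hψm : Measurable ψ := by
    have h1 : StronglyMeasurable (Function.uncurry fun x y : ℂ => Gst g x y * (ρp y - ρm y)) := by
      apply Measurable.stronglyMeasurable
      have h2 : Measurable (fun p : ℂ × ℂ => ρp p.2 - ρm p.2) :=
        (hρp.meas.comp measurable_snd).sub (hρm.meas.comp measurable_snd)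
      exact hGm.mul h2
    exact (h1.integral_prod_right (ν := volume)).measurable
  have hψb : ∀ x ∈ Λ, |ψ x| ≤ Cp + Cm := by
    intro x hx
    have h1 := (hCpb x hx).1
    have h2 := (hCmb x hx).1
    have h3 : ψ x = (∫ y, Gst g x y * ρp y) - ∫ y, Gst g x y * ρm y := by
      rw [← integral_sub h1 h2]
      apply integral_congr_ae
      filter_upwards with y
      ring
    have h4 : |∫ y, Gst g x y * ρp y| ≤ Cp := by
      refine (abs_integral_le_integral_abs).trans (le_trans (le_of_eq ?_) (hCpb x hx).2)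
      apply integral_congr_ae
      filter_upwards with y
      rw [abs_mul, abs_of_nonneg (hρp.nonneg y)]
    have h5 : |∫ y, Gst g x y * ρm y| ≤ Cm := by
      refine (abs_integral_le_integral_abs).trans (le_trans (le_of_eq ?_) (hCmb x hx).2)
      apply integral_congr_ae
      filter_upwards with y
      rw [abs_mul, abs_of_nonneg (hρm.nonneg y)]
    rw [h3]
    exact (abs_sub _ _).trans (add_le_add h4 h5)
  have hρψ : IntegrableOn (fun x => ρp x * ψ x) b := by
    apply Integrable.mono' (g := fun x => (Cp + Cm) * ρp x) ((hip.const_mul _).integrableOn)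
    · exact (hρp.meas.mul hψm).aestronglyMeasurable
    · rw [ae_restrict_iff' hbm]
      filter_upwards with x hx
      rw [Real.norm_eq_abs, abs_mul, abs_of_nonneg (hρp.nonneg x), mul_comm]
      exact mul_le_mul_of_nonneg_right (hψb x (hbΛ hx)) (hρp.nonneg x)
  set av : ℝ := (∫ x in b, ρp x * ψ x) / m with hav
  set A : Set ℂ := {x | x ∈ b ∧ av ≤ ψ x} with hA
  have hAm : MeasurableSet A := hbm.inter (measurableSet_le measurable_const hψm)
  have hA0 : volume A ≠ 0 := by
    intro h0
    have h1 : ∀ᵐ x ∂(volume.restrict b), ψ x < av := by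
      rw [ae_restrict_iff' hbm]
      have : ∀ᵐ x ∂(volume : Measure ℂ), x ∉ A := measure_eq_zero_iff_ae_notMem.mp h0
      filter_upwards [this] with x hx hxb
      by_contra h
      push Not at h
      exact hx ⟨hxb, h⟩
    have h2 : ∫ x in b, ρp x * (av - ψ x) = 0 := by
      have e : ∀ x, ρp x * (av - ψ x) = av * ρp x - ρp x * ψ x := fun x => by ring
      simp only [e]
      rw [integral_sub (hip.integrableOn.const_mul _) hρψ, integral_const_mul]
      show av * m - _ = 0
      rw [hav, div_mul_cancel₀ _ hmass.ne', sub_self]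
    have h3 : 0 ≤ᵐ[volume.restrict b] fun x => ρp x * (av - ψ x) := by
      filter_upwards [h1] with x hx
      exact mul_nonneg (hρp.nonneg x) (by linarith)
    have h4 : IntegrableOn (fun x => ρp x * (av - ψ x)) b := by
      have e : (fun x => ρp x * (av - ψ x)) = fun x => av * ρp x - ρp x * ψ x := by
        funext x
        ring
      rw [e]
      exact (hip.integrableOn.const_mul _).sub hρψ
    rw [setIntegral_eq_zero_iff_of_nonneg_ae h3 h4] at h2
    have h5 : ∫ x in b, ρp x = 0 := by
      have : ρp =ᵐ[volume.restrict b] 0 := by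
        filter_upwards [h1, h2] with x hx1 hx2
        simp only [Pi.zero_apply] at hx2 ⊢
        rcases mul_eq_zero.mp hx2 with h | h
        · exact h
        · linarith
      rw [integral_congr_ae this]
      simp
    rw [← hmdef] at h5
    linarith
  obtain ⟨x₁, hx₁A, hx₁⟩ := exists_mem_forall_mem_nhdsWithin_pos_measure hA0
  set r' : ℝ := rb * Real.exp (-(2 * Cp / m) - 1) / 2 with hr'
  have hr'pos : 0 < r' := by positivity
  set S : Set ℂ := A ∩ closedBall x₁ r' with hS
  have hSm : MeasurableSet S := hAm.inter measurableSet_closedBall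
  have hSb : S ⊆ b := fun x hx => hx.1.1
  have hS0 : 0 < volume S := by
    apply hx₁
    exact inter_mem self_mem_nhdsWithin
      (mem_nhdsWithin_of_mem_nhds (closedBall_mem_nhds x₁ hr'pos))
  have hSfin : volume S ≠ ⊤ := (hD.bdd.subset (hSb.trans hbΛ)).measure_lt_top.ne
  have hVpos : 0 < volume.real S := ENNReal.toReal_pos hS0.ne' hSfin
  set ν : ℂ → ℝ := S.indicator (fun _ => (volume.real S)⁻¹) with hν
  have hνm : Measurable ν := measurable_const.indicator hSm
  have hνnn : ∀ x, 0 ≤ ν x := fun x => indicator_nonneg (fun _ _ => by positivity) x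
  have hν0 : ∀ x, x ∉ S → ν x = 0 := fun x hx => indicator_of_notMem hx _
  have hνi : Integrable ν := (integrable_indicator_iff hSm).mpr (integrableOn_const hSfin (by simp))
  have hνint : ∫ x, ν x = 1 := by
    rw [integral_indicator hSm, setIntegral_const, smul_eq_mul, mul_inv_cancel₀ hVpos.ne']
  have hνnice : Nice b ν := by
    refine ⟨hνm, hνnn, fun x hx => hν0 x (fun h => hx (hSb h)), hνint, (volume.real S)⁻¹, ?_⟩
    intro x
    exact indicator_le_self' (f := fun _ : ℂ => (volume.real S)⁻¹)
      (fun _ _ => by positivity) x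
  have hνd : IsDens Λ ν := Nice.isDens hD hbΛ hνnice
  have hqd : IsDens Λ (fun x => ρp x - b.indicator ρp x + m * ν x) :=
    gn_repl hD hρp hbm hbΛ hSm hSb hS0
  set q : ℂ → ℝ := fun x => ρp x - b.indicator ρp x + m * ν x with hq
  set θ : ℝ := min 1 (δ / (|entS Λ ρp - entS Λ q| + 1)) with hθ
  have hθpos : 0 < θ := lt_min one_pos (by positivity)
  have hθ1 : θ ≤ 1 := min_le_left _ _
  obtain ⟨hmixd, hmixe⟩ := gn_mix hD hρp hqd hθpos.le hθ1
  have hfun : (fun x => (1 - θ) * ρp x + θ * q x) =
      fun x => ρp x - θ * b.indicator ρp x + θ * m * ν x := by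
    funext x
    simp only [hq]
    ring
  rw [hfun] at hmixd hmixe
  refine ⟨b₀, rb, θ, ν, hbΛ, hrb, hθpos, hθ1, hνnice, hmixd, ?_, ?_⟩
  · -- energy
    set ρb : ℂ → ℝ := b.indicator ρp with hρb
    have hρbm : Measurable ρb := hρp.meas.indicator hbm
    have hρbnn : ∀ x, 0 ≤ ρb x := fun x => indicator_nonneg (fun _ _ => hρp.nonneg _) x
    have hρble : ∀ x, ρb x ≤ ρp x := fun x => indicator_le_self' (fun _ _ => hρp.nonneg x) x
    have hρb0 : ∀ x, x ∉ Λ → ρb x = 0 := fun x hx =>
      indicator_of_notMem (fun h => hx (hbΛ h)) _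
    set r : Fin 4 → ℂ → ℝ := ![ρp, ρm, ν, ρb] with hr
    set R : Fin 4 → ℂ → ℝ := ![ρp, ρm, ν, ρp] with hR
    have hRd : ∀ i, IsDens Λ (R i) := by
      intro i
      fin_cases i
      · exact hρp
      · exact hρm
      · exact hνd
      · exact hρp
    have hrm : ∀ i, Measurable (r i) := by
      intro i
      fin_cases i
      · exact hρp.meas
      · exact hρm.meas
      · exact hνm
      · exact hρbm
    have hrnn : ∀ i x, 0 ≤ r i x := by
      intro i x
      fin_cases i
      · exact hρp.nonneg x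
      · exact hρm.nonneg x
      · exact hνnn x
      · exact hρbnn x
    have hrR : ∀ i x, r i x ≤ R i x := by
      intro i x
      fin_cases i
      · exact le_refl _
      · exact le_refl _
      · exact le_refl _
      · exact hρble x
    have hr0 : ∀ i x, x ∉ Λ → r i x = 0 := by
      intro i x hx
      have h1 := hrR i x
      rw [(hRd i).supp x hx] at h1
      exact le_antisymm h1 (hrnn i x)
    have hI : ∀ i j, Integrable (fun p : ℂ × ℂ => Gst g p.1 p.2 * (r i p.1 * r j p.2)) := by
      intro i j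
      apply Integrable.mono (pot_integrable hD hm (hRd i) (hRd j))
      · exact (hGm.mul (((hrm i).comp measurable_fst).mul
          ((hrm j).comp measurable_snd))).aestronglyMeasurable
      · filter_upwards with p
        rw [norm_mul (Gst g p.1 p.2), norm_mul (Gst g p.1 p.2)]
        apply mul_le_mul_of_nonneg_left _ (norm_nonneg _)
        rw [Real.norm_eq_abs, Real.norm_eq_abs,
          abs_of_nonneg (mul_nonneg (hrnn i _) (hrnn j _)),
          abs_of_nonneg (mul_nonneg ((hRd i).nonneg _) ((hRd j).nonneg _))]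
        exact mul_le_mul (hrR i _) (hrR j _) (hrnn j _) ((hRd i).nonneg _)
    set B : Fin 4 → Fin 4 → ℝ := fun i j =>
      ∫ p : ℂ × ℂ, Gst g p.1 p.2 * (r i p.1 * r j p.2) with hB
    have hsymm : ∀ i j, B i j = B j i := fun i j => gn_symm hD (hr0 i) (hr0 j)
    have hexp : ∀ a : Fin 4 → ℝ, ∫ x, ∫ y, Gst g x y * (∑ i, a i * r i x) *
        (∑ j, a j * r j y) = ∑ i, ∑ j, a i * a j * B i j := fun a => gn_expand r hI a
    have hE0 : enE g ρp ρm = 1 / 2 * (B 0 0 - B 0 1 - B 1 0 + B 1 1) := by
      have h1 := hexp ![1, -1, 0, 0]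
      simp only [Fin.sum_univ_four, Matrix.cons_val_zero, Matrix.cons_val_one, Matrix.cons_val,
        hr] at h1
      unfold enE
      have h2 : ∀ x y, Gst g x y * (ρp x - ρm x) * (ρp y - ρm y) =
          Gst g x y * (1 * ρp x + -1 * ρm x + 0 * ν x + 0 * ρb x) *
            (1 * ρp y + -1 * ρm y + 0 * ν y + 0 * ρb y) := by
        intro x y
        ring
      simp only [h2]
      rw [h1]
      ring
    have hE1 : enE g (fun x => ρp x - θ * ρb x + θ * m * ν x) ρm =
        1 / 2 * (B 0 0 - B 0 1 + θ * m * B 0 2 - θ * B 0 3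
          - B 1 0 + B 1 1 - θ * m * B 1 2 + θ * B 1 3
          + θ * m * B 2 0 - θ * m * B 2 1 + θ * m * (θ * m) * B 2 2 - θ * m * θ * B 2 3
          - θ * B 3 0 + θ * B 3 1 - θ * (θ * m) * B 3 2 + θ * θ * B 3 3) := by
      have h1 := hexp ![1, -1, θ * m, -θ]
      simp only [Fin.sum_univ_four, Matrix.cons_val_zero, Matrix.cons_val_one, Matrix.cons_val,
        hr] at h1
      unfold enE
      have h2 : ∀ x y, Gst g x y * (ρp x - θ * ρb x + θ * m * ν x - ρm x) *
          (ρp y - θ * ρb y + θ * m * ν y - ρm y) =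
          Gst g x y * (1 * ρp x + -1 * ρm x + θ * m * ν x + -θ * ρb x) *
            (1 * ρp y + -1 * ρm y + θ * m * ν y + -θ * ρb y) := by
        intro x y
        ring
      simp only [h2]
      rw [h1]
      ring
    have hiter : ∀ i j, B i j = ∫ x, r i x * ∫ y, Gst g x y * r j y := fun i j => gn_iter (hI i j)
    have hIit : ∀ i j, Integrable (fun x => r i x * ∫ y, Gst g x y * r j y) := by
      intro i j
      have := (hI i j).integral_prod_left
      apply this.congr
      filter_upwards with x
      rw [← integral_const_mul]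
      apply integral_congr_ae
      filter_upwards with y
      ring
    have hneq : ∀ x : ℂ, ∀ᵐ y ∂(volume : Measure ℂ), y ≠ x := by
      intro x
      exact compl_mem_ae_iff.mpr (measure_singleton x)
    -- first order
    have hψeq : ∀ x ∈ Λ, ψ x = (∫ y, Gst g x y * ρp y) - ∫ y, Gst g x y * ρm y := by
      intro x hx
      rw [← integral_sub (hCpb x hx).1 (hCmb x hx).1]
      apply integral_congr_ae
      filter_upwards with y
      ring
    have hfo : ∀ i, B i 0 - B i 1 = ∫ x, r i x * ψ x := by
      intro i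
      rw [hiter i 0, hiter i 1, ← integral_sub]
      · apply integral_congr_ae
        filter_upwards with x
        by_cases hx : x ∈ Λ
        · rw [hψeq x hx]
          simp only [hr, Matrix.cons_val_zero, Matrix.cons_val_one]
          ring
        · rw [hr0 i x hx]
          ring
      · exact hIit i 0
      · exact hIit i 1
    have h2' : av ≤ B 2 0 - B 2 1 := by
      rw [hfo 2]
      have e1 : av = ∫ x, ν x * av := by
        rw [integral_mul_const, hνint, one_mul]
      rw [e1]
      apply integral_mono (hνi.mul_const _)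
      · apply Integrable.mono' (g := fun x => (Cp + Cm) * ν x) (hνi.const_mul _)
        · exact (hνm.mul hψm).aestronglyMeasurable
        · filter_upwards with x
          show ‖ν x * ψ x‖ ≤ (Cp + Cm) * ν x
          rw [Real.norm_eq_abs, abs_mul, abs_of_nonneg (hνnn x), mul_comm]
          by_cases hx : x ∈ S
          · exact mul_le_mul_of_nonneg_right (hψb x (hbΛ (hSb hx))) (hνnn x)
          · rw [hν0 x hx]
            simp
      · intro x
        by_cases hx : x ∈ S
        · exact mul_le_mul_of_nonneg_left hx.1.2 (hνnn x)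
        · have : ν x * av ≤ ν x * ψ x := by
            rw [hν0 x hx]
            simp
          exact this
    have h3' : B 3 0 - B 3 1 = m * av := by
      have e1 : ∫ x, r 3 x * ψ x = ∫ x in b, ρp x * ψ x := by
        rw [← integral_indicator hbm]
        apply integral_congr_ae
        filter_upwards with x
        show ρb x * ψ x = _
        by_cases hx : x ∈ b
        · rw [hρb, indicator_of_mem hx, indicator_of_mem hx]
        · rw [hρb, indicator_of_notMem hx, indicator_of_notMem hx, zero_mul]
      rw [hfo 3, e1, hav]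
      field_simp
    -- second order
    have hκ : 2 * Cp / m + 1 ≤ B 2 2 := by
      rw [hiter 2 2]
      have e1 : 2 * Cp / m + 1 = ∫ x, ν x * (2 * Cp / m + 1) := by
        rw [integral_mul_const, hνint, one_mul]
      have hlogr : Real.log (2 * r') = Real.log rb + (-(2 * Cp / m) - 1) := by
        have : 2 * r' = rb * Real.exp (-(2 * Cp / m) - 1) := by
          rw [hr']
          ring
        rw [this, Real.log_mul hrb.ne' (Real.exp_pos _).ne', Real.log_exp]
      obtain ⟨Cν, -, hCν⟩ := pot_bdd hD hm hνd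
      have hinner : ∀ x ∈ S, 2 * Cp / m + 1 ≤ ∫ y, Gst g x y * ν y := by
        intro x hx
        have e2 : 2 * Cp / m + 1 = ∫ y, (2 * Cp / m + 1) * ν y := by
          rw [integral_const_mul, hνint, mul_one]
        rw [e2]
        apply integral_mono_ae (hνi.const_mul _) (hCν x (hbΛ (hSb hx))).1
        filter_upwards [hneq x] with y hyx
        by_cases hy : y ∈ S
        · apply mul_le_mul_of_nonneg_right _ (hνnn y)
          rw [Gst_eq]
          have h1 : Real.log rb ≤ g x y :=
            (Real.log_le_log hrb (hdist y (hSb hy))).trans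
              (log_infDist_le hD (hbΛ (hSb hx)) (hbΛ (hSb hy)))
          have h2 : Real.log ‖x - y‖ ≤ Real.log (2 * r') := by
            apply Real.log_le_log (norm_pos_iff.mpr (sub_ne_zero.mpr hyx.symm))
            have h3 := hx.2
            have h4 := hy.2
            rw [mem_closedBall] at h3 h4
            rw [← dist_eq_norm]
            have := dist_triangle_right x y x₁
            linarith
          linarith
        · rw [hν0 y hy]
          simp
      rw [e1]
      apply integral_mono (hνi.mul_const _) (hIit 2 2)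
      intro x
      show ν x * (2 * Cp / m + 1) ≤ ν x * ∫ y, Gst g x y * ν y
      by_cases hx : x ∈ S
      · exact mul_le_mul_of_nonneg_left (hinner x hx) (hνnn x)
      · rw [hν0 x hx]
        simp
    have hB23 : B 2 3 ≤ Cp := by
      rw [hiter 2 3]
      have e1 : Cp = ∫ x, ν x * Cp := by
        rw [integral_mul_const, hνint, one_mul]
      rw [e1]
      apply integral_mono (hIit 2 3) (hνi.mul_const _)
      intro x
      show ν x * (∫ y, Gst g x y * ρb y) ≤ ν x * Cp
      by_cases hx : x ∈ S
      · apply mul_le_mul_of_nonneg_left _ (hνnn x)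
        obtain ⟨h1, h2⟩ := hCpb x (hbΛ (hSb hx))
        refine le_trans ?_ h2
        have habs : Integrable (fun y => |Gst g x y| * ρp y) := by
          apply h1.abs.congr
          filter_upwards with y
          rw [abs_mul, abs_of_nonneg (hρp.nonneg y)]
        apply integral_mono _ habs
        · intro y
          show Gst g x y * ρb y ≤ |Gst g x y| * ρp y
          exact (mul_le_mul_of_nonneg_right (le_abs_self _) (hρbnn y)).trans
            (mul_le_mul_of_nonneg_left (hρble y) (abs_nonneg _))
        · apply (h1.indicator hbm).congr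
          filter_upwards with y
          by_cases hy : y ∈ b
          · rw [hρb, indicator_of_mem hy, indicator_of_mem hy]
          · rw [hρb, indicator_of_notMem hy, indicator_of_notMem hy, mul_zero]
      · rw [hν0 x hx]
        simp
    have hB33 : 0 ≤ B 3 3 := by
      rw [hiter 3 3]
      apply integral_nonneg
      intro x
      show 0 ≤ ρb x * ∫ y, Gst g x y * ρb y
      by_cases hx : x ∈ Λ
      · apply mul_nonneg (hρbnn x)
        apply integral_nonneg_of_ae
        filter_upwards [hneq x] with y hyx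
        by_cases hy : y ∈ Λ
        · exact mul_nonneg (Gst_nonneg hD hx hy hyx.symm) (hρbnn y)
        · rw [hρb0 y hy]
          simp
      · rw [hρb0 x hx]
        simp
    rw [hE0, hE1]
    have s1 := hsymm 0 2
    have s2 := hsymm 0 3
    have s3 := hsymm 1 2
    have s4 := hsymm 1 3
    have s5 := hsymm 3 2
    have hfirst : 0 ≤ m * (B 2 0 - B 2 1) - (B 3 0 - B 3 1) := by
      rw [h3']
      nlinarith
    have hsecond : 0 < m * m * B 2 2 - 2 * m * B 2 3 + B 3 3 := by
      have e1 : m * m * (2 * Cp / m + 1) ≤ m * m * B 2 2 :=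
        mul_le_mul_of_nonneg_left hκ (by positivity)
      have e2 : m * m * (2 * Cp / m + 1) = 2 * m * Cp + m * m := by
        field_simp
      have e3 : 2 * m * B 2 3 ≤ 2 * m * Cp := mul_le_mul_of_nonneg_left hB23 (by positivity)
      have e4 : 0 < m * m := by positivity
      linarith
    have hf2 := mul_nonneg hθpos.le hfirst
    have hs2 := mul_pos (mul_pos hθpos hθpos) hsecond
    rw [s1, s2, s3, s4, s5]
    nlinarith [hf2, hs2]
  · -- entropy
    have h1 : θ * (entS Λ ρp - entS Λ q) ≤ δ := by
      have e1 : θ * (entS Λ ρp - entS Λ q) ≤ θ * (|entS Λ ρp - entS Λ q| + 1) := by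
        apply mul_le_mul_of_nonneg_left _ hθpos.le
        have := le_abs_self (entS Λ ρp - entS Λ q)
        linarith
      have e2 : θ * (|entS Λ ρp - entS Λ q| + 1) ≤
          δ / (|entS Λ ρp - entS Λ q| + 1) * (|entS Λ ρp - entS Λ q| + 1) :=
        mul_le_mul_of_nonneg_right (min_le_right _ _) (by positivity)
      rw [div_mul_cancel₀ _ (by positivity)] at e2
      linarith
    linarith [hmixe]

end Pool.Agent.Lib.MP_fa244c_mp
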