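import Pool.Agent.Lib.MP_fa244c_mp.Symm
import Pool.Agent.Lib.MP_fa244c_mp.Disk

set_option autoImplicit false

open MeasureTheory Filter Topology Set

namespace Pool.Agent.Lib.MP_fa244c_mp

/-- Moments of a sweeping. -/
theorem gp_moment {Λ : Set ℂ} {ρ : ℂ → ℝ} (hρ : Continuous ρ) (hρc : HasCompactSupport ρ) {x : ℂ}
    (hρr : ∀ u : ℂ → ℝ, InnerProductSpace.HarmonicOnNhd u Λ → ∫ z, u z * ρ z = u x) (c₀ : ℂ)
    (k : ℕ) : ∫ z, (z - c₀) ^ k * (ρ z : ℂ) = (x - c₀) ^ k := by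
  have hf : ∀ z, AnalyticAt ℂ (fun z : ℂ => (z - c₀) ^ k) z := fun z =>
    (analyticAt_id.sub analyticAt_const).pow k
  have hre : InnerProductSpace.HarmonicOnNhd (fun z : ℂ => ((z - c₀) ^ k).re) Λ :=
    fun z _ => (hf z).harmonicAt_re
  have him : InnerProductSpace.HarmonicOnNhd (fun z : ℂ => ((z - c₀) ^ k).im) Λ :=
    fun z _ => (hf z).harmonicAt_im
  have hc : Continuous fun z : ℂ => (z - c₀) ^ k * (ρ z : ℂ) :=
    ((continuous_id.sub continuous_const).pow _).mul (Complex.continuous_ofReal.comp hρ)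
  have hcs : HasCompactSupport fun z : ℂ => (z - c₀) ^ k * (ρ z : ℂ) := by
    refine HasCompactSupport.mul_left ?_
    exact hρc.comp_left (g := fun r : ℝ => (r : ℂ)) Complex.ofReal_zero
  have hi : Integrable fun z : ℂ => (z - c₀) ^ k * (ρ z : ℂ) :=
    hc.integrable_of_hasCompactSupport hcs
  have h1 := integral_re hi
  have h2 := integral_im hi
  simp only [RCLike.re_to_complex, RCLike.im_to_complex, Complex.re_mul_ofReal,
    Complex.im_mul_ofReal] at h1 h2
  apply Complex.ext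
  · rw [← h1, hρr _ hre]
  · rw [← h2, hρr _ him]

/-- `-g` is conditionally positive semidefinite, with a quantitative lower bound. -/
theorem green_psd {Λ : Set ℂ} {g : ℂ → ℂ → ℝ} (hD : Dom Λ g) : ∃ (c₀ : ℂ) (R : ℝ), 1 ≤ R ∧
    (∀ x ∈ Λ, ‖x - c₀‖ ≤ R) ∧
    ∀ (ι : Type) [Fintype ι] (z : ι → ℂ) (a : ι → ℝ), (∀ i, z i ∈ Λ) → ∑ i, a i = 0 →
      ∀ n : ℕ, ∑ k ∈ Finset.range n, ‖∑ i, (a i : ℂ) * (z i - c₀) ^ (k + 1)‖ ^ 2 /
          ((k + 1) * R ^ (2 * (k + 1))) ≤ - ∑ i, ∑ j, a i * a j * g (z i) (z j) := by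
  obtain ⟨D₁, hD₁⟩ := hD.bdd.subset_closedBall (0 : ℂ)
  set D₀ : ℝ := max D₁ 0 with hD₀
  have hD₀0 : 0 ≤ D₀ := le_max_right _ _
  have hΛn : ∀ x ∈ Λ, ‖x‖ ≤ D₀ := by
    intro x hx
    have := hD₁ hx
    rw [mem_closedBall_zero_iff] at this
    exact this.trans (le_max_left _ _)
  set c₀ : ℂ := ((-(2 * D₀ + 1) : ℝ) : ℂ) with hc₀
  have hc₀n : ‖c₀‖ = 2 * D₀ + 1 := by
    rw [hc₀, Complex.norm_real, Real.norm_eq_abs, abs_neg, abs_of_pos (by linarith)]
  set R : ℝ := 3 * D₀ + 3 with hR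
  have hin : ∀ x ∈ Λ, 0 < ‖x - c₀‖ ∧ ‖x - c₀‖ < R := by
    intro x hx
    have h1 := hΛn x hx
    have h2 := norm_sub_le x c₀
    have h3 := norm_sub_norm_le c₀ x
    rw [norm_sub_rev] at h3
    constructor
    · linarith
    · linarith
  refine ⟨c₀, R, by linarith, fun x hx => (hin x hx).2.le, ?_⟩
  intro ι _ z a hz ha n
  set S : ℝ := ∑ i, ∑ j, |a i * a j| with hS
  have hS0 : 0 ≤ S := Finset.sum_nonneg fun i _ => Finset.sum_nonneg fun j _ => abs_nonneg _
  refine le_of_forall_pos_le_add fun δ hδ => ?_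
  set ε : ℝ := δ / (S + 1) with hε
  have hε0 : 0 < ε := by positivity
  have hεS : ε * S ≤ δ := by
    rw [hε, div_mul_eq_mul_div, div_le_iff₀ (by linarith)]
    nlinarith
  choose ρ hρ hρc hρΛ hρ0 hρr hρp using fun i => sweep hD (hz i) hε0
  set σ : ℂ → ℝ := fun w => ∑ i, a i * ρ i w with hσ
  have hσc : Continuous σ := continuous_finsetSum _ fun i _ => (hρ i).const_mul _
  set K : Set ℂ := ⋃ i, tsupport (ρ i) with hK
  have hKc : IsCompact K := isCompact_iUnion fun i => hρc i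
  have hsupp : Function.support σ ⊆ K := by
    intro w hw
    rw [Function.mem_support] at hw
    obtain ⟨i, _, hi⟩ := Finset.exists_ne_zero_of_sum_ne_zero hw
    refine mem_iUnion.2 ⟨i, subset_tsupport _ ?_⟩
    exact fun h => hi (by rw [h, mul_zero])
  have htsK : tsupport σ ⊆ K := closure_minimal hsupp hKc.isClosed
  have hσcs : HasCompactSupport σ := hKc.of_isClosed_subset (isClosed_tsupport σ) htsK
  have hKΛ : K ⊆ Λ := iUnion_subset fun i => hρΛ i
  have hρi : ∀ i, Integrable (ρ i) := fun i => (hρ i).integrable_of_hasCompactSupport (hρc i)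
  have hρ1 : ∀ i, ∫ w, ρ i w = 1 := by
    intro i
    have := hρr i (fun _ => 1) (InnerProductSpace.harmonicOnNhd_const 1)
    simpa using this
  have hσ0 : ∫ w, σ w = 0 := by
    rw [hσ]
    rw [integral_finsetSum _ fun i _ => (hρi i).const_mul _]
    simp only [integral_const_mul, hρ1, mul_one]
    exact ha
  have hmain := disk_moments hσc hσcs (c₀ := c₀) (R := R) (fun w hw => hin w (hKΛ (htsK hw))) hσ0 n
  have hmom : ∀ k : ℕ, ∫ w, (w - c₀) ^ (k + 1) * (σ w : ℂ) =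
      ∑ i, (a i : ℂ) * (z i - c₀) ^ (k + 1) := by
    intro k
    have h1 : ∀ w, (w - c₀) ^ (k + 1) * (σ w : ℂ) =
        ∑ i, (a i : ℂ) * ((w - c₀) ^ (k + 1) * (ρ i w : ℂ)) := by
      intro w
      rw [hσ]
      push_cast
      rw [Finset.mul_sum]
      exact Finset.sum_congr rfl fun i _ => by ring
    simp only [h1]
    rw [integral_finsetSum]
    · refine Finset.sum_congr rfl fun i _ => ?_
      rw [integral_const_mul, gp_moment (hρ i) (hρc i) (hρr i)]
    · intro i _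
      refine Integrable.const_mul ?_ _
      have hc : Continuous fun z : ℂ => (z - c₀) ^ (k + 1) * (ρ i z : ℂ) :=
        ((continuous_id.sub continuous_const).pow _).mul (Complex.continuous_ofReal.comp (hρ i))
      refine hc.integrable_of_hasCompactSupport ?_
      refine HasCompactSupport.mul_left ?_
      exact (hρc i).comp_left (g := fun r : ℝ => (r : ℂ)) Complex.ofReal_zero
  simp only [hmom] at hmain
  refine hmain.trans ?_
  have hlogi : ∀ i j, Integrable (fun p : ℂ × ℂ => Real.log ‖p.1 - p.2‖ * (ρ i p.1 * ρ j p.2)) :=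
    fun i j => log_integrable (hρ i) (hρc i) (hρ j) (hρc j)
  have hexp : ∫ p : ℂ × ℂ, Real.log ‖p.1 - p.2‖ * (σ p.1 * σ p.2) =
      ∑ i, ∑ j, a i * a j * ∫ p : ℂ × ℂ, Real.log ‖p.1 - p.2‖ * (ρ i p.1 * ρ j p.2) := by
    have h1 : ∀ p : ℂ × ℂ, Real.log ‖p.1 - p.2‖ * (σ p.1 * σ p.2) =
        ∑ i, ∑ j, a i * a j * (Real.log ‖p.1 - p.2‖ * (ρ i p.1 * ρ j p.2)) := by
      intro p
      rw [hσ]
      simp only
      rw [Finset.sum_mul_sum, Finset.mul_sum]
      refine Finset.sum_congr rfl fun i _ => ?_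
      rw [Finset.mul_sum]
      exact Finset.sum_congr rfl fun j _ => by ring
    simp only [h1]
    rw [integral_finsetSum _ fun i _ => integrable_finsetSum _ fun j _ => (hlogi i j).const_mul _]
    refine Finset.sum_congr rfl fun i _ => ?_
    rw [integral_finsetSum _ fun j _ => (hlogi i j).const_mul _]
    exact Finset.sum_congr rfl fun j _ => integral_const_mul _ _
  rw [hexp]
  have hdiff : ∑ i, ∑ j, a i * a j * g (z i) (z j) -
      ∑ i, ∑ j, a i * a j * ∫ p : ℂ × ℂ, Real.log ‖p.1 - p.2‖ * (ρ i p.1 * ρ j p.2) ≤ ε * S := by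
    rw [← Finset.sum_sub_distrib, hS, Finset.mul_sum]
    refine Finset.sum_le_sum fun i _ => ?_
    rw [← Finset.sum_sub_distrib, Finset.mul_sum]
    refine Finset.sum_le_sum fun j _ => ?_
    have h1 := sweep_pair hD (hz j) (hρ i) (hρc i) (hρΛ i) (hρ0 i) (hρr i) (hρ j) (hρc j) (hρp j)
    rw [← mul_sub]
    refine (le_abs_self _).trans ?_
    rw [abs_mul, abs_sub_comm, mul_comm]
    exact mul_le_mul_of_nonneg_right h1 (abs_nonneg _)
  linarith

end Pool.Agent.Lib.MP_fa244c_mp
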