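import Pool.Agent.Lib.MP_fa244c_mp.Core

set_option autoImplicit false

open MeasureTheory Filter Topology Set Laplacian
open scoped ContDiff

namespace Pool.Agent.Lib.MP_fa244c_mp

/-- The Laplacian of a smooth function on the plane through second derivatives. -/
theorem lapl_eq_fderiv (F : ℂ → ℝ) (z : ℂ) :
    (Δ F) z = fderiv ℝ (fderiv ℝ F) z 1 1 + fderiv ℝ (fderiv ℝ F) z Complex.I Complex.I := by
  rw [InnerProductSpace.laplacian_eq_iteratedFDeriv_complexPlane]
  simp [iteratedFDeriv_two_apply]

/-- Second directional derivative as an iterated directional derivative. -/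
theorem fderiv_dir {F : ℂ → ℝ} (hF : ContDiff ℝ ∞ F) (v w z : ℂ) :
    fderiv ℝ (fun z => fderiv ℝ F z v) z w = fderiv ℝ (fderiv ℝ F) z w v := by
  have h1 : ContDiff ℝ ∞ (fderiv ℝ F) := hF.fderiv_right (by norm_cast)
  have h2 : DifferentiableAt ℝ (fderiv ℝ F) z := (h1.differentiable (by simp)) z
  rw [fderiv_clm_apply h2 (differentiableAt_const v)]
  simp

theorem contDiff_fderiv_dir {F : ℂ → ℝ} (hF : ContDiff ℝ ∞ F) (v : ℂ) :
    ContDiff ℝ ∞ (fun z => fderiv ℝ F z v) := by
  have h1 : ContDiff ℝ ∞ (fderiv ℝ F) := hF.fderiv_right (by norm_cast)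
  exact h1.clm_apply contDiff_const

/-- Twice integration by parts in one direction. -/
theorem green_dir {a F : ℂ → ℝ} (ha : ContDiff ℝ ∞ a) (hc : HasCompactSupport a)
    (hF : ContDiff ℝ ∞ F) (v : ℂ) :
    ∫ z, a z * fderiv ℝ (fderiv ℝ F) z v v = ∫ z, fderiv ℝ (fderiv ℝ a) z v v * F z := by
  have hF1 := contDiff_fderiv_dir hF v
  have ha1 := contDiff_fderiv_dir ha v
  have hF2 := contDiff_fderiv_dir hF1 v
  have ha2 := contDiff_fderiv_dir ha1 v
  have hc1 : HasCompactSupport (fun z => fderiv ℝ a z v) := hc.fderiv_apply (𝕜 := ℝ) v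
  have hc2 : HasCompactSupport (fun z => fderiv ℝ (fun z => fderiv ℝ a z v) z v) :=
    hc1.fderiv_apply (𝕜 := ℝ) v
  have e1 : ∫ z, a z * fderiv ℝ (fun z => fderiv ℝ F z v) z v
      = - ∫ z, fderiv ℝ a z v * fderiv ℝ F z v := by
    refine integral_mul_fderiv_eq_neg_fderiv_mul_of_integrable ?_ ?_ ?_ ?_ ?_
    · exact (ha1.continuous.mul hF1.continuous).integrable_of_hasCompactSupport hc1.mul_right
    · exact (ha.continuous.mul hF2.continuous).integrable_of_hasCompactSupport hc.mul_right
    · exact (ha.continuous.mul hF1.continuous).integrable_of_hasCompactSupport hc.mul_right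
    · intro x _; exact (ha.differentiable (by simp)) x
    · intro x _; exact (hF1.differentiable (by simp)) x
  have e2 : ∫ z, fderiv ℝ a z v * fderiv ℝ F z v
      = - ∫ z, fderiv ℝ (fun z => fderiv ℝ a z v) z v * F z := by
    refine integral_mul_fderiv_eq_neg_fderiv_mul_of_integrable ?_ ?_ ?_ ?_ ?_
    · exact (ha2.continuous.mul hF.continuous).integrable_of_hasCompactSupport hc2.mul_right
    · exact (ha1.continuous.mul hF1.continuous).integrable_of_hasCompactSupport hc1.mul_right
    · exact (ha1.continuous.mul hF.continuous).integrable_of_hasCompactSupport hc1.mul_right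
    · intro x _; exact (ha1.differentiable (by simp)) x
    · intro x _; exact (hF.differentiable (by simp)) x
  simp only [fderiv_dir hF, fderiv_dir ha] at e1 e2
  rw [e1, e2, neg_neg]

/-- Symmetry of the Laplacian. -/
theorem green_symm {a F : ℂ → ℝ} (ha : ContDiff ℝ ∞ a) (hc : HasCompactSupport a)
    (hF : ContDiff ℝ ∞ F) : ∫ z, a z * (Δ F) z = ∫ z, (Δ a) z * F z := by
  have hcc : ∀ v : ℂ, Continuous (fun z => fderiv ℝ (fderiv ℝ F) z v v) := by
    intro v
    have := (contDiff_fderiv_dir (contDiff_fderiv_dir hF v) v).continuous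
    simpa only [fderiv_dir hF] using this
  have hca : ∀ v : ℂ, Continuous (fun z => fderiv ℝ (fderiv ℝ a) z v v) := by
    intro v
    have := (contDiff_fderiv_dir (contDiff_fderiv_dir ha v) v).continuous
    simpa only [fderiv_dir ha] using this
  have hcs : ∀ v : ℂ, HasCompactSupport (fun z => fderiv ℝ (fderiv ℝ a) z v v) := by
    intro v
    have := (hc.fderiv_apply (𝕜 := ℝ) v).fderiv_apply (𝕜 := ℝ) v
    simpa only [fderiv_dir ha] using this
  have e1 : ∫ z, a z * (Δ F) z = (∫ z, a z * fderiv ℝ (fderiv ℝ F) z 1 1)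
      + ∫ z, a z * fderiv ℝ (fderiv ℝ F) z Complex.I Complex.I := by
    rw [← integral_add]
    · refine integral_congr_ae (Eventually.of_forall fun z => ?_)
      simp only [lapl_eq_fderiv]; ring
    · exact (ha.continuous.mul (hcc 1)).integrable_of_hasCompactSupport hc.mul_right
    · exact (ha.continuous.mul (hcc Complex.I)).integrable_of_hasCompactSupport hc.mul_right
  have e2 : ∫ z, (Δ a) z * F z = (∫ z, fderiv ℝ (fderiv ℝ a) z 1 1 * F z)
      + ∫ z, fderiv ℝ (fderiv ℝ a) z Complex.I Complex.I * F z := by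
    rw [← integral_add]
    · refine integral_congr_ae (Eventually.of_forall fun z => ?_)
      simp only [lapl_eq_fderiv]; ring
    · exact ((hca 1).mul hF.continuous).integrable_of_hasCompactSupport (hcs 1).mul_right
    · exact ((hca Complex.I).mul hF.continuous).integrable_of_hasCompactSupport
        (hcs Complex.I).mul_right
  rw [e1, e2, green_dir ha hc hF, green_dir ha hc hF]

end Pool.Agent.Lib.MP_fa244c_mp
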