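import Pool.Agent.Lib.MP_fa244c_mp.Core

set_option autoImplicit false

open MeasureTheory Filter Topology Set Metric
open scoped ContDiff

namespace Pool.Agent.Lib.MP_fa244c_mp

namespace HB

set_option linter.unusedSectionVars false

section conv

variable {G : Type} [NormedAddCommGroup G] [NormedSpace ℝ G] [MeasurableSpace G] [BorelSpace G]
  [FiniteDimensional ℝ G] {μ : Measure G} [μ.IsAddHaarMeasure]

/-- convolution of a function with a kernel -/
noncomputable def cv {F : Type} [NormedAddCommGroup F] [NormedSpace ℝ F] (μ : Measure G)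
    (U : G → ℝ) (K : G → F) (p : G) : F := ∫ q, U q • K (p - q) ∂μ

theorem cv_fderiv {F : Type} [NormedAddCommGroup F] [NormedSpace ℝ F] [CompleteSpace F]
    {U : G → ℝ} {K : G → F}
    (hU : LocallyIntegrable U μ) (hK : ContDiff ℝ ∞ K) (hc : HasCompactSupport K) :
    ContDiff ℝ ∞ (cv μ U K) ∧ fderiv ℝ (cv μ U K) = cv μ U (fderiv ℝ K) := by
  have e : cv μ U K = MeasureTheory.convolution U K (ContinuousLinearMap.lsmul ℝ ℝ) μ := by
    funext p
    rfl
  constructor
  · rw [e]
    exact hc.contDiff_convolution_right _ hU hK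
  · funext x
    have h := (hc.hasFDerivAt_convolution_right (ContinuousLinearMap.lsmul ℝ ℝ) hU
      (hK.of_le (by exact_mod_cast le_top)) x).fderiv
    rw [← e] at h
    rw [h]
    rfl

theorem cv_bound (k : ℕ) : ∀ {F : Type} [NormedAddCommGroup F] [NormedSpace ℝ F]
    [CompleteSpace F] {U : G → ℝ} {K : G → F} (_ : LocallyIntegrable U μ)
    (_ : ContDiff ℝ ∞ K) (_ : HasCompactSupport K) (x : G),
    ‖iteratedFDeriv ℝ k (cv μ U K) x‖ ≤
      ∫ q, |U q| * ‖iteratedFDeriv ℝ k K (x - q)‖ ∂μ := by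
  induction k with
  | zero =>
    intro F _ _ _ U K hU hK hc x
    simp only [norm_iteratedFDeriv_zero]
    unfold cv
    refine (norm_integral_le_integral_norm _).trans (le_of_eq ?_)
    congr 1
    funext q
    rw [norm_smul, Real.norm_eq_abs]
  | succ k ih =>
    intro F _ _ _ U K hU hK hc x
    rw [← norm_iteratedFDeriv_fderiv, (cv_fderiv hU hK hc).2]
    refine (ih hU (hK.fderiv_right (by exact_mod_cast le_top)) (hc.fderiv ℝ) x).trans
      (le_of_eq ?_)
    congr 1
    funext q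
    rw [norm_iteratedFDeriv_fderiv]

/-- rescaled kernel -/
noncomputable def sc (K : G → ℝ) (δ : ℝ) (q : G) : ℝ :=
  (δ ^ Module.finrank ℝ G)⁻¹ * K (δ⁻¹ • q)

theorem sc_contDiff {K : G → ℝ} (hK : ContDiff ℝ ∞ K) (δ : ℝ) : ContDiff ℝ ∞ (sc K δ) := by
  unfold sc
  exact contDiff_const.mul (hK.comp (contDiff_const.smul contDiff_id))

theorem sc_hasCompactSupport {K : G → ℝ} (hc : HasCompactSupport K) {δ : ℝ} (hδ : 0 < δ) :
    HasCompactSupport (sc K δ) := by
  have h : HasCompactSupport (fun q : G => K (δ⁻¹ • q)) :=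
    hc.comp_smul (inv_ne_zero hδ.ne')
  exact h.mul_left

theorem sc_iter {K : G → ℝ} (hK : ContDiff ℝ ∞ K) {δ : ℝ} (hδ : 0 < δ) (k : ℕ) (q : G) :
    ‖iteratedFDeriv ℝ k (sc K δ) q‖ ≤
      (δ ^ Module.finrank ℝ G)⁻¹ * (δ⁻¹ ^ k * ‖iteratedFDeriv ℝ k K (δ⁻¹ • q)‖) := by
  set g : G →L[ℝ] G := δ⁻¹ • ContinuousLinearMap.id ℝ G with hg
  have h1 : sc K δ = (δ ^ Module.finrank ℝ G)⁻¹ • (K ∘ g) := by
    funext q
    rfl
  have h2 : iteratedFDeriv ℝ k (sc K δ) q = (δ ^ Module.finrank ℝ G)⁻¹ •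
      iteratedFDeriv ℝ k (K ∘ g) q := by
    rw [h1]
    exact iteratedFDeriv_const_smul_apply ((hK.comp g.contDiff).contDiffAt.of_le
      (by exact_mod_cast le_top))
  rw [h2, norm_smul, Real.norm_of_nonneg (by positivity)]
  apply mul_le_mul_of_nonneg_left _ (by positivity)
  rw [g.iteratedFDeriv_comp_right hK q (by exact_mod_cast le_top)]
  refine (ContinuousMultilinearMap.norm_compContinuousLinearMap_le _ _).trans ?_
  have h3 : ‖g‖ ≤ δ⁻¹ := by
    rw [hg, norm_smul, Real.norm_of_nonneg (by positivity)]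
    exact mul_le_of_le_one_right (by positivity) ContinuousLinearMap.norm_id_le
  rw [Finset.prod_const, Finset.card_univ, Fintype.card_fin, mul_comm]
  apply mul_le_mul _ le_rfl (norm_nonneg _) (by positivity)
  exact pow_le_pow_left₀ (norm_nonneg _) h3 k

theorem cv_sc {U : G → ℝ} {K : G → ℝ} {A δ : ℝ} (hU : AEStronglyMeasurable U μ)
    (hA : ∀ q, |U q| ≤ A)
    (hK : ContDiff ℝ ∞ K) (hc : HasCompactSupport K) (hδ : 0 < δ) :
    ContDiff ℝ ∞ (cv μ U (sc K δ)) ∧ ∀ (k : ℕ) (x : G),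
      ‖iteratedFDeriv ℝ k (cv μ U (sc K δ)) x‖ ≤
        A * (∫ q, ‖iteratedFDeriv ℝ k K q‖ ∂μ) / δ ^ k := by
  have hUl : LocallyIntegrable U μ := by
    have : MemLp U ⊤ μ := memLp_top_of_bound hU A (Eventually.of_forall fun q => by
      rw [Real.norm_eq_abs]; exact hA q)
    exact this.locallyIntegrable le_top
  refine ⟨(cv_fderiv hUl (sc_contDiff hK δ) (sc_hasCompactSupport hc hδ)).1, fun k x => ?_⟩
  have hA0 : 0 ≤ A := (abs_nonneg _).trans (hA 0)
  refine (cv_bound k hUl (sc_contDiff hK δ) (sc_hasCompactSupport hc hδ) x).trans ?_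
  have hcont : Continuous (fun q => iteratedFDeriv ℝ k K q) :=
    hK.continuous_iteratedFDeriv (by exact_mod_cast le_top)
  have hcs : HasCompactSupport (fun q => iteratedFDeriv ℝ k K q) := hc.iteratedFDeriv k
  have hint : Integrable (fun q => ‖iteratedFDeriv ℝ k K q‖) μ :=
    (hcont.integrable_of_hasCompactSupport hcs).norm
  have hint2 : Integrable (fun q => ‖iteratedFDeriv ℝ k K (δ⁻¹ • q)‖) μ :=
    (integrable_comp_smul_iff μ _ (inv_ne_zero hδ.ne')).2 hint
  have hint3 : Integrable (fun q => ‖iteratedFDeriv ℝ k K (δ⁻¹ • (x - q))‖) μ :=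
    hint2.comp_sub_left x
  have h1 : ∀ q, |U q| * ‖iteratedFDeriv ℝ k (sc K δ) (x - q)‖ ≤
      A * ((δ ^ Module.finrank ℝ G)⁻¹ * (δ⁻¹ ^ k *
        ‖iteratedFDeriv ℝ k K (δ⁻¹ • (x - q))‖)) := fun q =>
    mul_le_mul (hA q) (sc_iter hK hδ k _) (norm_nonneg _) hA0
  calc ∫ q, |U q| * ‖iteratedFDeriv ℝ k (sc K δ) (x - q)‖ ∂μ
      ≤ ∫ q, A * ((δ ^ Module.finrank ℝ G)⁻¹ * (δ⁻¹ ^ k *
        ‖iteratedFDeriv ℝ k K (δ⁻¹ • (x - q))‖)) ∂μ := by
        apply integral_mono_of_nonneg (Eventually.of_forall fun q => by positivity)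
          (((hint3.const_mul _).const_mul _).const_mul _) (Eventually.of_forall h1)
    _ = A * ((δ ^ Module.finrank ℝ G)⁻¹ * (δ⁻¹ ^ k *
        ∫ q, ‖iteratedFDeriv ℝ k K (δ⁻¹ • (x - q))‖ ∂μ)) := by
        rw [integral_const_mul, integral_const_mul, integral_const_mul]
    _ = A * (∫ q, ‖iteratedFDeriv ℝ k K q‖ ∂μ) / δ ^ k := by
        rw [integral_sub_left_eq_self (fun q => ‖iteratedFDeriv ℝ k K (δ⁻¹ • q)‖) μ x,
          Measure.integral_comp_inv_smul_of_nonneg μ
            (fun q => ‖iteratedFDeriv ℝ k K q‖) hδ.le, smul_eq_mul]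
        have : δ ^ Module.finrank ℝ G ≠ 0 := by positivity
        rw [inv_pow]
        field_simp

end conv

theorem radial_aux {V : ℂ → ℝ} {h : ℝ → ℝ} {ρ0 m : ℝ}
    (hcont : Continuous (fun w : ℂ => h ‖w‖ * V w)) (hsupp : ∀ ρ, ρ0 ≤ ρ → h ρ = 0)
    (hmean : ∀ ρ, 0 < ρ → ρ < ρ0 → Real.circleAverage V 0 ρ = m) :
    ∫ w : ℂ, h ‖w‖ * V w = (∫ ρ in Ioi (0 : ℝ), ρ * h ρ * (2 * Real.pi)) * m := by
  rw [← Complex.integral_comp_polarCoord_symm, polarCoord_target, Measure.volume_eq_prod]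
  have hsymm : Continuous (fun p : ℝ × ℝ => Complex.polarCoord.symm p) := by
    simp only [Complex.polarCoord_symm_apply]
    fun_prop
  have hfc : Continuous (fun p : ℝ × ℝ => p.1 • (h ‖Complex.polarCoord.symm p‖ *
      V (Complex.polarCoord.symm p))) :=
    continuous_fst.smul (hcont.comp hsymm)
  have hint : IntegrableOn (fun p : ℝ × ℝ => p.1 • (h ‖Complex.polarCoord.symm p‖ *
      V (Complex.polarCoord.symm p))) (Ioi 0 ×ˢ Ioo (-Real.pi) Real.pi)
      (volume.prod volume) := by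
    have h1 : IntegrableOn (fun p : ℝ × ℝ => p.1 • (h ‖Complex.polarCoord.symm p‖ *
      V (Complex.polarCoord.symm p))) (Icc 0 ρ0 ×ˢ Icc (-Real.pi) Real.pi)
      (volume.prod volume) :=
      hfc.continuousOn.integrableOn_compact (isCompact_Icc.prod isCompact_Icc)
    refine h1.of_forall_sdiff_eq_zero (measurableSet_Ioi.prod measurableSet_Ioo) ?_
    rintro ⟨a, b⟩ ⟨⟨h2, h3⟩, h4⟩
    simp only [mem_prod, mem_Icc, not_and_or, not_le, mem_Ioi, mem_Ioo] at h2 h3 h4
    have h5 : ρ0 ≤ ‖Complex.polarCoord.symm (a, b)‖ := by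
      rw [Complex.norm_polarCoord_symm]
      refine le_trans ?_ (le_abs_self a)
      rcases h4 with (h4 | h4) | (h4 | h4)
      · linarith
      · exact h4.le
      · linarith
      · linarith
    simp only
    rw [hsupp _ h5]
    simp
  rw [setIntegral_prod _ hint, ← integral_mul_const]
  apply setIntegral_congr_fun measurableSet_Ioi
  intro ρ hρ
  have hρ0 : 0 < ρ := hρ
  simp only
  have hn : ∀ θ : ℝ, ‖Complex.polarCoord.symm (ρ, θ)‖ = ρ := fun θ => by
    rw [Complex.norm_polarCoord_symm, abs_of_pos hρ0]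
  simp only [hn, smul_eq_mul]
  have hcm : ∀ θ : ℝ, Complex.polarCoord.symm (ρ, θ) = circleMap 0 ρ θ := fun θ => by
    rw [Complex.polarCoord_symm_apply, circleMap, zero_add, Complex.exp_mul_I,
      ← Complex.ofReal_cos, ← Complex.ofReal_sin]
  simp only [hcm]
  rw [integral_const_mul, integral_const_mul]
  rcases lt_or_ge ρ ρ0 with hlt | hge
  · have h6 := hmean ρ hρ0 hlt
    rw [Real.circleAverage_def, smul_eq_mul] at h6
    have h7 : ∫ θ in Ioo (-Real.pi) Real.pi, V (circleMap 0 ρ θ) =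
        ∫ θ in (0 : ℝ)..2 * Real.pi, V (circleMap 0 ρ θ) := by
      rw [← integral_Ioc_eq_integral_Ioo, ← intervalIntegral.integral_of_le (by
        linarith [Real.pi_pos])]
      have hper : Function.Periodic (fun θ : ℝ => V (circleMap 0 ρ θ)) (2 * Real.pi) := by
        intro θ
        simp only
        rw [periodic_circleMap 0 ρ θ]
      have := hper.intervalIntegral_add_eq (-Real.pi) 0
      rw [zero_add] at this
      rw [← this]
      congr 1
      ring
    rw [h7, ← h6]
    have := Real.pi_pos.ne'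
    field_simp
  · rw [hsupp ρ hge]
    ring

theorem radial_mean {V : ℂ → ℝ} {h : ℝ → ℝ} {ρ0 m : ℝ} (hc : Continuous h)
    (hcont : Continuous (fun w : ℂ => h ‖w‖ * V w)) (hsupp : ∀ ρ, ρ0 ≤ ρ → h ρ = 0)
    (hmean : ∀ ρ, 0 < ρ → ρ < ρ0 → Real.circleAverage V 0 ρ = m) :
    ∫ w : ℂ, h ‖w‖ * V w = (∫ w : ℂ, h ‖w‖) * m := by
  have h1 := radial_aux (V := fun _ => 1) (m := 1) (h := h) (ρ0 := ρ0)
    (by simp only [mul_one]; exact hc.comp continuous_norm) hsupp (fun ρ _ _ => by
      rw [Real.circleAverage_def]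
      have := Real.pi_pos.ne'
      simp
      field_simp)
  simp only [mul_one] at h1
  rw [radial_aux hcont hsupp hmean, h1]

/-- the unnormalized profile -/
noncomputable def pr (s : ℝ) : ℝ := Real.smoothTransition (1 - 4 * s ^ 2)

theorem pr_zero {s : ℝ} (hs : 1 / 2 ≤ s) : pr s = 0 := by
  unfold pr
  apply Real.smoothTransition.zero_of_nonpos
  nlinarith

theorem pr_nonneg (s : ℝ) : 0 ≤ pr s := Real.smoothTransition.nonneg _

theorem pr_norm_contDiff : ContDiff ℝ ∞ (fun w : ℂ => pr ‖w‖) := by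
  unfold pr
  exact Real.smoothTransition.contDiff.comp
    (contDiff_const.sub (contDiff_const.mul (contDiff_norm_sq ℝ)))

theorem pr_continuous : Continuous pr := by
  unfold pr
  exact Real.smoothTransition.continuous.comp (by fun_prop)

theorem pr_support : HasCompactSupport (fun w : ℂ => pr ‖w‖) := by
  apply HasCompactSupport.of_support_subset_isCompact (isCompact_closedBall (0 : ℂ) (1 / 2))
  intro w hw
  rw [mem_closedBall_zero_iff]
  by_contra hcon
  push Not at hcon
  exact hw (pr_zero hcon.le)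

theorem pr_int_pos : 0 < ∫ w : ℂ, pr ‖w‖ := by
  apply (pr_norm_contDiff.continuous.integral_pos_of_hasCompactSupport_nonneg_nonzero
    pr_support (fun w => pr_nonneg _) (x := 0) ?_)
  have : pr ‖(0 : ℂ)‖ = 1 := by
    unfold pr
    apply Real.smoothTransition.one_of_one_le
    simp
  rw [this]
  norm_num

/-- the radial mollifier -/
noncomputable def et (w : ℂ) : ℝ := (∫ w : ℂ, pr ‖w‖)⁻¹ * pr ‖w‖

theorem et_contDiff : ContDiff ℝ ∞ et := contDiff_const.mul pr_norm_contDiff

theorem et_support : HasCompactSupport et := pr_support.mul_left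

theorem et_zero {w : ℂ} (h : 1 / 2 ≤ ‖w‖) : et w = 0 := by
  unfold et
  rw [pr_zero h, mul_zero]

/-- harmonic functions are reproduced by radial mollifiers -/
theorem reproduce {u : ℂ → ℝ} {z : ℂ} {δ : ℝ} (hδ : 0 < δ)
    (hu : InnerProductSpace.HarmonicOnNhd u (ball z δ)) (U : ℂ → ℝ)
    (hU : ∀ w ∈ ball z δ, U w = u w) : cv volume U (sc et δ) z = u z := by
  unfold cv
  have hI := pr_int_pos
  set I := ∫ w : ℂ, pr ‖w‖ with hIdef
  have hδ0 : δ ≠ 0 := hδ.ne'
  have hfr : Module.finrank ℝ ℂ = 2 := Complex.finrank_real_complex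
  -- translate
  have h1 : ∫ q, U q • sc et δ (z - q) = ∫ w : ℂ, U (z + w) • sc et δ w := by
    rw [← integral_sub_left_eq_self (fun q => U q • sc et δ (z - q)) volume z,
      ← integral_neg_eq_self (fun w => U (z + w) • sc et δ w)]
    congr 1
    funext q
    rw [sub_sub_cancel, ← sub_eq_add_neg]
    congr 1
    unfold sc et
    rw [smul_neg, norm_neg]
  rw [h1]
  set h : ℝ → ℝ := fun ρ => (δ ^ 2)⁻¹ * (I⁻¹ * pr (δ⁻¹ * ρ)) with hh
  have hsc : ∀ w : ℂ, sc et δ w = h ‖w‖ := by
    intro w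
    unfold sc et
    rw [norm_smul, norm_inv, Real.norm_of_nonneg hδ.le, hfr]
  have hsupp : ∀ ρ, δ / 2 ≤ ρ → h ρ = 0 := by
    intro ρ hρ
    simp only [hh]
    rw [pr_zero, mul_zero, mul_zero]
    rw [inv_mul_eq_div, le_div_iff₀ hδ]
    linarith
  have hhc : Continuous h := by
    simp only [hh]
    exact continuous_const.mul (continuous_const.mul (pr_continuous.comp (by fun_prop)))
  have hcont : Continuous (fun w : ℂ => h ‖w‖ * U (z + w)) := by
    rw [continuous_iff_continuousAt]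
    intro w
    rcases lt_or_ge ‖w‖ δ with hw | hw
    · have h2 : ContinuousAt (fun w : ℂ => h ‖w‖ * u (z + w)) w := by
        apply (hhc.comp continuous_norm).continuousAt.mul
        have h3 : ContinuousAt u (z + w) :=
          (hu (z + w) (by rw [mem_ball, dist_eq_norm, add_sub_cancel_left]; exact hw)).1.continuousAt
        exact h3.comp (continuous_const.add continuous_id).continuousAt
      apply h2.congr
      have h4 : ∀ᶠ w' : ℂ in 𝓝 w, ‖w'‖ < δ :=
        (continuous_norm.tendsto w).eventually (gt_mem_nhds hw)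
      filter_upwards [h4] with w' hw'
      rw [hU (z + w') (by rw [mem_ball, dist_eq_norm, add_sub_cancel_left]; exact hw')]
    · have h4 : ∀ᶠ w' : ℂ in 𝓝 w, δ / 2 < ‖w'‖ :=
        (continuous_norm.tendsto w).eventually (lt_mem_nhds (by linarith))
      apply (continuousAt_const (y := (0 : ℝ))).congr
      filter_upwards [h4] with w' hw'
      rw [hsupp _ hw'.le, zero_mul]
  have h2 : ∫ w : ℂ, U (z + w) • sc et δ w = ∫ w : ℂ, h ‖w‖ * U (z + w) := by
    congr 1
    funext w
    rw [hsc, smul_eq_mul, mul_comm]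
  rw [h2, radial_mean (ρ0 := δ / 2) (m := u z) hhc hcont hsupp]
  · have h3 : ∫ w : ℂ, h ‖w‖ = 1 := by
      simp only [hh]
      rw [integral_const_mul, integral_const_mul]
      have h4 : ∫ w : ℂ, pr (δ⁻¹ * ‖w‖) = δ ^ 2 * I := by
        have h5 : ∀ w : ℂ, pr (δ⁻¹ * ‖w‖) = (fun w : ℂ => pr ‖w‖) (δ⁻¹ • w) := by
          intro w
          simp only
          rw [norm_smul, norm_inv, Real.norm_of_nonneg hδ.le]
        simp only [h5]
        have h6 := Measure.integral_comp_inv_smul_of_nonneg (volume : Measure ℂ)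
          (fun w : ℂ => pr ‖w‖) hδ.le
        rw [h6, hfr, smul_eq_mul]
      rw [h4]
      field_simp
    rw [h3, one_mul]
  · intro ρ hρ0 hρ
    have h3 : Real.circleAverage (fun w => U (z + w)) 0 ρ = Real.circleAverage u z ρ := by
      rw [Real.circleAverage_def, Real.circleAverage_def]
      congr 1
      apply intervalIntegral.integral_congr
      intro θ _
      simp only
      have h4 : z + circleMap 0 ρ θ = circleMap z ρ θ := by simp [circleMap]
      rw [h4, hU]
      rw [mem_ball, dist_eq_norm, circleMap, add_sub_cancel_left, norm_mul,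
        Complex.norm_exp_ofReal_mul_I, mul_one, Complex.norm_real, Real.norm_of_nonneg hρ0.le]
      linarith
    rw [h3]
    apply InnerProductSpace.HarmonicOnNhd.circleAverage_eq
    rw [abs_of_pos hρ0]
    intro w hw
    apply hu w
    rw [mem_closedBall] at hw
    rw [mem_ball]
    linarith

end HB

/-- Derivative bounds for bounded harmonic functions in the plane. -/
theorem harmonic_bounds : ∃ C : ℝ, 0 < C ∧ ∀ (u : ℂ → ℝ) (x : ℂ) (r A : ℝ), 0 < r →
    InnerProductSpace.HarmonicOnNhd u (ball x r) → (∀ z ∈ ball x r, |u z| ≤ A) →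
    ContDiffAt ℝ ∞ u x ∧
      ∀ k : ℕ, 1 ≤ k → k ≤ 3 → ‖iteratedFDeriv ℝ k u x‖ ≤ C * A / r ^ k := by
  classical
  set M : ℕ → ℝ := fun k => ∫ q : ℂ, ‖iteratedFDeriv ℝ k HB.et q‖ with hM
  have hM0 : ∀ k, 0 ≤ M k := fun k => integral_nonneg fun q => norm_nonneg _
  refine ⟨1 + ∑ k ∈ Finset.range 4, M k * 2 ^ k, by
    have : 0 ≤ ∑ k ∈ Finset.range 4, M k * 2 ^ k :=
      Finset.sum_nonneg fun k _ => mul_nonneg (hM0 k) (by positivity)
    linarith, ?_⟩
  intro u x r A hr hu hA
  have hA0 : 0 ≤ A := (abs_nonneg _).trans (hA x (mem_ball_self hr))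
  set U : ℂ → ℝ := (ball x r).indicator u with hU
  have hUm : AEStronglyMeasurable U volume := by
    have h1 : ContinuousOn u (ball x r) := fun z hz => (hu z hz).1.continuousAt.continuousWithinAt
    exact (aestronglyMeasurable_indicator_iff measurableSet_ball).2
      (h1.aestronglyMeasurable measurableSet_ball)
  have hUA : ∀ q, |U q| ≤ A := by
    intro q
    rw [hU, Set.indicator_apply]
    split_ifs with h
    · exact hA q h
    · simpa using hA0
  obtain ⟨h1, h2⟩ := HB.cv_sc (δ := r / 2) hUm hUA HB.et_contDiff HB.et_support (by linarith)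
  have heq : HB.cv volume U (HB.sc HB.et (r / 2)) =ᶠ[𝓝 x] u := by
    filter_upwards [ball_mem_nhds x (by linarith : 0 < r / 2)] with z hz
    rw [mem_ball] at hz
    apply HB.reproduce (by linarith)
    · intro w hw
      apply hu w
      rw [mem_ball] at hw ⊢
      linarith [dist_triangle w z x]
    · intro w hw
      rw [hU, Set.indicator_of_mem]
      rw [mem_ball] at hw ⊢
      linarith [dist_triangle w z x]
  refine ⟨h1.contDiffAt.congr_of_eventuallyEq heq.symm, fun k hk1 hk3 => ?_⟩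
  have h3 : iteratedFDeriv ℝ k u x = iteratedFDeriv ℝ k (HB.cv volume U (HB.sc HB.et (r / 2))) x :=
    (heq.symm.iteratedFDeriv ℝ k).eq_of_nhds
  rw [h3]
  refine (h2 k x).trans ?_
  have h4 : A * M k / (r / 2) ^ k = (M k * 2 ^ k) * A / r ^ k := by
    rw [div_pow]
    field_simp
  change A * M k / (r / 2) ^ k ≤ _
  rw [h4]
  have h5 : M k * 2 ^ k ≤ ∑ k ∈ Finset.range 4, M k * 2 ^ k :=
    Finset.single_le_sum (f := fun k => M k * 2 ^ k)
      (fun k _ => mul_nonneg (hM0 k) (by positivity)) (Finset.mem_range.2 (by omega))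
  gcongr
  linarith

end Pool.Agent.Lib.MP_fa244c_mp
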