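import Pool.Agent.Lib.MP_fa244c_mp.Lip

set_option autoImplicit false

open MeasureTheory Filter Topology Set Metric
open scoped ContDiff

namespace Pool.Agent.Lib.MP_fa244c_mp

namespace IBP

variable {Λ : Set ℂ} {g : ℂ → ℂ → ℝ} {ι : Type} [Fintype ι]

/-- Differentiable on `Cfg`, and bounded with bounded derivative in the direction `v` on the part
of `Cfg` in `K`. -/
private def Bd (Λ : Set ℂ) (K : Set (ι → ℂ)) (v : ι → ℂ) (u : (ι → ℂ) → ℝ) : Prop :=
  (∀ x ∈ Cfg Λ ι, DifferentiableAt ℝ u x) ∧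
    ∃ C : ℝ, ∀ x ∈ Cfg Λ ι, x ∈ K → |u x| ≤ C ∧ |fderiv ℝ u x v| ≤ C

private theorem Bd.mul {K : Set (ι → ℂ)} {v : ι → ℂ} {u w : (ι → ℂ) → ℝ} (hu : Bd Λ K v u)
    (hw : Bd Λ K v w) : Bd Λ K v (fun x => u x * w x) := by
  obtain ⟨hu1, C, hu2⟩ := hu
  obtain ⟨hw1, C', hw2⟩ := hw
  refine ⟨fun x hx => (hu1 x hx).mul (hw1 x hx), 2 * (C * C'), fun x hx hk => ?_⟩
  obtain ⟨h1, h2⟩ := hu2 x hx hk
  obtain ⟨h3, h4⟩ := hw2 x hx hk
  have hC : 0 ≤ C := (abs_nonneg _).trans h1
  have hC' : 0 ≤ C' := (abs_nonneg _).trans h3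
  have h5 : |u x| * |w x| ≤ C * C' := mul_le_mul h1 h3 (abs_nonneg _) hC
  constructor
  · rw [abs_mul]
    have := mul_nonneg hC hC'
    linarith
  · have h6 : HasFDerivAt (fun x => u x * w x) (u x • fderiv ℝ w x + w x • fderiv ℝ u x) x :=
      (hu1 x hx).hasFDerivAt.mul (hw1 x hx).hasFDerivAt
    rw [h6.fderiv]
    simp only [add_apply, smul_apply, smul_eq_mul]
    refine (abs_add_le _ _).trans ?_
    rw [abs_mul, abs_mul]
    have h7 : |u x| * |fderiv ℝ w x v| ≤ C * C' := mul_le_mul h1 h4 (abs_nonneg _) hC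
    have h8 : |w x| * |fderiv ℝ u x v| ≤ C' * C := mul_le_mul h3 h2 (abs_nonneg _) hC'
    linarith [mul_comm C C']

private theorem Bd.add {K : Set (ι → ℂ)} {v : ι → ℂ} {u w : (ι → ℂ) → ℝ} (hu : Bd Λ K v u)
    (hw : Bd Λ K v w) : Bd Λ K v (fun x => u x + w x) := by
  obtain ⟨hu1, C, hu2⟩ := hu
  obtain ⟨hw1, C', hw2⟩ := hw
  refine ⟨fun x hx => (hu1 x hx).add (hw1 x hx), C + C', fun x hx hk => ?_⟩
  obtain ⟨h1, h2⟩ := hu2 x hx hk
  obtain ⟨h3, h4⟩ := hw2 x hx hk
  constructor
  · exact (abs_add_le _ _).trans (add_le_add h1 h3)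
  · have h6 : HasFDerivAt (fun x => u x + w x) (fderiv ℝ u x + fderiv ℝ w x) x :=
      (hu1 x hx).hasFDerivAt.add (hw1 x hx).hasFDerivAt
    rw [h6.fderiv]
    exact (abs_add_le _ _).trans (add_le_add h2 h4)

private theorem Bd.zero {K : Set (ι → ℂ)} {v : ι → ℂ} : Bd Λ K v (fun _ => (0 : ℝ)) := by
  refine ⟨fun x hx => differentiableAt_const _, 0, fun x hx hk => ?_⟩
  simp

private theorem Bd.sum {K : Set (ι → ℂ)} {v : ι → ℂ} {α : Type} (s : Finset α)
    {u : α → (ι → ℂ) → ℝ} (hu : ∀ a ∈ s, Bd Λ K v (u a)) :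
    Bd Λ K v (fun x => ∑ a ∈ s, u a x) := by
  classical
  induction s using Finset.induction_on with
  | empty => simpa using Bd.zero
  | insert a s ha ih =>
    simp only [Finset.sum_insert ha]
    exact (hu a (Finset.mem_insert_self _ _)).add
      (ih fun b hb => hu b (Finset.mem_insert_of_mem hb))

private theorem Bd.comp {K : Set (ι → ℂ)} {v : ι → ℂ} {u : (ι → ℂ) → ℝ} (hu : Bd Λ K v u)
    {θ : ℝ → ℝ} (hθ : ContDiff ℝ 1 θ) : Bd Λ K v (fun x => θ (u x)) := by
  obtain ⟨hu1, C, hu2⟩ := hu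
  obtain ⟨A, hA⟩ := (isCompact_Icc (a := -C) (b := C)).exists_bound_of_continuousOn
    hθ.continuous.continuousOn
  obtain ⟨B, hB⟩ := (isCompact_Icc (a := -C) (b := C)).exists_bound_of_continuousOn
    (hθ.continuous_deriv le_rfl).continuousOn
  have hd : Differentiable ℝ θ := hθ.differentiable one_ne_zero
  refine ⟨fun x hx => (hd _).comp x (hu1 x hx), max A (B * C), fun x hx hk => ?_⟩
  obtain ⟨h1, h2⟩ := hu2 x hx hk
  have hC : 0 ≤ C := (abs_nonneg _).trans h1
  have h3 : u x ∈ Icc (-C) C := abs_le.1 h1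
  constructor
  · exact (hA _ h3).trans (le_max_left _ _)
  · have h6 : HasFDerivAt (fun x => θ (u x)) (deriv θ (u x) • fderiv ℝ u x) x :=
      (hd (u x)).hasDerivAt.comp_hasFDerivAt x (hu1 x hx).hasFDerivAt
    rw [h6.fderiv]
    simp only [smul_apply, smul_eq_mul]
    rw [abs_mul]
    have h7 := hB _ h3
    rw [Real.norm_eq_abs] at h7
    have hB0 : 0 ≤ B := (abs_nonneg _).trans h7
    exact (mul_le_mul h7 h2 (abs_nonneg _) hB0).trans (le_max_right _ _)

private theorem Bd.of_contDiff (hD : Dom Λ g) {K : Set (ι → ℂ)} {v : ι → ℂ} {u : (ι → ℂ) → ℝ}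
    (hu : ContDiff ℝ 1 u) : Bd Λ K v u := by
  have hc : IsCompact (Set.pi univ fun _ : ι => closure Λ) :=
    isCompact_univ_pi fun _ => hD.bdd.isCompact_closure
  have hs : Cfg Λ ι ⊆ Set.pi univ fun _ : ι => closure Λ :=
    fun x hx i _ => subset_closure (hx.1 i)
  obtain ⟨A, hA⟩ := hc.exists_bound_of_continuousOn hu.continuous.continuousOn
  have h1 : Continuous fun x => fderiv ℝ u x v :=
    (hu.continuous_fderiv one_ne_zero).clm_apply continuous_const
  obtain ⟨B, hB⟩ := hc.exists_bound_of_continuousOn h1.continuousOn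
  refine ⟨fun x hx => hu.differentiable one_ne_zero x, max A B, fun x hx hk => ?_⟩
  exact ⟨(hA x (hs hx)).trans (le_max_left _ _), (hB x (hs hx)).trans (le_max_right _ _)⟩

variable [DecidableEq ι]

private theorem update_eq (x : ι → ℂ) (i : ι) (e : ℂ) (t : ℝ) :
    x + t • (Pi.single i e : ι → ℂ) = Function.update x i (x i + t • e) := by
  ext k
  by_cases h : k = i
  · subst h; simp
  · simp [h]

private theorem Sep.mono {δ δ' : ℝ} {x : ι → ℂ} {i : ι} (h : Sep Λ δ x i) (hd : δ' ≤ δ) :
    Sep Λ δ' x i := ⟨hd.trans h.1, fun j hj => hd.trans (h.2 j hj)⟩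

private theorem isClosed_Sep (δ : ℝ) (i : ι) : IsClosed {x : ι → ℂ | Sep Λ δ x i} := by
  have h1 : {x : ι → ℂ | Sep Λ δ x i} = {x | δ ≤ infDist (x i) Λᶜ} ∩
      ⋂ j, ⋂ (_ : j ≠ i), {x | δ ≤ ‖x i - x j‖} := by
    ext x
    simp [Sep]
  rw [h1]
  refine IsClosed.inter ?_ ?_
  · exact isClosed_le continuous_const ((continuous_infDist_pt _).comp (continuous_apply i))
  · refine isClosed_iInter fun j => isClosed_iInter fun _ => ?_
    exact isClosed_le continuous_const ((continuous_apply i).sub (continuous_apply j)).norm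

private theorem Sep.perturb {η : ℝ} {x : ι → ℂ} {i : ι} (h : Sep Λ η x i) {w : ℂ}
    (hw : ‖w - x i‖ ≤ η / 2) : η / 2 ≤ infDist w Λᶜ ∧ ∀ j, j ≠ i → η / 2 ≤ ‖w - x j‖ := by
  constructor
  · have h1 : infDist (x i) Λᶜ ≤ infDist w Λᶜ + dist (x i) w := infDist_le_infDist_add_dist
    rw [dist_comm, dist_eq_norm] at h1
    linarith [h.1]
  · intro j hj
    have h1 := h.2 j hj
    have h2 : ‖x i - x j‖ ≤ ‖x i - w‖ + ‖w - x j‖ := norm_sub_le_norm_sub_add_norm_sub _ _ _
    rw [norm_sub_rev (x i) w] at h2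
    linarith

/-- Bound for the partial derivatives at separated coordinates. -/
private theorem pD_bound (hD : Dom Λ g) {ch : ι → ℝ} (hch : ∀ i, |ch i| = 1) {η : ℝ}
    (hη : 0 < η) (hη1 : η ≤ 1) : ∃ C : ℝ, 0 ≤ C ∧ ∀ x ∈ Cfg Λ ι, ∀ i, Sep Λ η x i → ∀ v : ℂ,
      |pD g ch x i v| ≤ C * ‖v‖ := by
  obtain ⟨C, hC, h⟩ := energy_lip hD
  refine ⟨C * Fintype.card ι / (η / 2) ^ 4, by positivity, fun x hx i hs v => ?_⟩
  have h1 : HasDerivAt (fun t : ℝ => energy g ch (Function.update x i (x i + t • v)))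
      (pD g ch (Function.update x i (x i)) i v) 0 := hasDerivAt_update hD ch i (by simpa using hx)
  rw [Function.update_eq_self] at h1
  refine h1.le_of_lip' (by positivity) ?_
  have h2 : ∀ᶠ t : ℝ in 𝓝 0, ‖t • v‖ < η / 2 := by
    have h3 : Tendsto (fun t : ℝ => ‖t • v‖) (𝓝 0) (𝓝 ‖(0 : ℝ) • v‖) :=
      (Continuous.tendsto (by fun_prop) 0)
    rw [zero_smul, norm_zero] at h3
    exact h3.eventually_lt_const (by positivity)
  filter_upwards [h2] with t ht
  have h4 := h ι ch hch x i (x i) (x i + t • v) (η / 2) (by positivity) (by linarith)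
    (fun j => hx.1 j) (by
      intro w hw
      apply Sep.perturb hs
      have h5 : w ∈ segment ℝ (x i) (x i + t • v) := hw
      rw [segment_eq_image'] at h5
      obtain ⟨s, hs1, rfl⟩ := h5
      simp only [add_sub_cancel_left]
      rw [norm_smul, Real.norm_eq_abs, abs_of_nonneg hs1.1]
      calc s * ‖t • v‖ ≤ 1 * ‖t • v‖ := mul_le_mul_of_nonneg_right hs1.2 (norm_nonneg _)
        _ ≤ η / 2 := by rw [one_mul]; exact ht.le)
  rw [Real.norm_eq_abs]
  have h6 : (x i + (0 : ℝ) • v) = x i := by simp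
  rw [h6]
  refine h4.trans_eq ?_
  rw [add_sub_cancel_left, norm_smul, sub_zero]
  ring

private theorem pD_diff (hD : Dom Λ g) (ch : ι → ℝ) {x : ι → ℂ} (hx : x ∈ Cfg Λ ι) (j : ι)
    (e : ℂ) : DifferentiableAt ℝ (fun x => pD g ch x j e) x := by
  have h0 : (1 : WithTop ℕ∞) + 1 ≤ ∞ := by
    have : (1 : WithTop ℕ∞) + 1 = ((2 : ℕ∞) : WithTop ℕ∞) := by norm_num
    rw [this]
    exact WithTop.coe_le_coe.2 le_top
  have h1 : ContDiffAt ℝ 1 (fderiv ℝ (energy g ch)) x :=
    (energy_contDiffAt hD ch hx).fderiv_right (m := 1) h0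
  have h2 : DifferentiableAt ℝ (fderiv ℝ (energy g ch)) x := h1.differentiableAt one_ne_zero
  exact h2.clm_apply (differentiableAt_const _)

/-- Bound for the second derivatives at separated coordinates. -/
private theorem D2_bound (hD : Dom Λ g) {ch : ι → ℝ} (hch : ∀ i, |ch i| = 1) {η : ℝ}
    (hη : 0 < η) (hη1 : η ≤ 1) : ∃ C : ℝ, 0 ≤ C ∧ ∀ x ∈ Cfg Λ ι, ∀ i j, Sep Λ η x i →
      Sep Λ η x j → ∀ e e' : ℂ,
      |fderiv ℝ (fun x => pD g ch x j e') x (Pi.single i e)| ≤ C * ‖e‖ * ‖e'‖ := by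
  obtain ⟨C, hC, h⟩ := pD_lip hD
  refine ⟨C * Fintype.card ι / η ^ 4, by positivity, fun x hx i j hi hj e e' => ?_⟩
  have h1 : HasDerivAt (fun t : ℝ => pD g ch (x + t • (Pi.single i e : ι → ℂ)) j e')
      (fderiv ℝ (fun x => pD g ch x j e') x (Pi.single i e)) 0 :=
    (pD_diff hD ch hx j e').hasFDerivAt.hasLineDerivAt (Pi.single i e)
  refine h1.le_of_lip' (by positivity) ?_
  have h2 : ∀ᶠ t : ℝ in 𝓝 0, ‖t • e‖ < η / 2 := by
    have h3 : Tendsto (fun t : ℝ => ‖t • e‖) (𝓝 0) (𝓝 ‖(0 : ℝ) • e‖) :=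
      (Continuous.tendsto (by fun_prop) 0)
    rw [zero_smul, norm_zero] at h3
    exact h3.eventually_lt_const (by positivity)
  filter_upwards [h2] with t ht
  have h4 := h ι ch hch x hx i j η hη hη1 hi hj (x i + t • e) (by simpa using ht.le)
  rw [add_sub_cancel_left] at h4
  simp only [update_eq, zero_smul, add_zero]
  have h5 := ContinuousLinearMap.le_opNorm
    (pD g ch (Function.update x i (x i + t • e)) j - pD g ch x j) e'
  rw [sub_apply] at h5
  refine h5.trans ?_
  refine (mul_le_mul_of_nonneg_right h4 (norm_nonneg _)).trans_eq ?_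
  rw [norm_smul, sub_zero]
  ring


/-- A product of a derivative with a cutoff that vanishes where the coordinate is not
separated. -/
private theorem Bd.cut (hD : Dom Λ g) {ch : ι → ℝ} (hch : ∀ i, |ch i| = 1) {η : ℝ}
    (hη : 0 < η) (hη1 : η ≤ 1) {i j : ι} {e e' : ℂ} {a : (ι → ℂ) → ℝ} (ha : ContDiff ℝ 1 a)
    (h0 : ∀ x, ¬ Sep Λ η x j → a x = 0) :
    Bd Λ {x | Sep Λ η x i} (Pi.single i e) (fun x => a x * pD g ch x j e') := by
  obtain ⟨C1, hC1, h1⟩ := pD_bound hD hch hη hη1
  obtain ⟨C2, hC2, h2⟩ := D2_bound hD hch hη hη1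
  obtain ⟨_, A, hA⟩ := Bd.of_contDiff hD (K := {x | Sep Λ η x i}) (v := Pi.single i e) ha
  refine ⟨fun x hx => (ha.differentiable one_ne_zero x).mul (pD_diff hD ch hx j e'),
    A * (C1 * ‖e'‖) + A * (C2 * ‖e‖ * ‖e'‖) + C1 * ‖e'‖ * A, fun x hx hi => ?_⟩
  obtain ⟨hA1, hA2⟩ := hA x hx hi
  have hA0 : 0 ≤ A := (abs_nonneg _).trans hA1
  have h3 : HasFDerivAt (fun x => a x * pD g ch x j e')
      (a x • fderiv ℝ (fun x => pD g ch x j e') x + pD g ch x j e' • fderiv ℝ a x) x :=
    (ha.differentiable one_ne_zero x).hasFDerivAt.mul (pD_diff hD ch hx j e').hasFDerivAt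
  by_cases hj : Sep Λ η x j
  · have h4 := h1 x hx j hj e'
    have h5 := h2 x hx i j hi hj e e'
    have h6 : |a x| * |pD g ch x j e'| ≤ A * (C1 * ‖e'‖) :=
      mul_le_mul hA1 h4 (abs_nonneg _) hA0
    have h7 : |a x| * |fderiv ℝ (fun x => pD g ch x j e') x (Pi.single i e)| ≤
        A * (C2 * ‖e‖ * ‖e'‖) := mul_le_mul hA1 h5 (abs_nonneg _) hA0
    have h8 : |pD g ch x j e'| * |fderiv ℝ a x (Pi.single i e)| ≤ C1 * ‖e'‖ * A :=
      mul_le_mul h4 hA2 (abs_nonneg _) (by positivity)
    have h9 : 0 ≤ A * (C1 * ‖e'‖) := by positivity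
    have h10 : 0 ≤ A * (C2 * ‖e‖ * ‖e'‖) := by positivity
    have h11 : 0 ≤ C1 * ‖e'‖ * A := by positivity
    constructor
    · rw [abs_mul]; linarith
    · rw [h3.fderiv]
      simp only [add_apply, smul_apply, smul_eq_mul]
      refine (abs_add_le _ _).trans ?_
      rw [abs_mul, abs_mul]
      linarith
  · have h4 : a x = 0 := h0 x hj
    have h5 : fderiv ℝ a x = 0 := by
      have h6 : a =ᶠ[𝓝 x] fun _ => (0 : ℝ) := by
        filter_upwards [(isClosed_Sep η j).isOpen_compl.mem_nhds hj] with y hy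
        exact h0 y hy
      rw [h6.fderiv_eq]
      simp
    have h9 : 0 ≤ A * (C1 * ‖e'‖) := by positivity
    have h10 : 0 ≤ A * (C2 * ‖e‖ * ‖e'‖) := by positivity
    have h11 : 0 ≤ C1 * ‖e'‖ * A := by positivity
    constructor
    · show |a x * pD g ch x j e'| ≤ _
      rw [h4, zero_mul, abs_zero]; linarith
    · rw [h3.fderiv, h4, h5]
      simp only [zero_smul, smul_zero, add_zero, zero_apply, abs_zero]
      linarith

/-- smooth cutoffs -/
private theorem exists_alpha {δ : ℝ} (hδ : 0 < δ) :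
    ∃ a : ι → (ι → ℂ) → ℝ, (∀ j, ContDiff ℝ 1 (a j)) ∧ (∀ j x, ¬ Sep Λ (δ / 2) x j → a j x = 0) ∧
      (∀ j x, Sep Λ δ x j → a j x = 1) := by
  obtain ⟨κ, hκ1, hκ2, hκ3⟩ := exists_contMDiffMap_zero_one_of_isClosed (n := 1)
    (modelWithCornersSelf ℝ ℂ) (s := {z | infDist z Λᶜ ≤ δ / 2}) (t := {z | δ ≤ infDist z Λᶜ})
    (isClosed_le (continuous_infDist_pt _) continuous_const)
    (isClosed_le continuous_const (continuous_infDist_pt _))
    (by
      rw [Set.disjoint_left]
      intro z h1 h2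
      simp only [Set.mem_ofPred_eq] at h1 h2
      linarith)
  have hκ : ContDiff ℝ 1 (fun z => κ z) := by
    have := κ.contMDiff
    exact this.contDiff
  refine ⟨fun j x => κ (x j) * ∏ k ∈ Finset.univ.erase j,
    Real.smoothTransition ((‖x j - x k‖ ^ 2 / δ ^ 2 - 1 / 4) * (4 / 3)), fun j => ?_,
    fun j x h => ?_, fun j x h => ?_⟩
  · refine (hκ.comp (contDiff_apply ℝ ℂ j)).mul (contDiff_prod fun k _ => ?_)
    refine Real.smoothTransition.contDiff.comp ?_
    refine ContDiff.mul (ContDiff.sub (ContDiff.div_const ?_ _) contDiff_const) contDiff_const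
    exact ((contDiff_apply ℝ ℂ j).sub (contDiff_apply ℝ ℂ k)).norm_sq ℝ
  · simp only [Sep, not_and_or, not_forall, not_le] at h
    rcases h with h | ⟨k, hk, h⟩
    · have : κ (x j) = 0 := hκ1 h.le
      simp [this]
    · apply mul_eq_zero_of_right
      apply Finset.prod_eq_zero (i := k) (by simp [hk])
      apply Real.smoothTransition.zero_of_nonpos
      have h1 : ‖x j - x k‖ ^ 2 ≤ (δ / 2) ^ 2 := pow_le_pow_left₀ (norm_nonneg _) h.le 2
      have h2 : ‖x j - x k‖ ^ 2 / δ ^ 2 ≤ 1 / 4 := by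
        rw [div_le_iff₀ (by positivity)]
        linarith
      nlinarith
  · have : κ (x j) = 1 := hκ2 h.1
    simp only [this, one_mul]
    apply Finset.prod_eq_one
    intro k hk
    have h1 := h.2 k (Finset.ne_of_mem_erase hk)
    apply Real.smoothTransition.one_of_one_le
    have h2 : δ ^ 2 ≤ ‖x j - x k‖ ^ 2 := pow_le_pow_left₀ hδ.le h1 2
    have h3 : 1 ≤ ‖x j - x k‖ ^ 2 / δ ^ 2 := by
      rw [le_div_iff₀ (by positivity)]
      linarith
    linarith

private def dir (b : Bool) : ℂ := if b then 1 else Complex.I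

private theorem norm_dir (b : Bool) : ‖dir b‖ = 1 := by
  cases b <;> simp [dir]

private theorem opNorm_le_dir (L : ℂ →L[ℝ] ℝ) : ‖L‖ ≤ |L (dir true)| + |L (dir false)| := by
  refine L.opNorm_le_bound (by positivity) fun z => ?_
  have h1 : L z = z.re * L (dir true) + z.im * L (dir false) := by
    have h2 : z = z.re • (1 : ℂ) + z.im • Complex.I := by
      simp
    conv_lhs => rw [h2]
    rw [map_add, map_smul, map_smul]
    simp [dir]
  rw [h1, Real.norm_eq_abs]
  refine (abs_add_le _ _).trans ?_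
  rw [abs_mul, abs_mul, add_mul]
  have h3 := Complex.abs_re_le_norm z
  have h4 := Complex.abs_im_le_norm z
  have h5 := mul_le_mul_of_nonneg_right h3 (abs_nonneg (L (dir true)))
  have h6 := mul_le_mul_of_nonneg_right h4 (abs_nonneg (L (dir false)))
  linarith [mul_comm ‖z‖ |L (dir true)|, mul_comm ‖z‖ |L (dir false)|]


private theorem exists_theta {ρ : ℝ} (hρ : 0 < ρ) : ∃ Θ : ℝ → ℝ, ContDiff ℝ 1 Θ ∧
    (∀ s, 0 ≤ Θ s * s ∧ Θ s * s ≤ 1) ∧ (∀ s, ρ ^ 2 / 4 ≤ s → Θ s * s = 1) := by
  set T : ℝ → ℝ := fun s => Real.smoothTransition ((s - ρ ^ 2 / 16) * (16 / (3 * ρ ^ 2))) with hT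
  have hT1 : ContDiff ℝ 1 T := by
    refine Real.smoothTransition.contDiff.comp ?_
    exact (contDiff_id.sub contDiff_const).mul contDiff_const
  have hT0 : ∀ s, s ≤ ρ ^ 2 / 16 → T s = 0 := fun s hs => by
    apply Real.smoothTransition.zero_of_nonpos
    have : 0 < 16 / (3 * ρ ^ 2) := by positivity
    nlinarith
  have key : ∀ s, T s / s * s = T s := by
    intro s
    rcases eq_or_ne s 0 with rfl | hs
    · have := hT0 0 (by positivity)
      rw [this]; simp
    · field_simp
  refine ⟨fun s => T s / s, ?_, fun s => ?_, fun s hs => ?_⟩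
  · rw [contDiff_iff_contDiffAt]
    intro s
    rcases lt_or_ge 0 s with hs | hs
    · exact hT1.contDiffAt.div contDiffAt_id hs.ne'
    · have : (fun s => T s / s) =ᶠ[𝓝 s] fun _ => (0 : ℝ) := by
        have h1 : ∀ᶠ r in 𝓝 s, r < ρ ^ 2 / 16 :=
          eventually_lt_nhds (lt_of_le_of_lt hs (by positivity))
        filter_upwards [h1] with r hr
        rw [hT0 r hr.le, zero_div]
      exact contDiffAt_const.congr_of_eventuallyEq this
  · simp only [key]
    exact ⟨Real.smoothTransition.nonneg _, Real.smoothTransition.le_one _⟩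
  · simp only [key]
    apply Real.smoothTransition.one_of_one_le
    have h1 : 3 * ρ ^ 2 / 16 * (16 / (3 * ρ ^ 2)) = 1 := by field_simp
    have h2 : 0 < 16 / (3 * ρ ^ 2) := by positivity
    nlinarith

private theorem sqrt_lip {ε : ℝ} (hε : 0 < ε) (y z : ℝ) :
    |√(y ^ 2 + ε) - √(z ^ 2 + ε)| ≤ |y - z| := by
  have key : ∀ y z : ℝ, √(y ^ 2 + ε) ≤ |y - z| + √(z ^ 2 + ε) := by
    intro y z
    have h1 : |z| ≤ √(z ^ 2 + ε) := by
      rw [← Real.sqrt_sq_eq_abs]
      exact Real.sqrt_le_sqrt (by linarith)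
    have h2 : √(z ^ 2 + ε) ^ 2 = z ^ 2 + ε := Real.sq_sqrt (by positivity)
    rw [Real.sqrt_le_left (by positivity)]
    have h3 : (y - z) * z ≤ |y - z| * √(z ^ 2 + ε) := by
      calc (y - z) * z ≤ |(y - z) * z| := le_abs_self _
        _ = |y - z| * |z| := abs_mul _ _
        _ ≤ _ := mul_le_mul_of_nonneg_left h1 (abs_nonneg _)
    have h4 : |y - z| ^ 2 = (y - z) ^ 2 := sq_abs _
    nlinarith
  rw [abs_le]
  have h1 := key y z
  have h2 := key z y
  rw [abs_sub_comm] at h2
  constructor <;> linarith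

private theorem phi_deriv {ε : ℝ} (hε : 0 < ε) (a b y : ℝ) :
    HasDerivAt (fun y => (b - a) / 2 + (√((y - a) ^ 2 + ε) - √((y - b) ^ 2 + ε)) / 2)
      (((y - a) / √((y - a) ^ 2 + ε) - (y - b) / √((y - b) ^ 2 + ε)) / 2) y := by
  have h : ∀ c : ℝ, HasDerivAt (fun y => √((y - c) ^ 2 + ε)) ((y - c) / √((y - c) ^ 2 + ε)) y := by
    intro c
    have h1 : HasDerivAt (fun y => (y - c) ^ 2 + ε) (2 * (y - c)) y := by
      have := (((hasDerivAt_id y).sub_const c).pow 2).add_const ε
      simpa using this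
    have h2 := h1.sqrt (by positivity)
    convert h2 using 1
    field_simp
  exact (((h a).sub (h b)).div_const 2).const_add _

private theorem abs_div_sqrt_le {ε : ℝ} (hε : 0 < ε) (y : ℝ) : |y / √(y ^ 2 + ε)| ≤ 1 := by
  rw [abs_div, abs_of_pos (Real.sqrt_pos.2 (by positivity)), div_le_one (by positivity)]
  rw [← Real.sqrt_sq_eq_abs]
  exact Real.sqrt_le_sqrt (by linarith)

/-- From an integration by parts formula to differentiability of the distribution function. -/
private theorem ftc {X : Type} [MeasurableSpace X] (P : Measure X) {H w A : X → ℝ}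
    (hH : Measurable H) (hw : Integrable w P) (hA : Integrable A P)
    (hnull : ∀ E, P {x | H x = E} = 0)
    (h : ∀ φ : ℝ → ℝ, ContDiff ℝ 1 φ → (∃ M, ∀ y, |φ y| ≤ M ∧ |deriv φ y| ≤ M) →
      ∫ x, w x * deriv φ (H x) ∂P = - ∫ x, A x * φ (H x) ∂P) (E : ℝ) :
    DifferentiableAt ℝ (fun E' => ∫ x in {x | H x < E'}, w x ∂P) E := by
  have hne : ∀ a : ℝ, ∀ᵐ x ∂P, H x ≠ a := fun a => by
    rw [ae_iff]
    simpa using hnull a
  have hset : ∀ a : ℝ, MeasurableSet {x | H x < a} := fun a => measurableSet_lt hH measurable_const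
  -- step 1
  have step1 : ∀ a b : ℝ, (∫ x in {x | H x < b}, w x ∂P) - (∫ x in {x | H x < a}, w x ∂P) =
      - ∫ x, A x * ((b - a) / 2 + (|H x - a| - |H x - b|) / 2) ∂P := by
    intro a b
    have hε : ∀ n : ℕ, (0 : ℝ) < 1 / ((n : ℝ) + 1) := fun n => by positivity
    have hlim0 : Tendsto (fun n : ℕ => 1 / ((n : ℝ) + 1)) atTop (𝓝 0) :=
      tendsto_one_div_add_atTop_nhds_zero_nat
    have hsq : ∀ y : ℝ, Tendsto (fun n : ℕ => √(y ^ 2 + 1 / ((n : ℝ) + 1))) atTop (𝓝 |y|) := by
      intro y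
      have h1 : Tendsto (fun n : ℕ => √(y ^ 2 + 1 / ((n : ℝ) + 1))) atTop (𝓝 (√(y ^ 2 + 0))) :=
        (tendsto_const_nhds.add hlim0).sqrt
      rwa [add_zero, Real.sqrt_sq_eq_abs] at h1
    have key : ∀ n : ℕ, ∫ x, w x * (((H x - a) / √((H x - a) ^ 2 + 1 / ((n : ℝ) + 1)) -
        (H x - b) / √((H x - b) ^ 2 + 1 / ((n : ℝ) + 1))) / 2) ∂P =
        - ∫ x, A x * ((b - a) / 2 + (√((H x - a) ^ 2 + 1 / ((n : ℝ) + 1)) -
          √((H x - b) ^ 2 + 1 / ((n : ℝ) + 1))) / 2) ∂P := by
      intro n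
      have h1 := h (fun y => (b - a) / 2 + (√((y - a) ^ 2 + 1 / ((n : ℝ) + 1)) -
          √((y - b) ^ 2 + 1 / ((n : ℝ) + 1))) / 2) ?_ ?_
      · simp only [(phi_deriv (hε n) a b _).deriv] at h1
        exact h1
      · refine ContDiff.add contDiff_const (ContDiff.div_const (ContDiff.sub ?_ ?_) _)
        · refine ContDiff.sqrt (((contDiff_id.sub contDiff_const).pow 2).add contDiff_const) ?_
          intro y
          have := hε n
          positivity
        · refine ContDiff.sqrt (((contDiff_id.sub contDiff_const).pow 2).add contDiff_const) ?_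
          intro y
          have := hε n
          positivity
      · refine ⟨|b - a| + 1, fun y => ⟨?_, ?_⟩⟩
        · have h2 := sqrt_lip (hε n) (y - a) (y - b)
          have h3 : y - a - (y - b) = b - a := by ring
          rw [h3] at h2
          refine (abs_add_le _ _).trans ?_
          rw [abs_div, abs_div, abs_two]
          linarith
        · rw [(phi_deriv (hε n) a b y).deriv, abs_div, abs_two]
          have h2 := abs_div_sqrt_le (hε n) (y - a)
          have h3 := abs_div_sqrt_le (hε n) (y - b)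
          have h4 := abs_sub ((y - a) / √((y - a) ^ 2 + 1 / ((n : ℝ) + 1)))
            ((y - b) / √((y - b) ^ 2 + 1 / ((n : ℝ) + 1)))
          have h5 := abs_nonneg (b - a)
          linarith
    have hr : ∀ c y : ℝ, y ≠ c → Tendsto (fun n : ℕ =>
        (y - c) / √((y - c) ^ 2 + 1 / ((n : ℝ) + 1))) atTop (𝓝 ((y - c) / |y - c|)) := by
      intro c y hy
      exact tendsto_const_nhds.div (hsq (y - c)) (abs_ne_zero.2 (sub_ne_zero.2 hy))
    have hmeas : ∀ (n : ℕ) (c : ℝ), Measurable fun x => √((H x - c) ^ 2 + 1 / ((n : ℝ) + 1)) :=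
      fun n c => (((hH.sub_const c).pow_const 2).add_const _).sqrt
    have lim1 : Tendsto (fun n : ℕ => ∫ x, w x * (((H x - a) /
        √((H x - a) ^ 2 + 1 / ((n : ℝ) + 1)) -
        (H x - b) / √((H x - b) ^ 2 + 1 / ((n : ℝ) + 1))) / 2) ∂P) atTop
        (𝓝 (∫ x, (({x | H x < b}.indicator w x) - {x | H x < a}.indicator w x) ∂P)) := by
      refine tendsto_integral_of_dominated_convergence (fun x => |w x|) ?_ hw.abs ?_ ?_
      · intro n
        refine hw.aestronglyMeasurable.mul ?_
        exact (((((hH.sub_const a).div (hmeas n a)).sub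
          ((hH.sub_const b).div (hmeas n b))).div_const 2).aestronglyMeasurable)
      · intro n
        refine Eventually.of_forall fun x => ?_
        rw [norm_mul, Real.norm_eq_abs, Real.norm_eq_abs]
        refine mul_le_of_le_one_right (abs_nonneg _) ?_
        rw [abs_div, abs_two]
        have h2 := abs_div_sqrt_le (hε n) (H x - a)
        have h3 := abs_div_sqrt_le (hε n) (H x - b)
        have h4 := abs_sub ((H x - a) / √((H x - a) ^ 2 + 1 / ((n : ℝ) + 1)))
          ((H x - b) / √((H x - b) ^ 2 + 1 / ((n : ℝ) + 1)))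
        linarith
      · filter_upwards [hne a, hne b] with x hxa hxb
        have h1 := (((hr a (H x) hxa).sub (hr b (H x) hxb)).div_const 2).const_mul (w x)
        convert h1 using 2
        have hs : ∀ c : ℝ, H x ≠ c → (H x - c) / |H x - c| = if H x < c then -1 else 1 := by
          intro c hc
          split_ifs with h2
          · rw [abs_of_neg (sub_neg.2 h2), div_neg, div_self (sub_ne_zero.2 hc)]
          · rw [abs_of_pos (sub_pos.2 (lt_of_le_of_ne (not_lt.1 h2) hc.symm)),
              div_self (sub_ne_zero.2 hc)]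
        rw [hs a hxa, hs b hxb]
        simp only [Set.indicator_apply, Set.mem_ofPred_eq]
        by_cases ha : H x < a <;> by_cases hb : H x < b <;> simp [ha, hb] <;> ring
    have lim2 : Tendsto (fun n : ℕ => - ∫ x, A x * ((b - a) / 2 +
        (√((H x - a) ^ 2 + 1 / ((n : ℝ) + 1)) -
          √((H x - b) ^ 2 + 1 / ((n : ℝ) + 1))) / 2) ∂P) atTop
        (𝓝 (- ∫ x, A x * ((b - a) / 2 + (|H x - a| - |H x - b|) / 2) ∂P)) := by
      refine Tendsto.neg ?_
      refine tendsto_integral_of_dominated_convergence (fun x => |A x| * |b - a|) ?_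
        (hA.abs.mul_const _) ?_ ?_
      · intro n
        refine hA.aestronglyMeasurable.mul ?_
        exact ((((hmeas n a).sub (hmeas n b)).div_const 2).const_add _).aestronglyMeasurable
      · intro n
        refine Eventually.of_forall fun x => ?_
        rw [norm_mul, Real.norm_eq_abs, Real.norm_eq_abs]
        refine mul_le_mul_of_nonneg_left ?_ (abs_nonneg _)
        have h2 := sqrt_lip (hε n) (H x - a) (H x - b)
        have h3 : H x - a - (H x - b) = b - a := by ring
        rw [h3] at h2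
        refine (abs_add_le _ _).trans ?_
        rw [abs_div, abs_div, abs_two]
        linarith
      · refine Eventually.of_forall fun x => ?_
        exact ((((hsq (H x - a)).sub (hsq (H x - b))).div_const 2).const_add _).const_mul _
    have h2 := tendsto_nhds_unique (lim1.congr key) lim2
    rw [← h2, integral_sub (hw.indicator (hset b)) (hw.indicator (hset a)),
      integral_indicator (hset b), integral_indicator (hset a)]
  -- step 2
  have step2 : HasDerivAt (fun E' => ∫ x in {x | H x < E'}, w x ∂P)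
      (- ∫ x, A x * ({x | E < H x}.indicator (fun _ => (1 : ℝ)) x) ∂P) E := by
    rw [hasDerivAt_iff_tendsto_slope]
    have h1 : Tendsto (fun E' => - ∫ x, A x * (1 / 2 + (|H x - E| - |H x - E'|) /
        (2 * (E' - E))) ∂P) (𝓝[≠] E)
        (𝓝 (- ∫ x, A x * ({x | E < H x}.indicator (fun _ => (1 : ℝ)) x) ∂P)) := by
      refine Tendsto.neg ?_
      refine tendsto_integral_filter_of_dominated_convergence (fun x => |A x|) ?_ ?_ hA.abs ?_
      · refine Eventually.of_forall fun E' => ?_
        refine hA.aestronglyMeasurable.mul ?_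
        exact ((((hH.sub_const E).abs.sub (hH.sub_const E').abs).div_const
          _).const_add _).aestronglyMeasurable
      · filter_upwards [self_mem_nhdsWithin] with E' hE'
        refine Eventually.of_forall fun x => ?_
        rw [norm_mul, Real.norm_eq_abs, Real.norm_eq_abs]
        refine mul_le_of_le_one_right (abs_nonneg _) ?_
        have hne' : E' - E ≠ 0 := sub_ne_zero.2 hE'
        refine (abs_add_le _ _).trans ?_
        have h2 : |(|H x - E| - |H x - E'|)| ≤ |E' - E| := by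
          have := abs_abs_sub_abs_le_abs_sub (H x - E) (H x - E')
          have h3 : H x - E - (H x - E') = E' - E := by ring
          rwa [h3] at this
        have h3 : |(|H x - E| - |H x - E'|) / (2 * (E' - E))| ≤ 1 / 2 := by
          rw [abs_div, abs_mul, abs_two, div_le_iff₀ (by positivity)]
          linarith
        have h4 : |(1 / 2 : ℝ)| = 1 / 2 := abs_of_pos (by norm_num)
        linarith
      · filter_upwards [hne E] with x hx
        refine Tendsto.const_mul _ ?_
        refine tendsto_const_nhds.congr' ?_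
        rcases lt_or_gt_of_ne hx with h2 | h2
        · have h3 : ∀ᶠ E' in 𝓝[≠] E, H x < E' := nhdsWithin_le_nhds (lt_mem_nhds h2)
          filter_upwards [h3, self_mem_nhdsWithin] with E' h4 h5
          have hne' : E' - E ≠ 0 := sub_ne_zero.2 h5
          rw [abs_of_neg (sub_neg.2 h2), abs_of_neg (sub_neg.2 h4)]
          simp only [Set.indicator_apply, Set.mem_ofPred_eq, not_lt.2 h2.le, if_false]
          field_simp
          ring
        · have h3 : ∀ᶠ E' in 𝓝[≠] E, E' < H x := nhdsWithin_le_nhds (gt_mem_nhds h2)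
          filter_upwards [h3, self_mem_nhdsWithin] with E' h4 h5
          have hne' : E' - E ≠ 0 := sub_ne_zero.2 h5
          rw [abs_of_pos (sub_pos.2 h2), abs_of_pos (sub_pos.2 h4)]
          simp only [Set.indicator_apply, Set.mem_ofPred_eq, h2, if_true]
          field_simp
          ring
    refine h1.congr' ?_
    filter_upwards [self_mem_nhdsWithin] with E' hE'
    have hne' : E' - E ≠ 0 := sub_ne_zero.2 hE'
    rw [slope_def_field, step1 E E', neg_div, ← integral_div]
    congr 1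
    refine integral_congr_ae (Eventually.of_forall fun x => ?_)
    simp only
    field_simp
  exact step2.differentiableAt


/-- Integration by parts in one direction. -/
private theorem ibp_one (hD : Dom Λ g) (hm : Measurable (Function.uncurry g)) {ch : ι → ℝ}
    (hch : ∀ i, |ch i| = 1) {η : ℝ} (hη : 0 < η) (hη1 : η ≤ 1) (i : ι) (e : ℂ)
    {b : (ι → ℂ) → ℝ} (hb : Bd Λ {x | Sep Λ η x i} (Pi.single i e) b) (hbm : Measurable b)
    (hb0 : ∀ x, ¬ Sep Λ η x i → b x = 0) :
    (∃ C, ∀ x, |(Cfg Λ ι).indicator (fun x => fderiv ℝ b x (Pi.single i e)) x| ≤ C) ∧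
    ∀ φ : ℝ → ℝ, ContDiff ℝ 1 φ → (∃ M, ∀ y, |φ y| ≤ M ∧ |deriv φ y| ≤ M) →
    Integrable ((Cfg Λ ι).indicator (fun x => fderiv ℝ b x (Pi.single i e) *
      φ (energy g ch x) + b x * (deriv φ (energy g ch x) * pD g ch x i e))) (PP Λ ι) ∧
    ∫ x, (Cfg Λ ι).indicator (fun x => fderiv ℝ b x (Pi.single i e) * φ (energy g ch x) +
      b x * (deriv φ (energy g ch x) * pD g ch x i e)) x ∂(PP Λ ι) = 0 := by
  have hopen := isOpen_Cfg hD ι
  have hCm : MeasurableSet (Cfg Λ ι) := hopen.measurableSet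
  have hHm := measurable_energy hm ch
  have := isProb_PP hD ι
  obtain ⟨hbd, Cb, hCb⟩ := hb
  obtain ⟨C1, hC1, h1⟩ := pD_bound hD hch hη hη1
  have hloc : ∀ x, ¬ Sep Λ η x i → b =ᶠ[𝓝 x] fun _ => (0 : ℝ) := fun x hx => by
    filter_upwards [(isClosed_Sep η i).isOpen_compl.mem_nhds hx] with y hy
    exact hb0 y hy
  have hf0 : ∀ x, ¬ Sep Λ η x i → fderiv ℝ b x = 0 := fun x hx => by
    rw [(hloc x hx).fderiv_eq]
    simp
  have hbound : ∃ C, 0 ≤ C ∧ ∀ x ∈ Cfg Λ ι, |b x| ≤ C ∧ |fderiv ℝ b x (Pi.single i e)| ≤ C := by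
    refine ⟨|Cb|, abs_nonneg _, fun x hx => ?_⟩
    by_cases hs : Sep Λ η x i
    · exact ⟨(hCb x hx hs).1.trans (le_abs_self _), (hCb x hx hs).2.trans (le_abs_self _)⟩
    · rw [hb0 x hs, hf0 x hs]
      simp
  obtain ⟨C, hC, hCb'⟩ := hbound
  have hbp : ∀ x ∈ Cfg Λ ι, |b x * pD g ch x i e| ≤ C * (C1 * ‖e‖) := fun x hx => by
    by_cases hs : Sep Λ η x i
    · rw [abs_mul]
      exact mul_le_mul (hCb' x hx).1 (h1 x hx i hs e) (abs_nonneg _) hC
    · rw [hb0 x hs, zero_mul, abs_zero]
      positivity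
  refine ⟨⟨C, fun x => ?_⟩, fun φ hφ hM => ?_⟩
  · by_cases hx : x ∈ Cfg Λ ι
    · rw [indicator_of_mem hx]
      exact (hCb' x hx).2
    · rw [indicator_of_notMem hx, abs_zero]
      exact hC
  obtain ⟨M, hM⟩ := hM
  have hM0 : 0 ≤ M := (abs_nonneg _).trans (hM 0).1
  set F : (ι → ℂ) → ℝ := (Cfg Λ ι).indicator fun x => b x * φ (energy g ch x) with hF
  set F' : (ι → ℂ) → ℝ := (Cfg Λ ι).indicator (fun x => fderiv ℝ b x (Pi.single i e) *
      φ (energy g ch x) + b x * (deriv φ (energy g ch x) * pD g ch x i e)) with hF'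
  have hFm : Measurable F := (hbm.mul (hφ.continuous.measurable.comp hHm)).indicator hCm
  have hF'm : Measurable F' := by
    refine Measurable.indicator ?_ hCm
    refine ((measurable_fderiv_apply_const ℝ b _).mul (hφ.continuous.measurable.comp hHm)).add ?_
    exact hbm.mul (((hφ.continuous_deriv le_rfl).measurable.comp hHm).mul (measurable_pD ch i e))
  have hFb : ∀ x, |F x| ≤ C * M := fun x => by
    by_cases hx : x ∈ Cfg Λ ι
    · rw [hF, indicator_of_mem hx, abs_mul]
      exact mul_le_mul (hCb' x hx).1 (hM _).1 (abs_nonneg _) hC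
    · rw [hF, indicator_of_notMem hx, abs_zero]
      positivity
  have hF'b : ∀ x, |F' x| ≤ C * M + M * (C * (C1 * ‖e‖)) := fun x => by
    by_cases hx : x ∈ Cfg Λ ι
    · rw [hF', indicator_of_mem hx]
      refine (abs_add_le _ _).trans (add_le_add ?_ ?_)
      · rw [abs_mul]
        exact mul_le_mul (hCb' x hx).2 (hM _).1 (abs_nonneg _) hC
      · have : b x * (deriv φ (energy g ch x) * pD g ch x i e) =
          deriv φ (energy g ch x) * (b x * pD g ch x i e) := by ring
        rw [this, abs_mul]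
        exact mul_le_mul (hM _).2 (hbp x hx) (abs_nonneg _) hM0
    · rw [hF', indicator_of_notMem hx, abs_zero]
      positivity
  have hint : Integrable F' (PP Λ ι) := by
    refine Integrable.of_bound hF'm.aestronglyMeasurable (C * M + M * (C * (C1 * ‖e‖))) ?_
    exact Eventually.of_forall fun x => hF'b x
  refine ⟨hint, ?_⟩
  -- finite volume
  have hvol : volume (Cfg Λ ι) ≠ ⊤ := by
    have hc : IsCompact (Set.pi univ fun _ : ι => closure Λ) :=
      isCompact_univ_pi fun _ => hD.bdd.isCompact_closure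
    have hs : Cfg Λ ι ⊆ Set.pi univ fun _ : ι => closure Λ :=
      fun x hx i _ => subset_closure (hx.1 i)
    exact ((measure_mono hs).trans_lt hc.measure_lt_top).ne
  have hFi : Integrable F := by
    have h2 : IntegrableOn F (Cfg Λ ι) :=
      Measure.integrableOn_of_bounded hvol hFm.aestronglyMeasurable (M := C * M)
        (Eventually.of_forall fun x => hFb x)
    rwa [integrableOn_iff_integrable_of_support_subset Set.support_indicator_subset] at h2
  have hF'i : Integrable F' := by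
    have h2 : IntegrableOn F' (Cfg Λ ι) :=
      Measure.integrableOn_of_bounded hvol hF'm.aestronglyMeasurable
        (M := C * M + M * (C * (C1 * ‖e‖))) (Eventually.of_forall fun x => hF'b x)
    rwa [integrableOn_iff_integrable_of_support_subset Set.support_indicator_subset] at h2
  -- line derivative
  have hline : ∀ x, HasLineDerivAt ℝ F (F' x) x (Pi.single i e) := by
    intro x
    by_cases hx : x ∈ Cfg Λ ι
    · have h2 : HasFDerivAt (fun x => b x * φ (energy g ch x))
          (b x • (deriv φ (energy g ch x) • fderiv ℝ (energy g ch) x) +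
            φ (energy g ch x) • fderiv ℝ b x) x :=
        (hbd x hx).hasFDerivAt.mul (((hφ.differentiable one_ne_zero) _).hasDerivAt.comp_hasFDerivAt x
          ((energy_contDiffAt hD ch hx).differentiableAt (by simp)).hasFDerivAt)
      have h3 : F =ᶠ[𝓝 x] fun x => b x * φ (energy g ch x) := by
        filter_upwards [hopen.mem_nhds hx] with y hy
        rw [hF, indicator_of_mem hy]
      have h4 := (h2.congr_of_eventuallyEq h3).hasLineDerivAt (Pi.single i e)
      have h6 : F' x = (b x • (deriv φ (energy g ch x) • fderiv ℝ (energy g ch) x) +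
            φ (energy g ch x) • fderiv ℝ b x) (Pi.single i e) := by
        rw [hF', indicator_of_mem hx]
        simp only [add_apply, smul_apply, smul_eq_mul]
        have h5 : pD g ch x i e = fderiv ℝ (energy g ch) x (Pi.single i e) := rfl
        rw [h5]
        ring
      rw [h6]
      exact h4
    · have h2 : F' x = 0 := by rw [hF', indicator_of_notMem hx]
      rw [h2]
      have h3 : ∀ᶠ t : ℝ in 𝓝 0, F (x + t • (Pi.single i e : ι → ℂ)) = 0 := by
        by_cases hs : Sep Λ η x i
        · refine Eventually.of_forall fun t => ?_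
          rw [hF, indicator_of_notMem]
          intro h4
          apply hx
          rw [update_eq] at h4
          have hxi : x i ∈ Λ := by
            by_contra h5
            have h6 := infDist_zero_of_mem (x := x i) (s := Λᶜ) h5
            have h7 := hs.1
            rw [h6] at h7
            linarith
          refine ⟨fun j => ?_, fun j k hjk => ?_⟩
          · by_cases hj : j = i
            · rw [hj]; exact hxi
            · have := h4.1 j
              rwa [Function.update_of_ne hj] at this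
          · by_contra hne
            by_cases hj : j = i
            · subst hj
              have h5 := hs.2 k (Ne.symm hne)
              rw [hjk, sub_self, norm_zero] at h5
              linarith
            · by_cases hk : k = i
              · subst hk
                have h5 := hs.2 j hj
                rw [hjk, sub_self, norm_zero] at h5
                linarith
              · apply hne
                apply h4.2
                rw [Function.update_of_ne hj, Function.update_of_ne hk, hjk]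
        · have h4 : Tendsto (fun t : ℝ => x + t • (Pi.single i e : ι → ℂ)) (𝓝 0) (𝓝 x) := by
            have : Continuous fun t : ℝ => x + t • (Pi.single i e : ι → ℂ) := by fun_prop
            simpa using this.tendsto 0
          filter_upwards [h4.eventually (hloc x hs)] with t ht
          rw [hF]
          by_cases h5 : x + t • (Pi.single i e : ι → ℂ) ∈ Cfg Λ ι
          · rw [indicator_of_mem h5, ht, zero_mul]
          · rw [indicator_of_notMem h5]
      exact (hasDerivAt_const (0 : ℝ) (0 : ℝ)).congr_of_eventuallyEq h3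
  have hzero : ∫ x, F' x = 0 := by
    have h2 := integral_bilinear_hasLineDerivAt_right_eq_neg_left_of_integrable
      (μ := (volume : Measure (ι → ℂ))) (f := F) (f' := F') (g := fun _ => (1 : ℝ))
      (g' := fun _ => (0 : ℝ)) (v := Pi.single i e) (B := ContinuousLinearMap.mul ℝ ℝ)
      (by simpa using hF'i) (by simp) (by simpa using hFi) (fun x _ => hline x)
      (fun x _ => by
        have := (hasDerivAt_const (0 : ℝ) (1 : ℝ))
        exact this)
    simp only [ContinuousLinearMap.mul_apply', mul_zero, integral_zero, mul_one] at h2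
    linarith
  rw [PP_eq hD ι, integral_smul_measure]
  have h3 : ∫ x in Set.pi univ fun _ : ι => Λ, F' x = ∫ x, F' x := by
    refine setIntegral_eq_integral_of_forall_compl_eq_zero fun x hx => ?_
    rw [hF', indicator_of_notMem]
    intro h4
    exact hx fun j _ => h4.1 j
  rw [h3, hzero, smul_zero]

private theorem core (hD : Dom Λ g) (hm : Measurable (Function.uncurry g)) {ch : ι → ℝ}
    (hch : ∀ i, |ch i| = 1) {δ ρ : ℝ} (hδ : 0 < δ) (hδ1 : δ ≤ 1) (hρ : 0 < ρ) :
    ∃ χ : (ι → ℂ) → ℝ, Measurable χ ∧ (∀ x, 0 ≤ χ x ∧ χ x ≤ 1) ∧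
      (∀ x ∈ Cfg Λ ι, ∀ i, Sep Λ δ x i → ρ < ‖pD g ch x i‖ → χ x = 1) ∧
      ∀ f : (ι → ℂ) → ℝ, ContDiff ℝ 1 f → Integrable (fun x => f x * χ x) (PP Λ ι) ∧
        ∃ A : (ι → ℂ) → ℝ, Integrable A (PP Λ ι) ∧ ∀ φ : ℝ → ℝ, ContDiff ℝ 1 φ →
          (∃ M, ∀ y, |φ y| ≤ M ∧ |deriv φ y| ≤ M) →
          ∫ x, f x * χ x * deriv φ (energy g ch x) ∂(PP Λ ι) =
            - ∫ x, A x * φ (energy g ch x) ∂(PP Λ ι) := by
  have hopen := isOpen_Cfg hD ι
  have hCm : MeasurableSet (Cfg Λ ι) := hopen.measurableSet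
  have hHm := measurable_energy hm ch
  have := isProb_PP hD ι
  obtain ⟨a, ha1, ha2, ha3⟩ := exists_alpha (Λ := Λ) (ι := ι) hδ
  obtain ⟨Θ, hΘ1, hΘ2, hΘ3⟩ := exists_theta hρ
  set η := δ / 2 with hη
  have hη0 : 0 < η := by positivity
  have hη1 : η ≤ 1 := by linarith
  set β : ι → Bool → (ι → ℂ) → ℝ := fun j e x => a j x * pD g ch x j (dir e) with hβ
  set Q : (ι → ℂ) → ℝ := fun x => ∑ j, ∑ e, β j e x * β j e x with hQ
  have hβB : ∀ i e j e', Bd Λ {x | Sep Λ η x i} (Pi.single i (dir e)) (β j e') :=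
    fun i e j e' => Bd.cut hD hch hη0 hη1 (ha1 j) (ha2 j)
  have hβm : ∀ j e, Measurable (β j e) := fun j e =>
    (ha1 j).continuous.measurable.mul (measurable_pD ch j _)
  have hQB : ∀ i e, Bd Λ {x | Sep Λ η x i} (Pi.single i (dir e)) Q := fun i e =>
    Bd.sum _ fun j _ => Bd.sum _ fun e' _ => (hβB i e j e').mul (hβB i e j e')
  have hQm : Measurable Q := Finset.measurable_sum _ fun j _ => Finset.measurable_sum _ fun e _ =>
    (hβm j e).mul (hβm j e)
  have hΘm : Measurable fun x => Θ (Q x) := hΘ1.continuous.measurable.comp hQm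
  refine ⟨(Cfg Λ ι).indicator fun x => Θ (Q x) * Q x, (hΘm.mul hQm).indicator hCm, fun x => ?_,
    fun x hx i hs hρ' => ?_, fun f hf => ?_⟩
  · by_cases hx : x ∈ Cfg Λ ι
    · rw [indicator_of_mem hx]; exact hΘ2 _
    · rw [indicator_of_notMem hx]; simp
  · rw [indicator_of_mem hx]
    apply hΘ3
    have h1 := opNorm_le_dir (pD g ch x i)
    set p := pD g ch x i (dir true)
    set q := pD g ch x i (dir false)
    have h2 : ∑ e, β i e x * β i e x ≤ Q x :=
      Finset.single_le_sum (f := fun j => ∑ e, β j e x * β j e x)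
        (fun j _ => Finset.sum_nonneg fun e _ => mul_self_nonneg _) (Finset.mem_univ i)
    have h3 : ∑ e, β i e x * β i e x = p * p + q * q := by
      simp only [hβ, Fintype.sum_bool, ha3 i x hs, one_mul]
      rfl
    rw [h3] at h2
    have h4 : ρ < |p| + |q| := hρ'.trans_le h1
    have h5 : |p| ^ 2 = p * p := by rw [sq_abs]; ring
    have h6 : |q| ^ 2 = q * q := by rw [sq_abs]; ring
    nlinarith [sq_nonneg (|p| - |q|), abs_nonneg p, abs_nonneg q]
  · set b : ι → Bool → (ι → ℂ) → ℝ := fun i e x => f x * Θ (Q x) * (a i x * β i e x) with hb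
    have hbB : ∀ i e, Bd Λ {x | Sep Λ η x i} (Pi.single i (dir e)) (b i e) := fun i e =>
      ((Bd.of_contDiff hD hf).mul ((hQB i e).comp hΘ1)).mul
        ((Bd.of_contDiff hD (ha1 i)).mul (hβB i e i e))
    have hbm : ∀ i e, Measurable (b i e) := fun i e =>
      (hf.continuous.measurable.mul hΘm).mul ((ha1 i).continuous.measurable.mul (hβm i e))
    have hb0 : ∀ i e x, ¬ Sep Λ η x i → b i e x = 0 := fun i e x hs => by
      simp [hb, ha2 i x hs]
    have key := fun i e => ibp_one hD hm hch hη0 hη1 i (dir e) (hbB i e) (hbm i e) (hb0 i e)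
    have hsum : ∀ x, ∑ i, ∑ e, b i e x * pD g ch x i (dir e) = f x * (Θ (Q x) * Q x) := by
      intro x
      have h1 : ∀ i e, b i e x * pD g ch x i (dir e) =
          f x * Θ (Q x) * (β i e x * β i e x) := fun i e => by
        simp only [hb, hβ]; ring
      simp only [h1]
      simp only [← Finset.mul_sum]
      rw [mul_assoc]
    set A : (ι → ℂ) → ℝ := fun x => ∑ i, ∑ e,
      (Cfg Λ ι).indicator (fun x => fderiv ℝ (b i e) x (Pi.single i (dir e))) x with hA
    have hAi : Integrable A (PP Λ ι) := by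
      refine integrable_finsetSum _ fun i _ => integrable_finsetSum _ fun e _ => ?_
      obtain ⟨C, hC⟩ := (key i e).1
      refine Integrable.of_bound (Measurable.aestronglyMeasurable ?_) C
        (Eventually.of_forall fun x => hC x)
      exact (measurable_fderiv_apply_const ℝ _ _).indicator hCm
    have hfχ : Integrable (fun x => f x * (Cfg Λ ι).indicator (fun x => Θ (Q x) * Q x) x)
        (PP Λ ι) := by
      obtain ⟨_, C, hC⟩ := Bd.of_contDiff hD (K := (univ : Set (ι → ℂ))) (v := 0) hf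
      refine Integrable.of_bound (Measurable.aestronglyMeasurable ?_) |C|
        (Eventually.of_forall fun x => ?_)
      · exact hf.continuous.measurable.mul ((hΘm.mul hQm).indicator hCm)
      · by_cases hx : x ∈ Cfg Λ ι
        · rw [indicator_of_mem hx, norm_mul, Real.norm_eq_abs, Real.norm_eq_abs]
          have h1 := (hC x hx (mem_univ _)).1
          have h2 : |Θ (Q x) * Q x| ≤ 1 := by
            rw [abs_of_nonneg (hΘ2 _).1]; exact (hΘ2 _).2
          calc |f x| * |Θ (Q x) * Q x| ≤ |f x| * 1 := mul_le_mul_of_nonneg_left h2 (abs_nonneg _)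
            _ ≤ |C| := by rw [mul_one]; exact h1.trans (le_abs_self _)
        · rw [indicator_of_notMem hx, mul_zero, norm_zero]
          exact abs_nonneg _
    refine ⟨hfχ, A, hAi, fun φ hφ hM => ?_⟩
    have key2 := fun i e => (key i e).2 φ hφ hM
    have h1 : ∀ x, ∑ i, ∑ e, (Cfg Λ ι).indicator (fun x => fderiv ℝ (b i e) x
        (Pi.single i (dir e)) * φ (energy g ch x) + b i e x * (deriv φ (energy g ch x) *
          pD g ch x i (dir e))) x = A x * φ (energy g ch x) +
          f x * (Cfg Λ ι).indicator (fun x => Θ (Q x) * Q x) x * deriv φ (energy g ch x) := by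
      intro x
      by_cases hx : x ∈ Cfg Λ ι
      · simp only [indicator_of_mem hx, hA, Finset.sum_add_distrib, Finset.sum_mul]
        congr 1
        rw [← hsum x, Finset.sum_mul]
        refine Finset.sum_congr rfl fun i _ => ?_
        rw [Finset.sum_mul]
        refine Finset.sum_congr rfl fun e _ => ?_
        ring
      · simp [indicator_of_notMem hx, hA]
    have h2 : ∫ x, ∑ i, ∑ e, (Cfg Λ ι).indicator (fun x => fderiv ℝ (b i e) x
        (Pi.single i (dir e)) * φ (energy g ch x) + b i e x * (deriv φ (energy g ch x) *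
          pD g ch x i (dir e))) x ∂(PP Λ ι) = 0 := by
      rw [integral_finsetSum _ fun i _ => integrable_finsetSum _ fun e _ => (key2 i e).1]
      refine Finset.sum_eq_zero fun i _ => ?_
      rw [integral_finsetSum _ fun e _ => (key2 i e).1]
      exact Finset.sum_eq_zero fun e _ => (key2 i e).2
    simp only [h1] at h2
    obtain ⟨M, hM⟩ := hM
    have h3 : Integrable (fun x => A x * φ (energy g ch x)) (PP Λ ι) := by
      refine hAi.mul_bdd (c := M) ?_ ?_
      · exact (hφ.continuous.measurable.comp hHm).aestronglyMeasurable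
      · exact Eventually.of_forall fun x => (hM _).1
    have h4 : Integrable (fun x => f x * (Cfg Λ ι).indicator (fun x => Θ (Q x) * Q x) x *
        deriv φ (energy g ch x)) (PP Λ ι) := by
      refine hfχ.mul_bdd (c := M) ?_ ?_
      · exact ((hφ.continuous_deriv le_rfl).measurable.comp hHm).aestronglyMeasurable
      · exact Eventually.of_forall fun x => (hM _).2
    rw [integral_add h3 h4] at h2
    linarith

end IBP

open IBP in
/-- Away from the bad set the distribution function of the energy is differentiable. -/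
theorem smooth_part {Λ : Set ℂ} {g : ℂ → ℂ → ℝ} (hD : Dom Λ g)
    (hm : Measurable (Function.uncurry g)) {ι : Type} [Fintype ι] [DecidableEq ι] {ch : ι → ℝ}
    (hch : ∀ i, |ch i| = 1) (hnull : ∀ E : ℝ, (PP Λ ι) {x | energy g ch x = E} = 0)
    {δ ρ : ℝ} (hδ : 0 < δ) (hρ : 0 < ρ) :
    ∃ χ : (ι → ℂ) → ℝ, Measurable χ ∧ (∀ x, 0 ≤ χ x ∧ χ x ≤ 1) ∧
      (∀ x ∈ Cfg Λ ι, x ∉ Bad Λ g ch δ ρ → χ x = 1) ∧
      ∀ f : (ι → ℂ) → ℝ, ContDiff ℝ ∞ f → HasCompactSupport f → ∀ E : ℝ,
        DifferentiableAt ℝ (fun E' : ℝ => ∫ x in {x | energy g ch x < E'}, f x * χ x ∂(PP Λ ι))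
          E := by
  obtain ⟨χ, h1, h2, h3, h4⟩ := core hD hm hch (lt_min hδ one_pos) (min_le_right δ 1) hρ
  refine ⟨χ, h1, h2, fun x hx hb => ?_, fun f hf _ E => ?_⟩
  · have h5 : ∃ i, Sep Λ δ x i ∧ ρ < ‖pD g ch x i‖ := by
      by_contra h6
      push Not at h6
      exact hb ⟨hx, h6⟩
    obtain ⟨i, h6, h7⟩ := h5
    exact h3 x hx i (Sep.mono h6 (min_le_left _ _)) h7
  · have hf1 : ContDiff ℝ 1 f := hf.of_le (WithTop.coe_le_coe.2 le_top)
    obtain ⟨h5, A, h6, h7⟩ := h4 f hf1
    exact ftc (PP Λ ι) (measurable_energy hm ch) h5 h6 hnull h7 E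


end Pool.Agent.Lib.MP_fa244c_mp
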