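import Pool.Agent.Lib.MP_fa244c_mp.LBDefs
import Pool.Agent.Lib.MP_fa244c_mp.EntCh

set_option autoImplicit false

open MeasureTheory Filter Topology Set Metric

namespace Pool.Agent.Lib.MP_fa244c_mp

namespace LBE

theorem densM_prob {K : Set ℂ} {r : ℂ → ℝ} (hr : Nice K r) : IsProbabilityMeasure (densM r) := by
  have hint : Integrable r := by
    by_contra h
    have := integral_undef h
    rw [hr.int] at this
    norm_num at this
  constructor
  rw [densM, withDensity_apply _ MeasurableSet.univ, setLIntegral_univ,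
    ← ofReal_integral_eq_lintegral_ofReal hint (Eventually.of_forall hr.nonneg), hr.int,
    ENNReal.ofReal_one]

/-- The law of one coordinate. -/
noncomputable abbrev lw (π : Measure (ℂ × ℂ)) (rm : ℂ → ℝ) (m : ℕ) (i : Fin m ⊕ Fin m) :
    Measure (ℂ × ℂ) :=
  Sum.elim (fun _ => π) (fun _ => (densM rm).map (fun y => (y, y))) i

theorem lw_prob {K : Set ℂ} {π : Measure (ℂ × ℂ)} (hπ : IsProbabilityMeasure π) {rm : ℂ → ℝ}
    (hrm : Nice K rm) (m : ℕ) (i : Fin m ⊕ Fin m) : IsProbabilityMeasure (lw π rm m i) := by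
  rcases i with i | i
  · exact hπ
  · have := densM_prob hrm
    exact Measure.isProbabilityMeasure_map (by fun_prop)

theorem lineP_zero (p : ℂ × ℂ) : lineP 0 p = p.1 := by simp [lineP]

theorem lineP_one (p : ℂ × ℂ) : lineP 1 p = p.2 := by simp [lineP]

theorem map_diag_fst (rm : ℂ → ℝ) :
    ((densM rm).map (fun y : ℂ => (y, y))).map Prod.fst = densM rm := by
  rw [Measure.map_map measurable_fst (by fun_prop)]
  exact Measure.map_id

end LBE

open LBE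

theorem isProb_Om {K : Set ℂ} {b₀ : ℂ} {rb B : ℝ} {r₀ r₁ rm : ℂ → ℝ} {π : Measure (ℂ × ℂ)}
    (hπ : Coup K b₀ rb r₀ r₁ B π) (hrm : Nice K rm) (m : ℕ) : IsProbabilityMeasure (Om π rm m) := by
  have := fun i => lw_prob hπ.prob hrm m i
  unfold Om
  infer_instance

theorem ae_InK {K : Set ℂ} {b₀ : ℂ} {rb B : ℝ} {r₀ r₁ rm : ℂ → ℝ} {π : Measure (ℂ × ℂ)}
    (hK : IsCompact K) (hπ : Coup K b₀ rb r₀ r₁ B π) (hrm : Nice K rm) (m : ℕ) :
    ∀ᵐ ω ∂(Om π rm m), InK K b₀ rb ω := by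
  have hP := fun i => lw_prob hπ.prob hrm m i
  have hev : ∀ i, MeasurePreserving (Function.eval i) (Om π rm m) (lw π rm m i) := fun i =>
    measurePreserving_eval _ i
  have h1 : ∀ᵐ ω ∂(Om π rm m), ∀ i : Fin m, (fun p : ℂ × ℂ => p.1 ∈ K ∧ p.2 ∈ K ∧ (p.1 = p.2 ∨
      (p.1 ∈ closedBall b₀ rb ∧ p.2 ∈ closedBall b₀ rb))) (ω (Sum.inl i)) := by
    rw [ae_all_iff]
    intro i
    exact (hev (Sum.inl i)).quasiMeasurePreserving.ae hπ.supp
  have h2 : ∀ᵐ ω ∂(Om π rm m), ∀ i : Fin m, (fun p : ℂ × ℂ => p.1 ∈ K ∧ p.1 = p.2)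
      (ω (Sum.inr i)) := by
    rw [ae_all_iff]
    intro i
    refine (hev (Sum.inr i)).quasiMeasurePreserving.ae (p := fun p => p.1 ∈ K ∧ p.1 = p.2) ?_
    change ∀ᵐ p ∂((densM rm).map (fun y => (y, y))), p.1 ∈ K ∧ p.1 = p.2
    have hms : MeasurableSet {p : ℂ × ℂ | p.1 ∈ K ∧ p.1 = p.2} :=
      ((hK.measurableSet.preimage measurable_fst)).inter
        (measurableSet_eq_fun measurable_fst measurable_snd)
    rw [ae_map_iff (by fun_prop) hms]
    have hofr : Measurable (fun x => ENNReal.ofReal (rm x)) := hrm.meas.ennreal_ofReal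
    unfold densM
    rw [ae_withDensity_iff hofr]
    refine Eventually.of_forall fun x hx => ⟨?_, rfl⟩
    by_contra h
    exact hx (by rw [hrm.supp x h, ENNReal.ofReal_zero])
  filter_upwards [h1, h2] with ω g1 g2
  refine ⟨?_, fun j => (g2 j).2, fun k => (g1 k).2.2⟩
  rintro (i | i)
  · exact ⟨(g1 i).1, (g1 i).2.1⟩
  · exact ⟨(g2 i).1, (g2 i).2 ▸ (g2 i).1⟩

/-- The initial and final laws. -/
theorem map_path_zero {K : Set ℂ} {b₀ : ℂ} {rb B : ℝ} {r₀ r₁ rm : ℂ → ℝ} {π : Measure (ℂ × ℂ)}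
    (hπ : Coup K b₀ rb r₀ r₁ B π) (hrm : Nice K rm) (m : ℕ) :
    (Om π rm m).map (fun ω => pathP ω 0) = mixP r₀ rm m := by
  have hP := fun i => lw_prob hπ.prob hrm m i
  have e1 : (fun ω : Fin m ⊕ Fin m → ℂ × ℂ => pathP ω 0) =
      fun ω i => (fun _ => Prod.fst : (i : Fin m ⊕ Fin m) → ℂ × ℂ → ℂ) i (ω i) := by
    funext ω i
    rcases i with k | k
    · have : max (0 : ℝ) (min 1 (0 - (k : ℝ))) = 0 := by
        refine max_eq_left ((min_le_right _ _).trans ?_)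
        have : (0 : ℝ) ≤ ((k : ℕ) : ℝ) := Nat.cast_nonneg _
        linarith
      simp only [pathP, Sum.elim_inl, this, lineP_zero]
    · simp only [pathP, Sum.elim_inr]
  have hP2 : ∀ i, IsProbabilityMeasure ((lw π rm m i).map Prod.fst) := fun i =>
    Measure.isProbabilityMeasure_map (by fun_prop)
  rw [e1]
  unfold Om
  rw [Measure.pi_map_pi (fun i => by fun_prop)]
  unfold mixP
  congr 1
  funext i
  rcases i with k | k
  · exact hπ.fst
  · exact map_diag_fst rm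

theorem map_path_end {K : Set ℂ} {b₀ : ℂ} {rb B : ℝ} {r₀ r₁ rm : ℂ → ℝ} {π : Measure (ℂ × ℂ)}
    (hπ : Coup K b₀ rb r₀ r₁ B π) (hrm : Nice K rm) (m : ℕ) :
    (Om π rm m).map (fun ω => pathP ω m) = mixP r₁ rm m := by
  have hP := fun i => lw_prob hπ.prob hrm m i
  have e1 : (fun ω : Fin m ⊕ Fin m → ℂ × ℂ => pathP ω m) =
      fun ω i => (Sum.elim (fun _ => Prod.snd) (fun _ => Prod.fst) :
        (i : Fin m ⊕ Fin m) → ℂ × ℂ → ℂ) i (ω i) := by
    funext ω i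
    rcases i with k | k
    · have : max (0 : ℝ) (min 1 ((m : ℝ) - (k : ℝ))) = 1 := by
        have h1 : (((k : ℕ) + 1 : ℕ) : ℝ) ≤ (m : ℝ) := by exact_mod_cast k.isLt
        push_cast at h1
        rw [min_eq_left (by linarith)]
        simp
      simp only [pathP, Sum.elim_inl, this, lineP_one]
    · simp only [pathP, Sum.elim_inr]
  have hm1 : ∀ i, Measurable ((Sum.elim (fun _ => Prod.snd) (fun _ => Prod.fst) :
        (i : Fin m ⊕ Fin m) → ℂ × ℂ → ℂ) i) := by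
    rintro (i | i)
    · exact measurable_snd
    · exact measurable_fst
  have hP2 : ∀ i, IsProbabilityMeasure ((lw π rm m i).map ((Sum.elim (fun _ => Prod.snd)
      (fun _ => Prod.fst) : (i : Fin m ⊕ Fin m) → ℂ × ℂ → ℂ) i)) := fun i =>
    Measure.isProbabilityMeasure_map (hm1 i).aemeasurable
  rw [e1]
  unfold Om
  rw [Measure.pi_map_pi (fun i => (hm1 i).aemeasurable)]
  unfold mixP
  congr 1
  funext i
  rcases i with k | k
  · exact hπ.snd
  · exact map_diag_fst rm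

/-- Joint measurability of the path. -/
theorem measurable_pathP (m : ℕ) :
    Measurable (Function.uncurry (fun (ω : Fin m ⊕ Fin m → ℂ × ℂ) (t : ℝ) => pathP ω t)) := by
  refine measurable_pi_iff.2 fun i => ?_
  rcases i with k | k
  · change Measurable (fun q : (Fin m ⊕ Fin m → ℂ × ℂ) × ℝ =>
      lineP (max 0 (min 1 (q.2 - (k : ℝ)))) (q.1 (Sum.inl k)))
    unfold lineP
    fun_prop
  · change Measurable fun q : (Fin m ⊕ Fin m → ℂ × ℂ) × ℝ => (q.1 (Sum.inr k)).1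
    fun_prop

namespace LBE

/-- The power moment as a lower Lebesgue integral. -/
theorem lmoment {K : Set ℂ} {r : ℂ → ℝ} (hr : Nice K r) {V s : ℝ} (hV : 0 < V) (hs : 0 < s) :
    ∫⁻ y, ENNReal.ofReal ((V * r y) ^ s) ∂(densM r) =
      ENNReal.ofReal (∫ x, r x * (V * r x) ^ s) := by
  have hr_int : Integrable r := by
    by_contra h
    have := integral_undef h
    rw [hr.int] at this
    norm_num at this
  obtain ⟨B, hB⟩ := hr.bdd
  have hmeas : Measurable (fun x => (V * r x) ^ s) := (hr.meas.const_mul V).pow_const s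
  have hnn : ∀ x, 0 ≤ V * r x := fun x => mul_nonneg hV.le (hr.nonneg x)
  have hint : Integrable (fun x => r x * (V * r x) ^ s) := by
    refine (hr_int.mul_const ((V * |B|) ^ s)).mono' (hr.meas.mul hmeas).aestronglyMeasurable
      (Eventually.of_forall fun x => ?_)
    rw [Real.norm_of_nonneg (mul_nonneg (hr.nonneg x) (Real.rpow_nonneg (hnn x) s))]
    have h1 : V * r x ≤ V * |B| :=
      mul_le_mul_of_nonneg_left ((hB x).trans (le_abs_self B)) hV.le
    exact mul_le_mul_of_nonneg_left (Real.rpow_le_rpow (hnn x) h1 hs.le) (hr.nonneg x)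
  unfold densM
  rw [lintegral_withDensity_eq_lintegral_mul _ hr.meas.ennreal_ofReal hmeas.ennreal_ofReal,
    ofReal_integral_eq_lintegral_ofReal hint
      (Eventually.of_forall fun x => mul_nonneg (hr.nonneg x) (Real.rpow_nonneg (hnn x) s))]
  refine lintegral_congr fun x => ?_
  simp only [Pi.mul_apply]
  rw [← ENNReal.ofReal_mul (hr.nonneg x)]

/-- The factor of one coordinate. -/
noncomputable def fac (V : ℝ) (r₀ r₁ rm : ℂ → ℝ) {m : ℕ} (k : Fin m) (i : Fin m ⊕ Fin m)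
    (p : ℂ × ℂ) : ℝ :=
  Sum.elim (fun l => if l < k then V * r₁ p.2 else if k < l then V * r₀ p.1 else 1)
    (fun _ => V * rm p.1) i

theorem prodF_eq {Λ : Set ℂ} {r₀ r₁ rm : ℂ → ℝ} {m : ℕ} (k : Fin m)
    (ω : Fin m ⊕ Fin m → ℂ × ℂ) :
    prodF Λ r₀ r₁ rm k ω = ∏ i, fac (volume.real Λ) r₀ r₁ rm k i (ω i) := by
  rw [Fintype.prod_sum_type]
  unfold prodF fac
  simp only [Sum.elim_inl, Sum.elim_inr]
  congr 1
  rw [Finset.prod_filter, Finset.prod_filter, ← Finset.prod_mul_distrib]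
  refine Finset.prod_congr rfl fun l _ => ?_
  by_cases h1 : l < k
  · have h2 : ¬ k < l := not_lt.2 h1.le
    simp [h1, h2]
  · simp [h1]

theorem fac_meas {K : Set ℂ} {V : ℝ} {r₀ r₁ rm : ℂ → ℝ} (hn0 : Nice K r₀) (hn1 : Nice K r₁)
    (hrm : Nice K rm) {m : ℕ} (k : Fin m) (i : Fin m ⊕ Fin m) :
    Measurable (fac V r₀ r₁ rm k i) := by
  rcases i with l | l
  · by_cases h1 : l < k
    · have : fac V r₀ r₁ rm k (Sum.inl l) = fun p => V * r₁ p.2 := by
        funext p; simp [fac, h1]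
      rw [this]
      exact (hn1.meas.comp measurable_snd).const_mul V
    · by_cases h2 : k < l
      · have : fac V r₀ r₁ rm k (Sum.inl l) = fun p => V * r₀ p.1 := by
          funext p; simp [fac, h1, h2]
        rw [this]
        exact (hn0.meas.comp measurable_fst).const_mul V
      · have : fac V r₀ r₁ rm k (Sum.inl l) = fun _ => 1 := by
          funext p; simp [fac, h1, h2]
        rw [this]
        exact measurable_const
  · exact (hrm.meas.comp measurable_fst).const_mul V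

theorem fac_nonneg {K : Set ℂ} {V : ℝ} (hV : 0 < V) {r₀ r₁ rm : ℂ → ℝ} (hn0 : Nice K r₀)
    (hn1 : Nice K r₁) (hrm : Nice K rm) {m : ℕ} (k : Fin m) (i : Fin m ⊕ Fin m) (p : ℂ × ℂ) :
    0 ≤ fac V r₀ r₁ rm k i p := by
  have a0 := hn0.nonneg p.1
  have a1 := hn1.nonneg p.2
  have a2 := hrm.nonneg p.1
  rcases i with l | l
  · simp only [fac, Sum.elim_inl]
    split_ifs <;> positivity
  · simp only [fac, Sum.elim_inr]
    positivity

theorem fac_moment {K : Set ℂ} {b₀ : ℂ} {rb B : ℝ} {r₀ r₁ rm : ℂ → ℝ} {π : Measure (ℂ × ℂ)}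
    (hπ : Coup K b₀ rb r₀ r₁ B π) (hn0 : Nice K r₀) (hn1 : Nice K r₁) (hrm : Nice K rm)
    {V q a b : ℝ} (hV : 0 < V) (hq : 0 < q)
    (h0 : ∫ x, r₀ x * (V * r₀ x) ^ q ≤ Real.exp (q * a))
    (h1 : ∫ x, r₁ x * (V * r₁ x) ^ q ≤ Real.exp (q * a))
    (h2 : ∫ x, rm x * (V * rm x) ^ q ≤ Real.exp (q * b)) (ha : 0 ≤ a) {m : ℕ} (k : Fin m)
    (i : Fin m ⊕ Fin m) :
    ∫⁻ p, ENNReal.ofReal ((fac V r₀ r₁ rm k i p) ^ q) ∂(lw π rm m i) ≤
      ENNReal.ofReal (Real.exp (q * (Sum.elim (fun _ => a) (fun _ => b) i))) := by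
  have := hπ.prob
  rcases i with l | l
  · simp only [Sum.elim_inl]
    by_cases g1 : l < k
    · have e1 : ∫⁻ p, ENNReal.ofReal ((fac V r₀ r₁ rm k (Sum.inl l) p) ^ q) ∂π =
          ∫⁻ y, ENNReal.ofReal ((V * r₁ y) ^ q) ∂(densM r₁) := by
        rw [← hπ.snd, lintegral_map (((hn1.meas.const_mul V).pow_const q).ennreal_ofReal)
          measurable_snd]
        simp [fac, g1]
      rw [e1, lmoment hn1 hV hq]
      exact ENNReal.ofReal_le_ofReal h1
    · by_cases g2 : k < l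
      · have e1 : ∫⁻ p, ENNReal.ofReal ((fac V r₀ r₁ rm k (Sum.inl l) p) ^ q) ∂π =
            ∫⁻ y, ENNReal.ofReal ((V * r₀ y) ^ q) ∂(densM r₀) := by
          rw [← hπ.fst, lintegral_map (((hn0.meas.const_mul V).pow_const q).ennreal_ofReal)
            measurable_fst]
          simp [fac, g1, g2]
        rw [e1, lmoment hn0 hV hq]
        exact ENNReal.ofReal_le_ofReal h0
      · have e1 : ∫⁻ p, ENNReal.ofReal ((fac V r₀ r₁ rm k (Sum.inl l) p) ^ q) ∂π = 1 := by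
          simp [fac, g1, g2]
        rw [e1, ← ENNReal.ofReal_one]
        refine ENNReal.ofReal_le_ofReal (Real.one_le_exp ?_)
        positivity
  · have e1 : ∫⁻ p, ENNReal.ofReal ((fac V r₀ r₁ rm k (Sum.inr l) p) ^ q)
        ∂((densM rm).map (fun y => (y, y))) =
          ∫⁻ y, ENNReal.ofReal ((V * rm y) ^ q) ∂(densM rm) := by
      have hmm : Measurable (fun p : ℂ × ℂ =>
          ENNReal.ofReal ((fac V r₀ r₁ rm k (Sum.inr l) p) ^ q)) :=
        ((fac_meas hn0 hn1 hrm k (Sum.inr l)).pow_const q).ennreal_ofReal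
      rw [lintegral_map hmm (by fun_prop)]
      simp [fac]
    change ∫⁻ p, ENNReal.ofReal ((fac V r₀ r₁ rm k (Sum.inr l) p) ^ q)
        ∂((densM rm).map (fun y => (y, y))) ≤ _
    rw [e1, lmoment hrm hV hq]
    exact ENNReal.ofReal_le_ofReal h2

theorem prod_moment {Λ K : Set ℂ} {b₀ : ℂ} {rb B : ℝ} {r₀ r₁ rm : ℂ → ℝ} {π : Measure (ℂ × ℂ)}
    (hπ : Coup K b₀ rb r₀ r₁ B π) (hn0 : Nice K r₀) (hn1 : Nice K r₁) (hrm : Nice K rm)
    {q a b : ℝ} (hV : 0 < volume.real Λ) (hq : 0 < q)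
    (h0 : ∫ x, r₀ x * (volume.real Λ * r₀ x) ^ q ≤ Real.exp (q * a))
    (h1 : ∫ x, r₁ x * (volume.real Λ * r₁ x) ^ q ≤ Real.exp (q * a))
    (h2 : ∫ x, rm x * (volume.real Λ * rm x) ^ q ≤ Real.exp (q * b)) (ha : 0 ≤ a) {m : ℕ}
    (k : Fin m) :
    ∫⁻ ω, ENNReal.ofReal ((prodF Λ r₀ r₁ rm k ω) ^ q) ∂(Om π rm m) ≤
      ENNReal.ofReal (Real.exp (q * (m * (a + b)))) := by
  set V := volume.real Λ with hVdef
  have hP := fun i => lw_prob hπ.prob hrm m i
  have hX : ∀ i, Measurable (fun p : ℂ × ℂ => ENNReal.ofReal ((fac V r₀ r₁ rm k i p) ^ q)) :=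
    fun i => ((fac_meas hn0 hn1 hrm k i).pow_const q).ennreal_ofReal
  have hind := ProbabilityTheory.iIndepFun_pi (μ := fun i => lw π rm m i)
    (X := fun i p => ENNReal.ofReal ((fac V r₀ r₁ rm k i p) ^ q)) (fun i => (hX i).aemeasurable)
  have hprod := ProbabilityTheory.lintegral_prod_eq_prod_lintegral_of_indepFun Finset.univ
    (fun (i : Fin m ⊕ Fin m) (ω : Fin m ⊕ Fin m → ℂ × ℂ) =>
      ENNReal.ofReal ((fac V r₀ r₁ rm k i (ω i)) ^ q)) hind
    (fun i => (hX i).comp (measurable_pi_apply i))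
  have e1 : ∀ ω : Fin m ⊕ Fin m → ℂ × ℂ, ENNReal.ofReal ((prodF Λ r₀ r₁ rm k ω) ^ q) =
      ∏ i, ENNReal.ofReal ((fac V r₀ r₁ rm k i (ω i)) ^ q) := by
    intro ω
    rw [prodF_eq, ← Real.finsetProd_rpow _ _ (fun i _ => fac_nonneg hV hn0 hn1 hrm k i _),
      ENNReal.ofReal_prod_of_nonneg]
    intro i _
    exact Real.rpow_nonneg (fac_nonneg hV hn0 hn1 hrm k i _) q
  simp only [e1]
  unfold Om
  change ∫⁻ ω, ∏ i, ENNReal.ofReal ((fac V r₀ r₁ rm k i (ω i)) ^ q)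
    ∂(Measure.pi (fun i => lw π rm m i)) ≤ _
  rw [hprod]
  have e2 : ∀ i, ∫⁻ ω : Fin m ⊕ Fin m → ℂ × ℂ, ENNReal.ofReal ((fac V r₀ r₁ rm k i (ω i)) ^ q)
      ∂(Measure.pi (fun i => lw π rm m i)) ≤
        ENNReal.ofReal (Real.exp (q * (Sum.elim (fun _ => a) (fun _ => b) i))) := by
    intro i
    have := (measurePreserving_eval (fun i => lw π rm m i) i).lintegral_comp (hX i)
    simp only [Function.eval] at this
    rw [this]
    exact fac_moment hπ hn0 hn1 hrm hV hq h0 h1 h2 ha k i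
  refine (Finset.prod_le_prod' fun i _ => e2 i).trans (le_of_eq ?_)
  rw [← ENNReal.ofReal_prod_of_nonneg (fun i _ => (Real.exp_pos _).le), ← Real.exp_sum,
    Fintype.sum_sum_type]
  congr 2
  simp
  ring

end LBE

/-- The density products are controlled by the entropies. -/
theorem ent_event {Λ : Set ℂ} {g : ℂ → ℂ → ℝ} (hD : Dom Λ g) {K : Set ℂ} (hKΛ : K ⊆ Λ)
    {b₀ : ℂ} {rb B : ℝ} {r₀ r₁ rm : ℂ → ℝ} {π : Measure (ℂ × ℂ)}
    (hπ : Coup K b₀ rb r₀ r₁ B π) (hn0 : Nice K r₀) (hn1 : Nice K r₁) (hrm : Nice K rm)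
    {s t : ℝ} (h0 : s ≤ entS Λ r₀) (h1 : s ≤ entS Λ r₁) (ht : t ≤ entS Λ rm) {δ κ : ℝ}
    (hδ : 0 < δ) (hκ : 0 < κ) : ∃ m₀ : ℕ, ∀ m ≥ m₀,
      (Om π rm m).real {ω | ∃ k : Fin m, Real.exp (m * (-s - t + δ)) < prodF Λ r₀ r₁ rm k ω} ≤
        κ := by
  have hV : 0 < volume.real Λ := vol_pos hD
  obtain ⟨s0, hs0, h0'⟩ := small_moment hD hKΛ hn0 (δ := δ / 4) (by positivity)
  obtain ⟨s1, hs1, h1'⟩ := small_moment hD hKΛ hn1 (δ := δ / 4) (by positivity)
  obtain ⟨s2, hs2, h2'⟩ := small_moment hD hKΛ hrm (δ := δ / 4) (by positivity)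
  obtain ⟨q, hq, hq0, hq1, hq2⟩ : ∃ q : ℝ, 0 < q ∧ q ≤ s0 ∧ q ≤ s1 ∧ q ≤ s2 :=
    ⟨min s0 (min s1 s2), by positivity, min_le_left _ _,
      (min_le_right _ _).trans (min_le_left _ _), (min_le_right _ _).trans (min_le_right _ _)⟩
  have m0 : ∫ x, r₀ x * (volume.real Λ * r₀ x) ^ q ≤ Real.exp (q * (-s + δ / 4)) := by
    refine (h0' q hq hq0).trans (Real.exp_le_exp.2 ?_)
    gcongr
  have m1 : ∫ x, r₁ x * (volume.real Λ * r₁ x) ^ q ≤ Real.exp (q * (-s + δ / 4)) := by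
    refine (h1' q hq hq1).trans (Real.exp_le_exp.2 ?_)
    gcongr
  have m2 : ∫ x, rm x * (volume.real Λ * rm x) ^ q ≤ Real.exp (q * (-t + δ / 4)) := by
    refine (h2' q hq hq2).trans (Real.exp_le_exp.2 ?_)
    gcongr
  have ha : 0 ≤ -s + δ / 4 := by
    have := entS_nonpos hD (Nice.isDens hD hKΛ hn0)
    linarith
  set r : ℝ := Real.exp (-(q * δ / 2)) with hr
  have hr1 : r < 1 := by
    rw [hr, Real.exp_lt_one_iff]
    have : 0 < q * δ / 2 := by positivity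
    linarith
  have hlim := tendsto_self_mul_const_pow_of_lt_one (Real.exp_pos (-(q * δ / 2))).le hr1
  obtain ⟨m₀, hm₀⟩ := eventually_atTop.1 (hlim.eventually (ge_mem_nhds hκ))
  refine ⟨m₀, fun m hm => ?_⟩
  have hpr := isProb_Om hπ hrm m
  have hk : ∀ k : Fin m, (Om π rm m).real {ω | Real.exp (m * (-s - t + δ)) <
      prodF Λ r₀ r₁ rm k ω} ≤ r ^ m := by
    intro k
    have hmom := prod_moment hπ hn0 hn1 hrm hV hq m0 m1 m2 ha k
    have hF : Measurable (fun ω => ENNReal.ofReal ((prodF Λ r₀ r₁ rm k ω) ^ q)) := by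
      have : (fun ω : Fin m ⊕ Fin m → ℂ × ℂ => prodF Λ r₀ r₁ rm k ω) =
          fun ω => ∏ i, fac (volume.real Λ) r₀ r₁ rm k i (ω i) := funext (prodF_eq k)
      have h : Measurable (fun ω : Fin m ⊕ Fin m → ℂ × ℂ => prodF Λ r₀ r₁ rm k ω) := by
        rw [this]
        exact Finset.measurable_prod _ fun i _ =>
          (fac_meas hn0 hn1 hrm k i).comp (measurable_pi_apply i)
      exact (h.pow_const q).ennreal_ofReal
    have hmk := mul_meas_ge_le_lintegral (μ := Om π rm m) hF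
      (ENNReal.ofReal (Real.exp (q * (m * (-s - t + δ)))))
    have hsub : (Om π rm m) {ω | Real.exp (m * (-s - t + δ)) < prodF Λ r₀ r₁ rm k ω} ≤
        (Om π rm m) {ω | ENNReal.ofReal (Real.exp (q * (m * (-s - t + δ)))) ≤
          ENNReal.ofReal ((prodF Λ r₀ r₁ rm k ω) ^ q)} := by
      refine measure_mono fun ω hω => ?_
      simp only [mem_ofPred_eq] at hω ⊢
      refine ENNReal.ofReal_le_ofReal ?_
      rw [mul_comm q, Real.exp_mul]
      exact Real.rpow_le_rpow (Real.exp_pos _).le hω.le hq.le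
    have h3 : ENNReal.ofReal (Real.exp (q * (m * (-s - t + δ)))) *
        (Om π rm m) {ω | Real.exp (m * (-s - t + δ)) < prodF Λ r₀ r₁ rm k ω} ≤
          ENNReal.ofReal (Real.exp (q * (m * (-s + δ / 4 + (-t + δ / 4))))) :=
      (mul_le_mul_right hsub _).trans (hmk.trans hmom)
    have h4 := ENNReal.toReal_mono ENNReal.ofReal_ne_top h3
    rw [ENNReal.toReal_mul, ENNReal.toReal_ofReal (Real.exp_pos _).le,
      ENNReal.toReal_ofReal (Real.exp_pos _).le] at h4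
    rw [← le_div_iff₀' (Real.exp_pos _), ← Real.exp_sub] at h4
    refine h4.trans (le_of_eq ?_)
    rw [hr, ← Real.exp_nat_mul]
    congr 1
    ring
  have hun : {ω | ∃ k : Fin m, Real.exp (m * (-s - t + δ)) < prodF Λ r₀ r₁ rm k ω} =
      ⋃ k : Fin m, {ω | Real.exp (m * (-s - t + δ)) < prodF Λ r₀ r₁ rm k ω} := by
    ext ω; simp
  rw [hun]
  calc (Om π rm m).real (⋃ k : Fin m, {ω | Real.exp (m * (-s - t + δ)) <
        prodF Λ r₀ r₁ rm k ω}) ≤ ∑ k : Fin m, (Om π rm m).real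
          {ω | Real.exp (m * (-s - t + δ)) < prodF Λ r₀ r₁ rm k ω} :=
        measureReal_iUnion_fintype_le _
    _ ≤ ∑ _k : Fin m, r ^ m := Finset.sum_le_sum fun k _ => hk k
    _ = m * r ^ m := by simp
    _ ≤ κ := hm₀ m hm

namespace LBE

theorem pair_close {K : Set ℂ} {b₀ : ℂ} {rb B : ℝ} {r₀ r₁ rm : ℂ → ℝ}
    {π : Measure (ℂ × ℂ)} (hπ : Coup K b₀ rb r₀ r₁ B π) (hrm : Nice K rm) {m : ℕ} {η : ℝ}
    (hη : 0 < η) (hη1 : η ≤ 1) {a : ℂ × ℂ → ℂ} (ha : Continuous a) (k : Fin m)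
    {j : Fin m ⊕ Fin m} (hj : j ≠ Sum.inl k) :
    (Om π rm m) {ω | (ω (Sum.inl k)).1 ≠ (ω (Sum.inl k)).2 ∧ ∃ s : ℝ, 0 ≤ s ∧ s ≤ 1 ∧
      ‖lineP s (ω (Sum.inl k)) - a (ω j)‖ < η} ≤ ENNReal.ofReal (B * η) := by
  have hP := fun i => lw_prob hπ.prob hrm m i
  have hpr := isProb_Om hπ hrm m
  have hind := (ProbabilityTheory.iIndepFun_pi (μ := fun i => lw π rm m i)
    (X := fun _ p => p) (fun i => aemeasurable_id)).indepFun hj.symm
  have hmap := hind.map_prod_eq_prod_map_map (measurable_pi_apply _).aemeasurable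
    (measurable_pi_apply _).aemeasurable
  have e1 : (Measure.pi (fun i => lw π rm m i)).map (fun ω => ω (Sum.inl k)) = π :=
    (measurePreserving_eval (fun i => lw π rm m i) (Sum.inl k)).map_eq
  have e2 : (Measure.pi (fun i => lw π rm m i)).map (fun ω => ω j) = lw π rm m j :=
    (measurePreserving_eval (fun i => lw π rm m i) j).map_eq
  rw [e1, e2] at hmap
  set T : Set ((ℂ × ℂ) × (ℂ × ℂ)) := {x | x.1.1 ≠ x.1.2 ∧ ∃ s : ℝ, 0 ≤ s ∧ s ≤ 1 ∧
    ‖lineP s x.1 - a x.2‖ < η} with hT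
  have hTm : MeasurableSet T := by
    have ho1 : IsOpen {x : (ℂ × ℂ) × (ℂ × ℂ) | x.1.1 ≠ x.1.2} :=
      isOpen_ne_fun (by fun_prop) (by fun_prop)
    have ho2 : IsOpen {x : (ℂ × ℂ) × (ℂ × ℂ) | ∃ s : ℝ, 0 ≤ s ∧ s ≤ 1 ∧
        ‖lineP s x.1 - a x.2‖ < η} := by
      have : {x : (ℂ × ℂ) × (ℂ × ℂ) | ∃ s : ℝ, 0 ≤ s ∧ s ≤ 1 ∧
          ‖lineP s x.1 - a x.2‖ < η} = ⋃ s ∈ Icc (0 : ℝ) 1,
            {x | ‖lineP s x.1 - a x.2‖ < η} := by
        ext x
        simp only [mem_ofPred_eq, mem_iUnion, mem_Icc, exists_prop, and_assoc]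
      rw [this]
      refine isOpen_biUnion fun s _ => ?_
      refine isOpen_lt ?_ continuous_const
      unfold lineP
      fun_prop
    exact (ho1.inter ho2).measurableSet
  have e3 : (Om π rm m) {ω | (ω (Sum.inl k)).1 ≠ (ω (Sum.inl k)).2 ∧ ∃ s : ℝ, 0 ≤ s ∧ s ≤ 1 ∧
      ‖lineP s (ω (Sum.inl k)) - a (ω j)‖ < η} = (π.prod (lw π rm m j)) T := by
    have hmm : Measurable (fun ω : Fin m ⊕ Fin m → ℂ × ℂ => (ω (Sum.inl k), ω j)) := by
      fun_prop
    rw [← hmap, Measure.map_apply hmm hTm]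
    rfl
  have := hπ.prob
  have := hP j
  rw [e3, Measure.prod_apply_symm hTm]
  calc ∫⁻ y, π ((fun x => (x, y)) ⁻¹' T) ∂(lw π rm m j) ≤
        ∫⁻ _y, ENNReal.ofReal (B * η) ∂(lw π rm m j) := by
        refine lintegral_mono fun y => ?_
        exact hπ.close (a y) η hη hη1
    _ = ENNReal.ofReal (B * η) := by simp

end LBE

/-- Close encounters are unlikely. -/
theorem close_event {K : Set ℂ} (hK : IsCompact K) {b₀ : ℂ} {rb B : ℝ} {r₀ r₁ rm : ℂ → ℝ}
    {π : Measure (ℂ × ℂ)} (hπ : Coup K b₀ rb r₀ r₁ B π) (hrm : Nice K rm) {m : ℕ} {η : ℝ}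
    (hη : 0 < η) (hη1 : η ≤ 1) :
    (Om π rm m).real {ω | ¬ NoClose η ω} ≤ 4 * (m : ℝ) ^ 2 * (B * η) := by
  have hpr := isProb_Om hπ hrm m
  have hB := hπ.B_pos
  set S : Bool → Fin m → (Fin m ⊕ Fin m) → Set (Fin m ⊕ Fin m → ℂ × ℂ) := fun c k j =>
    if j = Sum.inl k then ∅ else
    {ω | (ω (Sum.inl k)).1 ≠ (ω (Sum.inl k)).2 ∧ ∃ s : ℝ, 0 ≤ s ∧ s ≤ 1 ∧
      ‖lineP s (ω (Sum.inl k)) - (bif c then (ω j).1 else (ω j).2)‖ < η} with hS
  have hS1 : ∀ c k j, (Om π rm m) (S c k j) ≤ ENNReal.ofReal (B * η) := by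
    intro c k j
    by_cases hj : j = Sum.inl k
    · simp [hS, hj]
    · simp only [hS, hj, if_false]
      cases c
      · exact pair_close hπ hrm hη hη1 continuous_snd k hj
      · exact pair_close hπ hrm hη hη1 continuous_fst k hj
  have hsub : {ω | ¬ NoClose η ω} ⊆ ⋃ x : Bool × Fin m × (Fin m ⊕ Fin m), S x.1 x.2.1 x.2.2 := by
    intro ω hω
    simp only [mem_ofPred_eq, NoClose] at hω
    push Not at hω
    obtain ⟨k, hk, j, hj, s, hs0, hs1, hs⟩ := hω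
    rw [mem_iUnion]
    by_cases h : η ≤ ‖lineP s (ω (Sum.inl k)) - (ω j).1‖
    · refine ⟨(false, k, j), ?_⟩
      simp only [hS, hj, if_false, mem_ofPred_eq, cond_false]
      exact ⟨hk, s, hs0, hs1, hs h⟩
    · refine ⟨(true, k, j), ?_⟩
      simp only [hS, hj, if_false, mem_ofPred_eq, cond_true]
      exact ⟨hk, s, hs0, hs1, not_le.1 h⟩
  have h1 : (Om π rm m) {ω | ¬ NoClose η ω} ≤ ENNReal.ofReal (4 * (m : ℝ) ^ 2 * (B * η)) := by
    calc (Om π rm m) {ω | ¬ NoClose η ω} ≤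
          (Om π rm m) (⋃ x : Bool × Fin m × (Fin m ⊕ Fin m), S x.1 x.2.1 x.2.2) :=
          measure_mono hsub
      _ ≤ ∑ x : Bool × Fin m × (Fin m ⊕ Fin m), (Om π rm m) (S x.1 x.2.1 x.2.2) :=
          measure_iUnion_fintype_le _ _
      _ ≤ ∑ _x : Bool × Fin m × (Fin m ⊕ Fin m), ENNReal.ofReal (B * η) :=
          Finset.sum_le_sum fun x _ => hS1 _ _ _
      _ = ENNReal.ofReal (4 * (m : ℝ) ^ 2 * (B * η)) := by
          rw [Finset.sum_const, Finset.card_univ, ← ENNReal.ofReal_nsmul]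
          congr 1
          simp only [Fintype.card_prod, Fintype.card_bool, Fintype.card_sum, Fintype.card_fin,
            nsmul_eq_mul]
          push_cast
          ring
  exact ENNReal.toReal_le_of_le_ofReal (by positivity) h1

end Pool.Agent.Lib.MP_fa244c_mp
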