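import Pool.Agent.Lib.MP_fa244c_mp.EBasic

set_option autoImplicit false

open MeasureTheory Filter Topology Set Metric

namespace Pool.Agent.Lib.MP_fa244c_mp

namespace Lip

open scoped ContDiff

/-- the logarithm of the modulus -/
noncomputable def lg (v : ℂ) : ℝ := Real.log ‖v‖

theorem lip1 {E : Type} [NormedAddCommGroup E] [NormedSpace ℝ E] {f : E → ℝ} {s : Set E}
    (hs : Convex ℝ s) {M : ℝ} (hf : ∀ w ∈ s, ContDiffAt ℝ ∞ f w)
    (hM : ∀ w ∈ s, ‖iteratedFDeriv ℝ 1 f w‖ ≤ M) {a b : E} (ha : a ∈ s) (hb : b ∈ s) :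
    |f b - f a| ≤ M * ‖b - a‖ := by
  rw [← Real.norm_eq_abs]
  refine hs.norm_image_sub_le_of_norm_fderiv_le (𝕜 := ℝ) (f := f)
    (fun w hw => (hf w hw).differentiableAt (by simp)) (fun w hw => ?_) ha hb
  rw [← norm_iteratedFDeriv_one]
  exact hM w hw

theorem lip2 {E : Type} [NormedAddCommGroup E] [NormedSpace ℝ E] {f : E → ℝ} {s : Set E}
    (hs : Convex ℝ s) {M : ℝ} (hf : ∀ w ∈ s, ContDiffAt ℝ ∞ f w)
    (hM : ∀ w ∈ s, ‖iteratedFDeriv ℝ 2 f w‖ ≤ M) {a b : E} (ha : a ∈ s) (hb : b ∈ s) :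
    ‖fderiv ℝ f b - fderiv ℝ f a‖ ≤ M * ‖b - a‖ := by
  refine hs.norm_image_sub_le_of_norm_fderiv_le (𝕜 := ℝ) (f := fderiv ℝ f)
    (fun w hw => ?_) (fun w hw => ?_) ha hb
  · exact ((hf w hw).fderiv_right (m := 1) (by norm_cast)).differentiableAt (by simp)
  · rw [← norm_iteratedFDeriv_one, norm_iteratedFDeriv_fderiv]
    exact hM w hw

theorem mem_of_le {Λ : Set ℂ} {η : ℝ} (hη : 0 < η) {w : ℂ} (h : η ≤ infDist w Λᶜ) : w ∈ Λ := by
  by_contra hcon
  have : infDist w Λᶜ = 0 := infDist_zero_of_mem hcon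
  linarith

theorem Gst_symm {Λ : Set ℂ} {g : ℂ → ℂ → ℝ} (hD : Dom Λ g) {x y : ℂ} (hx : x ∈ Λ)
    (hy : y ∈ Λ) : Gst g x y = Gst g y x := by
  rw [Gst_eq, Gst_eq, g_symm hD hx hy, norm_sub_rev]

/-- The energy as a function of one coordinate. -/
theorem expand {Λ : Set ℂ} {g : ℂ → ℂ → ℝ} (hD : Dom Λ g) {ι : Type} [Fintype ι]
    [DecidableEq ι] (ch : ι → ℝ) (x : ι → ℂ) (hx : ∀ b, x b ∈ Λ) (j : ι) {w : ℂ} (hw : w ∈ Λ) :
    energy g ch (Function.update x j w) =
      (1 / 2 * ∑ a ∈ Finset.univ.erase j, ∑ b ∈ Finset.univ.erase j,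
        ch a * ch b * Gst g (x a) (x b)) + ch j * ch j / 2 * g w w +
      ∑ b ∈ Finset.univ.erase j, ch j * ch b * (g w (x b) - lg (w - x b)) := by
  set u := Function.update x j w with hu
  have huj : u j = w := by simp [hu]
  have hub : ∀ b ∈ Finset.univ.erase j, u b = x b := by
    intro b hb
    rw [hu, Function.update_of_ne (Finset.ne_of_mem_erase hb)]
  unfold energy
  rw [← Finset.add_sum_erase Finset.univ _ (Finset.mem_univ j)]
  have h1 : ∀ a, ∑ b, ch a * ch b * Gst g (u a) (u b) = ch a * ch j * Gst g (u a) (u j) +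
      ∑ b ∈ Finset.univ.erase j, ch a * ch b * Gst g (u a) (u b) := fun a =>
    (Finset.add_sum_erase Finset.univ _ (Finset.mem_univ j)).symm
  simp only [h1]
  rw [Finset.sum_add_distrib, huj]
  have h2 : ∑ b ∈ Finset.univ.erase j, ch j * ch b * Gst g w (u b) =
      ∑ b ∈ Finset.univ.erase j, ch j * ch b * (g w (x b) - lg (w - x b)) := by
    refine Finset.sum_congr rfl fun b hb => ?_
    rw [hub b hb, Gst_eq]
    rfl
  have h3 : ∑ a ∈ Finset.univ.erase j, ch a * ch j * Gst g (u a) w =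
      ∑ b ∈ Finset.univ.erase j, ch j * ch b * (g w (x b) - lg (w - x b)) := by
    refine Finset.sum_congr rfl fun b hb => ?_
    rw [hub b hb, Gst_symm hD (hx b) hw, Gst_eq, mul_comm (ch b)]
    rfl
  have h4 : ∑ a ∈ Finset.univ.erase j, ∑ b ∈ Finset.univ.erase j,
      ch a * ch b * Gst g (u a) (u b) = ∑ a ∈ Finset.univ.erase j, ∑ b ∈ Finset.univ.erase j,
        ch a * ch b * Gst g (x a) (x b) := by
    refine Finset.sum_congr rfl fun a ha => Finset.sum_congr rfl fun b hb => ?_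
    rw [hub a ha, hub b hb]
  rw [h2, h3, h4]
  have h5 : Gst g w w = g w w := by simp [Gst]
  rw [h5]
  ring

theorem contDiffAt_lg {v : ℂ} (hv : v ≠ 0) : ContDiffAt ℝ ∞ lg v := by
  obtain ⟨C, -, hC⟩ := log_bound
  exact (hC v hv).1

/-- derivative of `G(·, y)` -/
noncomputable def dA (g : ℂ → ℂ → ℝ) (y w : ℂ) : ℂ →L[ℝ] ℝ :=
  fderiv ℝ (fun v => g v y) w - fderiv ℝ lg (w - y)

/-- derivative of `g` on the diagonal -/
noncomputable def dB (g : ℂ → ℂ → ℝ) (w : ℂ) : ℂ →L[ℝ] ℝ :=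
  (fderiv ℝ (fun p : ℂ × ℂ => g p.1 p.2) (w, w)).comp
    ((ContinuousLinearMap.id ℝ ℂ).prod (ContinuousLinearMap.id ℝ ℂ))

theorem hasFDerivAt_diag {Λ : Set ℂ} {g : ℂ → ℂ → ℝ} (hD : Dom Λ g) {w : ℂ} (hw : w ∈ Λ) :
    HasFDerivAt (fun w => g w w) (dB g w) w := by
  have h1 : HasFDerivAt (fun p : ℂ × ℂ => g p.1 p.2)
      (fderiv ℝ (fun p : ℂ × ℂ => g p.1 p.2) (w, w)) (w, w) :=
    ((gg_contDiffAt hD hw hw).differentiableAt (by simp)).hasFDerivAt
  have h2 : HasFDerivAt (fun w : ℂ => (w, w))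
      ((ContinuousLinearMap.id ℝ ℂ).prod (ContinuousLinearMap.id ℝ ℂ)) w :=
    (hasFDerivAt_id w).prodMk (hasFDerivAt_id w)
  exact HasFDerivAt.comp (g := fun p : ℂ × ℂ => g p.1 p.2) (f := fun w : ℂ => (w, w)) w h1 h2

theorem hasFDerivAt_G {Λ : Set ℂ} {g : ℂ → ℂ → ℝ} (hD : Dom Λ g) {w y : ℂ} (hw : w ∈ Λ)
    (hy : y ∈ Λ) (hne : w ≠ y) :
    HasFDerivAt (fun w => g w y - lg (w - y)) (dA g y w) w := by
  have h1 : HasFDerivAt (fun v => g v y) (fderiv ℝ (fun v => g v y) w) w := by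
    have h2 : ContDiffAt ℝ ∞ (fun v => g v y) w :=
      ContDiffAt.comp (g := fun p : ℂ × ℂ => g p.1 p.2) (f := fun v : ℂ => (v, y)) w
        (gg_contDiffAt hD hw hy) (contDiffAt_id.prodMk contDiffAt_const)
    exact (h2.differentiableAt (by simp)).hasFDerivAt
  have h3 : HasFDerivAt lg (fderiv ℝ lg (w - y)) (w - y) :=
    ((contDiffAt_lg (sub_ne_zero.2 hne)).differentiableAt (by simp)).hasFDerivAt
  have h4 : HasFDerivAt (fun w => lg (w - y)) (fderiv ℝ lg (w - y)) w := by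
    have h5 : HasFDerivAt (fun w : ℂ => w - y) (ContinuousLinearMap.id ℝ ℂ) w :=
      (hasFDerivAt_id w).sub_const y
    have h6 := HasFDerivAt.comp (g := lg) (f := fun w : ℂ => w - y) w h3 h5
    rwa [ContinuousLinearMap.comp_id] at h6
  exact h1.sub h4

/-- Formula for the partial derivatives. -/
theorem pD_formula {Λ : Set ℂ} {g : ℂ → ℂ → ℝ} (hD : Dom Λ g) {ι : Type} [Fintype ι]
    [DecidableEq ι] (ch : ι → ℝ) {x : ι → ℂ} (hx : x ∈ Cfg Λ ι) (j : ι) :
    pD g ch x j = (ch j * ch j / 2) • dB g (x j) +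
      ∑ b ∈ Finset.univ.erase j, (ch j * ch b) • dA g (x b) (x j) := by
  have h1 : HasFDerivAt (energy g ch) (fderiv ℝ (energy g ch) x) x :=
    ((energy_contDiffAt hD ch hx).differentiableAt (by simp)).hasFDerivAt
  have h2 : HasFDerivAt (Function.update x j)
      (ContinuousLinearMap.single ℝ (fun _ : ι => ℂ) j) (x j) := by
    rw [hasFDerivAt_pi']
    intro i
    by_cases hi : i = j
    · subst hi
      have e1 : (fun w : ℂ => Function.update x i w i) = fun w => w := by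
        funext w; simp
      have e2 : (ContinuousLinearMap.proj (R := ℝ) (φ := fun _ : ι => ℂ) i).comp
          (ContinuousLinearMap.single ℝ (fun _ : ι => ℂ) i) = ContinuousLinearMap.id ℝ ℂ := by
        ext w; simp
      rw [e1, e2]
      exact hasFDerivAt_id _
    · have e1 : (fun w : ℂ => Function.update x j w i) = fun _ => x i := by
        funext w; simp [Function.update_of_ne hi]
      have e2 : (ContinuousLinearMap.proj (R := ℝ) (φ := fun _ : ι => ℂ) i).comp
          (ContinuousLinearMap.single ℝ (fun _ : ι => ℂ) j) = 0 := by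
        ext w; simp [Pi.single_eq_of_ne hi]
      rw [e1, e2]
      exact hasFDerivAt_const _ _
  have h1' : HasFDerivAt (energy g ch) (fderiv ℝ (energy g ch) x) (Function.update x j (x j)) := by
    rw [Function.update_eq_self]; exact h1
  have h3 : HasFDerivAt (fun w => energy g ch (Function.update x j w)) (pD g ch x j) (x j) :=
    HasFDerivAt.comp (g := energy g ch) (f := Function.update x j) (x j) h1' h2
  have h4 : HasFDerivAt (fun w => (1 / 2 * ∑ a ∈ Finset.univ.erase j, ∑ b ∈ Finset.univ.erase j,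
        ch a * ch b * Gst g (x a) (x b)) + ch j * ch j / 2 * g w w +
      ∑ b ∈ Finset.univ.erase j, ch j * ch b * (g w (x b) - lg (w - x b)))
      ((ch j * ch j / 2) • dB g (x j) +
      ∑ b ∈ Finset.univ.erase j, (ch j * ch b) • dA g (x b) (x j)) (x j) := by
    refine HasFDerivAt.add (HasFDerivAt.const_add _ ?_) (HasFDerivAt.fun_sum fun b hb => ?_)
    · exact (hasFDerivAt_diag hD (hx.1 j)).const_mul _
    · exact (hasFDerivAt_G hD (hx.1 j) (hx.1 b)
        (fun h => Finset.ne_of_mem_erase hb (hx.2 h).symm)).const_mul _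
  have h5 : (fun w => energy g ch (Function.update x j w)) =ᶠ[𝓝 (x j)]
      (fun w => (1 / 2 * ∑ a ∈ Finset.univ.erase j, ∑ b ∈ Finset.univ.erase j,
        ch a * ch b * Gst g (x a) (x b)) + ch j * ch j / 2 * g w w +
      ∑ b ∈ Finset.univ.erase j, ch j * ch b * (g w (x b) - lg (w - x b))) := by
    filter_upwards [hD.isOpen.mem_nhds (hx.1 j)] with w hw
    exact expand hD ch x hx.1 j hw
  exact h3.unique (h4.congr_of_eventuallyEq h5)

theorem norm_comp_le {L : ℂ × ℂ →L[ℝ] ℝ} {T : ℂ →L[ℝ] ℂ × ℂ} (hT : ∀ v, ‖T v‖ ≤ ‖v‖) :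
    ‖L.comp T‖ ≤ ‖L‖ := by
  refine ContinuousLinearMap.opNorm_le_bound _ (norm_nonneg _) fun v => ?_
  rw [ContinuousLinearMap.comp_apply]
  exact (L.le_opNorm _).trans (mul_le_mul_of_nonneg_left (hT v) (norm_nonneg _))

theorem fderiv_left {Λ : Set ℂ} {g : ℂ → ℂ → ℝ} (hD : Dom Λ g) {w y : ℂ} (hw : w ∈ Λ)
    (hy : y ∈ Λ) : fderiv ℝ (fun v => g v y) w =
      (fderiv ℝ (fun p : ℂ × ℂ => g p.1 p.2) (w, y)).comp
        ((ContinuousLinearMap.id ℝ ℂ).prod (0 : ℂ →L[ℝ] ℂ)) := by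
  have h1 : HasFDerivAt (fun p : ℂ × ℂ => g p.1 p.2)
      (fderiv ℝ (fun p : ℂ × ℂ => g p.1 p.2) (w, y)) (w, y) :=
    ((gg_contDiffAt hD hw hy).differentiableAt (by simp)).hasFDerivAt
  have h2 : HasFDerivAt (fun w : ℂ => (w, y))
      ((ContinuousLinearMap.id ℝ ℂ).prod (0 : ℂ →L[ℝ] ℂ)) w :=
    (hasFDerivAt_id w).prodMk (hasFDerivAt_const y w)
  exact (HasFDerivAt.comp (g := fun p : ℂ × ℂ => g p.1 p.2) (f := fun w : ℂ => (w, y)) w
    h1 h2).fderiv

theorem infDist_ball {Λ : Set ℂ} {η : ℝ} {x w : ℂ} (h : η ≤ infDist x Λᶜ)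
    (hw : w ∈ closedBall x (η / 2)) : η / 2 ≤ infDist w Λᶜ := by
  have h1 := infDist_le_infDist_add_dist (x := x) (y := w) (s := Λᶜ)
  rw [mem_closedBall, dist_comm] at hw
  linarith

theorem norm_ball {η : ℝ} {x y v : ℂ} (h : η ≤ ‖x - y‖) (hv : v ∈ closedBall (x - y) (η / 2)) :
    η / 2 ≤ ‖v‖ := by
  rw [mem_closedBall, dist_eq_norm] at hv
  have h1 : ‖x - y‖ ≤ ‖v‖ + ‖v - (x - y)‖ := by
    have := norm_sub_le v (v - (x - y))
    simpa using this
  linarith

end Lip

open Lip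

/-- Lipschitz bound for the energy when one coordinate moves on a segment that stays away from
the complement of `Λ` and from the other coordinates. -/
theorem energy_lip {Λ : Set ℂ} {g : ℂ → ℂ → ℝ} (hD : Dom Λ g) : ∃ C : ℝ, 0 < C ∧
    ∀ (ι : Type) [Fintype ι] [DecidableEq ι] (ch : ι → ℝ), (∀ i, |ch i| = 1) →
      ∀ (x : ι → ℂ) (i : ι) (z z' : ℂ) (η : ℝ), 0 < η → η ≤ 1 → (∀ j, x j ∈ Λ) →
      (∀ w ∈ segment ℝ z z', η ≤ infDist w Λᶜ ∧ ∀ j, j ≠ i → η ≤ ‖w - x j‖) →
      |energy g ch (Function.update x i z') - energy g ch (Function.update x i z)| ≤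
        C * Fintype.card ι / η ^ 4 * ‖z' - z‖ := by
  obtain ⟨C₂, hC₂, h2⟩ := gg_bound hD
  obtain ⟨C₁, hC₁, h1⟩ := g1_bound hD
  obtain ⟨C₀, hC₀, h0⟩ := log_bound
  refine ⟨C₂ + C₁ + C₀, by positivity, ?_⟩
  intro ι _ _ ch hch x i z z' η hη hη1 hx hseg
  have hzs : z ∈ segment ℝ z z' := left_mem_segment ℝ z z'
  have hzs' : z' ∈ segment ℝ z z' := right_mem_segment ℝ z z'
  have hzΛ : ∀ w ∈ segment ℝ z z', w ∈ Λ := fun w hw => mem_of_le hη (hseg w hw).1
  have hη4 : 0 < η ^ 4 := by positivity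
  set n := ‖z' - z‖ with hn
  have hn0 : 0 ≤ n := norm_nonneg _
  -- the diagonal term
  have b2 : |g z' z' - g z z| ≤ C₂ / η ^ 4 * n := by
    have hs : ∀ p ∈ segment ℝ (z, z) (z', z'), p.1 = p.2 ∧ p.1 ∈ segment ℝ z z' := by
      rintro p ⟨a, b, ha, hb, hab, rfl⟩
      exact ⟨by simp, ⟨a, b, ha, hb, hab, by simp⟩⟩
    have h3 := lip1 (f := fun p : ℂ × ℂ => g p.1 p.2) (convex_segment (z, z) (z', z'))
      (M := C₂ / η ^ 4)
      (fun p hp => by
        obtain ⟨e1, e2⟩ := hs p hp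
        have : p = (p.1, p.1) := by ext1 <;> simp [e1]
        rw [this]
        exact gg_contDiffAt hD (hzΛ _ e2) (hzΛ _ e2))
      (fun p hp => by
        obtain ⟨e1, e2⟩ := hs p hp
        have : p = (p.1, p.1) := by ext1 <;> simp [e1]
        rw [this]
        exact (h2 η hη hη1 p.1 p.1 (hseg _ e2).1 (hseg _ e2).1).2 1 le_rfl (by norm_num))
      (left_mem_segment ℝ (z, z) (z', z')) (right_mem_segment ℝ (z, z) (z', z'))
    have h4 : ‖((z', z') : ℂ × ℂ) - (z, z)‖ = n := by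
      rw [Prod.mk_sub_mk, Prod.norm_mk, max_self]
    rw [h4] at h3
    exact h3
  have b1 : ∀ y ∈ Λ, |g z' y - g z y| ≤ C₁ / η ^ 4 * n := by
    intro y hy
    exact lip1 (f := fun w : ℂ => g w y) (convex_segment z z') (M := C₁ / η ^ 4)
      (fun w hw => (h1 η hη hη1 w y (hseg w hw).1 hy).2.1)
      (fun w hw => (h1 η hη hη1 w y (hseg w hw).1 hy).2.2 1 le_rfl (by norm_num)) hzs hzs'
  have b0 : ∀ j, j ≠ i → |lg (z' - x j) - lg (z - x j)| ≤ C₀ / η ^ 4 * n := by
    intro j hj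
    have hs : ∀ v ∈ segment ℝ (z - x j) (z' - x j), η ≤ ‖v‖ := by
      rintro v ⟨a, b, ha, hb, hab, rfl⟩
      have h3 : a • z + b • z' ∈ segment ℝ z z' := ⟨a, b, ha, hb, hab, rfl⟩
      have h4 := (hseg _ h3).2 j hj
      have h5 : a • (z - x j) + b • (z' - x j) = a • z + b • z' - x j := by
        rw [smul_sub, smul_sub]
        have : a • x j + b • x j = x j := by rw [← add_smul, hab, one_smul]
        calc a • z - a • x j + (b • z' - b • x j) = a • z + b • z' - (a • x j + b • x j) := by ring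
          _ = _ := by rw [this]
      rw [h5]
      exact h4
    have h3 := lip1 (f := lg) (convex_segment (z - x j) (z' - x j)) (M := C₀ / η ^ 4)
      (fun v hv => contDiffAt_lg (fun h => by
        have := hs v hv
        rw [h, norm_zero] at this
        linarith))
      (fun v hv => by
        have h4 := hs v hv
        have h5 : v ≠ 0 := fun h => by
          rw [h, norm_zero] at h4
          linarith
        refine ((h0 v h5).2 1 le_rfl (by norm_num)).trans ?_
        apply div_le_div_of_nonneg_left hC₀.le hη4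
        calc η ^ 4 ≤ η ^ 1 := pow_le_pow_of_le_one hη.le hη1 (by norm_num)
          _ ≤ ‖v‖ ^ 1 := by gcongr)
      (left_mem_segment ℝ (z - x j) (z' - x j)) (right_mem_segment ℝ (z - x j) (z' - x j))
    have h4 : z' - x j - (z - x j) = z' - z := by ring
    rwa [h4] at h3
  rw [expand hD ch x hx i (hzΛ z' hzs'), expand hD ch x hx i (hzΛ z hzs)]
  have hch2 : ∀ a b, |ch a * ch b| = 1 := fun a b => by rw [abs_mul, hch, hch, one_mul]
  have key : (1 / 2 * ∑ a ∈ Finset.univ.erase i, ∑ b ∈ Finset.univ.erase i,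
        ch a * ch b * Gst g (x a) (x b)) + ch i * ch i / 2 * g z' z' +
      ∑ b ∈ Finset.univ.erase i, ch i * ch b * (g z' (x b) - lg (z' - x b)) -
      ((1 / 2 * ∑ a ∈ Finset.univ.erase i, ∑ b ∈ Finset.univ.erase i,
        ch a * ch b * Gst g (x a) (x b)) + ch i * ch i / 2 * g z z +
      ∑ b ∈ Finset.univ.erase i, ch i * ch b * (g z (x b) - lg (z - x b))) =
      ch i * ch i / 2 * (g z' z' - g z z) + ∑ b ∈ Finset.univ.erase i,
        ch i * ch b * ((g z' (x b) - g z (x b)) - (lg (z' - x b) - lg (z - x b))) := by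
    have : ∑ b ∈ Finset.univ.erase i,
        ch i * ch b * ((g z' (x b) - g z (x b)) - (lg (z' - x b) - lg (z - x b))) =
        ∑ b ∈ Finset.univ.erase i, ch i * ch b * (g z' (x b) - lg (z' - x b)) -
        ∑ b ∈ Finset.univ.erase i, ch i * ch b * (g z (x b) - lg (z - x b)) := by
      rw [← Finset.sum_sub_distrib]
      exact Finset.sum_congr rfl fun b _ => by ring
    rw [this]
    ring
  rw [key]
  have t1 : |ch i * ch i / 2 * (g z' z' - g z z)| ≤ (C₂ + C₁ + C₀) / η ^ 4 * n := by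
    rw [abs_mul, abs_div, hch2]
    calc 1 / |(2 : ℝ)| * |g z' z' - g z z| ≤ 1 * |g z' z' - g z z| := by
          gcongr
          norm_num
      _ ≤ 1 * (C₂ / η ^ 4 * n) := by gcongr
      _ ≤ (C₂ + C₁ + C₀) / η ^ 4 * n := by
          rw [one_mul]
          gcongr
          linarith
  have t2 : |∑ b ∈ Finset.univ.erase i,
        ch i * ch b * ((g z' (x b) - g z (x b)) - (lg (z' - x b) - lg (z - x b)))| ≤
      ∑ _b ∈ Finset.univ.erase i, (C₂ + C₁ + C₀) / η ^ 4 * n := by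
    refine (Finset.abs_sum_le_sum_abs _ _).trans (Finset.sum_le_sum fun b hb => ?_)
    rw [abs_mul, hch2, one_mul]
    calc |(g z' (x b) - g z (x b)) - (lg (z' - x b) - lg (z - x b))| ≤
          |g z' (x b) - g z (x b)| + |lg (z' - x b) - lg (z - x b)| := abs_sub _ _
      _ ≤ C₁ / η ^ 4 * n + C₀ / η ^ 4 * n :=
          add_le_add (b1 _ (hx b)) (b0 b (Finset.ne_of_mem_erase hb))
      _ = (C₁ + C₀) / η ^ 4 * n := by ring
      _ ≤ (C₂ + C₁ + C₀) / η ^ 4 * n := by
          gcongr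
          linarith
  refine (abs_add_le _ _).trans ((add_le_add t1 t2).trans (le_of_eq ?_))
  rw [Finset.add_sum_erase Finset.univ (fun _ => (C₂ + C₁ + C₀) / η ^ 4 * n) (Finset.mem_univ i),
    Finset.sum_const, Finset.card_univ, nsmul_eq_mul]
  ring

/-- Lipschitz bound for the partial derivatives when a separated coordinate moves. -/
theorem pD_lip {Λ : Set ℂ} {g : ℂ → ℂ → ℝ} (hD : Dom Λ g) : ∃ C : ℝ, 0 < C ∧
    ∀ (ι : Type) [Fintype ι] [DecidableEq ι] (ch : ι → ℝ), (∀ i, |ch i| = 1) →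
      ∀ x ∈ Cfg Λ ι, ∀ (i j : ι) (η : ℝ), 0 < η → η ≤ 1 → Sep Λ η x i → Sep Λ η x j →
      ∀ z : ℂ, ‖z - x i‖ ≤ η / 2 →
      ‖pD g ch (Function.update x i z) j - pD g ch x j‖ ≤
        C * Fintype.card ι / η ^ 4 * ‖z - x i‖ := by
  obtain ⟨C₂, hC₂, h2⟩ := gg_bound hD
  obtain ⟨C₁, hC₁, h1⟩ := g1_bound hD
  obtain ⟨C₀, hC₀, h0⟩ := log_bound
  refine ⟨16 * C₂ + 16 * C₁ + 4 * C₀, by positivity, ?_⟩
  intro ι _ _ ch hch x hx i j η hη hη1 hi hj z hz
  have hη4 : 0 < η ^ 4 := by positivity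
  have hη2 : 0 < η / 2 := by positivity
  have hη21 : η / 2 ≤ 1 := by linarith
  set n := ‖z - x i‖ with hn
  have hn0 : 0 ≤ n := norm_nonneg _
  have hu : Function.update x i z ∈ Cfg Λ ι := hi.update_mem hx (by linarith)
  have hxs : x i ∈ closedBall (x i) (η / 2) := mem_closedBall_self hη2.le
  have hzs : z ∈ closedBall (x i) (η / 2) := by rw [mem_closedBall, dist_eq_norm]; exact hz
  have hb : ∀ w ∈ closedBall (x i) (η / 2), η / 2 ≤ infDist w Λᶜ := fun w hw =>
    infDist_ball hi.1 hw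
  have hbΛ : ∀ w ∈ closedBall (x i) (η / 2), w ∈ Λ := fun w hw => mem_of_le hη2 (hb w hw)
  have hch2 : ∀ a b, |ch a * ch b| = 1 := fun a b => by rw [abs_mul, hch, hch, one_mul]
  have e16 : ∀ c : ℝ, c / (η / 2) ^ 4 = 16 * c / η ^ 4 := fun c => by
    field_simp
    ring
  -- second derivative of the logarithm
  have hlog : ∀ a b c : ℂ, η ≤ ‖c‖ → a ∈ closedBall c (η / 2) → b ∈ closedBall c (η / 2) →
      ‖fderiv ℝ lg b - fderiv ℝ lg a‖ ≤ 4 * C₀ / η ^ 4 * ‖b - a‖ := by
    intro a b c hc ha hb'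
    have hlow : ∀ v ∈ closedBall c (η / 2), η / 2 ≤ ‖v‖ := by
      intro v hv
      have h3 := norm_ball (x := c) (y := 0) (η := η) (v := v) (by simpa using hc) (by simpa using hv)
      exact h3
    refine lip2 (convex_closedBall c (η / 2)) (fun v hv => contDiffAt_lg fun h => ?_)
      (fun v hv => ?_) ha hb'
    · have := hlow v hv
      rw [h, norm_zero] at this
      linarith
    · have h4 := hlow v hv
      have h5 : v ≠ 0 := fun h => by
        rw [h, norm_zero] at h4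
        linarith
      refine ((h0 v h5).2 2 (by norm_num) (by norm_num)).trans ?_
      calc C₀ / ‖v‖ ^ 2 ≤ C₀ / (η / 2) ^ 2 := by gcongr
        _ = 4 * C₀ / η ^ 2 := by field_simp; ring
        _ ≤ 4 * C₀ / η ^ 4 := by
            apply div_le_div_of_nonneg_left (by positivity) hη4
            exact pow_le_pow_of_le_one hη.le hη1 (by norm_num)
  -- bounds for dA and dB in the first variable
  have bB : ‖dB g z - dB g (x i)‖ ≤ 16 * C₂ / η ^ 4 * n := by
    have h3 := lip2 (f := fun p : ℂ × ℂ => g p.1 p.2)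
      ((convex_closedBall (x i) (η / 2)).prod (convex_closedBall (x i) (η / 2)))
      (M := C₂ / (η / 2) ^ 4)
      (fun p hp => gg_contDiffAt hD (hbΛ _ hp.1) (hbΛ _ hp.2))
      (fun p hp => (h2 (η / 2) hη2 hη21 p.1 p.2 (hb _ hp.1) (hb _ hp.2)).2 2 (by norm_num)
        (by norm_num)) (a := (x i, x i)) (b := (z, z)) ⟨hxs, hxs⟩ ⟨hzs, hzs⟩
    have h4 : ‖((z, z) : ℂ × ℂ) - (x i, x i)‖ = n := by
      rw [Prod.mk_sub_mk, Prod.norm_mk, max_self]
    rw [h4, e16] at h3
    unfold dB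
    rw [← ContinuousLinearMap.sub_comp]
    exact (norm_comp_le (fun v => by simp [Prod.norm_def])).trans h3
  have bA : ∀ y ∈ Λ, η ≤ ‖x i - y‖ → ‖dA g y z - dA g y (x i)‖ ≤
      (16 * C₁ + 4 * C₀) / η ^ 4 * n := by
    intro y hy hxy
    have h3 := lip2 (f := fun w : ℂ => g w y) (convex_closedBall (x i) (η / 2))
      (M := C₁ / (η / 2) ^ 4)
      (fun w hw => (h1 (η / 2) hη2 hη21 w y (hb w hw) hy).2.1)
      (fun w hw => (h1 (η / 2) hη2 hη21 w y (hb w hw) hy).2.2 2 (by norm_num) (by norm_num))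
      hxs hzs
    rw [e16] at h3
    have h4 := hlog (x i - y) (z - y) (x i - y) hxy (mem_closedBall_self hη2.le) (by
      rw [mem_closedBall, dist_eq_norm]
      have : z - y - (x i - y) = z - x i := by ring
      rw [this]
      exact hz)
    have h5 : z - y - (x i - y) = z - x i := by ring
    rw [h5] at h4
    unfold dA
    have h6 : fderiv ℝ (fun v => g v y) z - fderiv ℝ lg (z - y) -
        (fderiv ℝ (fun v => g v y) (x i) - fderiv ℝ lg (x i - y)) =
        (fderiv ℝ (fun v => g v y) z - fderiv ℝ (fun v => g v y) (x i)) -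
        (fderiv ℝ lg (z - y) - fderiv ℝ lg (x i - y)) := by abel
    rw [h6]
    refine (norm_sub_le _ _).trans ((add_le_add h3 h4).trans (le_of_eq ?_))
    ring
  rw [pD_formula hD ch hu j, pD_formula hD ch hx j]
  have hcard : (1 : ℝ) ≤ Fintype.card ι := by
    have : 0 < Fintype.card ι := Fintype.card_pos_iff.2 ⟨i⟩
    exact_mod_cast this
  by_cases hij : j = i
  · subst hij
    rw [Function.update_self]
    have e1 : ∑ b ∈ Finset.univ.erase j, (ch j * ch b) • dA g (Function.update x j z b) z =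
        ∑ b ∈ Finset.univ.erase j, (ch j * ch b) • dA g (x b) z :=
      Finset.sum_congr rfl fun b hb => by rw [Function.update_of_ne (Finset.ne_of_mem_erase hb)]
    rw [e1]
    have e2 : (ch j * ch j / 2) • dB g z + ∑ b ∈ Finset.univ.erase j, (ch j * ch b) • dA g (x b) z -
        ((ch j * ch j / 2) • dB g (x j) +
          ∑ b ∈ Finset.univ.erase j, (ch j * ch b) • dA g (x b) (x j)) =
        (ch j * ch j / 2) • (dB g z - dB g (x j)) +
          ∑ b ∈ Finset.univ.erase j, (ch j * ch b) • (dA g (x b) z - dA g (x b) (x j)) := by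
      simp only [smul_sub, Finset.sum_sub_distrib]
      abel
    rw [e2]
    have t1 : ‖(ch j * ch j / 2) • (dB g z - dB g (x j))‖ ≤
        (16 * C₂ + 16 * C₁ + 4 * C₀) / η ^ 4 * n := by
      rw [norm_smul, Real.norm_eq_abs, abs_div, hch2]
      calc 1 / |(2 : ℝ)| * ‖dB g z - dB g (x j)‖ ≤ 1 * ‖dB g z - dB g (x j)‖ := by
            gcongr
            norm_num
        _ ≤ 1 * (16 * C₂ / η ^ 4 * n) := by gcongr
        _ ≤ _ := by
            rw [one_mul]
            gcongr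
            linarith
    have t2 : ‖∑ b ∈ Finset.univ.erase j, (ch j * ch b) • (dA g (x b) z - dA g (x b) (x j))‖ ≤
        ∑ _b ∈ Finset.univ.erase j, (16 * C₂ + 16 * C₁ + 4 * C₀) / η ^ 4 * n := by
      refine (norm_sum_le _ _).trans (Finset.sum_le_sum fun b hb' => ?_)
      rw [norm_smul, Real.norm_eq_abs, hch2, one_mul]
      refine (bA (x b) (hx.1 b) (hi.2 b (Finset.ne_of_mem_erase hb'))).trans ?_
      gcongr
      linarith
    refine (norm_add_le _ _).trans ((add_le_add t1 t2).trans (le_of_eq ?_))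
    rw [Finset.add_sum_erase Finset.univ
      (fun _ => (16 * C₂ + 16 * C₁ + 4 * C₀) / η ^ 4 * n) (Finset.mem_univ j),
      Finset.sum_const, Finset.card_univ, nsmul_eq_mul]
    ring
  · rw [Function.update_of_ne hij]
    have hmem : i ∈ Finset.univ.erase j := Finset.mem_erase.2 ⟨fun h => hij h.symm, Finset.mem_univ _⟩
    rw [← Finset.add_sum_erase _ _ hmem, ← Finset.add_sum_erase _ _ hmem]
    have e1 : ∑ b ∈ (Finset.univ.erase j).erase i,
        (ch j * ch b) • dA g (Function.update x i z b) (x j) =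
        ∑ b ∈ (Finset.univ.erase j).erase i, (ch j * ch b) • dA g (x b) (x j) :=
      Finset.sum_congr rfl fun b hb => by rw [Function.update_of_ne (Finset.ne_of_mem_erase hb)]
    rw [e1, Function.update_self]
    have e2 : (ch j * ch j / 2) • dB g (x j) + ((ch j * ch i) • dA g z (x j) +
          ∑ b ∈ (Finset.univ.erase j).erase i, (ch j * ch b) • dA g (x b) (x j)) -
        ((ch j * ch j / 2) • dB g (x j) + ((ch j * ch i) • dA g (x i) (x j) +
          ∑ b ∈ (Finset.univ.erase j).erase i, (ch j * ch b) • dA g (x b) (x j))) =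
        (ch j * ch i) • (dA g z (x j) - dA g (x i) (x j)) := by
      rw [smul_sub]
      abel
    rw [e2, norm_smul, Real.norm_eq_abs, hch2, one_mul]
    have hxj : x j ∈ Λ := hx.1 j
    have h3 := lip2 (f := fun p : ℂ × ℂ => g p.1 p.2)
      ((convex_singleton (x j)).prod (convex_closedBall (x i) (η / 2)))
      (M := C₂ / (η / 2) ^ 4)
      (fun p hp => by
        have hp1 : p.1 = x j := hp.1
        have := gg_contDiffAt hD (x := p.1) (y := p.2) (by rw [hp1]; exact hxj) (hbΛ _ hp.2)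
        exact this)
      (fun p hp => by
        have hp1 : p.1 = x j := hp.1
        exact (h2 (η / 2) hη2 hη21 p.1 p.2 (by rw [hp1]; linarith [hj.1]) (hb _ hp.2)).2 2
          (by norm_num) (by norm_num)) (a := (x j, x i)) (b := (x j, z)) ⟨rfl, hxs⟩ ⟨rfl, hzs⟩
    have h4 : ‖((x j, z) : ℂ × ℂ) - (x j, x i)‖ = n := by
      rw [Prod.mk_sub_mk, Prod.norm_mk, sub_self, norm_zero, max_eq_right (norm_nonneg _)]
    rw [h4, e16] at h3
    have h5 : ‖fderiv ℝ (fun v => g v z) (x j) - fderiv ℝ (fun v => g v (x i)) (x j)‖ ≤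
        16 * C₂ / η ^ 4 * n := by
      rw [fderiv_left hD hxj (hbΛ _ hzs), fderiv_left hD hxj (hbΛ _ hxs),
        ← ContinuousLinearMap.sub_comp]
      exact (norm_comp_le (fun v => by simp [Prod.norm_def])).trans h3
    have h6 := hlog (x j - x i) (x j - z) (x j - x i) (hj.2 i (fun h => hij h.symm))
      (mem_closedBall_self hη2.le) (by
        rw [mem_closedBall, dist_eq_norm]
        have : x j - z - (x j - x i) = -(z - x i) := by ring
        rw [this, norm_neg]
        exact hz)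
    have h7 : x j - z - (x j - x i) = -(z - x i) := by ring
    rw [h7, norm_neg] at h6
    unfold dA
    have h8 : fderiv ℝ (fun v => g v z) (x j) - fderiv ℝ lg (x j - z) -
        (fderiv ℝ (fun v => g v (x i)) (x j) - fderiv ℝ lg (x j - x i)) =
        (fderiv ℝ (fun v => g v z) (x j) - fderiv ℝ (fun v => g v (x i)) (x j)) -
        (fderiv ℝ lg (x j - z) - fderiv ℝ lg (x j - x i)) := by abel
    rw [h8]
    refine (norm_sub_le _ _).trans ((add_le_add h5 h6).trans ?_)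
    have h9 : 16 * C₂ / η ^ 4 * n + 4 * C₀ / η ^ 4 * n = (16 * C₂ + 4 * C₀) * 1 / η ^ 4 * n := by
      ring
    rw [h9]
    have h10 : (16 * C₂ + 4 * C₀) * 1 ≤ (16 * C₂ + 16 * C₁ + 4 * C₀) * (Fintype.card ι : ℝ) := by
      apply mul_le_mul _ hcard (by norm_num) (by positivity)
      linarith
    gcongr

end Pool.Agent.Lib.MP_fa244c_mp
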