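import Pool.Agent.Lib.MP_fa244c_mp.LBDefs
import Pool.Agent.Lib.MP_fa244c_mp.Lip

set_option autoImplicit false

open MeasureTheory Filter Topology Set Metric

namespace Pool.Agent.Lib.MP_fa244c_mp

namespace LBLip

theorem abs_chg {m : ℕ} (i : Fin m ⊕ Fin m) : |chg m i| = 1 := by
  rcases i with i | i <;> simp [chg]

theorem exists_dist {Λ : Set ℂ} {g : ℂ → ℂ → ℝ} (hD : Dom Λ g) {K : Set ℂ} (hK : IsCompact K)
    (hKΛ : K ⊆ Λ) : ∃ d : ℝ, 0 < d ∧ d ≤ 1 ∧ ∀ w ∈ K, d ≤ infDist w Λᶜ := by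
  have hne : (Λᶜ : Set ℂ).Nonempty := by
    by_contra hcon
    rw [Set.not_nonempty_iff_eq_empty, Set.compl_empty_iff] at hcon
    have := hD.bdd
    rw [hcon] at this
    exact NormedSpace.unbounded_univ ℝ ℂ this
  rcases K.eq_empty_or_nonempty with hKe | hKn
  · exact ⟨1, one_pos, le_rfl, fun w hw => by rw [hKe] at hw; exact absurd hw (Set.notMem_empty w)⟩
  · obtain ⟨w₀, hw₀, hmin⟩ := hK.exists_isMinOn hKn
      (continuous_infDist_pt (Λᶜ)).continuousOn
    have hpos : 0 < infDist w₀ Λᶜ := by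
      rw [← hD.isOpen.isClosed_compl.notMem_iff_infDist_pos hne]
      simpa using hKΛ hw₀
    refine ⟨min (infDist w₀ Λᶜ) 1, lt_min hpos one_pos, min_le_right _ _, fun w hw => ?_⟩
    exact (min_le_left _ _).trans (hmin hw)

/-- configuration while the `k`-th vortex moves -/
noncomputable def base {m : ℕ} (ω : Fin m ⊕ Fin m → ℂ × ℂ) (k : Fin m) : Fin m ⊕ Fin m → ℂ :=
  Sum.elim (fun l => if l < k then (ω (Sum.inl l)).2 else (ω (Sum.inl l)).1)
    (fun j => (ω (Sum.inr j)).1)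

theorem lineP_zero (p : ℂ × ℂ) : lineP 0 p = p.1 := by simp [lineP]

theorem lineP_one (p : ℂ × ℂ) : lineP 1 p = p.2 := by simp [lineP]

theorem pathP_eq {m : ℕ} (ω : Fin m ⊕ Fin m → ℂ × ℂ) (k : Fin m) {t : ℝ}
    (ht : t ∈ Icc (k : ℝ) ((k : ℝ) + 1)) :
    pathP ω t = Function.update (base ω k) (Sum.inl k) (lineP (t - k) (ω (Sum.inl k))) := by
  funext j
  rcases j with l | j
  · by_cases hl : l = k
    · subst hl
      rw [Function.update_self]
      simp only [pathP, Sum.elim_inl]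
      rw [min_eq_right (by linarith [ht.2]), max_eq_right (by linarith [ht.1])]
    · rw [Function.update_of_ne (fun h => hl (Sum.inl.inj h))]
      simp only [pathP, base, Sum.elim_inl]
      rcases lt_or_gt_of_ne hl with h | h
      · have h1 : ((l : ℕ) : ℝ) + 1 ≤ ((k : ℕ) : ℝ) := by exact_mod_cast h
        rw [min_eq_left (by linarith [ht.1]), max_eq_right (by norm_num), lineP_one, if_pos h]
      · have h1 : ((k : ℕ) : ℝ) + 1 ≤ ((l : ℕ) : ℝ) := by exact_mod_cast h
        rw [min_eq_right (by linarith [ht.2]), max_eq_left (by linarith [ht.2]), lineP_zero,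
          if_neg (not_lt.2 h.le)]
  · rw [Function.update_of_ne (fun h => by cases h)]
    simp only [pathP, base, Sum.elim_inr]

theorem lineP_segment (p : ℂ × ℂ) {s t : ℝ} (hs : s ∈ Icc (0 : ℝ) 1) (ht : t ∈ Icc (0 : ℝ) 1)
    {w : ℂ} (hw : w ∈ segment ℝ (lineP s p) (lineP t p)) :
    ∃ σ : ℝ, 0 ≤ σ ∧ σ ≤ 1 ∧ w = lineP σ p := by
  obtain ⟨a, b, ha, hb, hab, rfl⟩ := hw
  refine ⟨a * s + b * t, by have := hs.1; have := ht.1; positivity, ?_, ?_⟩
  · have := hs.2; have := ht.2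
    nlinarith
  · unfold lineP
    have hb' : b = 1 - a := by linarith
    subst hb'
    simp only [Complex.real_smul]
    push_cast
    ring

/-- Lipschitz functions on consecutive intervals. -/
theorem glue {φ : ℝ → ℝ} {L : ℝ} {m : ℕ} (h : ∀ k : ℕ, k < m →
    ∀ s ∈ Icc (k : ℝ) ((k : ℝ) + 1), ∀ t ∈ Icc (k : ℝ) ((k : ℝ) + 1), |φ s - φ t| ≤ L * |s - t|) :
    ∀ s ∈ Icc (0 : ℝ) m, ∀ t ∈ Icc (0 : ℝ) m, |φ s - φ t| ≤ L * |s - t| := by
  have key : ∀ n : ℕ, n ≤ m → ∀ s ∈ Icc (0 : ℝ) n, ∀ t ∈ Icc (0 : ℝ) n, s ≤ t →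
      |φ s - φ t| ≤ L * |s - t| := by
    intro n
    induction n with
    | zero =>
      intro _ s hs t ht hst
      have h1 : s = 0 := le_antisymm (by simpa using hs.2) hs.1
      have h2 : t = 0 := le_antisymm (by simpa using ht.2) ht.1
      rw [h1, h2]
      simp
    | succ n ih =>
      intro hn s hs t ht hst
      push_cast at hs ht
      by_cases h1 : t ≤ n
      · exact ih (by omega) s ⟨hs.1, hst.trans h1⟩ t ⟨ht.1, h1⟩ hst
      · by_cases h2 : (n : ℝ) ≤ s
        · exact h n (by omega) s ⟨h2, hs.2⟩ t ⟨h2.trans hst, ht.2⟩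
        · push Not at h1 h2
          have e1 := ih (by omega) s ⟨hs.1, h2.le⟩ n ⟨Nat.cast_nonneg n, le_rfl⟩ h2.le
          have e2 := h n (by omega) n ⟨le_rfl, by linarith⟩ t ⟨h1.le, ht.2⟩
          have e3 : |φ s - φ t| ≤ |φ s - φ n| + |φ n - φ t| := abs_sub_le _ _ _
          have a1 : |s - n| = n - s := by rw [abs_of_nonpos (by linarith)]; ring
          have a2 : |(n : ℝ) - t| = t - n := by rw [abs_of_nonpos (by linarith)]; ring
          have a3 : |s - t| = t - s := by rw [abs_of_nonpos (by linarith)]; ring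
          rw [a1] at e1
          rw [a2] at e2
          rw [a3]
          calc |φ s - φ t| ≤ L * (n - s) + L * (t - n) := e3.trans (add_le_add e1 e2)
            _ = L * (t - s) := by ring
  intro s hs t ht
  rcases le_total s t with h1 | h1
  · exact key m le_rfl s hs t ht h1
  · rw [abs_sub_comm, abs_sub_comm s t]
    exact key m le_rfl t ht s hs h1

end LBLip

open LBLip

/-- The energy is Lipschitz along the path if there are no close encounters. -/
theorem path_lip {Λ : Set ℂ} {g : ℂ → ℂ → ℝ} (hD : Dom Λ g) {K : Set ℂ} (hK : IsCompact K)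
    (hKΛ : K ⊆ Λ) {b₀ : ℂ} {rb : ℝ} (hb : closedBall b₀ rb ⊆ K) :
    ∃ C : ℝ, 0 < C ∧ ∀ (m : ℕ) (η : ℝ), 0 < η → η ≤ 1 → ∀ ω : Fin m ⊕ Fin m → ℂ × ℂ,
      InK K b₀ rb ω → NoClose η ω → ∀ s ∈ Icc (0 : ℝ) m, ∀ t ∈ Icc (0 : ℝ) m,
      |energy g (chg m) (pathP ω s) - energy g (chg m) (pathP ω t)| ≤
        C * m / η ^ 4 * |s - t| := by
  obtain ⟨C, hC, hlip⟩ := energy_lip hD
  obtain ⟨d, hd, hd1, hdK⟩ := exists_dist hD hK hKΛ
  refine ⟨C * 2 / d ^ 4 * (2 * |rb| + 1), by positivity, ?_⟩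
  intro m η hη hη1 ω hω hno
  refine glue (φ := fun s => energy g (chg m) (pathP ω s)) ?_
  intro k hk s hs t ht
  have hηd : 0 < η * d := by positivity
  have hηd1 : η * d ≤ η := by nlinarith
  have hηd2 : η * d ≤ d := by nlinarith
  have hs' : s ∈ Icc (((⟨k, hk⟩ : Fin m) : ℕ) : ℝ) ((((⟨k, hk⟩ : Fin m) : ℕ) : ℝ) + 1) := hs
  have ht' : t ∈ Icc (((⟨k, hk⟩ : Fin m) : ℕ) : ℝ) ((((⟨k, hk⟩ : Fin m) : ℕ) : ℝ) + 1) := ht
  show |energy g (chg m) (pathP ω s) - energy g (chg m) (pathP ω t)| ≤ _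
  rw [pathP_eq ω ⟨k, hk⟩ hs', pathP_eq ω ⟨k, hk⟩ ht']
  set p := ω (Sum.inl ⟨k, hk⟩) with hp
  have hsk : s - (k : ℝ) ∈ Icc (0 : ℝ) 1 := ⟨by linarith [hs.1], by linarith [hs.2]⟩
  have htk : t - (k : ℝ) ∈ Icc (0 : ℝ) 1 := ⟨by linarith [ht.1], by linarith [ht.2]⟩
  have hm1 : (1 : ℝ) ≤ m := by
    have : 1 ≤ m := by omega
    exact_mod_cast this
  by_cases hp12 : p.1 = p.2
  · have e1 : ∀ σ : ℝ, lineP σ p = p.1 := by
      intro σ
      unfold lineP
      rw [← hp12, ← add_smul]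
      simp
    simp only [e1, sub_self, abs_zero]
    positivity
  · have hball : p.1 ∈ closedBall b₀ rb ∧ p.2 ∈ closedBall b₀ rb := by
      rcases hω.2.2 ⟨k, hk⟩ with h | h
      · exact absurd h hp12
      · exact h
    have hbase : ∀ j, base ω ⟨k, hk⟩ j ∈ Λ := by
      intro j
      apply hKΛ
      rcases j with l | j
      · simp only [base, Sum.elim_inl]
        split_ifs
        · exact (hω.1 _).2
        · exact (hω.1 _).1
      · exact (hω.1 _).1
    have hmain := hlip (Fin m ⊕ Fin m) (chg m) abs_chg (base ω ⟨k, hk⟩) (Sum.inl ⟨k, hk⟩)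
      (lineP (t - k) p) (lineP (s - k) p) (η * d) hηd (hηd1.trans hη1) hbase (by
        intro w hw
        obtain ⟨σ, hσ0, hσ1, rfl⟩ := lineP_segment p htk hsk hw
        have hwK : lineP σ p ∈ K := by
          apply hb
          have := convex_closedBall b₀ rb hball.1 hball.2 (by linarith : 0 ≤ 1 - σ) hσ0
            (by linarith)
          exact this
        refine ⟨hηd2.trans (hdK _ hwK), ?_⟩
        intro j hj
        obtain ⟨n1, n2⟩ := hno ⟨k, hk⟩ hp12 j hj σ hσ0 hσ1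
        rcases j with l | j
        · simp only [base, Sum.elim_inl]
          split_ifs
          · exact hηd1.trans n2
          · exact hηd1.trans n1
        · exact hηd1.trans n1)
    refine hmain.trans ?_
    have hcard : (Fintype.card (Fin m ⊕ Fin m) : ℝ) = 2 * m := by
      rw [Fintype.card_sum, Fintype.card_fin]
      push_cast
      ring
    rw [hcard]
    have hnorm : ‖lineP (s - k) p - lineP (t - k) p‖ ≤ (2 * |rb| + 1) * |s - t| := by
      have e1 : lineP (s - k) p - lineP (t - k) p = (s - t) • (p.2 - p.1) := by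
        unfold lineP
        simp only [Complex.real_smul]
        push_cast
        ring
      rw [e1, norm_smul, Real.norm_eq_abs, mul_comm]
      gcongr
      have h1 := hball.1
      have h2 := hball.2
      rw [mem_closedBall, dist_eq_norm] at h1 h2
      have h3 : ‖p.2 - p.1‖ ≤ ‖p.2 - b₀‖ + ‖p.1 - b₀‖ := by
        have := norm_sub_le (p.2 - b₀) (p.1 - b₀)
        simpa using this
      have h4 := le_abs_self rb
      linarith
    calc C * (2 * (m : ℝ)) / (η * d) ^ 4 * ‖lineP (s - k) p - lineP (t - k) p‖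
        ≤ C * (2 * (m : ℝ)) / (η * d) ^ 4 * ((2 * |rb| + 1) * |s - t|) := by gcongr
      _ = C * 2 / d ^ 4 * (2 * |rb| + 1) * m / η ^ 4 * |s - t| := by
          rw [mul_pow]
          field_simp

end Pool.Agent.Lib.MP_fa244c_mp
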