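import Pool.Agent.Lib.MP_fa244c_mp.NDDefs
import Pool.Agent.Lib.MP_fa244c_mp.Gain
import Pool.Agent.Lib.MP_fa244c_mp.Approx

set_option autoImplicit false

open MeasureTheory Filter Topology Set Metric

namespace Pool.Agent.Lib.MP_fa244c_mp

namespace NiceDataAux

/-- Move the fraction `θ` of the mass in the ball to `ν`. -/
noncomputable def mv (b : Set ℂ) (θ : ℝ) (ν r : ℂ → ℝ) : ℂ → ℝ :=
  fun x => r x - θ * b.indicator r x + θ * (∫ y in b, r y) * ν x

theorem mv_nice {b K : Set ℂ} (hb : MeasurableSet b) (hbK : b ⊆ K) {θ : ℝ} (hθ0 : 0 < θ)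
    (hθ1 : θ ≤ 1) {ν r : ℂ → ℝ} (hν : Nice b ν) (hr : Nice K r) : Nice K (mv b θ ν r) := by
  have hri : Integrable r := integrable_of_integral_eq_one hr.int
  have hνi : Integrable ν := integrable_of_integral_eq_one hν.int
  have hI : 0 ≤ ∫ y in b, r y := integral_nonneg fun y => hr.nonneg y
  have hI1 : ∫ y in b, r y ≤ 1 := by
    rw [← hr.int]
    exact setIntegral_le_integral hri (Eventually.of_forall fun y => hr.nonneg y)
  refine ⟨?_, fun x => ?_, fun x hx => ?_, ?_, ?_⟩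
  · exact (hr.meas.sub ((hr.meas.indicator hb).const_mul _)).add (hν.meas.const_mul _)
  · have h1 : b.indicator r x ≤ r x := Set.indicator_le_self' (fun _ _ => hr.nonneg _) x
    have h2 : 0 ≤ b.indicator r x := Set.indicator_nonneg (fun _ _ => hr.nonneg _) x
    have h3 : θ * b.indicator r x ≤ 1 * b.indicator r x := mul_le_mul_of_nonneg_right hθ1 h2
    have h4 : 0 ≤ θ * (∫ y in b, r y) * ν x := mul_nonneg (mul_nonneg hθ0.le hI) (hν.nonneg x)
    unfold mv
    linarith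
  · have h1 : b.indicator r x = 0 := Set.indicator_of_notMem (fun h => hx (hbK h)) _
    have h2 : ν x = 0 := hν.supp x fun h => hx (hbK h)
    unfold mv
    rw [h1, h2, hr.supp x hx]
    ring
  · unfold mv
    have e1 : Integrable (fun x => r x - θ * b.indicator r x) :=
      hri.sub ((hri.indicator hb).const_mul _)
    rw [integral_add e1 (hνi.const_mul _), integral_sub hri ((hri.indicator hb).const_mul _),
      integral_const_mul, integral_const_mul, integral_indicator hb, hr.int, hν.int]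
    ring
  · obtain ⟨B, hB⟩ := hr.bdd
    obtain ⟨B', hB'⟩ := hν.bdd
    refine ⟨B + |B'|, fun x => ?_⟩
    have h2 : 0 ≤ b.indicator r x := Set.indicator_nonneg (fun _ _ => hr.nonneg _) x
    have h3 : 0 ≤ θ * b.indicator r x := mul_nonneg hθ0.le h2
    have h4 : θ * (∫ y in b, r y) ≤ 1 := by nlinarith
    have h5 : θ * (∫ y in b, r y) * ν x ≤ 1 * ν x :=
      mul_le_mul_of_nonneg_right h4 (hν.nonneg x)
    have h6 := hB x
    have h7 := (hB' x).trans (le_abs_self B')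
    unfold mv
    linarith

end NiceDataAux

open NiceDataAux in
/-- Existence of the data for the lower bound. -/
theorem exists_niceData {Λ : Set ℂ} {g : ℂ → ℂ → ℝ} (hD : Dom Λ g)
    (hm : Measurable (Function.uncurry g)) {ε : ℝ} (hε : 0 < ε) {ρp ρm : ℂ → ℝ}
    (hρ : IsAdm Λ g ε ρp ρm) {δ : ℝ} (hδ : 0 < δ) :
    ∃ K b₀ rb θ r₀ r₁ rm ν, NiceData Λ g ε K b₀ rb θ r₀ r₁ rm ν ∧
      entS Λ ρp - δ ≤ entS Λ r₀ ∧ entS Λ ρp - δ ≤ entS Λ r₁ ∧ entS Λ ρm - δ ≤ entS Λ rm := by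
  obtain ⟨hρp, hρm, hE⟩ := hρ
  obtain ⟨b₀, rb, θ, ν, hsub, hrb, hθ, hθ1, hν, hdens, hlt, hent⟩ :=
    gain hD hm hρp hρm (half_pos hδ)
  have hEpos : 0 < enE g ρp ρm := by rw [hE]; linarith
  obtain ⟨K, r, s, C, hK, hN, hen, hbd, hr, hs⟩ :=
    approx hD hm hρp hρm hEpos (isCompact_closedBall b₀ rb) hsub
  set b : Set ℂ := closedBall b₀ rb with hb
  have hbm : MeasurableSet b := isClosed_closedBall.measurableSet
  have hri : ∀ n, Integrable (r n) := fun n => integrable_of_integral_eq_one (hN n).1.int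
  have hρpi : Integrable ρp := integrable_of_integral_eq_one hρp.int
  have hind0 : ∀ x : ℂ, (0 : ℝ) ≤ Λ.indicator (1 : ℂ → ℝ) x := fun x =>
    Set.indicator_nonneg (fun _ _ => zero_le_one) x
  obtain ⟨B, hB⟩ := hν.bdd
  -- convergence of the mass in the ball
  have hmass : Tendsto (fun n => ∫ y in b, r n y) atTop (𝓝 (∫ y in b, ρp y)) := by
    refine tendsto_integral_of_dominated_convergence
      (fun x => 2 * ρp x + C * Λ.indicator (1 : ℂ → ℝ) x)
      (fun n => (hri n).aestronglyMeasurable.restrict) ?_ (fun n => Eventually.of_forall fun x => ?_)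
      (ae_restrict_of_ae hr)
    · exact ((hρpi.const_mul 2).add ((EnTendAux.integrable_ind hD).const_mul C)).integrableOn
    · rw [Real.norm_eq_abs, abs_of_nonneg ((hN n).1.nonneg x)]
      exact (hbd n x).1
  have hI : ∀ n, 0 ≤ ∫ y in b, r n y := fun n => integral_nonneg fun y => (hN n).1.nonneg y
  have hI1 : ∀ n, ∫ y in b, r n y ≤ 1 := fun n => by
    rw [← (hN n).1.int]
    exact setIntegral_le_integral (hri n) (Eventually.of_forall fun y => (hN n).1.nonneg y)
  have hN1 : ∀ n, Nice (K n) (mv b θ ν (r n)) := fun n =>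
    mv_nice hbm (hK n).2.1 hθ hθ1 hν (hN n).1
  set C' : ℝ := 2 + |C| + |B| with hC'
  have hC'0 : 0 ≤ C' := by positivity
  have hνb : ∀ x, ν x ≤ |B| * Λ.indicator (1 : ℂ → ℝ) x := by
    intro x
    by_cases hx : x ∈ Λ
    · rw [Set.indicator_of_mem hx]
      simpa using (hB x).trans (le_abs_self B)
    · rw [hν.supp x fun h => hx (hsub h)]
      exact mul_nonneg (abs_nonneg _) (hind0 x)
  have hb0 : ∀ n x, r n x ≤ C' * (ρp x + Λ.indicator (1 : ℂ → ℝ) x) := by
    intro n x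
    have h1 := (hbd n x).1
    have h2 := hρp.nonneg x
    have h3 := hind0 x
    have h4 : C * Λ.indicator (1 : ℂ → ℝ) x ≤ |C| * Λ.indicator (1 : ℂ → ℝ) x :=
      mul_le_mul_of_nonneg_right (le_abs_self C) h3
    have h5 : 0 ≤ |C| * ρp x := mul_nonneg (abs_nonneg _) h2
    have h6 : 0 ≤ |B| * ρp x := mul_nonneg (abs_nonneg _) h2
    have h7 : 0 ≤ |B| * Λ.indicator (1 : ℂ → ℝ) x := mul_nonneg (abs_nonneg _) h3
    rw [hC']
    nlinarith
  have hbs : ∀ n x, s n x ≤ C' * (ρm x + Λ.indicator (1 : ℂ → ℝ) x) := by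
    intro n x
    have h1 := (hbd n x).2
    have h2 := hρm.nonneg x
    have h3 := hind0 x
    have h4 : C * Λ.indicator (1 : ℂ → ℝ) x ≤ |C| * Λ.indicator (1 : ℂ → ℝ) x :=
      mul_le_mul_of_nonneg_right (le_abs_self C) h3
    have h5 : 0 ≤ |C| * ρm x := mul_nonneg (abs_nonneg _) h2
    have h6 : 0 ≤ |B| * ρm x := mul_nonneg (abs_nonneg _) h2
    have h7 : 0 ≤ |B| * Λ.indicator (1 : ℂ → ℝ) x := mul_nonneg (abs_nonneg _) h3
    rw [hC']
    nlinarith
  have hb1 : ∀ n x, mv b θ ν (r n) x ≤ C' * (ρp x + Λ.indicator (1 : ℂ → ℝ) x) := by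
    intro n x
    have h1 := (hbd n x).1
    have h2 := hρp.nonneg x
    have h3 := hind0 x
    have h4 : C * Λ.indicator (1 : ℂ → ℝ) x ≤ |C| * Λ.indicator (1 : ℂ → ℝ) x :=
      mul_le_mul_of_nonneg_right (le_abs_self C) h3
    have h5 : 0 ≤ |C| * ρp x := mul_nonneg (abs_nonneg _) h2
    have h6 : 0 ≤ |B| * ρp x := mul_nonneg (abs_nonneg _) h2
    have h7 : 0 ≤ θ * b.indicator (r n) x :=
      mul_nonneg hθ.le (Set.indicator_nonneg (fun _ _ => (hN n).1.nonneg _) x)
    have h8 : θ * (∫ y in b, r n y) ≤ 1 := by nlinarith [hI n, hI1 n]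
    have h9 : θ * (∫ y in b, r n y) * ν x ≤ 1 * ν x :=
      mul_le_mul_of_nonneg_right h8 (hν.nonneg x)
    have h10 := hνb x
    unfold mv
    rw [hC']
    nlinarith
  have ht1 : ∀ᵐ x, Tendsto (fun n => mv b θ ν (r n) x) atTop (𝓝 (mv b θ ν ρp x)) := by
    filter_upwards [hr] with x hx
    have h1 : Tendsto (fun n => b.indicator (r n) x) atTop (𝓝 (b.indicator ρp x)) := by
      by_cases hxb : x ∈ b
      · simp only [Set.indicator_of_mem hxb]
        exact hx
      · simp only [Set.indicator_of_notMem hxb]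
        exact tendsto_const_nhds
    exact (hx.sub (h1.const_mul θ)).add ((hmass.const_mul θ).mul_const (ν x))
  have hdens' : IsDens Λ (mv b θ ν ρp) := hdens
  have hlt' : 4 * ε < enE g (mv b θ ν ρp) ρm := by rw [← hE]; exact hlt
  have hent' : entS Λ ρp - δ / 2 ≤ entS Λ (mv b θ ν ρp) := hent
  have T1 : Tendsto (fun n => enE g (mv b θ ν (r n)) (s n)) atTop
      (𝓝 (enE g (mv b θ ν ρp) ρm)) := by
    refine enE_tendsto hD hm hρp hρm (C := C') hdens' hρm (fun n => (hN1 n).meas)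
      (fun n => (hN n).2.meas) (fun n x => ⟨?_, ?_⟩) ht1 hs
    · rw [abs_of_nonneg ((hN1 n).nonneg x)]
      exact hb1 n x
    · rw [abs_of_nonneg ((hN n).2.nonneg x)]
      exact hbs n x
  have T2 : Tendsto (fun n => entS Λ (r n)) atTop (𝓝 (entS Λ ρp)) :=
    entS_tendsto hD hρp hρp (fun n => (hN n).1.meas) (fun n => (hN n).1.nonneg) hb0 hr
  have T3 : Tendsto (fun n => entS Λ (mv b θ ν (r n))) atTop (𝓝 (entS Λ (mv b θ ν ρp))) :=
    entS_tendsto hD hρp hdens' (fun n => (hN1 n).meas) (fun n => (hN1 n).nonneg) hb1 ht1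
  have T4 : Tendsto (fun n => entS Λ (s n)) atTop (𝓝 (entS Λ ρm)) :=
    entS_tendsto hD hρm hρm (fun n => (hN n).2.meas) (fun n => (hN n).2.nonneg) hbs hs
  have E1 := T1.eventually_const_lt hlt'
  have E2 := T2.eventually_const_le (show entS Λ ρp - δ < entS Λ ρp by linarith)
  have E3 := T3.eventually_const_le (show entS Λ ρp - δ < entS Λ (mv b θ ν ρp) by linarith)
  have E4 := T4.eventually_const_le (show entS Λ ρm - δ < entS Λ ρm by linarith)
  obtain ⟨n, e1, e2, e3, e4⟩ := (E1.and (E2.and (E3.and E4))).exists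
  refine ⟨K n, b₀, rb, θ, r n, mv b θ ν (r n), s n, ν, ⟨(hK n).1, (hK n).2.2, (hK n).2.1, hrb, hθ,
    hθ1, (hN n).1, hN1 n, (hN n).2, hν, fun x => rfl, ?_, e1⟩, e2, e3, e4⟩
  rw [← hE]
  exact hen n

end Pool.Agent.Lib.MP_fa244c_mp
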