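import Pool.Agent.Lib.MP_fa244c_mp.Core

set_option autoImplicit false

open MeasureTheory Filter Topology Set Metric

namespace Pool.Agent.Lib.MP_fa244c_mp

/-- A Lipschitz function crossing the window `[E, E+h)` spends time at least `h/L` in it. -/
theorem time_in_window {φ : ℝ → ℝ} {L T E h : ℝ} (hL : 0 < L) (hT : 0 ≤ T) (hh : 0 < h)
    (hlip : ∀ s ∈ Icc 0 T, ∀ t ∈ Icc 0 T, |φ s - φ t| ≤ L * |s - t|) (h0 : φ 0 ≤ E)
    (h1 : E + h ≤ φ T) : h / L ≤ volume.real {t | t ∈ Icc 0 T ∧ E ≤ φ t ∧ φ t < E + h} := by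
  have hcont : ContinuousOn φ (Icc 0 T) := by
    refine (LipschitzOnWith.of_dist_le_mul (K := ⟨L, hL.le⟩) fun s hs t ht => ?_).continuousOn
    rw [Real.dist_eq, Real.dist_eq]
    exact hlip s hs t ht
  -- the last time at which the value is at most `E`
  have hA : IsCompact {t | t ∈ Icc 0 T ∧ φ t ≤ E} := by
    have : {t | t ∈ Icc 0 T ∧ φ t ≤ E} = Icc 0 T ∩ φ ⁻¹' (Iic E) := rfl
    rw [this]
    exact isCompact_Icc.of_isClosed_subset (hcont.preimage_isClosed_of_isClosed isClosed_Icc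
      isClosed_Iic) inter_subset_left
  obtain ⟨t₀, ⟨ht₀, hφ₀⟩, ht₀max⟩ := hA.exists_isGreatest ⟨0, ⟨le_rfl, hT⟩, h0⟩
  have hB : IsCompact {t | t ∈ Icc t₀ T ∧ E + h ≤ φ t} := by
    have : {t | t ∈ Icc t₀ T ∧ E + h ≤ φ t} = Icc t₀ T ∩ φ ⁻¹' (Ici (E + h)) := rfl
    rw [this]
    exact isCompact_Icc.of_isClosed_subset ((hcont.mono (Icc_subset_Icc_left
      ht₀.1)).preimage_isClosed_of_isClosed isClosed_Icc isClosed_Ici) inter_subset_left
  obtain ⟨t₁, ⟨ht₁, hφ₁⟩, ht₁min⟩ := hB.exists_isLeast ⟨T, ⟨ht₀.2, le_rfl⟩, h1⟩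
  have ht₁' : t₁ ∈ Icc 0 T := ⟨ht₀.1.trans ht₁.1, ht₁.2⟩
  have hsub : Ioo t₀ t₁ ⊆ {t | t ∈ Icc 0 T ∧ E ≤ φ t ∧ φ t < E + h} := by
    intro t ht
    have htT : t ∈ Icc 0 T := ⟨ht₀.1.trans ht.1.le, ht.2.le.trans ht₁.2⟩
    refine ⟨htT, ?_, ?_⟩
    · by_contra hc
      push Not at hc
      have := ht₀max ⟨htT, hc.le⟩
      linarith [ht.1]
    · by_contra hc
      push Not at hc
      have := ht₁min ⟨⟨ht.1.le, htT.2⟩, hc⟩
      linarith [ht.2]
  have hfin : volume {t | t ∈ Icc 0 T ∧ E ≤ φ t ∧ φ t < E + h} ≠ ⊤ :=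
    ne_top_of_le_ne_top (by simp : volume (Icc (0 : ℝ) T) ≠ ⊤) (measure_mono fun t ht => ht.1)
  have hlen : h / L ≤ t₁ - t₀ := by
    rw [div_le_iff₀ hL]
    have h2 := hlip t₁ ht₁' t₀ ht₀
    rw [abs_of_nonneg (by linarith [ht₁.1] : 0 ≤ t₁ - t₀)] at h2
    have h3 := le_abs_self (φ t₁ - φ t₀)
    linarith
  calc h / L ≤ t₁ - t₀ := hlen
    _ = volume.real (Ioo t₀ t₁) := by
      rw [Real.volume_real_Ioo_of_le ht₁.1]
    _ ≤ _ := measureReal_mono hsub hfin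

/-- Crossing lemma: random Lipschitz paths crossing the window, with controlled laws at all times,
force a lower bound for the measure of the window. -/
theorem path_cross {Ω X : Type} [MeasurableSpace Ω] [MeasurableSpace X] (P : Measure Ω)
    [IsProbabilityMeasure P] (Q : Measure X) [IsFiniteMeasure Q] {Gd : Set Ω}
    (hG : MeasurableSet Gd) (hG2 : 1 / 2 ≤ P.real Gd) {Γ : Ω → ℝ → X}
    (hΓ : Measurable (Function.uncurry Γ)) {H : X → ℝ} (hH : Measurable H) {L M T E h : ℝ}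
    (hL : 0 < L) (hM : 0 < M) (hT : 0 < T) (hh : 0 < h)
    (hlip : ∀ ω ∈ Gd, ∀ s ∈ Icc 0 T, ∀ t ∈ Icc 0 T, |H (Γ ω s) - H (Γ ω t)| ≤ L * |s - t|)
    (h0 : ∀ ω ∈ Gd, H (Γ ω 0) ≤ E) (h1 : ∀ ω ∈ Gd, E + h ≤ H (Γ ω T))
    (hdom : ∀ t ∈ Icc 0 T, ∀ A : Set X, MeasurableSet A →
      P.real {ω | ω ∈ Gd ∧ Γ ω t ∈ A} ≤ M * Q.real A) :
    h / (2 * L * T * M) ≤ Q.real {x | E ≤ H x ∧ H x < E + h} := by
  set W : Set X := {x | E ≤ H x ∧ H x < E + h} with hW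
  have hWm : MeasurableSet W := by
    have : W = H ⁻¹' (Ico E (E + h)) := rfl
    rw [this]; exact hH measurableSet_Ico
  set Z : Set (Ω × ℝ) := {p | p.1 ∈ Gd ∧ Γ p.1 p.2 ∈ W} with hZ
  have hZm : MeasurableSet Z := by
    have : Z = (Prod.fst ⁻¹' Gd) ∩ (Function.uncurry Γ ⁻¹' W) := rfl
    rw [this]
    exact (measurable_fst hG).inter (hΓ hWm)
  set ν : Measure ℝ := volume.restrict (Icc 0 T) with hν
  have e1 : (P.prod ν) Z = ∫⁻ ω, ν (Prod.mk ω ⁻¹' Z) ∂P := Measure.prod_apply hZm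
  have e2 : (P.prod ν) Z = ∫⁻ t, P ((fun ω => (ω, t)) ⁻¹' Z) ∂ν := Measure.prod_apply_symm hZm
  -- lower bound
  have hlow : ENNReal.ofReal (h / L) * P Gd ≤ (P.prod ν) Z := by
    rw [e1, ← setLIntegral_const]
    refine le_trans (setLIntegral_mono' hG ?_) (setLIntegral_le_lintegral Gd _)
    intro ω hω
    have h2 := time_in_window hL hT.le hh (hlip ω hω) (h0 ω hω) (h1 ω hω)
    have e3 : ν (Prod.mk ω ⁻¹' Z) =
        volume {t | t ∈ Icc 0 T ∧ E ≤ H (Γ ω t) ∧ H (Γ ω t) < E + h} := by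
      rw [hν, Measure.restrict_apply (measurable_prodMk_left hZm)]
      congr 1
      ext t
      simp only [hZ, hW, mem_inter_iff, mem_preimage, mem_ofPred_eq]
      tauto
    rw [e3]
    exact ENNReal.ofReal_le_of_le_toReal h2
  -- upper bound
  have hup : (P.prod ν) Z ≤ ENNReal.ofReal (M * Q.real W) * ENNReal.ofReal T := by
    rw [e2]
    have e4 : ENNReal.ofReal (M * Q.real W) * ENNReal.ofReal T =
        ∫⁻ _ in Icc 0 T, ENNReal.ofReal (M * Q.real W) := by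
      rw [setLIntegral_const, Real.volume_Icc, sub_zero]
    rw [e4, hν]
    refine setLIntegral_mono' measurableSet_Icc ?_
    intro t ht
    have h3 := hdom t ht W hWm
    have e5 : P ((fun ω => (ω, t)) ⁻¹' Z) = ENNReal.ofReal (P.real {ω | ω ∈ Gd ∧ Γ ω t ∈ W}) := by
      rw [measureReal_def, ENNReal.ofReal_toReal (measure_ne_top _ _)]
      rfl
    rw [e5]
    exact ENNReal.ofReal_le_ofReal h3
  have hfin : (ENNReal.ofReal (M * Q.real W) * ENNReal.ofReal T) ≠ ⊤ :=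
    ENNReal.mul_ne_top ENNReal.ofReal_ne_top ENNReal.ofReal_ne_top
  have hQ0 : 0 ≤ Q.real W := measureReal_nonneg
  have h4 := ENNReal.toReal_mono hfin (hlow.trans hup)
  rw [ENNReal.toReal_mul, ENNReal.toReal_mul, ENNReal.toReal_ofReal (by positivity),
    ENNReal.toReal_ofReal (by positivity), ENNReal.toReal_ofReal hT.le] at h4
  have h5 : h / L * (1 / 2) ≤ M * Q.real W * T :=
    le_trans (mul_le_mul_of_nonneg_left hG2 (by positivity)) h4
  rw [div_le_iff₀ (by positivity)]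
  have h6 : h / L * (1 / 2) * (2 * L) = h := by field_simp
  nlinarith

end Pool.Agent.Lib.MP_fa244c_mp
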