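import Pool.Agent.Lib.MP_fa244c_mp.LBLaw
import Pool.Agent.Lib.MP_fa244c_mp.LBEvents
import Pool.Agent.Lib.MP_fa244c_mp.LBLip
import Pool.Agent.Lib.MP_fa244c_mp.PathCross
import Pool.Agent.Lib.MP_fa244c_mp.NiceData

set_option autoImplicit false

open MeasureTheory Filter Topology Set Metric

namespace Pool.Agent.Lib.MP_fa244c_mp

/-- polynomial against exponential growth -/
theorem LBAux_growth (D a : ℝ) (ha : 0 < a) : ∃ m₀ : ℕ, ∀ m : ℕ, m₀ ≤ m →
    D * (m : ℝ) ^ 10 ≤ Real.exp (a * m) := by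
  have h1 : Tendsto (fun x : ℝ => x ^ 10 * Real.exp (-a * x)) atTop (𝓝 0) := by
    have := Real.tendsto_pow_mul_exp_neg_atTop_nhds_zero 10
    have h2 : Tendsto (fun x : ℝ => a * x) atTop atTop := tendsto_id.const_mul_atTop ha
    have h3 := (this.comp h2).const_mul (1 / a ^ 10)
    rw [mul_zero] at h3
    refine h3.congr fun x => ?_
    simp only [Function.comp_apply]
    rw [mul_pow]
    have : a ^ 10 ≠ 0 := by positivity
    field_simp
  have h4 : Tendsto (fun m : ℕ => D * ((m : ℝ) ^ 10 * Real.exp (-a * m))) atTop (𝓝 0) := by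
    have := (h1.comp tendsto_natCast_atTop_atTop).const_mul D
    rwa [mul_zero] at this
  have h5 := (h4.eventually (gt_mem_nhds (show (0 : ℝ) < 1 by norm_num)))
  obtain ⟨m₀, hm₀⟩ := eventually_atTop.1 h5
  refine ⟨m₀, fun m hm => ?_⟩
  have h6 := hm₀ m hm
  have h7 : Real.exp (-a * m) = (Real.exp (a * m))⁻¹ := by
    rw [← Real.exp_neg]
    congr 1
    ring
  rw [h7, ← mul_assoc, ← div_eq_mul_inv, div_lt_one (Real.exp_pos _)] at h6
  exact h6.le

/-- Lower bound from nice data. -/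
theorem lower_nice {Λ : Set ℂ} {g : ℂ → ℂ → ℝ} (hD : Dom Λ g)
    (hm : Measurable (Function.uncurry g)) {ε : ℝ} {K : Set ℂ} {b₀ : ℂ} {rb θ : ℝ}
    {r₀ r₁ rm ν : ℂ → ℝ} (hN : NiceData Λ g ε K b₀ rb θ r₀ r₁ rm ν) {s t : ℝ}
    (h0 : s ≤ entS Λ r₀) (h1 : s ≤ entS Λ r₁) (ht : t ≤ entS Λ rm) {δ : ℝ} (hδ : 0 < δ) :
    ∃ m₀ : ℕ, ∀ m ≥ m₀, ∀ E h : ℝ, |E - (2 * m) ^ 2 * ε| ≤ 1 → 0 < h → h ≤ 1 →
      h * Real.exp (m * (s + t - δ)) ≤
        (PP Λ (Fin m ⊕ Fin m)).real {x | E ≤ energy g (chg m) x ∧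
          energy g (chg m) x < E + h} := by
  obtain ⟨B, π, hπ⟩ := hN.exists_coup
  have hB := hπ.B_pos
  have hvol := vol_pos hD
  obtain ⟨Cl, hCl, hlip⟩ := path_lip hD hN.compact hN.sub hN.ball
  set a₀ : ℝ := 4 * ε - enE g r₀ rm with ha₀
  set a₁ : ℝ := enE g r₁ rm - 4 * ε with ha₁
  have ha₀p : 0 < a₀ := by have := hN.below; rw [ha₀]; linarith
  have ha₁p : 0 < a₁ := by have := hN.above; rw [ha₁]; linarith
  obtain ⟨m₁, hm₁⟩ := lln hD hm hN.compact hN.sub hN.nice₀ hN.nicem (η := a₀ / 2) (κ := 1 / 16)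
    (by positivity) (by norm_num)
  obtain ⟨m₂, hm₂⟩ := lln hD hm hN.compact hN.sub hN.nice₁ hN.nicem (η := a₁ / 2) (κ := 1 / 16)
    (by positivity) (by norm_num)
  obtain ⟨m₃, hm₃⟩ := ent_event hD hN.sub hπ hN.nice₀ hN.nice₁ hN.nicem h0 h1 ht
    (δ := δ / 4) (κ := 1 / 16) (by positivity) (by norm_num)
  set D : ℝ := 2 * Cl * (64 * (B + 1)) ^ 4 * (B * volume.real Λ) with hDdef
  obtain ⟨m₄, hm₄⟩ := LBAux_growth D (3 * δ / 4) (by positivity)
  refine ⟨m₁ + m₂ + m₃ + m₄ + ⌈2 / a₀⌉₊ + ⌈4 / a₁⌉₊ + 1, ?_⟩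
  intro m hmm E h hE hh hh1
  have k1 : m₁ ≤ m := by omega
  have k2 : m₂ ≤ m := by omega
  have k3 : m₃ ≤ m := by omega
  have k4 : m₄ ≤ m := by omega
  have k5 : ⌈2 / a₀⌉₊ ≤ m := by omega
  have k6 : ⌈4 / a₁⌉₊ ≤ m := by omega
  have k7 : 1 ≤ m := by omega
  have hm1 : (1 : ℝ) ≤ m := by exact_mod_cast k7
  have q5 : 2 / a₀ ≤ m := (Nat.le_ceil _).trans (by exact_mod_cast k5)
  have q6 : 4 / a₁ ≤ m := (Nat.le_ceil _).trans (by exact_mod_cast k6)
  rw [div_le_iff₀ ha₀p] at q5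
  rw [div_le_iff₀ ha₁p] at q6
  have hmsq : (m : ℝ) ≤ (m : ℝ) ^ 2 := by nlinarith
  have w5 : 2 ≤ (m : ℝ) ^ 2 * a₀ := q5.trans (mul_le_mul_of_nonneg_right hmsq ha₀p.le)
  have w6 : 4 ≤ (m : ℝ) ^ 2 * a₁ := q6.trans (mul_le_mul_of_nonneg_right hmsq ha₁p.le)
  -- parameters
  set η : ℝ := 1 / (64 * (B + 1) * (m : ℝ) ^ 2) with hη
  have hden : 1 ≤ 64 * (B + 1) * (m : ℝ) ^ 2 := by nlinarith
  have hη0 : 0 < η := by positivity
  have hη1 : η ≤ 1 := by
    rw [hη, div_le_one (by positivity)]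
    exact hden
  set M₀ : ℝ := Real.exp (m * (-s - t + δ / 4)) with hM₀
  have hM₀p : 0 < M₀ := Real.exp_pos _
  have := isProb_Om hπ hN.nicem m
  have := isProb_PP hD (Fin m ⊕ Fin m)
  set P := Om π rm m with hP
  have hΓ := measurable_pathP m
  have hH : Measurable (energy g (chg m)) := measurable_energy hm (chg m)
  -- the bad event
  set Bd : Set (Fin m ⊕ Fin m → ℂ × ℂ) := {ω | ¬ (InK K b₀ rb ω ∧ NoClose η ω ∧
    (∀ k : Fin m, prodF Λ r₀ r₁ rm k ω ≤ M₀) ∧ energy g (chg m) (pathP ω 0) ≤ E ∧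
    E + h ≤ energy g (chg m) (pathP ω m))} with hBd
  have hmt : ∀ u : ℝ, Measurable (fun ω : Fin m ⊕ Fin m → ℂ × ℂ => pathP ω u) := fun u =>
    hΓ.of_uncurry_right
  have hmz := hmt 0
  have hme := hmt m
  have p1 : P.real {ω | ¬ InK K b₀ rb ω} = 0 := by
    have := ae_InK hN.compact hπ hN.nicem m
    rw [ae_iff] at this
    rw [measureReal_def, this, ENNReal.toReal_zero]
  have p2 : P.real {ω | ¬ NoClose η ω} ≤ 1 / 16 := by
    refine (close_event hN.compact hπ hN.nicem hη0 hη1).trans ?_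
    rw [hη]
    have e1 : 4 * (m : ℝ) ^ 2 * (B * (1 / (64 * (B + 1) * (m : ℝ) ^ 2))) =
        (1 / 16) * (B / (B + 1)) := by
      have : (m : ℝ) ≠ 0 := by positivity
      have : B + 1 ≠ 0 := by positivity
      field_simp
      ring
    rw [e1]
    have e2 : B / (B + 1) ≤ 1 := by
      rw [div_le_one (by positivity)]
      linarith
    linarith
  have p3 : P.real {ω | ∃ k : Fin m, M₀ < prodF Λ r₀ r₁ rm k ω} ≤ 1 / 16 := hm₃ m k3
  have hE' := abs_le.1 hE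
  have p4 : P.real {ω | ¬ energy g (chg m) (pathP ω 0) ≤ E} ≤ 1 / 16 := by
    refine le_trans ?_ (hm₁ m k1)
    rw [← map_path_zero hπ hN.nicem m, map_measureReal_apply hmz
      (measurableSet_le measurable_const (hH.sub_const _).abs)]
    refine measureReal_mono fun ω hω => ?_
    simp only [mem_ofPred_eq, not_le] at hω
    simp only [mem_preimage, mem_ofPred_eq]
    refine le_trans ?_ (le_abs_self _)
    nlinarith [hE'.1, hE'.2]
  have p5 : P.real {ω | ¬ E + h ≤ energy g (chg m) (pathP ω m)} ≤ 1 / 16 := by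
    refine le_trans ?_ (hm₂ m k2)
    rw [← map_path_end hπ hN.nicem m, map_measureReal_apply hme
      (measurableSet_le measurable_const (hH.sub_const _).abs)]
    refine measureReal_mono fun ω hω => ?_
    simp only [mem_ofPred_eq, not_le] at hω
    simp only [mem_preimage, mem_ofPred_eq]
    refine le_trans ?_ (neg_le_abs _)
    nlinarith [hE'.1, hE'.2]
  have hBdle : P.real Bd ≤ 1 / 2 := by
    have hsub : Bd ⊆ {ω | ¬ InK K b₀ rb ω} ∪ ({ω | ¬ NoClose η ω} ∪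
        ({ω | ∃ k : Fin m, M₀ < prodF Λ r₀ r₁ rm k ω} ∪
        ({ω | ¬ energy g (chg m) (pathP ω 0) ≤ E} ∪
        {ω | ¬ E + h ≤ energy g (chg m) (pathP ω m)}))) := by
      intro ω hω
      simp only [hBd, mem_ofPred_eq] at hω
      simp only [mem_union, mem_ofPred_eq]
      by_contra hcon
      push Not at hcon
      apply hω
      refine ⟨hcon.1, hcon.2.1, hcon.2.2.1, ?_, hcon.2.2.2.2⟩
      exact hcon.2.2.2.1
    have u1 := measureReal_mono (μ := P) hsub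
    have u2 := measureReal_union_le (μ := P) {ω | ¬ InK K b₀ rb ω} ({ω | ¬ NoClose η ω} ∪
        ({ω | ∃ k : Fin m, M₀ < prodF Λ r₀ r₁ rm k ω} ∪
        ({ω | ¬ energy g (chg m) (pathP ω 0) ≤ E} ∪
        {ω | ¬ E + h ≤ energy g (chg m) (pathP ω m)})))
    have u3 := measureReal_union_le (μ := P) {ω | ¬ NoClose η ω}
        ({ω | ∃ k : Fin m, M₀ < prodF Λ r₀ r₁ rm k ω} ∪
        ({ω | ¬ energy g (chg m) (pathP ω 0) ≤ E} ∪
        {ω | ¬ E + h ≤ energy g (chg m) (pathP ω m)}))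
    have u4 := measureReal_union_le (μ := P) {ω | ∃ k : Fin m, M₀ < prodF Λ r₀ r₁ rm k ω}
        ({ω | ¬ energy g (chg m) (pathP ω 0) ≤ E} ∪
        {ω | ¬ E + h ≤ energy g (chg m) (pathP ω m)})
    have u5 := measureReal_union_le (μ := P) {ω | ¬ energy g (chg m) (pathP ω 0) ≤ E}
        {ω | ¬ E + h ≤ energy g (chg m) (pathP ω m)}
    linarith
  set Gd : Set (Fin m ⊕ Fin m → ℂ × ℂ) := (toMeasurable P Bd)ᶜ with hGd
  have hGm : MeasurableSet Gd := (measurableSet_toMeasurable P Bd).compl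
  have hG2 : 1 / 2 ≤ P.real Gd := by
    have e1 : P.real (toMeasurable P Bd) = P.real Bd := by
      rw [measureReal_def, measureReal_def, measure_toMeasurable]
    have e2 := probReal_compl_eq_one_sub (μ := P) (measurableSet_toMeasurable P Bd)
    rw [hGd, e2, e1]
    linarith
  have hGood : ∀ ω ∈ Gd, InK K b₀ rb ω ∧ NoClose η ω ∧
    (∀ k : Fin m, prodF Λ r₀ r₁ rm k ω ≤ M₀) ∧ energy g (chg m) (pathP ω 0) ≤ E ∧
    E + h ≤ energy g (chg m) (pathP ω m) := by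
    intro ω hω
    by_contra hcon
    exact hω (subset_toMeasurable P Bd hcon)
  have hmpos : (0 : ℝ) < m := by linarith
  have hLpos : 0 < Cl * m / η ^ 4 := by positivity
  have hMpos : 0 < B * volume.real Λ * M₀ := by positivity
  have key := path_cross P (PP Λ (Fin m ⊕ Fin m)) hGm hG2 (Γ := fun ω t => pathP ω t) hΓ hH
    (L := Cl * m / η ^ 4) (M := B * volume.real Λ * M₀) (T := (m : ℝ)) (E := E) (h := h)
    hLpos hMpos hmpos hh
    (fun ω hω u hu v hv => hlip m η hη0 hη1 ω (hGood ω hω).1 (hGood ω hω).2.1 u hu v hv)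
    (fun ω hω => (hGood ω hω).2.2.2.1) (fun ω hω => (hGood ω hω).2.2.2.2)
    (fun u hu A hA => by
      refine le_trans ?_ (law_path hD hN.sub hN.compact hπ hN.nice₀ hN.nice₁ hN.nicem k7 hu
        hM₀p hA)
      exact measureReal_mono fun ω hω => ⟨(hGood ω hω.1).2.2.1, hω.2⟩)
  refine le_trans ?_ key
  rw [le_div_iff₀ (by positivity)]
  have hfin : 2 * (Cl * m / η ^ 4) * m * (B * volume.real Λ * M₀) =
      D * (m : ℝ) ^ 10 * M₀ := by
    rw [hη, hDdef]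
    have : (m : ℝ) ≠ 0 := by positivity
    have : B + 1 ≠ 0 := by positivity
    field_simp
  have hexp : Real.exp (m * (s + t - δ)) * (Real.exp (3 * δ / 4 * m) * M₀) = 1 := by
    rw [hM₀, ← Real.exp_add, ← Real.exp_add]
    rw [show (m : ℝ) * (s + t - δ) + (3 * δ / 4 * m + m * (-s - t + δ / 4)) = 0 by ring]
    exact Real.exp_zero
  calc h * Real.exp (m * (s + t - δ)) * (2 * (Cl * m / η ^ 4) * m * (B * volume.real Λ * M₀))
      = h * Real.exp (m * (s + t - δ)) * (D * (m : ℝ) ^ 10 * M₀) := by rw [hfin]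
    _ ≤ h * Real.exp (m * (s + t - δ)) * (Real.exp (3 * δ / 4 * m) * M₀) := by
        have := hm₄ m k4
        have h8 := Real.exp_pos (m * (s + t - δ))
        gcongr
    _ = h := by rw [mul_assoc, hexp, mul_one]

/-- The lower bound for thin energy windows. -/
theorem lower_bound {Λ : Set ℂ} {g : ℂ → ℂ → ℝ} (hD : Dom Λ g)
    (hm : Measurable (Function.uncurry g)) {ε : ℝ} (hε : 0 < ε) {ρp ρm : ℂ → ℝ}
    (hρ : IsAdm Λ g ε ρp ρm) {δ : ℝ} (hδ : 0 < δ) :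
    ∃ m₀ : ℕ, ∀ m ≥ m₀, ∀ E h : ℝ, |E - (2 * m) ^ 2 * ε| ≤ 1 → 0 < h → h ≤ 1 →
      h * Real.exp (2 * m * ((entS Λ ρp + entS Λ ρm) / 2 - δ)) ≤
        (PP Λ (Fin m ⊕ Fin m)).real {x | E ≤ energy g (chg m) x ∧
          energy g (chg m) x < E + h} := by
  obtain ⟨K, b₀, rb, θ, r₀, r₁, rm, ν, hN, h0, h1, h2⟩ :=
    exists_niceData hD hm hε hρ (δ := δ / 4) (by linarith)
  obtain ⟨m₀, hm₀⟩ := lower_nice hD hm hN h0 h1 h2 (δ := δ) hδ
  refine ⟨m₀, fun m hmm E h hE hh hh1 => le_trans ?_ (hm₀ m hmm E h hE hh hh1)⟩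
  refine mul_le_mul_of_nonneg_left (Real.exp_le_exp.2 ?_) hh.le
  have hm0 : (0 : ℝ) ≤ m := Nat.cast_nonneg m
  nlinarith

end Pool.Agent.Lib.MP_fa244c_mp
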