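import Pool.Agent.Lib.MP_fa244c_mp.Pot

set_option autoImplicit false

open MeasureTheory Filter Topology Set Metric

namespace Pool.Agent.Lib.MP_fa244c_mp

/-- Independent vortices with densities `rp` (positive ones) and `rm` (negative ones). -/
noncomputable def mixP (rp rm : ℂ → ℝ) (m : ℕ) : Measure (Fin m ⊕ Fin m → ℂ) :=
  Measure.pi (fun i => Sum.elim (fun _ => densM rp) (fun _ => densM rm) i)

/-- The squared logarithm is locally integrable. -/
theorem lln_logsq (R : ℝ) :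
    IntegrableOn (fun z : ℂ => (Real.log ‖z‖) ^ 2) (ball (0 : ℂ) R) := by
  have h := (integrableOn_fun_norm_addHaar (E := ℂ) (volume : Measure ℂ)
    (f := fun y : ℝ => (Real.log y) ^ 2) (r := R)).2 ?_
  · exact h
  · have h1 : IntegrableOn (fun y : ℝ => 4 * (√y * Real.log √y) ^ 2) (Ioo 0 R) := by
      have hc : Continuous (fun y : ℝ => 4 * (√y * Real.log √y) ^ 2) :=
        continuous_const.mul ((Real.continuous_mul_log.comp Real.continuous_sqrt).pow 2)
      exact (hc.integrableOn_Icc (a := 0) (b := R)).mono_set Ioo_subset_Icc_self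
    refine h1.congr_fun ?_ measurableSet_Ioo
    intro y hy
    have hy0 : 0 < y := hy.1
    simp only [Complex.finrank_real_complex, smul_eq_mul]
    rw [Real.log_sqrt hy0.le]
    have h2 : √y ^ 2 = y := Real.sq_sqrt hy0.le
    have : (4 : ℝ) * (√y * (Real.log y / 2)) ^ 2 = √y ^ 2 * (Real.log y) ^ 2 := by ring
    rw [this, h2]
    norm_num

theorem lln_isProb {K : Set ℂ} {r : ℂ → ℝ} (hr : Nice K r) : IsProbabilityMeasure (densM r) := by
  refine ⟨?_⟩
  unfold densM
  rw [withDensity_apply _ MeasurableSet.univ, Measure.restrict_univ,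
    ← ofReal_integral_eq_lintegral_ofReal ?_ (ae_of_all _ hr.nonneg), hr.int, ENNReal.ofReal_one]
  by_contra h
  have := integral_undef h
  rw [hr.int] at this
  exact one_ne_zero this

theorem lln_prod_dens {r s : ℂ → ℝ} (hr : Measurable r) (hs : Measurable s) :
    (densM r).prod (densM s) = ((volume : Measure ℂ).prod volume).withDensity
      (fun z => ENNReal.ofReal (r z.1) * ENNReal.ofReal (s z.2)) := by
  unfold densM
  exact prod_withDensity hr.ennreal_ofReal hs.ennreal_ofReal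

/-- Integrals with respect to products of densities. -/
theorem lln_integrable_iff {r s : ℂ → ℝ} (hr : Measurable r) (hs : Measurable s)
    (hr0 : ∀ x, 0 ≤ r x) (hs0 : ∀ x, 0 ≤ s x) (f : ℂ × ℂ → ℝ) :
    (Integrable f ((densM r).prod (densM s)) ↔
      Integrable (fun p : ℂ × ℂ => f p * (r p.1 * s p.2))) ∧
    ∫ p, f p ∂((densM r).prod (densM s)) = ∫ p : ℂ × ℂ, f p * (r p.1 * s p.2) := by
  have hw : Measurable (fun z : ℂ × ℂ => ENNReal.ofReal (r z.1) * ENNReal.ofReal (s z.2)) :=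
    (hr.comp measurable_fst).ennreal_ofReal.mul (hs.comp measurable_snd).ennreal_ofReal
  have hlt : ∀ᵐ z ∂((volume : Measure ℂ).prod (volume : Measure ℂ)),
      ENNReal.ofReal (r z.1) * ENNReal.ofReal (s z.2) < ⊤ :=
    ae_of_all _ fun z => ENNReal.mul_lt_top ENNReal.ofReal_lt_top ENNReal.ofReal_lt_top
  have he : ∀ z : ℂ × ℂ, (ENNReal.ofReal (r z.1) * ENNReal.ofReal (s z.2)).toReal • f z =
      f z * (r z.1 * s z.2) := by
    intro z
    rw [ENNReal.toReal_mul, ENNReal.toReal_ofReal (hr0 _), ENNReal.toReal_ofReal (hs0 _),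
      smul_eq_mul]
    ring
  constructor
  · rw [lln_prod_dens hr hs, integrable_withDensity_iff_integrable_smul' hw hlt]
    simp only [he]
    rfl
  · rw [lln_prod_dens hr hs, integral_withDensity_eq_integral_toReal_smul hw hlt]
    simp only [he]
    rfl

/-- Second moments of the Green function. -/
theorem lln_sq {Λ : Set ℂ} {g : ℂ → ℂ → ℝ} (hD : Dom Λ g) (hm : Measurable (Function.uncurry g))
    {K : Set ℂ} (hK : IsCompact K) (hKΛ : K ⊆ Λ) {r s : ℂ → ℝ} (hr : Nice K r)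
    (hs : Nice K s) :
    Integrable (fun p : ℂ × ℂ => (Gst g p.1 p.2) ^ 2) ((densM r).prod (densM s)) := by
  rw [(lln_integrable_iff hr.meas hs.meas hr.nonneg hs.nonneg _).1]
  obtain ⟨C, hC⟩ := (hK.prod hK).exists_bound_of_continuousOn
    (f := fun p : ℂ × ℂ => g p.1 p.2) (fun p hp =>
      (gg_contDiffAt hD (hKΛ hp.1) (hKΛ hp.2)).continuousAt.continuousWithinAt)
  obtain ⟨D, hDK⟩ := hK.isBounded.exists_norm_le
  obtain ⟨Br, hBr⟩ := hr.bdd
  obtain ⟨Bs, hBs⟩ := hs.bdd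
  have hKm : MeasurableSet K := hK.measurableSet
  have hKf : volume K ≠ ⊤ := hK.measure_lt_top.ne
  have hGm : Measurable (fun p : ℂ × ℂ => Gst g p.1 p.2) := by
    have : (fun p : ℂ × ℂ => Gst g p.1 p.2) = fun p => g p.1 p.2 - Real.log ‖p.1 - p.2‖ := by
      funext p; exact Gst_eq _ _ _
    rw [this]
    exact hm.sub (Real.measurable_log.comp (measurable_fst.sub measurable_snd).norm)
  have i1 : Integrable (K.indicator (fun _ : ℂ => (1 : ℝ))) :=
    (integrable_indicator_iff hKm).2 (integrableOn_const hKf)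
  have i2 : Integrable ((ball (0 : ℂ) (2 * D + 1)).indicator
      (fun z : ℂ => (Real.log ‖z‖) ^ 2)) :=
    (integrable_indicator_iff measurableSet_ball).2 (lln_logsq _)
  have i3 : Integrable (fun p : ℂ × ℂ => K.indicator (fun _ : ℂ => (1 : ℝ)) p.2 *
      (ball (0 : ℂ) (2 * D + 1)).indicator (fun z : ℂ => (Real.log ‖z‖) ^ 2) (p.1 - p.2)) :=
    i1.convolution_integrand (ContinuousLinearMap.mul ℝ ℝ) i2
  have i4 : Integrable (fun p : ℂ × ℂ => K.indicator (fun _ : ℂ => (1 : ℝ)) p.1 *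
      K.indicator (fun _ : ℂ => (1 : ℝ)) p.2) := i1.mul_prod i1
  refine Integrable.mono' (g := fun p : ℂ × ℂ => (|Br| * |Bs|) * (2 * C ^ 2 *
    (K.indicator (fun _ : ℂ => (1 : ℝ)) p.1 * K.indicator (fun _ : ℂ => (1 : ℝ)) p.2) +
    2 * (K.indicator (fun _ : ℂ => (1 : ℝ)) p.2 * (ball (0 : ℂ) (2 * D + 1)).indicator
      (fun z : ℂ => (Real.log ‖z‖) ^ 2) (p.1 - p.2))))
    (((i4.const_mul _).add (i3.const_mul _)).const_mul _) ?_ (ae_of_all _ ?_)
  · exact ((hGm.pow_const 2).mul ((hr.meas.comp measurable_fst).mul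
      (hs.meas.comp measurable_snd))).aestronglyMeasurable
  · rintro ⟨x, y⟩
    simp only
    have hnn : 0 ≤ (Gst g x y) ^ 2 * (r x * s y) :=
      mul_nonneg (sq_nonneg _) (mul_nonneg (hr.nonneg _) (hs.nonneg _))
    rw [Real.norm_of_nonneg hnn]
    have hrhs : 0 ≤ (|Br| * |Bs|) * (2 * C ^ 2 *
        (K.indicator (fun _ : ℂ => (1 : ℝ)) x * K.indicator (fun _ : ℂ => (1 : ℝ)) y) +
        2 * (K.indicator (fun _ : ℂ => (1 : ℝ)) y * (ball (0 : ℂ) (2 * D + 1)).indicator
          (fun z : ℂ => (Real.log ‖z‖) ^ 2) (x - y))) := by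
      have a1 : ∀ z, 0 ≤ K.indicator (fun _ : ℂ => (1 : ℝ)) z := fun z =>
        Set.indicator_nonneg (fun _ _ => zero_le_one) z
      have a2 : ∀ z, 0 ≤ (ball (0 : ℂ) (2 * D + 1)).indicator
          (fun z : ℂ => (Real.log ‖z‖) ^ 2) z := fun z =>
        Set.indicator_nonneg (fun _ _ => sq_nonneg _) z
      have := a1 x
      have := a1 y
      have := a2 (x - y)
      positivity
    by_cases hx : x ∈ K
    · by_cases hy : y ∈ K
      · have hxy : x - y ∈ ball (0 : ℂ) (2 * D + 1) := by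
          rw [mem_ball_zero_iff]
          have h1 := hDK x hx
          have h2 := hDK y hy
          have h3 := norm_sub_le x y
          linarith
        simp only [Set.indicator_of_mem hx, Set.indicator_of_mem hy, Set.indicator_of_mem hxy,
          mul_one, one_mul]
        have hg := hC (x, y) ⟨hx, hy⟩
        simp only [Real.norm_eq_abs] at hg
        have h5 : (Gst g x y) ^ 2 ≤ 2 * C ^ 2 + 2 * (Real.log ‖x - y‖) ^ 2 := by
          rw [Gst_eq]
          have h6 : (g x y) ^ 2 ≤ C ^ 2 := by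
            rw [← sq_abs (g x y)]
            exact pow_le_pow_left₀ (abs_nonneg _) hg 2
          nlinarith [sq_nonneg (g x y + Real.log ‖x - y‖)]
        have h7 : r x * s y ≤ |Br| * |Bs| :=
          mul_le_mul ((hBr x).trans (le_abs_self _)) ((hBs y).trans (le_abs_self _))
            (hs.nonneg _) (abs_nonneg _)
        have h8 := mul_le_mul h5 h7 (mul_nonneg (hr.nonneg x) (hs.nonneg y))
          ((sq_nonneg _).trans h5)
        linarith
      · rw [hs.supp y hy, mul_zero, mul_zero]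
        exact hrhs
    · rw [hr.supp x hx, zero_mul, mul_zero]
      exact hrhs


section Variance

variable {ι : Type} [Fintype ι] [DecidableEq ι] (ν : ι → Measure ℂ)
  [hν : ∀ i, IsProbabilityMeasure (ν i)]

omit [DecidableEq ι] in
theorem lln_mp {i j : ι} (hij : i ≠ j) :
    MeasurePreserving (fun x : ι → ℂ => (x i, x j)) (Measure.pi ν) ((ν i).prod (ν j)) := by
  refine ⟨(measurable_pi_apply i).prodMk (measurable_pi_apply j), ?_⟩
  have h1 : ProbabilityTheory.iIndepFun (fun i (x : ι → ℂ) => x i) (Measure.pi ν) :=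
    ProbabilityTheory.iIndepFun_pi (X := fun _ => id) (fun i => aemeasurable_id)
  have h2 := h1.indepFun hij
  rw [ProbabilityTheory.indepFun_iff_map_prod_eq_prod_map_map
    (measurable_pi_apply i).aemeasurable (measurable_pi_apply j).aemeasurable] at h2
  have e1 : Measure.map (fun x : ι → ℂ => x i) (Measure.pi ν) = ν i :=
    (measurePreserving_eval ν i).map_eq
  have e2 : Measure.map (fun x : ι → ℂ => x j) (Measure.pi ν) = ν j :=
    (measurePreserving_eval ν j).map_eq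
  rw [e1, e2] at h2
  exact h2

/-- The second moment of a sum over pairs of centred functions of two independent coordinates. -/
theorem lln_var (f : ι → ι → ℂ × ℂ → ℝ) (hf : ∀ i j, Measurable (f i j)) (V : ℝ)
    (hV : ∀ i j, i ≠ j → Integrable (fun p => (f i j p) ^ 2) ((ν i).prod (ν j)) ∧
      ∫ p, (f i j p) ^ 2 ∂((ν i).prod (ν j)) ≤ V)
    (h0 : ∀ i j, i ≠ j → ∫ p, f i j p ∂((ν i).prod (ν j)) = 0) :
    Integrable (fun x : ι → ℂ => (∑ p : ι × ι, if p.1 = p.2 then 0 else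
      f p.1 p.2 (x p.1, x p.2)) ^ 2) (Measure.pi ν) ∧
    ∫ x : ι → ℂ, (∑ p : ι × ι, if p.1 = p.2 then 0 else
      f p.1 p.2 (x p.1, x p.2)) ^ 2 ∂(Measure.pi ν) ≤ 4 * (Fintype.card ι : ℝ) ^ 3 * |V| := by
  classical
  set Φ : ι × ι → (ι → ℂ) → ℝ := fun p x => if p.1 = p.2 then 0 else
      f p.1 p.2 (x p.1, x p.2) with hΦ
  have hΦm : ∀ p, Measurable (Φ p) := by
    intro p
    simp only [hΦ]
    split_ifs with h
    · exact measurable_const
    · exact (hf _ _).comp ((measurable_pi_apply _).prodMk (measurable_pi_apply _))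
  have hsq : ∀ p, Integrable (fun x => (Φ p x) ^ 2) (Measure.pi ν) ∧
      ∫ x, (Φ p x) ^ 2 ∂(Measure.pi ν) ≤ |V| := by
    intro p
    by_cases h : p.1 = p.2
    · simp only [hΦ, h, if_true]
      simp
    · have hmp := lln_mp ν h
      simp only [hΦ, h, if_false]
      obtain ⟨h1, h2⟩ := hV _ _ h
      have h3 : Integrable ((fun q => (f p.1 p.2 q) ^ 2) ∘ fun x : ι → ℂ => (x p.1, x p.2))
          (Measure.pi ν) := hmp.integrable_comp_of_integrable h1
      refine ⟨h3, ?_⟩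
      have h4 : ∫ x : ι → ℂ, (f p.1 p.2 (x p.1, x p.2)) ^ 2 ∂(Measure.pi ν) =
          ∫ q, (f p.1 p.2 q) ^ 2 ∂((ν p.1).prod (ν p.2)) := by
        rw [← hmp.map_eq, integral_map hmp.measurable.aemeasurable
          ((hf _ _).pow_const 2).aestronglyMeasurable]
      rw [h4]
      exact h2.trans (le_abs_self _)
  have hmean : ∀ p, ∫ x, Φ p x ∂(Measure.pi ν) = 0 := by
    intro p
    by_cases h : p.1 = p.2
    · simp only [hΦ, h, if_true]
      simp
    · have hmp := lln_mp ν h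
      simp only [hΦ, h, if_false]
      have h4 : ∫ x : ι → ℂ, f p.1 p.2 (x p.1, x p.2) ∂(Measure.pi ν) =
          ∫ q, f p.1 p.2 q ∂((ν p.1).prod (ν p.2)) := by
        rw [← hmp.map_eq, integral_map hmp.measurable.aemeasurable
          (hf _ _).aestronglyMeasurable]
      rw [h4]
      exact h0 _ _ h
  have hpq : ∀ p q, Integrable (fun x => Φ p x * Φ q x) (Measure.pi ν) := by
    intro p q
    refine Integrable.mono' ((hsq p).1.add (hsq q).1)
      ((hΦm p).mul (hΦm q)).aestronglyMeasurable (ae_of_all _ fun x => ?_)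
    simp only [Pi.add_apply]
    rw [Real.norm_eq_abs, abs_mul]
    nlinarith [sq_nonneg (|Φ p x| - |Φ q x|), sq_abs (Φ p x), sq_abs (Φ q x),
      sq_nonneg (Φ p x), sq_nonneg (Φ q x)]
  have hle : ∀ p q, ∫ x, Φ p x * Φ q x ∂(Measure.pi ν) ≤ |V| := by
    intro p q
    have h1 : ∫ x, Φ p x * Φ q x ∂(Measure.pi ν) ≤
        ∫ x, ((Φ p x) ^ 2 + (Φ q x) ^ 2) / 2 ∂(Measure.pi ν) := by
      refine integral_mono (hpq p q) (((hsq p).1.add (hsq q).1).div_const 2) fun x => ?_
      simp only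
      nlinarith [sq_nonneg (Φ p x - Φ q x)]
    rw [integral_div, integral_add (hsq p).1 (hsq q).1] at h1
    have := (hsq p).2
    have := (hsq q).2
    linarith
  have hzero : ∀ p q : ι × ι, p.1 ≠ q.1 → p.1 ≠ q.2 → p.2 ≠ q.1 → p.2 ≠ q.2 →
      ∫ x, Φ p x * Φ q x ∂(Measure.pi ν) = 0 := by
    intro p q h1 h2 h3 h4
    by_cases hp : p.1 = p.2
    · simp [hΦ, hp]
    by_cases hq : q.1 = q.2
    · simp [hΦ, hq]
    have h5 : ProbabilityTheory.iIndepFun (fun i (x : ι → ℂ) => x i) (Measure.pi ν) :=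
      ProbabilityTheory.iIndepFun_pi (X := fun _ => id) (fun i => aemeasurable_id)
    have h6 := h5.indepFun_prodMk_prodMk (fun i => measurable_pi_apply i) p.1 p.2 q.1 q.2
      h1 h2 h3 h4
    have h7 := h6.comp (hf p.1 p.2) (hf q.1 q.2)
    have e1 : Φ p = (f p.1 p.2) ∘ fun x : ι → ℂ => (x p.1, x p.2) := by
      funext x; simp [hΦ, hp]
    have e2 : Φ q = (f q.1 q.2) ∘ fun x : ι → ℂ => (x q.1, x q.2) := by
      funext x; simp [hΦ, hq]
    rw [← e1, ← e2] at h7
    rw [h7.integral_fun_mul_eq_mul_integral (hΦm p).aestronglyMeasurable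
      (hΦm q).aestronglyMeasurable, hmean p, zero_mul]
  have hexp : ∀ x : ι → ℂ, (∑ p : ι × ι, if p.1 = p.2 then 0 else
      f p.1 p.2 (x p.1, x p.2)) ^ 2 = ∑ p, ∑ q, Φ p x * Φ q x := by
    intro x
    rw [sq, Finset.sum_mul_sum]
  have hN0 : (0 : ℝ) ≤ Fintype.card ι := Nat.cast_nonneg _
  have hrow : ∀ p : ι × ι, ∑ q, ∫ x, Φ p x * Φ q x ∂(Measure.pi ν) ≤
      4 * (Fintype.card ι : ℝ) * |V| := by
    intro p
    have h1 : ∀ q : ι × ι, ∫ x, Φ p x * Φ q x ∂(Measure.pi ν) ≤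
        (((if q.1 = p.1 then |V| else 0) + (if q.1 = p.2 then |V| else 0)) +
        ((if q.2 = p.1 then |V| else 0) + (if q.2 = p.2 then |V| else 0))) := by
      intro q
      have h2 := hle p q
      have h3 := hzero p q
      have hv := abs_nonneg V
      by_cases a1 : q.1 = p.1
      · rw [if_pos a1]
        split_ifs <;> linarith
      by_cases a2 : q.1 = p.2
      · rw [if_pos a2]
        split_ifs <;> linarith
      by_cases a3 : q.2 = p.1
      · rw [if_pos a3]
        split_ifs <;> linarith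
      by_cases a4 : q.2 = p.2
      · rw [if_pos a4]
        split_ifs <;> linarith
      rw [if_neg a1, if_neg a2, if_neg a3, if_neg a4,
        h3 (Ne.symm a1) (Ne.symm a3) (Ne.symm a2) (Ne.symm a4)]
      simp
    have h4 : ∀ a : ι, ∑ q : ι × ι, (if q.1 = a then |V| else 0) =
        (Fintype.card ι : ℝ) * |V| := by
      intro a
      rw [Fintype.sum_prod_type, Finset.sum_comm]
      simp
    have h5 : ∀ a : ι, ∑ q : ι × ι, (if q.2 = a then |V| else 0) =
        (Fintype.card ι : ℝ) * |V| := by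
      intro a
      rw [Fintype.sum_prod_type]
      simp
    calc ∑ q, ∫ x, Φ p x * Φ q x ∂(Measure.pi ν)
        ≤ ∑ q : ι × ι, (((if q.1 = p.1 then |V| else 0) + (if q.1 = p.2 then |V| else 0)) +
          ((if q.2 = p.1 then |V| else 0) + (if q.2 = p.2 then |V| else 0))) :=
          Finset.sum_le_sum fun q _ => h1 q
      _ = 4 * (Fintype.card ι : ℝ) * |V| := by
          rw [Finset.sum_add_distrib, Finset.sum_add_distrib, Finset.sum_add_distrib,
            h4, h4, h5, h5]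
          ring
  constructor
  · simp only [hexp]
    exact integrable_finset_sum _ fun p _ => integrable_finset_sum _ fun q _ => hpq p q
  · simp only [hexp]
    rw [integral_finset_sum _ fun p _ => integrable_finset_sum _ fun q _ => hpq p q]
    have h1 : ∀ p, ∫ x, ∑ q, Φ p x * Φ q x ∂(Measure.pi ν) =
        ∑ q, ∫ x, Φ p x * Φ q x ∂(Measure.pi ν) := fun p =>
      integral_finset_sum _ fun q _ => hpq p q
    simp only [h1]
    calc ∑ p : ι × ι, ∑ q, ∫ x, Φ p x * Φ q x ∂(Measure.pi ν)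
        ≤ ∑ p : ι × ι, 4 * (Fintype.card ι : ℝ) * |V| := Finset.sum_le_sum fun p _ => hrow p
      _ = 4 * (Fintype.card ι : ℝ) ^ 3 * |V| := by
          rw [Finset.sum_const, Finset.card_univ, Fintype.card_prod, nsmul_eq_mul]
          push_cast
          ring

end Variance


/-- Centring decreases the second moment. -/
theorem lln_centre {Ω : Type} [MeasurableSpace Ω] (P : Measure Ω) [IsProbabilityMeasure P]
    {X : Ω → ℝ} (hX : Measurable X) (h2 : Integrable (fun w => (X w) ^ 2) P) :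
    Integrable (fun w => (X w - ∫ v, X v ∂P) ^ 2) P ∧
    ∫ w, (X w - ∫ v, X v ∂P) ^ 2 ∂P ≤ ∫ w, (X w) ^ 2 ∂P ∧
    ∫ w, (X w - ∫ v, X v ∂P) ∂P = 0 := by
  have h1 : Integrable X P := by
    refine Integrable.mono' (h2.add (integrable_const 1)) hX.aestronglyMeasurable
      (ae_of_all _ fun w => ?_)
    simp only [Pi.add_apply]
    rw [Real.norm_eq_abs]
    nlinarith [sq_abs (X w), sq_nonneg (|X w| - 1), sq_nonneg (X w)]
  set a := ∫ v, X v ∂P with ha
  have h3 : Integrable (fun w => (X w) ^ 2 - 2 * a * X w + a ^ 2) P :=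
    (h2.sub (h1.const_mul _)).add (integrable_const _)
  have e : (fun w => (X w - a) ^ 2) = fun w => (X w) ^ 2 - 2 * a * X w + a ^ 2 := by
    funext w; ring
  have i1 : Integrable (fun w => 2 * a * X w) P := h1.const_mul _
  have i2 : Integrable (fun w => (X w) ^ 2 - 2 * a * X w) P := h2.sub i1
  refine ⟨by rw [e]; exact h3, ?_, ?_⟩
  · rw [e, integral_add i2 (integrable_const _), integral_sub h2 i1, integral_const_mul, ← ha]
    simp only [integral_const, probReal_univ, one_smul]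
    nlinarith [sq_nonneg a]
  · rw [integral_sub h1 (integrable_const _), ← ha]
    simp

/-- Energy of a pair of densities in terms of means. -/
theorem lln_enE {Λ : Set ℂ} {g : ℂ → ℂ → ℝ} (hD : Dom Λ g) (hm : Measurable (Function.uncurry g))
    {K : Set ℂ} (hKΛ : K ⊆ Λ) {rp rm : ℂ → ℝ} (hrp : Nice K rp)
    (hrm : Nice K rm) :
    2 * enE g rp rm = (∫ p, Gst g p.1 p.2 ∂((densM rp).prod (densM rp))) -
      (∫ p, Gst g p.1 p.2 ∂((densM rp).prod (densM rm))) -
      (∫ p, Gst g p.1 p.2 ∂((densM rm).prod (densM rp))) +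
      (∫ p, Gst g p.1 p.2 ∂((densM rm).prod (densM rm))) := by
  have dp := Nice.isDens hD hKΛ hrp
  have dm := Nice.isDens hD hKΛ hrm
  have ipp := pot_integrable hD hm dp dp
  have ipm := pot_integrable hD hm dp dm
  have imp := pot_integrable hD hm dm dp
  have imm := pot_integrable hD hm dm dm
  rw [(lln_integrable_iff hrp.meas hrp.meas hrp.nonneg hrp.nonneg _).2,
    (lln_integrable_iff hrp.meas hrm.meas hrp.nonneg hrm.nonneg _).2,
    (lln_integrable_iff hrm.meas hrp.meas hrm.nonneg hrp.nonneg _).2,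
    (lln_integrable_iff hrm.meas hrm.meas hrm.nonneg hrm.nonneg _).2]
  have e1 : (fun p : ℂ × ℂ => Gst g p.1 p.2 * (rp p.1 - rm p.1) * (rp p.2 - rm p.2)) =
      fun p : ℂ × ℂ => Gst g p.1 p.2 * (rp p.1 * rp p.2) - Gst g p.1 p.2 * (rp p.1 * rm p.2) -
        Gst g p.1 p.2 * (rm p.1 * rp p.2) + Gst g p.1 p.2 * (rm p.1 * rm p.2) := by
    funext p; ring
  have i1 : Integrable (fun p : ℂ × ℂ =>
      Gst g p.1 p.2 * (rp p.1 - rm p.1) * (rp p.2 - rm p.2)) := by
    rw [e1]
    exact ((ipp.sub ipm).sub imp).add imm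
  have e2 : ∫ x, ∫ y, Gst g x y * (rp x - rm x) * (rp y - rm y) =
      ∫ p : ℂ × ℂ, Gst g p.1 p.2 * (rp p.1 - rm p.1) * (rp p.2 - rm p.2) :=
    (integral_prod (μ := (volume : Measure ℂ)) (ν := (volume : Measure ℂ)) _ i1).symm
  have i2 : Integrable (fun p : ℂ × ℂ => Gst g p.1 p.2 * (rp p.1 * rp p.2) -
      Gst g p.1 p.2 * (rp p.1 * rm p.2)) := ipp.sub ipm
  have i3 : Integrable (fun p : ℂ × ℂ => Gst g p.1 p.2 * (rp p.1 * rp p.2) -
      Gst g p.1 p.2 * (rp p.1 * rm p.2) - Gst g p.1 p.2 * (rm p.1 * rp p.2)) := i2.sub imp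
  unfold enE
  rw [e2, e1, integral_add i3 imm, integral_sub i2 imp, integral_sub ipp ipm]
  ring

/-- Law of large numbers for the energy of independent vortices. -/
theorem lln {Λ : Set ℂ} {g : ℂ → ℂ → ℝ} (hD : Dom Λ g) (hm : Measurable (Function.uncurry g))
    {K : Set ℂ} (hK : IsCompact K) (hKΛ : K ⊆ Λ) {rp rm : ℂ → ℝ} (hrp : Nice K rp)
    (hrm : Nice K rm) {η κ : ℝ} (hη : 0 < η) (hκ : 0 < κ) : ∃ m₀ : ℕ, ∀ m ≥ m₀,
      (mixP rp rm m).real {x | η * (m : ℝ) ^ 2 ≤
        |energy g (chg m) x - (m : ℝ) ^ 2 * enE g rp rm|} ≤ κ := by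
  classical
  have hGm : Measurable (fun p : ℂ × ℂ => Gst g p.1 p.2) := by
    have : (fun p : ℂ × ℂ => Gst g p.1 p.2) = fun p => g p.1 p.2 - Real.log ‖p.1 - p.2‖ := by
      funext p; exact Gst_eq _ _ _
    rw [this]
    exact hm.sub (Real.measurable_log.comp (measurable_fst.sub measurable_snd).norm)
  obtain ⟨C, hC⟩ := (hK.prod hK).exists_bound_of_continuousOn
    (f := fun p : ℂ × ℂ => g p.1 p.2) (fun p hp =>
      (gg_contDiffAt hD (hKΛ hp.1) (hKΛ hp.2)).continuousAt.continuousWithinAt)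
  have ip := lln_isProb hrp
  have im := lln_isProb hrm
  set Mpp := ∫ p, Gst g p.1 p.2 ∂((densM rp).prod (densM rp)) with hMpp
  set Mpm := ∫ p, Gst g p.1 p.2 ∂((densM rp).prod (densM rm)) with hMpm
  set Mmp := ∫ p, Gst g p.1 p.2 ∂((densM rm).prod (densM rp)) with hMmp
  set Mmm := ∫ p, Gst g p.1 p.2 ∂((densM rm).prod (densM rm)) with hMmm
  have hEn := lln_enE hD hm hKΛ hrp hrm
  rw [← hMpp, ← hMpm, ← hMmp, ← hMmm] at hEn
  set Vpp := ∫ p, (Gst g p.1 p.2) ^ 2 ∂((densM rp).prod (densM rp)) with hVpp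
  set Vpm := ∫ p, (Gst g p.1 p.2) ^ 2 ∂((densM rp).prod (densM rm)) with hVpm
  set Vmp := ∫ p, (Gst g p.1 p.2) ^ 2 ∂((densM rm).prod (densM rp)) with hVmp
  set Vmm := ∫ p, (Gst g p.1 p.2) ^ 2 ∂((densM rm).prod (densM rm)) with hVmm
  have v1 : 0 ≤ Vpp := integral_nonneg fun _ => sq_nonneg _
  have v2 : 0 ≤ Vpm := integral_nonneg fun _ => sq_nonneg _
  have v3 : 0 ≤ Vmp := integral_nonneg fun _ => sq_nonneg _
  have v4 : 0 ≤ Vmm := integral_nonneg fun _ => sq_nonneg _
  set V := Vpp + Vpm + Vmp + Vmm with hV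
  have hV0 : 0 ≤ V := by positivity
  set C' := (|Mpp| + |Mmm|) / 2 + |C| with hC'
  obtain ⟨m1, hm1⟩ := exists_nat_ge (2 * C' / η)
  obtain ⟨m2, hm2⟩ := exists_nat_ge (32 * V / (η ^ 2 * κ))
  refine ⟨m1 + m2 + 1, fun m hmge => ?_⟩
  have hmR : (1 : ℝ) ≤ m := by exact_mod_cast (by omega : 1 ≤ m)
  have hmpos : (0 : ℝ) < m := by linarith
  have hmA : 2 * C' ≤ η * m := by
    have h1 : 2 * C' / η ≤ m := hm1.trans (by exact_mod_cast (by omega : m1 ≤ m))
    rw [div_le_iff₀ hη] at h1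
    linarith
  have hmB : 32 * V ≤ η ^ 2 * κ * m := by
    have h1 : 32 * V / (η ^ 2 * κ) ≤ m := hm2.trans (by exact_mod_cast (by omega : m2 ≤ m))
    rw [div_le_iff₀ (by positivity)] at h1
    linarith
  -- the product measure
  set ν : Fin m ⊕ Fin m → Measure ℂ :=
    fun i => Sum.elim (fun _ => densM rp) (fun _ => densM rm) i with hν
  have hνp : ∀ i, IsProbabilityMeasure (ν i) := by
    rintro (i | i)
    · exact ip
    · exact im
  have hmix : mixP rp rm m = Measure.pi ν := rfl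
  set c := chg m with hc
  have hc2 : ∀ i, c i ^ 2 = 1 := by
    rintro (i | i) <;> simp [hc, chg]
  set M : Fin m ⊕ Fin m → Fin m ⊕ Fin m → ℝ := fun i j =>
    ∫ p, Gst g p.1 p.2 ∂((ν i).prod (ν j)) with hM
  set f : Fin m ⊕ Fin m → Fin m ⊕ Fin m → ℂ × ℂ → ℝ := fun i j p =>
    c i * c j * (Gst g p.1 p.2 - M i j) with hf
  have hfm : ∀ i j, Measurable (f i j) := fun i j => (hGm.sub_const _).const_mul _
  have hsqint : ∀ i j, Integrable (fun p : ℂ × ℂ => (Gst g p.1 p.2) ^ 2) ((ν i).prod (ν j)) ∧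
      ∫ p, (Gst g p.1 p.2) ^ 2 ∂((ν i).prod (ν j)) ≤ V := by
    rintro (i | i) (j | j)
    · exact ⟨lln_sq hD hm hK hKΛ hrp hrp, by
        simp only [hν, Sum.elim_inl]; rw [← hVpp, hV]; linarith⟩
    · exact ⟨lln_sq hD hm hK hKΛ hrp hrm, by
        simp only [hν, Sum.elim_inl, Sum.elim_inr]; rw [← hVpm, hV]; linarith⟩
    · exact ⟨lln_sq hD hm hK hKΛ hrm hrp, by
        simp only [hν, Sum.elim_inl, Sum.elim_inr]; rw [← hVmp, hV]; linarith⟩
    · exact ⟨lln_sq hD hm hK hKΛ hrm hrm, by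
        simp only [hν, Sum.elim_inr]; rw [← hVmm, hV]; linarith⟩
  have hfsq : ∀ i j p, (f i j p) ^ 2 = (Gst g p.1 p.2 - M i j) ^ 2 := by
    intro i j p
    simp only [hf]
    rw [mul_pow, mul_pow, hc2, hc2]
    ring
  obtain ⟨hS1, hS2⟩ := lln_var ν f hfm V (by
    intro i j _
    have h1 := lln_centre ((ν i).prod (ν j)) hGm (hsqint i j).1
    simp only [hfsq]
    exact ⟨h1.1, h1.2.1.trans (hsqint i j).2⟩) (by
    intro i j _
    have h1 := lln_centre ((ν i).prod (ν j)) hGm (hsqint i j).1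
    simp only [hf]
    rw [integral_const_mul, h1.2.2, mul_zero])
  set S : (Fin m ⊕ Fin m → ℂ) → ℝ := fun x => ∑ p : (Fin m ⊕ Fin m) × (Fin m ⊕ Fin m),
    if p.1 = p.2 then 0 else f p.1 p.2 (x p.1, x p.2) with hS
  have hcard : (Fintype.card (Fin m ⊕ Fin m) : ℝ) = 2 * m := by
    rw [Fintype.card_sum, Fintype.card_fin]; push_cast; ring
  rw [hcard, abs_of_nonneg hV0] at hS2
  -- the sum of the means
  have hMsum : ∑ i, ∑ j, c i * c j * M i j = (m : ℝ) ^ 2 * (2 * enE g rp rm) := by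
    have hMll : ∀ i j : Fin m, M (Sum.inl i) (Sum.inl j) = Mpp := fun _ _ => rfl
    have hMlr : ∀ i j : Fin m, M (Sum.inl i) (Sum.inr j) = Mpm := fun _ _ => rfl
    have hMrl : ∀ i j : Fin m, M (Sum.inr i) (Sum.inl j) = Mmp := fun _ _ => rfl
    have hMrr : ∀ i j : Fin m, M (Sum.inr i) (Sum.inr j) = Mmm := fun _ _ => rfl
    have hcl : ∀ i : Fin m, c (Sum.inl i) = 1 := fun _ => rfl
    have hcr : ∀ i : Fin m, c (Sum.inr i) = -1 := fun _ => rfl
    simp only [Fintype.sum_sum_type, hMll, hMlr, hMrl, hMrr, hcl, hcr, Finset.sum_const,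
      Finset.card_univ, Fintype.card_fin, nsmul_eq_mul]
    rw [hEn]
    ring
  have hMdiag : |∑ i, c i * c i * M i i| ≤ m * (|Mpp| + |Mmm|) := by
    have hMll : ∀ i : Fin m, M (Sum.inl i) (Sum.inl i) = Mpp := fun _ => rfl
    have hMrr : ∀ i : Fin m, M (Sum.inr i) (Sum.inr i) = Mmm := fun _ => rfl
    have hcl : ∀ i : Fin m, c (Sum.inl i) = 1 := fun _ => rfl
    have hcr : ∀ i : Fin m, c (Sum.inr i) = -1 := fun _ => rfl
    simp only [Fintype.sum_sum_type, hMll, hMrr, hcl, hcr, Finset.sum_const,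
      Finset.card_univ, Fintype.card_fin, nsmul_eq_mul]
    have : (m : ℝ) * (1 * 1 * Mpp) + m * (-1 * -1 * Mmm) = m * (Mpp + Mmm) := by ring
    rw [this, abs_mul, abs_of_pos hmpos]
    exact mul_le_mul_of_nonneg_left (abs_add_le _ _) hmpos.le
  have hsplit : ∀ a : (Fin m ⊕ Fin m) → (Fin m ⊕ Fin m) → ℝ,
      ∑ i, ∑ j, a i j = (∑ p : (Fin m ⊕ Fin m) × (Fin m ⊕ Fin m),
        if p.1 = p.2 then 0 else a p.1 p.2) + ∑ i, a i i := by
    intro a
    rw [Fintype.sum_prod_type, ← Finset.sum_add_distrib]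
    refine Finset.sum_congr rfl fun i _ => ?_
    have h1 : a i i = ∑ j, if i = j then a i j else 0 := by simp
    rw [h1, ← Finset.sum_add_distrib]
    refine Finset.sum_congr rfl fun j _ => ?_
    by_cases hij : i = j <;> simp [hij]
  have hdec : ∀ x : Fin m ⊕ Fin m → ℂ, 2 * energy g c x = S x +
      ((m : ℝ) ^ 2 * (2 * enE g rp rm) - ∑ i, c i * c i * M i i) + ∑ i, g (x i) (x i) := by
    intro x
    have h1 := hsplit fun i j => c i * c j * Gst g (x i) (x j)
    have h2 := hsplit fun i j => c i * c j * M i j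
    have h3 : ∑ i, c i * c i * Gst g (x i) (x i) = ∑ i, g (x i) (x i) := by
      refine Finset.sum_congr rfl fun i _ => ?_
      rw [← sq, hc2, one_mul]
      simp [Gst]
    have h4 : S x = (∑ p : (Fin m ⊕ Fin m) × (Fin m ⊕ Fin m),
        if p.1 = p.2 then 0 else c p.1 * c p.2 * Gst g (x p.1) (x p.2)) -
        ∑ p : (Fin m ⊕ Fin m) × (Fin m ⊕ Fin m),
          if p.1 = p.2 then 0 else c p.1 * c p.2 * M p.1 p.2 := by
      rw [← Finset.sum_sub_distrib]
      refine Finset.sum_congr rfl fun p _ => ?_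
      by_cases hp : p.1 = p.2
      · simp [hp]
      · simp only [hp, if_false, hf]
        ring
    unfold energy
    rw [h3] at h1
    rw [hMsum] at h2
    rw [h1, h4]
    linarith
  -- all points are in `K`
  have hKae : ∀ᵐ x ∂(Measure.pi ν), ∀ i, x i ∈ K := by
    rw [ae_all_iff]
    intro i
    have h1 : ∀ᵐ z ∂(ν i), z ∈ K := by
      have key : ∀ r : ℂ → ℝ, Nice K r → ∀ᵐ z ∂(densM r), z ∈ K := by
        intro r hr
        unfold densM
        rw [ae_withDensity_iff hr.meas.ennreal_ofReal]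
        refine ae_of_all _ fun z hz => ?_
        by_contra hcon
        rw [hr.supp z hcon, ENNReal.ofReal_zero] at hz
        exact hz rfl
      rcases i with i | i
      · exact key rp hrp
      · exact key rm hrm
    exact (measurePreserving_eval ν i).quasiMeasurePreserving.ae h1
  have hsub : ∀ᵐ x ∂(Measure.pi ν), x ∈ {x | η * (m : ℝ) ^ 2 ≤
      |energy g c x - (m : ℝ) ^ 2 * enE g rp rm|} → x ∈ {x | (η * (m : ℝ) ^ 2) ^ 2 ≤ (S x) ^ 2} := by
    filter_upwards [hKae] with x hx hxe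
    change (η * (m : ℝ) ^ 2) ^ 2 ≤ (S x) ^ 2
    change η * (m : ℝ) ^ 2 ≤ |energy g c x - (m : ℝ) ^ 2 * enE g rp rm| at hxe
    have h1 := hdec x
    have h2 : |∑ i, g (x i) (x i)| ≤ 2 * m * |C| := by
      refine (Finset.abs_sum_le_sum_abs _ _).trans ?_
      have : ∀ i ∈ (Finset.univ : Finset (Fin m ⊕ Fin m)), |g (x i) (x i)| ≤ |C| := by
        intro i _
        have := hC (x i, x i) ⟨hx i, hx i⟩
        simp only [Real.norm_eq_abs] at this
        exact this.trans (le_abs_self _)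
      refine (Finset.sum_le_sum this).trans ?_
      rw [Finset.sum_const, Finset.card_univ, nsmul_eq_mul, hcard]
    have h3 : energy g c x - (m : ℝ) ^ 2 * enE g rp rm =
        (S x - ∑ i, c i * c i * M i i + ∑ i, g (x i) (x i)) / 2 := by linarith
    rw [h3, abs_div, abs_two] at hxe
    have h4 : |S x - ∑ i, c i * c i * M i i + ∑ i, g (x i) (x i)| ≤
        |S x| + m * (|Mpp| + |Mmm|) + 2 * m * |C| := by
      refine (abs_add_le _ _).trans (add_le_add ((abs_sub _ _).trans ?_) h2)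
      exact add_le_add le_rfl hMdiag
    have h5 : 2 * (η * (m : ℝ) ^ 2) ≤ |S x| + m * (2 * C') := by
      rw [le_div_iff₀ (by norm_num)] at hxe
      have : m * (2 * C') = m * (|Mpp| + |Mmm|) + 2 * m * |C| := by rw [hC']; ring
      linarith
    have h6 : (m : ℝ) * (2 * C') ≤ η * (m : ℝ) ^ 2 := by
      calc (m : ℝ) * (2 * C') ≤ m * (η * m) := mul_le_mul_of_nonneg_left hmA hmpos.le
        _ = η * (m : ℝ) ^ 2 := by ring
    have h7 : η * (m : ℝ) ^ 2 ≤ |S x| := by linarith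
    rw [← sq_abs (S x)]
    exact pow_le_pow_left₀ (by positivity) h7 2
  have hle : (Measure.pi ν).real {x | η * (m : ℝ) ^ 2 ≤
      |energy g c x - (m : ℝ) ^ 2 * enE g rp rm|} ≤
      (Measure.pi ν).real {x | (η * (m : ℝ) ^ 2) ^ 2 ≤ (S x) ^ 2} := by
    rw [measureReal_def, measureReal_def]
    exact ENNReal.toReal_mono (measure_ne_top _ _) (measure_mono_ae hsub)
  have hmarkov := mul_meas_ge_le_integral_of_nonneg (μ := Measure.pi ν)
    (f := fun x => (S x) ^ 2) (ae_of_all _ fun x => sq_nonneg _) hS1 ((η * (m : ℝ) ^ 2) ^ 2)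
  rw [hmix]
  refine hle.trans ?_
  have hpos : 0 < (η * (m : ℝ) ^ 2) ^ 2 := by positivity
  have h8 : (η * (m : ℝ) ^ 2) ^ 2 * (Measure.pi ν).real
      {x | (η * (m : ℝ) ^ 2) ^ 2 ≤ (S x) ^ 2} ≤ 4 * (2 * (m : ℝ)) ^ 3 * V := hmarkov.trans hS2
  have h9 : 4 * (2 * (m : ℝ)) ^ 3 * V ≤ (η * (m : ℝ) ^ 2) ^ 2 * κ := by
    calc 4 * (2 * (m : ℝ)) ^ 3 * V = (m : ℝ) ^ 3 * (32 * V) := by ring
      _ ≤ (m : ℝ) ^ 3 * (η ^ 2 * κ * m) := mul_le_mul_of_nonneg_left hmB (by positivity)
      _ = (η * (m : ℝ) ^ 2) ^ 2 * κ := by ring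
  exact le_of_mul_le_mul_left (h8.trans h9) hpos

end Pool.Agent.Lib.MP_fa244c_mp
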