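import Pool.Agent.Lib.MP_fa244c_mp.NDDefs
import Pool.Agent.Lib.MP_fa244c_mp.Couple
import Pool.Agent.Lib.MP_fa244c_mp.LLN

set_option autoImplicit false

open MeasureTheory Filter Topology Set Metric

namespace Pool.Agent.Lib.MP_fa244c_mp

/-- The properties of the coupling used for the lower bound. -/
structure Coup (K : Set ℂ) (b₀ : ℂ) (rb : ℝ) (r₀ r₁ : ℂ → ℝ) (B : ℝ) (π : Measure (ℂ × ℂ)) :
    Prop where
  prob : IsProbabilityMeasure π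
  fst : π.map Prod.fst = densM r₀
  snd : π.map Prod.snd = densM r₁
  supp : ∀ᵐ p ∂π, p.1 ∈ K ∧ p.2 ∈ K ∧ (p.1 = p.2 ∨
    (p.1 ∈ closedBall b₀ rb ∧ p.2 ∈ closedBall b₀ rb))
  B_pos : 0 < B
  law : ∀ s : ℝ, 0 ≤ s → s ≤ 1 → ∀ A : Set ℂ, MeasurableSet A →
    π (lineP s ⁻¹' A) ≤ ENNReal.ofReal B * volume (A ∩ K)
  close : ∀ (w : ℂ) (η : ℝ), 0 < η → η ≤ 1 →
    π {p | p.1 ≠ p.2 ∧ ∃ s : ℝ, 0 ≤ s ∧ s ≤ 1 ∧ ‖lineP s p - w‖ < η} ≤ ENNReal.ofReal (B * η)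

theorem NiceData.exists_coup {Λ : Set ℂ} {g : ℂ → ℂ → ℝ} {ε : ℝ} {K : Set ℂ} {b₀ : ℂ} {rb θ : ℝ}
    {r₀ r₁ rm ν : ℂ → ℝ} (hN : NiceData Λ g ε K b₀ rb θ r₀ r₁ rm ν) :
    ∃ (B : ℝ) (π : Measure (ℂ × ℂ)), Coup K b₀ rb r₀ r₁ B π := by
  obtain ⟨π, h1, h2, h3, h4, B, hB, h5, h6⟩ := exists_coupling hN.compact hN.rb_pos hN.ball hN.θ_pos
    hN.θ_le hN.nice₀ hN.nice₁ hN.niceν hN.r₁_eq
  exact ⟨B, π, h1, h2, h3, h4, hB, h5, h6⟩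

/-- The law of the initial and final positions of all vortices: positive vortices are coupled by
`π`, negative ones do not move. -/
noncomputable def Om (π : Measure (ℂ × ℂ)) (rm : ℂ → ℝ) (m : ℕ) :
    Measure (Fin m ⊕ Fin m → ℂ × ℂ) :=
  Measure.pi (fun i => Sum.elim (fun _ => π) (fun _ => (densM rm).map (fun y => (y, y))) i)

/-- The path: at times `t ∈ [k, k+1]` the `k`-th positive vortex moves. -/
noncomputable def pathP {m : ℕ} (ω : Fin m ⊕ Fin m → ℂ × ℂ) (t : ℝ) : Fin m ⊕ Fin m → ℂ :=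
  Sum.elim (fun k => lineP (max 0 (min 1 (t - (k : ℝ)))) (ω (Sum.inl k)))
    (fun k => (ω (Sum.inr k)).1)

/-- The density (relative to the uniform distribution) of all vortices except the `k`-th positive
one while this one moves. -/
noncomputable def prodF (Λ : Set ℂ) (r₀ r₁ rm : ℂ → ℝ) {m : ℕ} (k : Fin m)
    (ω : Fin m ⊕ Fin m → ℂ × ℂ) : ℝ :=
  (∏ l ∈ Finset.univ.filter (· < k), volume.real Λ * r₁ (ω (Sum.inl l)).2) *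
  (∏ l ∈ Finset.univ.filter (k < ·), volume.real Λ * r₀ (ω (Sum.inl l)).1) *
  ∏ j : Fin m, volume.real Λ * rm (ω (Sum.inr j)).1

/-- No moving segment comes closer than `η` to the initial or final position of another
vortex. -/
def NoClose {m : ℕ} (η : ℝ) (ω : Fin m ⊕ Fin m → ℂ × ℂ) : Prop :=
  ∀ k : Fin m, (ω (Sum.inl k)).1 ≠ (ω (Sum.inl k)).2 → ∀ j, j ≠ Sum.inl k → ∀ s : ℝ, 0 ≤ s →
    s ≤ 1 → η ≤ ‖lineP s (ω (Sum.inl k)) - (ω j).1‖ ∧ η ≤ ‖lineP s (ω (Sum.inl k)) - (ω j).2‖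

/-- All positions in `K`; moving vortices stay in the ball. -/
def InK {m : ℕ} (K : Set ℂ) (b₀ : ℂ) (rb : ℝ) (ω : Fin m ⊕ Fin m → ℂ × ℂ) : Prop :=
  (∀ i, (ω i).1 ∈ K ∧ (ω i).2 ∈ K) ∧ (∀ j, (ω (Sum.inr j)).1 = (ω (Sum.inr j)).2) ∧
  ∀ k, (ω (Sum.inl k)).1 = (ω (Sum.inl k)).2 ∨
    ((ω (Sum.inl k)).1 ∈ closedBall b₀ rb ∧ (ω (Sum.inl k)).2 ∈ closedBall b₀ rb)

end Pool.Agent.Lib.MP_fa244c_mp
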