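import Pool.Agent.Lib.MP_fa244c_mp.LBDefs

set_option autoImplicit false

open MeasureTheory Filter Topology Set Metric

namespace Pool.Agent.Lib.MP_fa244c_mp

namespace LBLaw

/-- Product measures are monotone. -/
theorem pi_mono_meas {ι : Type*} [Fintype ι] {α : ι → Type*} [∀ i, MeasurableSpace (α i)]
    {μ ν : ∀ i, Measure (α i)} (h : ∀ i, μ i ≤ ν i) : Measure.pi μ ≤ Measure.pi ν := by
  refine Measure.le_iff.2 fun S hS => ?_
  rw [Measure.pi, Measure.pi, toMeasure_apply _ _ hS, toMeasure_apply _ _ hS]
  have key : OuterMeasure.pi (fun i => (μ i).toOuterMeasure) ≤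
      OuterMeasure.pi (fun i => (ν i).toOuterMeasure) := by
    rw [OuterMeasure.le_pi]
    intro s _
    refine (OuterMeasure.pi_pi_le _ _).trans ?_
    exact Finset.prod_le_prod' fun i _ => Measure.le_iff'.1 (h i) (s i)
  exact key S

/-- Products of lower integrals. -/
theorem lintegral_prod_ofReal {ι : Type*} [Fintype ι] {P : Measure ℂ} [SigmaFinite P]
    {f : ι → ℂ → ℝ} (h0 : ∀ i x, 0 ≤ f i x) (hi : ∀ i, Integrable (f i) P) :
    ∫⁻ x : ι → ℂ, ∏ i, ENNReal.ofReal (f i (x i)) ∂(Measure.pi fun _ => P) =
      ∏ i, ∫⁻ x, ENNReal.ofReal (f i x) ∂P := by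
  have h1 : ∀ x : ι → ℂ, ∏ i, ENNReal.ofReal (f i (x i)) = ENNReal.ofReal (∏ i, f i (x i)) :=
    fun x => (ENNReal.ofReal_prod_of_nonneg fun i _ => h0 i (x i)).symm
  simp_rw [h1]
  rw [← ofReal_integral_eq_lintegral_ofReal (Integrable.fintype_prod hi)
    (Eventually.of_forall fun x => Finset.prod_nonneg fun i _ => h0 i (x i)),
    integral_fintype_prod_eq_prod f, ENNReal.ofReal_prod_of_nonneg
    (fun i _ => integral_nonneg (h0 i))]
  exact Finset.prod_congr rfl fun i _ => ofReal_integral_eq_lintegral_ofReal (hi i)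
    (Eventually.of_forall (h0 i))

/-- A product of measures with bounded densities. -/
theorem pi_withDensity {ι : Type*} [Fintype ι] {P : Measure ℂ} [IsFiniteMeasure P]
    {f : ι → ℂ → ℝ} (h0 : ∀ i x, 0 ≤ f i x) (hm : ∀ i, Measurable (f i))
    (hb : ∀ i, ∃ C, ∀ x, f i x ≤ C) :
    Measure.pi (fun i => P.withDensity (fun x => ENNReal.ofReal (f i x))) =
      (Measure.pi fun _ : ι => P).withDensity (fun x => ∏ i, ENNReal.ofReal (f i (x i))) := by
  have hfin : ∀ i, IsFiniteMeasure (P.withDensity (fun x => ENNReal.ofReal (f i x))) := by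
    intro i
    obtain ⟨C, hC⟩ := hb i
    refine isFiniteMeasure_withDensity_ofReal ?_
    exact (Integrable.of_bound (hm i).aestronglyMeasurable C (Eventually.of_forall fun x => by
      rw [Real.norm_eq_abs, abs_of_nonneg (h0 i x)]; exact hC x)).2
  refine Measure.pi_eq fun s hs => ?_
  rw [withDensity_apply _ (MeasurableSet.univ_pi hs), ← lintegral_indicator (MeasurableSet.univ_pi hs)]
  have h1 : ∀ x : ι → ℂ, (univ.pi s).indicator (fun x => ∏ i, ENNReal.ofReal (f i (x i))) x =
      ∏ i, ENNReal.ofReal ((s i).indicator (f i) (x i)) := by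
    intro x
    by_cases hx : x ∈ univ.pi s
    · rw [indicator_of_mem hx]
      refine Finset.prod_congr rfl fun i _ => ?_
      rw [indicator_of_mem (hx i (mem_univ i))]
    · rw [indicator_of_notMem hx]
      have : ∃ i, x i ∉ s i := by
        by_contra h
        push Not at h
        exact hx fun i _ => h i
      obtain ⟨i, hi⟩ := this
      symm
      refine Finset.prod_eq_zero (Finset.mem_univ i) ?_
      rw [indicator_of_notMem hi, ENNReal.ofReal_zero]
  simp_rw [h1]
  have hind0 : ∀ i x, 0 ≤ (s i).indicator (f i) x := fun i x =>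
    indicator_nonneg (fun y _ => h0 i y) x
  rw [lintegral_prod_ofReal hind0]
  · refine Finset.prod_congr rfl fun i _ => ?_
    rw [withDensity_apply _ (hs i), ← lintegral_indicator (hs i)]
    refine lintegral_congr fun x => ?_
    by_cases hx : x ∈ s i
    · rw [indicator_of_mem hx, indicator_of_mem hx]
    · rw [indicator_of_notMem hx, indicator_of_notMem hx, ENNReal.ofReal_zero]
  · intro i
    obtain ⟨C, hC⟩ := hb i
    have hi : Integrable (f i) P := Integrable.of_bound (hm i).aestronglyMeasurable C
      (Eventually.of_forall fun x => by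
        rw [Real.norm_eq_abs, abs_of_nonneg (h0 i x)]; exact hC x)
    exact hi.indicator (hs i)

/-- A density supported in `Λ` as a density with respect to the uniform distribution. -/
theorem densM_eq {Λ : Set ℂ} {g : ℂ → ℂ → ℝ} (hD : Dom Λ g) {ρ : ℂ → ℝ} (hm : Measurable ρ)
    (hs : ∀ x, x ∉ Λ → ρ x = 0) :
    densM ρ = (unif Λ).withDensity (fun x => ENNReal.ofReal (volume.real Λ * ρ x)) := by
  have hΛm : MeasurableSet Λ := hD.isOpen.measurableSet
  have hv0 := vol_pos hD
  have hvne : volume Λ ≠ 0 := (hD.isOpen.measure_pos _ hD.ne).ne'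
  have hvtop : volume Λ ≠ ⊤ := hD.bdd.measure_lt_top.ne
  have h1 : (fun x => ENNReal.ofReal (volume.real Λ * ρ x)) =
      volume Λ • (fun x => ENNReal.ofReal (ρ x)) := by
    ext x
    rw [Pi.smul_apply, smul_eq_mul, ENNReal.ofReal_mul hv0.le, measureReal_def,
      ENNReal.ofReal_toReal hvtop]
  rw [h1, withDensity_smul _ hm.ennreal_ofReal, unif, withDensity_smul_measure, smul_smul,
    ENNReal.mul_inv_cancel hvne hvtop, one_smul, densM, ← withDensity_indicator hΛm]
  congr 1
  ext x
  by_cases hx : x ∈ Λ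
  · rw [indicator_of_mem hx]
  · rw [indicator_of_notMem hx, hs x hx, ENNReal.ofReal_zero]

theorem isProb_densM {K : Set ℂ} {ρ : ℂ → ℝ} (h : Nice K ρ) : IsProbabilityMeasure (densM ρ) := by
  have hi : Integrable ρ := by
    by_contra hc
    have := h.int
    rw [integral_undef hc] at this
    norm_num at this
  constructor
  rw [densM, withDensity_apply _ MeasurableSet.univ, Measure.restrict_univ,
    ← ofReal_integral_eq_lintegral_ofReal hi (Eventually.of_forall h.nonneg), h.int,
    ENNReal.ofReal_one]

theorem prod_split {m : ℕ} (k : Fin m) (h : Fin m → ENNReal) :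
    ∏ l, h l = (∏ l ∈ Finset.univ.filter (· < k), h l) *
      (h k * ∏ l ∈ Finset.univ.filter (k < ·), h l) := by
  rw [← Finset.prod_filter_mul_prod_filter_not Finset.univ (· < k)]
  congr 1
  have e : Finset.univ.filter (fun l : Fin m => ¬ l < k) =
      insert k (Finset.univ.filter (k < ·)) := by
    ext l
    simp only [Finset.mem_filter, Finset.mem_univ, true_and, Finset.mem_insert, not_lt]
    constructor
    · intro hl
      rcases eq_or_lt_of_le hl with h | h
      · exact Or.inl h.symm
      · exact Or.inr h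
    · rintro (h | h)
      · exact h.ge
      · exact h.le
  rw [e, Finset.prod_insert (by simp)]

end LBLaw

open LBLaw in
/-- Domination of the law of the path at a fixed time. -/
theorem law_path {Λ : Set ℂ} {g : ℂ → ℂ → ℝ} (hD : Dom Λ g) {K : Set ℂ} (hKΛ : K ⊆ Λ)
    (hK : IsCompact K) {b₀ : ℂ} {rb B : ℝ} {r₀ r₁ rm : ℂ → ℝ} {π : Measure (ℂ × ℂ)}
    (hπ : Coup K b₀ rb r₀ r₁ B π) (h0 : Nice K r₀) (h1 : Nice K r₁) (hrm : Nice K rm) {m : ℕ}
    (hm : 1 ≤ m) {t : ℝ} (ht : t ∈ Icc (0 : ℝ) m) {M : ℝ} (hM : 0 < M)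
    {A : Set (Fin m ⊕ Fin m → ℂ)} (hA : MeasurableSet A) :
    (Om π rm m).real {ω | (∀ k : Fin m, prodF Λ r₀ r₁ rm k ω ≤ M) ∧ pathP ω t ∈ A} ≤
      B * volume.real Λ * M * (PP Λ (Fin m ⊕ Fin m)).real A := by
  classical
  have hPu := isProb_unif hD
  have hPP := isProb_PP hD (Fin m ⊕ Fin m)
  have hV : 0 < volume.real Λ := vol_pos hD
  have hB := hπ.B_pos
  have hπp := hπ.prob
  have hΛm : MeasurableSet Λ := hD.isOpen.measurableSet
  -- the index of the moving vortex
  obtain ⟨k, hk0, hk1⟩ : ∃ k : Fin m, (k : ℝ) ≤ t ∧ t ≤ (k : ℝ) + 1 := by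
    by_cases h : ⌊t⌋₊ < m
    · exact ⟨⟨⌊t⌋₊, h⟩, Nat.floor_le ht.1, (Nat.lt_floor_add_one t).le⟩
    · refine ⟨⟨m - 1, by omega⟩, ?_, ?_⟩
      · have h2 : (m : ℝ) ≤ ⌊t⌋₊ := by exact_mod_cast not_lt.1 h
        have h3 := Nat.floor_le ht.1
        have h4 : ((m - 1 : ℕ) : ℝ) ≤ m := by exact_mod_cast Nat.sub_le m 1
        simp only
        linarith
      · have h4 : ((m - 1 : ℕ) : ℝ) + 1 = m := by
          rw [Nat.cast_sub hm]; simp
        simp only
        linarith [ht.2]
  -- the coordinate maps
  let T : Fin m ⊕ Fin m → ℂ × ℂ → ℂ := Sum.elim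
    (fun l => lineP (max 0 (min 1 (t - (l : ℝ))))) (fun _ => Prod.fst)
  have hTm : ∀ i, Measurable (T i) := by
    rintro (l | j)
    · show Measurable (lineP _)
      unfold lineP
      fun_prop
    · exact measurable_fst
  have hpath : ∀ ω : Fin m ⊕ Fin m → ℂ × ℂ, pathP ω t = fun i => T i (ω i) := by
    intro ω
    ext i
    rcases i with l | j <;> rfl
  -- the dominating densities
  let f : Fin m ⊕ Fin m → ℂ → ℝ := Sum.elim
    (fun l x => if l < k then volume.real Λ * r₁ x else if k < l then volume.real Λ * r₀ x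
      else B * volume.real Λ) (fun _ x => volume.real Λ * rm x)
  have hf0 : ∀ i x, 0 ≤ f i x := by
    rintro (l | j) x
    · simp only [f, Sum.elim_inl]
      split_ifs
      · exact mul_nonneg hV.le (h1.nonneg x)
      · exact mul_nonneg hV.le (h0.nonneg x)
      · positivity
    · exact mul_nonneg hV.le (hrm.nonneg x)
  have hfm : ∀ i, Measurable (f i) := by
    rintro (l | j)
    · simp only [f, Sum.elim_inl]
      split_ifs
      · exact h1.meas.const_mul _
      · exact h0.meas.const_mul _
      · exact measurable_const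
    · exact hrm.meas.const_mul _
  obtain ⟨C₀, hC₀⟩ := h0.bdd
  obtain ⟨C₁, hC₁⟩ := h1.bdd
  obtain ⟨Cm, hCm⟩ := hrm.bdd
  have hfb : ∀ i, ∃ C, ∀ x, f i x ≤ C := by
    rintro (l | j)
    · simp only [f, Sum.elim_inl]
      split_ifs
      · exact ⟨volume.real Λ * C₁, fun x => by have := hC₁ x; gcongr⟩
      · exact ⟨volume.real Λ * C₀, fun x => by have := hC₀ x; gcongr⟩
      · exact ⟨_, fun x => le_rfl⟩
    · exact ⟨volume.real Λ * Cm, fun x => by
        have := hCm x
        simp only [f, Sum.elim_inr]
        gcongr⟩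
  let base : Fin m ⊕ Fin m → Measure (ℂ × ℂ) :=
    fun i => Sum.elim (fun _ => π) (fun _ => (densM rm).map (fun y => (y, y))) i
  have hdm : Measurable (fun x : ℂ => (x, x)) := by fun_prop
  have hprm := isProb_densM hrm
  have hbase : ∀ i, IsProbabilityMeasure (base i) := by
    rintro (l | j)
    · exact hπp
    · exact Measure.isProbabilityMeasure_map hdm.aemeasurable
  have hle : ∀ i, (base i).map (T i) ≤
      (unif Λ).withDensity (fun x => ENNReal.ofReal (f i x)) := by
    rintro (l | j)
    · rcases lt_trichotomy l k with h | h | h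
      · have hl : (l : ℝ) + 1 ≤ k := by exact_mod_cast h
        have hT : T (Sum.inl l) = Prod.snd := by
          ext p
          have hmm : max 0 (min 1 (t - (l : ℝ))) = 1 := by
            rw [min_eq_left (by linarith), max_eq_right (by norm_num)]
          simp only [T, Sum.elim_inl, hmm, lineP]
          simp
        have hf : f (Sum.inl l) = fun x => volume.real Λ * r₁ x := by
          ext x; simp only [f, Sum.elim_inl, if_pos h]
        rw [hT, hf, ← densM_eq hD h1.meas (fun x hx => h1.supp x fun h => hx (hKΛ h))]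
        exact hπ.snd.le
      · subst h
        have hf : f (Sum.inl l) = fun _ => B * volume.real Λ := by
          ext x; simp only [f, Sum.elim_inl, lt_irrefl, if_false]
        rw [hf]
        refine Measure.le_iff.2 fun S hS => ?_
        rw [Measure.map_apply (hTm _) hS, withDensity_const, Measure.smul_apply, smul_eq_mul]
        have hmm0 : 0 ≤ max 0 (min 1 (t - (l : ℝ))) := le_max_left _ _
        have hmm1 : max 0 (min 1 (t - (l : ℝ))) ≤ 1 := max_le (by norm_num) (min_le_left _ _)
        refine (hπ.law _ hmm0 hmm1 S hS).trans ?_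
        rw [unif, Measure.smul_apply, Measure.restrict_apply hS, smul_eq_mul,
          ENNReal.ofReal_mul hB.le, measureReal_def, ENNReal.ofReal_toReal hD.bdd.measure_lt_top.ne]
        calc ENNReal.ofReal B * volume (S ∩ K) ≤ ENNReal.ofReal B * volume (S ∩ Λ) := by
              gcongr
          _ = ENNReal.ofReal B * ((volume Λ * (volume Λ)⁻¹) * volume (S ∩ Λ)) := by
              rw [ENNReal.mul_inv_cancel (hD.isOpen.measure_pos _ hD.ne).ne'
                hD.bdd.measure_lt_top.ne, one_mul]
          _ = ENNReal.ofReal B * volume Λ * ((volume Λ)⁻¹ * volume (S ∩ Λ)) := by ring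
          _ ≤ _ := le_rfl
      · have hl : (k : ℝ) + 1 ≤ l := by exact_mod_cast h
        have hT : T (Sum.inl l) = Prod.fst := by
          ext p
          have hmm : max 0 (min 1 (t - (l : ℝ))) = 0 := by
            rw [max_eq_left]
            exact (min_le_right _ _).trans (by linarith)
          simp only [T, Sum.elim_inl, hmm, lineP]
          simp
        have hf : f (Sum.inl l) = fun x => volume.real Λ * r₀ x := by
          ext x; simp only [f, Sum.elim_inl, if_neg (not_lt_of_gt h), if_pos h]
        rw [hT, hf, ← densM_eq hD h0.meas (fun x hx => h0.supp x fun h => hx (hKΛ h))]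
        exact hπ.fst.le
    · have hf : f (Sum.inr j) = fun x => volume.real Λ * rm x := rfl
      rw [hf, ← densM_eq hD hrm.meas (fun x hx => hrm.supp x fun h => hx (hKΛ h))]
      show ((densM rm).map (fun y => (y, y))).map Prod.fst ≤ densM rm
      rw [Measure.map_map measurable_fst hdm]
      have e1 : (Prod.fst ∘ fun x : ℂ => (x, x)) = id := rfl
      rw [e1, Measure.map_id]
  -- the set
  let F : (Fin m ⊕ Fin m → ℂ) → ℝ := fun x =>
    (∏ l ∈ Finset.univ.filter (· < k), volume.real Λ * r₁ (x (Sum.inl l))) *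
    (∏ l ∈ Finset.univ.filter (k < ·), volume.real Λ * r₀ (x (Sum.inl l))) *
    ∏ j : Fin m, volume.real Λ * rm (x (Sum.inr j))
  have hFm : Measurable F := by
    refine Measurable.mul (Measurable.mul ?_ ?_) ?_
    · exact Finset.measurable_prod _ fun l _ => (h1.meas.comp (measurable_pi_apply _)).const_mul _
    · exact Finset.measurable_prod _ fun l _ => (h0.meas.comp (measurable_pi_apply _)).const_mul _
    · exact Finset.measurable_prod _ fun l _ => (hrm.meas.comp (measurable_pi_apply _)).const_mul _
  let S : Set (Fin m ⊕ Fin m → ℂ) := {x | F x ≤ M} ∩ A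
  have hS : MeasurableSet S := (measurableSet_le hFm measurable_const).inter hA
  have hpm : Measurable (fun (ω : Fin m ⊕ Fin m → ℂ × ℂ) (i : Fin m ⊕ Fin m) => T i (ω i)) :=
    measurable_pi_lambda _ fun i => (hTm i).comp (measurable_pi_apply i)
  have hsub : {ω | (∀ k : Fin m, prodF Λ r₀ r₁ rm k ω ≤ M) ∧ pathP ω t ∈ A} ⊆
      (fun (ω : Fin m ⊕ Fin m → ℂ × ℂ) (i : Fin m ⊕ Fin m) => T i (ω i)) ⁻¹' S := by
    rintro ω ⟨hω1, hω2⟩
    rw [hpath] at hω2
    refine ⟨?_, hω2⟩
    have h3 := hω1 k
    refine le_trans (le_of_eq ?_) h3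
    simp only [F, prodF]
    congr 1
    congr 1
    · refine Finset.prod_congr rfl fun l hl => ?_
      have h : l < k := (Finset.mem_filter.1 hl).2
      have hl : (l : ℝ) + 1 ≤ k := by exact_mod_cast h
      have hmm : max 0 (min 1 (t - (l : ℝ))) = 1 := by
        rw [min_eq_left (by linarith), max_eq_right (by norm_num)]
      simp only [T, Sum.elim_inl, hmm, lineP]
      simp
    · refine Finset.prod_congr rfl fun l hl => ?_
      have h : k < l := (Finset.mem_filter.1 hl).2
      have hl : (k : ℝ) + 1 ≤ l := by exact_mod_cast h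
      have hmm : max 0 (min 1 (t - (l : ℝ))) = 0 := by
        rw [max_eq_left]
        exact (min_le_right _ _).trans (by linarith)
      simp only [T, Sum.elim_inl, hmm, lineP]
      simp
  have hmain : Om π rm m {ω | (∀ k : Fin m, prodF Λ r₀ r₁ rm k ω ≤ M) ∧ pathP ω t ∈ A} ≤
      ENNReal.ofReal (B * volume.real Λ * M) * PP Λ (Fin m ⊕ Fin m) A := by
    have hmapfin : ∀ i, IsProbabilityMeasure ((base i).map (T i)) := fun i => by
      have := hbase i
      exact Measure.isProbabilityMeasure_map (hTm i).aemeasurable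
    calc Om π rm m {ω | (∀ k : Fin m, prodF Λ r₀ r₁ rm k ω ≤ M) ∧ pathP ω t ∈ A}
        ≤ Om π rm m ((fun (ω : Fin m ⊕ Fin m → ℂ × ℂ) (i : Fin m ⊕ Fin m) => T i (ω i)) ⁻¹' S) :=
          measure_mono hsub
      _ = (Measure.pi base).map (fun ω i => T i (ω i)) S := by
          rw [Measure.map_apply hpm hS]; rfl
      _ = Measure.pi (fun i => (base i).map (T i)) S := by
          rw [Measure.pi_map_pi fun i => (hTm i).aemeasurable]
      _ ≤ Measure.pi (fun i => (unif Λ).withDensity (fun x => ENNReal.ofReal (f i x))) S :=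
          pi_mono_meas hle S
      _ = ∫⁻ x in S, ∏ i, ENNReal.ofReal (f i (x i)) ∂(PP Λ (Fin m ⊕ Fin m)) := by
          rw [pi_withDensity hf0 hfm hfb, withDensity_apply _ hS]; rfl
      _ ≤ ∫⁻ _ in S, ENNReal.ofReal (B * volume.real Λ * M) ∂(PP Λ (Fin m ⊕ Fin m)) := by
          refine setLIntegral_mono' hS fun x hx => ?_
          have e1 : ∏ i, ENNReal.ofReal (f i (x i)) =
              ENNReal.ofReal (B * volume.real Λ * F x) := by
            rw [Fintype.prod_sum_type, prod_split k]
            have a1 : ∏ l ∈ Finset.univ.filter (· < k), ENNReal.ofReal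
                (f (Sum.inl l) (x (Sum.inl l))) = ENNReal.ofReal
                (∏ l ∈ Finset.univ.filter (· < k), volume.real Λ * r₁ (x (Sum.inl l))) := by
              rw [ENNReal.ofReal_prod_of_nonneg fun l _ => mul_nonneg hV.le (h1.nonneg _)]
              refine Finset.prod_congr rfl fun l hl => ?_
              simp only [f, Sum.elim_inl, if_pos (Finset.mem_filter.1 hl).2]
            have a2 : ∏ l ∈ Finset.univ.filter (k < ·), ENNReal.ofReal
                (f (Sum.inl l) (x (Sum.inl l))) = ENNReal.ofReal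
                (∏ l ∈ Finset.univ.filter (k < ·), volume.real Λ * r₀ (x (Sum.inl l))) := by
              rw [ENNReal.ofReal_prod_of_nonneg fun l _ => mul_nonneg hV.le (h0.nonneg _)]
              refine Finset.prod_congr rfl fun l hl => ?_
              have hl := (Finset.mem_filter.1 hl).2
              simp only [f, Sum.elim_inl, if_neg (not_lt_of_gt hl), if_pos hl]
            have a3 : ENNReal.ofReal (f (Sum.inl k) (x (Sum.inl k))) =
                ENNReal.ofReal (B * volume.real Λ) := by
              simp only [f, Sum.elim_inl, lt_irrefl, if_false]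
            have a4 : ∏ j, ENNReal.ofReal (f (Sum.inr j) (x (Sum.inr j))) = ENNReal.ofReal
                (∏ j : Fin m, volume.real Λ * rm (x (Sum.inr j))) := by
              rw [ENNReal.ofReal_prod_of_nonneg fun l _ => mul_nonneg hV.le (hrm.nonneg _)]
              rfl
            have n1 : 0 ≤ ∏ l ∈ Finset.univ.filter (· < k), volume.real Λ * r₁ (x (Sum.inl l)) :=
              Finset.prod_nonneg fun l _ => mul_nonneg hV.le (h1.nonneg _)
            have n2 : 0 ≤ ∏ l ∈ Finset.univ.filter (k < ·), volume.real Λ * r₀ (x (Sum.inl l)) :=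
              Finset.prod_nonneg fun l _ => mul_nonneg hV.le (h0.nonneg _)
            have n3 : 0 ≤ B * volume.real Λ := by positivity
            rw [a1, a2, a3, a4, ← ENNReal.ofReal_mul n3, ← ENNReal.ofReal_mul n1,
              ← ENNReal.ofReal_mul (mul_nonneg n1 (mul_nonneg n3 n2))]
            congr 1
            simp only [F]
            ring
          rw [e1]
          refine ENNReal.ofReal_le_ofReal ?_
          have : F x ≤ M := hx.1
          gcongr
      _ = ENNReal.ofReal (B * volume.real Λ * M) * PP Λ (Fin m ⊕ Fin m) S := by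
          rw [setLIntegral_const]
      _ ≤ _ := by
          gcongr
          exact inter_subset_right
  have hnn : 0 ≤ B * volume.real Λ * M := by positivity
  have h9 := ENNReal.toReal_mono (ENNReal.mul_ne_top ENNReal.ofReal_ne_top (measure_ne_top _ _))
    hmain
  rw [ENNReal.toReal_mul, ENNReal.toReal_ofReal hnn] at h9
  exact h9

end Pool.Agent.Lib.MP_fa244c_mp
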