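import Pool.Agent.Lib.MP_fa244c_mp.GreenPSD
import Pool.Agent.Lib.MP_fa244c_mp.GSmooth

set_option autoImplicit false

open MeasureTheory Filter Topology Set

namespace Pool.Agent.Lib.MP_fa244c_mp

namespace Levi

/-- The second difference quotient tends to the mixed second derivative. -/
theorem second_diff {F : ℂ × ℂ → ℝ} {x y : ℂ} (hF : ContDiffAt ℝ 2 F (x, y)) (a b : ℂ) :
    Tendsto (fun τ : ℝ => (F (x + τ * a, y + τ * b) - F (x + τ * a, y) - F (x, y + τ * b) +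
      F (x, y)) / τ ^ 2) (𝓝[>] 0) (𝓝 (fderiv ℝ (fderiv ℝ F) (x, y) (a, 0) (0, b))) := by
  have h1 : ∀ᶠ q in 𝓝 (x, y), ContDiffAt ℝ 2 F q := hF.eventually (by simp)
  have hcont : ContinuousAt (fun q => fderiv ℝ (fderiv ℝ F) q (a, 0) (0, b)) (x, y) := by
    have e1 : ContDiffAt ℝ 1 (fderiv ℝ F) (x, y) := hF.fderiv_right (m := 1) (by norm_num)
    have e2 : ContDiffAt ℝ 0 (fderiv ℝ (fderiv ℝ F)) (x, y) := e1.fderiv_right (m := 0) (by norm_num)
    exact (e2.continuousAt.clm_apply continuousAt_const).clm_apply continuousAt_const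
  rw [Metric.tendsto_nhdsWithin_nhds]
  intro ε hε
  have h2 := (Metric.continuousAt_iff.1 hcont) ε hε
  obtain ⟨r₁, hr₁, h2⟩ := h2
  obtain ⟨r₂, hr₂, h3⟩ := Metric.eventually_nhds_iff.1 h1
  let r := min r₁ r₂
  have hr : 0 < r := lt_min hr₁ hr₂
  let M : ℝ := ‖a‖ + ‖b‖ + 1
  have hM : 0 < M := by positivity
  refine ⟨r / M, div_pos hr hM, ?_⟩
  intro τ hτ hτd
  have hτ0 : 0 < τ := hτ
  have hτ1 : τ * M < r := by
    rw [Real.dist_eq, sub_zero, abs_of_pos hτ0, lt_div_iff₀ hM] at hτd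
    exact hτd
  have hmem : ∀ s t : ℝ, 0 ≤ s → s ≤ τ → 0 ≤ t → t ≤ τ →
      dist ((x + s * a, y + t * b) : ℂ × ℂ) (x, y) < r := by
    intro s t hs0 hs ht0 ht
    rw [Prod.dist_eq, max_lt_iff, dist_eq_norm, dist_eq_norm]
    simp only [add_sub_cancel_left, norm_mul, Complex.norm_real, Real.norm_eq_abs,
      abs_of_nonneg hs0, abs_of_nonneg ht0]
    constructor
    · calc s * ‖a‖ ≤ τ * M := by
            have : ‖a‖ ≤ M := by simp only [M]; linarith [norm_nonneg b]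
            gcongr
        _ < r := hτ1
    · calc t * ‖b‖ ≤ τ * M := by
            have : ‖b‖ ≤ M := by simp only [M]; linarith [norm_nonneg a]
            gcongr
        _ < r := hτ1
  have hCD : ∀ s t : ℝ, 0 ≤ s → s ≤ τ → 0 ≤ t → t ≤ τ →
      ContDiffAt ℝ 2 F (x + s * a, y + t * b) := fun s t h1 h2 h4 h5 =>
    h3 ((hmem s t h1 h2 h4 h5).trans_le (min_le_right _ _))
  -- derivative in the second variable
  have hd1 : ∀ s t : ℝ, 0 ≤ s → s ≤ τ → 0 ≤ t → t ≤ τ →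
      HasDerivAt (fun t : ℝ => F (x + s * a, y + t * b))
        (fderiv ℝ F (x + s * a, y + t * b) (0, b)) t := by
    intro s t h1 h2 h4 h5
    have e1 : HasFDerivAt F (fderiv ℝ F (x + s * a, y + t * b)) (x + s * a, y + t * b) :=
      ((hCD s t h1 h2 h4 h5).differentiableAt (by norm_num)).hasFDerivAt
    have e2 : HasDerivAt (fun t : ℝ => ((x + s * a, y + t * b) : ℂ × ℂ)) (0, b) t := by
      refine HasDerivAt.prodMk (hasDerivAt_const _ _) ?_
      have := ((Complex.ofRealCLM.hasDerivAt (x := t)).mul_const b).const_add y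
      simpa using this
    exact e1.comp_hasDerivAt t e2
  have hd2 : ∀ s t : ℝ, 0 ≤ s → s ≤ τ → 0 ≤ t → t ≤ τ →
      HasDerivAt (fun s : ℝ => fderiv ℝ F (x + s * a, y + t * b) (0, b))
        (fderiv ℝ (fderiv ℝ F) (x + s * a, y + t * b) (a, 0) (0, b)) s := by
    intro s t h1 h2 h4 h5
    have e0 : ContDiffAt ℝ 1 (fderiv ℝ F) (x + s * a, y + t * b) :=
      (hCD s t h1 h2 h4 h5).fderiv_right (m := 1) (by norm_num)
    have e1 : HasFDerivAt (fderiv ℝ F) (fderiv ℝ (fderiv ℝ F) (x + s * a, y + t * b))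
        (x + s * a, y + t * b) := (e0.differentiableAt (by norm_num)).hasFDerivAt
    have e2 : HasDerivAt (fun s : ℝ => ((x + s * a, y + t * b) : ℂ × ℂ)) (a, 0) s := by
      refine HasDerivAt.prodMk ?_ (hasDerivAt_const _ _)
      have := ((Complex.ofRealCLM.hasDerivAt (x := s)).mul_const a).const_add x
      simpa using this
    have e3 := e1.comp_hasDerivAt s e2
    exact e3.clm_apply (hasDerivAt_const s ((0, b) : ℂ × ℂ)) |>.congr_deriv (by simp)
  -- mean value theorem twice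
  let ψ : ℝ → ℝ := fun t => F (x + τ * a, y + t * b) - F (x, y + t * b)
  have hψ : ∀ t, 0 ≤ t → t ≤ τ → HasDerivAt ψ (fderiv ℝ F (x + τ * a, y + t * b) (0, b) -
      fderiv ℝ F (x + (0 : ℝ) * a, y + t * b) (0, b)) t := by
    intro t h1 h2
    have e1 := hd1 τ t hτ0.le le_rfl h1 h2
    have e2 := hd1 0 t le_rfl hτ0.le h1 h2
    have e3 := e1.sub e2
    refine e3.congr_of_eventuallyEq (Eventually.of_forall fun t => ?_)
    simp [ψ]
  obtain ⟨η, hη, hη2⟩ := exists_hasDerivAt_eq_slope ψ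
    (fun t => fderiv ℝ F (x + τ * a, y + t * b) (0, b) -
      fderiv ℝ F (x + (0 : ℝ) * a, y + t * b) (0, b)) hτ0
    (fun t ht => (hψ t ht.1 ht.2).continuousAt.continuousWithinAt)
    (fun t ht => hψ t ht.1.le ht.2.le)
  obtain ⟨ξ, hξ, hξ2⟩ := exists_hasDerivAt_eq_slope
    (fun s : ℝ => fderiv ℝ F (x + s * a, y + η * b) (0, b))
    (fun s => fderiv ℝ (fderiv ℝ F) (x + s * a, y + η * b) (a, 0) (0, b)) hτ0
    (fun s hs => (hd2 s η hs.1 hs.2 hη.1.le hη.2.le).continuousAt.continuousWithinAt)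
    (fun s hs => hd2 s η hs.1.le hs.2.le hη.1.le hη.2.le)
  have hq : (F (x + τ * a, y + τ * b) - F (x + τ * a, y) - F (x, y + τ * b) + F (x, y)) / τ ^ 2 =
      fderiv ℝ (fderiv ℝ F) (x + ξ * a, y + η * b) (a, 0) (0, b) := by
    rw [hξ2]
    rw [hη2]
    simp only [ψ, sub_zero, Complex.ofReal_zero, zero_mul, add_zero]
    field_simp
    ring
  rw [hq]
  exact h2 ((hmem ξ η hξ.1.le hξ.2.le hη.1.le hη.2.le).trans_le (min_le_left _ _))

/-- Difference quotient of a power. -/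
theorem pow_diff (u v : ℂ) (k : ℕ) :
    Tendsto (fun τ : ℝ => ((u + τ * v) ^ (k + 1) - u ^ (k + 1)) / (τ : ℂ)) (𝓝[>] 0)
      (𝓝 ((k + 1) * u ^ k * v)) := by
  have h1 : HasDerivAt (fun τ : ℝ => (u + τ * v) ^ (k + 1)) ((k + 1) * u ^ k * v) 0 := by
    have e2 : HasDerivAt (fun t : ℝ => u + t * v) v 0 := by
      have := ((Complex.ofRealCLM.hasDerivAt (x := (0 : ℝ))).mul_const v).const_add u
      simpa using this
    have e3 := e2.fun_pow (k + 1)
    simpa using e3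
  have h2 := (hasDerivAt_iff_tendsto_slope.1 h1).mono_left
    (nhdsWithin_mono 0 (show Ioi (0 : ℝ) ⊆ {0}ᶜ from fun x hx => ne_of_gt hx))
  refine h2.congr' (Eventually.of_forall fun τ => ?_)
  rw [slope_def_module]
  simp only [sub_zero, Complex.ofReal_zero, zero_mul, add_zero, Complex.real_smul,
    Complex.ofReal_inv]
  rw [div_eq_inv_mul]

theorem interp {ι : Type} [Fintype ι] (w v : ι → ℂ) {R M : ℝ} (hw : ∀ i, ‖w i‖ ≤ R)
    (p : ℕ) (hM : ∀ k < p, ‖∑ i, v i * w i ^ k‖ ≤ M) (T : Finset ι) :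
    ∀ k, k + T.card < p → ‖∑ i, v i * w i ^ k * ∏ j ∈ T, (w i - w j)‖ ≤ (1 + R) ^ T.card * M := by
  classical
  induction T using Finset.induction_on with
  | empty =>
    intro k hk
    simpa using hM k (by simpa using hk)
  | insert j T hj ih =>
    intro k hk
    rw [Finset.card_insert_of_notMem hj] at hk ⊢
    have h1 := ih (k + 1) (by omega)
    have h2 := ih k (by omega)
    have e : ∑ i, v i * w i ^ k * ∏ l ∈ insert j T, (w i - w l) =
        ∑ i, v i * w i ^ (k + 1) * ∏ l ∈ T, (w i - w l) -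
          w j * ∑ i, v i * w i ^ k * ∏ l ∈ T, (w i - w l) := by
      rw [Finset.mul_sum, ← Finset.sum_sub_distrib]
      refine Finset.sum_congr rfl fun i _ => ?_
      rw [Finset.prod_insert hj]
      ring
    have hR : 0 ≤ R := (norm_nonneg _).trans (hw j)
    rw [e]
    calc _ ≤ ‖∑ i, v i * w i ^ (k + 1) * ∏ l ∈ T, (w i - w l)‖ +
          ‖w j‖ * ‖∑ i, v i * w i ^ k * ∏ l ∈ T, (w i - w l)‖ := by
            rw [← norm_mul]; exact norm_sub_le _ _
      _ ≤ (1 + R) ^ T.card * M + R * ((1 + R) ^ T.card * M) := by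
            have := hw j
            gcongr
      _ = _ := by ring

/-- Lower bound for the power sums. -/
theorem vander {ι : Type} [Fintype ι] (w v : ι → ℂ) {R δ : ℝ} (hw : ∀ i, ‖w i‖ ≤ R)
    (hδ : 0 < δ) (hδ1 : δ ≤ 1) (hsep : ∀ i j, i ≠ j → δ ≤ ‖w i - w j‖) :
    δ ^ (2 * Fintype.card ι) * ∑ i, ‖v i‖ ^ 2 ≤ Fintype.card ι * (1 + R) ^ (2 * Fintype.card ι) *
      ∑ k ∈ Finset.range (Fintype.card ι), ‖∑ i, v i * w i ^ k‖ ^ 2 := by
  classical
  set p := Fintype.card ι with hp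
  set Q := ∑ k ∈ Finset.range p, ‖∑ i, v i * w i ^ k‖ ^ 2 with hQ
  have hQ0 : 0 ≤ Q := Finset.sum_nonneg fun _ _ => by positivity
  have hM : ∀ k < p, ‖∑ i, v i * w i ^ k‖ ≤ Real.sqrt Q := by
    intro k hk
    refine Real.le_sqrt_of_sq_le ?_
    exact Finset.single_le_sum (f := fun k => ‖∑ i, v i * w i ^ k‖ ^ 2)
      (fun _ _ => by positivity) (Finset.mem_range.2 hk)
  have key : ∀ l : ι, δ ^ (2 * p) * ‖v l‖ ^ 2 ≤ (1 + R) ^ (2 * p) * Q := by
    intro l
    have hR : 0 ≤ R := (norm_nonneg _).trans (hw l)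
    have hcard : (Finset.univ.erase l).card = p - 1 := by
      rw [Finset.card_erase_of_mem (Finset.mem_univ l), Finset.card_univ]
    have hp1 : 1 ≤ p := by
      rw [hp]
      exact Fintype.card_pos_iff.2 ⟨l⟩
    have h1 := interp w v hw p hM (Finset.univ.erase l) 0 (by rw [hcard]; omega)
    have e : ∑ i, v i * w i ^ 0 * ∏ j ∈ Finset.univ.erase l, (w i - w j) =
        v l * ∏ j ∈ Finset.univ.erase l, (w l - w j) := by
      rw [Finset.sum_eq_single l]
      · simp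
      · intro i _ hi
        rw [Finset.prod_eq_zero (i := i) (Finset.mem_erase.2 ⟨hi, Finset.mem_univ _⟩)
          (sub_self _), mul_zero]
      · intro h
        exact absurd (Finset.mem_univ l) h
    rw [e, hcard, norm_mul, norm_prod] at h1
    have h2 : δ ^ (p - 1) ≤ ∏ j ∈ Finset.univ.erase l, ‖w l - w j‖ := by
      rw [← hcard, ← Finset.prod_const]
      refine Finset.prod_le_prod (fun _ _ => hδ.le) fun j hj => ?_
      exact hsep l j (Finset.ne_of_mem_erase hj).symm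
    have h3 : ‖v l‖ * δ ^ p ≤ (1 + R) ^ p * Real.sqrt Q := by
      calc ‖v l‖ * δ ^ p ≤ ‖v l‖ * δ ^ (p - 1) := by
            have := pow_le_pow_of_le_one hδ.le hδ1 (Nat.sub_le p 1)
            gcongr
        _ ≤ ‖v l‖ * ∏ j ∈ Finset.univ.erase l, ‖w l - w j‖ := by gcongr
        _ ≤ (1 + R) ^ (p - 1) * Real.sqrt Q := h1
        _ ≤ (1 + R) ^ p * Real.sqrt Q := by
            have := pow_le_pow_right₀ (show 1 ≤ 1 + R by linarith) (Nat.sub_le p 1)
            gcongr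
    have h4 : (‖v l‖ * δ ^ p) ^ 2 ≤ ((1 + R) ^ p * Real.sqrt Q) ^ 2 := by
      gcongr
    rw [mul_pow, mul_pow, Real.sq_sqrt hQ0, ← pow_mul, ← pow_mul, mul_comm p 2] at h4
    linarith
  calc δ ^ (2 * p) * ∑ i, ‖v i‖ ^ 2 = ∑ i, δ ^ (2 * p) * ‖v i‖ ^ 2 := Finset.mul_sum _ _ _
    _ ≤ ∑ _ : ι, (1 + R) ^ (2 * p) * Q := Finset.sum_le_sum fun i _ => key i
    _ = p * (1 + R) ^ (2 * p) * Q := by
        rw [Finset.sum_const, Finset.card_univ, nsmul_eq_mul, ← hp]; ring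

end Levi

/-- Quantitative positivity of the mixed second derivative of `-g` at separated points. -/
theorem levi_lower {Λ : Set ℂ} {g : ℂ → ℂ → ℝ} (hD : Dom Λ g) (p : ℕ) : ∃ c : ℝ, 0 < c ∧
    ∀ (ι : Type) [Fintype ι], Fintype.card ι = p → ∀ (z v : ι → ℂ) (δ : ℝ), 0 < δ → δ ≤ 1 →
      (∀ i, z i ∈ Λ) → (∀ i j, i ≠ j → δ ≤ ‖z i - z j‖) →
      c * δ ^ (2 * p) * ∑ i, ‖v i‖ ^ 2 ≤ - ∑ i, ∑ j, mixD g (z i) (z j) (v i) (v j) := by
  obtain ⟨c₀, R, hR, hRΛ, hpsd⟩ := green_psd hD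
  have hR0 : 0 < R := by linarith
  refine ⟨1 / ((p + 1) * (1 + R) ^ (2 * p) * R ^ (2 * p)), by positivity, ?_⟩
  intro ι _ hcard z v δ hδ hδ1 hz hsep
  classical
  -- limit inequality
  have hlim : ∑ k ∈ Finset.range p, ‖∑ i, (k + 1) * (z i - c₀) ^ k * v i‖ ^ 2 /
      ((k + 1) * R ^ (2 * (k + 1))) ≤ - ∑ i, ∑ j, mixD g (z i) (z j) (v i) (v j) := by
    have hmem : ∀ᶠ τ : ℝ in 𝓝[>] 0, ∀ i, z i + τ * v i ∈ Λ := by
      rw [eventually_all]
      intro i
      have h1 : Tendsto (fun τ : ℝ => z i + τ * v i) (𝓝[>] 0) (𝓝 (z i)) := by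
        have : Continuous (fun τ : ℝ => z i + τ * v i) := by fun_prop
        have h2 := (this.tendsto 0).mono_left (nhdsWithin_le_nhds (s := Ioi (0 : ℝ)))
        simpa using h2
      exact h1.eventually (hD.isOpen.mem_nhds (hz i))
    have hL : Tendsto (fun τ : ℝ => ∑ k ∈ Finset.range p,
        ‖∑ i, (((z i - c₀) + τ * v i) ^ (k + 1) - (z i - c₀) ^ (k + 1)) / (τ : ℂ)‖ ^ 2 /
          ((k + 1) * R ^ (2 * (k + 1)))) (𝓝[>] 0)
        (𝓝 (∑ k ∈ Finset.range p, ‖∑ i, (k + 1) * (z i - c₀) ^ k * v i‖ ^ 2 /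
          ((k + 1) * R ^ (2 * (k + 1))))) := by
      refine tendsto_finsetSum _ fun k _ => ?_
      refine ((Tendsto.norm (tendsto_finsetSum _ fun i _ => ?_)).pow 2).div_const _
      exact Levi.pow_diff _ _ _
    have hRt : Tendsto (fun τ : ℝ => - ∑ i, ∑ j, (g (z i + τ * v i) (z j + τ * v j) -
        g (z i + τ * v i) (z j) - g (z i) (z j + τ * v j) + g (z i) (z j)) / τ ^ 2) (𝓝[>] 0)
        (𝓝 (- ∑ i, ∑ j, mixD g (z i) (z j) (v i) (v j))) := by
      refine Tendsto.neg (tendsto_finsetSum _ fun i _ => tendsto_finsetSum _ fun j _ => ?_)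
      exact Levi.second_diff (F := fun p : ℂ × ℂ => g p.1 p.2)
        ((gg_contDiffAt hD (hz i) (hz j)).of_le (show ((2 : ℕ∞) : WithTop ℕ∞) ≤ _ from WithTop.coe_le_coe.2 le_top)) (v i) (v j)
    refine le_of_tendsto_of_tendsto hL hRt ?_
    filter_upwards [hmem, self_mem_nhdsWithin] with τ hτ hτ0
    have hτ1 : 0 < τ := hτ0
    have hτc : (τ : ℂ) ≠ 0 := by exact_mod_cast hτ1.ne'
    have h1 := hpsd (ι ⊕ ι) (Sum.elim (fun i => z i + τ * v i) z)
      (Sum.elim (fun _ => 1 / τ) (fun _ => -(1 / τ)))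
      (by rintro (i | i); exacts [hτ i, hz i])
      (by simp only [Fintype.sum_sum_type, Sum.elim_inl, Sum.elim_inr, ← Finset.sum_add_distrib]
          simp) p
    simp only [Fintype.sum_sum_type, Sum.elim_inl, Sum.elim_inr] at h1
    refine le_trans (le_of_eq ?_) (h1.trans (le_of_eq ?_))
    · refine Finset.sum_congr rfl fun k _ => ?_
      congr 3
      rw [← Finset.sum_add_distrib]
      refine Finset.sum_congr rfl fun i _ => ?_
      push_cast
      field_simp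
      ring
    · congr 1
      rw [← Finset.sum_add_distrib]
      refine Finset.sum_congr rfl fun i _ => ?_
      simp only [← Finset.sum_add_distrib]
      refine Finset.sum_congr rfl fun j _ => ?_
      field_simp
      ring
  -- algebra
  have hv := Levi.vander (fun i => z i - c₀) v (R := R) (δ := δ) (fun i => hRΛ _ (hz i)) hδ hδ1
    (fun i j hij => by simpa using hsep i j hij)
  rw [hcard] at hv
  set Q := ∑ k ∈ Finset.range p, ‖∑ i, v i * (z i - c₀) ^ k‖ ^ 2 with hQ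
  have hQ0 : 0 ≤ Q := Finset.sum_nonneg fun _ _ => by positivity
  have hlow : Q / R ^ (2 * p) ≤ ∑ k ∈ Finset.range p,
      ‖∑ i, (k + 1) * (z i - c₀) ^ k * v i‖ ^ 2 / ((k + 1) * R ^ (2 * (k + 1))) := by
    rw [hQ, Finset.sum_div]
    refine Finset.sum_le_sum fun k hk => ?_
    have hk' : k + 1 ≤ p := Finset.mem_range.1 hk
    have e : ∑ i, ((k : ℂ) + 1) * (z i - c₀) ^ k * v i =
        ((k : ℂ) + 1) * ∑ i, v i * (z i - c₀) ^ k := by
      rw [Finset.mul_sum]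
      exact Finset.sum_congr rfl fun i _ => by ring
    have e2 : ‖((k : ℂ) + 1)‖ = (k : ℝ) + 1 := by
      have : ((k : ℂ) + 1) = (((k : ℝ) + 1 : ℝ) : ℂ) := by push_cast; ring
      rw [this, Complex.norm_real, Real.norm_eq_abs, abs_of_pos (by positivity)]
    rw [e, norm_mul, e2]
    have h5 : R ^ (2 * (k + 1)) ≤ R ^ (2 * p) := pow_le_pow_right₀ hR (by omega)
    rw [mul_pow, div_le_div_iff₀ (by positivity) (by positivity)]
    have h6 : (0 : ℝ) ≤ ‖∑ i, v i * (z i - c₀) ^ k‖ ^ 2 := by positivity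
    have h7 : ((k : ℝ) + 1) * R ^ (2 * (k + 1)) ≤ ((k : ℝ) + 1) ^ 2 * R ^ (2 * p) := by
      have : (1 : ℝ) ≤ (k : ℝ) + 1 := by linarith [Nat.cast_nonneg (α := ℝ) k]
      have h8 : ((k : ℝ) + 1) ≤ ((k : ℝ) + 1) ^ 2 := by nlinarith
      gcongr
    calc ‖∑ i, v i * (z i - c₀) ^ k‖ ^ 2 * (((k : ℝ) + 1) * R ^ (2 * (k + 1)))
        ≤ ‖∑ i, v i * (z i - c₀) ^ k‖ ^ 2 * (((k : ℝ) + 1) ^ 2 * R ^ (2 * p)) := by gcongr
      _ = _ := by ring
  refine le_trans ?_ (hlow.trans hlim)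
  rw [mul_assoc, one_div, ← div_eq_inv_mul, div_le_div_iff₀ (by positivity) (by positivity)]
  calc (δ ^ (2 * p) * ∑ i, ‖v i‖ ^ 2) * R ^ (2 * p)
      ≤ (p * (1 + R) ^ (2 * p) * Q) * R ^ (2 * p) := by gcongr
    _ ≤ ((p + 1) * (1 + R) ^ (2 * p) * Q) * R ^ (2 * p) := by gcongr; linarith
    _ = Q * ((p + 1) * (1 + R) ^ (2 * p) * R ^ (2 * p)) := by ring

end Pool.Agent.Lib.MP_fa244c_mp
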