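import Pool.Agent.Lib.MP_fa244c_mp.EBasic
import Pool.Agent.Lib.MP_fa244c_mp.Levi

set_option autoImplicit false

open MeasureTheory Filter Topology Set Metric
open scoped ContDiff

namespace Pool.Agent.Lib.MP_fa244c_mp

namespace LocAux

section gen

variable {E E' : Type*} [NormedAddCommGroup E] [NormedSpace ℝ E] [NormedAddCommGroup E']
  [NormedSpace ℝ E']

/-- second derivative of a function composed with an affine map -/
theorem d2_comp {u : E' → ℝ} (L : E →L[ℝ] E') (k : E') {y : E} (hu : ContDiffAt ℝ 2 u (L y + k))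
    (v w : E) : fderiv ℝ (fderiv ℝ (fun y' => u (L y' + k))) y v w =
      fderiv ℝ (fderiv ℝ u) (L y + k) (L v) (L w) := by
  have hA : ∀ y' : E, HasFDerivAt (fun y' => L y' + k) L y' := fun y' =>
    L.hasFDerivAt.add_const k
  have hcont : ContinuousAt (fun y' : E => L y' + k) y := (hA y).continuousAt
  have hev : ∀ᶠ z in 𝓝 (L y + k), DifferentiableAt ℝ u z :=
    (hu.eventually (by simp)).mono fun z hz => hz.differentiableAt (by norm_num)
  have h1 : fderiv ℝ (fun y' => u (L y' + k)) =ᶠ[𝓝 y]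
      fun y' => (fderiv ℝ u (L y' + k)).comp L := by
    filter_upwards [hcont.eventually hev] with y' hy'
    exact (HasFDerivAt.comp y' hy'.hasFDerivAt (hA y')).fderiv
  rw [h1.fderiv_eq]
  have h2 : HasFDerivAt (fderiv ℝ u) (fderiv ℝ (fderiv ℝ u) (L y + k)) (L y + k) :=
    ((hu.fderiv_right (m := 1) (by norm_num)).differentiableAt (by norm_num)).hasFDerivAt
  have h3 : HasFDerivAt (fun y' : E => fderiv ℝ u (L y' + k))
      ((fderiv ℝ (fderiv ℝ u) (L y + k)).comp L) y := HasFDerivAt.comp y h2 (hA y)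
  have h4 := (((ContinuousLinearMap.compL ℝ E E' ℝ).flip L).hasFDerivAt.comp y h3).fderiv
  have h5 : fderiv ℝ (fun y' => (fderiv ℝ u (L y' + k)).comp L) y =
    ((ContinuousLinearMap.compL ℝ E E' ℝ).flip L).comp
      ((fderiv ℝ (fderiv ℝ u) (L y + k)).comp L) := h4
  rw [h5]
  rfl

/-- second derivatives of a sum -/
theorem d2_add {f h : E → ℝ} {y : E} (hf : ContDiffAt ℝ 2 f y) (hh : ContDiffAt ℝ 2 h y) :
    fderiv ℝ (fderiv ℝ (fun y' => f y' + h y')) y =
      fderiv ℝ (fderiv ℝ f) y + fderiv ℝ (fderiv ℝ h) y := by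
  have h1 : fderiv ℝ (fun y' => f y' + h y') =ᶠ[𝓝 y] fun y' => fderiv ℝ f y' + fderiv ℝ h y' := by
    filter_upwards [hf.eventually (by simp), hh.eventually (by simp)] with z hz hz'
    exact fderiv_fun_add (hz.differentiableAt (by norm_num)) (hz'.differentiableAt (by norm_num))
  rw [h1.fderiv_eq]
  exact fderiv_fun_add ((hf.fderiv_right (m := 1) (by norm_num)).differentiableAt (by norm_num))
    ((hh.fderiv_right (m := 1) (by norm_num)).differentiableAt (by norm_num))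

/-- second derivatives of a multiple -/
theorem d2_mul {f : E → ℝ} {y : E} (hf : ContDiffAt ℝ 2 f y) (c : ℝ) :
    fderiv ℝ (fderiv ℝ (fun y' => c * f y')) y = c • fderiv ℝ (fderiv ℝ f) y := by
  have h1 : fderiv ℝ (fun y' => c * f y') =ᶠ[𝓝 y] fun y' => c • fderiv ℝ f y' := by
    filter_upwards [hf.eventually (by simp)] with z hz
    exact fderiv_const_mul (hz.differentiableAt (by norm_num)) c
  rw [h1.fderiv_eq]
  exact fderiv_fun_const_smul ((hf.fderiv_right (m := 1) (by norm_num)).differentiableAt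
    (by norm_num)) c

/-- Lipschitz bound for the second derivative of a function composed with an affine map -/
theorem d2_lip {u : E' → ℝ} (L : E →L[ℝ] E') (k : E') (hL : ‖L‖ ≤ 2) {y₀ : E} {r M : ℝ}
    (hM : 0 ≤ M) (hu : ∀ y ∈ ball y₀ r, ContDiffAt ℝ ∞ u (L y + k) ∧
      ‖iteratedFDeriv ℝ 3 u (L y + k)‖ ≤ M) (y : E) (hy : y ∈ ball y₀ r) :
    ‖fderiv ℝ (fderiv ℝ (fun y' => u (L y' + k))) y -
      fderiv ℝ (fderiv ℝ (fun y' => u (L y' + k))) y₀‖ ≤ 8 * M * ‖y - y₀‖ := by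
  have hr : 0 < r := dist_nonneg.trans_lt (mem_ball.1 hy)
  have hy0 : y₀ ∈ ball y₀ r := mem_ball_self hr
  have hconv : Convex ℝ ((fun y' : E => L y' + k) '' ball y₀ r) := by
    have h1 : (fun y' : E => L y' + k) '' ball y₀ r = (fun z => z + k) '' (L '' ball y₀ r) := by
      rw [Set.image_image]
    rw [h1]
    have h2 := ((convex_ball y₀ r).linear_image L.toLinearMap).translate k
    have h3 : (fun z => z + k) '' (L '' ball y₀ r) =
        (fun z => k + z) '' ((L : E →ₗ[ℝ] E') '' ball y₀ r) := by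
      refine Set.image_congr fun z _ => ?_
      rw [add_comm]
    rw [h3]
    exact h2
  have hmv := Convex.norm_image_sub_le_of_norm_fderiv_le (𝕜 := ℝ) (f := fderiv ℝ (fderiv ℝ u))
    (C := M) (s := (fun y' : E => L y' + k) '' ball y₀ r) (x := L y₀ + k) (y := L y + k)
    (by
      rintro _ ⟨z, hz, rfl⟩
      exact (((hu z hz).1.fderiv_right (m := 2) (by norm_cast)).fderiv_right (m := 1)
        (by norm_num)).differentiableAt (by norm_num))
    (by
      rintro _ ⟨z, hz, rfl⟩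
      rw [← norm_iteratedFDeriv_one, norm_iteratedFDeriv_fderiv, norm_iteratedFDeriv_fderiv]
      exact (hu z hz).2)
    hconv ⟨y₀, hy0, rfl⟩ ⟨y, hy, rfl⟩
  have hsub : (L y + k) - (L y₀ + k) = L (y - y₀) := by rw [map_sub]; abel
  rw [hsub] at hmv
  have hmv2 : ‖fderiv ℝ (fderiv ℝ u) (L y + k) - fderiv ℝ (fderiv ℝ u) (L y₀ + k)‖ ≤
      M * (2 * ‖y - y₀‖) := by
    refine hmv.trans (mul_le_mul_of_nonneg_left ?_ hM)
    exact (L.le_opNorm _).trans (mul_le_mul_of_nonneg_right hL (norm_nonneg _))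
  have hc : ∀ z ∈ ball y₀ r, ContDiffAt ℝ 2 u (L z + k) := fun z hz =>
    (hu z hz).1.of_le (by norm_cast)
  refine ContinuousLinearMap.opNorm_le_bound _ (by positivity) fun v => ?_
  refine ContinuousLinearMap.opNorm_le_bound _ (by positivity) fun w => ?_
  have e1 : (fderiv ℝ (fderiv ℝ (fun y' => u (L y' + k))) y -
      fderiv ℝ (fderiv ℝ (fun y' => u (L y' + k))) y₀) v w =
      (fderiv ℝ (fderiv ℝ u) (L y + k) - fderiv ℝ (fderiv ℝ u) (L y₀ + k)) (L v) (L w) := by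
    have a1 := d2_comp L k (hc y hy) v w
    have a2 := d2_comp L k (hc y₀ hy0) v w
    simp only [sub_apply, a1, a2]
  rw [e1]
  have n1 : ‖L v‖ ≤ 2 * ‖v‖ := (L.le_opNorm _).trans (mul_le_mul_of_nonneg_right hL (norm_nonneg _))
  have n2 : ‖L w‖ ≤ 2 * ‖w‖ := (L.le_opNorm _).trans (mul_le_mul_of_nonneg_right hL (norm_nonneg _))
  calc ‖(fderiv ℝ (fderiv ℝ u) (L y + k) - fderiv ℝ (fderiv ℝ u) (L y₀ + k)) (L v) (L w)‖
      ≤ ‖fderiv ℝ (fderiv ℝ u) (L y + k) - fderiv ℝ (fderiv ℝ u) (L y₀ + k)‖ * ‖L v‖ * ‖L w‖ :=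
        ContinuousLinearMap.le_opNorm₂ _ _ _
    _ ≤ (M * (2 * ‖y - y₀‖)) * (2 * ‖v‖) * (2 * ‖w‖) := by gcongr
    _ = 8 * M * ‖y - y₀‖ * ‖v‖ * ‖w‖ := by ring

end gen

/-- a harmonic function has a second derivative of trace zero in every complex direction -/
theorem harm_trace {u : ℂ → ℝ} {z : ℂ} (h : InnerProductSpace.HarmonicAt u z) (w : ℂ) :
    fderiv ℝ (fderiv ℝ u) z w w + fderiv ℝ (fderiv ℝ u) z (Complex.I * w) (Complex.I * w) = 0 := by
  have h1 := h.2.self_of_nhds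
  rw [InnerProductSpace.laplacian_eq_iteratedFDeriv_complexPlane] at h1
  simp only [iteratedFDeriv_two_apply, Matrix.cons_val_zero, Matrix.cons_val_one,
    Pi.zero_apply] at h1
  have hw : w = (w.re : ℝ) • (1 : ℂ) + (w.im : ℝ) • Complex.I := by
    apply Complex.ext <;> simp
  have hw' : Complex.I * w = (-w.im : ℝ) • (1 : ℂ) + (w.re : ℝ) • Complex.I := by
    apply Complex.ext <;> simp
  set D := fderiv ℝ (fderiv ℝ u) z with hD
  have e1 : D w w = w.re ^ 2 * D 1 1 + w.re * w.im * (D 1 Complex.I + D Complex.I 1) +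
      w.im ^ 2 * D Complex.I Complex.I := by
    conv_lhs => rw [hw]
    simp only [map_add, map_smul, add_apply, smul_apply,
      smul_eq_mul]
    ring
  have e2 : D (Complex.I * w) (Complex.I * w) = w.im ^ 2 * D 1 1 -
      w.re * w.im * (D 1 Complex.I + D Complex.I 1) + w.re ^ 2 * D Complex.I Complex.I := by
    rw [hw']
    simp only [map_add, map_smul, add_apply, smul_apply,
      smul_eq_mul]
    ring
  rw [e1, e2]
  have h2 : D 1 1 + D Complex.I Complex.I = 0 := h1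
  have h3 : D Complex.I Complex.I = - D 1 1 := by linarith
  rw [h3]
  ring

theorem nrm_add {X : Type*} [SeminormedAddCommGroup X] (a b c d : X) {α β : ℝ}
    (h1 : ‖a - c‖ ≤ α) (h2 : ‖b - d‖ ≤ β) : ‖a + b - (c + d)‖ ≤ α + β := by
  rw [add_sub_add_comm]
  exact (norm_add_le _ _).trans (add_le_add h1 h2)

theorem nrm_smul {X : Type*} [SeminormedAddCommGroup X] [NormedSpace ℝ X] (a c : X) (t : ℝ)
    {α : ℝ} (h1 : ‖a - c‖ ≤ α) : ‖t • a - t • c‖ ≤ |t| * α := by
  rw [← smul_sub, norm_smul, Real.norm_eq_abs]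
  exact mul_le_mul_of_nonneg_left h1 (abs_nonneg _)

theorem nrm_self {X : Type*} [SeminormedAddCommGroup X] (a : X) : ‖a - a‖ = 0 := by
  simp

/-- what we need to know about one term of the energy -/
structure Term {E : Type*} [NormedAddCommGroup E] [NormedSpace ℝ E] (I : E → E) (y₀ : E) (r : ℝ)
    (T : E → ℝ) (M : ℝ) (l : E → ℝ) : Prop where
  smooth : ∀ y ∈ ball y₀ r, ContDiffAt ℝ 2 T y
  lip : ∀ y ∈ ball y₀ r, ‖fderiv ℝ (fderiv ℝ T) y - fderiv ℝ (fderiv ℝ T) y₀‖ ≤ M * ‖y - y₀‖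
  levi : ∀ v : E, fderiv ℝ (fderiv ℝ T) y₀ v v + fderiv ℝ (fderiv ℝ T) y₀ (I v) (I v) = l v

namespace Term

variable {E : Type*} [NormedAddCommGroup E] [NormedSpace ℝ E] {I : E → E} {y₀ : E} {r : ℝ}

theorem mul {T : E → ℝ} {M : ℝ} {l : E → ℝ} (hr : 0 < r) (h : Term I y₀ r T M l)
    (c : ℝ) : Term I y₀ r (fun y => c * T y) (|c| * M) (fun v => c * l v) := by
  have hy0 : y₀ ∈ ball y₀ r := mem_ball_self hr
  refine ⟨fun y hy => contDiffAt_const.mul (h.smooth y hy), fun y hy => ?_, fun v => ?_⟩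
  · rw [d2_mul (h.smooth y hy), d2_mul (h.smooth y₀ hy0), mul_assoc]
    exact nrm_smul (X := E →L[ℝ] E →L[ℝ] ℝ) _ _ c (h.lip y hy)
  · rw [d2_mul (h.smooth y₀ hy0), ← h.levi v]
    simp only [smul_apply, smul_eq_mul]
    ring

theorem add {T T' : E → ℝ} {M M' : ℝ} {l l' : E → ℝ} (hr : 0 < r)
    (h : Term I y₀ r T M l) (h' : Term I y₀ r T' M' l') :
    Term I y₀ r (fun y => T y + T' y) (M + M') (fun v => l v + l' v) := by
  have hy0 : y₀ ∈ ball y₀ r := mem_ball_self hr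
  refine ⟨fun y hy => (h.smooth y hy).add (h'.smooth y hy), fun y hy => ?_, fun v => ?_⟩
  · rw [d2_add (h.smooth y hy) (h'.smooth y hy), d2_add (h.smooth y₀ hy0) (h'.smooth y₀ hy0),
      add_mul]
    exact nrm_add (X := E →L[ℝ] E →L[ℝ] ℝ) _ _ _ _ (h.lip y hy) (h'.lip y hy)
  · rw [d2_add (h.smooth y₀ hy0) (h'.smooth y₀ hy0), ← h.levi v, ← h'.levi v]
    simp only [add_apply]
    ring

theorem const (c : ℝ) : Term I y₀ r (fun _ => c) 0 (fun _ => 0) := by
  have h1 : fderiv ℝ (fun _ : E => c) = fun _ => 0 := by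
    funext y; exact fderiv_const_apply c
  have h2 : ∀ y : E, fderiv ℝ (fderiv ℝ (fun _ : E => c)) y = 0 := by
    intro y; rw [h1]; exact fderiv_const_apply _
  refine ⟨fun y _ => contDiffAt_const, fun y _ => ?_, fun v => ?_⟩
  · rw [h2, h2, zero_mul]
    exact (nrm_self (X := E →L[ℝ] E →L[ℝ] ℝ) _).le
  · rw [h2]
    simp

theorem sum {α : Type*} (s : Finset α) {T : α → E → ℝ} {M : α → ℝ}
    {l : α → E → ℝ} (hr : 0 < r) (h : ∀ a ∈ s, Term I y₀ r (T a) (M a) (l a)) :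
    Term I y₀ r (fun y => ∑ a ∈ s, T a y) (∑ a ∈ s, M a) (fun v => ∑ a ∈ s, l a v) := by
  classical
  induction s using Finset.induction_on with
  | empty => simpa using const (I := I) (y₀ := y₀) (r := r) 0
  | insert a s ha ih =>
    simp only [Finset.sum_insert ha]
    exact add hr (h a (Finset.mem_insert_self _ _))
      (ih fun b hb => h b (Finset.mem_insert_of_mem hb))

theorem congr {T T' : E → ℝ} {M : ℝ} {l : E → ℝ} (h : Term I y₀ r T M l) (hr : 0 < r)
    (he : ∀ y ∈ ball y₀ r, T' y = T y) : Term I y₀ r T' M l := by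
  have hev : ∀ y ∈ ball y₀ r, T' =ᶠ[𝓝 y] T := fun y hy =>
    Filter.eventuallyEq_of_mem (isOpen_ball.mem_nhds hy) he
  have hd : ∀ y ∈ ball y₀ r, fderiv ℝ (fderiv ℝ T') y = fderiv ℝ (fderiv ℝ T) y := fun y hy =>
    (hev y hy).fderiv.fderiv_eq
  have hy0 : y₀ ∈ ball y₀ r := mem_ball_self hr
  refine ⟨fun y hy => (h.smooth y hy).congr_of_eventuallyEq (hev y hy), fun y hy => ?_,
    fun v => ?_⟩
  · rw [hd y hy, hd y₀ hy0]; exact h.lip y hy
  · rw [hd y₀ hy0]; exact h.levi v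

theorem mono {T : E → ℝ} {M M' : ℝ} {l l' : E → ℝ} (h : Term I y₀ r T M l) (hM : M ≤ M')
    (hl : ∀ v, l v = l' v) : Term I y₀ r T M' l' := by
  refine ⟨h.smooth, fun y hy => (h.lip y hy).trans ?_, fun v => ?_⟩
  · exact mul_le_mul_of_nonneg_right hM (norm_nonneg _)
  · rw [h.levi v, hl v]

/-- composition with an affine map -/
theorem comp {E' : Type*} [NormedAddCommGroup E'] [NormedSpace ℝ E'] {u : E' → ℝ}
    (L : E →L[ℝ] E') (k : E') (hL : ‖L‖ ≤ 2) {M : ℝ} (hM : 0 ≤ M) (hr : 0 < r)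
    (hu : ∀ y ∈ ball y₀ r, ContDiffAt ℝ ∞ u (L y + k) ∧ ‖iteratedFDeriv ℝ 3 u (L y + k)‖ ≤ M) :
    Term I y₀ r (fun y => u (L y + k)) (8 * M)
      (fun v => fderiv ℝ (fderiv ℝ u) (L y₀ + k) (L v) (L v)
        + fderiv ℝ (fderiv ℝ u) (L y₀ + k) (L (I v)) (L (I v))) := by
  have hy0 : y₀ ∈ ball y₀ r := mem_ball_self hr
  refine ⟨fun y hy => ?_, fun y hy => d2_lip L k hL hM hu y hy, fun v => ?_⟩
  · have h1 : ContDiffAt ℝ 2 u (L y + k) := (hu y hy).1.of_le (by norm_cast)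
    have h2 : ContDiffAt ℝ 2 (fun y' : E => L y' + k) y := by fun_prop
    exact h1.comp y h2
  · have h1 : ContDiffAt ℝ 2 u (L y₀ + k) := (hu y₀ hy0).1.of_le (by norm_cast)
    rw [d2_comp L k h1, d2_comp L k h1]

end Term

/-- the Levi form of the mixed terms -/
theorem levi_gg {Λ : Set ℂ} {g : ℂ → ℂ → ℝ} (hD : Dom Λ g) {x y : ℂ} (hx : x ∈ Λ) (hy : y ∈ Λ)
    (a b : ℂ) :
    fderiv ℝ (fderiv ℝ (fun p : ℂ × ℂ => g p.1 p.2)) (x, y) (a, b) (a, b) +
      fderiv ℝ (fderiv ℝ (fun p : ℂ × ℂ => g p.1 p.2)) (x, y) (Complex.I * a, Complex.I * b)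
        (Complex.I * a, Complex.I * b) =
      2 * (mixD g x y a b + mixD g x y (Complex.I * a) (Complex.I * b)) := by
  have hs : ContDiffAt ℝ 2 (fun p : ℂ × ℂ => g p.1 p.2) (x, y) :=
    (gg_contDiffAt hD hx hy).of_le (by norm_cast)
  have hsym := hs.isSymmSndFDerivAt (by simp)
  set D := fderiv ℝ (fderiv ℝ (fun p : ℂ × ℂ => g p.1 p.2)) (x, y) with hDdef
  have hsw : ∀ u v : ℂ × ℂ, D u v = D v u := fun u v => hsym u v
  have hexp : ∀ u v : ℂ, D (u, v) (u, v) = D (u, 0) (u, 0) + 2 * mixD g x y u v +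
      D (0, v) (0, v) := by
    intro u v
    have e : ((u, v) : ℂ × ℂ) = (u, 0) + (0, v) := by simp
    have e2 : mixD g x y u v = D (u, 0) (0, v) := rfl
    have e3 : D ((u, 0) + (0, v)) = D (u, 0) + D (0, v) := map_add D _ _
    have e4 : ∀ w, D w ((u, 0) + (0, v)) = D w (u, 0) + D w (0, v) := fun w => map_add (D w) _ _
    rw [e2, e, e3, add_apply, e4, e4, hsw (0, v) (u, 0)]
    ring
  have h1 : D (a, 0) (a, 0) + D (Complex.I * a, 0) (Complex.I * a, 0) = 0 := by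
    have hh := harm_trace (hD.green.harm y hy x hx) a
    have hfun : (fun z => g z y) = fun z => (fun p : ℂ × ℂ => g p.1 p.2)
        (ContinuousLinearMap.inl ℝ ℂ ℂ z + (0, y)) := by
      funext z; simp
    have hpt : ContinuousLinearMap.inl ℝ ℂ ℂ x + (0, y) = (x, y) := by simp
    have hd := d2_comp (u := fun p : ℂ × ℂ => g p.1 p.2) (ContinuousLinearMap.inl ℝ ℂ ℂ) (0, y)
      (y := x) (by rw [hpt]; exact hs)
    rw [hfun, hd, hd, hpt] at hh
    simpa using hh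
  have h2 : D (0, b) (0, b) + D (0, Complex.I * b) (0, Complex.I * b) = 0 := by
    have hh := harm_trace (hD.green.harm x hx y hy) b
    have hev : (fun z => g z x) =ᶠ[𝓝 y] fun z => (fun p : ℂ × ℂ => g p.1 p.2)
        (ContinuousLinearMap.inr ℝ ℂ ℂ z + (x, 0)) := by
      filter_upwards [hD.isOpen.mem_nhds hy] with z hz
      simpa using g_symm hD hz hx
    have hpt : ContinuousLinearMap.inr ℝ ℂ ℂ y + (x, 0) = (x, y) := by simp
    have hd := d2_comp (u := fun p : ℂ × ℂ => g p.1 p.2) (ContinuousLinearMap.inr ℝ ℂ ℂ) (x, 0)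
      (y := y) (by rw [hpt]; exact hs)
    rw [hev.fderiv.fderiv_eq, hd, hd, hpt] at hh
    simpa using hh
  rw [hexp a b, hexp (Complex.I * a) (Complex.I * b)]
  linarith

theorem mixD_zero_left (g : ℂ → ℂ → ℝ) (x y b : ℂ) : mixD g x y 0 b = 0 := by
  unfold mixD
  have : ((0, 0) : ℂ × ℂ) = 0 := rfl
  rw [this, map_zero]
  rfl

theorem mixD_zero_right (g : ℂ → ℂ → ℝ) (x y a : ℂ) : mixD g x y a 0 = 0 := by
  unfold mixD
  have : ((0, 0) : ℂ × ℂ) = 0 := rfl
  rw [this, map_zero]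

theorem mixD_mul (g : ℂ → ℂ → ℝ) (x y a b : ℂ) (s t : ℝ) :
    mixD g x y ((s : ℂ) * a) ((t : ℂ) * b) = s * t * mixD g x y a b := by
  unfold mixD
  have e1 : (((s : ℂ) * a, 0) : ℂ × ℂ) = s • ((a, 0) : ℂ × ℂ) := by
    simp [Prod.smul_mk, Complex.real_smul]
  have e2 : ((0, (t : ℂ) * b) : ℂ × ℂ) = t • ((0, b) : ℂ × ℂ) := by
    simp [Prod.smul_mk, Complex.real_smul]
  rw [e1, e2, map_smul, map_smul, smul_apply, smul_eq_mul, smul_eq_mul]
  ring

/-- multiplication by the imaginary unit -/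
def mulI {J : Type} (v : J → ℂ) : J → ℂ := fun j => Complex.I * v j

theorem norm_proj_le {J : Type} [Fintype J] (i : J) :
    ‖(ContinuousLinearMap.proj i : (J → ℂ) →L[ℝ] ℂ)‖ ≤ 1 :=
  ContinuousLinearMap.opNorm_le_bound _ zero_le_one fun v => by
    rw [one_mul]; exact norm_le_pi_norm v i

/-- both variables move -/
theorem term_gg {Λ : Set ℂ} {g : ℂ → ℂ → ℝ} (hD : Dom Λ g) {J : Type} [Fintype J] {C : ℝ}
    (hC : 0 < C) (hb : ∀ δ : ℝ, 0 < δ → δ ≤ 1 → ∀ x y : ℂ, δ ≤ infDist x Λᶜ → δ ≤ infDist y Λᶜ →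
      |g x y| ≤ C / δ ∧ ∀ k : ℕ, 1 ≤ k → k ≤ 3 →
        ‖iteratedFDeriv ℝ k (fun p : ℂ × ℂ => g p.1 p.2) (x, y)‖ ≤ C / δ ^ 4)
    {y₀ : J → ℂ} {δ : ℝ} (hδ : 0 < δ) (hδ1 : δ ≤ 1) (i j : J)
    (hi : ∀ y ∈ ball y₀ (δ / 4), y i ∈ Λ ∧ δ / 2 ≤ infDist (y i) Λᶜ)
    (hj : ∀ y ∈ ball y₀ (δ / 4), y j ∈ Λ ∧ δ / 2 ≤ infDist (y j) Λᶜ) :
    Term mulI y₀ (δ / 4) (fun y => g (y i) (y j)) (8 * (C / (δ / 2) ^ 4))
      (fun v => 2 * (mixD g (y₀ i) (y₀ j) (v i) (v j) +
        mixD g (y₀ i) (y₀ j) (Complex.I * v i) (Complex.I * v j))) := by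
  have hr : 0 < δ / 4 := by positivity
  set L : (J → ℂ) →L[ℝ] ℂ × ℂ := (ContinuousLinearMap.proj i).prod (ContinuousLinearMap.proj j)
    with hL
  have hLn : ‖L‖ ≤ 2 := by
    refine ContinuousLinearMap.opNorm_le_bound _ (by norm_num) fun v => ?_
    have h1 := norm_le_pi_norm v i
    have h2 := norm_le_pi_norm v j
    have h3 : ‖L v‖ = max ‖v i‖ ‖v j‖ := rfl
    rw [h3]
    have := norm_nonneg v
    exact max_le (by linarith) (by linarith)
  have hLy : ∀ y : J → ℂ, L y + 0 = (y i, y j) := fun y => by rw [add_zero]; rfl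
  have ht := Term.comp (I := mulI) (y₀ := y₀) (u := fun p : ℂ × ℂ => g p.1 p.2) L 0 hLn
    (M := C / (δ / 2) ^ 4) (by positivity) hr (fun y hy => by
      rw [hLy]
      exact ⟨gg_contDiffAt hD (hi y hy).1 (hj y hy).1,
        (hb (δ / 2) (by positivity) (by linarith) _ _ (hi y hy).2 (hj y hy).2).2 3 (by norm_num)
          (by norm_num)⟩)
  have hy0 : y₀ ∈ ball y₀ (δ / 4) := mem_ball_self hr
  refine (ht.congr hr (T' := fun y => g (y i) (y j)) fun y _ => by simp only [hLy]).mono le_rfl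
    fun v => ?_
  rw [hLy]
  exact levi_gg hD (hi y₀ hy0).1 (hj y₀ hy0).1 (v i) (v j)

/-- one variable moves -/
theorem term_g1 {Λ : Set ℂ} {g : ℂ → ℂ → ℝ} (hD : Dom Λ g) {J : Type} [Fintype J] {C : ℝ}
    (hC : 0 < C) (hb : ∀ δ : ℝ, 0 < δ → δ ≤ 1 → ∀ x y : ℂ, δ ≤ infDist x Λᶜ → y ∈ Λ →
      |g x y| ≤ C / δ ∧ ContDiffAt ℝ ∞ (fun z => g z y) x ∧ ∀ k : ℕ, 1 ≤ k → k ≤ 3 →
        ‖iteratedFDeriv ℝ k (fun z => g z y) x‖ ≤ C / δ ^ 4)
    {y₀ : J → ℂ} {δ : ℝ} (hδ : 0 < δ) (hδ1 : δ ≤ 1) (i : J) {w : ℂ} (hw : w ∈ Λ)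
    (hi : ∀ y ∈ ball y₀ (δ / 4), y i ∈ Λ ∧ δ / 2 ≤ infDist (y i) Λᶜ) :
    Term mulI y₀ (δ / 4) (fun y => g (y i) w) (8 * (C / (δ / 2) ^ 4)) (fun _ => 0) := by
  have hr : 0 < δ / 4 := by positivity
  set L : (J → ℂ) →L[ℝ] ℂ := ContinuousLinearMap.proj i with hL
  have hLn : ‖L‖ ≤ 2 := (norm_proj_le i).trans (by norm_num)
  have hLy : ∀ y : J → ℂ, L y + 0 = y i := fun y => by rw [add_zero]; rfl
  have ht := Term.comp (I := mulI) (y₀ := y₀) (u := fun z : ℂ => g z w) L 0 hLn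
    (M := C / (δ / 2) ^ 4) (by positivity) hr (fun y hy => by
      rw [hLy]
      have h := hb (δ / 2) (by positivity) (by linarith) _ w (hi y hy).2 hw
      exact ⟨h.2.1, h.2.2 3 (by norm_num) (by norm_num)⟩)
  have hy0 : y₀ ∈ ball y₀ (δ / 4) := mem_ball_self hr
  refine (ht.congr hr (T' := fun y => g (y i) w) fun y _ => by simp only [hLy]).mono le_rfl
    fun v => ?_
  rw [hLy]
  exact harm_trace (hD.green.harm w hw _ (hi y₀ hy0).1) (v i)

/-- logarithms -/
theorem term_log {J : Type} [Fintype J] {C : ℝ}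
    (hC : 0 < C) (hb : ∀ z : ℂ, z ≠ 0 →
    ContDiffAt ℝ ∞ (fun w : ℂ => Real.log ‖w‖) z ∧ ∀ k : ℕ, 1 ≤ k → k ≤ 3 →
      ‖iteratedFDeriv ℝ k (fun w : ℂ => Real.log ‖w‖) z‖ ≤ C / ‖z‖ ^ k)
    {y₀ : J → ℂ} {δ : ℝ} (hδ : 0 < δ) (L : (J → ℂ) →L[ℝ] ℂ) (k : ℂ) (hLn : ‖L‖ ≤ 2)
    (hLI : ∀ v, L (mulI v) = Complex.I * L v)
    (hi : ∀ y ∈ ball y₀ (δ / 4), δ / 2 ≤ ‖L y + k‖) :
    Term mulI y₀ (δ / 4) (fun y => Real.log ‖L y + k‖) (8 * (C / (δ / 2) ^ 3)) (fun _ => 0) := by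
  have hr : 0 < δ / 4 := by positivity
  have hne : ∀ y ∈ ball y₀ (δ / 4), L y + k ≠ 0 := fun y hy h => by
    have := hi y hy
    rw [h, norm_zero] at this
    linarith
  have ht := Term.comp (I := mulI) (y₀ := y₀) (u := fun z : ℂ => Real.log ‖z‖) L k hLn
    (M := C / (δ / 2) ^ 3) (by positivity) hr (fun y hy => by
      have h := hb _ (hne y hy)
      refine ⟨h.1, (h.2 3 (by norm_num) (by norm_num)).trans ?_⟩
      have h1 := hi y hy
      gcongr)
  have hy0 : y₀ ∈ ball y₀ (δ / 4) := mem_ball_self hr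
  refine ht.mono le_rfl fun v => ?_
  rw [hLI]
  refine harm_trace ?_ (L v)
  exact AnalyticAt.harmonicAt_log_norm (f := fun z : ℂ => z) analyticAt_id (hne y₀ hy0)

/-- extension by zero -/
noncomputable def ext {ι : Type} [DecidableEq ι] (J : Finset ι) (v : J → ℂ) (a : ι) : ℂ :=
  if h : a ∈ J then v ⟨a, h⟩ else 0

/-- geometry of the ball around a configuration with separated coordinates -/
theorem geom {Λ : Set ℂ} {ι : Type} [DecidableEq ι] {J : Finset ι} {x : ι → ℂ}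
    {δ : ℝ} (hδ : 0 < δ) (hsep : ∀ i ∈ J, Sep Λ δ x i) {y : J → ℂ}
    (hy : y ∈ ball (res J x) (δ / 4)) :
    (∀ i : J, y i ∈ Λ ∧ δ / 2 ≤ infDist (y i) Λᶜ) ∧
      (∀ (i : J) (b : ι), b ∉ J → δ / 2 ≤ ‖y i - x b‖) ∧
      (∀ i j : J, i ≠ j → δ / 2 ≤ ‖y i - y j‖) := by
  have hd : ∀ i : J, ‖y i - x i‖ < δ / 4 := by
    intro i
    have h1 : dist (y i) (res J x i) ≤ dist y (res J x) := dist_le_pi_dist y (res J x) i
    rw [dist_eq_norm] at h1
    exact h1.trans_lt (mem_ball.1 hy)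
  refine ⟨fun i => ?_, fun i b hb => ?_, fun i j hij => ?_⟩
  · have h1 := (hsep i i.2).1
    have h2 : infDist (x i) Λᶜ ≤ infDist (y i) Λᶜ + dist (x i) (y i) := infDist_le_infDist_add_dist
    rw [dist_eq_norm, norm_sub_rev] at h2
    have h3 := hd i
    have h4 : δ / 2 ≤ infDist (y i) Λᶜ := by linarith
    refine ⟨?_, h4⟩
    by_contra hn
    have h5 : infDist (y i) Λᶜ = 0 := infDist_zero_of_mem hn
    linarith
  · have h1 := (hsep i i.2).2 b (fun h => hb (h ▸ i.2))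
    have h2 : ‖x i - x b‖ ≤ ‖y i - x i‖ + ‖y i - x b‖ := by
      have : x i - x b = - (y i - x i) + (y i - x b) := by ring
      rw [this]
      exact (norm_add_le _ _).trans (by rw [norm_neg])
    have h3 := hd i
    linarith
  · have h1 := (hsep i i.2).2 j (fun h => hij (Subtype.ext h.symm))
    have h2 : ‖x i - x j‖ ≤ ‖y i - x i‖ + ‖y i - y j‖ + ‖y j - x j‖ := by
      have : x i - x j = - (y i - x i) + (y i - y j) + (y j - x j) := by ring
      rw [this]
      refine (norm_add_le _ _).trans (add_le_add ((norm_add_le _ _).trans ?_) le_rfl)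
      rw [norm_neg]
    have h3 := hd i
    have h4 := hd j
    linarith

theorem merge_pos {ι : Type} [DecidableEq ι] {J : Finset ι} (y : J → ℂ) (x : ι → ℂ) {a : ι}
    (h : a ∈ J) : merge J y x a = y ⟨a, h⟩ := by
  unfold merge; rw [dif_pos h]

theorem merge_neg {ι : Type} [DecidableEq ι] {J : Finset ι} (y : J → ℂ) (x : ι → ℂ) {a : ι}
    (h : a ∉ J) : merge J y x a = x a := by
  unfold merge; rw [dif_neg h]

/-- the merged configuration is admissible -/
theorem merge_mem {Λ : Set ℂ} {ι : Type} [DecidableEq ι] {J : Finset ι} {x : ι → ℂ}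
    (hx : x ∈ Cfg Λ ι) {δ : ℝ} (hδ : 0 < δ) (hsep : ∀ i ∈ J, Sep Λ δ x i) {y : J → ℂ}
    (hy : y ∈ ball (res J x) (δ / 4)) : merge J y x ∈ Cfg Λ ι := by
  obtain ⟨h1, h2, h3⟩ := geom hδ hsep hy
  refine ⟨fun a => ?_, fun a b hab => ?_⟩
  · by_cases ha : a ∈ J
    · rw [merge_pos y x ha]; exact (h1 _).1
    · rw [merge_neg y x ha]; exact hx.1 a
  · by_cases ha : a ∈ J
    · by_cases hb : b ∈ J
      · rw [merge_pos y x ha, merge_pos y x hb] at hab
        by_contra hne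
        have := h3 ⟨a, ha⟩ ⟨b, hb⟩ (fun h => hne (congrArg Subtype.val h))
        rw [hab, sub_self, norm_zero] at this
        linarith
      · rw [merge_pos y x ha, merge_neg y x hb] at hab
        exfalso
        have := h2 ⟨a, ha⟩ b hb
        rw [hab, sub_self, norm_zero] at this
        linarith
    · by_cases hb : b ∈ J
      · rw [merge_neg y x ha, merge_pos y x hb] at hab
        exfalso
        have := h2 ⟨b, hb⟩ a ha
        rw [← hab, sub_self, norm_zero] at this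
        linarith
      · rw [merge_neg y x ha, merge_neg y x hb] at hab
        exact hx.2 hab

/-- one pair of vortices -/
theorem term_pair {Λ : Set ℂ} {g : ℂ → ℂ → ℝ} (hD : Dom Λ g) {Cg C1 Cl : ℝ}
    (hCg : 0 < Cg) (hC1 : 0 < C1) (hCl : 0 < Cl)
    (hbg : ∀ δ : ℝ, 0 < δ → δ ≤ 1 → ∀ x y : ℂ, δ ≤ infDist x Λᶜ → δ ≤ infDist y Λᶜ →
      |g x y| ≤ Cg / δ ∧ ∀ k : ℕ, 1 ≤ k → k ≤ 3 →
        ‖iteratedFDeriv ℝ k (fun p : ℂ × ℂ => g p.1 p.2) (x, y)‖ ≤ Cg / δ ^ 4)
    (hb1 : ∀ δ : ℝ, 0 < δ → δ ≤ 1 → ∀ x y : ℂ, δ ≤ infDist x Λᶜ → y ∈ Λ →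
      |g x y| ≤ C1 / δ ∧ ContDiffAt ℝ ∞ (fun z => g z y) x ∧ ∀ k : ℕ, 1 ≤ k → k ≤ 3 →
        ‖iteratedFDeriv ℝ k (fun z => g z y) x‖ ≤ C1 / δ ^ 4)
    (hbl : ∀ z : ℂ, z ≠ 0 →
    ContDiffAt ℝ ∞ (fun w : ℂ => Real.log ‖w‖) z ∧ ∀ k : ℕ, 1 ≤ k → k ≤ 3 →
      ‖iteratedFDeriv ℝ k (fun w : ℂ => Real.log ‖w‖) z‖ ≤ Cl / ‖z‖ ^ k)
    {ι : Type} [DecidableEq ι] {J : Finset ι} {x : ι → ℂ} (hx : x ∈ Cfg Λ ι) {δ : ℝ}
    (hδ : 0 < δ) (hδ1 : δ ≤ 1) (hsep : ∀ i ∈ J, Sep Λ δ x i) (a b : ι) :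
    Term mulI (res J x) (δ / 4) (fun y => Gst g (merge J y x a) (merge J y x b))
      ((if a ∈ J then (128 * Cg + 128 * C1 + 64 * Cl) / δ ^ 4 else 0) +
        (if b ∈ J then (128 * Cg + 128 * C1 + 64 * Cl) / δ ^ 4 else 0))
      (fun v => 2 * (mixD g (x a) (x b) (ext J v a) (ext J v b) +
        mixD g (x a) (x b) (Complex.I * ext J v a) (Complex.I * ext J v b))) := by
  have hr : 0 < δ / 4 := by positivity
  have hK0 : 0 ≤ (128 * Cg + 128 * C1 + 64 * Cl) / δ ^ 4 := by positivity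
  have hKg : 8 * (Cg / (δ / 2) ^ 4) = 128 * Cg / δ ^ 4 := by field_simp; ring
  have hK1 : 8 * (C1 / (δ / 2) ^ 4) = 128 * C1 / δ ^ 4 := by field_simp; ring
  have hKl : 8 * (Cl / (δ / 2) ^ 3) ≤ 64 * Cl / δ ^ 4 := by
    have e : 8 * (Cl / (δ / 2) ^ 3) = 64 * Cl / δ ^ 3 := by field_simp; ring
    rw [e]
    refine div_le_div_of_nonneg_left (by positivity) (by positivity) ?_
    calc δ ^ 4 = δ ^ 3 * δ := by ring
      _ ≤ δ ^ 3 * 1 := by gcongr
      _ = δ ^ 3 := by ring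
  have hsum : (128 * Cg + 128 * C1 + 64 * Cl) / δ ^ 4 =
      128 * Cg / δ ^ 4 + 128 * C1 / δ ^ 4 + 64 * Cl / δ ^ 4 := by ring
  have hp1 : 0 ≤ 128 * C1 / δ ^ 4 := by positivity
  have hpg : 0 ≤ 128 * Cg / δ ^ 4 := by positivity
  have hpl : 0 ≤ 64 * Cl / δ ^ 4 := by positivity
  have hy0 : res J x ∈ ball (res J x) (δ / 4) := mem_ball_self hr
  have hgeo := fun (y : J → ℂ) (hy : y ∈ ball (res J x) (δ / 4)) => geom hδ hsep hy
  by_cases ha : a ∈ J
  · by_cases hb : b ∈ J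
    · have h1 := term_gg hD hCg hbg (y₀ := res J x) hδ hδ1 ⟨a, ha⟩ ⟨b, hb⟩
        (fun y hy => (hgeo y hy).1 _) (fun y hy => (hgeo y hy).1 _)
      have hl : Term mulI (res J x) (δ / 4)
          (fun y : J → ℂ => Real.log ‖y ⟨a, ha⟩ - y ⟨b, hb⟩‖) (64 * Cl / δ ^ 4)
            (fun _ => 0) := by
        by_cases hab : a = b
        · subst hab
          refine ((Term.const (I := mulI) (y₀ := res J x) (r := δ / 4) 0).congr hr
            (T' := fun y : J → ℂ => Real.log ‖y ⟨a, ha⟩ - y ⟨a, hb⟩‖) fun y _ => ?_).mono hpl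
              fun _ => rfl
          simp
        · have h2 := term_log (J := J) hCl hbl (y₀ := res J x) hδ
            ((ContinuousLinearMap.proj ⟨a, ha⟩ : (J → ℂ) →L[ℝ] ℂ) -
              ContinuousLinearMap.proj ⟨b, hb⟩) 0
            (by
              refine (norm_sub_le _ _).trans ?_
              have := norm_proj_le (⟨a, ha⟩ : J)
              have := norm_proj_le (⟨b, hb⟩ : J)
              linarith)
            (fun v => by
              simp only [sub_apply, ContinuousLinearMap.proj_apply, mulI]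
              ring)
            (fun y hy => by
              simp only [sub_apply, ContinuousLinearMap.proj_apply, add_zero]
              exact (hgeo y hy).2.2 _ _ fun h => hab (congrArg Subtype.val h))
          refine (h2.congr hr (T' := fun y : J → ℂ => Real.log ‖y ⟨a, ha⟩ - y ⟨b, hb⟩‖)
            fun y _ => ?_).mono hKl fun _ => rfl
          simp
      have h3 := h1.add hr (hl.mul hr (-1))
      refine (h3.congr hr (T' := fun y => Gst g (merge J y x a) (merge J y x b))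
        fun y _ => ?_).mono ?_ fun v => ?_
      · rw [Gst_eq, merge_pos y x ha, merge_pos y x hb]
        ring
      · rw [if_pos ha, if_pos hb, hKg, hsum]
        simp only [abs_neg, abs_one, one_mul]
        linarith
      · simp only [ext, dif_pos ha, dif_pos hb, res]
        ring
    · have h1 := term_g1 hD hC1 hb1 (y₀ := res J x) hδ hδ1 ⟨a, ha⟩ (hx.1 b)
        (fun y hy => (hgeo y hy).1 _)
      have h2 := term_log (J := J) hCl hbl (y₀ := res J x) hδ
        (ContinuousLinearMap.proj ⟨a, ha⟩ : (J → ℂ) →L[ℝ] ℂ) (- x b)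
        ((norm_proj_le _).trans (by norm_num))
        (fun v => by simp only [ContinuousLinearMap.proj_apply, mulI])
        (fun y hy => by
          rw [← sub_eq_add_neg]
          exact (hgeo y hy).2.1 ⟨a, ha⟩ b hb)
      have h3 := h1.add hr (h2.mul hr (-1))
      refine (h3.congr hr (T' := fun y => Gst g (merge J y x a) (merge J y x b))
        fun y _ => ?_).mono ?_ fun v => ?_
      · rw [Gst_eq, merge_pos y x ha, merge_neg y x hb, ← sub_eq_add_neg (b := x b)]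
        simp only [ContinuousLinearMap.proj_apply]
        ring
      · rw [if_pos ha, if_neg hb, hK1, hsum]
        simp only [abs_neg, abs_one, one_mul]
        linarith
      · simp only [ext, dif_neg hb, mul_zero, mixD_zero_right, add_zero]
  · by_cases hb : b ∈ J
    · have h1 := term_g1 hD hC1 hb1 (y₀ := res J x) hδ hδ1 ⟨b, hb⟩ (hx.1 a)
        (fun y hy => (hgeo y hy).1 _)
      have h2 := term_log (J := J) hCl hbl (y₀ := res J x) hδ
        (- (ContinuousLinearMap.proj ⟨b, hb⟩ : (J → ℂ) →L[ℝ] ℂ)) (x a)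
        (by rw [norm_neg]; exact (norm_proj_le _).trans (by norm_num))
        (fun v => by
          simp only [neg_apply, ContinuousLinearMap.proj_apply, mulI]
          ring)
        (fun y hy => by
          have := (hgeo y hy).2.1 ⟨b, hb⟩ a ha
          rw [norm_sub_rev] at this
          have e : (- (ContinuousLinearMap.proj ⟨b, hb⟩ : (J → ℂ) →L[ℝ] ℂ)) y + x a =
              x a - y ⟨b, hb⟩ := by
            simp only [neg_apply, ContinuousLinearMap.proj_apply]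
            ring
          rw [e]
          exact this)
      have h3 := h1.add hr (h2.mul hr (-1))
      refine (h3.congr hr (T' := fun y => Gst g (merge J y x a) (merge J y x b))
        fun y hy => ?_).mono ?_ fun v => ?_
      · have e : (- (ContinuousLinearMap.proj ⟨b, hb⟩ : (J → ℂ) →L[ℝ] ℂ)) y + x a =
              x a - y ⟨b, hb⟩ := by
          simp only [neg_apply, ContinuousLinearMap.proj_apply]
          ring
        rw [Gst_eq, merge_neg y x ha, merge_pos y x hb, e,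
          g_symm hD (hx.1 a) ((hgeo y hy).1 ⟨b, hb⟩).1]
        ring
      · rw [if_neg ha, if_pos hb, hK1, hsum]
        simp only [abs_neg, abs_one, one_mul]
        linarith
      · simp only [ext, dif_neg ha, mul_zero, mixD_zero_left, add_zero]
    · refine ((Term.const (I := mulI) (y₀ := res J x) (r := δ / 4) (Gst g (x a) (x b))).congr hr
        (T' := fun y => Gst g (merge J y x a) (merge J y x b)) fun y _ => ?_).mono ?_ fun v => ?_
      · rw [merge_neg y x ha, merge_neg y x hb]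
      · rw [if_neg ha, if_neg hb, add_zero]
      · simp only [ext, dif_neg ha, mul_zero, mixD_zero_left, add_zero]

/-- the energy -/
theorem term_energy {Λ : Set ℂ} {g : ℂ → ℂ → ℝ} (hD : Dom Λ g) {Cg C1 Cl : ℝ}
    (hCg : 0 < Cg) (hC1 : 0 < C1) (hCl : 0 < Cl)
    (hbg : ∀ δ : ℝ, 0 < δ → δ ≤ 1 → ∀ x y : ℂ, δ ≤ infDist x Λᶜ → δ ≤ infDist y Λᶜ →
      |g x y| ≤ Cg / δ ∧ ∀ k : ℕ, 1 ≤ k → k ≤ 3 →
        ‖iteratedFDeriv ℝ k (fun p : ℂ × ℂ => g p.1 p.2) (x, y)‖ ≤ Cg / δ ^ 4)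
    (hb1 : ∀ δ : ℝ, 0 < δ → δ ≤ 1 → ∀ x y : ℂ, δ ≤ infDist x Λᶜ → y ∈ Λ →
      |g x y| ≤ C1 / δ ∧ ContDiffAt ℝ ∞ (fun z => g z y) x ∧ ∀ k : ℕ, 1 ≤ k → k ≤ 3 →
        ‖iteratedFDeriv ℝ k (fun z => g z y) x‖ ≤ C1 / δ ^ 4)
    (hbl : ∀ z : ℂ, z ≠ 0 →
    ContDiffAt ℝ ∞ (fun w : ℂ => Real.log ‖w‖) z ∧ ∀ k : ℕ, 1 ≤ k → k ≤ 3 →
      ‖iteratedFDeriv ℝ k (fun w : ℂ => Real.log ‖w‖) z‖ ≤ Cl / ‖z‖ ^ k)
    {ι : Type} [Fintype ι] [DecidableEq ι] {ch : ι → ℝ} (hch : ∀ i, |ch i| = 1) {J : Finset ι}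
    {x : ι → ℂ} (hx : x ∈ Cfg Λ ι) {δ : ℝ}
    (hδ : 0 < δ) (hδ1 : δ ≤ 1) (hsep : ∀ i ∈ J, Sep Λ δ x i) :
    Term mulI (res J x) (δ / 4) (fun y => energy g ch (merge J y x))
      (J.card * Fintype.card ι * ((128 * Cg + 128 * C1 + 64 * Cl) / δ ^ 4))
      (fun v => ∑ i : J, ∑ j : J, mixD g (x i) (x j) ((ch i : ℂ) * v i) ((ch j : ℂ) * v j) +
        ∑ i : J, ∑ j : J, mixD g (x i) (x j) ((ch i : ℂ) * (Complex.I * v i))
          ((ch j : ℂ) * (Complex.I * v j))) := by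
  have hr : 0 < δ / 4 := by positivity
  have h1 : Term mulI (res J x) (δ / 4) (fun y => 1 / 2 * ∑ a, ∑ b, ch a * ch b *
      Gst g (merge J y x a) (merge J y x b)) _ _ :=
    (Term.sum Finset.univ hr fun a _ => Term.sum Finset.univ hr fun b _ =>
      (term_pair hD hCg hC1 hCl hbg hb1 hbl hx hδ hδ1 hsep a b).mul hr (ch a * ch b)).mul hr (1 / 2)
  refine (h1.congr hr (T' := fun y => energy g ch (merge J y x)) fun y _ => rfl).mono ?_ fun v => ?_
  · set K : ℝ := (128 * Cg + 128 * C1 + 64 * Cl) / δ ^ 4 with hK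
    have hab : ∀ a b, |ch a * ch b| = 1 := fun a b => by rw [abs_mul, hch, hch, one_mul]
    simp only [hab, one_mul]
    have hcount : ∑ a : ι, (if a ∈ J then K else 0) = J.card * K := by
      rw [Finset.sum_ite_mem, Finset.univ_inter, Finset.sum_const, nsmul_eq_mul]
    have e1 : ∑ a : ι, ∑ b : ι, ((if a ∈ J then K else 0) + (if b ∈ J then K else 0)) =
        2 * (J.card * Fintype.card ι * K) := by
      simp only [Finset.sum_add_distrib, Finset.sum_const, Finset.card_univ, nsmul_eq_mul,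
        hcount, ← Finset.mul_sum]
      ring
    rw [e1, abs_of_pos (by norm_num : (0 : ℝ) < 1 / 2)]
    linarith
  · have key : ∀ w : J → ℂ, ∑ a : ι, ∑ b : ι, ch a * ch b * mixD g (x a) (x b) (ext J w a)
        (ext J w b) = ∑ i : J, ∑ j : J, mixD g (x i) (x j) ((ch i : ℂ) * w i)
          ((ch j : ℂ) * w j) := by
      intro w
      have e0 : ∀ φ : ι → ℝ, (∀ a, a ∉ J → φ a = 0) → ∑ a : ι, φ a = ∑ i : J, φ i := by
        intro φ hφ
        rw [Finset.sum_coe_sort J φ]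
        exact (Finset.sum_subset (Finset.subset_univ J) fun a _ ha => hφ a ha).symm
      rw [e0 (fun a => ∑ b : ι, ch a * ch b * mixD g (x a) (x b) (ext J w a) (ext J w b))]
      · refine Finset.sum_congr rfl fun i _ => ?_
        rw [e0 (fun b => ch i * ch b * mixD g (x i) (x b) (ext J w i) (ext J w b))]
        · refine Finset.sum_congr rfl fun j _ => ?_
          rw [mixD_mul]
          have hi : ext J w i = w i := by simp only [ext, dif_pos i.2]
          have hj : ext J w j = w j := by simp only [ext, dif_pos j.2]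
          rw [hi, hj]
        · intro b hb
          have : ext J w b = 0 := by simp only [ext, dif_neg hb]
          rw [this, mixD_zero_right, mul_zero]
      · intro a ha
        have : ext J w a = 0 := by simp only [ext, dif_neg ha]
        simp only [this, mixD_zero_left, mul_zero, Finset.sum_const_zero]
    have hI : ∀ a, Complex.I * ext J v a = ext J (fun j => Complex.I * v j) a := by
      intro a
      by_cases ha : a ∈ J
      · simp only [ext, dif_pos ha]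
      · simp only [ext, dif_neg ha, mul_zero]
    rw [← key v, ← key (fun j => Complex.I * v j)]
    simp only [hI]
    rw [Finset.mul_sum, ← Finset.sum_add_distrib]
    refine Finset.sum_congr rfl fun a _ => ?_
    rw [Finset.mul_sum, ← Finset.sum_add_distrib]
    refine Finset.sum_congr rfl fun b _ => ?_
    ring

end LocAux

/-- Local structure of the energy as a function of `p` separated coordinates. -/
theorem local_struct {Λ : Set ℂ} {g : ℂ → ℂ → ℝ} (hD : Dom Λ g) (p : ℕ) :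
    ∃ C c : ℝ, 0 < C ∧ 0 < c ∧ ∀ (ι : Type) [Fintype ι] [DecidableEq ι] (ch : ι → ℝ),
      (∀ i, |ch i| = 1) → ∀ J : Finset ι, J.card = p → ∀ x ∈ Cfg Λ ι, ∀ δ : ℝ, 0 < δ → δ ≤ 1 →
      (∀ i ∈ J, Sep Λ δ x i) →
      (∀ y ∈ ball (res J x) (δ / 4), merge J y x ∈ Cfg Λ ι ∧
        ContDiffAt ℝ 2 (fun y' : J → ℂ => energy g ch (merge J y' x)) y ∧
        ‖fderiv ℝ (fderiv ℝ (fun y' : J → ℂ => energy g ch (merge J y' x))) y -
          fderiv ℝ (fderiv ℝ (fun y' : J → ℂ => energy g ch (merge J y' x))) (res J x)‖ ≤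
            C * Fintype.card ι / δ ^ 4 * ‖y - res J x‖) ∧
      ∀ v : J → ℂ, D2 (fun y' : J → ℂ => energy g ch (merge J y' x)) (res J x) v v +
        D2 (fun y' : J → ℂ => energy g ch (merge J y' x)) (res J x)
          (fun j => Complex.I * v j) (fun j => Complex.I * v j) ≤
        - (c * δ ^ (2 * p) * ∑ j, ‖v j‖ ^ 2) := by
  obtain ⟨Cg, hCg, hbg⟩ := gg_bound hD
  obtain ⟨C1, hC1, hb1⟩ := g1_bound hD
  obtain ⟨Cl, hCl, hbl⟩ := log_bound
  obtain ⟨c, hc, hlev⟩ := levi_lower hD p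
  refine ⟨(p + 1) * (128 * Cg + 128 * C1 + 64 * Cl), c, by positivity, hc, ?_⟩
  intro ι _ _ ch hch J hJ x hx δ hδ hδ1 hsep
  have ht := LocAux.term_energy hD hCg hC1 hCl hbg hb1 hbl hch hx hδ hδ1 hsep
  have hr : 0 < δ / 4 := by positivity
  refine ⟨fun y hy => ⟨LocAux.merge_mem hx hδ hsep hy, ht.smooth y hy, ?_⟩, fun v => ?_⟩
  · refine (ht.lip y hy).trans (mul_le_mul_of_nonneg_right ?_ (norm_nonneg _))
    rw [hJ]
    have h1 : (0 : ℝ) ≤ (Fintype.card ι : ℝ) * ((128 * Cg + 128 * C1 + 64 * Cl) / δ ^ 4) := by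
      positivity
    have h2 : (p : ℝ) * Fintype.card ι * ((128 * Cg + 128 * C1 + 64 * Cl) / δ ^ 4) +
        (Fintype.card ι : ℝ) * ((128 * Cg + 128 * C1 + 64 * Cl) / δ ^ 4) =
        (p + 1) * (128 * Cg + 128 * C1 + 64 * Cl) * Fintype.card ι / δ ^ 4 := by ring
    linarith
  · have h1 := ht.levi v
    have hcard : Fintype.card J = p := by rw [Fintype.card_coe, hJ]
    have hz : ∀ i : J, x i ∈ Λ := fun i => hx.1 i
    have hzz : ∀ i j : J, i ≠ j → δ ≤ ‖x i - x j‖ := fun i j hij =>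
      (hsep i i.2).2 j fun h => hij (Subtype.ext h.symm)
    have l1 := hlev J hcard (fun i => x i) (fun i => (ch i : ℂ) * v i) δ hδ hδ1 hz hzz
    have l2 := hlev J hcard (fun i => x i) (fun i => (ch i : ℂ) * (Complex.I * v i)) δ hδ hδ1 hz hzz
    have n1 : ∀ i : J, ‖(ch i : ℂ) * v i‖ = ‖v i‖ := fun i => by
      rw [norm_mul, Complex.norm_real, Real.norm_eq_abs, hch, one_mul]
    have n2 : ∀ i : J, ‖(ch i : ℂ) * (Complex.I * v i)‖ = ‖v i‖ := fun i => by
      rw [norm_mul, Complex.norm_real, Real.norm_eq_abs, hch, one_mul, norm_mul, Complex.norm_I,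
        one_mul]
    simp only [n1] at l1
    simp only [n2] at l2
    have h0 : 0 ≤ c * δ ^ (2 * p) * ∑ j, ‖v j‖ ^ 2 := by positivity
    have h2 : D2 (fun y' : J → ℂ => energy g ch (merge J y' x)) (res J x) v v +
        D2 (fun y' : J → ℂ => energy g ch (merge J y' x)) (res J x)
          (fun j => Complex.I * v j) (fun j => Complex.I * v j) =
        ∑ i : J, ∑ j : J, mixD g (x i) (x j) ((ch i : ℂ) * v i) ((ch j : ℂ) * v j) +
        ∑ i : J, ∑ j : J, mixD g (x i) (x j) ((ch i : ℂ) * (Complex.I * v i))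
          ((ch j : ℂ) * (Complex.I * v j)) := h1
    rw [h2]
    linarith

end Pool.Agent.Lib.MP_fa244c_mp
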