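import Pool.Agent.Lib.MP_fa244c_mp.Core

set_option autoImplicit false

open MeasureTheory Filter Topology Set

namespace Pool.Agent.Lib.MP_fa244c_mp

namespace LogPSD

open scoped RealInnerProductSpace

theorem gauss_cos {t : ℝ} (ht : 0 < t) (z : ℂ) :
    Real.exp (-t * ‖z‖ ^ 2) = (1 / (4 * t) / Real.pi) *
      ∫ v : ℂ, Real.exp (-(1 / (4 * t)) * ‖v‖ ^ 2) * Real.cos ⟪z, v⟫ := by
  set b : ℝ := 1 / (4 * t) with hb
  have hb0 : 0 < b := by positivity
  have hbt : 4 * b * t = 1 := by rw [hb]; field_simp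
  have h1 := GaussianFourier.integral_cexp_neg_mul_sq_norm_add (V := ℂ) (b := (b : ℂ))
    (by simpa using hb0) Complex.I z
  have h2 := GaussianFourier.integrable_cexp_neg_mul_sq_norm_add (V := ℂ) (b := (b : ℂ))
    (by simpa using hb0) Complex.I z
  have h3 := congrArg Complex.re h1
  have h4 : ∀ v : ℂ, (Complex.exp (-(b : ℂ) * (‖v‖ : ℂ) ^ 2 + Complex.I * ((⟪z, v⟫ : ℝ) : ℂ))).re
      = Real.exp (-b * ‖v‖ ^ 2) * Real.cos ⟪z, v⟫ := by
    intro v
    rw [Complex.exp_re]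
    have e1 : (-(b : ℂ) * (‖v‖ : ℂ) ^ 2 + Complex.I * ((⟪z, v⟫ : ℝ) : ℂ)).re = -b * ‖v‖ ^ 2 := by
      have : (-(b : ℂ) * (‖v‖ : ℂ) ^ 2) = ((-b * ‖v‖ ^ 2 : ℝ) : ℂ) := by push_cast; ring
      rw [this, Complex.add_re, Complex.ofReal_re, Complex.I_mul_re, Complex.ofReal_im, neg_zero,
        add_zero]
    have e2 : (-(b : ℂ) * (‖v‖ : ℂ) ^ 2 + Complex.I * ((⟪z, v⟫ : ℝ) : ℂ)).im = ⟪z, v⟫ := by
      have : (-(b : ℂ) * (‖v‖ : ℂ) ^ 2) = ((-b * ‖v‖ ^ 2 : ℝ) : ℂ) := by push_cast; ring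
      rw [this, Complex.add_im, Complex.ofReal_im, Complex.I_mul_im, Complex.ofReal_re, zero_add]
    rw [e1, e2]
  rw [← RCLike.re_to_complex, ← integral_re h2] at h3
  simp only [RCLike.re_to_complex, h4] at h3
  rw [h3]
  have e5 : ((Real.pi : ℂ) / (b : ℂ)) ^ ((Module.finrank ℝ ℂ : ℂ) / 2) *
      Complex.exp (Complex.I ^ 2 * (‖z‖ : ℂ) ^ 2 / (4 * (b : ℂ))) =
      ((Real.pi / b * Real.exp (-t * ‖z‖ ^ 2) : ℝ) : ℂ) := by
    have f1 : ((Module.finrank ℝ ℂ : ℂ) / 2) = 1 := by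
      rw [Complex.finrank_real_complex]; norm_num
    have f2 : Complex.I ^ 2 * (‖z‖ : ℂ) ^ 2 / (4 * (b : ℂ)) = ((-t * ‖z‖ ^ 2 : ℝ) : ℂ) := by
      have hbc : (b : ℂ) ≠ 0 := by exact_mod_cast hb0.ne'
      have hbt' : 4 * (b : ℂ) * (t : ℂ) = 1 := by exact_mod_cast hbt
      rw [Complex.I_sq, div_eq_iff (by simpa using hbc)]
      push_cast
      linear_combination ((‖z‖ : ℂ) ^ 2) * hbt'
    rw [f1, Complex.cpow_one, f2]
    push_cast
    ring
  rw [e5, Complex.ofReal_re]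
  field_simp

variable {X : Type} [MeasurableSpace X] {μ : Measure X} [IsFiniteMeasure μ]

theorem int_w {w : X → ℝ} (hw : Measurable w) {B : ℝ} (hB : ∀ x, |w x| ≤ B) {f : X → ℝ}
    (hf : Measurable f) (hf1 : ∀ x, |f x| ≤ 1) : Integrable (fun x => f x * w x) μ := by
  refine Integrable.of_bound (hf.mul hw).aestronglyMeasurable B (Eventually.of_forall fun x => ?_)
  have hB0 : 0 ≤ B := (abs_nonneg _).trans (hB x)
  rw [Real.norm_eq_abs, abs_mul]
  calc |f x| * |w x| ≤ 1 * B := mul_le_mul (hf1 x) (hB x) (abs_nonneg _) zero_le_one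
    _ = B := one_mul B

theorem int_ww {w : X → ℝ} (hw : Measurable w) {B : ℝ} (hB : ∀ x, |w x| ≤ B) {f : X × X → ℝ}
    (hf : Measurable f) {C : ℝ} (hf1 : ∀ x, |f x| ≤ C) :
    Integrable (fun p : X × X => f p * (w p.1 * w p.2)) (μ.prod μ) := by
  refine Integrable.of_bound (hf.mul ((hw.comp measurable_fst).mul
    (hw.comp measurable_snd))).aestronglyMeasurable (C * (B * B))
    (Eventually.of_forall fun p => ?_)
  have hB0 : 0 ≤ B := (abs_nonneg _).trans (hB p.1)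
  have hC0 : 0 ≤ C := (abs_nonneg _).trans (hf1 p)
  rw [Real.norm_eq_abs, abs_mul, abs_mul]
  gcongr
  · exact hf1 p
  · exact hB _
  · exact hB _

theorem psd_cos {φ : X → ℂ} (hφ : Measurable φ) {w : X → ℝ} (hw : Measurable w) {B : ℝ}
    (hB : ∀ x, |w x| ≤ B) (v : ℂ) :
    0 ≤ ∫ p : X × X, Real.cos ⟪φ p.1 - φ p.2, v⟫ * (w p.1 * w p.2) ∂(μ.prod μ) := by
  have hin : Measurable (fun x => (⟪φ x, v⟫ : ℝ)) := hφ.inner measurable_const
  have hc : Measurable (fun x => Real.cos ⟪φ x, v⟫) := Real.measurable_cos.comp hin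
  have hs : Measurable (fun x => Real.sin ⟪φ x, v⟫) := Real.measurable_sin.comp hin
  have ic := int_w (μ := μ) hw hB hc (fun x => Real.abs_cos_le_one _)
  have is := int_w (μ := μ) hw hB hs (fun x => Real.abs_sin_le_one _)
  have h1 : ∀ p : X × X, Real.cos ⟪φ p.1 - φ p.2, v⟫ * (w p.1 * w p.2) =
      (Real.cos ⟪φ p.1, v⟫ * w p.1) * (Real.cos ⟪φ p.2, v⟫ * w p.2) +
      (Real.sin ⟪φ p.1, v⟫ * w p.1) * (Real.sin ⟪φ p.2, v⟫ * w p.2) := by
    intro p
    rw [inner_sub_left, Real.cos_sub]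
    ring
  simp_rw [h1]
  rw [integral_add (ic.mul_prod ic) (is.mul_prod is), integral_prod_mul
    (fun x => Real.cos ⟪φ x, v⟫ * w x) (fun x => Real.cos ⟪φ x, v⟫ * w x), integral_prod_mul
    (fun x => Real.sin ⟪φ x, v⟫ * w x) (fun x => Real.sin ⟪φ x, v⟫ * w x)]
  exact add_nonneg (mul_self_nonneg _) (mul_self_nonneg _)

theorem psd_gauss {φ : X → ℂ} (hφ : Measurable φ) {w : X → ℝ} (hw : Measurable w) {B : ℝ}
    (hB : ∀ x, |w x| ≤ B) {t : ℝ} (ht : 0 < t) :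
    0 ≤ ∫ p : X × X, Real.exp (-t * ‖φ p.1 - φ p.2‖ ^ 2) * (w p.1 * w p.2) ∂(μ.prod μ) := by
  set b : ℝ := 1 / (4 * t) with hb
  have hb0 : 0 < b := by positivity
  have hga : Integrable (fun v : ℂ => Real.exp (-b * ‖v‖ ^ 2)) := by
    have := (GaussianFourier.integrable_cexp_neg_mul_sq_norm_add (V := ℂ) (b := (b : ℂ))
      (by simpa using hb0) 0 0).norm
    refine this.congr (Eventually.of_forall fun v => ?_)
    simp only
    have : (-(b : ℂ) * (‖v‖ : ℂ) ^ 2 + 0 * ((⟪(0 : ℂ), v⟫ : ℝ) : ℂ)) =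
      ((-b * ‖v‖ ^ 2 : ℝ) : ℂ) := by push_cast; ring
    rw [this, Complex.norm_exp, Complex.ofReal_re]
  have e1 : ∀ p : X × X, Real.exp (-t * ‖φ p.1 - φ p.2‖ ^ 2) * (w p.1 * w p.2) =
      (b / Real.pi) * ∫ v : ℂ, Real.exp (-b * ‖v‖ ^ 2) *
        (Real.cos ⟪φ p.1 - φ p.2, v⟫ * (w p.1 * w p.2)) := by
    intro p
    rw [gauss_cos ht, ← hb, mul_assoc, ← integral_mul_const]
    congr 2
    ext v
    ring
  simp_rw [e1]
  rw [integral_const_mul]
  refine mul_nonneg (by positivity) ?_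
  have hmeas : Measurable (fun q : (X × X) × ℂ => Real.exp (-b * ‖q.2‖ ^ 2) *
      (Real.cos ⟪φ q.1.1 - φ q.1.2, q.2⟫ * (w q.1.1 * w q.1.2))) := by
    have m1 : Measurable (fun q : (X × X) × ℂ => φ q.1.1) :=
      hφ.comp (measurable_fst.comp measurable_fst)
    have m2 : Measurable (fun q : (X × X) × ℂ => φ q.1.2) :=
      hφ.comp (measurable_snd.comp measurable_fst)
    have m3 : Measurable (fun q : (X × X) × ℂ => w q.1.1) :=
      hw.comp (measurable_fst.comp measurable_fst)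
    have m4 : Measurable (fun q : (X × X) × ℂ => w q.1.2) :=
      hw.comp (measurable_snd.comp measurable_fst)
    have m5 : Measurable (fun q : (X × X) × ℂ => (⟪φ q.1.1 - φ q.1.2, q.2⟫ : ℝ)) :=
      (m1.sub m2).inner measurable_snd
    have m6 : Measurable (fun q : (X × X) × ℂ => -b * ‖q.2‖ ^ 2) :=
      (measurable_snd.norm.pow_const 2).const_mul _
    exact (Real.measurable_exp.comp m6).mul ((Real.measurable_cos.comp m5).mul (m3.mul m4))
  have hint : Integrable (fun q : (X × X) × ℂ => Real.exp (-b * ‖q.2‖ ^ 2) *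
      (Real.cos ⟪φ q.1.1 - φ q.1.2, q.2⟫ * (w q.1.1 * w q.1.2)))
      ((μ.prod μ).prod volume) := by
    have hdom : Integrable (fun q : (X × X) × ℂ => (B * B) * Real.exp (-b * ‖q.2‖ ^ 2))
        ((μ.prod μ).prod volume) := (integrable_const (B * B)).mul_prod hga
    refine hdom.mono' hmeas.aestronglyMeasurable (Eventually.of_forall fun q => ?_)
    have hB0 : 0 ≤ B := (abs_nonneg _).trans (hB q.1.1)
    rw [Real.norm_eq_abs, abs_mul, abs_mul, abs_mul, Real.abs_exp]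
    have k1 := Real.abs_cos_le_one ⟪φ q.1.1 - φ q.1.2, q.2⟫
    have k2 := hB q.1.1
    have k3 := hB q.1.2
    calc Real.exp (-b * ‖q.2‖ ^ 2) * (|Real.cos ⟪φ q.1.1 - φ q.1.2, q.2⟫| *
          (|w q.1.1| * |w q.1.2|))
        ≤ Real.exp (-b * ‖q.2‖ ^ 2) * (1 * (B * B)) := by gcongr
      _ = _ := by ring
  rw [integral_integral_swap hint]
  refine integral_nonneg fun v => ?_
  simp only
  rw [integral_const_mul]
  exact mul_nonneg (Real.exp_pos _).le (psd_cos hφ hw hB v)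

theorem inv_eq {a : ℝ} (ha : 0 < a) : a⁻¹ = ∫ t in Ioi (0 : ℝ), Real.exp (-a * t) := by
  rw [integral_exp_mul_Ioi (by linarith) 0]
  simp

theorem psd_inv {φ : X → ℂ} (hφ : Measurable φ) {w : X → ℝ} (hw : Measurable w) {B : ℝ}
    (hB : ∀ x, |w x| ≤ B) {u : ℝ} (hu : 0 < u) :
    0 ≤ ∫ p : X × X, (u + ‖φ p.1 - φ p.2‖ ^ 2)⁻¹ * (w p.1 * w p.2) ∂(μ.prod μ) := by
  have e1 : ∀ p : X × X, (u + ‖φ p.1 - φ p.2‖ ^ 2)⁻¹ * (w p.1 * w p.2) =
      ∫ t in Ioi (0 : ℝ), Real.exp (-(u + ‖φ p.1 - φ p.2‖ ^ 2) * t) * (w p.1 * w p.2) := by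
    intro p
    rw [inv_eq (by positivity), integral_mul_const]
  simp_rw [e1]
  have hga : Integrable (fun t : ℝ => Real.exp (-u * t)) (volume.restrict (Ioi 0)) := by
    have := integrableOn_exp_mul_Ioi (a := -u) (by linarith) 0
    exact this
  have hmeas : Measurable (fun q : (X × X) × ℝ =>
      Real.exp (-(u + ‖φ q.1.1 - φ q.1.2‖ ^ 2) * q.2) * (w q.1.1 * w q.1.2)) := by
    have m1 : Measurable (fun q : (X × X) × ℝ => φ q.1.1) :=
      hφ.comp (measurable_fst.comp measurable_fst)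
    have m2 : Measurable (fun q : (X × X) × ℝ => φ q.1.2) :=
      hφ.comp (measurable_snd.comp measurable_fst)
    have m3 : Measurable (fun q : (X × X) × ℝ => w q.1.1) :=
      hw.comp (measurable_fst.comp measurable_fst)
    have m4 : Measurable (fun q : (X × X) × ℝ => w q.1.2) :=
      hw.comp (measurable_snd.comp measurable_fst)
    have m5 : Measurable (fun q : (X × X) × ℝ => -(u + ‖φ q.1.1 - φ q.1.2‖ ^ 2) * q.2) :=
      ((((m1.sub m2).norm.pow_const 2).const_add u).neg).mul measurable_snd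
    exact (Real.measurable_exp.comp m5).mul (m3.mul m4)
  have hint : Integrable (fun q : (X × X) × ℝ =>
      Real.exp (-(u + ‖φ q.1.1 - φ q.1.2‖ ^ 2) * q.2) * (w q.1.1 * w q.1.2))
      ((μ.prod μ).prod (volume.restrict (Ioi 0))) := by
    have hdom : Integrable (fun q : (X × X) × ℝ => (B * B) * Real.exp (-u * q.2))
        ((μ.prod μ).prod (volume.restrict (Ioi 0))) := (integrable_const (B * B)).mul_prod hga
    refine hdom.mono' hmeas.aestronglyMeasurable ?_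
    have hpos : ∀ᵐ q : (X × X) × ℝ ∂((μ.prod μ).prod (volume.restrict (Ioi (0 : ℝ)))), 0 < q.2 := by
      have h1 : ∀ᵐ t : ℝ ∂(volume.restrict (Ioi (0 : ℝ))), 0 < t :=
        ae_restrict_mem measurableSet_Ioi
      exact Measure.quasiMeasurePreserving_snd.ae h1
    filter_upwards [hpos] with q hq
    have hB0 : 0 ≤ B := (abs_nonneg _).trans (hB q.1.1)
    rw [Real.norm_eq_abs, abs_mul, abs_mul, Real.abs_exp]
    have k2 := hB q.1.1
    have k3 := hB q.1.2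
    have k4 : -(u + ‖φ q.1.1 - φ q.1.2‖ ^ 2) * q.2 ≤ -u * q.2 := by
      have : 0 ≤ ‖φ q.1.1 - φ q.1.2‖ ^ 2 * q.2 := by positivity
      linarith
    calc Real.exp (-(u + ‖φ q.1.1 - φ q.1.2‖ ^ 2) * q.2) * (|w q.1.1| * |w q.1.2|)
        ≤ Real.exp (-u * q.2) * (B * B) := by
          gcongr
      _ = _ := by ring
  rw [integral_integral_swap hint]
  refine setIntegral_nonneg measurableSet_Ioi fun t ht => ?_
  have ht' : 0 < t := ht
  have e2 : ∀ p : X × X, Real.exp (-(u + ‖φ p.1 - φ p.2‖ ^ 2) * t) * (w p.1 * w p.2) =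
      Real.exp (-u * t) * (Real.exp (-t * ‖φ p.1 - φ p.2‖ ^ 2) * (w p.1 * w p.2)) := by
    intro p
    rw [← mul_assoc (Real.exp (-u * t)), ← Real.exp_add]
    congr 2
    ring
  simp_rw [e2]
  rw [integral_const_mul]
  exact mul_nonneg (Real.exp_pos _).le (psd_gauss hφ hw hB ht')

theorem log_mono {φ : X → ℂ} (hφ : Measurable φ) {R : ℝ} (hR : ∀ x, ‖φ x‖ ≤ R) {w : X → ℝ}
    (hw : Measurable w) {B : ℝ} (hB : ∀ x, |w x| ≤ B) {d M : ℝ} (hd : 0 < d) (hM : d ≤ M) :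
    ∫ p : X × X, Real.log (d + ‖φ p.1 - φ p.2‖ ^ 2) * (w p.1 * w p.2) ∂(μ.prod μ) ≤
      ∫ p : X × X, Real.log (M + ‖φ p.1 - φ p.2‖ ^ 2) * (w p.1 * w p.2) ∂(μ.prod μ) := by
  have hs : Measurable (fun p : X × X => ‖φ p.1 - φ p.2‖ ^ 2) :=
    ((hφ.comp measurable_fst).sub (hφ.comp measurable_snd)).norm.pow_const 2
  have hsb : ∀ p : X × X, ‖φ p.1 - φ p.2‖ ^ 2 ≤ (R + R) ^ 2 := by
    intro p
    have : ‖φ p.1 - φ p.2‖ ≤ R + R := (norm_sub_le _ _).trans (add_le_add (hR _) (hR _))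
    gcongr
  have hlog : ∀ c : ℝ, 0 < c → Integrable (fun p : X × X =>
      Real.log (c + ‖φ p.1 - φ p.2‖ ^ 2) * (w p.1 * w p.2)) (μ.prod μ) := by
    intro c hc
    refine int_ww hw hB (Real.measurable_log.comp (hs.const_add c))
      (C := |Real.log c| + |Real.log (c + (R + R) ^ 2)|) fun p => ?_
    have h1 : Real.log c ≤ Real.log (c + ‖φ p.1 - φ p.2‖ ^ 2) :=
      Real.log_le_log hc (by nlinarith [sq_nonneg ‖φ p.1 - φ p.2‖])
    have h2 : Real.log (c + ‖φ p.1 - φ p.2‖ ^ 2) ≤ Real.log (c + (R + R) ^ 2) :=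
      Real.log_le_log (by positivity) (by linarith [hsb p])
    rw [abs_le]
    constructor
    · linarith [neg_abs_le (Real.log c), abs_nonneg (Real.log (c + (R + R) ^ 2))]
    · linarith [le_abs_self (Real.log (c + (R + R) ^ 2)), abs_nonneg (Real.log c)]
  rw [← sub_nonneg, ← integral_sub (hlog M (hd.trans_le hM)) (hlog d hd)]
  have e1 : ∀ p : X × X, Real.log (M + ‖φ p.1 - φ p.2‖ ^ 2) * (w p.1 * w p.2) -
      Real.log (d + ‖φ p.1 - φ p.2‖ ^ 2) * (w p.1 * w p.2) =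
      ∫ u in Ioc d M, (u + ‖φ p.1 - φ p.2‖ ^ 2)⁻¹ * (w p.1 * w p.2) := by
    intro p
    rw [integral_mul_const, ← intervalIntegral.integral_of_le hM,
      intervalIntegral.integral_comp_add_right (fun x => x⁻¹),
      integral_inv_of_pos (by positivity) (by have := hd.trans_le hM; positivity),
      Real.log_div (by have := hd.trans_le hM; positivity) (by positivity)]
    ring
  simp_rw [e1]
  have hmeas : Measurable (fun q : (X × X) × ℝ =>
      (q.2 + ‖φ q.1.1 - φ q.1.2‖ ^ 2)⁻¹ * (w q.1.1 * w q.1.2)) := by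
    have m3 : Measurable (fun q : (X × X) × ℝ => w q.1.1) :=
      hw.comp (measurable_fst.comp measurable_fst)
    have m4 : Measurable (fun q : (X × X) × ℝ => w q.1.2) :=
      hw.comp (measurable_snd.comp measurable_fst)
    exact (measurable_snd.add (hs.comp measurable_fst)).inv.mul (m3.mul m4)
  have hint : Integrable (fun q : (X × X) × ℝ =>
      (q.2 + ‖φ q.1.1 - φ q.1.2‖ ^ 2)⁻¹ * (w q.1.1 * w q.1.2))
      ((μ.prod μ).prod (volume.restrict (Ioc d M))) := by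
    refine Integrable.of_bound hmeas.aestronglyMeasurable (d⁻¹ * (B * B)) ?_
    have hpos : ∀ᵐ q : (X × X) × ℝ ∂((μ.prod μ).prod (volume.restrict (Ioc d M))), q.2 ∈ Ioc d M := by
      have h1 : ∀ᵐ t : ℝ ∂(volume.restrict (Ioc d M)), t ∈ Ioc d M :=
        ae_restrict_mem measurableSet_Ioc
      exact Measure.quasiMeasurePreserving_snd.ae h1
    filter_upwards [hpos] with q hq
    have hB0 : 0 ≤ B := (abs_nonneg _).trans (hB q.1.1)
    rw [Real.norm_eq_abs, abs_mul, abs_mul]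
    have k1 : |(q.2 + ‖φ q.1.1 - φ q.1.2‖ ^ 2)⁻¹| ≤ d⁻¹ := by
      have : 0 ≤ ‖φ q.1.1 - φ q.1.2‖ ^ 2 := by positivity
      rw [abs_of_nonneg (inv_nonneg.2 (by linarith [hq.1]))]
      exact inv_anti₀ hd (by linarith [hq.1])
    have k2 := hB q.1.1
    have k3 := hB q.1.2
    gcongr
  rw [integral_integral_swap hint]
  refine setIntegral_nonneg measurableSet_Ioc fun u hu => ?_
  exact psd_inv hφ hw hB (hd.trans hu.1)

theorem log_nonpos {φ : X → ℂ} (hφ : Measurable φ) {R : ℝ} (hR : ∀ x, ‖φ x‖ ≤ R) {w : X → ℝ}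
    (hw : Measurable w) {B : ℝ} (hB : ∀ x, |w x| ≤ B) (h0 : ∫ x, w x ∂μ = 0) {d : ℝ}
    (hd : 0 < d) :
    ∫ p : X × X, Real.log (d + ‖φ p.1 - φ p.2‖ ^ 2) * (w p.1 * w p.2) ∂(μ.prod μ) ≤ 0 := by
  have hs : Measurable (fun p : X × X => ‖φ p.1 - φ p.2‖ ^ 2) :=
    ((hφ.comp measurable_fst).sub (hφ.comp measurable_snd)).norm.pow_const 2
  have hsb : ∀ p : X × X, ‖φ p.1 - φ p.2‖ ^ 2 ≤ (R + R) ^ 2 := by
    intro p
    have : ‖φ p.1 - φ p.2‖ ≤ R + R := (norm_sub_le _ _).trans (add_le_add (hR _) (hR _))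
    gcongr
  have hww : ∫ p : X × X, w p.1 * w p.2 ∂(μ.prod μ) = 0 := by
    rw [integral_prod_mul w w, h0, zero_mul]
  have key : ∀ M : ℝ, d ≤ M →
      ∫ p : X × X, Real.log (d + ‖φ p.1 - φ p.2‖ ^ 2) * (w p.1 * w p.2) ∂(μ.prod μ) ≤
        M⁻¹ * ((R + R) ^ 2 * (B * B) * (μ.prod μ).real univ) := by
    intro M hM
    have hM0 : 0 < M := hd.trans_le hM
    refine (log_mono hφ hR hw hB hd hM).trans ?_
    have hm1 : Measurable (fun p : X × X => Real.log (1 + M⁻¹ * ‖φ p.1 - φ p.2‖ ^ 2)) :=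
      Real.measurable_log.comp ((hs.const_mul _).const_add _)
    have hb1 : ∀ p : X × X, |Real.log (1 + M⁻¹ * ‖φ p.1 - φ p.2‖ ^ 2)| ≤
        M⁻¹ * (R + R) ^ 2 := by
      intro p
      have h1 : 0 ≤ M⁻¹ * ‖φ p.1 - φ p.2‖ ^ 2 := by positivity
      rw [abs_of_nonneg (Real.log_nonneg (by linarith))]
      have h2 := Real.log_le_sub_one_of_pos (x := 1 + M⁻¹ * ‖φ p.1 - φ p.2‖ ^ 2) (by positivity)
      have h3 : M⁻¹ * ‖φ p.1 - φ p.2‖ ^ 2 ≤ M⁻¹ * (R + R) ^ 2 := by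
        gcongr
        exact (norm_sub_le _ _).trans (add_le_add (hR _) (hR _))
      linarith
    have e1 : ∀ p : X × X, Real.log (M + ‖φ p.1 - φ p.2‖ ^ 2) * (w p.1 * w p.2) =
        Real.log M * (w p.1 * w p.2) +
          Real.log (1 + M⁻¹ * ‖φ p.1 - φ p.2‖ ^ 2) * (w p.1 * w p.2) := by
      intro p
      have h1 : M + ‖φ p.1 - φ p.2‖ ^ 2 = M * (1 + M⁻¹ * ‖φ p.1 - φ p.2‖ ^ 2) := by
        field_simp
      rw [h1, Real.log_mul hM0.ne' (by positivity)]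
      ring
    have i1 : Integrable (fun p : X × X => Real.log M * (w p.1 * w p.2)) (μ.prod μ) :=
      int_ww hw hB measurable_const (fun _ => le_rfl)
    have i2 := int_ww (μ := μ) hw hB hm1 hb1
    simp_rw [e1]
    rw [integral_add i1 i2, integral_const_mul, hww, mul_zero, zero_add]
    have hbd : ∀ p : X × X, Real.log (1 + M⁻¹ * ‖φ p.1 - φ p.2‖ ^ 2) * (w p.1 * w p.2) ≤
        M⁻¹ * (R + R) ^ 2 * (B * B) := by
      intro p
      have hB0 : 0 ≤ B := (abs_nonneg _).trans (hB p.1)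
      refine (le_abs_self _).trans ?_
      rw [abs_mul, abs_mul]
      have k1 := hb1 p
      have k2 := hB p.1
      have k3 := hB p.2
      gcongr
    calc ∫ p : X × X, Real.log (1 + M⁻¹ * ‖φ p.1 - φ p.2‖ ^ 2) * (w p.1 * w p.2) ∂(μ.prod μ)
        ≤ ∫ _ : X × X, M⁻¹ * (R + R) ^ 2 * (B * B) ∂(μ.prod μ) :=
          integral_mono i2 (integrable_const _) hbd
      _ = M⁻¹ * ((R + R) ^ 2 * (B * B) * (μ.prod μ).real univ) := by
          rw [integral_const, smul_eq_mul]; ring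
  have hlim : Tendsto (fun M : ℝ => M⁻¹ * ((R + R) ^ 2 * (B * B) * (μ.prod μ).real univ)) atTop
      (𝓝 (0 * ((R + R) ^ 2 * (B * B) * (μ.prod μ).real univ))) :=
    tendsto_inv_atTop_zero.mul_const _
  rw [zero_mul] at hlim
  refine ge_of_tendsto hlim ?_
  filter_upwards [eventually_ge_atTop d] with M hM
  exact key M hM

end LogPSD

/-- The kernel `- log |a - b|` is conditionally positive semidefinite. -/
theorem log_psd {X : Type} [MeasurableSpace X] (μ : Measure X) [IsFiniteMeasure μ] {φ : X → ℂ}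
    (hφ : Measurable φ) (hφb : ∃ R : ℝ, ∀ x, ‖φ x‖ ≤ R) {w : X → ℝ} (hw : Measurable w)
    (hwb : ∃ B : ℝ, ∀ x, |w x| ≤ B) (h0 : ∫ x, w x ∂μ = 0)
    (hint : Integrable (fun p : X × X => Real.log ‖φ p.1 - φ p.2‖) (μ.prod μ))
    (hne : ∀ᵐ p : X × X ∂(μ.prod μ), φ p.1 ≠ φ p.2) :
    ∫ p : X × X, Real.log ‖φ p.1 - φ p.2‖ * (w p.1 * w p.2) ∂(μ.prod μ) ≤ 0 := by
  obtain ⟨R, hR⟩ := hφb
  obtain ⟨B, hB⟩ := hwb
  have hs : Measurable (fun p : X × X => ‖φ p.1 - φ p.2‖ ^ 2) :=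
    ((hφ.comp measurable_fst).sub (hφ.comp measurable_snd)).norm.pow_const 2
  have hww : Measurable (fun p : X × X => w p.1 * w p.2) :=
    (hw.comp measurable_fst).mul (hw.comp measurable_snd)
  let F : ℕ → X × X → ℝ := fun n p =>
    Real.log (1 / ((n : ℝ) + 1) + ‖φ p.1 - φ p.2‖ ^ 2) * (w p.1 * w p.2)
  let f : X × X → ℝ := fun p => Real.log (‖φ p.1 - φ p.2‖ ^ 2) * (w p.1 * w p.2)
  have hlim : Tendsto (fun n => ∫ p, F n p ∂(μ.prod μ)) atTop (𝓝 (∫ p, f p ∂(μ.prod μ))) := by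
    refine tendsto_integral_of_dominated_convergence
      (fun p => (2 * |Real.log ‖φ p.1 - φ p.2‖| + Real.log (1 + (R + R) ^ 2)) * (B * B)) ?_ ?_ ?_ ?_
    · intro n
      exact ((Real.measurable_log.comp (hs.const_add _)).mul hww).aestronglyMeasurable
    · exact ((hint.abs.const_mul 2).add (integrable_const _)).mul_const _
    · intro n
      filter_upwards [hne] with p hp
      have hpos : 0 < ‖φ p.1 - φ p.2‖ := norm_pos_iff.2 (sub_ne_zero.2 hp)
      have hB0 : 0 ≤ B := (abs_nonneg _).trans (hB p.1)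
      have hn : 0 < 1 / ((n : ℝ) + 1) := by positivity
      have hn1 : 1 / ((n : ℝ) + 1) ≤ 1 := by
        rw [div_le_one (by positivity)]; linarith [Nat.cast_nonneg (α := ℝ) n]
      have hsb : ‖φ p.1 - φ p.2‖ ^ 2 ≤ (R + R) ^ 2 := by
        have : ‖φ p.1 - φ p.2‖ ≤ R + R := (norm_sub_le _ _).trans (add_le_add (hR _) (hR _))
        gcongr
      have k0 : |Real.log (1 / ((n : ℝ) + 1) + ‖φ p.1 - φ p.2‖ ^ 2)| ≤
          2 * |Real.log ‖φ p.1 - φ p.2‖| + Real.log (1 + (R + R) ^ 2) := by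
        have l1 : Real.log (‖φ p.1 - φ p.2‖ ^ 2) ≤
            Real.log (1 / ((n : ℝ) + 1) + ‖φ p.1 - φ p.2‖ ^ 2) :=
          Real.log_le_log (by positivity) (by linarith)
        have l2 : Real.log (1 / ((n : ℝ) + 1) + ‖φ p.1 - φ p.2‖ ^ 2) ≤
            Real.log (1 + (R + R) ^ 2) := Real.log_le_log (by positivity) (by linarith)
        have l3 : Real.log (‖φ p.1 - φ p.2‖ ^ 2) = 2 * Real.log ‖φ p.1 - φ p.2‖ := by
          rw [Real.log_pow]; norm_num
        have l4 : 0 ≤ Real.log (1 + (R + R) ^ 2) := Real.log_nonneg (by nlinarith [sq_nonneg (R + R)])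
        rw [abs_le]
        constructor
        · linarith [neg_abs_le (Real.log ‖φ p.1 - φ p.2‖)]
        · linarith [abs_nonneg (Real.log ‖φ p.1 - φ p.2‖)]
      show ‖Real.log (1 / ((n : ℝ) + 1) + ‖φ p.1 - φ p.2‖ ^ 2) * (w p.1 * w p.2)‖ ≤ _
      rw [Real.norm_eq_abs, abs_mul, abs_mul]
      have k2 := hB p.1
      have k3 := hB p.2
      have k4 : 0 ≤ 2 * |Real.log ‖φ p.1 - φ p.2‖| + Real.log (1 + (R + R) ^ 2) :=
        (abs_nonneg _).trans k0
      gcongr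
    · filter_upwards [hne] with p hp
      have hpos : 0 < ‖φ p.1 - φ p.2‖ := norm_pos_iff.2 (sub_ne_zero.2 hp)
      have h1 : Tendsto (fun n : ℕ => 1 / ((n : ℝ) + 1) + ‖φ p.1 - φ p.2‖ ^ 2) atTop
          (𝓝 (0 + ‖φ p.1 - φ p.2‖ ^ 2)) :=
        tendsto_one_div_add_atTop_nhds_zero_nat.add_const _
      rw [zero_add] at h1
      exact (((Real.continuousAt_log (by positivity)).tendsto.comp h1)).mul_const _
  have hle : ∫ p, f p ∂(μ.prod μ) ≤ 0 :=
    le_of_tendsto' hlim fun n => LogPSD.log_nonpos hφ hR hw hB h0 (by positivity)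
  have e1 : ∀ p : X × X, f p = 2 * (Real.log ‖φ p.1 - φ p.2‖ * (w p.1 * w p.2)) := by
    intro p
    show Real.log (‖φ p.1 - φ p.2‖ ^ 2) * (w p.1 * w p.2) = _
    rw [Real.log_pow]
    push_cast
    ring
  simp_rw [e1] at hle
  rw [integral_const_mul] at hle
  linarith

end Pool.Agent.Lib.MP_fa244c_mp
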