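import Pool.Agent.Lib.MP_fa244c_mp.FinalB
import Pool.Agent.Lib.MP_fa244c_mp.Cut

set_option autoImplicit false

open MeasureTheory Filter Topology Set Metric

namespace Pool.Agent.Lib.MP_fa244c_mp

theorem main {Λ : Set ℂ} {g : ℂ → ℂ → ℝ} (hD : Dom Λ g) {ε : ℝ} (hε : 0 < ε) :
    (∃ ρp ρm, IsMaxPair Λ g ε ρp ρm ∧ sMax Λ g ε = (entS Λ ρp + entS Λ ρm) / 2) ∧
    (∀ᶠ m : ℕ in atTop, DifferentiableAt ℝ (Phi Λ g m) ((2 * m) ^ 2 * ε) ∧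
      0 < deriv (Phi Λ g m) ((2 * m) ^ 2 * ε) ∧
      ∃! μ : Measure (Fin m ⊕ Fin m → ℂ), IsMicro Λ g m ((2 * m) ^ 2 * ε) μ) ∧
    Tendsto (fun m : ℕ => 1 / (2 * m : ℝ) * Real.log ((volume.real Λ ^ (2 * m))⁻¹ *
      deriv (Phi Λ g m) ((2 * m) ^ 2 * ε))) atTop (𝓝 (sMax Λ g ε)) ∧
    ∀ μ : ∀ m : ℕ, Measure (Fin m ⊕ Fin m → ℂ),
      (∀ᶠ m : ℕ in atTop, IsMicro Λ g m ((2 * m) ^ 2 * ε) (μ m)) →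
      (∀ φ : ℕ → ℕ, StrictMono φ → ∃ ψ : ℕ → ℕ, StrictMono ψ ∧
        ∃ (Ω : Type) (_ : MeasurableSpace Ω) (P : Measure Ω) (Rp Rm : Ω → ℂ → ℝ),
          IsProbabilityMeasure P ∧ (∀ ω, IsMaxPair Λ g ε (Rp ω) (Rm ω)) ∧
          ∀ (n₁ n₂ : ℕ) (f : BoundedContinuousFunction ((Fin n₁ → ℂ) × (Fin n₂ → ℂ)) ℝ),
            Measurable (fun ω => ∫ z, f z ∂(prodM n₁ n₂ (Rp ω) (Rm ω))) ∧
            Tendsto (fun k => ∫ x, f (marg n₁ n₂ x) ∂(μ (φ (ψ k)))) atTop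
              (𝓝 (∫ ω, ∫ z, f z ∂(prodM n₁ n₂ (Rp ω) (Rm ω)) ∂P))) ∧
      (∀ (f : BoundedContinuousFunction ℂ ℝ) (η : ℝ), 0 < η →
        Tendsto (fun m : ℕ => (μ m) {x | ∃ ρp ρm, IsMaxPair Λ g ε ρp ρm ∧
          |(1 / (m : ℝ)) * ∑ i, f (x (Sum.inl i)) - ∫ y, f y * ρp y| < η ∧
          |(1 / (m : ℝ)) * ∑ i, f (x (Sum.inr i)) - ∫ y, f y * ρm y| < η}) atTop (𝓝 1)) ∧
      (∀ ρp ρm, IsMaxPair Λ g ε ρp ρm →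
        (∀ σp σm, IsMaxPair Λ g ε σp σm → (σp =ᵐ[volume] ρp ∧ σm =ᵐ[volume] ρm) ∨
          (σp =ᵐ[volume] ρm ∧ σm =ᵐ[volume] ρp)) →
        ∀ (n₁ n₂ : ℕ) (f : BoundedContinuousFunction ((Fin n₁ → ℂ) × (Fin n₂ → ℂ)) ℝ),
          Tendsto (fun m => ∫ x, f (marg n₁ n₂ x) ∂(μ m)) atTop
            (𝓝 (1 / 2 * (∫ z, f z ∂(prodM n₁ n₂ ρp ρm)) +
              1 / 2 * ∫ z, f z ∂(prodM n₁ n₂ ρm ρp)))) := by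
  have hD' := hD.cut
  have hm := measurable_cut hD
  simp only [← isMaxPair_cut Λ g, ← sMax_cut Λ g, ← Phi_cut Λ g, ← isMicro_cut Λ g]
  refine ⟨?_, exists_micro hD' hm hε, part_a hD' hm hε, fun μ hμ =>
    ⟨fun φ hφ => part_b hD' hm hε μ hμ φ hφ, fun f η hη => part_b_lln hD' hm hε μ hμ f hη,
      fun ρp ρm hρ hu n₁ n₂ f => part_b_unique hD' hm hε μ hμ hρ hu n₁ n₂ f⟩⟩
  obtain ⟨ρp, ρm, h⟩ := exists_max hD' hm hε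
  exact ⟨ρp, ρm, h, h.sMax_eq⟩

end Pool.Agent.Lib.MP_fa244c_mp
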