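import Pool.Agent.Lib.MP_fa244c_mp.Core

set_option autoImplicit false

open MeasureTheory Filter Topology Set

namespace Pool.Agent.Lib.MP_fa244c_mp

theorem maxp_loc {U : Set ℂ} (hU : IsOpen U) {u : ℂ → ℝ}
    (hu : InnerProductSpace.HarmonicOnNhd u U) {z : ℂ} (hz : z ∈ U)
    (hmax : ∀ᶠ x in 𝓝 z, u x ≤ u z) : ∀ᶠ x in 𝓝 z, u x = u z := by
  obtain ⟨R, hR, hball⟩ := Metric.isOpen_iff.mp hU z hz
  obtain ⟨F, hF, hre⟩ :=
    InnerProductSpace.HarmonicOnNhd.exists_analyticOnNhd_ball_re_eq (hu.mono hball)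
  have hzb : z ∈ Metric.ball z R := Metric.mem_ball_self hR
  have hbn : ∀ᶠ x in 𝓝 z, x ∈ Metric.ball z R := Metric.isOpen_ball.mem_nhds hzb
  have hnorm : ∀ x ∈ Metric.ball z R, ‖Complex.exp (F x)‖ = Real.exp (u x) := by
    intro x hx
    rw [Complex.norm_exp]
    congr 1
    exact hre hx
  have h1 : ∀ᶠ x in 𝓝 z, DifferentiableAt ℂ (fun x => Complex.exp (F x)) x := by
    filter_upwards [hbn] with x hx
    exact (hF x hx).differentiableAt.cexp
  have h2 : IsLocalMax (norm ∘ fun x => Complex.exp (F x)) z := by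
    have : ∀ᶠ x in 𝓝 z, (norm ∘ fun x => Complex.exp (F x)) x ≤
        (norm ∘ fun x => Complex.exp (F x)) z := by
      filter_upwards [hbn, hmax] with x hx hm
      simp only [Function.comp]
      rw [hnorm x hx, hnorm z hzb]
      exact Real.exp_le_exp.mpr hm
    exact this
  have h3 := Complex.norm_eventually_eq_of_isLocalMax h1 h2
  filter_upwards [hbn, h3] with x hx hxe
  have : Real.exp (u x) = Real.exp (u z) := by
    rw [← hnorm x hx, ← hnorm z hzb]
    exact hxe
  exact Real.exp_injective this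

/-- Maximum principle for harmonic functions on a bounded open set. -/
theorem maxp {U : Set ℂ} (hU : IsOpen U) (hb : Bornology.IsBounded U) {u : ℂ → ℝ}
    (hu : InnerProductSpace.HarmonicOnNhd u U) {M : ℝ}
    (hM : ∀ ζ ∈ frontier U, ∀ η > 0, ∀ᶠ x in 𝓝[U] ζ, u x ≤ M + η) : ∀ x ∈ U, u x ≤ M := by
  intro x0 hx0
  by_contra hcon
  push Not at hcon
  have hcont : ContinuousOn u U := hu.continuousOn
  set c := u x0 with hc
  set K : Set ℂ := {x | x ∈ U ∧ c ≤ u x} with hK
  have hKc : IsClosed K := by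
    rw [← closure_subset_iff_isClosed]
    intro ζ hζ
    have hζU : ζ ∈ closure U := closure_mono (fun x hx => hx.1) hζ
    have hfr : ∃ᶠ x in 𝓝 ζ, x ∈ K := mem_closure_iff_frequently.mp hζ
    by_cases hζu : ζ ∈ U
    · refine ⟨hζu, ?_⟩
      by_contra hlt
      push Not at hlt
      have hca : ContinuousAt u ζ := hcont.continuousAt (hU.mem_nhds hζu)
      have : ∀ᶠ x in 𝓝 ζ, u x < c := hca.eventually_lt continuousAt_const hlt
      obtain ⟨x, hx1, hx2⟩ := (hfr.and_eventually this).exists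
      exact absurd hx2 (not_lt.mpr hx1.2)
    · exfalso
      have hζf : ζ ∈ frontier U := by
        rw [hU.frontier_eq]
        exact ⟨hζU, hζu⟩
      have h1 := hM ζ hζf ((c - M) / 2) (by linarith)
      rw [eventually_nhdsWithin_iff] at h1
      obtain ⟨x, hx1, hx2⟩ := (hfr.and_eventually h1).exists
      have := hx2 hx1.1
      have := hx1.2
      linarith
  have hKU : K ⊆ U := fun x hx => hx.1
  have hKcpt : IsCompact K := Metric.isCompact_of_isClosed_isBounded hKc (hb.subset hKU)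
  have hKne : K.Nonempty := ⟨x0, hx0, le_refl _⟩
  obtain ⟨z0, hz0K, hz0⟩ := hKcpt.exists_isMaxOn hKne (hcont.mono hKU)
  have hz0' : ∀ x ∈ U, u x ≤ u z0 := by
    intro x hx
    by_cases hxc : c ≤ u x
    · exact hz0 ⟨hx, hxc⟩
    · push Not at hxc
      exact le_trans hxc.le hz0K.2
  set S : Set ℂ := {x | x ∈ K ∧ u z0 ≤ u x} with hS
  have hSeq : S = K ∩ u ⁻¹' (Ici (u z0)) := rfl
  have hSc : IsClosed S := by
    rw [hSeq]
    exact (hcont.mono hKU).preimage_isClosed_of_isClosed hKc isClosed_Ici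
  have hScpt : IsCompact S := hKcpt.of_isClosed_subset hSc (fun x hx => hx.1)
  have hSne : S.Nonempty := ⟨z0, hz0K, le_refl _⟩
  obtain ⟨z, hzS, hz⟩ := hScpt.exists_isMaxOn hSne Complex.continuous_re.continuousOn
  have hzU : z ∈ U := hKU hzS.1
  have huz : u z = u z0 := le_antisymm (hz0' z hzU) hzS.2
  have hloc : ∀ᶠ x in 𝓝 z, u x = u z := by
    apply maxp_loc hU hu hzU
    filter_upwards [hU.mem_nhds hzU] with x hx
    rw [huz]
    exact hz0' x hx
  have hUev : ∀ᶠ x in 𝓝 z, x ∈ U := hU.mem_nhds hzU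
  have hboth : ∀ᶠ x in 𝓝 z, x ∈ U ∧ u x = u z := hUev.and hloc
  obtain ⟨ε, hε, hball⟩ := Metric.eventually_nhds_iff.mp hboth
  have hdist : dist (z + ((ε / 2 : ℝ) : ℂ)) z < ε := by
    rw [dist_eq_norm]
    simp only [add_sub_cancel_left, Complex.norm_real, Real.norm_eq_abs]
    rw [abs_of_pos (by linarith)]
    linarith
  obtain ⟨h1, h2⟩ := hball hdist
  have hmem : z + ((ε / 2 : ℝ) : ℂ) ∈ S := by
    refine ⟨⟨h1, ?_⟩, ?_⟩
    · rw [h2, huz]; exact hz0K.2
    · rw [h2, huz]
  have h3 : (z + ((ε / 2 : ℝ) : ℂ)).re ≤ z.re := hz hmem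
  rw [Complex.add_re, Complex.ofReal_re] at h3
  linarith

theorem exists_diam {Λ : Set ℂ} {g : ℂ → ℂ → ℝ} (hD : Dom Λ g) :
    ∃ D : ℝ, 1 ≤ D ∧ ∀ x ∈ Λ, ∀ y ∈ Λ, ‖x - y‖ ≤ D ∧ g x y ≤ Real.log D := by
  obtain ⟨R, hR⟩ := hD.bdd.subset_closedBall (0 : ℂ)
  have hcl : closure Λ ⊆ Metric.closedBall (0 : ℂ) R :=
    closure_minimal hR Metric.isClosed_closedBall
  have hnd : ∀ x ∈ closure Λ, ∀ y ∈ closure Λ, ‖x - y‖ ≤ max 1 (2 * R) := by
    intro x hx y hy
    have h1 := hcl hx
    have h2 := hcl hy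
    rw [mem_closedBall_zero_iff] at h1 h2
    calc ‖x - y‖ ≤ ‖x‖ + ‖y‖ := norm_sub_le x y
      _ ≤ 2 * R := by linarith
      _ ≤ _ := le_max_right _ _
  refine ⟨max 1 (2 * R), le_max_left _ _, ?_⟩
  intro x hx y hy
  refine ⟨hnd x (subset_closure hx) y (subset_closure hy), ?_⟩
  refine maxp (u := fun x => g x y) hD.isOpen hD.bdd (hD.green.harm y hy) ?_ x hx
  intro ζ hζ η hη
  have ht := hD.green.bdry y hy ζ hζ
  have hle : Real.log ‖ζ - y‖ ≤ Real.log (max 1 (2 * R)) := by
    rcases eq_or_lt_of_le (norm_nonneg (ζ - y)) with h0 | h0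
    · rw [← h0, Real.log_zero]
      exact Real.log_nonneg (le_max_left _ _)
    · exact Real.log_le_log h0 (hnd ζ (frontier_subset_closure hζ) y (subset_closure hy))
  filter_upwards [ht.eventually (gt_mem_nhds (show Real.log ‖ζ - y‖ < Real.log ‖ζ - y‖ + η by
    linarith))] with x hx
  linarith

theorem compl_ne {Λ : Set ℂ} {g : ℂ → ℂ → ℝ} (hD : Dom Λ g) : (Λᶜ).Nonempty := by
  rw [nonempty_compl]
  rintro rfl
  exact NormedSpace.unbounded_univ ℝ ℂ hD.bdd

theorem infDist_pos_of {Λ : Set ℂ} {g : ℂ → ℂ → ℝ} (hD : Dom Λ g) {y : ℂ} (hy : y ∈ Λ) :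
    0 < Metric.infDist y Λᶜ := by
  rw [← hD.isOpen.isClosed_compl.notMem_iff_infDist_pos (compl_ne hD)]
  exact fun h => h hy

theorem log_infDist_le {Λ : Set ℂ} {g : ℂ → ℂ → ℝ} (hD : Dom Λ g) {x y : ℂ} (hx : x ∈ Λ)
    (hy : y ∈ Λ) : Real.log (Metric.infDist y Λᶜ) ≤ g x y := by
  have key : -g x y ≤ -Real.log (Metric.infDist y Λᶜ) := by
    refine maxp (u := fun x => -g x y) hD.isOpen hD.bdd ?_ ?_ x hx
    · exact (hD.green.harm y hy).neg
    · intro ζ hζ η hη
      have ht := hD.green.bdry y hy ζ hζ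
      have hζn : ζ ∈ Λᶜ := by
        rw [hD.isOpen.frontier_eq] at hζ
        exact hζ.2
      have hle : Real.log (Metric.infDist y Λᶜ) ≤ Real.log ‖ζ - y‖ := by
        apply Real.log_le_log (infDist_pos_of hD hy)
        rw [norm_sub_rev, ← dist_eq_norm]
        exact Metric.infDist_le_dist_of_mem hζn
      filter_upwards [ht.eventually (lt_mem_nhds (show Real.log ‖ζ - y‖ - η < Real.log ‖ζ - y‖ by
        linarith))] with x hx
      linarith
  linarith

/-- The Green function is nonnegative. -/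
theorem log_norm_le {Λ : Set ℂ} {g : ℂ → ℂ → ℝ} (hD : Dom Λ g) {x y : ℂ} (hx : x ∈ Λ)
    (hy : y ∈ Λ) (hxy : x ≠ y) : Real.log ‖x - y‖ ≤ g x y := by
  have hdpos := infDist_pos_of hD hy
  have hnpos : 0 < ‖x - y‖ := norm_pos_iff.mpr (sub_ne_zero.mpr hxy)
  set r : ℝ := min (Metric.infDist y Λᶜ) (‖x - y‖ / 2) with hr
  have hrpos : 0 < r := lt_min hdpos (by linarith)
  have hr1 : r ≤ Metric.infDist y Λᶜ := min_le_left _ _
  have hr2 : r < ‖x - y‖ := lt_of_le_of_lt (min_le_right _ _) (by linarith)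
  set U : Set ℂ := Λ ∩ (Metric.closedBall y r)ᶜ with hUdef
  have hUo : IsOpen U := hD.isOpen.inter Metric.isClosed_closedBall.isOpen_compl
  have hUΛ : U ⊆ Λ := inter_subset_left
  have hlogharm : ∀ z : ℂ, z ≠ y → InnerProductSpace.HarmonicAt (fun z => Real.log ‖z - y‖) z := by
    intro z hz
    have h1 : AnalyticAt ℂ (fun z : ℂ => z - y) z := analyticAt_id.sub analyticAt_const
    exact h1.harmonicAt_log_norm (sub_ne_zero.mpr hz)
  have hlogcont : ∀ z : ℂ, z ≠ y → ContinuousAt (fun z : ℂ => Real.log ‖z - y‖) z := by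
    intro z hz
    apply ContinuousAt.log
    · fun_prop
    · exact norm_ne_zero_iff.mpr (sub_ne_zero.mpr hz)
  have hUy : ∀ z ∈ U, z ≠ y := by
    rintro z hz rfl
    exact hz.2 (Metric.mem_closedBall_self hrpos.le)
  have hclU : ∀ ζ ∈ closure U, r ≤ ‖ζ - y‖ := by
    intro ζ hζ
    have hcl : IsClosed {z : ℂ | r ≤ ‖z - y‖} := isClosed_le continuous_const (by fun_prop)
    have hsub : U ⊆ {z : ℂ | r ≤ ‖z - y‖} := by
      intro z hz
      have := hz.2
      rw [mem_compl_iff, Metric.mem_closedBall, dist_eq_norm] at this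
      push Not at this
      exact this.le
    exact closure_minimal hsub hcl hζ
  have key : Real.log ‖x - y‖ - g x y ≤ 0 := by
    refine maxp (U := U) (u := fun x => Real.log ‖x - y‖ - g x y) hUo (hD.bdd.subset hUΛ)
      ?_ ?_ x ?_
    · apply InnerProductSpace.HarmonicOnNhd.sub
      · intro z hz
        exact hlogharm z (hUy z hz)
      · exact (hD.green.harm y hy).mono hUΛ
    · intro ζ hζ η hη
      have hζU : ζ ∉ U := by
        rw [hUo.frontier_eq] at hζ
        exact hζ.2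
      have hζc : ζ ∈ closure U := frontier_subset_closure hζ
      have hge := hclU ζ hζc
      have hζy : ζ ≠ y := by
        rintro rfl
        rw [sub_self, norm_zero] at hge
        linarith
      by_cases hζΛ : ζ ∈ Λ
      · have hζb : ‖ζ - y‖ ≤ r := by
          by_contra hlt
          apply hζU
          refine ⟨hζΛ, ?_⟩
          rw [mem_compl_iff, Metric.mem_closedBall, dist_eq_norm]
          exact hlt
        have heq : ‖ζ - y‖ = r := le_antisymm hζb hge
        have hgc : ContinuousAt (fun x => g x y) ζ :=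
          (hD.green.harm y hy).continuousOn.continuousAt (hD.isOpen.mem_nhds hζΛ)
        have hcont : ContinuousAt (fun x => Real.log ‖x - y‖ - g x y) ζ :=
          (hlogcont ζ hζy).sub hgc
        have hval : Real.log ‖ζ - y‖ - g ζ y ≤ 0 := by
          rw [heq]
          have h1 := log_infDist_le hD hζΛ hy
          have h2 := Real.log_le_log hrpos hr1
          linarith
        have hev : ∀ᶠ x in 𝓝 ζ, Real.log ‖x - y‖ - g x y < 0 + η :=
          hcont.eventually_lt continuousAt_const (by linarith)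
        filter_upwards [hev.filter_mono nhdsWithin_le_nhds] with x hx
        exact hx.le
      · have hζf : ζ ∈ frontier Λ := by
          rw [hD.isOpen.frontier_eq]
          exact ⟨closure_mono hUΛ hζc, hζΛ⟩
        have h1 : Tendsto (fun x => g x y) (𝓝[U] ζ) (𝓝 (Real.log ‖ζ - y‖)) :=
          (hD.green.bdry y hy ζ hζf).mono_left (nhdsWithin_mono _ hUΛ)
        have h2 : Tendsto (fun x : ℂ => Real.log ‖x - y‖) (𝓝[U] ζ) (𝓝 (Real.log ‖ζ - y‖)) :=
          (hlogcont ζ hζy).tendsto.mono_left nhdsWithin_le_nhds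
        have h3 := h2.sub h1
        rw [sub_self] at h3
        filter_upwards [h3.eventually (gt_mem_nhds (show (0 : ℝ) < 0 + η by linarith))] with x hx
        exact hx.le
    · refine ⟨hx, ?_⟩
      rw [mem_compl_iff, Metric.mem_closedBall, dist_eq_norm]
      push Not
      exact hr2
  linarith

end Pool.Agent.Lib.MP_fa244c_mp
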