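import Pool.Agent.Lib.MP_fa244c_mp.Pot

set_option autoImplicit false

open MeasureTheory Filter Topology Set Metric

namespace Pool.Agent.Lib.MP_fa244c_mp

namespace PairAux

/-- The uniform density on a set. -/
noncomputable def ud (S : Set ℂ) : ℂ → ℝ := S.indicator fun _ => (volume.real S)⁻¹

lemma nice_ud {S Λ : Set ℂ} (hS : MeasurableSet S) (hSΛ : S ⊆ Λ) (hpos : 0 < volume.real S) :
    Nice Λ (ud S) := by
  refine ⟨measurable_const.indicator hS, ?_, ?_, ?_, ?_⟩
  · intro x
    exact indicator_nonneg (fun _ _ => inv_nonneg.2 hpos.le) x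
  · intro x hx
    exact indicator_of_notMem (fun h => hx (hSΛ h)) _
  · unfold ud
    rw [integral_indicator hS, setIntegral_const, smul_eq_mul, mul_inv_cancel₀ hpos.ne']
  · refine ⟨(volume.real S)⁻¹, fun x => ?_⟩
    unfold ud
    by_cases hx : x ∈ S
    · rw [indicator_of_mem hx]
    · rw [indicator_of_notMem hx]
      exact inv_nonneg.2 hpos.le

lemma nice_int {K : Set ℂ} {r : ℂ → ℝ} (hr : Nice K r) : Integrable r := by
  by_contra hcon
  have := hr.int
  rw [integral_undef hcon] at this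
  norm_num at this

lemma nice_mix {K : Set ℂ} {r s : ℂ → ℝ} (hr : Nice K r) (hs : Nice K s) {t : ℝ} (ht0 : 0 ≤ t)
    (ht1 : t ≤ 1) : Nice K (fun x => (1 - t) * r x + t * s x) := by
  obtain ⟨B, hB⟩ := hr.bdd
  obtain ⟨B', hB'⟩ := hs.bdd
  refine ⟨(hr.meas.const_mul _).add (hs.meas.const_mul _), ?_, ?_, ?_, ?_⟩
  · intro x
    have h1 := mul_nonneg (sub_nonneg.2 ht1) (hr.nonneg x)
    have h2 := mul_nonneg ht0 (hs.nonneg x)
    linarith
  · intro x hx
    rw [hr.supp x hx, hs.supp x hx]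
    simp
  · rw [integral_add ((nice_int hr).const_mul _) ((nice_int hs).const_mul _),
      integral_const_mul, integral_const_mul, hr.int, hs.int]
    ring
  · refine ⟨(1 - t) * B + t * B', fun x => ?_⟩
    have h1 := mul_le_mul_of_nonneg_left (hB x) (sub_nonneg.2 ht1)
    have h2 := mul_le_mul_of_nonneg_left (hB' x) ht0
    linarith

end PairAux

open PairAux PotAux

theorem exists_adm {Λ : Set ℂ} {g : ℂ → ℂ → ℝ} (hD : Dom Λ g)
    (hm : Measurable (Function.uncurry g)) {ε : ℝ} (hε : 0 < ε) :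
    ∃ ρp ρm, IsAdm Λ g ε ρp ρm := by
  have hV := vol_pos hD
  have hΛm : MeasurableSet Λ := hD.isOpen.measurableSet
  set u := ud Λ with hu
  have hun : Nice Λ u := nice_ud hΛm subset_rfl hV
  have hud : IsDens Λ u := Nice.isDens hD subset_rfl hun
  obtain ⟨C, hC, hpot⟩ := pot_bdd hD hm hud
  obtain ⟨z0, hz0⟩ := hD.ne
  have hcl : IsClosed Λᶜ := hD.isOpen.isClosed_compl
  have hcne : (Λᶜ).Nonempty := by
    rw [Set.nonempty_compl]
    intro h
    have hb := hD.bdd
    rw [h] at hb
    exact NormedSpace.unbounded_univ ℝ ℂ hb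
  set d0 := infDist z0 Λᶜ with hd0
  have hd0pos : 0 < d0 := by
    rw [hd0, ← hcl.notMem_iff_infDist_pos hcne]
    simpa using hz0
  -- choose the radius
  set L := 8 * ε + 2 * C with hL
  set r := min (d0 / 4) (d0 / 4 * Real.exp (-L)) with hr
  have hrpos : 0 < r := lt_min (by positivity) (by positivity)
  have hr1 : r ≤ d0 / 4 := min_le_left _ _
  have hr2 : r ≤ d0 / 4 * Real.exp (-L) := min_le_right _ _
  set b := ball z0 r with hb
  have hball : ∀ y ∈ b, d0 / 2 ≤ infDist y Λᶜ := by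
    intro y hy
    have h1 := infDist_le_infDist_add_dist (s := Λᶜ) (x := z0) (y := y)
    have h2 : dist z0 y < r := by
      rw [dist_comm]; exact hy
    have h3 : d0 ≤ infDist y Λᶜ + dist z0 y := h1
    linarith
  have hbΛ : b ⊆ Λ := by
    intro y hy
    by_contra hcon
    have h1 : infDist y Λᶜ = 0 := infDist_zero_of_mem hcon
    have h2 := hball y hy
    linarith
  have hbpos : 0 < volume.real b := by
    apply ENNReal.toReal_pos
    · exact (measure_ball_pos volume z0 hrpos).ne'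
    · exact measure_ball_lt_top.ne
  set ν := ud b with hν
  have hνn : Nice Λ ν := nice_ud measurableSet_ball hbΛ hbpos
  have hνnb : Nice b ν := nice_ud measurableSet_ball subset_rfl hbpos
  have hνd : IsDens Λ ν := Nice.isDens hD subset_rfl hνn
  have hνi := nice_int hνn
  have hui := nice_int hun
  -- the four product integrals
  have hI := fun {ρ σ : ℂ → ℝ} (hρ : IsDens Λ ρ) (hσ : IsDens Λ σ) => pot_integrable hD hm hρ hσ
  have hen : enE g ν u = 1 / 2 * ((∫ p : ℂ × ℂ, Gst g p.1 p.2 * (ν p.1 * ν p.2)) -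
      (∫ p : ℂ × ℂ, Gst g p.1 p.2 * (ν p.1 * u p.2)) -
      (∫ p : ℂ × ℂ, Gst g p.1 p.2 * (u p.1 * ν p.2)) +
      (∫ p : ℂ × ℂ, Gst g p.1 p.2 * (u p.1 * u p.2))) := by
    unfold enE
    congr 1
    have hA : Integrable (fun p : ℂ × ℂ => Gst g p.1 p.2 * (ν p.1 * ν p.2) -
        Gst g p.1 p.2 * (ν p.1 * u p.2)) := (hI hνd hνd).sub (hI hνd hud)
    have hB : Integrable (fun p : ℂ × ℂ => Gst g p.1 p.2 * (ν p.1 * ν p.2) -
        Gst g p.1 p.2 * (ν p.1 * u p.2) - Gst g p.1 p.2 * (u p.1 * ν p.2)) :=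
      hA.sub (hI hud hνd)
    have hCi : Integrable (fun p : ℂ × ℂ => Gst g p.1 p.2 * (ν p.1 * ν p.2) -
        Gst g p.1 p.2 * (ν p.1 * u p.2) - Gst g p.1 p.2 * (u p.1 * ν p.2) +
        Gst g p.1 p.2 * (u p.1 * u p.2)) := hB.add (hI hud hud)
    rw [← integral_sub (hI hνd hνd) (hI hνd hud), ← integral_sub hA (hI hud hνd),
      ← integral_add hB (hI hud hud), Measure.volume_eq_prod]
    rw [Measure.volume_eq_prod] at hCi
    rw [integral_prod _ hCi]
    congr 1
    ext x
    congr 1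
    ext y
    ring
  -- lower bound for the self energy of `ν`
  have hνν : L ≤ ∫ p : ℂ × ℂ, Gst g p.1 p.2 * (ν p.1 * ν p.2) := by
    have hprod : Integrable (fun p : ℂ × ℂ => ν p.1 * ν p.2) := hνi.mul_prod hνi
    have hint1 : ∫ p : ℂ × ℂ, ν p.1 * ν p.2 = 1 := by
      rw [Measure.volume_eq_prod, integral_prod_mul, hνn.int, one_mul]
    have hdiag : ∀ᵐ p : ℂ × ℂ, p.1 ≠ p.2 := by
      rw [Measure.volume_eq_prod, Measure.ae_prod_iff_ae_ae]
      · exact Eventually.of_forall fun x => by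
          filter_upwards [ne_ae x] with y hy
          exact fun h => hy h.symm
      · exact (measurableSet_eq_fun measurable_fst measurable_snd).compl
    have hle : ∀ᵐ p : ℂ × ℂ, L * (ν p.1 * ν p.2) ≤ Gst g p.1 p.2 * (ν p.1 * ν p.2) := by
      filter_upwards [hdiag] with p hp
      by_cases h1 : p.1 ∈ b
      · by_cases h2 : p.2 ∈ b
        · apply mul_le_mul_of_nonneg_right _ (mul_nonneg (hνn.nonneg _) (hνn.nonneg _))
          rw [Gst_eq]
          have h3 := log_infDist_le hD (hbΛ h1) (hbΛ h2)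
          have h4 : Real.log (d0 / 2) ≤ Real.log (infDist p.2 Λᶜ) :=
            Real.log_le_log (by positivity) (hball _ h2)
          have hn : 0 < ‖p.1 - p.2‖ := norm_pos_iff.2 (sub_ne_zero.2 hp)
          have h5 : ‖p.1 - p.2‖ ≤ 2 * r := by
            rw [← dist_eq_norm]
            have e1 : dist p.1 z0 < r := h1
            have e2 : dist p.2 z0 < r := h2
            have := dist_triangle_right p.1 p.2 z0
            linarith
          have h6 : Real.log ‖p.1 - p.2‖ ≤ Real.log (d0 / 2 * Real.exp (-L)) := by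
            apply Real.log_le_log hn
            linarith
          rw [Real.log_mul (by positivity) (Real.exp_pos _).ne', Real.log_exp] at h6
          linarith
        · rw [hνnb.supp _ h2]; simp
      · rw [hνnb.supp _ h1]; simp
    have h2 : ∫ p : ℂ × ℂ, L * (ν p.1 * ν p.2) ≤
        ∫ p : ℂ × ℂ, Gst g p.1 p.2 * (ν p.1 * ν p.2) :=
      integral_mono_ae (hprod.const_mul L) (hI hνd hνd) hle
    rw [integral_const_mul, hint1, mul_one] at h2
    exact h2
  have habs : ∀ (ρ : ℂ → ℝ) (hρ : Nice Λ ρ),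
      ∫ p : ℂ × ℂ, Gst g p.1 p.2 * (ρ p.1 * u p.2) ≤ C := by
    intro ρ hρ
    have hρd : IsDens Λ ρ := Nice.isDens hD subset_rfl hρ
    have hi := hI hρd hud
    rw [Measure.volume_eq_prod] at hi ⊢
    rw [integral_prod _ hi]
    have h1 : ∀ x, ∫ y, Gst g x y * (ρ x * u y) ≤ C * ρ x := by
      intro x
      have h2 : ∀ y, Gst g x y * (ρ x * u y) = ρ x * (Gst g x y * u y) := fun y => by ring
      simp only [h2]
      rw [integral_const_mul]
      by_cases hx : x ∈ Λ
      · rw [mul_comm C]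
        apply mul_le_mul_of_nonneg_left _ (hρ.nonneg x)
        refine le_trans ?_ (hpot x hx).2
        apply integral_mono (hpot x hx).1
        · refine (hpot x hx).1.abs.congr (Eventually.of_forall fun y => ?_)
          simp only
          rw [abs_mul, abs_of_nonneg (hun.nonneg y)]
        · intro y
          exact mul_le_mul_of_nonneg_right (le_abs_self _) (hun.nonneg y)
      · rw [hρ.supp x hx]
        simp
    have h3 : ∫ x, ∫ y, Gst g x y * (ρ x * u y) ≤ ∫ x, C * ρ x :=
      integral_mono hi.integral_prod_left ((nice_int hρ).const_mul C) h1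
    rw [integral_const_mul, hρ.int, mul_one] at h3
    exact h3
  have hswap : ∫ p : ℂ × ℂ, Gst g p.1 p.2 * (u p.1 * ν p.2) =
      ∫ p : ℂ × ℂ, Gst g p.1 p.2 * (ν p.1 * u p.2) := by
    have h1 : ∫ p : ℂ × ℂ, Gst g p.1 p.2 * (u p.1 * ν p.2) =
        ∫ p : ℂ × ℂ, Gst g p.2 p.1 * (u p.2 * ν p.1) := by
      rw [Measure.volume_eq_prod]
      exact (integral_prod_swap (fun p : ℂ × ℂ => Gst g p.1 p.2 * (u p.1 * ν p.2))).symm
    rw [h1]
    congr 1
    ext p
    by_cases h1 : p.1 ∈ Λ
    · by_cases h2 : p.2 ∈ Λ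
      · rw [Gst_eq, Gst_eq, g_symm hD h2 h1, norm_sub_rev]
        ring
      · rw [hun.supp _ h2]; simp
    · rw [hνn.supp _ h1]; simp
  have huu : 0 ≤ ∫ p : ℂ × ℂ, Gst g p.1 p.2 * (u p.1 * u p.2) := by
    apply integral_nonneg_of_ae
    have hdiag : ∀ᵐ p : ℂ × ℂ, p.1 ≠ p.2 := by
      rw [Measure.volume_eq_prod, Measure.ae_prod_iff_ae_ae]
      · exact Eventually.of_forall fun x => by
          filter_upwards [ne_ae x] with y hy
          exact fun h => hy h.symm
      · exact (measurableSet_eq_fun measurable_fst measurable_snd).compl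
    filter_upwards [hdiag] with p hp
    simp only [Pi.zero_apply]
    by_cases h1 : p.1 ∈ Λ
    · by_cases h2 : p.2 ∈ Λ
      · exact mul_nonneg (Gst_nonneg hD h1 h2 hp) (mul_nonneg (hun.nonneg _) (hun.nonneg _))
      · rw [hun.supp _ h2]; simp
    · rw [hun.supp _ h1]; simp
  have hE : 4 * ε ≤ enE g ν u := by
    rw [hen, hswap]
    have h1 := habs ν hνn
    linarith
  have hEpos : 0 < enE g ν u := by linarith
  set t := Real.sqrt (4 * ε / enE g ν u) with ht
  have ht0 : 0 ≤ t := Real.sqrt_nonneg _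
  have ht1 : t ≤ 1 := by
    rw [ht]
    exact Real.sqrt_le_one.2 ((div_le_one hEpos).2 hE)
  have ht2 : t ^ 2 = 4 * ε / enE g ν u := Real.sq_sqrt (by positivity)
  refine ⟨fun x => (1 - t) * u x + t * ν x, u,
    Nice.isDens hD subset_rfl (nice_mix hun hνn ht0 ht1), hud, ?_⟩
  have hfin : enE g (fun x => (1 - t) * u x + t * ν x) u = t ^ 2 * enE g ν u := by
    unfold enE
    have h1 : ∀ x y, Gst g x y * ((1 - t) * u x + t * ν x - u x) *
        ((1 - t) * u y + t * ν y - u y) = t ^ 2 * (Gst g x y * (ν x - u x) * (ν y - u y)) :=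
      fun x y => by ring
    simp only [h1]
    have h2 : ∀ x, ∫ y, t ^ 2 * (Gst g x y * (ν x - u x) * (ν y - u y)) =
        t ^ 2 * ∫ y, Gst g x y * (ν x - u x) * (ν y - u y) := fun x => integral_const_mul _ _
    simp only [h2]
    rw [integral_const_mul]
    ring
  rw [hfin, ht2, div_mul_cancel₀ _ hEpos.ne']

end Pool.Agent.Lib.MP_fa244c_mp
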