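import Pool.Agent.Lib.MP_fa244c_mp.DiffAll
import Pool.Agent.Lib.MP_fa244c_mp.LB
import Pool.Agent.Lib.MP_fa244c_mp.PairExists

set_option autoImplicit false

open MeasureTheory Filter Topology Set Metric

namespace Pool.Agent.Lib.MP_fa244c_mp

/-- The window `[E, E+h)`. -/
def win (g : ℂ → ℂ → ℝ) (m : ℕ) (E h : ℝ) : Set (Fin m ⊕ Fin m → ℂ) :=
  {x | E ≤ energy g (chg m) x ∧ energy g (chg m) x < E + h}

namespace MicroAux

theorem meas_lt {g : ℂ → ℂ → ℝ} (hm : Measurable (Function.uncurry g)) (m : ℕ) (E : ℝ) :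
    MeasurableSet {x : Fin m ⊕ Fin m → ℂ | energy g (chg m) x < E} :=
  measurableSet_lt (measurable_energy hm _) measurable_const

theorem meas_win {g : ℂ → ℂ → ℝ} (hm : Measurable (Function.uncurry g)) (m : ℕ) (E h : ℝ) :
    MeasurableSet (win g m E h) :=
  (measurableSet_le measurable_const (measurable_energy hm _)).inter (meas_lt hm m _)

theorem below_eq {Λ : Set ℂ} {g : ℂ → ℂ → ℝ} (m : ℕ) (E : ℝ) :
    below Λ g m E = {x | energy g (chg m) x < E} ∩ Set.pi univ (fun _ => Λ) := by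
  ext x
  simp only [below, mem_ofPred_eq, mem_inter_iff, Set.mem_pi, mem_univ, forall_const]
  tauto

end MicroAux

open MicroAux

/-- Integrals over the lower energy sets in terms of the normalized measure. -/
theorem integral_below {Λ : Set ℂ} {g : ℂ → ℂ → ℝ} (hD : Dom Λ g)
    (hm : Measurable (Function.uncurry g)) (m : ℕ) (E : ℝ)
    (f : BoundedContinuousFunction (Fin m ⊕ Fin m → ℂ) ℝ) :
    ∫ x in below Λ g m E, f x = (volume.real Λ) ^ (2 * m) *
      ∫ x in {x | energy g (chg m) x < E}, f x ∂(PP Λ (Fin m ⊕ Fin m)) := by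
  have hV := vol_pos hD
  rw [PP_eq hD, Measure.restrict_smul, Measure.restrict_restrict (meas_lt hm m E),
    integral_smul_measure, below_eq]
  have hc : Fintype.card (Fin m ⊕ Fin m) = 2 * m := by simp [two_mul]
  rw [hc, ENNReal.toReal_pow, ENNReal.toReal_inv, smul_eq_mul, ← mul_assoc, ← mul_pow]
  have : volume.real Λ * (volume Λ).toReal⁻¹ = 1 := mul_inv_cancel₀ hV.ne'
  rw [this, one_pow, one_mul]

namespace MicroAux

theorem integral_cone {X : Type*} [MeasurableSpace X] [TopologicalSpace X] (μ : Measure X)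
    (A : Set X) :
    ∫ x in A, (BoundedContinuousFunction.const X (1 : ℝ)) x ∂μ = μ.real A := by
  simp

theorem Phi_int {Λ : Set ℂ} {g : ℂ → ℂ → ℝ} (m : ℕ) (E : ℝ) :
    Phi Λ g m E = ∫ x in below Λ g m E,
      (BoundedContinuousFunction.const (Fin m ⊕ Fin m → ℂ) (1 : ℝ)) x :=
  (integral_cone _ _).symm

end MicroAux

theorem Phi_eq {Λ : Set ℂ} {g : ℂ → ℂ → ℝ} (hD : Dom Λ g)
    (hm : Measurable (Function.uncurry g)) (m : ℕ) (E : ℝ) :
    Phi Λ g m E = (volume.real Λ) ^ (2 * m) *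
      (PP Λ (Fin m ⊕ Fin m)).real {x | energy g (chg m) x < E} := by
  rw [Phi_int, integral_below hD hm, integral_cone]

namespace MicroAux

/-- Integral over a window as a difference. -/
theorem int_win {Λ : Set ℂ} {g : ℂ → ℂ → ℝ} (hD : Dom Λ g)
    (hm : Measurable (Function.uncurry g)) (m : ℕ) (E : ℝ) {h : ℝ} (hh : 0 < h)
    (f : BoundedContinuousFunction (Fin m ⊕ Fin m → ℂ) ℝ) :
    (∫ x in {x | energy g (chg m) x < E + h}, f x ∂(PP Λ (Fin m ⊕ Fin m))) -
      ∫ x in {x | energy g (chg m) x < E}, f x ∂(PP Λ (Fin m ⊕ Fin m)) =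
      ∫ x in win g m E h, f x ∂(PP Λ (Fin m ⊕ Fin m)) := by
  have := isProb_PP hD (Fin m ⊕ Fin m)
  have hf : Integrable f (PP Λ (Fin m ⊕ Fin m)) := f.integrable _
  have hU : {x : Fin m ⊕ Fin m → ℂ | energy g (chg m) x < E + h} =
      {x | energy g (chg m) x < E} ∪ win g m E h := by
    ext x
    simp only [win, mem_ofPred_eq, mem_union]
    constructor
    · intro hx
      by_cases h1 : energy g (chg m) x < E
      · exact Or.inl h1
      · exact Or.inr ⟨not_lt.1 h1, hx⟩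
    · rintro (h1 | h1)
      · linarith
      · exact h1.2
  have hd : Disjoint {x : Fin m ⊕ Fin m → ℂ | energy g (chg m) x < E} (win g m E h) := by
    rw [Set.disjoint_left]
    intro x hx hx'
    exact absurd hx'.1 (not_le.2 hx)
  rw [hU, setIntegral_union hd (meas_win hm m E h) hf.integrableOn hf.integrableOn]
  ring

theorem int_win_below {Λ : Set ℂ} {g : ℂ → ℂ → ℝ} (hD : Dom Λ g)
    (hm : Measurable (Function.uncurry g)) (m : ℕ) (E : ℝ) {h : ℝ} (hh : 0 < h)
    (f : BoundedContinuousFunction (Fin m ⊕ Fin m → ℂ) ℝ) :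
    (∫ x in below Λ g m (E + h), f x) - ∫ x in below Λ g m E, f x =
      (volume.real Λ) ^ (2 * m) * ∫ x in win g m E h, f x ∂(PP Λ (Fin m ⊕ Fin m)) := by
  rw [integral_below hD hm, integral_below hD hm, ← int_win hD hm m E hh f]
  ring

theorem PP_compl {Λ : Set ℂ} {g : ℂ → ℂ → ℝ} (hD : Dom Λ g) (m : ℕ) :
    (PP Λ (Fin m ⊕ Fin m)) (Set.pi univ (fun _ : Fin m ⊕ Fin m => closure Λ))ᶜ = 0 := by
  have hC : IsClosed (Set.pi univ (fun _ : Fin m ⊕ Fin m => closure Λ)) :=
    isClosed_set_pi fun _ _ => isClosed_closure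
  rw [PP_eq hD, Measure.smul_apply, Measure.restrict_apply hC.isOpen_compl.measurableSet]
  have h1 : (Set.pi univ (fun _ : Fin m ⊕ Fin m => closure Λ))ᶜ ∩
      (Set.pi univ fun _ : Fin m ⊕ Fin m => Λ) = ∅ := by
    rw [Set.eq_empty_iff_forall_notMem]
    rintro x ⟨h1, h2⟩
    exact h1 fun i hi => subset_closure (h2 i hi)
  rw [h1, measure_empty, smul_zero]

/-- A function increasing to the right of a point has a nonnegative derivative there. -/
theorem deriv_nonneg_right {D : ℝ → ℝ} {D' E c : ℝ} (hD : HasDerivAt D D' E)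
    (h : ∀ h : ℝ, 0 < h → h ≤ 1 → c * h ≤ D (E + h) - D E) : c ≤ D' := by
  have h1 := hD.tendsto_slope_zero_right
  refine ge_of_tendsto h1 ?_
  have h2 : Ioc (0 : ℝ) 1 ∈ 𝓝[>] (0 : ℝ) := Ioc_mem_nhdsGT one_pos
  filter_upwards [h2] with t ht
  have := h t ht.1 ht.2
  rw [smul_eq_mul, inv_mul_eq_div, le_div_iff₀ ht.1]
  exact this

theorem hasDeriv_Phi {Λ : Set ℂ} {g : ℂ → ℂ → ℝ} {m : ℕ} {E : ℝ}
    {μ : Measure (Fin m ⊕ Fin m → ℂ)} (hμ : IsMicro Λ g m E μ) :
    HasDerivAt (Phi Λ g m) (deriv (Phi Λ g m) E) E := by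
  have h1 := hμ.2 (BoundedContinuousFunction.const _ 1)
  have := hμ.1
  have h2 : ∫ x, (BoundedContinuousFunction.const (Fin m ⊕ Fin m → ℂ) (1 : ℝ)) x ∂μ = 1 := by
    simp
  rw [h2, mul_one] at h1
  have h3 : Phi Λ g m = fun E' => ∫ x in below Λ g m E',
      (BoundedContinuousFunction.const (Fin m ⊕ Fin m → ℂ) (1 : ℝ)) x := by
    funext E'
    exact Phi_int m E'
  rw [h3]
  rw [h3] at h1
  exact h1

theorem micro_unique {Λ : Set ℂ} {g : ℂ → ℂ → ℝ} {m : ℕ} {E : ℝ}
    {μ μ' : Measure (Fin m ⊕ Fin m → ℂ)} (hμ : IsMicro Λ g m E μ) (hμ' : IsMicro Λ g m E μ')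
    (hpos : 0 < deriv (Phi Λ g m) E) : μ = μ' := by
  have := hμ.1
  have := hμ'.1
  refine ext_of_forall_integral_eq_of_IsFiniteMeasure fun f => ?_
  have h1 := (hμ.2 f).unique (hμ'.2 f)
  exact mul_left_cancel₀ hpos.ne' h1

theorem micro_int_le {Λ : Set ℂ} {g : ℂ → ℂ → ℝ} (hD : Dom Λ g)
    (hm : Measurable (Function.uncurry g)) {m : ℕ} {E : ℝ} {μ : Measure (Fin m ⊕ Fin m → ℂ)}
    (hμ : IsMicro Λ g m E μ) (hpos : 0 < deriv (Phi Λ g m) E)
    (f : BoundedContinuousFunction (Fin m ⊕ Fin m → ℂ) ℝ) {a : ℝ}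
    (h : ∀ h : ℝ, 0 < h → h ≤ 1 → ∫ x in win g m E h, f x ∂(PP Λ (Fin m ⊕ Fin m)) ≤
      a * (PP Λ (Fin m ⊕ Fin m)).real (win g m E h)) : ∫ x, f x ∂μ ≤ a := by
  have h1 := ((hasDeriv_Phi hμ).const_mul a).sub (hμ.2 f)
  have hV := vol_pos hD
  have h2 : (0 : ℝ) ≤ a * deriv (Phi Λ g m) E - deriv (Phi Λ g m) E * ∫ x, f x ∂μ := by
    refine deriv_nonneg_right h1 fun t ht ht1 => ?_
    have h3 := int_win_below hD hm m E ht f
    have h4 := int_win_below hD hm m E ht (BoundedContinuousFunction.const _ 1)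
    rw [← Phi_int, ← Phi_int, integral_cone] at h4
    have h5 := h t ht ht1
    have h6 : 0 ≤ (volume.real Λ) ^ (2 * m) := (pow_pos hV _).le
    have h7 := mul_le_mul_of_nonneg_left h5 h6
    simp only [Pi.sub_apply]
    have h8 : volume.real Λ ^ (2 * m) * (a * (PP Λ (Fin m ⊕ Fin m)).real (win g m E t)) =
        a * (Phi Λ g m (E + t) - Phi Λ g m E) := by
      rw [h4]
      ring
    rw [h8, ← h3] at h7
    linarith
  have h3 : 0 ≤ deriv (Phi Λ g m) E * (a - ∫ x, f x ∂μ) := by linarith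
  have h4 := nonneg_of_mul_nonneg_right h3 hpos
  linarith

theorem exists_of_windows {Λ : Set ℂ} {g : ℂ → ℂ → ℝ} (hD : Dom Λ g)
    (hm : Measurable (Function.uncurry g)) {m : ℕ} {E c : ℝ}
    (hdiff : ∀ f : BoundedContinuousFunction (Fin m ⊕ Fin m → ℂ) ℝ,
      DifferentiableAt ℝ (fun E' : ℝ => ∫ x in {x | energy g (chg m) x < E'}, f x
        ∂(PP Λ (Fin m ⊕ Fin m))) E) (hc : 0 < c)
    (hlow : ∀ h : ℝ, 0 < h → h ≤ 1 → h * c ≤ (PP Λ (Fin m ⊕ Fin m)).real (win g m E h)) :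
    DifferentiableAt ℝ (Phi Λ g m) E ∧ 0 < deriv (Phi Λ g m) E ∧
      ∃! μ : Measure (Fin m ⊕ Fin m → ℂ), IsMicro Λ g m E μ := by
  have hV := vol_pos hD
  have hVm : 0 < volume.real Λ ^ (2 * m) := pow_pos hV _
  have := isProb_PP hD (Fin m ⊕ Fin m)
  -- derivatives
  have hderB : ∀ f : BoundedContinuousFunction (Fin m ⊕ Fin m → ℂ) ℝ,
      HasDerivAt (fun E' : ℝ => ∫ x in below Λ g m E', f x) (volume.real Λ ^ (2 * m) *
        deriv (fun E' : ℝ => ∫ x in {x | energy g (chg m) x < E'}, f x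
        ∂(PP Λ (Fin m ⊕ Fin m))) E) E := by
    intro f
    have h1 := (hdiff f).hasDerivAt.const_mul (volume.real Λ ^ (2 * m))
    have h2 : (fun E' : ℝ => ∫ x in below Λ g m E', f x) = fun E' : ℝ =>
        volume.real Λ ^ (2 * m) * ∫ x in {x | energy g (chg m) x < E'}, f x
        ∂(PP Λ (Fin m ⊕ Fin m)) := by
      funext E'
      exact integral_below hD hm m E' f
    rw [h2]
    exact h1
  set D : BoundedContinuousFunction (Fin m ⊕ Fin m → ℂ) ℝ → ℝ := fun f =>
    deriv (fun E' : ℝ => ∫ x in {x | energy g (chg m) x < E'}, f x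
        ∂(PP Λ (Fin m ⊕ Fin m))) E with hDdef
  set one : BoundedContinuousFunction (Fin m ⊕ Fin m → ℂ) ℝ :=
    BoundedContinuousFunction.const _ 1 with hone
  have hPhi : HasDerivAt (Phi Λ g m) (volume.real Λ ^ (2 * m) * D one) E := by
    have h1 := hderB one
    have h2 : (fun E' : ℝ => ∫ x in below Λ g m E', one x) = Phi Λ g m := by
      funext E'
      exact (Phi_int m E').symm
    rw [h2] at h1
    exact h1
  have hD1 : c ≤ D one := by
    refine deriv_nonneg_right (hdiff one).hasDerivAt fun t ht ht1 => ?_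
    have h1 := int_win hD hm m E ht one
    have h2 : ∫ x in win g m E t, one x ∂(PP Λ (Fin m ⊕ Fin m)) =
        (PP Λ (Fin m ⊕ Fin m)).real (win g m E t) := integral_cone _ _
    have h3 := hlow t ht ht1
    rw [h1, h2]
    linarith
  have hD1pos : 0 < D one := lt_of_lt_of_le hc hD1
  have hPd : deriv (Phi Λ g m) E = volume.real Λ ^ (2 * m) * D one := hPhi.deriv
  have hPpos : 0 < deriv (Phi Λ g m) E := by
    rw [hPd]
    exact mul_pos hVm hD1pos
  refine ⟨hPhi.differentiableAt, hPpos, ?_⟩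
  -- the windows
  let hh : ℕ → ℝ := fun n => 1 / ((n : ℝ) + 1)
  have hhpos : ∀ n, 0 < hh n := fun n => Nat.one_div_pos_of_nat
  have hhle : ∀ n, hh n ≤ 1 := by
    intro n
    have : (1 : ℝ) ≤ (n : ℝ) + 1 := by
      have := Nat.cast_nonneg (α := ℝ) n
      linarith
    exact (div_le_one (by linarith)).2 this
  have hht : Tendsto hh atTop (𝓝[>] 0) := by
    rw [tendsto_nhdsWithin_iff]
    exact ⟨tendsto_one_div_add_atTop_nhds_zero_nat, Eventually.of_forall hhpos⟩
  have hwpos : ∀ n, 0 < (PP Λ (Fin m ⊕ Fin m)).real (win g m E (hh n)) := fun n =>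
    lt_of_lt_of_le (mul_pos (hhpos n) hc) (hlow _ (hhpos n) (hhle n))
  have hwne : ∀ n, PP Λ (Fin m ⊕ Fin m) (win g m E (hh n)) ≠ 0 := by
    intro n h0
    have := hwpos n
    rw [Measure.real, h0] at this
    simp at this
  let P : ℕ → ProbabilityMeasure (Fin m ⊕ Fin m → ℂ) := fun n =>
    ⟨ProbabilityTheory.cond (PP Λ (Fin m ⊕ Fin m)) (win g m E (hh n)),
      ProbabilityTheory.cond_isProbabilityMeasure (hwne n)⟩
  have hPint : ∀ n (f : BoundedContinuousFunction (Fin m ⊕ Fin m → ℂ) ℝ),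
      ∫ x, f x ∂(P n : Measure (Fin m ⊕ Fin m → ℂ)) =
      ((hh n)⁻¹ * ∫ x in win g m E (hh n), f x ∂(PP Λ (Fin m ⊕ Fin m))) /
      ((hh n)⁻¹ * (PP Λ (Fin m ⊕ Fin m)).real (win g m E (hh n))) := by
    intro n f
    have h1 : ∫ x, f x ∂(P n : Measure (Fin m ⊕ Fin m → ℂ)) =
        ((PP Λ (Fin m ⊕ Fin m)).real (win g m E (hh n)))⁻¹ *
          ∫ x in win g m E (hh n), f x ∂(PP Λ (Fin m ⊕ Fin m)) := by
      change ∫ x, f x ∂(ProbabilityTheory.cond (PP Λ (Fin m ⊕ Fin m)) (win g m E (hh n))) = _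
      rw [ProbabilityTheory.cond, integral_smul_measure, ENNReal.toReal_inv, smul_eq_mul]
      rfl
    rw [h1]
    have h2 := (hhpos n).ne'
    have h3 := (hwpos n).ne'
    field_simp
  have hlim : ∀ f : BoundedContinuousFunction (Fin m ⊕ Fin m → ℂ) ℝ,
      Tendsto (fun n => (hh n)⁻¹ * ∫ x in win g m E (hh n), f x ∂(PP Λ (Fin m ⊕ Fin m))) atTop
        (𝓝 (D f)) := by
    intro f
    have h1 := ((hdiff f).hasDerivAt.tendsto_slope_zero_right).comp hht
    refine h1.congr fun n => ?_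
    simp only [Function.comp, smul_eq_mul]
    rw [int_win hD hm m E (hhpos n) f]
  have hPlim : ∀ f : BoundedContinuousFunction (Fin m ⊕ Fin m → ℂ) ℝ,
      Tendsto (fun n => ∫ x, f x ∂(P n : Measure (Fin m ⊕ Fin m → ℂ))) atTop
        (𝓝 (D f / D one)) := by
    intro f
    have h1 := (hlim f).div (hlim one) hD1pos.ne'
    refine h1.congr fun n => ?_
    rw [hPint n f]
    have h2 : ∫ x in win g m E (hh n), one x ∂(PP Λ (Fin m ⊕ Fin m)) =
        (PP Λ (Fin m ⊕ Fin m)).real (win g m E (hh n)) := integral_cone _ _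
    simp only [Pi.div_apply]
    rw [h2]
  -- compactness
  have hKc : IsCompact (Set.pi univ (fun _ : Fin m ⊕ Fin m => closure Λ)) :=
    isCompact_univ_pi fun _ => hD.bdd.isCompact_closure
  have hcomp : IsCompact {μ : ProbabilityMeasure (Fin m ⊕ Fin m → ℂ) |
      ∀ n : ℕ, μ (Set.pi univ (fun _ : Fin m ⊕ Fin m => closure Λ))ᶜ ≤ (0 : NNReal)} :=
    isCompact_setOfPred_probabilityMeasure_mass_eq_compl_isCompact_le
      (u := fun _ => 0) (K := fun _ => Set.pi univ (fun _ : Fin m ⊕ Fin m => closure Λ))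
      tendsto_const_nhds (fun _ => hKc) (Or.inr fun _ _ _ => le_rfl)
  have hmem : ∀ n, P n ∈ {μ : ProbabilityMeasure (Fin m ⊕ Fin m → ℂ) |
      ∀ n : ℕ, μ (Set.pi univ (fun _ : Fin m ⊕ Fin m => closure Λ))ᶜ ≤ (0 : NNReal)} := by
    intro n k
    have h1 : (P n : Measure (Fin m ⊕ Fin m → ℂ))
        (Set.pi univ (fun _ : Fin m ⊕ Fin m => closure Λ))ᶜ = 0 := by
      change (ProbabilityTheory.cond (PP Λ (Fin m ⊕ Fin m)) (win g m E (hh n)))
        (Set.pi univ (fun _ : Fin m ⊕ Fin m => closure Λ))ᶜ = 0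
      exact ProbabilityTheory.cond_absolutelyContinuous (PP_compl hD m)
    have h2 : (((P n) (Set.pi univ (fun _ : Fin m ⊕ Fin m => closure Λ))ᶜ : NNReal) :
        ENNReal) = 0 := by
      rw [ProbabilityMeasure.ennreal_coeFn_eq_coeFn_toMeasure]
      exact h1
    exact le_of_eq (by exact_mod_cast h2)
  obtain ⟨μ, -, hμ⟩ := hcomp.exists_mapClusterPt (f := atTop) (u := P)
    (le_principal_iff.2 (mem_map.2 (Eventually.of_forall hmem)))
  have hμint : ∀ f : BoundedContinuousFunction (Fin m ⊕ Fin m → ℂ) ℝ,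
      ∫ x, f x ∂(μ : Measure (Fin m ⊕ Fin m → ℂ)) = D f / D one := by
    intro f
    have h1 := hμ.continuousAt_comp
      (ProbabilityMeasure.continuous_integral_boundedContinuousFunction f).continuousAt
    have h2 := hPlim f
    have h3 : (𝓝 (∫ x, f x ∂(μ : Measure (Fin m ⊕ Fin m → ℂ))) ⊓ 𝓝 (D f / D one)).NeBot := by
      exact NeBot.mono h1 (inf_le_inf_left _ h2)
    exact eq_of_nhds_neBot h3
  refine ⟨μ, ⟨inferInstance, fun f => ?_⟩, fun ν hν => micro_unique hν ⟨inferInstance,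
    fun f => ?_⟩ hPpos⟩
  all_goals
    rw [hPd, hμint f]
    have h1 := hderB f
    have h2 : volume.real Λ ^ (2 * m) * D one * (D f / D one) = volume.real Λ ^ (2 * m) * D f := by
      field_simp
    rw [h2]
    exact h1

end MicroAux

/-- Existence and uniqueness of the microcanonical measure, positivity of the density of
states. -/
theorem exists_micro {Λ : Set ℂ} {g : ℂ → ℂ → ℝ} (hD : Dom Λ g)
    (hm : Measurable (Function.uncurry g)) {ε : ℝ} (hε : 0 < ε) : ∀ᶠ m : ℕ in atTop,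
      DifferentiableAt ℝ (Phi Λ g m) ((2 * m) ^ 2 * ε) ∧
      0 < deriv (Phi Λ g m) ((2 * m) ^ 2 * ε) ∧
      ∃! μ : Measure (Fin m ⊕ Fin m → ℂ), IsMicro Λ g m ((2 * m) ^ 2 * ε) μ := by
  obtain ⟨N₀, hN₀⟩ := diff_all hD hm
  obtain ⟨ρp, ρm, hρ⟩ := exists_adm hD hm hε
  obtain ⟨m₀, hm₀⟩ := lower_bound hD hm hε hρ one_pos
  filter_upwards [eventually_ge_atTop (max N₀ m₀)] with m hmm
  have hmN : N₀ ≤ m := le_trans (le_max_left _ _) hmm
  have hmm₀ : m₀ ≤ m := le_trans (le_max_right _ _) hmm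
  set E : ℝ := (2 * m) ^ 2 * ε with hE
  set c : ℝ := Real.exp (2 * m * ((entS Λ ρp + entS Λ ρm) / 2 - 1)) with hc
  have hcpos : 0 < c := Real.exp_pos _
  have hdiff : ∀ f : BoundedContinuousFunction (Fin m ⊕ Fin m → ℂ) ℝ,
      DifferentiableAt ℝ (fun E' : ℝ => ∫ x in {x | energy g (chg m) x < E'}, f x
        ∂(PP Λ (Fin m ⊕ Fin m))) E := by
    intro f
    refine hN₀ (Fin m ⊕ Fin m) (chg m) ?_ ?_ f E
    · rintro (i | i) <;> simp [chg]
    · simp only [Fintype.card_sum, Fintype.card_fin]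
      omega
  have hlow : ∀ h : ℝ, 0 < h → h ≤ 1 → h * c ≤ (PP Λ (Fin m ⊕ Fin m)).real (win g m E h) := by
    intro h hh hh1
    exact hm₀ m hmm₀ E h (by simp [hE]) hh hh1
  have h1 := exists_of_windows hD hm hdiff hcpos hlow
  exact h1

/-- Bounds on open sets pass from windows to the microcanonical measure. -/
theorem micro_open {Λ : Set ℂ} {g : ℂ → ℂ → ℝ} (hD : Dom Λ g)
    (hm : Measurable (Function.uncurry g)) {m : ℕ} {E : ℝ} {μ : Measure (Fin m ⊕ Fin m → ℂ)}
    (hμ : IsMicro Λ g m E μ) (hpos : 0 < deriv (Phi Λ g m) E) {O : Set (Fin m ⊕ Fin m → ℂ)}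
    (hO : IsOpen O) {a : ℝ} (ha : 0 ≤ a)
    (h : ∀ h : ℝ, 0 < h → h ≤ 1 → (PP Λ (Fin m ⊕ Fin m)).real (O ∩ win g m E h) ≤
      a * (PP Λ (Fin m ⊕ Fin m)).real (win g m E h)) : μ.real O ≤ a := by
  have := hμ.1
  have := isProb_PP hD (Fin m ⊕ Fin m)
  have key : ∀ F : Set (Fin m ⊕ Fin m → ℂ), IsClosed F → F ⊆ O → μ.real F ≤ a := by
    intro F hF hFO
    obtain ⟨φ, hφ0, hφ1, hφ⟩ := exists_continuous_zero_one_of_isClosed (isClosed_compl_iff.2 hO)
      hF (by
        rw [Set.disjoint_left]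
        intro x hx hx'
        exact hx (hFO hx'))
    let f : BoundedContinuousFunction (Fin m ⊕ Fin m → ℂ) ℝ :=
      BoundedContinuousFunction.ofNormedAddCommGroup φ φ.continuous 1 (fun x => by
        rw [Real.norm_eq_abs, abs_of_nonneg (hφ x).1]
        exact (hφ x).2)
    have hfφ : ∀ x, f x = φ x := fun x => rfl
    have h1 : ∫ x, f x ∂μ ≤ a := by
      refine micro_int_le hD hm hμ hpos f fun t ht ht1 => le_trans ?_ (h t ht ht1)
      have h2 : ∀ x, f x ≤ O.indicator (fun _ => (1 : ℝ)) x := by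
        intro x
        by_cases hx : x ∈ O
        · rw [indicator_of_mem hx, hfφ]
          exact (hφ x).2
        · rw [indicator_of_notMem hx, hfφ, hφ0 hx]
          rfl
      calc ∫ x in win g m E t, f x ∂(PP Λ (Fin m ⊕ Fin m))
          ≤ ∫ x in win g m E t, O.indicator (fun _ => (1 : ℝ)) x ∂(PP Λ (Fin m ⊕ Fin m)) := by
            refine integral_mono (f.integrable _) ?_ h2
            exact (integrable_const 1).indicator hO.measurableSet
        _ = (PP Λ (Fin m ⊕ Fin m)).real (O ∩ win g m E t) := by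
            rw [integral_indicator_const _ hO.measurableSet, smul_eq_mul, mul_one,
              measureReal_restrict_apply hO.measurableSet]
    have h3 : μ.real F ≤ ∫ x, f x ∂μ := by
      have h4 : ∀ x, F.indicator (fun _ => (1 : ℝ)) x ≤ f x := by
        intro x
        by_cases hx : x ∈ F
        · rw [indicator_of_mem hx, hfφ, hφ1 hx]
          rfl
        · rw [indicator_of_notMem hx, hfφ]
          exact (hφ x).1
      calc μ.real F = ∫ x, F.indicator (fun _ => (1 : ℝ)) x ∂μ := by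
            rw [integral_indicator_const _ hF.measurableSet, smul_eq_mul, mul_one]
        _ ≤ ∫ x, f x ∂μ :=
            integral_mono ((integrable_const 1).indicator hF.measurableSet) (f.integrable _) h4
    exact h3.trans h1
  have h5 : μ O ≤ ENNReal.ofReal a := by
    rw [hO.measure_eq_iSup_isClosed μ]
    refine iSup_le fun F => iSup_le fun hFO => iSup_le fun hF => ?_
    rw [← ENNReal.ofReal_toReal (measure_ne_top μ F)]
    exact ENNReal.ofReal_le_ofReal (key F hF hFO)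
  rw [Measure.real]
  exact ENNReal.toReal_le_of_le_ofReal ha h5

theorem micro_supp {Λ : Set ℂ} {g : ℂ → ℂ → ℝ} (hD : Dom Λ g)
    (hm : Measurable (Function.uncurry g)) {m : ℕ} {E : ℝ} {μ : Measure (Fin m ⊕ Fin m → ℂ)}
    (hμ : IsMicro Λ g m E μ) (hpos : 0 < deriv (Phi Λ g m) E) :
    ∀ᵐ x ∂μ, ∀ i, x i ∈ closure Λ := by
  have := hμ.1
  have := isProb_PP hD (Fin m ⊕ Fin m)
  have hC : IsClosed (Set.pi univ (fun _ : Fin m ⊕ Fin m => closure Λ)) :=
    isClosed_set_pi fun _ _ => isClosed_closure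
  have h0 := PP_compl hD m
  have h1 : μ.real (Set.pi univ (fun _ : Fin m ⊕ Fin m => closure Λ))ᶜ ≤ 0 := by
    refine micro_open hD hm hμ hpos hC.isOpen_compl le_rfl fun t ht ht1 => ?_
    rw [zero_mul, Measure.real, measure_mono_null inter_subset_left h0]
    simp
  have h2 : μ (Set.pi univ (fun _ : Fin m ⊕ Fin m => closure Λ))ᶜ = 0 := by
    have h3 := le_antisymm h1 measureReal_nonneg
    rwa [measureReal_eq_zero_iff] at h3
  have h3 : ∀ᵐ x ∂μ, x ∈ Set.pi univ (fun _ : Fin m ⊕ Fin m => closure Λ) := by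
    rw [ae_iff]
    exact h2
  filter_upwards [h3] with x hx i
  exact hx i (mem_univ i)

namespace MicroAux

theorem energy_comp {g : ℂ → ℂ → ℝ} {m : ℕ} (e : Fin m ⊕ Fin m ≃ Fin m ⊕ Fin m)
    (he : ∀ i j, chg m (e i) * chg m (e j) = chg m i * chg m j) (x : Fin m ⊕ Fin m → ℂ) :
    energy g (chg m) (fun i => x (e i)) = energy g (chg m) x := by
  unfold energy
  congr 1
  rw [← Equiv.sum_comp e (fun i => ∑ j, chg m i * chg m j * Gst g (x i) (x j))]
  refine Finset.sum_congr rfl fun i _ => ?_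
  rw [← Equiv.sum_comp e (fun j => chg m (e i) * chg m j * Gst g (x (e i)) (x j))]
  refine Finset.sum_congr rfl fun j _ => ?_
  rw [he]

theorem micro_map {Λ : Set ℂ} {g : ℂ → ℂ → ℝ} (hD : Dom Λ g)
    (hm : Measurable (Function.uncurry g)) {m : ℕ} {E : ℝ} {μ : Measure (Fin m ⊕ Fin m → ℂ)}
    (hμ : IsMicro Λ g m E μ) (hpos : 0 < deriv (Phi Λ g m) E)
    (e : Fin m ⊕ Fin m ≃ Fin m ⊕ Fin m)
    (he : ∀ i j, chg m (e i) * chg m (e j) = chg m i * chg m j) :
    μ.map (fun x i => x (e i)) = μ := by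
  have := hμ.1
  have hc : Continuous (fun (x : Fin m ⊕ Fin m → ℂ) (i : Fin m ⊕ Fin m) => x (e i)) :=
    continuous_pi fun i => continuous_apply _
  have hT : (fun (x : Fin m ⊕ Fin m → ℂ) (i : Fin m ⊕ Fin m) => x (e i)) =
      MeasurableEquiv.piCongrLeft (fun _ : Fin m ⊕ Fin m => ℂ) e.symm := by
    funext x i
    have h2 := MeasurableEquiv.piCongrLeft_apply_apply (β := fun _ : Fin m ⊕ Fin m => ℂ)
      (e := e.symm) x (e i)
    rw [Equiv.symm_apply_apply] at h2
    exact h2.symm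
  have hMP : MeasurePreserving (fun (x : Fin m ⊕ Fin m → ℂ) (i : Fin m ⊕ Fin m) => x (e i))
      volume volume := by
    rw [hT]
    exact volume_measurePreserving_piCongrLeft (fun _ : Fin m ⊕ Fin m => ℂ) e.symm
  have hME : MeasurableEmbedding
      (fun (x : Fin m ⊕ Fin m → ℂ) (i : Fin m ⊕ Fin m) => x (e i)) := by
    rw [hT]
    exact MeasurableEquiv.measurableEmbedding _
  refine micro_unique ⟨?_, fun f => ?_⟩ hμ hpos
  · exact Measure.isProbabilityMeasure_map hc.measurable.aemeasurable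
  · have h1 := hμ.2 (f.compContinuous ⟨_, hc⟩)
    rw [integral_map hc.measurable.aemeasurable f.continuous.aestronglyMeasurable]
    have h2 : (fun E' : ℝ => ∫ x in below Λ g m E', f x) =
        fun E' : ℝ => ∫ x in below Λ g m E', (f.compContinuous ⟨_, hc⟩) x := by
      funext E'
      have h3 : (fun (x : Fin m ⊕ Fin m → ℂ) (i : Fin m ⊕ Fin m) => x (e i)) ⁻¹'
          (below Λ g m E') = below Λ g m E' := by
        ext x
        simp only [below, mem_preimage, mem_ofPred_eq, energy_comp e he]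
        refine and_congr_left fun _ => ⟨fun h i => ?_, fun h i => h _⟩
        have := h (e.symm i)
        rwa [Equiv.apply_symm_apply] at this
      have h4 := hMP.setIntegral_preimage_emb hME f (below Λ g m E')
      rw [h3] at h4
      exact h4.symm
    rw [h2]
    exact h1

end MicroAux

/-- Exchangeability within each species. -/
theorem micro_exch {Λ : Set ℂ} {g : ℂ → ℂ → ℝ} (hD : Dom Λ g)
    (hm : Measurable (Function.uncurry g)) {m : ℕ} {E : ℝ} {μ : Measure (Fin m ⊕ Fin m → ℂ)}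
    (hμ : IsMicro Λ g m E μ) (hpos : 0 < deriv (Phi Λ g m) E) (σ τ : Equiv.Perm (Fin m)) :
    μ.map (fun x i => x (Sum.map σ τ i)) = μ := by
  refine micro_map hD hm hμ hpos (Equiv.sumCongr σ τ) ?_
  have h : ∀ i, chg m (Equiv.sumCongr σ τ i) = chg m i := by
    rintro (i | i) <;> simp [chg]
  intro i j
  rw [h, h]

/-- Symmetry under exchange of the two species. -/
theorem micro_swap {Λ : Set ℂ} {g : ℂ → ℂ → ℝ} (hD : Dom Λ g)
    (hm : Measurable (Function.uncurry g)) {m : ℕ} {E : ℝ} {μ : Measure (Fin m ⊕ Fin m → ℂ)}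
    (hμ : IsMicro Λ g m E μ) (hpos : 0 < deriv (Phi Λ g m) E) :
    μ.map (fun x i => x i.swap) = μ := by
  refine micro_map hD hm hμ hpos (Equiv.sumComm _ _) ?_
  have h : ∀ i, chg m (Equiv.sumComm _ _ i) = - chg m i := by
    rintro (i | i) <;> simp [chg]
  intro i j
  rw [h, h]
  ring

end Pool.Agent.Lib.MP_fa244c_mp
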