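import Pool.Agent.Lib.MP_fa244c_mp.Pot

set_option autoImplicit false

open MeasureTheory Filter Topology Set Metric

namespace Pool.Agent.Lib.MP_fa244c_mp

/-- Data for the lower bound: `r₁` arises from `r₀` by moving the fraction `θ` of its mass in the
ball `b` to the density `ν` supported in `b`; the pair `(r₀, rm)` has energy less than `4ε` and
the pair `(r₁, rm)` has energy more than `4ε`. -/
structure NiceData (Λ : Set ℂ) (g : ℂ → ℂ → ℝ) (ε : ℝ) (K : Set ℂ) (b₀ : ℂ) (rb θ : ℝ)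
    (r₀ r₁ rm ν : ℂ → ℝ) : Prop where
  compact : IsCompact K
  sub : K ⊆ Λ
  ball : closedBall b₀ rb ⊆ K
  rb_pos : 0 < rb
  θ_pos : 0 < θ
  θ_le : θ ≤ 1
  nice₀ : Nice K r₀
  nice₁ : Nice K r₁
  nicem : Nice K rm
  niceν : Nice (closedBall b₀ rb) ν
  r₁_eq : ∀ x, r₁ x = r₀ x - θ * (closedBall b₀ rb).indicator r₀ x +
    θ * (∫ y in closedBall b₀ rb, r₀ y) * ν x
  below : enE g r₀ rm < 4 * ε
  above : 4 * ε < enE g r₁ rm

end Pool.Agent.Lib.MP_fa244c_mp
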