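import Pool.Agent.Lib.MP_fa244c_mp.Core

set_option autoImplicit false

open MeasureTheory Filter Topology Set Laplacian
open scoped ContDiff

namespace Pool.Agent.Lib.MP_fa244c_mp

namespace NewtonAux

/-- Differentiation under an interval integral for jointly continuous data. -/
theorem hasDerivAt_param {U U' : ℝ → ℝ → ℝ} (hU : Continuous (fun p : ℝ × ℝ => U p.1 p.2))
    (hU' : Continuous (fun p : ℝ × ℝ => U' p.1 p.2))
    (hd : ∀ r t, HasDerivAt (fun r => U r t) (U' r t) r) (a b r : ℝ) :
    HasDerivAt (fun r => ∫ t in a..b, U r t) (∫ t in a..b, U' r t) r := by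
  have hK : IsCompact (Icc (r - 1) (r + 1) ×ˢ uIcc a b) := isCompact_Icc.prod isCompact_uIcc
  obtain ⟨B, hB⟩ := hK.exists_bound_of_continuousOn hU'.continuousOn
  have hUr : ∀ r, Continuous (U r) := fun r => hU.comp (Continuous.prodMk_right r)
  have hUr' : ∀ r, Continuous (U' r) := fun r => hU'.comp (Continuous.prodMk_right r)
  refine (intervalIntegral.hasDerivAt_integral_of_dominated_loc_of_deriv_le
    (s := Icc (r - 1) (r + 1)) (bound := fun _ => B) (F := U) (F' := U')
    (Icc_mem_nhds (by linarith) (by linarith)) ?_ ?_ ?_ ?_ ?_ ?_).2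
  · exact Eventually.of_forall fun r => (hUr r).aestronglyMeasurable
  · exact (hUr r).intervalIntegrable _ _
  · exact (hUr' r).aestronglyMeasurable
  · refine Eventually.of_forall fun t ht x hx => ?_
    exact hB (x, t) ⟨hx, uIoc_subset_uIcc ht⟩
  · exact intervalIntegrable_const
  · exact Eventually.of_forall fun t _ x _ => hd x t

/-- The unit vector with angle `t`. -/
noncomputable def ev (t : ℝ) : ℂ := Complex.exp (t * Complex.I)

theorem ev_cont : Continuous ev := by unfold ev; fun_prop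

theorem ev_deriv (t : ℝ) : HasDerivAt ev (Complex.I * ev t) t := by
  unfold ev
  have h1 : HasDerivAt (fun t : ℝ => (t : ℂ) * Complex.I) (1 * Complex.I) t :=
    (Complex.ofRealCLM.hasDerivAt (x := t)).mul_const Complex.I
  have h2 := h1.cexp
  convert h2 using 1
  ring

theorem ev_periodic (t : ℝ) : ev (t + 2 * Real.pi) = ev t := by
  unfold ev
  push_cast
  rw [add_mul, Complex.exp_add, Complex.exp_two_pi_mul_I, mul_one]

theorem ev_eq (t : ℝ) : ev t = (Real.cos t : ℂ) + Real.sin t * Complex.I := by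
  unfold ev
  rw [Complex.exp_mul_I, ← Complex.ofReal_cos, ← Complex.ofReal_sin]

theorem norm_ev (t : ℝ) : ‖ev t‖ = 1 := Complex.norm_exp_ofReal_mul_I t

/-- Rotation invariance of the Laplacian at a point. -/
theorem lapl_rot {F : ℂ → ℝ} (hF : ContDiff ℝ ∞ F) (z : ℂ) (t : ℝ) :
    (Δ F) z = fderiv ℝ (fderiv ℝ F) z (ev t) (ev t)
      + fderiv ℝ (fderiv ℝ F) z (Complex.I * ev t) (Complex.I * ev t) := by
  have hsym : fderiv ℝ (fderiv ℝ F) z 1 Complex.I = fderiv ℝ (fderiv ℝ F) z Complex.I 1 := by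
    have h2 : ContDiffAt ℝ 2 F z := (hF.of_le (by norm_cast)).contDiffAt
    exact (h2.isSymmSndFDerivAt (by simp)) 1 Complex.I
  have e1 : ev t = (Real.cos t) • (1 : ℂ) + (Real.sin t) • Complex.I := by
    rw [ev_eq]; simp
  have e2 : Complex.I * ev t = (-Real.sin t) • (1 : ℂ) + (Real.cos t) • Complex.I := by
    rw [ev_eq]
    simp only [Complex.real_smul, Complex.ofReal_neg, mul_one, mul_add]
    linear_combination (Real.sin t : ℂ) * Complex.I_mul_I
  rw [InnerProductSpace.laplacian_eq_iteratedFDeriv_complexPlane]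
  simp only [iteratedFDeriv_two_apply, Matrix.cons_val_zero, Matrix.cons_val_one]
  rw [e2, e1]
  simp only [map_add, map_smul, add_apply, smul_apply, smul_eq_mul, hsym]
  have := Real.cos_sq_add_sin_sq t
  linear_combination (-(fderiv ℝ (fderiv ℝ F) z 1 1)
    - (fderiv ℝ (fderiv ℝ F) z Complex.I Complex.I)) * this

section

variable {F : ℂ → ℝ} (hF : ContDiff ℝ ∞ F)

include hF

theorem D1 : ContDiff ℝ ∞ (fderiv ℝ F) := hF.fderiv_right (by norm_cast)

theorem D2 : ContDiff ℝ ∞ (fderiv ℝ (fderiv ℝ F)) := (D1 hF).fderiv_right (by norm_cast)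

theorem D0_has (z : ℂ) : HasFDerivAt F (fderiv ℝ F z) z :=
  ((hF.differentiable (by simp)) z).hasFDerivAt

theorem D1_has (z : ℂ) : HasFDerivAt (fderiv ℝ F) (fderiv ℝ (fderiv ℝ F) z) z :=
  (((D1 hF).differentiable (by simp)) z).hasFDerivAt

/-- Radial derivative of `F`. -/
theorem dr0 (r t : ℝ) : HasDerivAt (fun r : ℝ => F (r * ev t)) (fderiv ℝ F (r * ev t) (ev t)) r := by
  have h1 : HasDerivAt (fun r : ℝ => (r : ℂ) * ev t) (1 * ev t) r :=
    (Complex.ofRealCLM.hasDerivAt (x := r)).mul_const (ev t)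
  rw [one_mul] at h1
  exact (D0_has hF _).comp_hasDerivAt r h1

/-- Radial derivative of the radial derivative. -/
theorem dr1 (r t : ℝ) : HasDerivAt (fun r : ℝ => fderiv ℝ F (r * ev t) (ev t))
    (fderiv ℝ (fderiv ℝ F) (r * ev t) (ev t) (ev t)) r := by
  have h1 : HasDerivAt (fun r : ℝ => (r : ℂ) * ev t) (1 * ev t) r :=
    (Complex.ofRealCLM.hasDerivAt (x := r)).mul_const (ev t)
  rw [one_mul] at h1
  have h2 := (D1_has hF _).comp_hasDerivAt r h1
  have h3 := h2.clm_apply (hasDerivAt_const r (ev t))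
  simpa using h3

/-- Angular derivative of the tangential derivative. -/
theorem dt1 (r t : ℝ) : HasDerivAt (fun t : ℝ => fderiv ℝ F (r * ev t) (Complex.I * ev t))
    (r * fderiv ℝ (fderiv ℝ F) (r * ev t) (Complex.I * ev t) (Complex.I * ev t)
      - fderiv ℝ F (r * ev t) (ev t)) t := by
  have h1 : HasDerivAt (fun t : ℝ => (r : ℂ) * ev t) (r * (Complex.I * ev t)) t :=
    (ev_deriv t).const_mul (r : ℂ)
  have h2 := (D1_has hF _).comp_hasDerivAt t h1
  have h3 := h2.clm_apply ((ev_deriv t).const_mul Complex.I)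
  refine h3.congr_deriv ?_
  have e1 : (r : ℂ) * (Complex.I * ev t) = r • (Complex.I * ev t) := by simp
  have e2 : Complex.I * (Complex.I * ev t) = - ev t := by
    rw [← mul_assoc, Complex.I_mul_I]; ring
  rw [e1, e2, (fderiv ℝ (fderiv ℝ F) (r * ev t)).map_smul]
  simp only [smul_apply, smul_eq_mul, Function.comp_apply, map_neg]
  ring

/-- Circle means of `F`. -/
noncomputable def GG (F : ℂ → ℝ) (r : ℝ) : ℝ := ∫ t in (-Real.pi)..Real.pi, F (r * ev t)

/-- Circle means of the radial derivative. -/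
noncomputable def CC (F : ℂ → ℝ) (r : ℝ) : ℝ :=
  ∫ t in (-Real.pi)..Real.pi, fderiv ℝ F (r * ev t) (ev t)

/-- Circle means of the Laplacian. -/
noncomputable def LL (F : ℂ → ℝ) (r : ℝ) : ℝ :=
  ∫ t in (-Real.pi)..Real.pi, (Δ F) (r * ev t)

omit hF in
theorem cz : Continuous (fun p : ℝ × ℝ => (p.1 : ℂ) * ev p.2) :=
  (Complex.continuous_ofReal.comp continuous_fst).mul (ev_cont.comp continuous_snd)

theorem c0 : Continuous (fun p : ℝ × ℝ => F (p.1 * ev p.2)) := hF.continuous.comp cz

theorem c1 : Continuous (fun p : ℝ × ℝ => fderiv ℝ F (p.1 * ev p.2) (ev p.2)) :=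
  ((D1 hF).continuous.comp cz).clm_apply (ev_cont.comp continuous_snd)

theorem c2 : Continuous
    (fun p : ℝ × ℝ => fderiv ℝ (fderiv ℝ F) (p.1 * ev p.2) (ev p.2) (ev p.2)) :=
  (((D2 hF).continuous.comp cz).clm_apply (ev_cont.comp continuous_snd)).clm_apply
    (ev_cont.comp continuous_snd)

theorem c3 : Continuous (fun p : ℝ × ℝ =>
    fderiv ℝ (fderiv ℝ F) (p.1 * ev p.2) (Complex.I * ev p.2) (Complex.I * ev p.2)) :=
  (((D2 hF).continuous.comp cz).clm_apply
    (continuous_const.mul (ev_cont.comp continuous_snd))).clm_apply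
    (continuous_const.mul (ev_cont.comp continuous_snd))

theorem cL : Continuous (Δ F) := by
  have h : (Δ F) = fun z => fderiv ℝ (fderiv ℝ F) z 1 1
      + fderiv ℝ (fderiv ℝ F) z Complex.I Complex.I := by
    funext z
    rw [InnerProductSpace.laplacian_eq_iteratedFDeriv_complexPlane]
    simp [iteratedFDeriv_two_apply]
  rw [h]
  exact (((D2 hF).continuous.clm_apply continuous_const).clm_apply continuous_const).add
    (((D2 hF).continuous.clm_apply continuous_const).clm_apply continuous_const)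

theorem GG_deriv (r : ℝ) : HasDerivAt (GG F) (CC F r) r :=
  hasDerivAt_param (U := fun r t => F (r * ev t)) (U' := fun r t => fderiv ℝ F (r * ev t) (ev t))
    (c0 hF) (c1 hF) (dr0 hF) _ _ r

theorem CC_deriv (r : ℝ) : HasDerivAt (CC F)
    (∫ t in (-Real.pi)..Real.pi, fderiv ℝ (fderiv ℝ F) (r * ev t) (ev t) (ev t)) r :=
  hasDerivAt_param (U := fun r t => fderiv ℝ F (r * ev t) (ev t))
    (U' := fun r t => fderiv ℝ (fderiv ℝ F) (r * ev t) (ev t) (ev t))
    (c1 hF) (c2 hF) (dr1 hF) _ _ r

/-- The tangential part. -/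
theorem tang (r : ℝ) : CC F r = r * ∫ t in (-Real.pi)..Real.pi,
    fderiv ℝ (fderiv ℝ F) (r * ev t) (Complex.I * ev t) (Complex.I * ev t) := by
  have h3 : Continuous (fun t : ℝ =>
      fderiv ℝ (fderiv ℝ F) (r * ev t) (Complex.I * ev t) (Complex.I * ev t)) :=
    (c3 hF).comp (Continuous.prodMk_right r)
  have h1 : Continuous (fun t : ℝ => fderiv ℝ F (r * ev t) (ev t)) :=
    (c1 hF).comp (Continuous.prodMk_right r)
  have h4 : Continuous (fun t : ℝ =>
      r * fderiv ℝ (fderiv ℝ F) (r * ev t) (Complex.I * ev t) (Complex.I * ev t)) :=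
    continuous_const.mul h3
  have h := intervalIntegral.integral_eq_sub_of_hasDerivAt (a := -Real.pi) (b := Real.pi)
    (fun t _ => dt1 hF r t) ((h4.sub h1).intervalIntegrable _ _)
  have hper : ev Real.pi = ev (-Real.pi) := by
    have := ev_periodic (-Real.pi)
    rw [← this]; congr 1; ring
  rw [hper, sub_self, intervalIntegral.integral_sub (h4.intervalIntegrable _ _)
    (h1.intervalIntegrable _ _), intervalIntegral.integral_const_mul] at h
  unfold CC
  linarith

theorem rCC_deriv (r : ℝ) : HasDerivAt (fun r => r * CC F r) (r * LL F r) r := by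
  have h := (hasDerivAt_id r).mul (CC_deriv hF r)
  refine h.congr_deriv ?_
  have h3 : Continuous (fun t : ℝ =>
      fderiv ℝ (fderiv ℝ F) (r * ev t) (Complex.I * ev t) (Complex.I * ev t)) :=
    (c3 hF).comp (Continuous.prodMk_right r)
  have h2 : Continuous (fun t : ℝ => fderiv ℝ (fderiv ℝ F) (r * ev t) (ev t) (ev t)) :=
    (c2 hF).comp (Continuous.prodMk_right r)
  have hL : LL F r = (∫ t in (-Real.pi)..Real.pi, fderiv ℝ (fderiv ℝ F) (r * ev t) (ev t) (ev t))
      + ∫ t in (-Real.pi)..Real.pi,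
        fderiv ℝ (fderiv ℝ F) (r * ev t) (Complex.I * ev t) (Complex.I * ev t) := by
    rw [← intervalIntegral.integral_add (h2.intervalIntegrable _ _) (h3.intervalIntegrable _ _)]
    unfold LL
    congr 1
    funext t
    exact lapl_rot hF _ t
  rw [hL]
  simp only [id, one_mul]
  rw [tang hF r]
  ring

theorem LL_cont : Continuous (LL F) := by
  have : Continuous (Function.uncurry (fun r t : ℝ => (Δ F) (r * ev t))) := (cL hF).comp cz
  exact intervalIntegral.continuous_parametric_intervalIntegral_of_continuous' this _ _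

/-- The radial integral. -/
theorem radial (M : ℝ) (hM : 0 ≤ M) : ∫ r in (0 : ℝ)..M, r * Real.log r * LL F r
    = (M * Real.log M * CC F M - GG F M) + GG F 0 := by
  have hc : Continuous (fun r : ℝ => r * Real.log r) := Real.continuous_mul_log
  have hCc : Continuous (CC F) :=
    continuous_iff_continuousAt.2 fun r => (CC_deriv hF r).continuousAt
  have hGc : Continuous (GG F) :=
    continuous_iff_continuousAt.2 fun r => (GG_deriv hF r).continuousAt
  have h := intervalIntegral.integral_eq_sub_of_hasDerivAt_of_le (a := 0) (b := M)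
    (f := fun r => r * Real.log r * CC F r - GG F r)
    (f' := fun r => r * Real.log r * LL F r) hM
    (((hc.mul hCc).sub hGc).continuousOn) ?_
    ((hc.mul (LL_cont hF)).intervalIntegrable _ _)
  · rw [h]; simp
  · intro r hr
    have hr0 : r ≠ 0 := hr.1.ne'
    have h1 : HasDerivAt (fun r => Real.log r * (r * CC F r))
        (r⁻¹ * (r * CC F r) + Real.log r * (r * LL F r)) r :=
      (Real.hasDerivAt_log hr0).mul (rCC_deriv hF r)
    have h2 := h1.sub (GG_deriv hF r)
    have e : (fun r => r * Real.log r * CC F r - GG F r)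
        = (fun r => Real.log r * (r * CC F r) - GG F r) := by
      funext r; ring
    rw [e]
    refine h2.congr_deriv ?_
    field_simp
    ring

/-- The integral of a Laplacian against `log` at the origin, in polar coordinates. -/
theorem polar {M0 : ℝ} (hM0 : 0 ≤ M0) (hz : ∀ z : ℂ, M0 < ‖z‖ → (Δ F) z = 0) :
    ∫ z, Real.log ‖z‖ * (Δ F) z = ∫ r in (0 : ℝ)..M0, r * Real.log r * LL F r := by
  rw [← Complex.integral_comp_polarCoord_symm]
  have hH : Continuous (fun p : ℝ × ℝ => p.1 * Real.log p.1 * (Δ F) (p.1 * ev p.2)) :=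
    (Real.continuous_mul_log.comp continuous_fst).mul ((cL hF).comp cz)
  have e1 : ∫ p in polarCoord.target, p.1 • (Real.log ‖Complex.polarCoord.symm p‖
        * (Δ F) (Complex.polarCoord.symm p))
      = ∫ p in Ioi (0 : ℝ) ×ˢ Ioo (-Real.pi) Real.pi,
        p.1 * Real.log p.1 * (Δ F) (p.1 * ev p.2) := by
    refine setIntegral_congr_fun (measurableSet_Ioi.prod measurableSet_Ioo) ?_
    intro p hp
    have hp1 : 0 < p.1 := hp.1
    simp only [Complex.norm_polarCoord_symm, abs_of_pos hp1, smul_eq_mul]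
    rw [Complex.polarCoord_symm_apply, ← ev_eq]
    ring
  rw [e1]
  have e2 : ∫ p in Ioi (0 : ℝ) ×ˢ Ioo (-Real.pi) Real.pi,
        p.1 * Real.log p.1 * (Δ F) (p.1 * ev p.2)
      = ∫ p in Ioc (0 : ℝ) M0 ×ˢ Ioo (-Real.pi) Real.pi,
        p.1 * Real.log p.1 * (Δ F) (p.1 * ev p.2) := by
    refine setIntegral_eq_of_subset_of_forall_sdiff_eq_zero
      (measurableSet_Ioi.prod measurableSet_Ioo) ?_ ?_
    · exact prod_mono Ioc_subset_Ioi_self subset_rfl
    · rintro p ⟨hp, hp'⟩
      have hp1 : 0 < p.1 := hp.1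
      have hp2 : M0 < p.1 := by
        by_contra hcon
        exact hp' ⟨⟨hp1, not_lt.1 hcon⟩, hp.2⟩
      have : (Δ F) (p.1 * ev p.2) = 0 := by
        apply hz
        rw [norm_mul, norm_ev, mul_one, Complex.norm_real, Real.norm_eq_abs, abs_of_pos hp1]
        exact hp2
      rw [this, mul_zero]
  rw [e2, Measure.volume_eq_prod, setIntegral_prod]
  · rw [intervalIntegral.integral_of_le hM0]
    refine setIntegral_congr_fun measurableSet_Ioc ?_
    intro r _
    simp only
    rw [integral_const_mul]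
    congr 1
    unfold LL
    rw [intervalIntegral.integral_of_le (by linarith [Real.pi_pos]), integral_Ioc_eq_integral_Ioo]
  · have hK : IsCompact (Icc (0 : ℝ) M0 ×ˢ Icc (-Real.pi) Real.pi) := isCompact_Icc.prod isCompact_Icc
    exact (hH.continuousOn.integrableOn_compact hK).mono_set
      (prod_mono Ioc_subset_Icc_self Ioo_subset_Icc_self)

end

/-- Circle means of a centred logarithm. -/
theorem GG_log {F : ℂ → ℝ} {κ R : ℝ} {y : ℂ}
    (hR : ∀ z, R ≤ ‖z‖ → F z = κ * Real.log ‖z - y‖) {r : ℝ} (h0 : 0 < r) (hRr : R ≤ r)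
    (hy : ‖y‖ ≤ r) : GG F r = 2 * Real.pi * κ * Real.log r := by
  have hn : ∀ t, ‖(r : ℂ) * ev t‖ = r := by
    intro t
    rw [norm_mul, norm_ev, mul_one, Complex.norm_real, Real.norm_eq_abs, abs_of_pos h0]
  have hav : Real.circleAverage (fun z => Real.log ‖z - y‖) 0 r = Real.log r := by
    apply circleAverage_log_norm_sub_const_of_mem_closedBall
    rw [Metric.mem_closedBall, dist_zero_right, abs_of_pos h0]
    exact hy
  rw [Real.circleAverage_def] at hav
  have e1 : GG F r = κ * ∫ t in (-Real.pi)..Real.pi, Real.log ‖circleMap 0 r t - y‖ := by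
    unfold GG
    rw [← intervalIntegral.integral_const_mul]
    congr 1
    funext t
    rw [hR _ (by rw [hn]; exact hRr)]
    simp [circleMap, ev]
  have hper : Function.Periodic (fun t : ℝ => Real.log ‖circleMap 0 r t - y‖) (2 * Real.pi) := by
    intro t
    simp only [periodic_circleMap 0 r t]
  have e2 := hper.intervalIntegral_add_eq (-Real.pi) 0
  have e3 : -Real.pi + 2 * Real.pi = Real.pi := by ring
  rw [e3, zero_add] at e2
  rw [e1, e2]
  have hpi : (2 * Real.pi) ≠ 0 := by positivity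
  rw [smul_eq_mul, inv_mul_eq_iff_eq_mul₀ hpi] at hav
  rw [hav]
  ring

/-- The case of the origin. -/
theorem newton0 {F : ℂ → ℝ} (hF : ContDiff ℝ ∞ F) {κ R : ℝ} {y : ℂ}
    (hR : ∀ z, R ≤ ‖z‖ → F z = κ * Real.log ‖z - y‖) :
    ∫ z, Real.log ‖z‖ * (Δ F) z = 2 * Real.pi * F 0 := by
  set M0 : ℝ := max (max R ‖y‖) 1 with hM0def
  have hM1 : 1 ≤ M0 := le_max_right _ _
  have hMR : R ≤ M0 := (le_max_left _ _).trans (le_max_left _ _)
  have hMy : ‖y‖ ≤ M0 := (le_max_right _ _).trans (le_max_left _ _)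
  have hharm : ∀ z : ℂ, M0 < ‖z‖ → (Δ F) z = 0 := by
    intro z hz
    have hne : z - y ≠ 0 := by
      intro h
      rw [sub_eq_zero] at h
      rw [h] at hz
      linarith
    have h1 : InnerProductSpace.HarmonicAt (fun z => Real.log ‖z - y‖) z :=
      AnalyticAt.harmonicAt_log_norm (f := fun z => z - y) (by fun_prop) hne
    have h2 : InnerProductSpace.HarmonicAt (κ • fun z => Real.log ‖z - y‖) z := h1.const_smul
    have h3 : F =ᶠ[𝓝 z] (κ • fun z => Real.log ‖z - y‖) := by
      filter_upwards [(isOpen_lt continuous_const continuous_norm).mem_nhds hz] with x hx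
      simp only [Pi.smul_apply, smul_eq_mul]
      exact hR x (hMR.trans hx.le)
    have h4 := (InnerProductSpace.laplacian_congr_nhds h3).self_of_nhds
    rw [h4]
    exact h2.2.self_of_nhds
  rw [polar hF (M0 := M0 + 1) (by linarith) (fun z hz => hharm z (by linarith)),
    radial hF (M0 + 1) (by linarith)]
  have hG : ∀ r, M0 ≤ r → GG F r = 2 * Real.pi * κ * Real.log r := fun r hr =>
    GG_log hR (by linarith) (hMR.trans hr) (hMy.trans hr)
  have hC : CC F (M0 + 1) = 2 * Real.pi * κ * (M0 + 1)⁻¹ := by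
    have h1 : HasDerivAt (fun r => 2 * Real.pi * κ * Real.log r)
        (2 * Real.pi * κ * (M0 + 1)⁻¹) (M0 + 1) :=
      (Real.hasDerivAt_log (by linarith)).const_mul _
    have h2 : GG F =ᶠ[𝓝 (M0 + 1)] (fun r => 2 * Real.pi * κ * Real.log r) := by
      filter_upwards [Ioi_mem_nhds (show M0 < M0 + 1 by linarith)] with x hx
      exact hG x (le_of_lt hx)
    exact (GG_deriv hF (M0 + 1)).unique (h1.congr_of_eventuallyEq h2)
  have hG0 : GG F 0 = 2 * Real.pi * F 0 := by
    unfold GG
    simp only [Complex.ofReal_zero, zero_mul, intervalIntegral.integral_const, smul_eq_mul]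
    ring
  rw [hC, hG (M0 + 1) (by linarith), hG0]
  have : M0 + 1 ≠ 0 := by linarith
  field_simp
  ring

end NewtonAux

/-- Fundamental solution of the Laplacian in the plane: `F` smooth and equal to
`κ log |z - y|` for large `z` (`κ = 0` is the case of compact support). -/
theorem newton {F : ℂ → ℝ} (hF : ContDiff ℝ ∞ F) {κ R : ℝ} {y : ℂ}
    (hR : ∀ z, R ≤ ‖z‖ → F z = κ * Real.log ‖z - y‖) (w : ℂ) :
    ∫ z, Real.log ‖z - w‖ * (Δ F) z = 2 * Real.pi * F w := by
  have hFw : ContDiff ℝ ∞ (fun z => F (z + w)) := hF.comp (contDiff_id.add contDiff_const)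
  have hlap : ∀ z, (Δ (fun z => F (z + w))) z = (Δ F) (z + w) := by
    intro z
    rw [InnerProductSpace.laplacian_eq_iteratedFDeriv_complexPlane,
      InnerProductSpace.laplacian_eq_iteratedFDeriv_complexPlane]
    simp only [iteratedFDeriv_comp_add_right]
  have h0 := NewtonAux.newton0 hFw (κ := κ) (R := R + ‖w‖) (y := y - w) (by
    intro z hz
    rw [hR (z + w) ?_]
    · congr 3; ring
    · have := norm_sub_le (z + w) w
      rw [add_sub_cancel_right] at this
      linarith)
  simp only [hlap, zero_add] at h0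
  have h1 := integral_add_right_eq_self (μ := (volume : Measure ℂ))
    (fun z : ℂ => Real.log ‖z - w‖ * (Δ F) z) w
  simp only [add_sub_cancel_right] at h1
  rw [← h0, ← h1]

end Pool.Agent.Lib.MP_fa244c_mp
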