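import Pool.Agent.Lib.MP_fa244c_mp.EBasic

set_option autoImplicit false

open MeasureTheory Filter Topology Set Metric
open scoped ENNReal

namespace Pool.Agent.Lib.MP_fa244c_mp

namespace PairLogAux

/-- Weight dominating `exp L`. -/
noncomputable def wr (a : ℝ) (z : ℂ) : ℝ := if ‖z‖ < a then max 1 (a / ‖z‖) else 0

/-- The weight, extended nonnegative. -/
noncomputable def w (a : ℝ) (z : ℂ) : ℝ≥0∞ := ENNReal.ofReal (wr a z)

theorem measurable_w (a : ℝ) : Measurable (w a) := by
  unfold w wr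
  refine ENNReal.measurable_ofReal.comp ?_
  refine Measurable.ite ?_ ?_ measurable_const
  · exact measurableSet_lt measurable_norm measurable_const
  · exact measurable_const.max (measurable_const.div measurable_norm)

theorem lintegral_w {a : ℝ} (ha : 0 < a) : ∫⁻ z, w a z = ENNReal.ofReal (2 * Real.pi * a ^ 2) := by
  rw [← Complex.lintegral_comp_polarCoord_symm]
  have h1 : ∀ p ∈ polarCoord.target, ENNReal.ofReal p.1 • w a (Complex.polarCoord.symm p) =
      (Ioo (0:ℝ) a ×ˢ Ioo (-Real.pi) Real.pi).indicator (fun _ => ENNReal.ofReal a) p := by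
    intro p hp
    rw [polarCoord_target] at hp
    have hp1 : 0 < p.1 := hp.1
    unfold w wr
    rw [Complex.norm_polarCoord_symm, abs_of_pos hp1]
    by_cases h : p.1 < a
    · rw [if_pos h, Set.indicator_of_mem (show p ∈ Ioo (0:ℝ) a ×ˢ Ioo (-Real.pi) Real.pi from
        ⟨⟨hp1, h⟩, hp.2⟩), smul_eq_mul, ← ENNReal.ofReal_mul hp1.le]
      congr 1
      have : 1 ≤ a / p.1 := by
        rw [le_div_iff₀ hp1]; linarith
      rw [max_eq_right this]
      field_simp
    · rw [if_neg h, Set.indicator_of_notMem (fun hh => h hh.1.2)]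
      simp
  rw [setLIntegral_congr_fun polarCoord.open_target.measurableSet h1]
  rw [lintegral_indicator (measurableSet_Ioo.prod measurableSet_Ioo), setLIntegral_const,
    Measure.restrict_apply (measurableSet_Ioo.prod measurableSet_Ioo)]
  have h2 : (Ioo (0:ℝ) a ×ˢ Ioo (-Real.pi) Real.pi) ∩ polarCoord.target =
      Ioo (0:ℝ) a ×ˢ Ioo (-Real.pi) Real.pi := by
    rw [polarCoord_target]
    refine Set.inter_eq_left.2 ?_
    exact Set.prod_mono (fun x hx => hx.1) subset_rfl
  rw [h2, Measure.volume_eq_prod, Measure.prod_prod, Real.volume_Ioo, Real.volume_Ioo,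
    ← ENNReal.ofReal_mul (by linarith), ← ENNReal.ofReal_mul ha.le]
  congr 1
  ring

theorem setLIntegral_w_sub {a : ℝ} (ha : 0 < a) (Λ : Set ℂ) (y : ℂ) :
    ∫⁻ z, w a (y - z) ∂((volume Λ)⁻¹ • volume.restrict Λ) ≤
      (volume Λ)⁻¹ * ENNReal.ofReal (2 * Real.pi * a ^ 2) := by
  rw [lintegral_smul_measure, smul_eq_mul]
  gcongr
  calc ∫⁻ z, w a (y - z) ∂(volume.restrict Λ) ≤ ∫⁻ z, w a (y - z) :=
        setLIntegral_le_lintegral _ _
    _ = ∫⁻ z, w a z := lintegral_sub_left_eq_self (w a) y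
    _ = _ := lintegral_w ha

/-- Recursive product. -/
noncomputable def Z (a : ℝ) (κ : ℝ≥0∞) : (n : ℕ) → (Fin n → ℂ) → ℝ≥0∞
  | 0, _ => 1
  | n + 1, x => Z a κ n (fun i => x i.castSucc) *
      (1 + κ * ∑ i : Fin n, w a (x i.castSucc - x (Fin.last n)))

theorem measurable_Z (a : ℝ) (κ : ℝ≥0∞) (n : ℕ) : Measurable (Z a κ n) := by
  induction n with
  | zero => exact measurable_const
  | succ n ih =>
    have h1 : Measurable fun x : Fin (n + 1) → ℂ => Z a κ n (fun i => x i.castSucc) :=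
      ih.comp (measurable_pi_lambda _ fun i => measurable_pi_apply _)
    have h2 : ∀ i : Fin n, Measurable fun x : Fin (n + 1) → ℂ =>
        w a (x i.castSucc - x (Fin.last n)) := fun i =>
      (measurable_w a).comp ((measurable_pi_apply _).sub (measurable_pi_apply _))
    have h3 : Measurable fun x : Fin (n + 1) → ℂ =>
        1 + κ * ∑ i : Fin n, w a (x i.castSucc - x (Fin.last n)) :=
      Measurable.const_add (Measurable.const_mul (Finset.measurable_sum _ fun i _ => h2 i) κ) 1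
    exact h1.mul h3

theorem lintegral_Z (a : ℝ) (κ : ℝ≥0∞) (μ : Measure ℂ) [IsProbabilityMeasure μ] {c : ℝ≥0∞}
    (hc : ∀ y, ∫⁻ z, w a (y - z) ∂μ ≤ c) (N : ℕ) : ∀ n : ℕ, n ≤ N →
    ∫⁻ x, Z a κ n x ∂(Measure.pi fun _ => μ) ≤ (1 + κ * (N * c)) ^ n := by
  intro n
  induction n with
  | zero =>
    intro _
    simp [Z]
  | succ n ih =>
    intro hn
    have ih' := ih (by omega)
    have hmp := measurePreserving_piFinSuccAbove (fun _ : Fin (n + 1) => μ) (Fin.last n)
    set f : ℂ × (Fin n → ℂ) → ℝ≥0∞ := fun p =>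
      Z a κ n p.2 * (1 + κ * ∑ i : Fin n, w a (p.2 i - p.1)) with hf
    have hfm : Measurable f := by
      have h1 : Measurable fun p : ℂ × (Fin n → ℂ) => Z a κ n p.2 :=
        (measurable_Z a κ n).comp measurable_snd
      have h2 : ∀ i : Fin n, Measurable fun p : ℂ × (Fin n → ℂ) => w a (p.2 i - p.1) := fun i =>
        (measurable_w a).comp (((measurable_pi_apply _).comp measurable_snd).sub measurable_fst)
      have h3 : Measurable fun p : ℂ × (Fin n → ℂ) => 1 + κ * ∑ i : Fin n, w a (p.2 i - p.1) :=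
        Measurable.const_add (Measurable.const_mul (Finset.measurable_sum _ fun i _ => h2 i) κ) 1
      exact h1.mul h3
    have h1 : ∀ x : Fin (n + 1) → ℂ, Z a κ (n + 1) x =
        f (MeasurableEquiv.piFinSuccAbove (fun _ => ℂ) (Fin.last n) x) := by
      intro x
      have h2 : MeasurableEquiv.piFinSuccAbove (fun _ => ℂ) (Fin.last n) x =
          (x (Fin.last n), fun i => x i.castSucc) := by
        refine Prod.ext rfl ?_
        funext i
        change x ((Fin.last n).succAbove i) = x i.castSucc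
        rw [Fin.succAbove_last]
      rw [h2]
      rfl
    calc ∫⁻ x, Z a κ (n + 1) x ∂(Measure.pi fun _ => μ)
        = ∫⁻ x, f (MeasurableEquiv.piFinSuccAbove (fun _ => ℂ) (Fin.last n) x)
            ∂(Measure.pi fun _ => μ) := by simp_rw [h1]
      _ = ∫⁻ p, f p ∂(μ.prod (Measure.pi fun _ => μ)) := hmp.lintegral_comp hfm
      _ = ∫⁻ x', ∫⁻ y, f (y, x') ∂μ ∂(Measure.pi fun _ => μ) := lintegral_prod_symm' f hfm
      _ ≤ ∫⁻ x', Z a κ n x' * (1 + κ * (N * c)) ∂(Measure.pi fun _ => μ) := by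
          refine lintegral_mono fun x' => ?_
          simp only [hf]
          have hm : ∀ i : Fin n, Measurable fun y : ℂ => w a (x' i - y) := fun i =>
            (measurable_w a).comp (measurable_const.sub measurable_id)
          have hm2 : Measurable fun y : ℂ => ∑ i : Fin n, w a (x' i - y) :=
            Finset.measurable_sum _ fun i _ => hm i
          have hm3 : Measurable fun y : ℂ => 1 + κ * ∑ i : Fin n, w a (x' i - y) :=
            Measurable.const_add (Measurable.const_mul hm2 κ) 1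
          rw [lintegral_const_mul _ hm3, lintegral_add_left measurable_const,
            lintegral_const_mul _ hm2, lintegral_finsetSum _ (fun i _ => hm i)]
          simp only [lintegral_const, measure_univ, mul_one]
          gcongr
          calc ∑ i : Fin n, ∫⁻ y, w a (x' i - y) ∂μ ≤ ∑ i : Fin n, c :=
                Finset.sum_le_sum fun i _ => hc _
            _ = n * c := by simp
            _ ≤ N * c := by gcongr; omega
      _ = (∫⁻ x', Z a κ n x' ∂(Measure.pi fun _ => μ)) * (1 + κ * (N * c)) :=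
          lintegral_mul_const _ (measurable_Z a κ n)
      _ ≤ (1 + κ * (N * c)) ^ n * (1 + κ * (N * c)) := by gcongr
      _ = _ := (pow_succ _ _).symm

theorem lintegral_prod_fin (μ : Measure ℂ) [IsProbabilityMeasure μ] {f : ℂ → ℝ≥0∞}
    (hf : Measurable f) (n : ℕ) :
    ∫⁻ x : Fin n → ℂ, ∏ i, f (x i) ∂(Measure.pi fun _ => μ) = (∫⁻ z, f z ∂μ) ^ n := by
  induction n with
  | zero => simp
  | succ n ih =>
    have hmp := measurePreserving_piFinSuccAbove (fun _ : Fin (n + 1) => μ) 0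
    set F : ℂ × (Fin n → ℂ) → ℝ≥0∞ := fun p => f p.1 * ∏ i, f (p.2 i) with hF
    have hFm : Measurable F := by
      have h1 : Measurable fun p : ℂ × (Fin n → ℂ) => f p.1 := hf.comp measurable_fst
      have h2 : Measurable fun p : ℂ × (Fin n → ℂ) => ∏ i, f (p.2 i) :=
        Finset.measurable_prod _ fun i _ => hf.comp ((measurable_pi_apply _).comp measurable_snd)
      exact h1.mul h2
    have h1 : ∀ x : Fin (n + 1) → ℂ, ∏ i, f (x i) =
        F (MeasurableEquiv.piFinSuccAbove (fun _ => ℂ) 0 x) := by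
      intro x
      rw [Fin.prod_univ_succAbove _ 0]
      rfl
    calc ∫⁻ x : Fin (n + 1) → ℂ, ∏ i, f (x i) ∂(Measure.pi fun _ => μ)
        = ∫⁻ x, F (MeasurableEquiv.piFinSuccAbove (fun _ => ℂ) 0 x)
            ∂(Measure.pi fun _ => μ) := by simp_rw [h1]
      _ = ∫⁻ p, F p ∂(μ.prod (Measure.pi fun _ => μ)) := hmp.lintegral_comp hFm
      _ = ∫⁻ y, ∫⁻ x', F (y, x') ∂(Measure.pi fun _ => μ) ∂μ :=
          lintegral_prod F hFm.aemeasurable
      _ = ∫⁻ y, f y * (∫⁻ z, f z ∂μ) ^ n ∂μ := by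
          refine lintegral_congr fun y => ?_
          simp only [hF]
          have hm : Measurable fun x : Fin n → ℂ => ∏ i, f (x i) :=
            Finset.measurable_prod _ fun i _ => hf.comp (measurable_pi_apply _)
          rw [lintegral_const_mul _ hm, ih]
      _ = _ := by
          rw [lintegral_mul_const _ hf, pow_succ, mul_comm]

/-- The positive part of the logarithm. -/
noncomputable def L (a : ℝ) (z : ℂ) : ℝ := max (Real.log (a / ‖z‖)) 0

theorem exp_L {a : ℝ} (ha : 0 < a) (z : ℂ) : Real.exp (L a z) = max 1 (a / ‖z‖) := by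
  unfold L
  rcases eq_or_lt_of_le (norm_nonneg z) with h | h
  · rw [← h]; simp
  · have h1 : 0 < a / ‖z‖ := div_pos ha h
    rcases le_total 1 (a / ‖z‖) with h2 | h2
    · rw [max_eq_left (Real.log_nonneg h2), Real.exp_log h1, max_eq_right h2]
    · rw [max_eq_right (Real.log_nonpos h1.le h2), Real.exp_zero, max_eq_left h2]

theorem L_eq_zero {a : ℝ} (ha : 0 < a) {z : ℂ} (h : ¬ ‖z‖ < a) : L a z = 0 := by
  have h1 : 0 < ‖z‖ := by linarith
  unfold L
  exact max_eq_right (Real.log_nonpos (div_nonneg ha.le h1.le) ((div_le_one h1).2 (by linarith)))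

theorem L_zero (a : ℝ) : L a 0 = 0 := by simp [L]

theorem L_neg (a : ℝ) (z w : ℂ) : L a (z - w) = L a (w - z) := by
  unfold L
  rw [norm_sub_rev]

theorem wr_nonneg (a : ℝ) (z : ℂ) : 0 ≤ wr a z := by
  unfold wr
  split_ifs
  · exact le_trans zero_le_one (le_max_left _ _)
  · exact le_rfl

/-- Jensen for the exponential, via the tangent line. -/
theorem exp_avg_le {ι : Type*} (s : Finset ι) (l : ι → ℝ) {k : ℝ} (hk : 0 < k)
    (hs : (s.card : ℝ) ≤ k) :
    Real.exp ((∑ i ∈ s, l i) / k) ≤ 1 + 1 / k * ∑ i ∈ s, Real.exp (l i) := by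
  set θ := (∑ i ∈ s, l i) / k with hθ
  have hsum : ∑ i ∈ s, l i = k * θ := by rw [hθ]; field_simp
  have h1 : ∀ x : ℝ, Real.exp θ * (1 + x - θ) ≤ Real.exp x := by
    intro x
    have h2 := Real.add_one_le_exp (x - θ)
    calc Real.exp θ * (1 + x - θ) ≤ Real.exp θ * Real.exp (x - θ) := by
          apply mul_le_mul_of_nonneg_left _ (Real.exp_pos _).le
          linarith
      _ = Real.exp x := by rw [← Real.exp_add]; congr 1; ring
  have h3 : Real.exp θ * (s.card + k * θ - s.card * θ) ≤ ∑ i ∈ s, Real.exp (l i) := by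
    have : Real.exp θ * (s.card + k * θ - s.card * θ) = ∑ i ∈ s, Real.exp θ * (1 + l i - θ) := by
      rw [← Finset.mul_sum, Finset.sum_sub_distrib, Finset.sum_add_distrib, hsum]
      simp
    rw [this]
    exact Finset.sum_le_sum fun i _ => h1 _
  have h4 : Real.exp θ * (1 - θ) ≤ 1 := by
    have := h1 0
    simpa using this
  have h5 : (k - s.card) * (Real.exp θ * (1 - θ)) ≤ (k - s.card) * 1 :=
    mul_le_mul_of_nonneg_left h4 (by linarith)
  have h6 : k * Real.exp θ ≤ ∑ i ∈ s, Real.exp (l i) + k := by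
    have hc : (0:ℝ) ≤ s.card := Nat.cast_nonneg _
    nlinarith [h3, h5]
  rw [show Real.exp θ = 1 / k * (k * Real.exp θ) by field_simp]
  calc 1 / k * (k * Real.exp θ) ≤ 1 / k * (∑ i ∈ s, Real.exp (l i) + k) := by
        apply mul_le_mul_of_nonneg_left h6 (by positivity)
    _ = _ := by field_simp; ring

theorem step_le {a : ℝ} (ha : 0 < a) {n : ℕ} (x : Fin n → ℂ) (y : ℂ) {k : ℝ} (hk : 0 < k)
    (h : ((Finset.univ.filter fun i => ‖x i - y‖ < a).card : ℝ) ≤ k) :
    Real.exp ((∑ i, L a (x i - y)) / k) ≤ 1 + 1 / k * ∑ i, wr a (x i - y) := by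
  set s := Finset.univ.filter fun i => ‖x i - y‖ < a with hs
  have h1 : ∑ i, L a (x i - y) = ∑ i ∈ s, L a (x i - y) := by
    symm
    apply Finset.sum_subset (Finset.subset_univ _)
    intro i _ hi
    apply L_eq_zero ha
    intro hh
    exact hi (by rw [hs]; simp [hh])
  have h2 : ∑ i, wr a (x i - y) = ∑ i ∈ s, Real.exp (L a (x i - y)) := by
    rw [← Finset.sum_subset (Finset.subset_univ s)]
    · apply Finset.sum_congr rfl
      intro i hi
      rw [exp_L ha]
      have : ‖x i - y‖ < a := by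
        rw [hs] at hi
        exact (Finset.mem_filter.1 hi).2
      simp [wr, this]
    · intro i _ hi
      have : ¬ ‖x i - y‖ < a := fun hh => hi (by rw [hs]; simp [hh])
      simp [wr, this]
  rw [h1, h2]
  exact exp_avg_le s _ hk h

/-- Sum over ordered pairs, recursively. -/
noncomputable def S' (a : ℝ) : (n : ℕ) → (Fin n → ℂ) → ℝ
  | 0, _ => 0
  | n + 1, x => S' a n (fun i => x i.castSucc) +
      ∑ i : Fin n, L a (x i.castSucc - x (Fin.last n))

theorem S'_eq (a : ℝ) : ∀ (n : ℕ) (x : Fin n → ℂ), ∑ i, ∑ j, L a (x i - x j) = 2 * S' a n x := by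
  intro n
  induction n with
  | zero => intro x; simp [S']
  | succ n ih =>
    intro x
    rw [Fin.sum_univ_castSucc]
    simp_rw [Fin.sum_univ_castSucc (n := n) (f := fun j => L a (x _ - x j))]
    rw [Finset.sum_add_distrib, ih (fun i => x i.castSucc), sub_self, L_zero, S']
    have : ∑ i : Fin n, L a (x (Fin.last n) - x i.castSucc) =
        ∑ i : Fin n, L a (x i.castSucc - x (Fin.last n)) :=
      Finset.sum_congr rfl fun i _ => L_neg a _ _
    rw [this]
    ring

theorem exp_S'_le {a : ℝ} (ha : 0 < a) {k : ℝ} (hk : 0 < k) : ∀ (n : ℕ) (x : Fin n → ℂ),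
    (∀ j, ((Finset.univ.filter fun i => ‖x i - x j‖ < a).card : ℝ) ≤ k) →
    ENNReal.ofReal (Real.exp (S' a n x / k)) ≤ Z a (ENNReal.ofReal (1 / k)) n x := by
  intro n
  induction n with
  | zero => intro x _; simp [S', Z]
  | succ n ih =>
    intro x hx
    have h1 : ∀ y : ℂ, ((Finset.univ.filter fun i : Fin n => ‖x i.castSucc - y‖ < a).card : ℝ) ≤
        ((Finset.univ.filter fun i : Fin (n + 1) => ‖x i - y‖ < a).card : ℝ) := by
      intro y
      rw [Nat.cast_le]
      apply Finset.card_le_card_of_injOn (fun i => i.castSucc)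
      · intro i hi
        simpa using hi
      · exact fun i _ j _ h => Fin.castSucc_injective _ h
    have h2 := ih (fun i => x i.castSucc) (fun j => (h1 _).trans (hx j.castSucc))
    have h3 := step_le ha (fun i : Fin n => x i.castSucc) (x (Fin.last n)) hk
      ((h1 _).trans (hx (Fin.last n)))
    rw [S', Z, add_div, Real.exp_add, ENNReal.ofReal_mul (Real.exp_pos _).le]
    refine mul_le_mul' h2 ?_
    refine (ENNReal.ofReal_le_ofReal h3).trans ?_
    have h4 : 0 ≤ ∑ i : Fin n, wr a (x i.castSucc - x (Fin.last n)) :=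
      Finset.sum_nonneg fun i _ => wr_nonneg a _
    rw [ENNReal.ofReal_add zero_le_one (by positivity), ENNReal.ofReal_one,
      ENNReal.ofReal_mul (by positivity), ENNReal.ofReal_sum_of_nonneg fun i _ => wr_nonneg a _]
    rfl

theorem crowd_le {a : ℝ} (m : ℝ≥0∞) (μ : Measure ℂ) [IsProbabilityMeasure μ]
    {c : ℝ≥0∞} (hc : ∀ y, ∫⁻ z, w a (y - z) ∂μ ≤ c) (n k : ℕ) (j : Fin (n + 1)) :
    (1 + m) ^ k * (Measure.pi fun _ => μ) {x : Fin (n + 1) → ℂ |
      k < (Finset.univ.filter fun i => ‖x i - x j‖ < a).card} ≤ (1 + m * c) ^ n := by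
  set F : (Fin (n + 1) → ℂ) → ℝ≥0∞ := fun x =>
    ∏ i : Fin n, (1 + m * w a (x j - x (j.succAbove i))) with hF
  set G : ℂ × (Fin n → ℂ) → ℝ≥0∞ := fun p => ∏ i : Fin n, (1 + m * w a (p.1 - p.2 i)) with hG
  have hGm : Measurable G := by
    refine Finset.measurable_prod _ fun i _ => ?_
    have h2 : Measurable fun p : ℂ × (Fin n → ℂ) => w a (p.1 - p.2 i) :=
      (measurable_w a).comp (measurable_fst.sub ((measurable_pi_apply _).comp measurable_snd))
    exact Measurable.const_add (Measurable.const_mul h2 m) 1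
  have hmp := measurePreserving_piFinSuccAbove (fun _ : Fin (n + 1) => μ) j
  have hFG : ∀ x, F x = G (MeasurableEquiv.piFinSuccAbove (fun _ => ℂ) j x) := fun x => rfl
  have hFm : Measurable F := by
    have := hGm.comp (MeasurableEquiv.piFinSuccAbove (fun _ => ℂ) j).measurable
    exact this
  have h1 : {x : Fin (n + 1) → ℂ | k < (Finset.univ.filter fun i => ‖x i - x j‖ < a).card} ⊆
      {x | (1 + m) ^ k ≤ F x} := by
    intro x hx
    simp only [Set.mem_ofPred_eq] at hx ⊢
    set s : Finset (Fin n) := Finset.univ.filter fun i => ‖x (j.succAbove i) - x j‖ < a with hs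
    have h2 : (Finset.univ.filter fun i => ‖x i - x j‖ < a) ⊆
        insert j (s.image j.succAbove) := by
      intro i hi
      rw [Finset.mem_filter] at hi
      rcases eq_or_ne i j with rfl | hij
      · exact Finset.mem_insert_self _ _
      · obtain ⟨i', rfl⟩ := Fin.exists_succAbove_eq hij
        refine Finset.mem_insert_of_mem (Finset.mem_image_of_mem _ ?_)
        rw [hs, Finset.mem_filter]
        exact ⟨Finset.mem_univ _, hi.2⟩
    have h3 : k ≤ s.card := by
      have h4 := (Finset.card_le_card h2).trans (Finset.card_insert_le _ _)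
      have h5 : (s.image j.succAbove).card ≤ s.card := Finset.card_image_le
      omega
    calc (1 + m) ^ k ≤ (1 + m) ^ s.card := pow_le_pow_right₀ (by simp) h3
      _ = ∏ i ∈ s, (1 + m) := by rw [Finset.prod_const]
      _ ≤ ∏ i ∈ s, (1 + m * w a (x j - x (j.succAbove i))) := by
          refine Finset.prod_le_prod' fun i hi => ?_
          have h6 : 1 ≤ w a (x j - x (j.succAbove i)) := by
            rw [hs, Finset.mem_filter] at hi
            have h7 : ‖x j - x (j.succAbove i)‖ < a := by rw [norm_sub_rev]; exact hi.2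
            unfold w wr
            rw [if_pos h7, ENNReal.one_le_ofReal]
            exact le_max_left _ _
          calc 1 + m = 1 + m * 1 := by rw [mul_one]
            _ ≤ _ := by gcongr
      _ ≤ F x := by
          rw [hF]
          refine Finset.prod_le_univ_prod_of_one_le' fun i => ?_
          simp
  calc (1 + m) ^ k * (Measure.pi fun _ => μ) {x : Fin (n + 1) → ℂ |
      k < (Finset.univ.filter fun i => ‖x i - x j‖ < a).card}
      ≤ (1 + m) ^ k * (Measure.pi fun _ => μ) {x | (1 + m) ^ k ≤ F x} := by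
        gcongr
    _ ≤ ∫⁻ x, F x ∂(Measure.pi fun _ => μ) := mul_meas_ge_le_lintegral hFm _
    _ = ∫⁻ x, G (MeasurableEquiv.piFinSuccAbove (fun _ => ℂ) j x) ∂(Measure.pi fun _ => μ) := by
        simp_rw [hFG]
    _ = ∫⁻ p, G p ∂(μ.prod (Measure.pi fun _ => μ)) := hmp.lintegral_comp hGm
    _ = ∫⁻ y, ∫⁻ x', G (y, x') ∂(Measure.pi fun _ => μ) ∂μ := lintegral_prod G hGm.aemeasurable
    _ ≤ ∫⁻ y, (1 + m * c) ^ n ∂μ := by
        refine lintegral_mono fun y => ?_
        simp only [hG]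
        have hm : Measurable fun z : ℂ => w a (y - z) :=
          (measurable_w a).comp (measurable_const.sub measurable_id)
        have hm2 : Measurable fun z : ℂ => 1 + m * w a (y - z) :=
          Measurable.const_add (Measurable.const_mul hm m) 1
        rw [lintegral_prod_fin μ hm2]
        gcongr
        rw [lintegral_add_left measurable_const, lintegral_const_mul _ hm]
        simp only [lintegral_const, measure_univ, mul_one]
        gcongr
        exact hc y
    _ = (1 + m * c) ^ n := by simp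

theorem toReal_bound {A B : ℝ} (hA : 0 < A) (hB : 0 ≤ B) {t : ℝ≥0∞}
    (h : ENNReal.ofReal A * t ≤ ENNReal.ofReal B) : t.toReal ≤ B / A := by
  have h1 := ENNReal.toReal_mono ENNReal.ofReal_ne_top h
  rw [ENNReal.toReal_mul, ENNReal.toReal_ofReal hA.le, ENNReal.toReal_ofReal hB] at h1
  rw [le_div_iff₀ hA]
  linarith

/-- The main estimate for `Fin (n + 1)`. -/
theorem main_fin (μ : Measure ℂ) [IsProbabilityMeasure μ] {a c : ℝ} (ha : 0 < a) (hc0 : 0 ≤ c)
    (hc : ∀ y, ∫⁻ z, w a (y - z) ∂μ ≤ ENNReal.ofReal c) (n k : ℕ) (hk : 0 < k) {m : ℝ}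
    (hm : 0 < m) (T : ℝ) :
    (Measure.pi fun _ => μ).real {x : Fin (n + 1) → ℂ | T ≤ ∑ i, ∑ j, L a (x i - x j)} ≤
      (n + 1 : ℝ) * ((1 + m * c) ^ n / (1 + m) ^ k) +
      (1 + 1 / k * ((n + 1 : ℝ) * c)) ^ (n + 1) / Real.exp (T / (2 * k)) := by
  have hk' : (0:ℝ) < k := by exact_mod_cast hk
  set P : Measure (Fin (n + 1) → ℂ) := Measure.pi fun _ => μ with hP
  set A : Fin (n + 1) → Set (Fin (n + 1) → ℂ) := fun j =>
    {x | k < (Finset.univ.filter fun i => ‖x i - x j‖ < a).card} with hA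
  set B : Set (Fin (n + 1) → ℂ) :=
    {x | ENNReal.ofReal (Real.exp (T / (2 * k))) ≤ Z a (ENNReal.ofReal (1 / k)) (n + 1) x} with hB
  have hsub : {x : Fin (n + 1) → ℂ | T ≤ ∑ i, ∑ j, L a (x i - x j)} ⊆ (⋃ j, A j) ∪ B := by
    intro x hx
    by_cases h : ∃ j, x ∈ A j
    · exact Or.inl (Set.mem_iUnion.2 h)
    · right
      push Not at h
      have h1 : ∀ j, ((Finset.univ.filter fun i => ‖x i - x j‖ < a).card : ℝ) ≤ k := by
        intro j
        have := h j
        simp only [hA, Set.mem_ofPred_eq, not_lt] at this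
        exact_mod_cast this
      have h2 := exp_S'_le ha hk' (n + 1) x h1
      refine le_trans (ENNReal.ofReal_le_ofReal (Real.exp_le_exp.2 ?_)) h2
      have h3 : T ≤ 2 * S' a (n + 1) x := by
        rw [← S'_eq]; exact hx
      rw [div_le_div_iff₀ (by positivity) hk']
      nlinarith
  have hA1 : ∀ j, P.real (A j) ≤ (1 + m * c) ^ n / (1 + m) ^ k := by
    intro j
    have h1 := crowd_le (a := a) (ENNReal.ofReal m) μ hc n k j
    have e1 : (1 + ENNReal.ofReal m) ^ k = ENNReal.ofReal ((1 + m) ^ k) := by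
      rw [ENNReal.ofReal_pow (by positivity), ENNReal.ofReal_add zero_le_one hm.le,
        ENNReal.ofReal_one]
    have e2 : (1 + ENNReal.ofReal m * ENNReal.ofReal c) ^ n = ENNReal.ofReal ((1 + m * c) ^ n) := by
      rw [ENNReal.ofReal_pow (by positivity), ENNReal.ofReal_add zero_le_one (by positivity),
        ENNReal.ofReal_one, ENNReal.ofReal_mul hm.le]
    rw [e1, e2] at h1
    exact toReal_bound (by positivity) (by positivity) h1
  have hB1 : P.real B ≤ (1 + 1 / k * ((n + 1 : ℝ) * c)) ^ (n + 1) / Real.exp (T / (2 * k)) := by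
    have h1 := lintegral_Z a (ENNReal.ofReal (1 / k)) μ hc (n + 1) (n + 1) le_rfl
    have h2 := mul_meas_ge_le_lintegral (μ := P) (measurable_Z a (ENNReal.ofReal (1 / k)) (n + 1))
      (ENNReal.ofReal (Real.exp (T / (2 * k))))
    have h3 := h2.trans h1
    have e1 : (1 + ENNReal.ofReal (1 / k) * (((n + 1 : ℕ) : ℝ≥0∞) * ENNReal.ofReal c)) ^ (n + 1) =
        ENNReal.ofReal ((1 + 1 / k * ((n + 1 : ℝ) * c)) ^ (n + 1)) := by
      rw [ENNReal.ofReal_pow (by positivity), ENNReal.ofReal_add zero_le_one (by positivity),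
        ENNReal.ofReal_one, ENNReal.ofReal_mul (by positivity), ENNReal.ofReal_mul (by positivity)]
      congr 4
      rw [show (n + 1 : ℝ) = ((n + 1 : ℕ) : ℝ) by push_cast; ring, ENNReal.ofReal_natCast]
    rw [e1] at h3
    exact toReal_bound (Real.exp_pos _) (by positivity) h3
  calc P.real {x : Fin (n + 1) → ℂ | T ≤ ∑ i, ∑ j, L a (x i - x j)}
      ≤ P.real ((⋃ j, A j) ∪ B) := measureReal_mono hsub
    _ ≤ P.real (⋃ j, A j) + P.real B := measureReal_union_le _ _
    _ ≤ ∑ j, P.real (A j) + P.real B := by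
        gcongr
        exact measureReal_iUnion_fintype_le _
    _ ≤ ∑ j : Fin (n + 1), ((1 + m * c) ^ n / (1 + m) ^ k) + P.real B := by
        gcongr with j
        exact hA1 j
    _ ≤ _ := by
        rw [Finset.sum_const, Finset.card_univ, Fintype.card_fin, nsmul_eq_mul]
        push_cast
        gcongr

/-- Transport to an arbitrary finite index type. -/
theorem transport (μ : Measure ℂ) [IsProbabilityMeasure μ] (a T : ℝ) (ι : Type) [Fintype ι]
    [DecidableEq ι] {N : ℕ} (e : Fin N ≃ ι) :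
    (Measure.pi fun _ : ι => μ).real {x : ι → ℂ | T ≤
      ∑ i, ∑ j ∈ Finset.univ.erase i, max (Real.log (a / ‖x i - x j‖)) 0} =
    (Measure.pi fun _ => μ).real {x : Fin N → ℂ | T ≤ ∑ i, ∑ j, L a (x i - x j)} := by
  have hmp := measurePreserving_piCongrLeft (fun _ : ι => μ) e
  unfold Measure.real
  rw [← hmp.measure_preimage_equiv]
  congr 2
  ext x
  simp only [Set.mem_preimage, Set.mem_ofPred_eq]
  have h1 : ∀ i, MeasurableEquiv.piCongrLeft (fun _ : ι => ℂ) e x (e i) = x i := fun i =>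
    Equiv.piCongrLeft_apply_apply (fun _ : ι => ℂ) e x i
  set y := MeasurableEquiv.piCongrLeft (fun _ : ι => ℂ) e x with hy
  have h2 : ∑ i, ∑ j ∈ Finset.univ.erase i, max (Real.log (a / ‖y i - y j‖)) 0 =
      ∑ i, ∑ j, L a (x i - x j) := by
    rw [← e.sum_comp]
    refine Finset.sum_congr rfl fun i _ => ?_
    rw [Finset.sum_erase]
    · rw [← e.sum_comp]
      refine Finset.sum_congr rfl fun j _ => ?_
      rw [h1, h1]
      rfl
    · simp
  rw [h2]

theorem numeric {η K α c : ℝ} {N k : ℕ} (hη : 0 < η) (hK : 0 < K) (hα : α = η / (24 * K))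
    (hc0 : 0 ≤ c) (hc1 : c ≤ η / 8) (hc2 : Real.exp ((3 * K + 1) / α) * c ≤ 1)
    (hk1 : α * (N + 1 : ℝ) ≤ k) (hk2 : (k : ℝ) ≤ 2 * (α * (N + 1 : ℝ)))
    (hN : 1 ≤ 2 * K ^ 2 * (N + 1 : ℝ)) :
    (N + 1 : ℝ) * ((1 + Real.exp ((3 * K + 1) / α) * c) ^ N /
        (1 + Real.exp ((3 * K + 1) / α)) ^ k) +
      (1 + 1 / k * ((N + 1 : ℝ) * c)) ^ (N + 1) / Real.exp (η * (N + 1 : ℝ) ^ 2 / (2 * k)) ≤
      Real.exp (-(K * (N + 1 : ℝ))) := by
  have hα0 : 0 < α := by rw [hα]; positivity
  have hN1 : (0:ℝ) < N + 1 := by positivity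
  have hk0 : (0:ℝ) < k := lt_of_lt_of_le (by positivity) hk1
  set n1 : ℝ := (N:ℝ) + 1 with hn1
  set m := Real.exp ((3 * K + 1) / α) with hm
  have hm0 : 0 < m := Real.exp_pos _
  -- first term
  have t1 : (1 + m * c) ^ N ≤ Real.exp n1 := by
    calc (1 + m * c) ^ N ≤ (Real.exp (m * c)) ^ N := by
          apply pow_le_pow_left₀ (by positivity)
          linarith [Real.add_one_le_exp (m * c)]
      _ = Real.exp (N * (m * c)) := by rw [← Real.exp_nat_mul]
      _ ≤ Real.exp n1 := by
          apply Real.exp_le_exp.2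
          have : (0:ℝ) ≤ N := Nat.cast_nonneg _
          nlinarith
  have t2 : Real.exp (n1 * (3 * K + 1)) ≤ (1 + m) ^ k := by
    calc Real.exp (n1 * (3 * K + 1)) ≤ Real.exp (k * ((3 * K + 1) / α)) := by
          apply Real.exp_le_exp.2
          rw [← mul_div_assoc, le_div_iff₀ hα0]
          nlinarith
      _ = m ^ k := by rw [hm, ← Real.exp_nat_mul]
      _ ≤ (1 + m) ^ k := by
          apply pow_le_pow_left₀ hm0.le
          linarith
  have t3 : (1 + m * c) ^ N / (1 + m) ^ k ≤ Real.exp (-(3 * K * n1)) := by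
    rw [div_le_iff₀ (by positivity)]
    calc (1 + m * c) ^ N ≤ Real.exp n1 := t1
      _ = Real.exp (-(3 * K * n1)) * Real.exp (n1 * (3 * K + 1)) := by
          rw [← Real.exp_add]; congr 1; ring
      _ ≤ _ := by gcongr
  -- second term
  have s1 : (1 + 1 / k * (n1 * c)) ^ (N + 1) ≤ Real.exp (n1 * c / α) := by
    have h1 : 1 / k * (n1 * c) ≤ c / α := by
      rw [div_mul_eq_mul_div, one_mul, div_le_div_iff₀ hk0 hα0]
      nlinarith
    calc (1 + 1 / k * (n1 * c)) ^ (N + 1) ≤ (Real.exp (c / α)) ^ (N + 1) := by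
          apply pow_le_pow_left₀ (by positivity)
          linarith [Real.add_one_le_exp (c / α)]
      _ = Real.exp (((N + 1 : ℕ) : ℝ) * (c / α)) := by rw [← Real.exp_nat_mul]
      _ = Real.exp (n1 * c / α) := by
          congr 1
          push_cast
          rw [hn1]
          ring
  have s2 : Real.exp (η * n1 / (4 * α)) ≤ Real.exp (η * n1 ^ 2 / (2 * k)) := by
    apply Real.exp_le_exp.2
    rw [div_le_div_iff₀ (by positivity) (by positivity)]
    have : η * n1 * (2 * k) ≤ η * n1 * (2 * (2 * (α * n1))) := by gcongr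
    nlinarith
  have s3 : (1 + 1 / k * (n1 * c)) ^ (N + 1) / Real.exp (η * n1 ^ 2 / (2 * k)) ≤
      Real.exp (-(3 * K * n1)) := by
    rw [div_le_iff₀ (Real.exp_pos _)]
    calc (1 + 1 / k * (n1 * c)) ^ (N + 1) ≤ Real.exp (n1 * c / α) := s1
      _ ≤ Real.exp (-(3 * K * n1)) * Real.exp (η * n1 / (4 * α)) := by
          rw [← Real.exp_add]
          apply Real.exp_le_exp.2
          have h1 : 3 * K = η / (8 * α) := by
            rw [hα]; field_simp; norm_num
          rw [h1]
          have h2 : n1 * c / α ≤ n1 * (η / 8) / α := by gcongr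
          have h3 : n1 * (η / 8) / α = -(η / (8 * α) * n1) + η * n1 / (4 * α) := by
            field_simp; ring
          linarith
      _ ≤ _ := by gcongr
  have f1 : n1 + 1 ≤ Real.exp (2 * K * n1) := by
    have h1 := Real.quadratic_le_exp_of_nonneg (x := 2 * K * n1) (by positivity)
    have h2 : 0 < 2 * K * n1 := by positivity
    nlinarith
  calc n1 * ((1 + m * c) ^ N / (1 + m) ^ k) +
      (1 + 1 / k * (n1 * c)) ^ (N + 1) / Real.exp (η * n1 ^ 2 / (2 * k))
      ≤ n1 * Real.exp (-(3 * K * n1)) + Real.exp (-(3 * K * n1)) := by gcongr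
    _ = (n1 + 1) * Real.exp (-(3 * K * n1)) := by ring
    _ ≤ Real.exp (2 * K * n1) * Real.exp (-(3 * K * n1)) := by gcongr
    _ = Real.exp (-(K * n1)) := by rw [← Real.exp_add]; congr 1; ring

end PairLogAux

open PairLogAux in
/-- Close pairs contribute little to the energy, with super-exponentially small exceptions. -/
theorem pair_log {Λ : Set ℂ} {g : ℂ → ℂ → ℝ} (hD : Dom Λ g) {η K : ℝ} (hη : 0 < η) (hK : 0 < K) :
    ∃ (a : ℝ) (N₀ : ℕ), 0 < a ∧ a ≤ 1 ∧ ∀ (ι : Type) [Fintype ι] [DecidableEq ι],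
      N₀ ≤ Fintype.card ι →
      (PP Λ ι).real {x | η * (Fintype.card ι : ℝ) ^ 2 ≤
          ∑ i, ∑ j ∈ Finset.univ.erase i, max (Real.log (a / ‖x i - x j‖)) 0} ≤
        Real.exp (-(K * Fintype.card ι)) := by
  set V := volume.real Λ with hV
  have hV0 : 0 < V := vol_pos hD
  have hprob := isProb_unif hD
  set α := η / (24 * K) with hα
  have hα0 : 0 < α := by positivity
  set c₀ := min (η / 8) (1 / Real.exp ((3 * K + 1) / α)) with hc₀
  have hc₀0 : 0 < c₀ := lt_min (by positivity) (by positivity)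
  set b := Real.sqrt (c₀ * V / (2 * Real.pi)) with hb
  have hb0 : 0 < b := Real.sqrt_pos.2 (by positivity)
  set a := min 1 b with ha
  have ha0 : 0 < a := lt_min one_pos hb0
  have ha1 : a ≤ 1 := min_le_left _ _
  set c := V⁻¹ * (2 * Real.pi * a ^ 2) with hc
  have hc0 : 0 ≤ c := by positivity
  have hcc : c ≤ c₀ := by
    have h1 : a ^ 2 ≤ b ^ 2 := pow_le_pow_left₀ ha0.le (min_le_right _ _) 2
    rw [hb, Real.sq_sqrt (by positivity)] at h1
    calc c ≤ V⁻¹ * (2 * Real.pi * (c₀ * V / (2 * Real.pi))) := by rw [hc]; gcongr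
      _ = c₀ := by field_simp
  have hfin : volume Λ ≠ ⊤ := by
    intro h
    rw [hV, Measure.real, h] at hV0
    simp at hV0
  have hw : ∀ y, ∫⁻ z, w a (y - z) ∂(unif Λ) ≤ ENNReal.ofReal c := by
    intro y
    refine (setLIntegral_w_sub ha0 Λ y).trans ?_
    have h1 : ENNReal.ofReal c = ENNReal.ofReal V⁻¹ * ENNReal.ofReal (2 * Real.pi * a ^ 2) :=
      ENNReal.ofReal_mul (inv_nonneg.2 hV0.le)
    rw [h1, ENNReal.ofReal_inv_of_pos hV0, hV, Measure.real, ENNReal.ofReal_toReal hfin]
  refine ⟨a, ⌈1 / α⌉₊ + ⌈1 / (2 * K ^ 2)⌉₊ + 1, ha0, ha1, ?_⟩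
  intro ι _ _ hcard
  obtain ⟨N, hN⟩ : ∃ N, Fintype.card ι = N + 1 := ⟨Fintype.card ι - 1, by omega⟩
  have e : Fin (N + 1) ≃ ι := (Fintype.equivFinOfCardEq hN).symm
  have hN1 : 1 / α ≤ (N : ℝ) + 1 := by
    have h1 : (⌈1 / α⌉₊ : ℝ) ≤ ((N + 1 : ℕ) : ℝ) := by
      rw [Nat.cast_le]; omega
    push_cast at h1
    exact (Nat.le_ceil _).trans h1
  have hN2 : 1 / (2 * K ^ 2) ≤ (N : ℝ) + 1 := by
    have h1 : (⌈1 / (2 * K ^ 2)⌉₊ : ℝ) ≤ ((N + 1 : ℕ) : ℝ) := by
      rw [Nat.cast_le]; omega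
    push_cast at h1
    exact (Nat.le_ceil _).trans h1
  set k := ⌈α * ((N : ℝ) + 1)⌉₊ with hk
  have hk1 : α * ((N : ℝ) + 1) ≤ k := Nat.le_ceil _
  have hk2 : (k : ℝ) ≤ 2 * (α * ((N : ℝ) + 1)) := by
    have h1 : (k : ℝ) < α * ((N : ℝ) + 1) + 1 := Nat.ceil_lt_add_one (by positivity)
    have h2 : 1 ≤ α * ((N : ℝ) + 1) := by
      rw [div_le_iff₀ hα0] at hN1
      linarith
    linarith
  have hk0 : 0 < k := by
    rw [hk, Nat.ceil_pos]; positivity
  have hN3 : 1 ≤ 2 * K ^ 2 * ((N : ℝ) + 1) := by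
    rw [div_le_iff₀ (by positivity)] at hN2
    linarith
  have hcast : (Fintype.card ι : ℝ) = (N : ℝ) + 1 := by rw [hN]; push_cast; ring
  rw [hcast]
  unfold PP
  rw [transport (unif Λ) a _ ι e]
  refine (main_fin (unif Λ) ha0 hc0 hw N k hk0 (Real.exp_pos ((3 * K + 1) / α)) _).trans ?_
  refine numeric hη hK hα hc0 (hcc.trans (min_le_left _ _)) ?_ hk1 hk2 hN3
  have h1 : c ≤ 1 / Real.exp ((3 * K + 1) / α) := hcc.trans (min_le_right _ _)
  rw [le_div_iff₀ (Real.exp_pos _)] at h1
  linarith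

end Pool.Agent.Lib.MP_fa244c_mp
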