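import Pool.Agent.Lib.MP_fa244c_mp.Core

set_option autoImplicit false

open MeasureTheory Filter Topology Set Metric

namespace Pool.Agent.Lib.MP_fa244c_mp

theorem SGLin_sum_re {J : Type} [Fintype J] (v : J → ℂ) :
    ∑ j, ((v j).re * (v j).re + (v j).im * (v j).im) = ∑ j, ‖v j‖ ^ 2 := by
  refine Finset.sum_congr rfl fun j _ => ?_
  rw [← Complex.normSq_eq_norm_sq, Complex.normSq_apply]

/-- Linear algebra: a real quadratic form on `ℂ^p` whose complex Hessian is at most `-4t` is at
most `-2t` on a real subspace of dimension at least `p`. -/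
theorem exists_negative_subspace {J : Type} [Fintype J]
    (q : (J → ℂ) →L[ℝ] (J → ℂ) →L[ℝ] ℝ) (hq : ∀ v w, q v w = q w v) {t : ℝ} (ht : 0 < t)
    (hl : ∀ v : J → ℂ, q v v + q (fun j => Complex.I * v j) (fun j => Complex.I * v j) ≤
      - (4 * t * ∑ j, ‖v j‖ ^ 2)) :
    ∃ W : Submodule ℝ (J → ℂ), Fintype.card J ≤ Module.finrank ℝ W ∧
      ∀ v ∈ W, q v v ≤ - (2 * t * ∑ j, ‖v j‖ ^ 2) := by
  classical
  -- the form `q + 2t⟨,⟩`
  let B : LinearMap.BilinForm ℝ (J → ℂ) := LinearMap.mk₂ ℝ
    (fun v w => q v w + 2 * t * ∑ j, ((v j).re * (w j).re + (v j).im * (w j).im))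
    (fun v v' w => by
      simp only [map_add, add_apply, Pi.add_apply, Complex.add_re, Complex.add_im]
      have : ∀ j, ((v j).re + (v' j).re) * (w j).re + ((v j).im + (v' j).im) * (w j).im =
        ((v j).re * (w j).re + (v j).im * (w j).im) +
        ((v' j).re * (w j).re + (v' j).im * (w j).im) := fun j => by ring
      simp only [this, Finset.sum_add_distrib]
      ring)
    (fun c v w => by
      simp only [map_smul, smul_apply, Pi.smul_apply, Complex.smul_re,
        Complex.smul_im, smul_eq_mul]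
      have : ∀ j, c * (v j).re * (w j).re + c * (v j).im * (w j).im =
        c * ((v j).re * (w j).re + (v j).im * (w j).im) := fun j => by ring
      simp only [this, ← Finset.mul_sum]
      ring)
    (fun v w w' => by
      simp only [map_add, Pi.add_apply, Complex.add_re, Complex.add_im]
      have : ∀ j, (v j).re * ((w j).re + (w' j).re) + (v j).im * ((w j).im + (w' j).im) =
        ((v j).re * (w j).re + (v j).im * (w j).im) +
        ((v j).re * (w' j).re + (v j).im * (w' j).im) := fun j => by ring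
      simp only [this, Finset.sum_add_distrib]
      ring)
    (fun c v w => by
      simp only [map_smul, Pi.smul_apply, Complex.smul_re, Complex.smul_im, smul_eq_mul]
      have : ∀ j, (v j).re * (c * (w j).re) + (v j).im * (c * (w j).im) =
        c * ((v j).re * (w j).re + (v j).im * (w j).im) := fun j => by ring
      simp only [this, ← Finset.mul_sum]
      ring)
  have hB : ∀ v w, B v w = q v w + 2 * t * ∑ j, ((v j).re * (w j).re + (v j).im * (w j).im) :=
    fun v w => rfl
  have hBB : ∀ v, B v v = q v v + 2 * t * ∑ j, ‖v j‖ ^ 2 := fun v => by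
    rw [hB, SGLin_sum_re]
  have hsymm : B.IsSymm := by
    refine ⟨fun v w => ?_⟩
    simp only [hB]
    rw [hq v w]
    congr 2
    exact Finset.sum_congr rfl fun j _ => by ring
  obtain ⟨b, hb⟩ := LinearMap.BilinForm.exists_orthogonal_basis
    (LinearMap.BilinForm.isSymm_iff.1 hsymm)
  rw [LinearMap.isOrthoᵢ_def] at hb
  have hfr : Module.finrank ℝ (J → ℂ) = 2 * Fintype.card J := by
    rw [Module.finrank_pi_fintype]
    simp only [Complex.finrank_real_complex, Finset.sum_const, Finset.card_univ, smul_eq_mul]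
    ring
  have hexp : ∀ v, B v v = ∑ i, b.repr v i ^ 2 * B (b i) (b i) := by
    intro v
    conv_lhs => rw [← b.sum_repr v]
    simp only [map_sum, map_smul, LinearMap.sum_apply, LinearMap.smul_apply, smul_eq_mul]
    refine Finset.sum_congr rfl fun i _ => ?_
    rw [Finset.sum_eq_single i]
    · ring
    · intro j _ hji
      rw [hb j i hji]
      ring
    · intro h
      exact absurd (Finset.mem_univ i) h
  let P : Set (Fin (Module.finrank ℝ (J → ℂ))) := {i | 0 < B (b i) (b i)}
  let Wp : Submodule ℝ (J → ℂ) := Submodule.span ℝ (Set.range fun i : P => b i)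
  let Wm : Submodule ℝ (J → ℂ) := Submodule.span ℝ (Set.range fun i : (Pᶜ : Set _) => b i)
  have hWp : ∀ v ∈ Wp, ∀ i, i ∉ P → b.repr v i = 0 := by
    intro v hv i hi
    have h1 : v ∈ Submodule.span ℝ (b '' P) := by rw [Set.image_eq_range]; exact hv
    rw [Module.Basis.mem_span_image] at h1
    by_contra h2
    exact hi (h1 (by simpa using h2))
  have hWm : ∀ v ∈ Wm, ∀ i, i ∈ P → b.repr v i = 0 := by
    intro v hv i hi
    have h1 : v ∈ Submodule.span ℝ (b '' Pᶜ) := by rw [Set.image_eq_range]; exact hv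
    rw [Module.Basis.mem_span_image] at h1
    by_contra h2
    exact (h1 (by simpa using h2) : i ∈ Pᶜ) hi
  have hneg : ∀ v ∈ Wm, B v v ≤ 0 := by
    intro v hv
    rw [hexp]
    refine Finset.sum_nonpos fun i _ => ?_
    by_cases hi : i ∈ P
    · rw [hWm v hv i hi]; simp
    · exact mul_nonpos_of_nonneg_of_nonpos (sq_nonneg _) (not_lt.1 hi)
  have hpos : ∀ v ∈ Wp, v ≠ 0 → 0 < B v v := by
    intro v hv hv0
    rw [hexp]
    obtain ⟨i, hi⟩ : ∃ i, b.repr v i ≠ 0 := by
      by_contra hcon
      push Not at hcon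
      apply hv0
      rw [← b.sum_repr v]
      simp [hcon]
    refine Finset.sum_pos' (fun j _ => ?_) ⟨i, Finset.mem_univ i, ?_⟩
    · by_cases hj : j ∈ P
      · exact mul_nonneg (sq_nonneg _) (le_of_lt hj)
      · rw [hWp v hv j hj]; simp
    · have hiP : i ∈ P := by
        by_contra hcon
        exact hi (hWp v hv i hcon)
      exact mul_pos (by positivity) hiP
  have hfp : Module.finrank ℝ Wp = Fintype.card P :=
    finrank_span_eq_card (b.linearIndependent.comp _ Subtype.val_injective)
  have hfm : Module.finrank ℝ Wm = Fintype.card (Pᶜ : Set _) :=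
    finrank_span_eq_card (b.linearIndependent.comp _ Subtype.val_injective)
  have hcard : Fintype.card P + Fintype.card (Pᶜ : Set _) = 2 * Fintype.card J := by
    have h1 := Fintype.card_compl_set P
    have h2 : Fintype.card P ≤ Fintype.card (Fin (Module.finrank ℝ (J → ℂ))) :=
      Fintype.card_subtype_le _
    rw [Fintype.card_fin] at h1 h2
    omega
  let e : (J → ℂ) ≃ₗ[ℝ] (J → ℂ) :=
    (LinearEquiv.smulOfNeZero ℂ (J → ℂ) Complex.I Complex.I_ne_zero).restrictScalars ℝ
  have he : ∀ v : J → ℂ, e v = fun j => Complex.I * v j := fun v => rfl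
  have hdisj : Disjoint Wp (Wp.map (e : (J → ℂ) →ₗ[ℝ] (J → ℂ))) := by
    rw [Submodule.disjoint_def]
    intro v hv1 hv2
    by_contra hv0
    obtain ⟨u, hu, hue⟩ := hv2
    have hue' : e u = v := hue
    have hu0 : u ≠ 0 := by
      rintro rfl
      apply hv0
      rw [← hue', map_zero]
    have h1 := hpos v hv1 hv0
    have h2 := hpos u hu hu0
    rw [← hue', hBB, he] at h1
    rw [hBB] at h2
    have h3 := hl u
    have h4 : ∑ j, ‖Complex.I * u j‖ ^ 2 = ∑ j, ‖u j‖ ^ 2 := by
      simp only [norm_mul, Complex.norm_I, one_mul]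
    rw [h4] at h1
    linarith
  have hle := Submodule.finrank_add_finrank_le_of_disjoint hdisj
  rw [LinearEquiv.finrank_map_eq, hfp] at hle
  refine ⟨Wm, ?_, fun v hv => ?_⟩
  · rw [hfm]
    omega
  · have := hneg v hv
    rw [hBB] at this
    linarith

end Pool.Agent.Lib.MP_fa244c_mp
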