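import Pool.Agent.Lib.MP_fa244c_mp.Core

set_option autoImplicit false

open MeasureTheory Filter Topology Set Metric

namespace Pool.Agent.Lib.MP_fa244c_mp

theorem SGPack_ball {J : Type} [Fintype J] (x₀ : J → ℂ) {r : ℝ} (hr : 0 < r) :
    volume (ball x₀ r) = ENNReal.ofReal ((Real.pi * r ^ 2) ^ Fintype.card J) := by
  rw [ball_pi _ hr, volume_pi_pi]
  simp only [Complex.volume_ball]
  rw [Finset.prod_const, Finset.card_univ, ENNReal.ofReal_pow (by positivity)]
  congr 1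
  rw [ENNReal.ofReal_mul Real.pi_pos.le, ENNReal.ofReal_pow hr.le, mul_comm,
    ← NNReal.coe_real_pi, ENNReal.ofReal_coe_nnreal]

/-- an orthonormal system in `W` -/
theorem SGPack_vectors {J : Type} [Fintype J] (W : Submodule ℝ (J → ℂ)) {p : ℕ}
    (hp : p ≤ Module.finrank ℝ W) :
    ∃ b : Fin p → (J → ℂ), (∀ l, b l ∈ W) ∧
      ∀ n : Fin p → ℝ, ∑ j, ‖(∑ l, n l • b l) j‖ ^ 2 = ∑ l, n l ^ 2 := by
  classical
  let L : PiLp 2 (fun _ : J => ℂ) ≃ₗ[ℝ] (J → ℂ) := WithLp.linearEquiv 2 ℝ (J → ℂ)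
  let W' : Submodule ℝ (PiLp 2 (fun _ : J => ℂ)) :=
    W.comap (L : PiLp 2 (fun _ : J => ℂ) →ₗ[ℝ] (J → ℂ))
  have hp' : p ≤ Module.finrank ℝ W' := by
    rw [LinearEquiv.finrank_eq (L.ofSubmodule' W)]
    exact hp
  let B := stdOrthonormalBasis ℝ W'
  let v : Fin p → PiLp 2 (fun _ : J => ℂ) := fun l => (B (Fin.castLE hp' l) : W')
  have hv : Orthonormal ℝ v :=
    (B.orthonormal.comp _ (Fin.castLE_injective hp')).comp_linearIsometry W'.subtypeₗᵢ
  refine ⟨fun l => L (v l), fun l => (B (Fin.castLE hp' l)).2, fun n => ?_⟩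
  have h1 : ∀ j, (∑ l, n l • L (v l)) j = (∑ l, n l • v l) j := by
    intro j
    have : ∑ l, n l • L (v l) = L (∑ l, n l • v l) := by
      rw [map_sum]
      exact Finset.sum_congr rfl fun l _ => (map_smul L _ _).symm
    rw [this]
    rfl
  simp only [h1]
  rw [← PiLp.norm_sq_eq_of_L2, ← real_inner_self_eq_norm_sq, hv.inner_sum]
  refine Finset.sum_congr rfl fun l _ => ?_
  simp [sq]

theorem SGPack_nm {J : Type} [Fintype J] (y : J → ℂ) {a : ℝ} (ha : 0 ≤ a)
    (h : ∑ j, ‖y j‖ ^ 2 ≤ a ^ 2) : ‖y‖ ≤ a := by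
  rw [pi_norm_le_iff_of_nonneg ha]
  intro j
  have h1 : ‖y j‖ ^ 2 ≤ a ^ 2 :=
    (Finset.single_le_sum (f := fun j => ‖y j‖ ^ 2) (fun i _ => sq_nonneg _)
      (Finset.mem_univ j)).trans h
  exact abs_le_of_sq_le_sq' h1 ha |>.2

/-- the packing bound for `D > d` -/
theorem SGPack_claim {J : Type} [Fintype J] (W : Submodule ℝ (J → ℂ))
    (hW : Fintype.card J ≤ Module.finrank ℝ W) (x₀ : J → ℂ) {r D : ℝ} (hr : 0 < r) (hD : 0 < D)
    {S : Set (J → ℂ)} (hS : S ⊆ ball x₀ r) (hSm : MeasurableSet S)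
    (h : ∀ x ∈ S, ∀ y ∈ S, y - x ∈ W → ∑ j, ‖y j - x j‖ ^ 2 < D ^ 2) :
    volume S ≤ ENNReal.ofReal ((8 * Real.pi * (Fintype.card J + 1) * r * D) ^ Fintype.card J) := by
  classical
  set p := Fintype.card J with hp
  have hpi := Real.pi_pos
  rcases lt_or_ge r (p * D) with hcase | hcase
  · refine (measure_mono hS).trans ?_
    rw [SGPack_ball x₀ hr]
    refine ENNReal.ofReal_le_ofReal (pow_le_pow_left₀ (by positivity) ?_ _)
    have h1 : Real.pi * r ^ 2 ≤ Real.pi * r * (p * D) := by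
      have := mul_le_mul_of_nonneg_left hcase.le (by positivity : (0 : ℝ) ≤ Real.pi * r)
      calc Real.pi * r ^ 2 = Real.pi * r * r := by ring
        _ ≤ _ := this
    have h2 : (0 : ℝ) ≤ Real.pi * r * D := by positivity
    have h3 : (0 : ℝ) ≤ p := Nat.cast_nonneg _
    nlinarith
  rcases Nat.eq_zero_or_pos p with hp0 | hp0
  · refine (measure_mono hS).trans ?_
    rw [SGPack_ball x₀ hr, ← hp, hp0]
    simp
  have hp1 : (1 : ℝ) ≤ p := by exact_mod_cast hp0
  have hpD : 0 < (p : ℝ) * D := by positivity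
  set K := ⌊r / (p * D)⌋₊ with hK
  have hx1 : 1 ≤ r / (p * D) := by rwa [one_le_div hpD]
  have hK1 : (K : ℝ) ≤ r / (p * D) := Nat.floor_le (by positivity)
  have hK2 : r / (p * D) / 2 ≤ K := by
    have h1 := Nat.lt_floor_add_one (r / (p * D))
    have h2 : (1 : ℝ) ≤ K := by
      have : 1 ≤ K := Nat.le_floor (by exact_mod_cast hx1)
      exact_mod_cast this
    rw [← hK] at h1
    linarith
  have hK0 : (0 : ℝ) < K := by
    have : 0 < r / (p * D) / 2 := by positivity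
    linarith
  obtain ⟨b, hb, hbn⟩ := SGPack_vectors W hW
  set w : (Fin p → Fin K) → (J → ℂ) := fun n => ∑ l, ((n l : ℕ) * D : ℝ) • b l with hw
  have hwW : ∀ n, w n ∈ W := fun n => Submodule.sum_mem _ fun l _ => W.smul_mem _ (hb l)
  have hwn : ∀ n, ‖w n‖ ≤ r := by
    intro n
    refine SGPack_nm _ hr.le ?_
    rw [hw]
    simp only
    rw [hbn fun l => ((n l : ℕ) * D : ℝ)]
    have h1 : ∀ l, (((n l : ℕ) : ℝ) * D) ^ 2 ≤ (r / p) ^ 2 := by
      intro l
      refine pow_le_pow_left₀ (by positivity) ?_ 2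
      have h2 : ((n l : ℕ) : ℝ) ≤ K := by exact_mod_cast (n l).2.le
      have h3 : ((n l : ℕ) : ℝ) ≤ r / (p * D) := h2.trans hK1
      rw [le_div_iff₀ hpD] at h3
      rw [le_div_iff₀ (by positivity)]
      calc ((n l : ℕ) : ℝ) * D * p = ((n l : ℕ) : ℝ) * (p * D) := by ring
        _ ≤ r := h3
    calc ∑ l, (((n l : ℕ) : ℝ) * D) ^ 2 ≤ ∑ _l : Fin p, (r / p) ^ 2 :=
          Finset.sum_le_sum fun l _ => h1 l
      _ = r ^ 2 / p := by
          rw [Finset.sum_const, Finset.card_univ, Fintype.card_fin, nsmul_eq_mul]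
          field_simp
      _ ≤ r ^ 2 := div_le_self (by positivity) hp1
  have hwd : ∀ n m, n ≠ m → D ^ 2 ≤ ∑ j, ‖(w n - w m) j‖ ^ 2 := by
    intro n m hnm
    obtain ⟨l, hl⟩ : ∃ l, n l ≠ m l := by
      by_contra hcon
      push Not at hcon
      exact hnm (funext hcon)
    have h1 : w n - w m = ∑ l, ((n l : ℕ) * D - (m l : ℕ) * D : ℝ) • b l := by
      rw [hw]
      simp only
      rw [← Finset.sum_sub_distrib]
      exact Finset.sum_congr rfl fun l _ => (sub_smul _ _ _).symm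
    rw [h1, hbn fun l => ((n l : ℕ) * D - (m l : ℕ) * D : ℝ)]
    refine le_trans ?_ (Finset.single_le_sum
      (f := fun l => (((n l : ℕ) : ℝ) * D - ((m l : ℕ) : ℝ) * D) ^ 2)
      (fun i _ => sq_nonneg _) (Finset.mem_univ l))
    have h2 : (1 : ℝ) ≤ (((n l : ℕ) : ℝ) - ((m l : ℕ) : ℝ)) ^ 2 := by
      have h3 : ((n l : ℕ) : ℤ) - ((m l : ℕ) : ℤ) ≠ 0 := by
        intro h4
        exact hl (Fin.ext (by omega))
      have h5 : (1 : ℤ) ≤ (((n l : ℕ) : ℤ) - ((m l : ℕ) : ℤ)) ^ 2 := by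
        have := sq_pos_of_ne_zero h3 (a := ((n l : ℕ) : ℤ) - ((m l : ℕ) : ℤ))
        omega
      exact_mod_cast h5
    calc D ^ 2 = 1 * D ^ 2 := (one_mul _).symm
      _ ≤ (((n l : ℕ) : ℝ) - ((m l : ℕ) : ℝ)) ^ 2 * D ^ 2 :=
        mul_le_mul_of_nonneg_right h2 (by positivity)
      _ = _ := by ring
  -- the translates
  set T : (Fin p → Fin K) → Set (J → ℂ) := fun n => (fun y => w n + y) ⁻¹' S with hT
  have hTm : ∀ n, MeasurableSet (T n) := fun n => (measurable_const_add (w n)) hSm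
  have hTv : ∀ n, volume (T n) = volume S := fun n => measure_preimage_add volume (w n) S
  have hTd : Pairwise (Function.onFun Disjoint T) := by
    intro n m hnm
    rw [Function.onFun, Set.disjoint_left]
    intro y hy1 hy2
    have e1 : w n + y ∈ S := hy1
    have e2 : w m + y ∈ S := hy2
    have e3 : (w n + y) - (w m + y) = w n - w m := by abel
    have e4 := h _ e2 _ e1 (by rw [e3]; exact W.sub_mem (hwW n) (hwW m))
    have e5 := hwd n m hnm
    rw [← e3] at e5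
    simp only [Pi.sub_apply] at e5
    exact absurd e4 (not_lt.2 e5)
  have hTs : (⋃ n, T n) ⊆ ball x₀ (2 * r) := by
    refine Set.iUnion_subset fun n y hy => ?_
    have e1 : w n + y ∈ ball x₀ r := hS hy
    rw [mem_ball_iff_norm] at e1 ⊢
    have e2 : y - x₀ = (w n + y - x₀) - w n := by abel
    rw [e2]
    calc ‖(w n + y - x₀) - w n‖ ≤ ‖w n + y - x₀‖ + ‖w n‖ := norm_sub_le _ _
      _ < r + r := add_lt_add_of_lt_of_le e1 (hwn n)
      _ = 2 * r := by ring
  have hsum : ((K ^ p : ℕ) : ENNReal) * volume S ≤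
      ENNReal.ofReal ((Real.pi * (2 * r) ^ 2) ^ p) := by
    rw [← SGPack_ball x₀ (show (0 : ℝ) < 2 * r by positivity)]
    refine le_trans (le_of_eq ?_) (measure_mono hTs)
    rw [measure_iUnion hTd hTm, tsum_fintype]
    simp only [hTv, Finset.sum_const, Finset.card_univ, Fintype.card_pi, Fintype.card_fin,
      Finset.prod_const, nsmul_eq_mul]
  have hnum : ENNReal.ofReal ((Real.pi * (2 * r) ^ 2) ^ p) ≤ ((K ^ p : ℕ) : ENNReal) *
      ENNReal.ofReal ((8 * Real.pi * (p + 1) * r * D) ^ p) := by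
    rw [← ENNReal.ofReal_natCast, ← ENNReal.ofReal_mul (by positivity)]
    refine ENNReal.ofReal_le_ofReal ?_
    push_cast
    rw [← mul_pow]
    refine pow_le_pow_left₀ (by positivity) ?_ _
    have e1 : r ≤ K * (2 * (p * D)) := by
      rw [div_div, div_le_iff₀ (by positivity)] at hK2
      linarith
    have e2 : (K : ℝ) * (2 * (p * D)) ≤ K * (2 * ((p + 1) * D)) := by
      refine mul_le_mul_of_nonneg_left ?_ hK0.le
      nlinarith
    have e3 : 0 ≤ Real.pi * 4 * r := by positivity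
    calc Real.pi * (2 * r) ^ 2 = Real.pi * 4 * r * r := by ring
      _ ≤ Real.pi * 4 * r * (K * (2 * ((p + 1) * D))) :=
        mul_le_mul_of_nonneg_left (e1.trans e2) e3
      _ = _ := by ring
  have hfin := hsum.trans hnum
  have hne : ((K ^ p : ℕ) : ENNReal) ≠ 0 := by
    have : K ≠ 0 := by
      intro h0
      rw [h0] at hK0
      simp at hK0
    exact_mod_cast pow_ne_zero p this
  rwa [ENNReal.mul_le_mul_iff_right hne (ENNReal.natCast_ne_top _)] at hfin

/-- Packing: a set whose slices parallel to `W` have diameter at most `d` has small volume. -/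
theorem packing (p : ℕ) : ∃ C : ℝ, 0 < C ∧ ∀ (J : Type) [Fintype J], Fintype.card J = p →
    ∀ (W : Submodule ℝ (J → ℂ)), p ≤ Module.finrank ℝ W →
    ∀ (x₀ : J → ℂ) (r d : ℝ), 0 < r → 0 ≤ d → ∀ S : Set (J → ℂ), S ⊆ ball x₀ r →
      MeasurableSet S →
      (∀ x ∈ S, ∀ y ∈ S, y - x ∈ W → ∑ j, ‖y j - x j‖ ^ 2 ≤ d ^ 2) →
      volume S ≤ ENNReal.ofReal (C * r ^ p * d ^ p) := by
  refine ⟨(8 * Real.pi * (p + 1)) ^ p, by positivity, ?_⟩
  intro J _ hJ W hW x₀ r d hr hd S hS hSm h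
  have hlim : Tendsto (fun D : ℝ => ENNReal.ofReal ((8 * Real.pi * (p + 1)) ^ p * r ^ p * D ^ p))
      (𝓝[>] d) (𝓝 (ENNReal.ofReal ((8 * Real.pi * (p + 1)) ^ p * r ^ p * d ^ p))) := by
    refine ENNReal.tendsto_ofReal ?_
    refine Tendsto.mono_left ?_ nhdsWithin_le_nhds
    exact ((continuous_pow p).tendsto d).const_mul _
  refine ge_of_tendsto hlim ?_
  filter_upwards [self_mem_nhdsWithin] with D hD
  have hD0 : 0 < D := lt_of_le_of_lt hd hD
  have h1 := SGPack_claim W (by rw [hJ]; exact hW) x₀ hr hD0 hS hSm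
    (fun x hx y hy hxy => (h x hx y hy hxy).trans_lt (pow_lt_pow_left₀ hD hd two_ne_zero))
  rw [hJ] at h1
  refine h1.trans (le_of_eq ?_)
  congr 1
  rw [← mul_pow, ← mul_pow]

end Pool.Agent.Lib.MP_fa244c_mp
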