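import Pool.Agent.Lib.MP_fa244c_mp.SGLin
import Pool.Agent.Lib.MP_fa244c_mp.SGPack

set_option autoImplicit false

open MeasureTheory Filter Topology Set Metric

namespace Pool.Agent.Lib.MP_fa244c_mp

theorem SmallGrad_pair {J : Type} [Fintype J] {f : (J → ℂ) → ℝ} {x₀ : J → ℂ} {r t ρ : ℝ}
    (ht : 0 < t) (hρ : 0 ≤ ρ)
    (hc : ∀ y ∈ ball x₀ r, ContDiffAt ℝ 2 f y)
    (hb : ∀ y ∈ ball x₀ r, ‖fderiv ℝ (fderiv ℝ f) y - fderiv ℝ (fderiv ℝ f) x₀‖ ≤ t)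
    {x y : J → ℂ} (hx : x ∈ ball x₀ r) (hy : y ∈ ball x₀ r) (hx' : ‖fderiv ℝ f x‖ ≤ ρ)
    (hy' : ‖fderiv ℝ f y‖ ≤ ρ)
    (hq : fderiv ℝ (fderiv ℝ f) x₀ (y - x) (y - x) ≤ - (2 * t * ∑ j, ‖(y - x) j‖ ^ 2)) :
    ∑ j, ‖(y - x) j‖ ^ 2 ≤ (2 * ρ / t) ^ 2 := by
  set v := y - x with hv
  set N := ∑ j, ‖v j‖ ^ 2 with hN
  have hN0 : 0 ≤ N := Finset.sum_nonneg fun j _ => sq_nonneg _
  have hvN : ‖v‖ ≤ Real.sqrt N := SGPack_nm v (Real.sqrt_nonneg _) (by rw [Real.sq_sqrt hN0])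
  have hvN2 : ‖v‖ ^ 2 ≤ N := by
    calc ‖v‖ ^ 2 ≤ Real.sqrt N ^ 2 := pow_le_pow_left₀ (norm_nonneg _) hvN 2
      _ = N := Real.sq_sqrt hN0
  have hmem : ∀ s ∈ Set.Icc (0 : ℝ) 1, x + s • v ∈ ball x₀ r := by
    intro s hs
    have h1 := (convex_ball x₀ r) hx hy (sub_nonneg.2 hs.2) hs.1 (by ring)
    have h2 : x + s • v = (1 - s) • x + s • y := by
      rw [hv, smul_sub, sub_smul, one_smul]; abel
    rw [h2]; exact h1
  have hder : ∀ s ∈ Set.Icc (0 : ℝ) 1, HasDerivAt (fun s : ℝ => fderiv ℝ f (x + s • v) v)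
      (fderiv ℝ (fderiv ℝ f) (x + s • v) v v) s := by
    intro s hs
    have h1 : DifferentiableAt ℝ (fderiv ℝ f) (x + s • v) :=
      ((hc _ (hmem s hs)).fderiv_right (m := 1) (by norm_num)).differentiableAt (by norm_num)
    have h2 : HasDerivAt (fun s : ℝ => x + s • v) v s := by
      have := ((hasDerivAt_id s).smul_const v).const_add x
      simpa using this
    have h3 := h1.hasFDerivAt.comp_hasDerivAt s h2
    have h4 := h3.clm_apply (hasDerivAt_const s v)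
    simpa using h4
  obtain ⟨s, hs, he⟩ := exists_hasDerivAt_eq_slope (fun s : ℝ => fderiv ℝ f (x + s • v) v)
    (fun s => fderiv ℝ (fderiv ℝ f) (x + s • v) v v) zero_lt_one
    (fun s hs => (hder s hs).continuousAt.continuousWithinAt)
    (fun s hs => hder s (Set.Ioo_subset_Icc_self hs))
  have hs' : s ∈ Set.Icc (0 : ℝ) 1 := Set.Ioo_subset_Icc_self hs
  simp only [zero_smul, add_zero, one_smul, sub_zero, div_one] at he
  have hy2 : x + v = y := by rw [hv]; abel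
  rw [hy2] at he
  have e1 : fderiv ℝ (fderiv ℝ f) (x + s • v) v v ≤ - (t * N) := by
    have h1 : (fderiv ℝ (fderiv ℝ f) (x + s • v) - fderiv ℝ (fderiv ℝ f) x₀) v v ≤ t * N := by
      refine (le_abs_self _).trans ?_
      rw [← Real.norm_eq_abs]
      refine (ContinuousLinearMap.le_opNorm₂ _ v v).trans ?_
      calc ‖fderiv ℝ (fderiv ℝ f) (x + s • v) - fderiv ℝ (fderiv ℝ f) x₀‖ * ‖v‖ * ‖v‖
          ≤ t * ‖v‖ * ‖v‖ := by
            have := hb _ (hmem s hs')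
            gcongr
        _ = t * ‖v‖ ^ 2 := by ring
        _ ≤ t * N := mul_le_mul_of_nonneg_left hvN2 ht.le
    simp only [sub_apply] at h1
    linarith
  have e2 : -(2 * ρ * Real.sqrt N) ≤ fderiv ℝ f y v - fderiv ℝ f x v := by
    have h1 : |fderiv ℝ f y v| ≤ ρ * Real.sqrt N := by
      rw [← Real.norm_eq_abs]
      exact (ContinuousLinearMap.le_opNorm _ _).trans
        (mul_le_mul hy' hvN (norm_nonneg _) hρ)
    have h2 : |fderiv ℝ f x v| ≤ ρ * Real.sqrt N := by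
      rw [← Real.norm_eq_abs]
      exact (ContinuousLinearMap.le_opNorm _ _).trans
        (mul_le_mul hx' hvN (norm_nonneg _) hρ)
    have := abs_le.1 h1
    have := abs_le.1 h2
    linarith
  have e3 : t * N ≤ 2 * ρ * Real.sqrt N := by linarith
  have e4 : Real.sqrt N ≤ 2 * ρ / t := by
    rcases (Real.sqrt_nonneg N).eq_or_lt with h0 | h0
    · rw [← h0]; positivity
    · rw [le_div_iff₀ ht]
      have h5 : Real.sqrt N * t * Real.sqrt N ≤ 2 * ρ * Real.sqrt N := by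
        calc Real.sqrt N * t * Real.sqrt N = t * (Real.sqrt N) ^ 2 := by ring
          _ = t * N := by rw [Real.sq_sqrt hN0]
          _ ≤ _ := e3
      exact le_of_mul_le_mul_right h5 h0
  calc N = Real.sqrt N ^ 2 := (Real.sq_sqrt hN0).symm
    _ ≤ _ := pow_le_pow_left₀ (Real.sqrt_nonneg _) e4 2

/-- If the complex Hessian of `f` is at most `-4t` then the set where the gradient is small has
volume at most `C r^p (ρ/t)^p` in a small ball of `ℂ^p`. -/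
theorem small_grad (p : ℕ) : ∃ C : ℝ, 0 < C ∧ ∀ (J : Type) [Fintype J], Fintype.card J = p →
    ∀ (f : (J → ℂ) → ℝ) (x₀ : J → ℂ) (r t ρ : ℝ), 0 < r → 0 < t → 0 ≤ ρ →
    (∀ y ∈ ball x₀ r, ContDiffAt ℝ 2 f y) →
    (∀ y ∈ ball x₀ r, ‖fderiv ℝ (fderiv ℝ f) y - fderiv ℝ (fderiv ℝ f) x₀‖ ≤ t) →
    (∀ v : J → ℂ, D2 f x₀ v v + D2 f x₀ (fun j => Complex.I * v j) (fun j => Complex.I * v j) ≤
      - (4 * t * ∑ j, ‖v j‖ ^ 2)) →
    volume {y | y ∈ ball x₀ r ∧ ‖fderiv ℝ f y‖ ≤ ρ} ≤ ENNReal.ofReal (C * r ^ p * (ρ / t) ^ p) := by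
  obtain ⟨C, hC, hpack⟩ := packing p
  refine ⟨C * 2 ^ p, by positivity, ?_⟩
  intro J _ hJ f x₀ r t ρ hr ht hρ hc hb hl
  have hx0 : x₀ ∈ ball x₀ r := mem_ball_self hr
  have hsymm : ∀ v w, fderiv ℝ (fderiv ℝ f) x₀ v w = fderiv ℝ (fderiv ℝ f) x₀ w v := by
    intro v w
    exact ((hc x₀ hx0).isSymmSndFDerivAt (by simp)).eq v w
  obtain ⟨W, hW, hneg⟩ := exists_negative_subspace (fderiv ℝ (fderiv ℝ f) x₀) hsymm ht hl
  have hmeas : MeasurableSet {y | y ∈ ball x₀ r ∧ ‖fderiv ℝ f y‖ ≤ ρ} :=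
    measurableSet_ball.inter (measurableSet_le (measurable_fderiv ℝ f).norm measurable_const)
  have h1 := hpack J hJ W (by rw [← hJ]; exact hW) x₀ r (2 * ρ / t) hr (by positivity)
    {y | y ∈ ball x₀ r ∧ ‖fderiv ℝ f y‖ ≤ ρ} (fun y hy => hy.1) hmeas
    (fun x hx y hy hxy => SmallGrad_pair ht hρ hc hb hx.1 hy.1 hx.2 hy.2 (hneg _ hxy))
  refine h1.trans (le_of_eq ?_)
  congr 1
  rw [mul_div_assoc, mul_pow]
  ring

end Pool.Agent.Lib.MP_fa244c_mp
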