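import Pool.Agent.Lib.MP_fa244c_mp.Local
import Pool.Agent.Lib.MP_fa244c_mp.SmallGrad

set_option autoImplicit false

open MeasureTheory Filter Topology Set Metric

namespace Pool.Agent.Lib.MP_fa244c_mp

open scoped ENNReal in
theorem SmallBall_avg {J : Type} [Fintype J] {T : Set (J → ℂ)} {R r : ℝ}
    (hTR : T ⊆ ball 0 R) {b : ℝ≥0∞} (hb : ∀ y ∈ T, volume (T ∩ ball y r) ≤ b) :
    volume T * volume (ball (0 : J → ℂ) (r / 2)) ≤ b * volume (ball (0 : J → ℂ) (R + r / 2)) := by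
  have hs : MeasurableSet {q : (J → ℂ) × (J → ℂ) | dist q.1 q.2 < r / 2} :=
    measurableSet_lt (measurable_fst.dist measurable_snd) measurable_const
  set F : (J → ℂ) → (J → ℂ) → ℝ≥0∞ := fun y w =>
    {q : (J → ℂ) × (J → ℂ) | dist q.1 q.2 < r / 2}.indicator 1 (y, w) with hF
  have hFm : Measurable (Function.uncurry F) := measurable_one.indicator hs
  have h1 : ∀ y, ∫⁻ w, F y w = volume (ball (0 : J → ℂ) (r / 2)) := by
    intro y
    have e1 : (fun w => F y w) = (ball y (r / 2)).indicator 1 := by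
      funext w
      simp only [hF, Set.indicator, Set.mem_ofPred_eq, mem_ball, dist_comm y w]
      rfl
    rw [e1, lintegral_indicator_one measurableSet_ball, Measure.addHaar_ball_center]
  have h2 : ∀ w, ∫⁻ y in T, F y w = volume (T ∩ ball w (r / 2)) := by
    intro w
    have e1 : (fun y => F y w) = (ball w (r / 2)).indicator 1 := by
      funext y
      simp only [hF, Set.indicator, Set.mem_ofPred_eq, mem_ball]
      rfl
    rw [e1, lintegral_indicator_one measurableSet_ball, Measure.restrict_apply measurableSet_ball,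
      Set.inter_comm]
  calc volume T * volume (ball (0 : J → ℂ) (r / 2))
      = ∫⁻ y in T, ∫⁻ w, F y w := by
        simp only [h1]
        rw [lintegral_const, Measure.restrict_apply_univ, mul_comm]
    _ = ∫⁻ w, ∫⁻ y in T, F y w := lintegral_lintegral_swap hFm.aemeasurable
    _ = ∫⁻ w, volume (T ∩ ball w (r / 2)) := by simp only [h2]
    _ ≤ ∫⁻ w, (ball (0 : J → ℂ) (R + r / 2)).indicator (fun _ => b) w := by
        refine lintegral_mono fun w => ?_
        rcases (T ∩ ball w (r / 2)).eq_empty_or_nonempty with h0 | ⟨y, hy⟩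
        · simp [h0]
        · have hw : w ∈ ball (0 : J → ℂ) (R + r / 2) := by
            have e1 := hTR hy.1
            have e2 := hy.2
            rw [mem_ball] at e1 e2 ⊢
            calc dist w 0 ≤ dist w y + dist y 0 := dist_triangle _ _ _
              _ < r / 2 + R := by rw [dist_comm w y]; exact add_lt_add e2 e1
              _ = R + r / 2 := add_comm _ _
          rw [Set.indicator_of_mem hw]
          refine (measure_mono ?_).trans (hb y hy.1)
          refine Set.inter_subset_inter_right _ fun z hz => ?_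
          have e2 := hy.2
          rw [mem_ball] at e2 hz ⊢
          calc dist z y ≤ dist z w + dist w y := dist_triangle _ _ _
            _ < r / 2 + r / 2 := by rw [dist_comm w y]; exact add_lt_add hz e2
            _ = r := by ring
    _ = b * volume (ball (0 : J → ℂ) (R + r / 2)) := by
        rw [lintegral_indicator measurableSet_ball, setLIntegral_const]

theorem SmallBall_merge_merge {ι : Type} [DecidableEq ι] (J : Finset ι) (y y' : J → ℂ)
    (x : ι → ℂ) : merge J y' (merge J y x) = merge J y' x := by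
  funext i
  unfold merge
  by_cases h : i ∈ J <;> simp [h]

theorem SmallBall_res_merge {ι : Type} [DecidableEq ι] (J : Finset ι) (y : J → ℂ)
    (x : ι → ℂ) : res J (merge J y x) = y := by
  funext i
  unfold merge res
  simp

theorem SmallBall_merge_apply {ι : Type} [DecidableEq ι] (J : Finset ι) (y : J → ℂ)
    (x : ι → ℂ) (j : J) : merge J y x j = y j := by
  unfold merge
  simp

/-- the constant -/
noncomputable def SmallBall_X (p : ℕ) (R c κ : ℝ) (N : ℕ) (δ ρ : ℝ) : ℝ :=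
  16 * p * (R + 1) ^ 2 / (c * κ) * (N * ρ / δ ^ (4 * p + 4))

/-- bound for the slices -/
theorem SmallBall_slice {Λ : Set ℂ} {g : ℂ → ℂ → ℝ} (hD : Dom Λ g) {p : ℕ} (hp : 1 ≤ p) :
    ∃ C2 R c κ : ℝ, 0 < C2 ∧ 0 < R ∧ 0 < c ∧ 0 < κ ∧ ∀ (ι : Type) [Fintype ι] [DecidableEq ι]
      (ch : ι → ℝ), (∀ i, |ch i| = 1) → ∀ J : Finset ι, J.card = p → ∀ δ ρ : ℝ, 0 < δ → δ ≤ 1 →
      0 < ρ → ∀ x : ι → ℂ,
      volume {y : J → ℂ | merge J y x ∈ Cfg Λ ι ∧ ∀ i ∈ J, Sep Λ δ (merge J y x) i ∧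
        ‖pD g ch (merge J y x) i‖ ≤ ρ} ≤
      ENNReal.ofReal (C2 * SmallBall_X p R c κ (Fintype.card ι) δ ρ ^ p) := by
  obtain ⟨C1, c, hC1, hc, hloc⟩ := local_struct hD p
  obtain ⟨C2, hC2, hsg⟩ := small_grad p
  obtain ⟨R, hR0, hR⟩ : ∃ R : ℝ, 0 < R ∧ Λ ⊆ ball 0 R := by
    obtain ⟨R, hR⟩ := hD.bdd.subset_ball 0
    exact ⟨max R 1, lt_max_of_lt_right one_pos, hR.trans (ball_subset_ball (le_max_left _ _))⟩
  set κ : ℝ := min (1 / 4) (c / (4 * C1)) with hκ
  have hκ0 : 0 < κ := by positivity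
  have hκ1 : κ ≤ 1 / 4 := min_le_left _ _
  have hκ2 : κ * (4 * C1) ≤ c := by
    have := min_le_right (1 / 4 : ℝ) (c / (4 * C1))
    rwa [← hκ, le_div_iff₀ (by positivity)] at this
  refine ⟨C2, R, c, κ, hC2, hR0, hc, hκ0, ?_⟩
  intro ι _ _ ch hch J hJ δ ρ hδ hδ1 hρ x
  set N := Fintype.card ι with hN
  have hN1 : (1 : ℝ) ≤ N := by
    have h1 : J.card ≤ N := Finset.card_le_univ J
    have : 1 ≤ N := by omega
    exact_mod_cast this
  have hcardJ : Fintype.card J = p := by rw [Fintype.card_coe, hJ]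
  set r : ℝ := κ * δ ^ (2 * p + 4) / N with hr
  set t : ℝ := c * δ ^ (2 * p) / 4 with ht
  have hr0 : 0 < r := by positivity
  have ht0 : 0 < t := by positivity
  have hrδ : r ≤ δ / 4 := by
    have e1 : δ ^ (2 * p + 4) ≤ δ := by
      calc δ ^ (2 * p + 4) ≤ δ ^ 1 := pow_le_pow_of_le_one hδ.le hδ1 (by omega)
        _ = δ := pow_one δ
    have e2 : κ * δ ^ (2 * p + 4) ≤ 1 / 4 * δ :=
      mul_le_mul hκ1 e1 (by positivity) (by norm_num)
    calc r ≤ κ * δ ^ (2 * p + 4) := div_le_self (by positivity) hN1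
      _ ≤ δ / 4 := by linarith
  have hrt : C1 * N / δ ^ 4 * r ≤ t := by
    have e1 : C1 * N / δ ^ 4 * r = κ * (4 * C1) * δ ^ (2 * p) / 4 := by
      rw [hr, pow_add]
      field_simp
    rw [e1, ht]
    have := mul_le_mul_of_nonneg_right hκ2 (by positivity : (0 : ℝ) ≤ δ ^ (2 * p))
    linarith
  set T : Set (J → ℂ) := {y : J → ℂ | merge J y x ∈ Cfg Λ ι ∧ ∀ i ∈ J,
    Sep Λ δ (merge J y x) i ∧ ‖pD g ch (merge J y x) i‖ ≤ ρ} with hT
  have hTR : T ⊆ ball 0 R := by
    intro y hy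
    rw [mem_ball_zero_iff, pi_norm_lt_iff hR0]
    intro j
    have h1 := hR (hy.1.1 (j : ι))
    rw [SmallBall_merge_apply, mem_ball_zero_iff] at h1
    exact h1
  have hgrad : ∀ y ∈ T, ‖fderiv ℝ (fun y' : J → ℂ => energy g ch (merge J y' x)) y‖ ≤ p * ρ := by
    intro y hy
    refine ContinuousLinearMap.opNorm_le_bound _ (by positivity) fun v => ?_
    rw [fderiv_merge hD ch J hy.1 v]
    refine (norm_sum_le _ _).trans ?_
    calc ∑ j : J, ‖pD g ch (merge J y x) j (v j)‖ ≤ ∑ _j : J, ρ * ‖v‖ := by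
          refine Finset.sum_le_sum fun j _ => ?_
          refine (ContinuousLinearMap.le_opNorm _ _).trans ?_
          exact mul_le_mul (hy.2 j j.2).2 (norm_le_pi_norm v j) (norm_nonneg _) hρ.le
      _ = p * ρ * ‖v‖ := by
          rw [Finset.sum_const, Finset.card_univ, hcardJ, nsmul_eq_mul]
          ring
  have hball : ∀ y₀ ∈ T, volume (T ∩ ball y₀ r) ≤
      ENNReal.ofReal (C2 * r ^ p * (p * ρ / t) ^ p) := by
    intro y₀ hy₀
    obtain ⟨h1, h2⟩ := hloc ι ch hch J hJ (merge J y₀ x) hy₀.1 δ hδ hδ1 fun i hi => (hy₀.2 i hi).1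
    simp only [SmallBall_merge_merge, SmallBall_res_merge] at h1 h2
    refine le_trans (measure_mono ?_) (hsg J hcardJ
      (fun y' : J → ℂ => energy g ch (merge J y' x)) y₀ r t (p * ρ) hr0 ht0 (by positivity)
      (fun y hy => (h1 y (ball_subset_ball hrδ hy)).2.1) (fun y hy => ?_) (fun v => ?_))
    · exact fun y hy => ⟨hy.2, hgrad y hy.1⟩
    · refine ((h1 y (ball_subset_ball hrδ hy)).2.2).trans (le_trans ?_ hrt)
      rw [mem_ball_iff_norm] at hy
      exact mul_le_mul_of_nonneg_left hy.le (by positivity)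
    · refine (h2 v).trans (le_of_eq ?_)
      rw [ht]
      ring
  have havg := SmallBall_avg hTR hball
  rw [SGPack_ball _ (by positivity), SGPack_ball _ (by positivity), hcardJ] at havg
  set Y : ℝ := Real.pi * (r / 2) ^ 2 with hY
  have hY0 : 0 < Y := by positivity
  set X := SmallBall_X p R c κ N δ ρ with hX
  have hX0 : 0 ≤ X := by rw [hX, SmallBall_X]; positivity
  have hXY : X * Y = r * (p * ρ / t) * (Real.pi * (R + 1) ^ 2) := by
    have e1 : δ ^ (4 * p + 4) = δ ^ (2 * p + 4) * δ ^ (2 * p) := by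
      rw [← pow_add]; congr 1; ring
    rw [hX, SmallBall_X, hY, ht, hr, e1]
    field_simp
    ring
  have hnum : ENNReal.ofReal (C2 * r ^ p * (p * ρ / t) ^ p) *
      ENNReal.ofReal ((Real.pi * (R + r / 2) ^ 2) ^ p) ≤
      ENNReal.ofReal (C2 * X ^ p) * ENNReal.ofReal (Y ^ p) := by
    rw [← ENNReal.ofReal_mul (by positivity), ← ENNReal.ofReal_mul (by positivity)]
    refine ENNReal.ofReal_le_ofReal ?_
    have e1 : C2 * r ^ p * (p * ρ / t) ^ p * (Real.pi * (R + r / 2) ^ 2) ^ p =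
        C2 * (r * (p * ρ / t) * (Real.pi * (R + r / 2) ^ 2)) ^ p := by
      rw [mul_pow (r * (p * ρ / t)), mul_pow r]
      ring
    have e2 : C2 * X ^ p * Y ^ p = C2 * (X * Y) ^ p := by rw [mul_pow X]; ring
    rw [e1, e2, hXY]
    refine mul_le_mul_of_nonneg_left (pow_le_pow_left₀ (by positivity) ?_ p) hC2.le
    refine mul_le_mul_of_nonneg_left ?_ (by positivity)
    refine mul_le_mul_of_nonneg_left ?_ Real.pi_pos.le
    refine pow_le_pow_left₀ (by positivity) ?_ 2
    linarith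
  have hfin := havg.trans hnum
  have hYp : ENNReal.ofReal (Y ^ p) ≠ 0 := by
    rw [ne_eq, ENNReal.ofReal_eq_zero, not_le]
    positivity
  rwa [ENNReal.mul_le_mul_iff_left hYp ENNReal.ofReal_ne_top] at hfin

open scoped ENNReal in
theorem SmallBall_PP_le {Λ : Set ℂ} {g : ℂ → ℂ → ℝ} (hD : Dom Λ g) (ι : Type) [Fintype ι]
    (T : Set (ι → ℂ)) : PP Λ ι T ≤ ((volume Λ)⁻¹) ^ Fintype.card ι * volume T := by
  rw [PP_eq hD ι, Measure.smul_apply, smul_eq_mul]
  exact mul_le_mul_right (Measure.restrict_apply_le _ _) _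

open scoped ENNReal in
theorem SmallBall_fubini {Λ : Set ℂ} {g : ℂ → ℂ → ℝ} (hD : Dom Λ g) {ι : Type} [Fintype ι]
    [DecidableEq ι] (J : Finset ι) {S : Set (ι → ℂ)} (hS : MeasurableSet S) {b : ℝ≥0∞}
    (hb : ∀ x : ι → ℂ, PP Λ J {y : J → ℂ | merge J y x ∈ S} ≤ b) : PP Λ ι S ≤ b := by
  have hp := isProb_unif hD
  have h1 := measurePreserving_piEquivPiSubtypeProd (fun _ : ι => unif Λ) (fun i => i ∈ J)
  have h2 := h1.symm
  have hS' : MeasurableSet ((MeasurableEquiv.piEquivPiSubtypeProd (fun _ : ι => ℂ)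
    (fun i => i ∈ J)).symm ⁻¹' S) := (MeasurableEquiv.measurable _) hS
  unfold PP
  rw [← h2.measure_preimage_equiv S, Measure.prod_apply_symm hS']
  refine (lintegral_mono (g := fun _ => b) fun z => ?_).trans ?_
  · have h3 := hb (fun i => if h : i ∈ J then 0 else z ⟨i, h⟩)
    unfold PP at h3
    convert h3 using 2
    · congr
      exact Subsingleton.elim _ _
    · ext y
      simp only [Set.mem_preimage, Set.mem_ofPred_eq]
      have e1 : (MeasurableEquiv.piEquivPiSubtypeProd (fun _ : ι => ℂ)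
          (fun i => i ∈ J)).symm (y, z) =
          merge J y (fun i => if h : i ∈ J then 0 else z ⟨i, h⟩) := by
        funext i
        simp only [merge]
        change (if h : i ∈ J then y ⟨i, h⟩ else z ⟨i, h⟩) = _
        by_cases h : i ∈ J <;> simp [h]
      rw [e1]
  · rw [lintegral_const, measure_univ, mul_one]

/-- Small ball estimate for the gradient in `p` separated coordinates. -/
theorem small_ball {Λ : Set ℂ} {g : ℂ → ℂ → ℝ} (hD : Dom Λ g)
    (hm : Measurable (Function.uncurry g)) (p : ℕ) :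
    ∃ (C : ℝ) (A : ℕ), 0 < C ∧ ∀ (ι : Type) [Fintype ι] [DecidableEq ι] (ch : ι → ℝ),
      (∀ i, |ch i| = 1) → ∀ J : Finset ι, J.card = p → ∀ δ ρ : ℝ, 0 < δ → δ ≤ 1 → 0 < ρ →
      (PP Λ ι).real {x | x ∈ Cfg Λ ι ∧ ∀ i ∈ J, Sep Λ δ x i ∧ ‖pD g ch x i‖ ≤ ρ} ≤
        C * (Fintype.card ι : ℝ) ^ A * ρ ^ p / δ ^ A := by
  rcases Nat.eq_zero_or_pos p with hp0 | hp
  · subst hp0
    refine ⟨1, 0, one_pos, ?_⟩
    intro ι _ _ ch hch J hJ δ ρ hδ hδ1 hρ
    have := isProb_PP hD ι
    simp only [pow_zero, mul_one, div_one]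
    exact measureReal_le_one
  · obtain ⟨C2, R, c, κ, hC2, hR, hc, hκ, hsl⟩ := SmallBall_slice hD hp
    have hV := vol_pos hD
    obtain ⟨K, hK⟩ : ∃ K : ℝ, K = 16 * p * (R + 1) ^ 2 / (c * κ) := ⟨_, rfl⟩
    have hp' : (0 : ℝ) < p := by exact_mod_cast hp
    have hK0 : 0 < K := by rw [hK]; positivity
    refine ⟨((volume.real Λ)⁻¹) ^ p * (C2 * K ^ p), (4 * p + 4) * p, by positivity, ?_⟩
    intro ι _ _ ch hch J hJ δ ρ hδ hδ1 hρ
    have hN1 : (1 : ℝ) ≤ Fintype.card ι := by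
      have h1 : J.card ≤ Fintype.card ι := Finset.card_le_univ J
      have : 1 ≤ Fintype.card ι := by omega
      exact_mod_cast this
    have hcardJ : Fintype.card J = p := by rw [Fintype.card_coe, hJ]
    set S : Set (ι → ℂ) := {x | x ∈ Cfg Λ ι ∧ ∀ i ∈ J, Sep Λ δ x i ∧ ‖pD g ch x i‖ ≤ ρ} with hS
    have hSm : MeasurableSet S := by
      have e1 : S = Cfg Λ ι ∩ ⋂ i ∈ J, ({x : ι → ℂ | Sep Λ δ x i} ∩
          {x | ‖pD g ch x i‖ ≤ ρ}) := by
        ext x
        simp only [hS, Set.mem_ofPred_eq, Set.mem_inter_iff, Set.mem_iInter]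
      rw [e1]
      refine (isOpen_Cfg hD ι).measurableSet.inter
        (MeasurableSet.iInter fun i => MeasurableSet.iInter fun _ => ?_)
      exact (measurableSet_Sep hD δ i).inter
        (measurableSet_le (measurable_norm_pD ch i) measurable_const)
    have hX0 : 0 ≤ SmallBall_X p R c κ (Fintype.card ι) δ ρ := by
      rw [SmallBall_X]; positivity
    have hfin : volume Λ ≠ ⊤ := hD.bdd.measure_lt_top.ne
    have hne : volume Λ ≠ 0 := (hD.isOpen.measure_pos _ hD.ne).ne'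
    have hb : PP Λ ι S ≤ ENNReal.ofReal (((volume.real Λ)⁻¹) ^ p *
        (C2 * SmallBall_X p R c κ (Fintype.card ι) δ ρ ^ p)) := by
      refine SmallBall_fubini hD J hSm fun x => ?_
      refine (SmallBall_PP_le hD J _).trans ?_
      rw [hcardJ, ENNReal.ofReal_mul (by positivity), ENNReal.ofReal_pow (by positivity),
        ENNReal.ofReal_inv_of_pos hV, Measure.real, ENNReal.ofReal_toReal hfin]
      gcongr
      exact hsl ι ch hch J hJ δ ρ hδ hδ1 hρ x
    have hb2 := ENNReal.toReal_mono ENNReal.ofReal_ne_top hb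
    rw [ENNReal.toReal_ofReal (by positivity)] at hb2
    refine (show (PP Λ ι).real S ≤ _ from hb2).trans ?_
    have e2 : SmallBall_X p R c κ (Fintype.card ι) δ ρ ^ p =
        K ^ p * ((Fintype.card ι : ℝ) ^ p * ρ ^ p / δ ^ ((4 * p + 4) * p)) := by
      rw [SmallBall_X, ← hK, mul_pow, div_pow, mul_pow, ← pow_mul]
    rw [e2]
    have e3 : (Fintype.card ι : ℝ) ^ p ≤ (Fintype.card ι : ℝ) ^ ((4 * p + 4) * p) :=
      pow_le_pow_right₀ hN1 (by nlinarith)
    calc ((volume.real Λ)⁻¹) ^ p * (C2 * (K ^ p * ((Fintype.card ι : ℝ) ^ p * ρ ^ p /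
          δ ^ ((4 * p + 4) * p))))
        = ((volume.real Λ)⁻¹) ^ p * (C2 * K ^ p) * (Fintype.card ι : ℝ) ^ p * ρ ^ p /
          δ ^ ((4 * p + 4) * p) := by ring
      _ ≤ ((volume.real Λ)⁻¹) ^ p * (C2 * K ^ p) * (Fintype.card ι : ℝ) ^ ((4 * p + 4) * p) *
          ρ ^ p / δ ^ ((4 * p + 4) * p) := by gcongr

end Pool.Agent.Lib.MP_fa244c_mp
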