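import Pool.Agent.Lib.MP_fa244c_mp.MaxP
import Pool.Agent.Lib.MP_fa244c_mp.Newton
import Pool.Agent.Lib.MP_fa244c_mp.GreenSymm

set_option autoImplicit false

open MeasureTheory Filter Topology Set Laplacian
open scoped ContDiff

namespace Pool.Agent.Lib.MP_fa244c_mp

theorem sw_exists_trunc {e : ℝ} (he : 0 < e) : ∃ (T : ℝ → ℝ) (c : ℝ), ContDiff ℝ ∞ T ∧
    (∀ s, s ≤ e → T s = 0) ∧ (∀ s, 2 * e ≤ s → T s = s - c) ∧ 0 ≤ c ∧ c ≤ 2 * e ∧
    (∀ s, 0 ≤ s → s - 2 * e ≤ T s ∧ T s ≤ s) ∧ (∀ s, 0 ≤ deriv (deriv T) s) := by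
  set φ : ℝ → ℝ := fun t => Real.smoothTransition (t / e - 1) with hφ
  have hφd : ContDiff ℝ ∞ φ := by
    have h1 : ContDiff ℝ ∞ (fun t : ℝ => t / e - 1) := by fun_prop
    exact (Real.smoothTransition.contDiff (n := ⊤)).comp h1
  have hφc : Continuous φ := hφd.continuous
  have hφ0 : ∀ t, t ≤ e → φ t = 0 := by
    intro t ht
    apply Real.smoothTransition.zero_of_nonpos
    have : t / e ≤ 1 := (div_le_one he).mpr ht
    linarith
  have hφ1 : ∀ t, 2 * e ≤ t → φ t = 1 := by
    intro t ht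
    apply Real.smoothTransition.one_of_one_le
    have : 2 ≤ t / e := by rw [le_div_iff₀ he]; exact ht
    linarith
  have hφnn : ∀ t, 0 ≤ φ t := fun t => Real.smoothTransition.nonneg _
  have hφle : ∀ t, φ t ≤ 1 := fun t => Real.smoothTransition.le_one _
  have hφm : Monotone φ := by
    intro a b hab
    apply Real.smoothTransition.monotone
    have : a / e ≤ b / e := by gcongr
    linarith
  set T : ℝ → ℝ := fun s => ∫ t in (0 : ℝ)..s, φ t with hT
  have hTd : ∀ s, HasDerivAt T (φ s) s := fun s =>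
    intervalIntegral.integral_hasDerivAt_right (hφc.intervalIntegrable _ _)
      (hφc.stronglyMeasurableAtFilter _ _) hφc.continuousAt
  have hTderiv : deriv T = φ := funext fun s => (hTd s).deriv
  have hi : ∀ a b, IntervalIntegrable φ volume a b := fun a b => hφc.intervalIntegrable _ _
  have hTnn : ∀ s, 0 ≤ s → 0 ≤ T s := fun s hs =>
    intervalIntegral.integral_nonneg hs (fun t _ => hφnn t)
  have hTle : ∀ s, 0 ≤ s → T s ≤ s := by
    intro s hs
    have h1 : T s ≤ ∫ _t in (0 : ℝ)..s, (1 : ℝ) :=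
      intervalIntegral.integral_mono_on hs (hi _ _) (by simp) (fun t _ => hφle t)
    simpa using h1
  have hTlin : ∀ s, 2 * e ≤ s → T s = s - (2 * e - T (2 * e)) := by
    intro s hs
    have h1 : T s = T (2 * e) + ∫ t in (2 * e)..s, φ t :=
      (intervalIntegral.integral_add_adjacent_intervals (hi _ _) (hi _ _)).symm
    have h2 : ∫ t in (2 * e)..s, φ t = ∫ _t in (2 * e)..s, (1 : ℝ) := by
      apply intervalIntegral.integral_congr
      intro t ht
      rw [uIcc_of_le hs] at ht
      exact hφ1 t ht.1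
    rw [h1, h2]
    simp
    ring
  refine ⟨T, 2 * e - T (2 * e), ?_, ?_, hTlin, ?_, ?_, ?_, ?_⟩
  · rw [contDiff_infty_iff_deriv]
    exact ⟨fun s => (hTd s).differentiableAt, hTderiv ▸ hφd⟩
  · intro s hs
    have h1 : ∫ t in (0 : ℝ)..s, φ t = ∫ _t in (0 : ℝ)..s, (0 : ℝ) := by
      apply intervalIntegral.integral_congr
      intro t ht
      apply hφ0
      rcases le_total 0 s with h0 | h0
      · rw [uIcc_of_le h0] at ht
        exact ht.2.trans hs
      · rw [uIcc_of_ge h0] at ht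
        exact ht.2.trans he.le
    show ∫ t in (0 : ℝ)..s, φ t = 0
    rw [h1]
    simp
  · have := hTle (2 * e) (by linarith)
    linarith
  · have := hTnn (2 * e) (by linarith)
    linarith
  · intro s hs
    refine ⟨?_, hTle s hs⟩
    rcases le_total (2 * e) s with h | h
    · rw [hTlin s h]
      have := hTnn (2 * e) (by linarith)
      linarith
    · have := hTnn s hs
      linarith
  · intro s
    rw [hTderiv]
    exact hφm.deriv_nonneg

theorem sw_lap_apply (f : ℂ → ℝ) (w : ℂ) : (Δ f) w = fderiv ℝ (fderiv ℝ f) w 1 1 +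
    fderiv ℝ (fderiv ℝ f) w Complex.I Complex.I := by
  rw [InnerProductSpace.laplacian_eq_iteratedFDeriv_complexPlane]
  simp only [iteratedFDeriv_two_apply]
  rfl

theorem sw_lap_comp_nonneg {T : ℝ → ℝ} (hT : ContDiff ℝ ∞ T)
    (h2 : ∀ s, 0 ≤ deriv (deriv T) s) {u : ℂ → ℝ} {w : ℂ}
    (hu : InnerProductSpace.HarmonicAt u w) : 0 ≤ (Δ (fun z => T (u z))) w := by
  have hu2 : ContDiffAt ℝ 2 u w := hu.1
  have hT1 : Differentiable ℝ T := hT.differentiable (by simp)
  have hT2 : ContDiff ℝ ∞ (deriv T) := (contDiff_infty_iff_deriv.mp hT).2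
  have hT2d : Differentiable ℝ (deriv T) := hT2.differentiable (by simp)
  have hdu : ∀ᶠ z in 𝓝 w, DifferentiableAt ℝ u z := by
    filter_upwards [hu2.eventually (by simp)] with z hz
    exact hz.differentiableAt (by simp)
  have h1 : fderiv ℝ (fun z => T (u z)) =ᶠ[𝓝 w] fun z => deriv T (u z) • fderiv ℝ u z := by
    filter_upwards [hdu] with z hz
    exact ((hT1 (u z)).hasDerivAt.comp_hasFDerivAt z hz.hasFDerivAt).fderiv
  have hduw : DifferentiableAt ℝ u w := hdu.self_of_nhds
  have hfd : DifferentiableAt ℝ (fderiv ℝ u) w :=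
    (hu2.fderiv_right (m := 1) (by norm_num)).differentiableAt (by simp)
  have hc : HasFDerivAt (fun z => deriv T (u z)) (deriv (deriv T) (u w) • fderiv ℝ u w) w :=
    (hT2d (u w)).hasDerivAt.comp_hasFDerivAt w hduw.hasFDerivAt
  have h3 : fderiv ℝ (fderiv ℝ (fun z => T (u z))) w =
      deriv T (u w) • fderiv ℝ (fderiv ℝ u) w +
        (deriv (deriv T) (u w) • fderiv ℝ u w).smulRight (fderiv ℝ u w) := by
    rw [h1.fderiv_eq]
    exact (hc.smul hfd.hasFDerivAt).fderiv
  have hlap : (Δ u) w = 0 := hu.2.self_of_nhds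
  rw [sw_lap_apply] at hlap ⊢
  rw [h3]
  simp only [_root_.add_apply, _root_.smul_apply,
    ContinuousLinearMap.smulRight_apply, smul_eq_mul]
  have e : deriv T (u w) * ((fderiv ℝ (fderiv ℝ u) w) 1) 1 +
        deriv (deriv T) (u w) * (fderiv ℝ u w) 1 * (fderiv ℝ u w) 1 +
      (deriv T (u w) * ((fderiv ℝ (fderiv ℝ u) w) Complex.I) Complex.I +
        deriv (deriv T) (u w) * (fderiv ℝ u w) Complex.I * (fderiv ℝ u w) Complex.I) =
      deriv T (u w) * (((fderiv ℝ (fderiv ℝ u) w) 1) 1 +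
        ((fderiv ℝ (fderiv ℝ u) w) Complex.I) Complex.I) +
      deriv (deriv T) (u w) * ((fderiv ℝ u w) 1 ^ 2 + (fderiv ℝ u w) Complex.I ^ 2) := by ring
  rw [e, hlap, mul_zero, zero_add]
  exact mul_nonneg (h2 _) (by positivity)

theorem sw_log_harm {y z : ℂ} (hz : z ≠ y) :
    InnerProductSpace.HarmonicAt (fun z => Real.log ‖z - y‖) z := by
  have h1 : AnalyticAt ℂ (fun z : ℂ => z - y) z := analyticAt_id.sub analyticAt_const
  exact h1.harmonicAt_log_norm (sub_ne_zero.mpr hz)

theorem sw_cda {f : ℂ → ℝ} {x : ℂ} (hf : InnerProductSpace.HarmonicAt f x) :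
    ContDiffAt ℝ ∞ f x := by
  have h : AnalyticAt ℝ f x := HarmonicAt.analyticAt hf
  exact h.contDiffAt

/-- Truncation of the Green function near the boundary and near the pole. -/
theorem sw_exists_F {Λ : Set ℂ} {g : ℂ → ℂ → ℝ} (hD : Dom Λ g) {y : ℂ} (hy : y ∈ Λ) {e : ℝ}
    (he : 0 < e) : ∃ (F : ℂ → ℝ) (K : Set ℂ), ContDiff ℝ ∞ F ∧ IsCompact K ∧ K ⊆ Λ ∧ y ∈ K ∧
      (∀ w, w ∉ K → F =ᶠ[𝓝 w] fun z => Real.log ‖z - y‖) ∧ (∀ w, 0 ≤ (Δ F) w) ∧
      (∀ w ∈ Λ, |F w - g w y| ≤ 2 * e) := by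
  classical
  obtain ⟨T, c, hT, hT0, hTlin, hc0, hc2, hTb, hT2⟩ := sw_exists_trunc he
  have hgh : ∀ w ∈ Λ, InnerProductSpace.HarmonicAt (fun w => g w y) w := hD.green.harm y hy
  have hgc : ∀ w ∈ Λ, ContinuousAt (fun w => g w y) w := fun w hw => (hgh w hw).1.continuousAt
  have hlc : ∀ z : ℂ, z ≠ y → ContinuousAt (fun z : ℂ => Real.log ‖z - y‖) z := by
    intro z hz
    exact (sw_log_harm hz).1.continuousAt
  set u : ℂ → ℝ := fun w => g w y - Real.log ‖w - y‖ with hu
  have huh : ∀ w ∈ Λ, w ≠ y → InnerProductSpace.HarmonicAt u w := fun w hw hwy =>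
    (hgh w hw).sub (sw_log_harm hwy)
  have hunn : ∀ w ∈ Λ, w ≠ y → 0 ≤ u w := by
    intro w hw hwy
    have := log_norm_le hD hw hy hwy
    simp only [hu]
    linarith
  -- `u` is large near `y`
  have hubig : ∀ᶠ w in 𝓝 y, w ≠ y → 2 * e ≤ u w := by
    have h1 : ∀ᶠ w in 𝓝 y, g y y - 1 < g w y :=
      (hgc y hy).eventually_const_lt (by linarith)
    have h2 : ∀ᶠ w in 𝓝 y, ‖w - y‖ < Real.exp (g y y - 1 - 2 * e) := by
      have hcn : ContinuousAt (fun w : ℂ => ‖w - y‖) y := by fun_prop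
      apply hcn.eventually_lt_const
      simp only [sub_self, norm_zero]
      exact Real.exp_pos _
    filter_upwards [h1, h2] with w hw1 hw2 hwy
    have hpos : 0 < ‖w - y‖ := norm_pos_iff.mpr (sub_ne_zero.mpr hwy)
    have h3 : Real.log ‖w - y‖ < g y y - 1 - 2 * e := (Real.log_lt_iff_lt_exp hpos).mpr hw2
    simp only [hu]
    linarith
  -- `u` is small near points outside `Λ`
  have husmall : ∀ w, w ∉ Λ → ∀ᶠ z in 𝓝 w, z ∈ Λ → u z < e := by
    intro w hw
    by_cases hcl : w ∈ closure Λ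
    · have hf : w ∈ frontier Λ := by
        rw [hD.isOpen.frontier_eq]
        exact ⟨hcl, hw⟩
      have hwy : w ≠ y := by
        rintro rfl
        exact hw hy
      have h1 : Tendsto (fun x => g x y) (𝓝[Λ] w) (𝓝 (Real.log ‖w - y‖)) :=
        hD.green.bdry y hy w hf
      have h2 : Tendsto (fun x : ℂ => Real.log ‖x - y‖) (𝓝[Λ] w) (𝓝 (Real.log ‖w - y‖)) :=
        (hlc w hwy).tendsto.mono_left nhdsWithin_le_nhds
      have h3 := h1.sub h2
      rw [sub_self] at h3
      exact eventually_nhdsWithin_iff.mp (h3.eventually (gt_mem_nhds he))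
    · have h1 : ∀ᶠ z in 𝓝 w, z ∈ (closure Λ)ᶜ :=
        isClosed_closure.isOpen_compl.mem_nhds hcl
      filter_upwards [h1] with z hz hzΛ
      exact absurd (subset_closure hzΛ) hz
  have hyev : ∀ w, w ≠ y → ∀ᶠ z in 𝓝 w, z ≠ y := fun w hw => isOpen_ne.mem_nhds hw
  have hΛev : ∀ w ∈ Λ, ∀ᶠ z in 𝓝 w, z ∈ Λ := fun w hw => hD.isOpen.mem_nhds hw
  set F : ℂ → ℝ := fun w => if w = y then g y y - c else
    if w ∈ Λ then T (u w) + Real.log ‖w - y‖ else Real.log ‖w - y‖ with hF
  have hFy : F y = g y y - c := by simp [hF]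
  have hFin : ∀ w ∈ Λ, w ≠ y → F w = T (u w) + Real.log ‖w - y‖ := by
    intro w hw hwy
    simp [hF, hw, hwy]
  have hFout : ∀ w, w ∉ Λ → F w = Real.log ‖w - y‖ := by
    intro w hw
    have hwy : w ≠ y := by
      rintro rfl
      exact hw hy
    simp [hF, hw, hwy]
  have hFa : ∀ w ∈ Λ, w ≠ y → F =ᶠ[𝓝 w] (fun z => T (u z)) + fun z => Real.log ‖z - y‖ := by
    intro w hw hwy
    filter_upwards [hyev w hwy, hΛev w hw] with z hzy hzΛ
    exact hFin z hzΛ hzy
  have hFb : F =ᶠ[𝓝 y] (fun z => g z y) - fun _ => c := by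
    filter_upwards [hubig, hΛev y hy] with z hz hzΛ
    by_cases hzy : z = y
    · subst hzy
      exact hFy
    · rw [hFin z hzΛ hzy, hTlin _ (hz hzy)]
      simp only [hu, Pi.sub_apply]
      ring
  have hFc : ∀ w, w ∉ Λ → F =ᶠ[𝓝 w] fun z => Real.log ‖z - y‖ := by
    intro w hw
    have hwy : w ≠ y := by
      rintro rfl
      exact hw hy
    filter_upwards [husmall w hw, hyev w hwy] with z hz hzy
    by_cases hzΛ : z ∈ Λ
    · rw [hFin z hzΛ hzy, hT0 _ (hz hzΛ).le, zero_add]
    · exact hFout z hzΛ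
  set K : Set ℂ := {w | w ∈ Λ ∧ (w = y ∨ e ≤ u w)} with hK
  have hKΛ : K ⊆ Λ := fun w hw => hw.1
  have hFd : ∀ w, w ∉ K → F =ᶠ[𝓝 w] fun z => Real.log ‖z - y‖ := by
    intro w hw
    by_cases hwΛ : w ∈ Λ
    · have hwy : w ≠ y := fun h => hw ⟨hwΛ, Or.inl h⟩
      have hlt : u w < e := by
        by_contra h
        push Not at h
        exact hw ⟨hwΛ, Or.inr h⟩
      have huc : ContinuousAt u w := (huh w hwΛ hwy).1.continuousAt
      filter_upwards [huc.eventually_lt_const hlt, hyev w hwy, hΛev w hwΛ] with z hz hzy hzΛ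
      rw [hFin z hzΛ hzy, hT0 _ hz.le, zero_add]
    · exact hFc w hwΛ
  refine ⟨F, K, ?_, ?_, hKΛ, ⟨hy, Or.inl rfl⟩, hFd, ?_, ?_⟩
  · rw [contDiff_iff_contDiffAt]
    intro w
    by_cases hwK : w ∈ K
    · by_cases hwy : w = y
      · subst hwy
        apply ContDiffAt.congr_of_eventuallyEq _ hFb
        exact (sw_cda (hgh w hy)).sub contDiffAt_const
      · apply ContDiffAt.congr_of_eventuallyEq _ (hFa w hwK.1 hwy)
        apply ContDiffAt.add
        · exact hT.contDiffAt.comp w (sw_cda (huh w hwK.1 hwy))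
        · exact sw_cda (sw_log_harm hwy)
    · have hwy : w ≠ y := by
        rintro rfl
        exact hwK ⟨hy, Or.inl rfl⟩
      apply ContDiffAt.congr_of_eventuallyEq _ (hFd w hwK)
      exact sw_cda (sw_log_harm hwy)
  · have hKc : IsClosed K := by
      rw [← isOpen_compl_iff, isOpen_iff_mem_nhds]
      intro w hw
      by_cases hwΛ : w ∈ Λ
      · have hwy : w ≠ y := fun h => hw ⟨hwΛ, Or.inl h⟩
        have hlt : u w < e := by
          by_contra h
          push Not at h
          exact hw ⟨hwΛ, Or.inr h⟩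
        have huc : ContinuousAt u w := (huh w hwΛ hwy).1.continuousAt
        filter_upwards [huc.eventually_lt_const hlt, hyev w hwy] with z hz hzy hzK
        rcases hzK.2 with h | h
        · exact hzy h
        · exact absurd hz (not_lt.mpr h)
      · have hwy : w ≠ y := by
          rintro rfl
          exact hwΛ hy
        filter_upwards [husmall w hwΛ, hyev w hwy] with z hz hzy hzK
        rcases hzK.2 with h | h
        · exact hzy h
        · exact absurd (hz hzK.1) (not_lt.mpr h)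
    exact Metric.isCompact_of_isClosed_isBounded hKc (hD.bdd.subset hKΛ)
  · intro w
    by_cases hwK : w ∈ K
    · by_cases hwy : w = y
      · subst hwy
        rw [(InnerProductSpace.laplacian_congr_nhds hFb).self_of_nhds,
          (hgh w hy).1.laplacian_sub contDiffAt_const, (hgh w hy).2.self_of_nhds]
        simp
      · rw [(InnerProductSpace.laplacian_congr_nhds (hFa w hwK.1 hwy)).self_of_nhds]
        have huw := huh w hwK.1 hwy
        rw [ContDiffAt.laplacian_add ?_ (sw_log_harm hwy).1,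
          (sw_log_harm hwy).2.self_of_nhds]
        · simp only [Pi.zero_apply, add_zero]
          exact sw_lap_comp_nonneg hT hT2 huw
        · have hTw : ContDiff ℝ 2 T := by exact_mod_cast contDiff_infty.mp hT 2
          exact hTw.contDiffAt.comp w huw.1
    · have hwy : w ≠ y := by
        rintro rfl
        exact hwK ⟨hy, Or.inl rfl⟩
      rw [(InnerProductSpace.laplacian_congr_nhds (hFd w hwK)).self_of_nhds,
        (sw_log_harm hwy).2.self_of_nhds]
      simp
  · intro w hw
    by_cases hwy : w = y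
    · subst hwy
      rw [hFy, abs_le]
      constructor <;> linarith
    · rw [hFin w hw hwy]
      have h1 := hTb (u w) (hunn w hw hwy)
      have h2 : T (u w) + Real.log ‖w - y‖ - g w y = T (u w) - u w := by
        simp only [hu]
        ring
      rw [h2, abs_le]
      constructor <;> linarith

/-- Smooth approximate sweeping (balayage) of the unit mass at `y` to the boundary. -/
theorem sweep {Λ : Set ℂ} {g : ℂ → ℂ → ℝ} (hD : Dom Λ g) {y : ℂ} (hy : y ∈ Λ) {ε : ℝ}
    (hε : 0 < ε) : ∃ ρ : ℂ → ℝ, Continuous ρ ∧ HasCompactSupport ρ ∧ tsupport ρ ⊆ Λ ∧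
      (∀ z, 0 ≤ ρ z) ∧
      (∀ u : ℂ → ℝ, InnerProductSpace.HarmonicOnNhd u Λ → ∫ z, u z * ρ z = u y) ∧
      (∀ w ∈ Λ, |(∫ z, Real.log ‖z - w‖ * ρ z) - g w y| ≤ ε) := by
  obtain ⟨F, K, hF, hKc, hKΛ, hyK, hFK, hlap, hFg⟩ :=
    sw_exists_F hD hy (e := ε / 2) (by linarith)
  have hπ : (0 : ℝ) < 2 * Real.pi := by positivity
  have hlog0 : ∀ w, w ∉ K → (Δ F) w = 0 := by
    intro w hwK
    have hwy : w ≠ y := by
      rintro rfl
      exact hwK hyK
    rw [(InnerProductSpace.laplacian_congr_nhds (hFK w hwK)).self_of_nhds,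
      (sw_log_harm hwy).2.self_of_nhds]
    rfl
  have hlapc : Continuous (Δ F) := by
    have h1 : ContDiff ℝ ∞ (fderiv ℝ F) := hF.fderiv_right (by simp)
    have h2 : ContDiff ℝ ∞ (fderiv ℝ (fderiv ℝ F)) := h1.fderiv_right (by simp)
    have h3 : Δ F = fun w => fderiv ℝ (fderiv ℝ F) w 1 1 +
        fderiv ℝ (fderiv ℝ F) w Complex.I Complex.I := funext fun w => sw_lap_apply F w
    rw [h3]
    have h4 := h2.continuous
    fun_prop
  set ρ : ℂ → ℝ := fun z => (2 * Real.pi)⁻¹ * (Δ F) z with hρ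
  have hρ0 : ∀ z, z ∉ K → ρ z = 0 := by
    intro z hz
    simp only [hρ]
    rw [hlog0 z hz, mul_zero]
  have hts : tsupport ρ ⊆ K := by
    apply closure_minimal _ hKc.isClosed
    intro z hz
    by_contra h
    exact hz (hρ0 z h)
  have hρc : Continuous ρ := continuous_const.mul hlapc
  refine ⟨ρ, hρc, HasCompactSupport.intro hKc hρ0, hts.trans hKΛ, ?_, ?_, ?_⟩
  · intro z
    exact mul_nonneg (by positivity) (hlap z)
  · intro v hv
    obtain ⟨L, hLc, hKL, hLΛ⟩ := exists_compact_between hKc hD.isOpen hKΛ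
    obtain ⟨χ, hχ1, hχ0, -⟩ := exists_contMDiffMap_one_nhds_of_subset_interior
      (modelWithCornersSelf ℝ ℂ) (n := ⊤) hKc.isClosed hKL
    have hχd : ContDiff ℝ ∞ (χ : ℂ → ℝ) := χ.contMDiff.contDiff
    have hχ1' : ∀ w ∈ K, ∀ᶠ z in 𝓝 w, χ z = 1 := fun w hw =>
      hχ1.filter_mono (nhds_le_nhdsSet hw)
    set a : ℂ → ℝ := fun z => v z * χ z with ha
    have haL : ∀ z, z ∉ L → a z = 0 := by
      intro z hz
      simp only [ha]
      rw [hχ0 z hz, mul_zero]
    have haK : ∀ w ∈ K, a =ᶠ[𝓝 w] v := by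
      intro w hw
      filter_upwards [hχ1' w hw] with z hz
      simp only [ha]
      rw [hz, mul_one]
    have hasupp : HasCompactSupport a := HasCompactSupport.intro hLc haL
    have hasm : ContDiff ℝ ∞ a := by
      rw [contDiff_iff_contDiffAt]
      intro w
      by_cases hwΛ : w ∈ Λ
      · exact (sw_cda (hv w hwΛ)).mul hχd.contDiffAt
      · have hwL : w ∉ L := fun h => hwΛ (hLΛ h)
        have hev : a =ᶠ[𝓝 w] fun _ => (0 : ℝ) := by
          filter_upwards [hLc.isClosed.isOpen_compl.mem_nhds hwL] with z hz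
          exact haL z hz
        exact contDiffAt_const.congr_of_eventuallyEq hev
    obtain ⟨R, hR⟩ := hLc.isBounded.subset_closedBall (0 : ℂ)
    have hnew := newton hasm (κ := 0) (R := R + 1) (y := y) (by
      intro z hz
      rw [zero_mul]
      apply haL
      intro hzL
      have := hR hzL
      rw [mem_closedBall_zero_iff] at this
      linarith) y
    have h1 : ∀ z, v z * ρ z = (2 * Real.pi)⁻¹ * (a z * (Δ F) z) := by
      intro z
      by_cases hz : z ∈ K
      · have : a z = v z := (haK z hz).self_of_nhds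
        rw [this]
        simp only [hρ]
        ring
      · rw [hρ0 z hz, hlog0 z hz]
        simp
    have h2 : ∀ z, (Δ a) z * F z = Real.log ‖z - y‖ * (Δ a) z := by
      intro z
      by_cases hz : z ∈ K
      · have : (Δ a) z = 0 := by
          rw [(InnerProductSpace.laplacian_congr_nhds (haK z hz)).self_of_nhds,
            (hv z (hKΛ hz)).2.self_of_nhds]
          rfl
        rw [this]
        simp
      · rw [(hFK z hz).self_of_nhds]
        ring
    calc ∫ z, v z * ρ z = ∫ z, (2 * Real.pi)⁻¹ * (a z * (Δ F) z) := by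
          congr 1
          funext z
          exact h1 z
      _ = (2 * Real.pi)⁻¹ * ∫ z, a z * (Δ F) z := integral_const_mul _ _
      _ = (2 * Real.pi)⁻¹ * ∫ z, (Δ a) z * F z := by rw [green_symm hasm hasupp hF]
      _ = (2 * Real.pi)⁻¹ * ∫ z, Real.log ‖z - y‖ * (Δ a) z := by
          congr 2
          funext z
          exact h2 z
      _ = (2 * Real.pi)⁻¹ * (2 * Real.pi * a y) := by rw [hnew]
      _ = v y := by
          have : a y = v y := (haK y hyK).self_of_nhds
          rw [this]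
          field_simp
  · intro w hw
    obtain ⟨R, hR⟩ := hKc.isBounded.subset_closedBall (0 : ℂ)
    have hnew := newton hF (κ := 1) (R := R + 1) (y := y) (by
      intro z hz
      rw [one_mul]
      have hzK : z ∉ K := by
        intro hzK
        have := hR hzK
        rw [mem_closedBall_zero_iff] at this
        linarith
      exact (hFK z hzK).self_of_nhds) w
    have h1 : ∫ z, Real.log ‖z - w‖ * ρ z = F w := by
      calc ∫ z, Real.log ‖z - w‖ * ρ z
          = ∫ z, (2 * Real.pi)⁻¹ * (Real.log ‖z - w‖ * (Δ F) z) := by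
            congr 1
            funext z
            simp only [hρ]
            ring
        _ = (2 * Real.pi)⁻¹ * ∫ z, Real.log ‖z - w‖ * (Δ F) z := integral_const_mul _ _
        _ = F w := by
            rw [hnew]
            field_simp
    rw [h1]
    have := hFg w hw
    linarith

end Pool.Agent.Lib.MP_fa244c_mp
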