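import Pool.Agent.Lib.MP_fa244c_mp.Sweep
import Pool.Agent.Lib.MP_fa244c_mp.Disk

set_option autoImplicit false

open MeasureTheory Filter Topology Set
open scoped ContDiff

namespace Pool.Agent.Lib.MP_fa244c_mp

/-- The logarithmic kernel is integrable against bounded compactly supported densities. -/
theorem log_integrable {ρ σ : ℂ → ℝ} (hρ : Continuous ρ) (hρc : HasCompactSupport ρ)
    (hσ : Continuous σ) (hσc : HasCompactSupport σ) :
    Integrable (fun p : ℂ × ℂ => Real.log ‖p.1 - p.2‖ * (ρ p.1 * σ p.2)) := by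
  set K : Set ℂ := tsupport ρ ∪ tsupport σ with hK
  have hKc : IsCompact K := IsCompact.union hρc hσc
  have hKm : MeasurableSet K := hKc.measurableSet
  obtain ⟨B, hB⟩ := hρc.exists_bound_of_continuous hρ
  obtain ⟨B', hB'⟩ := hσc.exists_bound_of_continuous hσ
  have hc : Continuous fun p : ℂ × ℂ => ρ p.1 * σ p.2 :=
    (hρ.comp continuous_fst).mul (hσ.comp continuous_snd)
  have h1 : Integrable (fun p : ℂ × ℂ => Real.log ‖p.1 - p.2‖ * (ρ p.1 * σ p.2))
      ((volume.restrict K).prod (volume.restrict K)) := by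
    refine (dk_log_int hKc).mul_bdd (c := B * B') hc.aestronglyMeasurable
      (Eventually.of_forall fun p => ?_)
    rw [norm_mul]
    exact mul_le_mul (hB _) (hB' _) (norm_nonneg _) ((norm_nonneg _).trans (hB p.1))
  rw [Measure.prod_restrict, ← Measure.volume_eq_prod] at h1
  refine (integrableOn_iff_integrable_of_support_subset ?_).1 h1
  intro p hp
  rw [Function.mem_support] at hp
  have hp1 : ρ p.1 ≠ 0 := fun h => hp (by rw [h]; simp)
  have hp2 : σ p.2 ≠ 0 := fun h => hp (by rw [h]; simp)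
  exact ⟨Or.inl (subset_tsupport _ hp1), Or.inr (subset_tsupport _ hp2)⟩

/-- A function continuous near the support of a density is integrable against it. -/
theorem sy_integrable {Λ : Set ℂ} {u ρ : ℂ → ℝ} (hu : ContinuousOn u Λ) (hρ : Continuous ρ)
    (hρc : HasCompactSupport ρ) (hρΛ : tsupport ρ ⊆ Λ) : Integrable fun z => u z * ρ z := by
  have h1 : IntegrableOn (fun z => u z * ρ z) (tsupport ρ) :=
    ((hu.mono hρΛ).mul hρ.continuousOn).integrableOn_compact hρc
  refine (integrableOn_iff_integrable_of_support_subset ?_).1 h1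
  intro z hz
  rw [Function.mem_support] at hz
  have hz1 : ρ z ≠ 0 := fun h => hz (by rw [h]; simp)
  exact subset_tsupport _ hz1

/-- The logarithmic energy of two sweepings. -/
theorem sweep_pair {Λ : Set ℂ} {g : ℂ → ℂ → ℝ} (hD : Dom Λ g) {x y : ℂ}
    (hy : y ∈ Λ) {ρ σ : ℂ → ℝ} (hρ : Continuous ρ) (hρc : HasCompactSupport ρ)
    (hρΛ : tsupport ρ ⊆ Λ) (hρ0 : ∀ z, 0 ≤ ρ z)
    (hρr : ∀ u : ℂ → ℝ, InnerProductSpace.HarmonicOnNhd u Λ → ∫ z, u z * ρ z = u x)
    (hσ : Continuous σ) (hσc : HasCompactSupport σ) {ε : ℝ}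
    (hσp : ∀ w ∈ Λ, |(∫ z, Real.log ‖z - w‖ * σ z) - g w y| ≤ ε) :
    |(∫ p : ℂ × ℂ, Real.log ‖p.1 - p.2‖ * (ρ p.1 * σ p.2)) - g x y| ≤ ε := by
  have hI := log_integrable hρ hρc hσ hσc
  rw [Measure.volume_eq_prod] at hI ⊢
  have h1 : ∫ p : ℂ × ℂ, Real.log ‖p.1 - p.2‖ * (ρ p.1 * σ p.2)
      ∂((volume : Measure ℂ).prod (volume : Measure ℂ)) =
      ∫ z, (∫ w, Real.log ‖w - z‖ * σ w) * ρ z := by
    rw [integral_prod _ hI]
    refine integral_congr_ae (Eventually.of_forall fun z => ?_)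
    simp only
    rw [← integral_mul_const]
    refine integral_congr_ae (Eventually.of_forall fun w => ?_)
    simp only
    rw [norm_sub_rev z w]
    ring
  have h1i : Integrable fun z => (∫ w, Real.log ‖w - z‖ * σ w) * ρ z := by
    refine hI.integral_prod_left.congr (Eventually.of_forall fun z => ?_)
    simp only
    rw [← integral_mul_const]
    refine integral_congr_ae (Eventually.of_forall fun w => ?_)
    simp only
    rw [norm_sub_rev z w]
    ring
  have hgc : ContinuousOn (fun z => g z y) Λ := (hD.green.harm y hy).continuousOn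
  have h2i : Integrable fun z => g z y * ρ z := sy_integrable hgc hρ hρc hρΛ
  have h2 : ∫ z, g z y * ρ z = g x y := hρr _ (hD.green.harm y hy)
  have h3 : ∫ z, ρ z = 1 := by
    have := hρr (fun _ => 1) (InnerProductSpace.harmonicOnNhd_const 1)
    simpa using this
  have h3i : Integrable ρ := hρ.integrable_of_hasCompactSupport hρc
  rw [h1, ← h2, ← integral_sub h1i h2i, ← Real.norm_eq_abs]
  have h4 : ∀ z, ‖(∫ w, Real.log ‖w - z‖ * σ w) * ρ z - g z y * ρ z‖ ≤ ε * ρ z := by
    intro z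
    by_cases hz : z ∈ Λ
    · rw [← sub_mul, norm_mul, Real.norm_eq_abs, Real.norm_eq_abs, abs_of_nonneg (hρ0 z)]
      exact mul_le_mul_of_nonneg_right (hσp z hz) (hρ0 z)
    · have : ρ z = 0 := image_eq_zero_of_notMem_tsupport fun h => hz (hρΛ h)
      rw [this]
      simp
  refine (norm_integral_le_of_norm_le (h3i.const_mul ε) (Eventually.of_forall h4)).trans ?_
  rw [integral_const_mul, h3, mul_one]

/-- Symmetry of the Green function. -/
theorem g_symm {Λ : Set ℂ} {g : ℂ → ℂ → ℝ} (hD : Dom Λ g) {x y : ℂ} (hx : x ∈ Λ) (hy : y ∈ Λ) :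
    g x y = g y x := by
  have key : ∀ ε : ℝ, 0 < ε → |g x y - g y x| ≤ 2 * ε := by
    intro ε hε
    obtain ⟨ρ, hρ, hρc, hρΛ, hρ0, hρr, hρp⟩ := sweep hD hx hε
    obtain ⟨σ, hσ, hσc, hσΛ, hσ0, hσr, hσp⟩ := sweep hD hy hε
    have h1 := sweep_pair hD hy hρ hρc hρΛ hρ0 hρr hσ hσc hσp
    have h2 := sweep_pair hD hx hσ hσc hσΛ hσ0 hσr hρ hρc hρp
    have h3 : ∫ p : ℂ × ℂ, Real.log ‖p.1 - p.2‖ * (σ p.1 * ρ p.2) =
        ∫ p : ℂ × ℂ, Real.log ‖p.1 - p.2‖ * (ρ p.1 * σ p.2) := by
      rw [Measure.volume_eq_prod, ← integral_prod_swap]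
      refine integral_congr_ae (Eventually.of_forall fun p => ?_)
      simp only [Prod.fst_swap, Prod.snd_swap]
      rw [norm_sub_rev p.2 p.1]
      ring
    rw [h3] at h2
    rw [abs_le] at h1 h2 ⊢
    constructor <;> linarith [h1.1, h1.2, h2.1, h2.2]
  by_contra hne
  have hpos : 0 < |g x y - g y x| := abs_pos.2 (sub_ne_zero.2 hne)
  have := key (|g x y - g y x| / 4) (by linarith)
  linarith

end Pool.Agent.Lib.MP_fa244c_mp
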